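import Pool.Agent.Work.MP_af796d_an.Defs

set_option autoImplicit false

namespace Pool.Agent.Work.MP_af796d_an

open MeasureTheory Set

/-- The mean value of `u` over the interval with end points `y` and `y + s`. -/
noncomputable def mean (u : ℝ → ℝ) (y s : ℝ) : ℝ := (∫ t in y..(y + s), u t) / s

/-- The uniform de la Vallée Poussin class: bounded measurable `2π`-periodic functions `u` such that
`s ↦ mean u y s` has total variation at most `C` on `(0, π]` and on `[-π, 0)`, for every `y`. -/
def VP (u : ℝ → ℝ) : Prop :=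
  Measurable u ∧ Function.Periodic u (2 * Real.pi) ∧ (∃ B : ℝ, ∀ t, |u t| ≤ B) ∧
    ∃ C : NNReal, ∀ y : ℝ, eVariationOn (mean u y) (Ioc 0 Real.pi) ≤ C ∧
      eVariationOn (mean u y) (Ico (-Real.pi) 0) ≤ C

/-- The `2π`-periodic weight `e^b` is a Muckenhoupt `A_∞` weight, in the form of the reverse Jensen
inequality: on every arc the arithmetic mean of the weight is at most `C` times its geometric
mean. -/
def AInf (b : ℝ → ℝ) : Prop :=
  Measurable b ∧ Function.Periodic b (2 * Real.pi) ∧
    (∀ a c, IntervalIntegrable b volume a c) ∧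
    (∀ a c, IntervalIntegrable (fun t => Real.exp (b t)) volume a c) ∧
    ∃ C : ℝ, ∀ y s, 0 < s → s ≤ 2 * Real.pi →
      mean (fun t => Real.exp (b t)) y s ≤ C * Real.exp (mean b y s)

/-- `w` is a conjugate function of `v` (up to an additive constant): the Fourier coefficients of
`v + i w` of negative index vanish. -/
def IsConj (v w : ℝ → ℝ) : Prop :=
  ∀ n : ℕ, 1 ≤ n → ∫ t in (0 : ℝ)..(2 * Real.pi),
    ((v t : ℂ) + Complex.I * (w t : ℂ)) * Complex.exp (Complex.I * n * t) = 0

/-- Helson-Szegő type condition on a self-map `ψ` of the circle: `ψ` has an absolutely continuous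
lift `Ψ` with `Ψ' = ± e^b`, the weight `e^b` is in `A_∞`, and `b = u + ṽ` with `u`, `v` in the
uniform de la Vallée Poussin class, `ṽ` a conjugate function of `v`. -/
def HS (ψ : Circle → Circle) : Prop :=
  ∃ (Ψ b u v : ℝ → ℝ) (ε : ℝ), (ε = 1 ∨ ε = -1) ∧ (∀ t, ψ (Circle.exp t) = Circle.exp (Ψ t)) ∧
    (∀ a c, Ψ c - Ψ a = ε * ∫ t in a..c, Real.exp (b t)) ∧ AInf b ∧ VP u ∧ VP v ∧
    IsConj v (fun t => b t - u t)

end Pool.Agent.Work.MP_af796d_an
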