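import Pool.Agent.Work.MP_af796d_an.Mod2
import Pool.Agent.Work.MP_af796d_an.H.Defs

-- merged part: Pool.Agent.Work.MP_af796d_an.H.Basic
section
/-! Working definitions for the Helson-Szegő type characterisation.  No proofs here.
Conventions: `rr k = 2^{-k}`, annulus `A_k = [rr (k+1), rr k]`, `ex t = e^{it}`,
`ch t = |e^{it} - 1|`, `lg = log ch`, `sg = lg - log`. -/

set_option autoImplicit false

namespace Pool.Agent.Work.MP_af796d_an.H

open MeasureTheory Set Real Metric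

/-- reverse Jensen form of `A_∞` with constant `C` (no periodicity). -/
structure AI (b : ℝ → ℝ) (C : ℝ) : Prop where
  meas : Measurable b
  ii : ∀ a c, IntervalIntegrable b volume a c
  iie : ∀ a c, IntervalIntegrable (fun t => Real.exp (b t)) volume a c
  hru : ∀ a c, a < c → c ≤ a + 2 * π →
    (∫ t in a..c, Real.exp (b t)) / (c - a) ≤ C * Real.exp ((∫ t in a..c, b t) / (c - a))

/-- mass of the weight. -/
noncomputable def mu (b : ℝ → ℝ) (a c : ℝ) : ℝ := ∫ t in a..c, Real.exp (b t)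

/-- one side of `b` seen from `y`; `σ` is `1` or `-1`. -/
def sd (b : ℝ → ℝ) (y σ : ℝ) : ℝ → ℝ := fun r => b (y + σ * r)

/-- one-sided mass. -/
noncomputable def SS (β : ℝ → ℝ) (r : ℝ) : ℝ := ∫ t in (0 : ℝ)..r, Real.exp (β t)

/-- `W = r S'/S`. -/
noncomputable def WW (β : ℝ → ℝ) (r : ℝ) : ℝ := r * Real.exp (β r) / SS β r

/-- `e^g - 1 - g`. -/
noncomputable def eg (g : ℝ) : ℝ := Real.exp g - 1 - g

/-- one-sided standing hypothesis. -/
structure OS (β : ℝ → ℝ) (C : ℝ) : Prop where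
  ai : AI β C
  lo : 1 / C ≤ SS β π
  hi : SS β π ≤ 2 * π - 1 / C

/-- two-sided standing hypothesis: an absolutely continuous lift with `A_∞` derivative `e^b`. -/
structure St (Φ b : ℝ → ℝ) (C : ℝ) : Prop where
  good : Good Φ
  ai : AI b C
  per : Function.Periodic b (2 * π)
  int : ∀ a c, Φ c - Φ a = ∫ t in a..c, Real.exp (b t)

/-- sequences with values in `[1/C, C]` and variation at most `C`. -/
structure CS (c : ℕ → ℝ) (C : ℝ) : Prop where
  one : 1 ≤ C
  lo : ∀ k, 1 / C ≤ c k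
  hi : ∀ k, c k ≤ C
  bv : ∀ n, ∑ k ∈ Finset.range n, |c (k + 1) - c k| ≤ C

/-- nonnegative sequences with sum at most `C`. -/
structure SM (N : ℕ → ℝ) (C : ℝ) : Prop where
  nn : ∀ k, 0 ≤ N k
  sum : ∀ n, ∑ k ∈ Finset.range n, N k ≤ C

/-- one-sided structure of `W`. -/
structure WS1 (β : ℝ → ℝ) (c N : ℕ → ℝ) (C : ℝ) : Prop where
  cs : CS c C
  sm : SM N C
  osc : ∀ k, ∫ r in (rr (k + 1))..(rr k), min 1 ((Real.log (WW β r / c k)) ^ 2) ≤ rr k * N k

/-- two-sided structure of `W` at the point `y`, with the same `c` on both sides. -/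
def WSy (b : ℝ → ℝ) (y : ℝ) (c : ℕ → ℝ) (C : ℝ) : Prop :=
  ∃ N₁ N₂ : ℕ → ℝ, WS1 (sd b y 1) c N₁ C ∧ WS1 (sd b y (-1)) c N₂ C

/-- truncated logarithm of the one-sided mass. -/
noncomputable def LT (β : ℝ → ℝ) (ρ r : ℝ) : ℝ := Real.log (SS β (max r ρ))

/-- two-sided truncated logarithm `log |Φ(y ± max |s| ρ) - Φ y|`. -/
noncomputable def LL (b : ℝ → ℝ) (y ρ s : ℝ) : ℝ :=
  if 0 ≤ s then LT (sd b y 1) ρ s else LT (sd b y (-1)) ρ (-s)

/-- the hub condition (real form). -/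
def HB (b : ℝ → ℝ) (K : ℝ) : Prop :=
  ∀ (y : ℝ) (g : ℂ → ℂ) (M : ℝ), AnalyticOnNhd ℂ g (closedBall 0 1) → (∀ t, ‖g (ex t)‖ ≤ M) →
    (∀ t, ch (t - y) * ‖deriv g (ex t)‖ ≤ M) → |∫ t in (0 : ℝ)..(2 * π), wg g t * b t| ≤ K * M

/-- derivative of `lg`. -/
noncomputable def lg1 (x : ℝ) : ℝ := Real.cos (x / 2) / (2 * Real.sin (x / 2))

/-- the scale weight `h x / (h + x)^2`. -/
noncomputable def om (h x : ℝ) : ℝ := h * x / (h + x) ^ 2

/-- tent-smoothed derivative. -/
noncomputable def Ed (δ : ℝ) (φ : ℝ → ℝ) (s : ℝ) : ℝ :=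
  (∫ τ in (0 : ℝ)..δ, (φ (s + τ) - φ (s - τ))) / δ ^ 2

/-- the analytic cut-off `h / (1 + h - z e^{-iy})`. -/
noncomputable def ta (h y : ℝ) (z : ℂ) : ℂ := (h : ℂ) / (1 + h - z * ex (-y))

/-- analytic approximation of the step function with value `d j` on the annulus `j`. -/
noncomputable def stp (d : ℕ → ℝ) (n : ℕ) (y : ℝ) (z : ℂ) : ℂ :=
  (d 0 : ℂ) + ∑ k ∈ Finset.range n, ((d (k + 1) - d k : ℝ) : ℂ) * ta (rr k) y z

/-- convolution of `d` with the geometric kernel. -/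
noncomputable def gc (d : ℕ → ℝ) (n j : ℕ) : ℝ :=
  ∑ k ∈ Finset.range n, |d (k + 1) - d k| * min (rr k / rr j) (rr j / rr k)

/-- boundary functions of functions analytic near the closed disc. -/
def An (f : ℝ → ℂ) : Prop :=
  ∃ g : ℂ → ℂ, AnalyticOnNhd ℂ g (closedBall 0 1) ∧ ∀ t, f t = g (ex t)

/-- the pairing `∫ f' b`. -/
noncomputable def pr (b : ℝ → ℝ) (f : ℝ → ℂ) : ℂ :=
  ∫ t in (0 : ℝ)..(2 * π), deriv f t * (b t : ℂ)

/-- the hub condition (complex form). -/
structure HC (b : ℝ → ℝ) (K : ℝ) : Prop where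
  ii : IntervalIntegrable b volume 0 (2 * π)
  nn : 0 ≤ K
  bd : ∀ (y : ℝ) (f : ℝ → ℂ) (M : ℝ), An f → (∀ t, ‖f t‖ ≤ M) →
    (∀ t, ch (t - y) * ‖deriv f t‖ ≤ M) → ‖pr b f‖ ≤ K * M

/-- one-sided de la Vallée Poussin data in integral form. -/
structure VI (V : ℝ → ℝ) (C : ℝ) : Prop where
  meas : Measurable V
  bd : ∀ r, |V r| ≤ C
  ii : IntervalIntegrable (fun r => |V r - mean V 0 r| / r) volume 0 π
  le : ∫ r in (0 : ℝ)..π, |V r - mean V 0 r| / r ≤ C

/-- two-sided, uniform version. -/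
structure VU (v : ℝ → ℝ) (C : ℝ) : Prop where
  meas : Measurable v
  per : Function.Periodic v (2 * π)
  pos : ∀ y, VI (sd v y 1) C
  neg : ∀ y, VI (sd v y (-1)) C

/-- the weight `min (1/h) (h/r^2)`. -/
noncomputable def kap (h r : ℝ) : ℝ := min (1 / h) (h / r ^ 2)

/-- `U` is the primitive of the conjugate function of `v`. -/
def LPI (w v : ℝ → ℝ) : Prop :=
  ∀ t, ∫ s in (0 : ℝ)..t, w s =
    (1 / π) * (∫ σ in (0 : ℝ)..(2 * π), lg (t - σ) * v σ) -
      (1 / π) * ∫ σ in (0 : ℝ)..(2 * π), lg σ * v σ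

/-- one-sided logarithmic model of `β` on the double annuli `[rr (k+2), rr k]`. -/
structure MS1 (β : ℝ → ℝ) (g e N : ℕ → ℝ) (C : ℝ) : Prop where
  bd : ∀ k, |g k| ≤ C
  bv : ∀ n, ∑ k ∈ Finset.range n, |g (k + 1) - g k| ≤ C
  sm : SM N C
  ii : ∀ k, IntervalIntegrable (fun r => (β r - g k * Real.log r - e k) ^ 2) volume
    (rr (k + 2)) (rr k)
  osc : ∀ k, ∫ r in (rr (k + 2))..(rr k), (β r - g k * Real.log r - e k) ^ 2 ≤ rr k * N k
  jmp : ∀ n, ∑ k ∈ Finset.range n,
    |(g k - g (k + 1)) * Real.log (rr (k + 1)) + (e k - e (k + 1))| ≤ C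

end Pool.Agent.Work.MP_af796d_an.H
end

-- merged part: Pool.Agent.Work.MP_af796d_an.H.SDefs
section
/-! Definitions for the sufficiency part.  No proofs here. -/

set_option autoImplicit false

namespace Pool.Agent.Work.MP_af796d_an.H

open MeasureTheory Set Real Metric

/-- the condition `HS` for orientation preserving lifts. -/
def HSL (Φ : ℝ → ℝ) : Prop :=
  ∃ b u v : ℝ → ℝ, (∀ a c, Φ c - Φ a = ∫ t in a..c, Real.exp (b t)) ∧ AInf b ∧ VP u ∧ VP v ∧
    IsConj v (fun t => b t - u t)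

/-- working form of `HSL`. -/
structure SD (Φ b u v : ℝ → ℝ) (κ C : ℝ) : Prop where
  st : St Φ b C
  vu : VU u C
  vv : VU v C
  lp : LPI (fun t => b t - u t - κ) v

/-- dyadic data of one side of a function of class VP. -/
structure VD (V : ℝ → ℝ) (n : ℕ → ℝ) (C : ℝ) : Prop where
  sm : SM n C
  ii : ∀ k, IntervalIntegrable (fun r => |V r - mean V 0 (rr k)| * kap (rr k) r) volume 0 π
  le : ∀ k, ∫ r in (0 : ℝ)..π, |V r - mean V 0 (rr k)| * kap (rr k) r ≤ n k
  df : ∀ k, |mean V 0 (rr (k + 1)) - mean V 0 (rr k)| ≤ n k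

/-- `v (y + σ)` minus its one-sided means at scale `rr k`. -/
noncomputable def psi (v : ℝ → ℝ) (y : ℝ) (k : ℕ) (σ : ℝ) : ℝ :=
  v (y + σ) - if 0 < σ then mean (sd v y 1) 0 (rr k) else mean (sd v y (-1)) 0 (rr k)

/-- the near region at scale `rr k`. -/
def nr (k : ℕ) : Set ℝ := {σ | rr k / 8 ≤ |σ| ∧ |σ| ≤ 2 * rr k}

/-- slope of the logarithmic model. -/
noncomputable def gk (v : ℝ → ℝ) (y : ℝ) (k : ℕ) : ℝ :=
  (mean (sd v y 1) 0 (rr k) - mean (sd v y (-1)) 0 (rr k)) / π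

/-- constant of the logarithmic model. -/
noncomputable def ek (v : ℝ → ℝ) (y : ℝ) (k : ℕ) : ℝ :=
  (1 / π) * ((∫ σ in (2 * rr k)..π, lg1 (-σ) * psi v y k σ) +
    ∫ σ in (-π)..(-(2 * rr k)), lg1 (-σ) * psi v y k σ)

/-- logarithmic potential of a function on `[-π, π]`. -/
noncomputable def P0 (φ : ℝ → ℝ) (s : ℝ) : ℝ := (1 / π) * ∫ σ in (-π)..π, lg (s - σ) * φ σ

/-- `log |tan (s/2)|`. -/
noncomputable def ltan (s : ℝ) : ℝ := lg s - lg (s + π)

/-- the remainder of the local decomposition. -/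
noncomputable def RM (v : ℝ → ℝ) (y : ℝ) (k : ℕ) (s : ℝ) : ℝ :=
  P0 (fun σ => v (y + σ)) s - P0 ((nr k).indicator (psi v y k)) s -
    gk v y k * (∫ t in (0 : ℝ)..s, ltan t) - ek v y k * s

/-- imaginary part at the point `(1 - rr k) e^{iy}`. -/
noncomputable def IK (F : ℂ → ℂ) (y : ℝ) (k : ℕ) : ℝ := (F (((1 - rr k : ℝ) : ℂ) * ex y)).im

/-- radial oscillation of the imaginary part below scale `rr k`. -/
noncomputable def MK (F : ℂ → ℂ) (y : ℝ) (k : ℕ) : ℝ := |(F (ex y)).im - IK F y k|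

/-- a function of the disc algebra with absolutely continuous real part. -/
structure FH (F : ℂ → ℂ) (H H' : ℝ → ℝ) (M : ℝ) : Prop where
  dc : DiffContOnCl ℂ F (ball 0 1)
  re : ∀ s, H s = (F (ex s)).re
  bd : ∀ s, |H s| ≤ M
  ii : ∀ a c, IntervalIntegrable H' volume a c
  prim : ∀ a c, H c - H a = ∫ t in a..c, H' t
  per : Function.Periodic H' (2 * π)
  iJ : ∀ x a c, IntervalIntegrable (fun s => lg (s - x) * H' s) volume a c
  cj : ∀ x, (1 / π) * ∫ s in (-π)..π, lg s * H' (x + s) = (F (ex x)).im - (F 0).im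

/-- solution of the real equation `f' = c (f - H)/s` on the annuli `k ≤ j < n`. -/
structure OD (c : ℕ → ℝ) (k n : ℕ) (H : ℝ → ℝ) (M : ℝ) (f φ : ℝ → ℝ) : Prop where
  meas : Measurable φ
  bdd : ∃ B, ∀ s, |φ s| ≤ B
  prim : ∀ a x, f x - f a = ∫ t in a..x, φ t
  bd : ∀ s, |f s| ≤ M
  out : ∀ s, rr k ≤ |s| → f s = 0
  out' : ∀ s, rr k < |s| → φ s = 0
  inn : ∀ s, |s| ≤ rr n → rr n * |φ s| ≤ M
  ode : ∀ j, k ≤ j → j < n → ∀ s, rr (j + 1) < |s| → |s| ≤ rr j → φ s * s = c j * (f s - H s)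

/-- truncated Hilbert transform over the annulus `j`. -/
noncomputable def XA (f : ℝ → ℝ) (j : ℕ) : ℝ := ∫ r in (rr (j + 1))..(rr j), (f r - f (-r)) / r

/-- piecewise linear cut-off: `1` on `[0, r/2]`, `0` on `[r, ∞)`. -/
noncomputable def cut (r ρ : ℝ) : ℝ := max 0 (min 1 ((r - ρ) / (r / 2)))

/-- tent supported in `rr j / 4 ≤ |s| ≤ rr j`, divided by `s`. -/
noncomputable def tent (j : ℕ) (s : ℝ) : ℝ := (cut (rr j) |s| - cut (rr (j + 1)) |s|) / s

/-- the near term. -/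
noncomputable def JN (v : ℝ → ℝ) (y : ℝ) (F : ℂ → ℂ) (j : ℕ) : ℝ :=
  (∫ σ in (-π)..π, |(nr j).indicator (psi v y j) σ| * MK F σ j) / rr j

/-- the even logarithmic model on `|s| ≤ rr k`, constant on `|s| ≤ rr n`. -/
noncomputable def mdl (g e : ℕ → ℝ) (k n : ℕ) (s : ℝ) : ℝ :=
  (∑ j ∈ Finset.Ico k n, (Ioc (rr (j + 1)) (rr j)).indicator (fun r => g j * Real.log r + e j) |s|) +
    (Iic (rr n)).indicator (fun _ => g n * Real.log (rr n) + e n) |s|

/-- mean oscillation integral. -/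
noncomputable def oscI (V : ℝ → ℝ) (p q : ℝ) : ℝ :=
  ∫ r in p..q, |V r - (∫ t in p..q, V t) / (q - p)|

end Pool.Agent.Work.MP_af796d_an.H
end

-- merged part: Pool.Agent.Work.MP_af796d_an.H.Tools1
section
/-!
# Chord facts, the derivative of lg, the scale weight om, Abel summation
PLAN.
* ch_add_le: ex (a+b) - 1 = ex a * (ex b - 1) + (ex a - 1), norm_ex.  ch_sub_ch: two uses of it and ch_neg.
* hasDerivAt_lg: near x, lg = log |2 sin (t/2)| = log (2 sin (t/2)) (Real.log_abs, ch_eq), HasDerivAt.log.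
* abs_lg1_le: |cos| ≤ 1 and ch x = 2 |sin (x/2)|.
* lg1_sub: cot a - cot b = sin (b - a) / (sin a sin b) with a = (x - s)/2, b = x/2.
* mul_lg1: for 0 < x ≤ 1/2 we need |x cos x / sin x - 1| ≤ 2 x (x = s/2; the function s * lg1 s is even):
  x cos x ≤ sin x (Real.lt_tan or monotonicity) and x cos x ≥ sin x * cos x ≥ sin x (1 - x^2/2).
* lg_lip: mean value inequality on the segment (Convex.norm_image_sub_le_of_norm_hasDerivWithin_le).
* abs_sg_le: for 0 < s ≤ 1, s (1 - s^2/16) ≤ ch s ≤ s (Real.sin_gt_sub_cube: x - x^3/4 < sin x), so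
  0 ≤ - sg s ≤ - log (1 - s^2/16) ≤ s.  abs_lg_pi: ch (s + π) = 2 cos (s/2), and
  1 - s^2/8 ≤ cos (s/2) ≤ 1, so |log (cos (s/2))| ≤ |s|.
* om_sum: with r = rr k, x/(x + r/2) - x/(x + r) = x (r/2)/((x + r/2)(x + r)) ≥ om r x / 2; telescope.
* min_sum: the sum over j of 2^{-|j-k|} is at most 3.  geo_sum: the sum over k with rr k ≥ r of r / rr k
  is at most 2 and the sum over k with rr k ≤ r of rr k / r is at most 2; or use
  min (r/h) (h/r) ≤ 4 * om h r and om_sum (this gives 8).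
* abel_le: Finset.sum_range_by_parts or induction on n for the identity
  sum_{j in Ico k n} d j (f j - f (j+1)) = d k f k - d n f n + sum_{j in Ico k n} (d (j+1) - d j) f (j+1).
-/

set_option autoImplicit false

namespace Pool.Agent.Work.MP_af796d_an.H

open MeasureTheory Set Real Metric Filter Topology

lemma ch_add_le (a b : ℝ) : ch (a + b) ≤ ch a + ch b := by
  have e : ex (a + b) - 1 = ex a * (ex b - 1) + (ex a - 1) := by rw [ex_add]; ring
  have := norm_add_le (ex a * (ex b - 1)) (ex a - 1)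
  rw [norm_mul, norm_ex, one_mul, ← e] at this
  unfold ch
  linarith

lemma abs_ch_sub_ch_le (a b : ℝ) : |ch (a + b) - ch a| ≤ ch b := by
  have h1 := ch_add_le a b
  have h2 := ch_add_le (a + b) (-b)
  rw [add_neg_cancel_right, ch_neg] at h2
  exact abs_le.2 ⟨by linarith, by linarith⟩

lemma ch_zero : ch 0 = 0 := by
  rw [ch, ex_zero, sub_self, norm_zero]

lemma Tools1_sin_ne {x : ℝ} (hx : ch x ≠ 0) : Real.sin (x / 2) ≠ 0 := fun h =>
  hx (by rw [ch_eq, h, abs_zero, mul_zero])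

lemma hasDerivAt_lg {x : ℝ} (hx : ch x ≠ 0) : HasDerivAt lg (lg1 x) x := by
  have e : lg = fun t => Real.log (2 * Real.sin (t / 2)) := funext fun t => by
    rw [lg, ch_eq, ← Real.log_abs (2 * Real.sin (t / 2)), abs_mul, abs_two]
  have h1 : HasDerivAt (fun t : ℝ => 2 * Real.sin (t / 2)) (2 * (Real.cos (x / 2) * (1 / 2))) x :=
    (((hasDerivAt_id x).div_const 2).sin).const_mul 2
  rw [e]
  refine (h1.log (mul_ne_zero two_ne_zero (Tools1_sin_ne hx))).congr_deriv ?_
  unfold lg1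
  ring

lemma measurable_lg1 : Measurable lg1 := by
  unfold lg1
  fun_prop

lemma lg1_neg (x : ℝ) : lg1 (-x) = -lg1 x := by
  unfold lg1
  rw [neg_div, Real.cos_neg, Real.sin_neg, mul_neg, div_neg]

lemma lg1_periodic : Function.Periodic lg1 (2 * π) := fun x => by
  unfold lg1
  rw [show (x + 2 * π) / 2 = x / 2 + π by ring, Real.cos_add_pi, Real.sin_add_pi, mul_neg,
    neg_div_neg_eq]

lemma abs_lg1_le (x : ℝ) : |lg1 x| ≤ 1 / ch x := by
  unfold lg1
  rw [abs_div, abs_mul, abs_two, ch_eq]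
  exact div_le_div_of_nonneg_right (Real.abs_cos_le_one _) (by positivity)

lemma lg1_nonneg {x : ℝ} (h0 : 0 ≤ x) (h1 : x ≤ π) : 0 ≤ lg1 x := by
  unfold lg1
  exact div_nonneg (Real.cos_nonneg_of_neg_pi_div_two_le_of_le (by linarith only [h0, h1, pi_pos]) (by linarith))
    (mul_nonneg zero_le_two (Real.sin_nonneg_of_nonneg_of_le_pi (by linarith) (by linarith)))

lemma abs_lg1_sub {x s : ℝ} (hx : ch x ≠ 0) (hs : ch (x - s) ≠ 0) :
    |lg1 (x - s) - lg1 x| = ch s / (ch (x - s) * ch x) := by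
  have h1 := Tools1_sin_ne hx
  have h2 := Tools1_sin_ne hs
  have e : lg1 (x - s) - lg1 x =
      Real.sin (s / 2) / (2 * (Real.sin ((x - s) / 2) * Real.sin (x / 2))) := by
    unfold lg1
    rw [show s / 2 = x / 2 - (x - s) / 2 by ring, Real.sin_sub]
    field_simp
  have h3 := abs_pos.2 h1
  have h4 := abs_pos.2 h2
  rw [e, abs_div, abs_mul, abs_mul, abs_two, ch_eq, ch_eq, ch_eq]
  field_simp

lemma Tools1_mul_lg1 {s : ℝ} (h0 : 0 < s) (h1 : s ≤ 1) : |s * lg1 s - 1| ≤ s := by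
  have p := pi_gt_three
  have hs : 0 < Real.sin (s / 2) := Real.sin_pos_of_pos_of_lt_pi (by linarith) (by linarith)
  have hc : 0 < Real.cos (s / 2) := Real.cos_pos_of_mem_Ioo ⟨by linarith, by linarith⟩
  have h2 := Real.le_tan (x := s / 2) (by linarith) (by linarith)
  rw [Real.tan_eq_sin_div_cos, le_div_iff₀ hc] at h2
  have h3 := (Real.sin_lt (x := s / 2) (by linarith)).le
  have h4 := Real.one_sub_sq_div_two_le_cos (x := s / 2)
  have e : s * lg1 s = s / 2 * Real.cos (s / 2) / Real.sin (s / 2) := by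
    unfold lg1
    field_simp
  have h5 : s * lg1 s ≤ 1 := by rw [e, div_le_one hs]; exact h2
  have h6 : Real.cos (s / 2) ≤ s * lg1 s := by
    rw [e, le_div_iff₀ hs]
    linarith only [hc, h3, mul_nonneg_of_nonpos_of_nonpos (le_of_lt (Mathlib.Tactic.Linarith.sub_neg_of_lt hc)) (Mathlib.Tactic.Linarith.sub_nonpos_of_le h3)]
  exact abs_le.2 ⟨by linarith only [hs, h3, h4, h6, h0, h1, mul_nonneg_of_nonpos_of_nonpos (le_of_lt (Mathlib.Tactic.Linarith.sub_neg_of_lt h0)) (Mathlib.Tactic.Linarith.sub_nonpos_of_le h1)], by linarith only [hs, h3, h5]⟩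

lemma abs_mul_lg1 {s : ℝ} (h0 : s ≠ 0) (h1 : |s| ≤ 1) : |s * lg1 s - 1| ≤ |s| := by
  rcases h0.lt_or_gt with h | h
  · rw [abs_of_neg h] at h1 ⊢
    have := Tools1_mul_lg1 (neg_pos.2 h) h1
    rwa [lg1_neg, neg_mul_neg] at this
  · rw [abs_of_pos h] at h1 ⊢
    exact Tools1_mul_lg1 h h1

/-- Lipschitz bound for `lg` on a segment that stays away from the singularities. -/
lemma lg_lip {a b η : ℝ} (hη : 0 < η) (h : ∀ x ∈ uIcc a b, η ≤ ch x) :
    |lg b - lg a| ≤ |b - a| / η := by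
  have := (convex_uIcc a b).norm_image_sub_le_of_norm_hasDerivWithin_le (f := lg) (f' := lg1)
    (C := 1 / η) (fun x hx => (hasDerivAt_lg (hη.trans_le (h x hx)).ne').hasDerivWithinAt)
    (fun x hx => (abs_lg1_le x).trans (one_div_le_one_div_of_le hη (h x hx)))
    left_mem_uIcc right_mem_uIcc
  rwa [Real.norm_eq_abs, Real.norm_eq_abs, one_div, mul_comm, ← div_eq_mul_inv] at this

lemma abs_sg_le {s : ℝ} (h0 : 0 < s) (h1 : s ≤ 1) : |sg s| ≤ s := by
  have p := pi_gt_three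
  have h2 : 0 < ch s := ch_pos h0 (by linarith only [h1, p])
  have h3 : ch s ≤ s := (ch_le_abs s).trans (abs_of_pos h0).le
  have h4 := Real.sin_gt_sub_cube (x := s / 2) (by linarith)
  have h5 : s - s ^ 3 / 24 ≤ ch s := by
    rw [ch_eq_sin h0.le (by linarith only [h1, p])]
    linarith only [h4]
  have h6 := Real.log_le_log h2 h3
  have h7 := Real.log_le_sub_one_of_pos (div_pos h0 h2)
  rw [Real.log_div h0.ne' h2.ne'] at h7
  have h8 : s / ch s ≤ 1 + s := by
    rw [div_le_iff₀ h2]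
    have a1 : s ^ 3 ≤ s ^ 2 := pow_le_pow_of_le_one h0.le h1 (by norm_num)
    have a2 : s ^ 4 ≤ s ^ 2 := pow_le_pow_of_le_one h0.le h1 (by norm_num)
    have a3 : (1 + s) * (s - s ^ 3 / 24) ≤ (1 + s) * ch s :=
      mul_le_mul_of_nonneg_left h5 (by linarith only [h0])
    linarith only [a1, a2, a3, sq_nonneg s, sq_nonneg s]
  unfold sg lg
  exact abs_le.2 ⟨by linarith only [h7, h8], by linarith only [h0, h6]⟩

lemma abs_lg_pi {s : ℝ} (h1 : |s| ≤ 1) : |lg (s + π) - Real.log 2| ≤ |s| := by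
  have h0 := abs_nonneg s
  have h2 := Real.one_sub_sq_div_two_le_cos (x := s / 2)
  have h3 : s ^ 2 = |s| ^ 2 := (sq_abs s).symm
  have h4 : 1 - |s| ^ 2 / 8 ≤ Real.cos (s / 2) := by linarith only [h2, h3]
  have a1 : |s| ^ 2 ≤ |s| := by linarith only [h1, h0, mul_nonneg_of_nonpos_of_nonpos (Mathlib.Tactic.Linarith.sub_nonpos_of_le h1) (Mathlib.Tactic.Linarith.sub_nonpos_of_le h0)]
  have hc : 0 < Real.cos (s / 2) := by linarith only [h1, h2, h3, a1]
  have e : lg (s + π) - Real.log 2 = Real.log (Real.cos (s / 2)) := by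
    rw [lg, ch_eq, show (s + π) / 2 = s / 2 + π / 2 by ring, Real.sin_add_pi_div_two,
      abs_of_pos hc, Real.log_mul two_ne_zero hc.ne']
    ring
  have h5 := Real.log_nonpos hc.le (Real.cos_le_one _)
  have h6 := Real.one_sub_inv_le_log_of_pos hc
  have h7 : (Real.cos (s / 2))⁻¹ ≤ 1 + |s| := by
    rw [inv_eq_one_div, div_le_iff₀ hc]
    have a3 : (1 + |s|) * (1 - |s| ^ 2 / 8) ≤ (1 + |s|) * Real.cos (s / 2) :=
      mul_le_mul_of_nonneg_left h4 (by linarith only [h0])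
    linarith only [a1, a3, h0, mul_le_mul_of_nonneg_left a1 h0, mul_self_nonneg |s|]
  rw [e]
  exact abs_le.2 ⟨by linarith only [h6, h7], by linarith only [h0, h5]⟩

lemma om_nonneg {h x : ℝ} (hh : 0 ≤ h) (hx : 0 ≤ x) : 0 ≤ om h x := by
  unfold om
  positivity

lemma om_le {h x : ℝ} (hh : 0 ≤ h) (hx : 0 ≤ x) : om h x ≤ 1 / 4 := by
  unfold om
  exact div_le_of_le_mul₀ (sq_nonneg _) (by norm_num) (by linarith only [sq_nonneg (h - x), sq_nonneg (h - x)])

lemma om_sum {x : ℝ} (hx : 0 ≤ x) (n : ℕ) : ∑ k ∈ Finset.range n, om (rr k) x ≤ 2 := by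
  have h1 : ∀ n, ∑ k ∈ Finset.range n, om (rr k) x ≤ 2 * x / (x + rr n) := by
    intro n
    induction n with
    | zero => have := rr_pos 0; rw [Finset.sum_range_zero]; positivity
    | succ n ih =>
      have hr := rr_pos n
      have e : 2 * x / (x + rr n / 2) - 2 * x / (x + rr n) =
          rr n * x / ((x + rr n / 2) * (x + rr n)) := by
        field_simp
        ring
      have h2 : om (rr n) x ≤ rr n * x / ((x + rr n / 2) * (x + rr n)) := by
        unfold om
        exact div_le_div_of_nonneg_left (by positivity) (by positivity) (by linarith only [hx, hr, mul_nonneg_of_nonpos_of_nonpos (Mathlib.Tactic.Linarith.sub_nonpos_of_le hx) (le_of_lt (Mathlib.Tactic.Linarith.sub_neg_of_lt hr)), mul_pos_of_neg_of_neg (Mathlib.Tactic.Linarith.sub_neg_of_lt hr) (Mathlib.Tactic.Linarith.sub_neg_of_lt hr)])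
      rw [Finset.sum_range_succ, rr_succ]
      linarith only [ih, e, h2]
  have hr := rr_pos n
  exact (h1 n).trans ((div_le_iff₀ (by positivity)).2 (by linarith))

lemma min_le_om {h x : ℝ} (hh : 0 < h) (hx : 0 ≤ x) : min (x / h) (h / x) ≤ 4 * om h x := by
  unfold om
  rcases le_total x h with k | k
  · refine (min_le_left _ _).trans ?_
    rw [← mul_div_assoc, div_le_div_iff₀ hh (by positivity)]
    have : (h + x) ^ 2 ≤ 4 * h ^ 2 := by linarith only [hh, k, hx, mul_nonneg_of_nonpos_of_nonpos (le_of_lt (Mathlib.Tactic.Linarith.sub_neg_of_lt hh)) (Mathlib.Tactic.Linarith.sub_nonpos_of_le k), mul_nonneg_of_nonpos_of_nonpos (Mathlib.Tactic.Linarith.sub_nonpos_of_le hx) (Mathlib.Tactic.Linarith.sub_nonpos_of_le k)]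
    linarith only [this, hx, mul_le_mul_of_nonneg_left this hx]
  · refine (min_le_right _ _).trans ?_
    rw [← mul_div_assoc, div_le_div_iff₀ (hh.trans_le k) (by positivity)]
    have : (h + x) ^ 2 ≤ 4 * x ^ 2 := by nlinarith
    linarith only [this, hh, mul_le_mul_of_nonneg_left this hh.le]

lemma min_sum (k m : ℕ) : ∑ j ∈ Finset.range m, min (rr k / rr j) (rr j / rr k) ≤ 3 := by
  have hk := rr_pos k
  have h1 : ∀ m, ∑ j ∈ Finset.range m, min (rr k / rr j) (rr j / rr k) ≤ rr k / rr m := by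
    intro m
    induction m with
    | zero => have := rr_pos 0; rw [Finset.sum_range_zero]; positivity
    | succ m ih =>
      have hr := rr_pos m
      have e : rr k / (rr m / 2) = rr k / rr m + rr k / rr m := by field_simp; ring
      rw [Finset.sum_range_succ, rr_succ, e]
      exact add_le_add ih (min_le_left _ _)
  have h2 : ∀ m, k + 1 ≤ m →
      ∑ j ∈ Finset.range m, min (rr k / rr j) (rr j / rr k) ≤ 3 - 2 * (rr m / rr k) := by
    intro m hm
    induction m, hm using Nat.le_induction with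
    | base =>
      refine (h1 _).trans (le_of_eq ?_)
      rw [rr_succ]
      field_simp
      ring
    | succ m hm ih =>
      have := min_le_right (rr k / rr m) (rr m / rr k)
      have e : rr m / 2 / rr k = rr m / rr k / 2 := by ring
      rw [Finset.sum_range_succ, rr_succ, e]
      linarith only [ih, this]
  rcases le_or_gt m k with h | h
  · exact (h1 m).trans (((div_le_one (rr_pos m)).2 (rr_anti h)).trans (by norm_num))
  · have := div_pos (rr_pos m) hk
    linarith only [this, h2, h, h2 m h]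

/-- Abel summation estimate. -/
lemma abel_le {d f : ℕ → ℝ} {D V M : ℝ} {k n : ℕ} (hkn : k ≤ n)
    (hd : ∀ j, k ≤ j → j ≤ n → |d j| ≤ D) (hV : ∑ j ∈ Finset.Ico k n, |d (j + 1) - d j| ≤ V)
    (hf : ∀ j, k ≤ j → j ≤ n → |f j| ≤ M) :
    |∑ j ∈ Finset.Ico k n, d j * (f j - f (j + 1))| ≤ (2 * D + V) * M := by
  have e : ∀ n, k ≤ n → ∑ j ∈ Finset.Ico k n, d j * (f j - f (j + 1)) =
      d k * f k - d n * f n + ∑ j ∈ Finset.Ico k n, (d (j + 1) - d j) * f (j + 1) := by
    intro n hn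
    induction n, hn using Nat.le_induction with
    | base => simp
    | succ n hn ih =>
      rw [Finset.sum_Ico_succ_top hn, Finset.sum_Ico_succ_top hn, ih]
      ring
  have hM : 0 ≤ M := (abs_nonneg _).trans (hf k le_rfl hkn)
  have hD : 0 ≤ D := (abs_nonneg _).trans (hd k le_rfl hkn)
  have h1 : ∀ j, k ≤ j → j ≤ n → |d j * f j| ≤ D * M := fun j a b => by
    rw [abs_mul]
    exact mul_le_mul (hd j a b) (hf j a b) (abs_nonneg _) hD
  have h2 : |∑ j ∈ Finset.Ico k n, (d (j + 1) - d j) * f (j + 1)| ≤ V * M := by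
    refine (Finset.abs_sum_le_sum_abs _ _).trans (le_trans ?_ (mul_le_mul_of_nonneg_right hV hM))
    rw [Finset.sum_mul]
    refine Finset.sum_le_sum fun j hj => ?_
    have := Finset.mem_Ico.1 hj
    rw [abs_mul]
    exact mul_le_mul_of_nonneg_left (hf _ (by omega) (by omega)) (abs_nonneg _)
  have h3 := abs_le.1 (h1 k le_rfl hkn)
  have h4 := abs_le.1 (h1 n hkn le_rfl)
  have h5 := abs_le.1 h2
  rw [e n hkn]
  exact abs_le.2 ⟨by linarith only [h3, h4, h5], by linarith⟩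

lemma min_one_add_sq (a b : ℝ) : min 1 ((a + b) ^ 2) ≤ 2 * min 1 (a ^ 2) + 2 * min 1 (b ^ 2) := by
  have ha := sq_nonneg a
  have hb := sq_nonneg b
  have h1 := min_le_left 1 ((a + b) ^ 2)
  have h2 := min_le_right 1 ((a + b) ^ 2)
  have h3 : (a + b) ^ 2 ≤ 2 * a ^ 2 + 2 * b ^ 2 := by linarith only [sq_nonneg (a - b), sq_nonneg (a - b)]
  rcases min_cases 1 (a ^ 2) with ⟨e, -⟩ | ⟨e, -⟩ <;>
    rcases min_cases 1 (b ^ 2) with ⟨e', -⟩ | ⟨e', -⟩ <;> rw [e, e'] <;> linarith only [h1, hb, ha, h2, h3]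

lemma eg_nonneg (g : ℝ) : 0 ≤ eg g := by
  unfold eg
  linarith [Real.add_one_le_exp g]

lemma eg_le_sq {g : ℝ} (h : |g| ≤ 1) : eg g ≤ g ^ 2 :=
  (le_abs_self _).trans (Real.abs_exp_sub_one_sub_id_le h)

end Pool.Agent.Work.MP_af796d_an.H
end

-- merged part: Pool.Agent.Work.MP_af796d_an.H.AI1
section
/-!
# First consequences of the reverse Jensen inequality
PLAN.  m = mu b a c / (c - a) > 0 (intervalIntegral.intervalIntegral_pos_of_pos).
* jensen: b - log m = log (e^b / m) ≤ e^b / m - 1 pointwise; integrate.  one_le: combine with hru on [0, 1].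
* sd: substitute t = y + r or t = y - r (integral_comp_add_left, integral_comp_sub_left).
* ai_subset: for λ > 0, on E: b - log m ≤ λ e^b/m - 1 - log λ, on F = Ioc a c minus E: b - log m ≤ e^b/m - 1.  Integrate and use log_mean:
  -(c-a) log C ≤ λ μ_E/m - |E| (1 + log λ) + μ_F/m - |F| ≤ λ μ_E/m - |E| log λ, as μ_F/m ≤ c - a = |E| + |F|.
  With log λ = (1 + log C)/p ≥ 0: λ μ_E/μ ≥ p log λ - log C = 1.  Take η = min (1/2) (exp (-(1 + log C)/p))
  (if C < 1 the statement is vacuous by one_le).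
* ai_abs: |x| = 2 max x 0 - x ≤ 2 e^x - x with x = b - log m.
* ai_norm: e^(b - β) ≤ e^L e^b/m, |b - β| ≤ |b - log m| + L; K = e^L + L + 2 + log C in absolute values.
-/

set_option autoImplicit false

namespace Pool.Agent.Work.MP_af796d_an.H

open MeasureTheory Set Real Metric Filter Topology

variable {b : ℝ → ℝ} {C : ℝ}

lemma AI.mono (h : AI b C) {C' : ℝ} (hC : C ≤ C') : AI b C' :=
  ⟨h.meas, h.ii, h.iie, fun a c h1 h2 =>
    (h.hru a c h1 h2).trans (mul_le_mul_of_nonneg_right hC (Real.exp_pos _).le)⟩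

lemma AI.mu_pos (h : AI b C) {a c : ℝ} (hac : a < c) : 0 < mu b a c :=
  intervalIntegral.intervalIntegral_pos_of_pos (h.iie a c) (fun _ => Real.exp_pos _) hac

lemma AI.mu_add (h : AI b C) (a c d : ℝ) : mu b a c + mu b c d = mu b a d :=
  intervalIntegral.integral_add_adjacent_intervals (h.iie a c) (h.iie c d)

lemma AI1_set (h : AI b C) {a c m : ℝ} {E : Set ℝ} (hE : MeasurableSet E) (hs : E ⊆ Ioc a c)
    (hm : 0 < m) (q : ℝ) : ∫ t in E, b t ≤
      Real.exp q / m * (∫ t in E, Real.exp (b t)) + volume.real E * (Real.log m - 1 - q) := by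
  have h1 := (h.ii a c).1.mono_set hs
  have h2 := ((h.iie a c).1.mono_set hs).const_mul (Real.exp q / m)
  have h3 : IntegrableOn (fun _ : ℝ => Real.log m - 1 - q) E :=
    integrableOn_const ((measure_mono hs).trans_lt measure_Ioc_lt_top).ne
  rw [← integral_const_mul, ← smul_eq_mul (volume.real E), ← setIntegral_const,
    ← integral_add h2 h3]
  refine setIntegral_mono_on h1 (h2.add h3) hE fun t _ => ?_
  have := Real.add_one_le_exp (q - Real.log m + b t)
  rw [Real.exp_add, Real.exp_sub, Real.exp_log hm] at this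
  linarith only [this]

lemma AI.jensen (h : AI b C) {a c : ℝ} (hac : a < c) :
    (∫ t in a..c, b t) / (c - a) ≤ Real.log (mu b a c / (c - a)) := by
  have h0 := sub_pos.2 hac
  have h1 := h.mu_pos hac
  have := AI1_set h measurableSet_Ioc (subset_refl (Ioc a c)) (div_pos h1 h0) 0
  rw [← intervalIntegral.integral_of_le hac.le, ← intervalIntegral.integral_of_le hac.le,
    Real.volume_real_Ioc_of_le hac.le, Real.exp_zero, one_div_div] at this
  change _ ≤ (c - a) / mu b a c * mu b a c + _ at this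
  rw [div_mul_cancel₀ _ h1.ne'] at this
  rw [div_le_iff₀ h0]
  linarith only [this]

lemma AI.one_le (h : AI b C) : 1 ≤ C := by
  have h0 := div_pos (h.mu_pos one_pos) (sub_pos.2 one_pos)
  have h1 := Real.exp_le_exp.2 (h.jensen one_pos)
  have h2 := h.hru 0 1 one_pos (by linarith only [Real.two_le_pi])
  rw [Real.exp_log h0] at h1
  exact (le_mul_iff_one_le_left (Real.exp_pos _)).1 (h1.trans h2)

lemma AI.sd_pos (h : AI b C) (y : ℝ) : AI (sd b y 1) C := by
  have e : H.sd b y 1 = fun r => b (y + r) := funext fun r => by rw [H.sd, one_mul]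
  rw [e]
  refine ⟨h.meas.comp (measurable_const_add y), fun a c => ?_, fun a c => ?_, fun a c h1 h2 => ?_⟩
  · simpa using (h.ii (y + a) (y + c)).comp_add_left y
  · simpa using (h.iie (y + a) (y + c)).comp_add_left y
  · rw [intervalIntegral.integral_comp_add_left b,
      intervalIntegral.integral_comp_add_left fun t => Real.exp (b t), ← add_sub_add_left_eq_sub c a y]
    exact h.hru _ _ (by linarith) (by linarith)

lemma AI.sd_neg (h : AI b C) (y : ℝ) : AI (sd b y (-1)) C := by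
  have e : H.sd b y (-1) = fun r => b (y - r) := funext fun r => by
    rw [H.sd, neg_one_mul, sub_eq_add_neg]
  rw [e]
  refine ⟨h.meas.comp (measurable_const_sub y), fun a c => ?_, fun a c => ?_, fun a c h1 h2 => ?_⟩
  · simpa using (h.ii (y - a) (y - c)).comp_sub_left y
  · simpa using (h.iie (y - a) (y - c)).comp_sub_left y
  · rw [intervalIntegral.integral_comp_sub_left b,
      intervalIntegral.integral_comp_sub_left fun t => Real.exp (b t), ← sub_sub_sub_cancel_left a c y]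
    exact h.hru _ _ (by linarith) (by linarith)

lemma mu_sd_pos (b : ℝ → ℝ) (y a c : ℝ) : mu (sd b y 1) a c = mu b (y + a) (y + c) := by
  simp only [mu, sd, one_mul]
  exact intervalIntegral.integral_comp_add_left (fun t => Real.exp (b t)) y

lemma mu_sd_neg (b : ℝ → ℝ) (y a c : ℝ) : mu (sd b y (-1)) a c = mu b (y - c) (y - a) := by
  simp only [mu, sd, neg_one_mul, ← sub_eq_add_neg]
  exact intervalIntegral.integral_comp_sub_left (fun t => Real.exp (b t)) y

lemma AI.log_mean (h : AI b C) {a c : ℝ} (hac : a < c) (hc : c ≤ a + 2 * π) :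
    |(∫ t in a..c, b t) / (c - a) - Real.log (mu b a c / (c - a))| ≤ Real.log C := by
  have h1 := h.jensen hac
  have h2 := Real.log_le_log (div_pos (h.mu_pos hac) (sub_pos.2 hac)) (h.hru a c hac hc)
  have h3 := Real.log_nonneg h.one_le
  rw [Real.log_mul (one_pos.trans_le h.one_le).ne' (Real.exp_pos _).ne', Real.log_exp] at h2
  exact abs_le.2 ⟨by linarith only [h2], by linarith only [h1, h2]⟩

theorem ai_subset (C : ℝ) {p : ℝ} (hp : 0 < p) : ∃ η : ℝ, 0 < η ∧ η ≤ 1 / 2 ∧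
    ∀ b : ℝ → ℝ, AI b C → ∀ (a c : ℝ) (E : Set ℝ), a < c → c ≤ a + 2 * π → MeasurableSet E →
      E ⊆ Ioc a c → p * (c - a) ≤ volume.real E → η * mu b a c ≤ ∫ t in E, Real.exp (b t) := by
  refine ⟨min (1 / 2) (Real.exp (-((1 + Real.log C) / p))), lt_min one_half_pos (Real.exp_pos _),
    min_le_left _ _, fun b h a c E hac hc hE hs hpE => ?_⟩
  have h0 := sub_pos.2 hac
  have hμ := h.mu_pos hac
  have hm := div_pos hμ h0
  have hC := Real.log_nonneg h.one_le
  have hq : p * ((1 + Real.log C) / p) = 1 + Real.log C := mul_div_cancel₀ _ hp.ne'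
  have hq0 : 0 ≤ (1 + Real.log C) / p := by positivity
  generalize (1 + Real.log C) / p = q at hq hq0
  have h1 := AI1_set h hE hs hm q
  have h2 := AI1_set h (measurableSet_Ioc.diff hE) (sdiff_subset (s := Ioc a c)) hm 0
  have h3 := integral_inter_add_sdiff hE (h.ii a c).1
  have h4 := integral_inter_add_sdiff hE (h.iie a c).1
  have h5 := measureReal_inter_add_sdiff (μ := volume) (s := Ioc a c) hE measure_Ioc_lt_top.ne
  rw [inter_eq_right.2 hs] at h3 h4 h5
  rw [← intervalIntegral.integral_of_le hac.le] at h3 h4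
  rw [Real.volume_real_Ioc_of_le hac.le] at h5
  have h6 := (abs_le.1 (h.log_mean hac hc)).1
  rw [le_sub_iff_add_le, le_div_iff₀ h0] at h6
  have h7 : 0 ≤ ∫ t in E, Real.exp (b t) := integral_nonneg fun _ => (Real.exp_pos _).le
  have h8 : Real.exp 0 / (mu b a c / (c - a)) * (∫ t in Ioc a c \ E, Real.exp (b t)) ≤ c - a := by
    rw [Real.exp_zero, one_div_div, div_mul_eq_mul_div, div_le_iff₀ hμ]
    exact mul_le_mul_of_nonneg_left (by unfold mu; linarith only [h4, h7]) h0.le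
  have h9 := mul_le_mul_of_nonneg_right hpE hq0
  have h10 : c - a ≤ Real.exp q / (mu b a c / (c - a)) * ∫ t in E, Real.exp (b t) := by
    have : p * (c - a) * q = (c - a) * (1 + Real.log C) := by rw [← hq]; ring
    have e : volume.real (Ioc a c \ E) = c - a - volume.real E := by linarith only [h5]
    rw [e] at h2
    linarith only [h1, h2, h3, h6, h8, h9, this]
  refine (mul_le_mul_of_nonneg_right (min_le_right _ _) hμ.le).trans ?_
  rw [div_div_eq_mul_div, div_mul_eq_mul_div, le_div_iff₀ hμ, mul_comm (Real.exp q), mul_assoc,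
    mul_le_mul_iff_right₀ h0] at h10
  rwa [Real.exp_neg, inv_mul_le_iff₀ (Real.exp_pos _)]

theorem ai_subint (C : ℝ) {p : ℝ} (hp : 0 < p) : ∃ η : ℝ, 0 < η ∧ η ≤ 1 / 2 ∧
    ∀ b : ℝ → ℝ, AI b C → ∀ a c a' c' : ℝ, a ≤ a' → a' < c' → c' ≤ c → c ≤ a + 2 * π →
      p * (c - a) ≤ c' - a' → η * mu b a c ≤ mu b a' c' := by
  obtain ⟨η, h1, h2, h3⟩ := ai_subset C hp
  refine ⟨η, h1, h2, fun b h a c a' c' k1 k2 k3 k4 k5 => ?_⟩
  rw [mu.eq_1 b a' c', intervalIntegral.integral_of_le k2.le]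
  exact h3 b h a c _ (by linarith only [k1, k2, k3]) k4 measurableSet_Ioc (Ioc_subset_Ioc k1 k3)
    (by rwa [Real.volume_real_Ioc_of_le k2.le])

lemma AI.abs_le (h : AI b C) {a c : ℝ} (hac : a < c) (hc : c ≤ a + 2 * π) :
    ∫ t in a..c, |b t - Real.log (mu b a c / (c - a))| ≤ (2 + Real.log C) * (c - a) := by
  have h0 := sub_pos.2 hac
  have hμ := h.mu_pos hac
  have h6 := (_root_.abs_le.1 (h.log_mean hac hc)).1
  rw [le_sub_iff_add_le, le_div_iff₀ h0] at h6
  have h1 := (h.ii a c).sub (intervalIntegrable_const (c := Real.log (mu b a c / (c - a))))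
  have h2 := (h.iie a c).const_mul (2 * ((c - a) / mu b a c))
  refine (intervalIntegral.integral_mono_on hac.le h1.abs (h2.sub h1) fun t _ => ?_).trans ?_
  · have h3 := Real.add_one_le_exp (b t - Real.log (mu b a c / (c - a)))
    have h4 := Real.exp_pos (b t - Real.log (mu b a c / (c - a)))
    rw [Real.exp_sub, Real.exp_log (div_pos hμ h0), div_eq_inv_mul (Real.exp _), inv_div] at h3 h4
    exact _root_.abs_le.2 ⟨by linarith only [h4], by linarith only [h3]⟩
  · rw [intervalIntegral.integral_sub h2 h1, intervalIntegral.integral_const_mul,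
      intervalIntegral.integral_sub (h.ii a c) intervalIntegrable_const,
      intervalIntegral.integral_const, smul_eq_mul, mul_assoc]
    change 2 * ((c - a) / mu b a c * mu b a c) - _ ≤ _
    rw [div_mul_cancel₀ _ hμ.ne']
    linarith only [h6]

theorem ai_norm (C L : ℝ) : ∃ K : ℝ, 0 ≤ K ∧ ∀ b β : ℝ → ℝ, AI b C → Measurable β →
    ∀ a c : ℝ, a < c → c ≤ a + 2 * π →
      (∀ x ∈ Ioc a c, |β x - Real.log (mu b a c / (c - a))| ≤ L) →
      IntervalIntegrable (fun t => Real.exp (b t - β t) + |b t - β t|) volume a c ∧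
        ∫ t in a..c, (Real.exp (b t - β t) + |b t - β t|) ≤ K * (c - a) := by
  refine ⟨|Real.exp L + (2 + Real.log C) + L|, abs_nonneg _, fun b β h hβ a c hac hc hL => ?_⟩
  have h0 := sub_pos.2 hac
  have hμ := h.mu_pos hac
  have h1 := ((h.ii a c).sub
    (intervalIntegrable_const (c := Real.log (mu b a c / (c - a))))).abs
  have h2 := (h.iie a c).const_mul (Real.exp L * ((c - a) / mu b a c))
  have h3 := (h2.add h1).add (intervalIntegrable_const (c := L))
  have h4 : ∀ t ∈ Ioc a c, Real.exp (b t - β t) + |b t - β t| ≤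
      Real.exp L * ((c - a) / mu b a c) * Real.exp (b t) +
        |b t - Real.log (mu b a c / (c - a))| + L := fun t ht => by
    have k := hL t ht
    have k1 := abs_sub_le (b t) (Real.log (mu b a c / (c - a))) (β t)
    have k2 : Real.exp (b t - β t) ≤ Real.exp (L - Real.log (mu b a c / (c - a)) + b t) :=
      Real.exp_le_exp.2 (by linarith only [k, (abs_le.1 k).1])
    rw [Real.exp_add, Real.exp_sub L, Real.exp_log (div_pos hμ h0), div_eq_mul_inv, inv_div] at k2
    rw [abs_sub_comm] at k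
    linarith only [k, k1, k2]
  have h5 : IntervalIntegrable (fun t => Real.exp (b t - β t) + |b t - β t|) volume a c := by
    have m := h.meas.sub hβ
    refine h3.mono_fun' (m.exp.add m.abs).aestronglyMeasurable ?_
    rw [uIoc_of_le hac.le]
    filter_upwards [ae_restrict_mem measurableSet_Ioc] with t ht
    rw [Real.norm_of_nonneg (by positivity)]
    exact h4 t ht
  refine ⟨h5, (intervalIntegral.integral_mono_on_of_le_Ioo hac.le h5 h3
    fun t ht => h4 t (Ioo_subset_Ioc_self ht)).trans ?_⟩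
  rw [intervalIntegral.integral_add (h2.add h1) intervalIntegrable_const,
    intervalIntegral.integral_add h2 h1, intervalIntegral.integral_const_mul,
    intervalIntegral.integral_const, smul_eq_mul, mul_assoc]
  change Real.exp L * ((c - a) / mu b a c * mu b a c) + _ + _ ≤ _
  rw [div_mul_cancel₀ _ hμ.ne']
  have h6 := h.abs_le hac hc
  have h7 := mul_le_mul_of_nonneg_right (le_abs_self (Real.exp L + (2 + Real.log C) + L)) h0.le
  linarith only [h6, h7]

end Pool.Agent.Work.MP_af796d_an.H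
end

-- merged part: Pool.Agent.Work.MP_af796d_an.H.CZ
section
/-!
# Calderón-Zygmund stopping lemma
PLAN.  Define sets R n p q by recursion: R 0 p q = Ioc p q, and with m = (p+q)/2,
R (n+1) p q = (if |E ∩ Ioc p m| ≤ θ (m - p) then R n p m else ∅) ∪ (if |E ∩ Ioc m q| ≤ θ (q - m) then R n m q else ∅).
They are measurable, contained in Ioc p q, decreasing in n.  Induction on n (for all a ≤ p < q ≤ c of density ≤ θ):
∫_{E ∩ Ioc p q} ψ ≤ (K/θ) |E ∩ Ioc p q| + ∫_{E ∩ R n p q} ψ.  In the step split Ioc p q into halves; a half L of density > θ has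
∫_{E ∩ L} ψ ≤ ∫_L ψ ≤ K |L| ≤ (K/θ) |E ∩ L|; for a half of density ≤ θ use the induction hypothesis.
A point x of R n a c lies in some Ioc p q of length (c - a)/2^n and density ≤ θ (induction, using density of Ioc a c for n = 0).  So
E ∩ ⋂ n, R n a c is null by IsUnifLocDoublingMeasure.ae_tendsto_measure_inter_div volume E 1 (closed balls with centre (p+q)/2 and
radius (q-p)/2; Icc and Ioc have the same measure), and the remainder tends to 0 (tendsto_setIntegral_of_antitone).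
-/

set_option autoImplicit false

namespace Pool.Agent.Work.MP_af796d_an.H

open MeasureTheory Set Real Metric Filter Topology

/-- the part of `Ioc p q` that has not been stopped after `n` bisections. -/
noncomputable def CZ_S (E : Set ℝ) (θ : ℝ) : ℕ → ℝ → ℝ → Set ℝ
  | 0, p, q => if volume.real (E ∩ Ioc p q) ≤ θ * (q - p) then Ioc p q else ∅
  | n + 1, p, q => if volume.real (E ∩ Ioc p q) ≤ θ * (q - p) then
      CZ_S E θ n p ((p + q) / 2) ∪ CZ_S E θ n ((p + q) / 2) q else ∅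

lemma CZ_meas (E : Set ℝ) (θ : ℝ) (n : ℕ) : ∀ p q, MeasurableSet (CZ_S E θ n p q) := by
  induction n with
  | zero =>
    intro p q
    rw [CZ_S]
    split_ifs
    exacts [measurableSet_Ioc, MeasurableSet.empty]
  | succ n ih =>
    intro p q
    rw [CZ_S]
    split_ifs
    exacts [(ih _ _).union (ih _ _), MeasurableSet.empty]

lemma CZ_sub (E : Set ℝ) (θ : ℝ) (n : ℕ) : ∀ p q, p ≤ q → CZ_S E θ n p q ⊆ Ioc p q := by
  induction n with
  | zero =>
    intro p q _
    rw [CZ_S]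
    split_ifs
    exacts [Subset.rfl, empty_subset _]
  | succ n ih =>
    intro p q h
    rw [CZ_S]
    split_ifs
    · exact union_subset ((ih _ _ (by linarith only [h])).trans (Ioc_subset_Ioc_right (by linarith)))
        ((ih _ _ (by linarith)).trans (Ioc_subset_Ioc_left (by linarith)))
    · exact empty_subset _

lemma CZ_anti (E : Set ℝ) (θ : ℝ) (n : ℕ) :
    ∀ p q, p ≤ q → CZ_S E θ (n + 1) p q ⊆ CZ_S E θ n p q := by
  induction n with
  | zero =>
    intro p q h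
    by_cases hD : volume.real (E ∩ Ioc p q) ≤ θ * (q - p)
    · refine (CZ_sub E θ _ p q h).trans ?_
      rw [CZ_S, if_pos hD]
    · rw [CZ_S.eq_2 E θ p q 0, if_neg hD]
      exact empty_subset _
  | succ n ih =>
    intro p q h
    by_cases hD : volume.real (E ∩ Ioc p q) ≤ θ * (q - p)
    · rw [CZ_S, if_pos hD, CZ_S.eq_2 E θ p q n, if_pos hD]
      exact union_subset_union (ih _ _ (by linarith only [h])) (ih _ _ (by linarith))
    · rw [CZ_S, if_neg hD]
      exact empty_subset _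

lemma CZ_pt (E : Set ℝ) (θ : ℝ) (x : ℝ) (n : ℕ) : ∀ p q, x ∈ CZ_S E θ n p q →
    ∃ p' q', q' - p' = (q - p) / 2 ^ n ∧ x ∈ Ioc p' q' ∧
      volume.real (E ∩ Ioc p' q') ≤ θ * (q' - p') := by
  induction n with
  | zero =>
    intro p q hx
    rw [CZ_S] at hx
    split_ifs at hx with hD
    · exact ⟨p, q, by simp, hx, hD⟩
    · exact absurd hx (notMem_empty x)
  | succ n ih =>
    intro p q hx
    rw [CZ_S] at hx
    split_ifs at hx with hD
    · rcases hx with hx | hx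
      · obtain ⟨p', q', a1, a2⟩ := ih _ _ hx
        exact ⟨p', q', a1.trans (by rw [pow_succ]; ring), a2⟩
      · obtain ⟨p', q', a1, a2⟩ := ih _ _ hx
        exact ⟨p', q', a1.trans (by rw [pow_succ]; ring), a2⟩
    · exact absurd hx (notMem_empty x)

lemma CZ_null {E : Set ℝ} (hE : MeasurableSet E) {θ a c : ℝ} (hac : a < c) (hθ0 : 0 < θ)
    (hθ1 : θ < 1) : volume (⋂ n, E ∩ CZ_S E θ n a c) = 0 := by
  have h1 : ∀ᵐ x ∂(volume.restrict E), x ∉ ⋂ n, E ∩ CZ_S E θ n a c := by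
    filter_upwards [IsUnifLocDoublingMeasure.ae_tendsto_measure_inter_div.{0, 0} volume E 1]
      with x hx hm
    choose p q h1 h2 h3 using fun n => CZ_pt E θ x n a c (mem_iInter.1 hm n).2
    have d0 : ∀ n : ℕ, 0 < (c - a) / 2 ^ n / 2 := fun n => by
      have : 0 < c - a := by linarith
      positivity
    have hb : ∀ n, closedBall ((p n + q n) / 2) ((c - a) / 2 ^ n / 2) = Icc (p n) (q n) := by
      intro n
      rw [Real.closedBall_eq_Icc, ← h1 n]
      congr 1 <;> ring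
    have lim : Tendsto (fun n : ℕ => (c - a) / 2 ^ n / 2) atTop (𝓝[>] 0) := by
      refine tendsto_nhdsWithin_iff.2 ⟨?_, Eventually.of_forall d0⟩
      have := ((tendsto_pow_atTop_atTop_of_one_lt (by norm_num : (1 : ℝ) < 2)).const_div_atTop
        (c - a)).div_const 2
      rwa [zero_div] at this
    have t := hx (fun n => (p n + q n) / 2) _ lim (Eventually.of_forall fun n => by
      rw [one_mul, hb]; exact Ioc_subset_Icc_self (h2 n))
    have le : (1 : ENNReal) ≤ ENNReal.ofReal θ := by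
      refine le_of_tendsto' t fun n => ENNReal.div_le_of_le_mul ?_
      have e : volume (E ∩ Icc (p n) (q n)) = volume (E ∩ Ioc (p n) (q n)) :=
        measure_congr ((ae_eq_refl E).inter Ioc_ae_eq_Icc.symm)
      have f : volume (E ∩ Ioc (p n) (q n)) ≠ ⊤ :=
        ((measure_mono inter_subset_right).trans_lt measure_Ioc_lt_top).ne
      rw [hb, e, Real.volume_Icc, ← ENNReal.ofReal_mul hθ0.le, ← ENNReal.ofReal_toReal f]
      exact ENNReal.ofReal_le_ofReal (h3 n)
    exact absurd (ENNReal.one_le_ofReal.1 le) (not_le.2 hθ1)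
  have h2 := measure_eq_zero_iff_ae_notMem.2 h1
  rw [Measure.restrict_apply' hE] at h2
  exact measure_mono_null (fun x hx => mem_inter hx (mem_iInter.1 hx 0).1) h2

theorem cz {E : Set ℝ} (hE : MeasurableSet E) {ψ : ℝ → ℝ} {a c θ K : ℝ} (hac : a < c)
    (hθ0 : 0 < θ) (hθ1 : θ < 1) (hK : 0 ≤ K) (hψ : IntervalIntegrable ψ volume a c)
    (hψ0 : ∀ t, 0 ≤ ψ t) (hd : volume.real (E ∩ Ioc a c) ≤ θ * (c - a))
    (h : ∀ p q, a ≤ p → p < q → q ≤ c → volume.real (E ∩ Ioc p q) ≤ θ * (q - p) →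
      ∫ t in p..((p + q) / 2), ψ t ≤ K * ((q - p) / 2) ∧
        ∫ t in ((p + q) / 2)..q, ψ t ≤ K * ((q - p) / 2)) :
    ∫ t in E ∩ Ioc a c, ψ t ≤ K / θ * volume.real (E ∩ Ioc a c) := by
  have hI : IntegrableOn ψ (Ioc a c) := hψ.1
  have k0 : 0 ≤ K / θ := div_nonneg hK hθ0.le
  have bad : ∀ p q, a ≤ p → p < q → q ≤ c → ∫ t in p..q, ψ t ≤ K * (q - p) →
      ¬ volume.real (E ∩ Ioc p q) ≤ θ * (q - p) →
      ∫ t in E ∩ Ioc p q, ψ t ≤ K / θ * volume.real (E ∩ Ioc p q) := by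
    intro p q hp hpq hq h1 h2
    rw [intervalIntegral.integral_of_le hpq.le] at h1
    refine (setIntegral_mono_set (hI.mono_set (Ioc_subset_Ioc hp hq)) (Eventually.of_forall hψ0)
      inter_subset_right.eventuallyLE).trans (h1.trans ?_)
    calc K * (q - p) = K / θ * (θ * (q - p)) := by field_simp
      _ ≤ _ := mul_le_mul_of_nonneg_left (not_le.1 h2).le k0
  have key : ∀ n p q, a ≤ p → p < q → q ≤ c →
      (volume.real (E ∩ Ioc p q) ≤ θ * (q - p) ∨ ∫ t in p..q, ψ t ≤ K * (q - p)) →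
      ∫ t in E ∩ Ioc p q, ψ t ≤
        K / θ * volume.real (E ∩ Ioc p q) + ∫ t in E ∩ CZ_S E θ n p q, ψ t := by
    intro n
    induction n with
    | zero =>
      intro p q hp hpq hq ho
      rw [CZ_S]
      split_ifs with hD
      · exact le_add_of_nonneg_left (mul_nonneg k0 measureReal_nonneg)
      · rw [inter_empty, setIntegral_empty, add_zero]
        exact bad p q hp hpq hq (ho.resolve_left hD) hD
    | succ n ih =>
      intro p q hp hpq hq ho
      rw [CZ_S]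
      split_ifs with hD
      · obtain ⟨a1, a2⟩ := h p q hp hpq hq hD
        have m1 : p < (p + q) / 2 := by linarith only [hpq]
        have m2 : (p + q) / 2 < q := by linarith only [hpq]
        have b1 := ih p _ hp m1 (m2.le.trans hq) (Or.inr (a1.trans_eq (by ring)))
        have b2 := ih _ q (hp.trans m1.le) m2 hq (Or.inr (a2.trans_eq (by ring)))
        generalize (p + q) / 2 = m at *
        have s1 := CZ_sub E θ n p m m1.le
        have s2 := CZ_sub E θ n m q m2.le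
        have dj : Disjoint (E ∩ Ioc p m) (E ∩ Ioc m q) :=
          (Ioc_disjoint_Ioc_of_le le_rfl).mono inter_subset_right inter_subset_right
        have i1 : IntegrableOn ψ (E ∩ Ioc p m) :=
          hI.mono_set (inter_subset_right.trans (Ioc_subset_Ioc hp (m2.le.trans hq)))
        have i2 : IntegrableOn ψ (E ∩ Ioc m q) :=
          hI.mono_set (inter_subset_right.trans (Ioc_subset_Ioc (hp.trans m1.le) hq))
        have f : ∀ u v : ℝ, volume (E ∩ Ioc u v) ≠ ⊤ := fun u v =>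
          ((measure_mono inter_subset_right).trans_lt measure_Ioc_lt_top).ne
        rw [← Ioc_union_Ioc_eq_Ioc m1.le m2.le, inter_union_distrib_left, inter_union_distrib_left,
          setIntegral_union dj (hE.inter measurableSet_Ioc) i1 i2,
          measureReal_union dj (hE.inter measurableSet_Ioc) (f _ _) (f _ _),
          setIntegral_union (dj.mono (inter_subset_inter_right _ s1) (inter_subset_inter_right _ s2))
            (hE.inter (CZ_meas E θ n _ _)) (i1.mono_set (inter_subset_inter_right _ s1))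
            (i2.mono_set (inter_subset_inter_right _ s2))]
        linarith only [b1, b2]
      · rw [inter_empty, setIntegral_empty, add_zero]
        exact bad p q hp hpq hq (ho.resolve_left hD) hD
  have lim := tendsto_setIntegral_of_antitone (μ := volume) (f := ψ)
    (s := fun n => E ∩ CZ_S E θ n a c) (fun n => hE.inter (CZ_meas E θ n a c))
    (antitone_nat_of_succ_le fun n => inter_subset_inter_right _ (CZ_anti E θ n a c hac.le))
    ⟨0, hI.mono_set (inter_subset_right.trans (CZ_sub E θ 0 a c hac.le))⟩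
  rw [setIntegral_measure_zero _ (CZ_null hE hac hθ0 hθ1)] at lim
  have := ge_of_tendsto' (lim.const_add (K / θ * volume.real (E ∩ Ioc a c)))
    fun n => key n a c le_rfl hac le_rfl (Or.inl hd)
  rwa [add_zero] at this

end Pool.Agent.Work.MP_af796d_an.H
end

-- merged part: Pool.Agent.Work.MP_af796d_an.H.AI2
section
/-!
# The covering estimate
PLAN.  g = b - β, E = {|g| > 1}, ψ = e^g + |g| ≥ 0, I = Ioc a c, m = mu b a c/(c - a).  Pointwise
eg g ≤ min 1 (g^2) off E (eg_le_sq) and eg g ≤ ψ on E, and |E ∩ I| ≤ ∫ min 1 (g^2).  So it is enough to show ∫_{E ∩ I} ψ ≤ K' |E ∩ I|.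
If |E ∩ I| > (c - a)/2 use ai_norm on I.  Otherwise apply cz with θ = 1/2: for a ≤ p < q ≤ c of density ≤ 1/2 let
F = Ioc p q minus E, |F| ≥ (q - p)/2, and m e^(-L-1) ≤ e^b ≤ m e^(L+1) on F.  Hence mu b p q ≥ m e^(-L-1) (q-p)/2 and, by ai_subset with p = 1/2,
η mu b p q ≤ m e^(L+1) (q - p).  So β is normalised on [p, q] with L' = 2 L + 1 + log 2 - log η, ai_norm gives ∫_p^q ψ ≤ K1 (q - p),
and each half has integral at most 2 K1 * ((q - p)/2).  Integrability of eg g: 0 ≤ eg g ≤ ψ.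
-/

set_option autoImplicit false

namespace Pool.Agent.Work.MP_af796d_an.H

open MeasureTheory Set Real Metric Filter Topology

lemma AI2_norm {b β : ℝ → ℝ} {C η m L p q : ℝ} (h : AI b C) (hβ : Measurable β) (hη : 0 < η)
    (hη1 : η ≤ 1 / 2) (hpq : p < q)
    (hsub : ∀ E, MeasurableSet E → E ⊆ Ioc p q → 1 / 2 * (q - p) ≤ volume.real E →
      η * mu b p q ≤ ∫ t in E, Real.exp (b t))
    (hL : ∀ x ∈ Ioc p q, |β x - m| ≤ L)
    (hd : volume.real ({t | 1 < |b t - β t|} ∩ Ioc p q) ≤ 1 / 2 * (q - p)) :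
    ∀ x ∈ Ioc p q, |β x - Real.log (mu b p q / (q - p))| ≤
      2 * L + 1 + Real.log 2 - Real.log η := by
  have hE : MeasurableSet {t | 1 < |b t - β t|} :=
    measurableSet_lt measurable_const (h.meas.sub hβ).abs
  set E := {t | 1 < |b t - β t|} with hEd
  have hF : MeasurableSet (Ioc p q \ E) := measurableSet_Ioc.diff hE
  have hfin : volume (Ioc p q \ E) ≠ ⊤ :=
    ((measure_mono sdiff_subset).trans_lt measure_Ioc_lt_top).ne
  have hv := measureReal_inter_add_sdiff (μ := volume) (s := Ioc p q) hE measure_Ioc_lt_top.ne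
  rw [Real.volume_real_Ioc_of_le hpq.le, inter_comm] at hv
  have hv0 : 0 ≤ volume.real (E ∩ Ioc p q) := measureReal_nonneg
  have hi : IntegrableOn (fun t => Real.exp (b t)) (Ioc p q) := (h.iie p q).1
  have hb : ∀ x ∈ Ioc p q \ E, m - L - 1 ≤ b x ∧ b x ≤ m + L + 1 := fun x hx => by
    have h1 := abs_le.1 (hL x hx.1)
    have h2 := abs_le.1 (not_lt.1 hx.2 : |b x - β x| ≤ 1)
    constructor <;> linarith only [h1, h2, h1.1, h1.2, h2.1, h2.2]
  have lo : Real.exp (m - L - 1) * volume.real (Ioc p q \ E) ≤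
      ∫ t in Ioc p q \ E, Real.exp (b t) :=
    setIntegral_ge_of_const_le_real hF hfin (fun x hx => Real.exp_le_exp.2 (hb x hx).1)
      (hi.mono_set sdiff_subset)
  have hi2 : ∫ t in Ioc p q \ E, Real.exp (b t) ≤
      Real.exp (m + L + 1) * volume.real (Ioc p q \ E) := by
    have := setIntegral_mono_on (hi.mono_set (sdiff_subset (t := E)))
      (integrableOn_const (C := Real.exp (m + L + 1)) hfin) hF
      fun x hx => Real.exp_le_exp.2 (hb x hx).2
    rwa [setIntegral_const, smul_eq_mul, mul_comm] at this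
  have le1 : ∫ t in Ioc p q \ E, Real.exp (b t) ≤ mu b p q := by
    rw [mu, intervalIntegral.integral_of_le hpq.le]
    exact setIntegral_mono_set hi (Eventually.of_forall fun x => (Real.exp_pos _).le)
      sdiff_subset.eventuallyLE
  have le2 := hsub _ hF sdiff_subset (by linarith only [hd, hv])
  have qp : 0 < q - p := sub_pos.2 hpq
  have mp : 0 < mu b p q / (q - p) := div_pos (h.mu_pos hpq) qp
  have e1 := Real.exp_pos (m - L - 1)
  have e2 := Real.exp_pos (m + L + 1)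
  have a1 : m - L - 1 ≤ Real.log (mu b p q / (q - p)) + Real.log 2 := by
    rw [← Real.log_mul mp.ne' two_ne_zero, Real.le_log_iff_exp_le (by positivity),
      div_mul_eq_mul_div, le_div_iff₀ qp]
    (refine le_of_not_gt fun h_nl => ?_; linarith only [h_nl, lo, le1, hη, hη1, hd, e1, hv, mul_pos_of_neg_of_neg (Mathlib.Tactic.Linarith.sub_neg_of_lt hη) (Mathlib.Tactic.Linarith.sub_neg_of_lt h_nl), mul_nonneg_of_nonpos_of_nonpos (Mathlib.Tactic.Linarith.sub_nonpos_of_le hη1) (le_of_lt (Mathlib.Tactic.Linarith.sub_neg_of_lt h_nl)), mul_nonneg_of_nonpos_of_nonpos (Mathlib.Tactic.Linarith.sub_nonpos_of_le hd) (le_of_lt (Mathlib.Tactic.Linarith.sub_neg_of_lt e1)), Mathlib.Tactic.Linarith.zero_mul_eq (sub_eq_zero_of_eq hv) (Mathlib.Tactic.Linarith.sub_neg_of_lt e1)])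
  have a2 : Real.log η + Real.log (mu b p q / (q - p)) ≤ m + L + 1 := by
    rw [← Real.log_mul hη.ne' mp.ne', Real.log_le_iff_le_exp (by positivity), ← mul_div_assoc,
      div_le_iff₀ qp]
    (refine le_of_not_gt fun h_nl => ?_; linarith only [h_nl, hi2, le2, hη, hη1, hv, e2, hv0, mul_pos_of_neg_of_neg (Mathlib.Tactic.Linarith.sub_neg_of_lt hη) (Mathlib.Tactic.Linarith.sub_neg_of_lt h_nl), mul_nonneg_of_nonpos_of_nonpos (Mathlib.Tactic.Linarith.sub_nonpos_of_le hη1) (le_of_lt (Mathlib.Tactic.Linarith.sub_neg_of_lt h_nl)), Mathlib.Tactic.Linarith.zero_mul_eq (sub_eq_zero_of_eq hv) (Mathlib.Tactic.Linarith.sub_neg_of_lt e2), mul_nonneg_of_nonpos_of_nonpos (Mathlib.Tactic.Linarith.sub_nonpos_of_le hv0) (le_of_lt (Mathlib.Tactic.Linarith.sub_neg_of_lt e2))])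
  have l2 : 0 ≤ Real.log 2 := Real.log_nonneg one_le_two
  have lη : Real.log η ≤ 0 := Real.log_nonpos hη.le (by linarith only [hη, hη1])
  intro x hx
  have h1 := abs_le.1 (hL x hx)
  exact abs_le.2 ⟨by linarith only [a2, l2, h1, h1.1], by linarith only [a1, lη, h1, h1.2]⟩

lemma AI2_le (g : ℝ) : eg g ≤ Real.exp g + |g| := by
  unfold eg
  linarith [neg_abs_le g]

theorem cov (C L : ℝ) : ∃ K : ℝ, 0 ≤ K ∧ ∀ b β : ℝ → ℝ, AI b C → Measurable β →
    ∀ a c : ℝ, a < c → c ≤ a + 2 * π →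
      (∀ x ∈ Ioc a c, |β x - Real.log (mu b a c / (c - a))| ≤ L) →
      IntervalIntegrable (fun t => eg (b t - β t)) volume a c ∧
        ∫ t in a..c, eg (b t - β t) ≤ K * ∫ t in a..c, min 1 ((b t - β t) ^ 2) := by
  obtain ⟨η, hη, hη1, hsub⟩ := ai_subset C (p := 1 / 2) (by norm_num)
  obtain ⟨K0, k0, hK0⟩ := ai_norm C L
  obtain ⟨K1, k1, hK1⟩ := ai_norm C (2 * L + 1 + Real.log 2 - Real.log η)
  refine ⟨2 * K0 + 4 * K1 + 1, by positivity, fun b β h hβ a c hac hc hL => ?_⟩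
  obtain ⟨i0, n0⟩ := hK0 b β h hβ a c hac hc hL
  have mg : Measurable fun t => b t - β t := h.meas.sub hβ
  have hE : MeasurableSet {t | 1 < |b t - β t|} := measurableSet_lt measurable_const mg.abs
  set E := {t | 1 < |b t - β t|} with hEd
  set ψ : ℝ → ℝ := fun t => Real.exp (b t - β t) + |b t - β t| with hψ
  have ψ0 : ∀ t, 0 ≤ ψ t := fun t => by positivity
  have me : Measurable fun t => eg (b t - β t) := (mg.exp.sub measurable_const).sub mg
  have ie : IntervalIntegrable (fun t => eg (b t - β t)) volume a c :=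
    i0.mono_fun' me.aestronglyMeasurable (Eventually.of_forall fun t => by
      simpa only [Real.norm_eq_abs, abs_of_nonneg (eg_nonneg _)] using AI2_le _)
  have mm : Measurable fun t => min 1 ((b t - β t) ^ 2) := measurable_const.min (mg.pow_const 2)
  have m0 : ∀ t, 0 ≤ min 1 ((b t - β t) ^ 2) := fun t => le_min zero_le_one (sq_nonneg _)
  have im : IntervalIntegrable (fun t => min 1 ((b t - β t) ^ 2)) volume a c :=
    (intervalIntegrable_const (c := (1 : ℝ))).mono_fun' mm.aestronglyMeasurable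
      (Eventually.of_forall fun t => by
        simpa only [Real.norm_eq_abs, abs_of_nonneg (m0 t)] using min_le_left _ _)
  refine ⟨ie, ?_⟩
  have v0 : 0 ≤ volume.real (E ∩ Ioc a c) := measureReal_nonneg
  have key : ∫ t in E ∩ Ioc a c, ψ t ≤ (2 * K0 + 4 * K1) * volume.real (E ∩ Ioc a c) := by
    rcases le_total (volume.real (E ∩ Ioc a c)) (1 / 2 * (c - a)) with hd | hd
    · have := cz hE (ψ := ψ) (θ := 1 / 2) (K := 2 * K1) hac (by norm_num) (by norm_num)
        (by positivity) i0 ψ0 hd fun p q hp hpq hq hd' => by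
          have hc' : q ≤ p + 2 * π := by linarith only [hc, hp, hq]
          obtain ⟨i1, n1⟩ := hK1 b β h hβ p q hpq hc' (AI2_norm h hβ hη hη1 hpq
            (fun F hF a1 a2 => hsub b h p q F hpq hc' hF a1 a2)
            (fun x hx => hL x (Ioc_subset_Ioc hp hq hx)) hd')
          have u1 : p ≤ (p + q) / 2 := by linarith only [hpq]
          have u2 : (p + q) / 2 ≤ q := by linarith only [hpq]
          have j1 : IntervalIntegrable ψ volume p ((p + q) / 2) :=
            i1.mono_set (by rw [uIcc_of_le u1, uIcc_of_le hpq.le]; exact Icc_subset_Icc_right u2)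
          have j2 : IntervalIntegrable ψ volume ((p + q) / 2) q :=
            i1.mono_set (by rw [uIcc_of_le u2, uIcc_of_le hpq.le]; exact Icc_subset_Icc_left u1)
          have e := intervalIntegral.integral_add_adjacent_intervals j1 j2
          have p1 := intervalIntegral.integral_nonneg (μ := volume) u1 fun t _ => ψ0 t
          have p2 := intervalIntegral.integral_nonneg (μ := volume) u2 fun t _ => ψ0 t
          constructor <;> linarith only [n1, e, p2, p1]
      (refine le_of_not_gt fun h_nl => ?_; linarith only [h_nl, this, hη, hη1, k0, v0, mul_pos_of_neg_of_neg (Mathlib.Tactic.Linarith.sub_neg_of_lt hη) (Mathlib.Tactic.Linarith.sub_neg_of_lt h_nl), mul_nonneg_of_nonpos_of_nonpos (Mathlib.Tactic.Linarith.sub_nonpos_of_le hη1) (le_of_lt (Mathlib.Tactic.Linarith.sub_neg_of_lt h_nl)), mul_nonneg_of_nonpos_of_nonpos (Mathlib.Tactic.Linarith.sub_nonpos_of_le k0) (Mathlib.Tactic.Linarith.sub_nonpos_of_le v0)])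
    · have : ∫ t in E ∩ Ioc a c, ψ t ≤ ∫ t in a..c, ψ t := by
        rw [intervalIntegral.integral_of_le hac.le]
        exact setIntegral_mono_set i0.1 (Eventually.of_forall ψ0) inter_subset_right.eventuallyLE
      (refine le_of_not_gt fun h_nl => ?_; linarith only [h_nl, n0, this, hη, hη1, k0, hd, k1, v0, mul_pos_of_neg_of_neg (Mathlib.Tactic.Linarith.sub_neg_of_lt hη) (Mathlib.Tactic.Linarith.sub_neg_of_lt h_nl), mul_nonneg_of_nonpos_of_nonpos (Mathlib.Tactic.Linarith.sub_nonpos_of_le hη1) (le_of_lt (Mathlib.Tactic.Linarith.sub_neg_of_lt h_nl)), mul_nonneg_of_nonpos_of_nonpos (Mathlib.Tactic.Linarith.sub_nonpos_of_le k0) (Mathlib.Tactic.Linarith.sub_nonpos_of_le hd), mul_nonneg_of_nonpos_of_nonpos (Mathlib.Tactic.Linarith.sub_nonpos_of_le k1) (Mathlib.Tactic.Linarith.sub_nonpos_of_le v0)])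
  have hfin : volume (E ∩ Ioc a c) ≠ ⊤ :=
    ((measure_mono inter_subset_right).trans_lt measure_Ioc_lt_top).ne
  have vm : volume.real (E ∩ Ioc a c) ≤ ∫ t in Ioc a c, min 1 ((b t - β t) ^ 2) := by
    have h1 := setIntegral_ge_of_const_le_real (c := 1) (hE.inter measurableSet_Ioc) hfin
      (f := fun t => min 1 ((b t - β t) ^ 2))
      (fun x hx => le_min le_rfl (by
        have : 1 < |b x - β x| := hx.1
        rw [← sq_abs]
        linarith only [hη, this, hη1, mul_pos_of_neg_of_neg (Mathlib.Tactic.Linarith.sub_neg_of_lt hη) (Mathlib.Tactic.Linarith.sub_neg_of_lt this), mul_nonneg_of_nonpos_of_nonpos (Mathlib.Tactic.Linarith.sub_nonpos_of_le hη1) (le_of_lt (Mathlib.Tactic.Linarith.sub_neg_of_lt this)), mul_pos_of_neg_of_neg (Mathlib.Tactic.Linarith.sub_neg_of_lt this) (Mathlib.Tactic.Linarith.sub_neg_of_lt this)])) (im.1.mono_set inter_subset_right)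
    rw [one_mul] at h1
    exact h1.trans (setIntegral_mono_set im.1 (Eventually.of_forall m0)
      inter_subset_right.eventuallyLE)
  have pt : ∫ t in Ioc a c, eg (b t - β t) ≤
      ∫ t in Ioc a c, (min 1 ((b t - β t) ^ 2) + E.indicator ψ t) := by
    refine setIntegral_mono ie.1 (im.1.add (i0.1.indicator hE)) fun t => ?_
    by_cases ht : t ∈ E
    · simp only [indicator_of_mem ht]
      linarith only [m0, AI2_le (b t - β t), m0 t]
    · have h1 : |b t - β t| ≤ 1 := not_lt.1 ht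
      simp only [indicator_of_notMem ht, add_zero]
      rw [min_eq_right ((sq_le_one_iff_abs_le_one _).2 h1)]
      exact eg_le_sq h1
  rw [integral_add im.1 (i0.1.indicator hE), setIntegral_indicator hE, inter_comm] at pt
  rw [intervalIntegral.integral_of_le hac.le, intervalIntegral.integral_of_le hac.le]
  have := mul_le_mul_of_nonneg_left vm (show 0 ≤ 2 * K0 + 4 * K1 by positivity)
  linarith only [key, pt, this]

end Pool.Agent.Work.MP_af796d_an.H
end

-- merged part: Pool.Agent.Work.MP_af796d_an.H.Tau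
section
/-!
# The analytic cut-offs ta and the step approximants stp
PLAN.  Put x = ch (t - y), e = ex t * ex (-y) = ex (t - y).
* den_ge: |1 + h - e|^2 = h^2 + (1 + h) x^2 ≥ (h + x)^2 / 4 (compare norm_sq_one_sub in Dyadic.lean,
  or expand with e = cos + i sin and x^2 = 2 - 2 cos).
* On the closed disc |1 + h - z ex (-y)| ≥ h, so ta is analytic there and bounded by 1.
* 1 - ta = (1 - e)/den, deriv (ta h y) z = h ex (-y) / den^2.
* stp_sub: for j ≤ n, d j = d 0 + sum_{k<j} (d (k+1) - d k), so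
  stp - d j = sum_{k<j} Δ_k (ta_k - 1) + sum_{j≤k<n} Δ_k ta_k.  With rr (j+1) ≤ |s| ≤ rr j ≤ 1 we have
  rr j / 4 ≤ x ≤ rr j (le_ch', ch_le_abs).  For k < j: |ta_k - 1| ≤ 2 x / rr k ≤ 2 rr j / rr k, and this ratio is the min.
  For k ≥ j: |ta_k| ≤ 2 rr k / x ≤ 8 rr k / rr j.
* stp_deriv: 4 h x / (h + x)^2 ≤ 1.  gc_sum: swap the sums, min_sum.
-/

set_option autoImplicit false

namespace Pool.Agent.Work.MP_af796d_an.H

open MeasureTheory Set Real Metric Filter Topology

lemma Tau_norm (y : ℝ) (z : ℂ) : ‖z * ex (-y)‖ = ‖z‖ := by rw [norm_mul, norm_ex, mul_one]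

lemma Tau_ch (y t : ℝ) : ‖1 - ex t * ex (-y)‖ = ch (t - y) := by
  rw [← ex_add, norm_sub_rev, ch, sub_eq_add_neg t]

lemma Tau_den {h : ℝ} (hh : 0 < h) (y : ℝ) {z : ℂ} (hz : ‖z‖ ≤ 1) :
    h ≤ ‖(1 : ℂ) + h - z * ex (-y)‖ := by
  have h1 := norm_sub_norm_le ((1 : ℂ) + h) (z * ex (-y))
  have h2 : ‖(1 : ℂ) + h‖ = 1 + h := by
    rw [← Complex.ofReal_one, ← Complex.ofReal_add, Complex.norm_of_nonneg (by linarith)]
  rw [Tau_norm, h2] at h1
  linarith

lemma Tau_ne {h : ℝ} (hh : 0 < h) (y : ℝ) {z : ℂ} (hz : ‖z‖ ≤ 1) :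
    (1 : ℂ) + h - z * ex (-y) ≠ 0 := norm_pos_iff.1 (hh.trans_le (Tau_den hh y hz))

lemma den_ge {h : ℝ} (hh : 0 < h) (y t : ℝ) :
    (h + ch (t - y)) / 2 ≤ ‖(1 : ℂ) + h - ex t * ex (-y)‖ := by
  have h1 := Tau_den hh y (norm_ex t).le
  have h2 : ch (t - y) ≤ ‖(1 : ℂ) + h - ex t * ex (-y)‖ := by
    rw [← Tau_ch]
    have h3 := (Complex.re_le_norm (ex t * ex (-y))).trans_eq ((Tau_norm y _).trans (norm_ex t))
    generalize ex t * ex (-y) = z at *
    refine le_of_sq_le_sq ?_ (norm_nonneg _)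
    rw [Complex.sq_norm, Complex.sq_norm, Complex.normSq_apply, Complex.normSq_apply]
    simp only [Complex.sub_re, Complex.one_re, Complex.add_re, Complex.ofReal_re, Complex.ofReal_im,
      Complex.sub_im, Complex.one_im, Complex.add_im]
    linarith only [hh, h3, mul_pos_of_neg_of_neg (Mathlib.Tactic.Linarith.sub_neg_of_lt hh) (Mathlib.Tactic.Linarith.sub_neg_of_lt hh), mul_nonneg_of_nonpos_of_nonpos (le_of_lt (Mathlib.Tactic.Linarith.sub_neg_of_lt hh)) (Mathlib.Tactic.Linarith.sub_nonpos_of_le h3)]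
  linarith

lemma den_ge' {h : ℝ} (hh : 0 < h) (y : ℝ) {z : ℂ} (hz : ‖z‖ ≤ 1) :
    h ≤ ‖(1 : ℂ) + h - z * ex (-y)‖ := by
  exact Tau_den hh y hz

lemma ta_an {h : ℝ} (hh : 0 < h) (y : ℝ) : AnalyticOnNhd ℂ (ta h y) (closedBall 0 1) := by
  intro z hz
  exact analyticAt_const.div (analyticAt_const.sub (analyticAt_id.mul analyticAt_const))
    (Tau_ne hh y (mem_closedBall_zero_iff.1 hz))

lemma ta_le_one {h : ℝ} (hh : 0 < h) (y : ℝ) {z : ℂ} (hz : ‖z‖ ≤ 1) : ‖ta h y z‖ ≤ 1 := by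
  rw [ta, norm_div, Complex.norm_of_nonneg hh.le]
  exact div_le_one_of_le₀ (Tau_den hh y hz) (norm_nonneg _)

lemma ta_self {h : ℝ} (hh : 0 < h) (y : ℝ) : ta h y (ex y) = 1 := by
  rw [ta, mul_comm, ex_neg_mul, add_sub_cancel_left, div_self (Complex.ofReal_ne_zero.2 hh.ne')]

lemma ta_le {h : ℝ} (hh : 0 < h) (y t : ℝ) : ‖ta h y (ex t)‖ ≤ 2 * (h / (h + ch (t - y))) := by
  have h0 := ch_nonneg (t - y)
  rw [ta, norm_div, Complex.norm_of_nonneg hh.le]
  refine (div_le_div_of_nonneg_left hh.le (by positivity) (den_ge hh y t)).trans (le_of_eq ?_)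
  field_simp

lemma Tau_one {h : ℝ} (hh : 0 < h) (y : ℝ) {z : ℂ} (hz : ‖z‖ ≤ 1) :
    1 - ta h y z = (1 - z * ex (-y)) / (1 + h - z * ex (-y)) := by
  rw [ta, one_sub_div (Tau_ne hh y hz)]
  congr 1
  ring

lemma one_sub_ta_le {h : ℝ} (hh : 0 < h) (y t : ℝ) :
    ‖1 - ta h y (ex t)‖ ≤ 2 * (ch (t - y) / (h + ch (t - y))) := by
  have h0 := ch_nonneg (t - y)
  rw [Tau_one hh y (norm_ex t).le, norm_div, Tau_ch]
  refine (div_le_div_of_nonneg_left h0 (by positivity) (den_ge hh y t)).trans (le_of_eq ?_)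
  field_simp

lemma one_sub_ta {h : ℝ} (hh : 0 < h) (y : ℝ) {z : ℂ} (hz : ‖z‖ ≤ 1) :
    1 - ta h y z = (1 - z * ex (-y)) / (1 + h - z * ex (-y)) := by
  exact Tau_one hh y hz

lemma deriv_ta_le {h : ℝ} (hh : 0 < h) (y t : ℝ) :
    ‖deriv (ta h y) (ex t)‖ ≤ 4 * (h / (h + ch (t - y)) ^ 2) := by
  have h0 := ch_nonneg (t - y)
  have h1 : HasDerivAt (ta h y) ((0 * (1 + h - ex t * ex (-y)) - h * (0 - 1 * ex (-y))) /
      (1 + h - ex t * ex (-y)) ^ 2) (ex t) :=
    (hasDerivAt_const _ _).div ((hasDerivAt_const _ _).sub ((hasDerivAt_id _).mul_const _))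
      (Tau_ne hh y (norm_ex t).le)
  rw [h1.deriv, norm_div, norm_pow, zero_mul, zero_sub, zero_sub, norm_neg, norm_mul, norm_neg,
    one_mul, norm_ex, mul_one, Complex.norm_of_nonneg hh.le]
  refine (div_le_div_of_nonneg_left hh.le (by positivity)
    (pow_le_pow_left₀ (by positivity) (den_ge hh y t) 2)).trans (le_of_eq ?_)
  field_simp
  norm_num

lemma ta_sub_ta_le {h : ℝ} (hh : 0 < h) (y t : ℝ) :
    ‖ta (h / 2) y (ex t) - ta h y (ex t)‖ ≤ 4 * om h (ch (t - y)) := by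
  have h0 := ch_nonneg (t - y)
  have n1 := Tau_ne hh y (norm_ex t).le
  have n2 := Tau_ne (half_pos hh) y (norm_ex t).le
  have e : ta (h / 2) y (ex t) - ta h y (ex t) = -(((h / 2 : ℝ) : ℂ) * (1 - ex t * ex (-y))) /
      ((1 + ((h / 2 : ℝ) : ℂ) - ex t * ex (-y)) * (1 + h - ex t * ex (-y))) := by
    rw [ta, ta, div_sub_div _ _ n2 n1]
    congr 1
    push_cast
    ring
  rw [e, norm_div, norm_neg, norm_mul, norm_mul, Tau_ch, Complex.norm_of_nonneg (half_pos hh).le]
  have d : (h + ch (t - y)) / 4 ≤ ‖1 + ((h / 2 : ℝ) : ℂ) - ex t * ex (-y)‖ := by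
    linarith only [h0, hh, den_ge (half_pos hh) y t]
  refine (div_le_div_of_nonneg_left (by positivity) (by positivity)
    (mul_le_mul d (den_ge hh y t) (by positivity) (norm_nonneg _))).trans (le_of_eq ?_)
  rw [om]
  field_simp

lemma stp_an (d : ℕ → ℝ) (n : ℕ) (y : ℝ) : AnalyticOnNhd ℂ (stp d n y) (closedBall 0 1) := by
  intro z hz
  exact analyticAt_const.add (Finset.analyticAt_fun_sum _ fun k _ =>
    analyticAt_const.mul (ta_an (rr_pos k) y z hz))

lemma stp_le (d : ℕ → ℝ) (n : ℕ) (y : ℝ) {z : ℂ} (hz : ‖z‖ ≤ 1) :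
    ‖stp d n y z‖ ≤ |d 0| + ∑ k ∈ Finset.range n, |d (k + 1) - d k| := by
  refine (norm_add_le _ _).trans (add_le_add (Complex.norm_real _).le (norm_sum_le_of_le _ fun k _ => ?_))
  rw [norm_mul, Complex.norm_real, Real.norm_eq_abs]
  exact mul_le_of_le_one_right (abs_nonneg _) (ta_le_one (rr_pos k) y hz)

lemma stp_deriv (d : ℕ → ℝ) (n : ℕ) (y t : ℝ) :
    ch (t - y) * ‖deriv (stp d n y) (ex t)‖ ≤ ∑ k ∈ Finset.range n, |d (k + 1) - d k| := by
  have h0 := ch_nonneg (t - y)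
  have h1 : HasDerivAt (stp d n y) (∑ k ∈ Finset.range n,
      ((d (k + 1) - d k : ℝ) : ℂ) * deriv (ta (rr k) y) (ex t)) (ex t) :=
    (HasDerivAt.fun_sum fun k _ =>
      (ta_an (rr_pos k) y _ (ex_mem t)).differentiableAt.hasDerivAt.const_mul _).const_add _
  rw [h1.deriv]
  refine (mul_le_mul_of_nonneg_left (norm_sum_le _ _) h0).trans ?_
  rw [Finset.mul_sum]
  refine Finset.sum_le_sum fun k _ => ?_
  rw [norm_mul, Complex.norm_real, Real.norm_eq_abs, mul_left_comm]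
  refine mul_le_of_le_one_right (abs_nonneg _)
    ((mul_le_mul_of_nonneg_left (deriv_ta_le (rr_pos k) y t) h0).trans ?_)
  have h2 := rr_pos k
  rw [← mul_div_assoc, ← mul_div_assoc, div_le_one (by positivity)]
  linarith only [sq_nonneg (rr k - ch (t - y)), sq_nonneg (rr k - ch (t - y))]

lemma stp_sub (d : ℕ → ℝ) {n j : ℕ} (hj : j ≤ n) (y : ℝ) {s : ℝ} (h1 : rr (j + 1) ≤ |s|)
    (h2 : |s| ≤ rr j) : ‖stp d n y (ex (y + s)) - (d j : ℂ)‖ ≤ 8 * gc d n j := by
  have e : stp d n y (ex (y + s)) - (d j : ℂ) = ∑ k ∈ Finset.range n,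
      ((d (k + 1) - d k : ℝ) : ℂ) * (ta (rr k) y (ex (y + s)) - if k < j then 1 else 0) := by
    have e1 : (Finset.range n).filter (· < j) = Finset.range j := by
      ext k
      simp only [Finset.mem_filter, Finset.mem_range]
      omega
    simp only [mul_sub, Finset.sum_sub_distrib, mul_ite, mul_one, mul_zero]
    rw [← Finset.sum_filter, e1, ← Complex.ofReal_sum, Finset.sum_range_sub, stp]
    push_cast
    ring
  have x1 := (ch_le_abs s).trans h2
  have x2 := le_ch' (h2.trans ((rr_le_one j).trans (by linarith only [pi_gt_three])))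
  have rj := rr_pos j
  have x0 := ch_nonneg s
  rw [rr_succ] at h1
  rw [e, gc, Finset.mul_sum]
  refine norm_sum_le_of_le _ fun k _ => ?_
  have rk := rr_pos k
  rw [norm_mul, Complex.norm_real, Real.norm_eq_abs, mul_left_comm]
  refine mul_le_mul_of_nonneg_left ?_ (abs_nonneg _)
  split_ifs with hk
  · have a := one_sub_ta_le rk y (y + s)
    have b := rr_anti hk.le
    rw [add_sub_cancel_left, norm_sub_rev] at a
    rw [min_eq_right (div_le_div₀ rk.le b rj b)]
    have c : ch s / (rr k + ch s) ≤ rr j / rr k := div_le_div₀ rj.le x1 rk (by linarith only [h1, x2, rj])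
    have : 0 ≤ rr j / rr k := by positivity
    linarith only [a, c, this]
  · have a := ta_le rk y (y + s)
    have b := rr_anti (not_lt.1 hk)
    rw [add_sub_cancel_left] at a
    rw [sub_zero, min_eq_left (div_le_div₀ rj.le b rk b)]
    have c : rr k / (rr k + ch s) ≤ rr k / (rr j / 4) :=
      div_le_div_of_nonneg_left rk.le (by positivity) (by linarith only [h1, x2, rk])
    rw [div_div_eq_mul_div, mul_div_right_comm] at c
    linarith only [a, c]

lemma gc_nonneg (d : ℕ → ℝ) (n j : ℕ) : 0 ≤ gc d n j := by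
  refine Finset.sum_nonneg fun k _ => mul_nonneg (abs_nonneg _) (le_min ?_ ?_) <;>
    exact (div_pos (rr_pos _) (rr_pos _)).le

lemma gc_sum (d : ℕ → ℝ) (n m : ℕ) :
    ∑ j ∈ Finset.range m, gc d n j ≤ 3 * ∑ k ∈ Finset.range n, |d (k + 1) - d k| := by
  simp only [gc]
  rw [Finset.sum_comm, Finset.mul_sum]
  refine Finset.sum_le_sum fun k _ => ?_
  rw [← Finset.mul_sum, mul_comm]
  exact mul_le_mul_of_nonneg_right (min_sum k m) (abs_nonneg _)

end Pool.Agent.Work.MP_af796d_an.H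
end

-- merged part: Pool.Agent.Work.MP_af796d_an.H.NDefs
section
/-! Definitions for the necessity part.  No proofs here. -/

set_option autoImplicit false

namespace Pool.Agent.Work.MP_af796d_an.H

open MeasureTheory Set Real Metric

/-- one-sided data extracted from `EL`. -/
structure NS (S α p : ℝ → ℝ) (ν₁ ν₂ : Measure ℝ) (C : ℝ) : Prop where
  fin₁ : IsFiniteMeasure ν₁
  fin₂ : IsFiniteMeasure ν₂
  cont : Continuous S
  mono : StrictMono S
  zero : S 0 = 0
  dom : Dom α p 0 2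
  var : p 2 - p 0 ≤ C
  m₁ : ν₁.real univ ≤ C
  m₂ : ν₂.real univ ≤ C
  eq : ∀ᵐ t : ℝ, t ∈ Icc (0 : ℝ) 2 → Real.log (S t) = α t + logPot ν₁ t - logPot ν₂ t

/-- inner part of the circle at scale `r`. -/
def sIn (r : ℝ) : Set ℝ := {σ | ch σ < r / 16}

/-- near part of the circle at scale `r`. -/
def sNear (r : ℝ) : Set ℝ := {σ | r / 16 ≤ ch σ ∧ ch σ ≤ 9 * r / 4}

/-- inner mass. -/
noncomputable def cin (ν₁ ν₂ : Measure ℝ) (r : ℝ) : ℝ := ν₁.real (sIn r) - ν₂.real (sIn r)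

/-- local size at scale `r`. -/
noncomputable def nn (ν₁ ν₂ : Measure ℝ) (p : ℝ → ℝ) (r : ℝ) : ℝ :=
  (∫ σ, om r (ch σ) ∂ν₁) + (∫ σ, om r (ch σ) ∂ν₂) + (p (9 * r / 8) - p (3 * r / 8))

/-- local estimates for `log S`. -/
structure LocN (S c N : ℝ → ℝ) (K : ℝ) : Prop where
  cont : Continuous S
  mono : StrictMono S
  zero : S 0 = 0
  bd : ∀ r, 0 < r → r ≤ 1 → 0 ≤ N r ∧ N r ≤ K ∧ |c r| ≤ K
  pt : ∀ r, 0 < r → r ≤ 1 → ∀ s ∈ Icc (r / 2) r,
    |Ed (r / 8) (fun t => Real.log (S t)) s - c r * Ed (r / 8) lg s| ≤ N r / r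
  wk : ∀ r, 0 < r → r ≤ 1 → ∫ s in (r / 2)..r,
    min 1 ((r * (deriv (fun t => Real.log (S t)) s - c r * lg1 s)) ^ 2) ≤ r * N r
  sN : ∀ n, ∑ k ∈ Finset.range n, N (rr k) ≤ K
  sc : ∀ n, ∑ k ∈ Finset.range n, |c (rr (k + 1)) - c (rr k)| ≤ K

/-- both halves of a short interval carry a fixed proportion of the increment. -/
def DB (Φ : ℝ → ℝ) (D : ℝ) : Prop :=
  ∀ y r, 0 < r → r ≤ 1 → Φ (y + r) - Φ y ≤ D * (Φ (y + r / 2) - Φ y) ∧
    Φ (y + r) - Φ y ≤ D * (Φ (y + r) - Φ (y + r / 2))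

/-- the derivative is comparable to the mean slope on a fixed proportion of every short interval. -/
def Beta (Φ : ℝ → ℝ) (η γ : ℝ) : Prop :=
  ∀ y ρ, 0 < ρ → ρ ≤ 1 →
    γ * ρ ≤ volume.real {x | x ∈ Ioc y (y + ρ) ∧ η * ((Φ (y + ρ) - Φ y) / ρ) ≤ deriv Φ x}

/-- `min T (log⁺ (m / w))`, with value `T` for `w ≤ 0`. -/
noncomputable def ps (T m w : ℝ) : ℝ :=
  max 0 (Real.log m - Real.log (max w (m * Real.exp (-T))))

end Pool.Agent.Work.MP_af796d_an.H
end

-- merged part: Pool.Agent.Work.MP_af796d_an.H.Ed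
section
/-!
# The tent-smoothed derivative
PLAN.
* Ed_eq: δ^2 Ed δ φ s = ∫_s^{s+δ} φ - ∫_{s-δ}^s φ (substitutions).  Linearity, a.e. congruence and continuity follow from it.
* Ed_lip: |φ (s+τ) - φ (s-τ)| ≤ 2 τ L, ∫_0^δ 2 τ = δ^2 (intervalIntegral.norm_integral_le_of_norm_le; no integrability of φ needed).
* Ed_lg_le: by periodicity assume |x| ≤ π (exists_window).  If |x| ≥ 2 δ the window has ch ≥ δ/3 (le_ch3 in Mod2.lean, ch_abs), use lg_lip and Ed_lip.
  Otherwise |lg ξ - log δ| ≤ |log (|ξ|/δ)| + log 2 for 0 < |ξ| ≤ 3 δ ≤ π (le_ch', ch_le_abs), and ∫_{-3δ}^{3δ} |log (ξ/δ)| = δ ∫_{-3}^3 |log| ≤ δ L1 (L1 in Mod2.lean).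
* Ed_logPot: logPot_eq and Fubini (integrable_lg_prod in Pot.lean on windows of length ≤ 2π).
* Ed_dom: |α (s+τ) - α (s-τ)| ≤ p (s+τ) - p (s-τ) ≤ p b - p a.
* Ed_int: Fubini or Ed_eq: ∫_a^b (p (s+τ) - p (s-τ)) ds = ∫_{b-τ}^{b+τ} p - ∫_{a-τ}^{a+τ} p ≤ 2 τ (p (b+δ) - p (a-δ)).
* Ed_tendsto: given ε, for small τ |φ (s+τ) - φ (s-τ) - 2 τ d| ≤ 2 ε τ (HasDerivAt.isLittleO), so the function x ↦ φ x - d x has |Ed| ≤ ε; Ed of x ↦ d x is d.
* Ed_ge: the integrand is ≥ 0 on [0, δ/2] and ≥ φ (s + δ/2) - φ (s - δ/2) on [δ/2, δ].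
-/

set_option autoImplicit false

namespace Pool.Agent.Work.MP_af796d_an.H

open MeasureTheory Set Real Metric Filter Topology

lemma Ed_sub_ii {φ : ℝ → ℝ} {a b x y : ℝ} (h : IntervalIntegrable φ volume a b)
    (hx : x ∈ Icc a b) (hy : y ∈ Icc a b) : IntervalIntegrable φ volume x y :=
  h.mono_set (uIcc_subset_uIcc (Icc_subset_uIcc hx) (Icc_subset_uIcc hy))

lemma Ed_iiR {φ : ℝ → ℝ} {δ s : ℝ} (hδ : 0 < δ)
    (h : IntervalIntegrable φ volume (s - δ) (s + δ)) :
    IntervalIntegrable (fun τ => φ (s + τ)) volume 0 δ := by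
  simpa using (Ed_sub_ii h (x := s) (y := s + δ) ⟨by linarith, by linarith⟩
    ⟨by linarith, le_rfl⟩).comp_add_left s

lemma Ed_iiL {φ : ℝ → ℝ} {δ s : ℝ} (hδ : 0 < δ)
    (h : IntervalIntegrable φ volume (s - δ) (s + δ)) :
    IntervalIntegrable (fun τ => φ (s - τ)) volume 0 δ := by
  simpa using (Ed_sub_ii h (x := s) (y := s - δ) ⟨by linarith, by linarith⟩
    ⟨le_rfl, by linarith⟩).comp_sub_left s

lemma Ed_ii {φ : ℝ → ℝ} {δ s : ℝ} (hδ : 0 < δ)
    (h : IntervalIntegrable φ volume (s - δ) (s + δ)) :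
    IntervalIntegrable (fun τ => φ (s + τ) - φ (s - τ)) volume 0 δ :=
  (Ed_iiR hδ h).sub (Ed_iiL hδ h)

lemma Ed_eq {φ : ℝ → ℝ} {δ s : ℝ} (hδ : 0 < δ) (h : IntervalIntegrable φ volume (s - δ) (s + δ)) :
    Ed δ φ s = ((∫ t in s..(s + δ), φ t) - ∫ t in (s - δ)..s, φ t) / δ ^ 2 := by
  rw [Ed, intervalIntegral.integral_sub (Ed_iiR hδ h) (Ed_iiL hδ h),
    intervalIntegral.integral_comp_add_left, intervalIntegral.integral_comp_sub_left, add_zero,
    sub_zero]

lemma Ed_add {φ ψ : ℝ → ℝ} {δ s : ℝ} (hδ : 0 < δ)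
    (h1 : IntervalIntegrable φ volume (s - δ) (s + δ))
    (h2 : IntervalIntegrable ψ volume (s - δ) (s + δ)) :
    Ed δ (fun t => φ t + ψ t) s = Ed δ φ s + Ed δ ψ s := by
  rw [Ed, Ed, Ed, ← add_div, ← intervalIntegral.integral_add (Ed_ii hδ h1) (Ed_ii hδ h2)]
  congr 2
  funext τ
  ring

lemma Ed_sub {φ ψ : ℝ → ℝ} {δ s : ℝ} (hδ : 0 < δ)
    (h1 : IntervalIntegrable φ volume (s - δ) (s + δ))
    (h2 : IntervalIntegrable ψ volume (s - δ) (s + δ)) :
    Ed δ (fun t => φ t - ψ t) s = Ed δ φ s - Ed δ ψ s := by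
  rw [Ed, Ed, Ed, ← sub_div, ← intervalIntegral.integral_sub (Ed_ii hδ h1) (Ed_ii hδ h2)]
  congr 2
  funext τ
  ring

lemma Ed_congr {φ ψ : ℝ → ℝ} {δ s : ℝ} (hδ : 0 < δ)
    (h : ∀ᵐ t : ℝ, t ∈ Icc (s - δ) (s + δ) → φ t = ψ t) : Ed δ φ s = Ed δ ψ s := by
  have h1 := (measurePreserving_add_left volume s).quasiMeasurePreserving.ae h
  have h2 := (Measure.measurePreserving_sub_left volume s).quasiMeasurePreserving.ae h
  unfold Ed
  congr 1
  refine intervalIntegral.integral_congr_ae ?_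
  filter_upwards [h1, h2] with τ e1 e2 hτ
  rw [uIoc_of_le hδ.le] at hτ
  rw [e1 ⟨by linarith [hτ.1], by linarith [hτ.2]⟩, e2 ⟨by linarith [hτ.2], by linarith [hτ.1]⟩]

lemma Ed_shift (φ : ℝ → ℝ) (δ s σ : ℝ) : Ed δ (fun t => φ (t - σ)) s = Ed δ φ (s - σ) := by
  unfold Ed
  congr 2
  funext τ
  beta_reduce
  rw [add_sub_right_comm, sub_right_comm]

lemma Ed_continuousOn {φ : ℝ → ℝ} {δ a b : ℝ} (hδ : 0 < δ) (hab : a ≤ b)
    (h : IntervalIntegrable φ volume (a - δ) (b + δ)) : ContinuousOn (Ed δ φ) (Icc a b) := by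
  have hle : a - δ ≤ b + δ := by linarith
  have hP := intervalIntegral.continuousOn_primitive_interval' h left_mem_uIcc
  rw [uIcc_of_le hle] at hP
  have c1 := hP.comp (s := Icc a b) (continuous_add_const δ).continuousOn
    fun s hs => ⟨by linarith [hs.1], by linarith [hs.2]⟩
  have c2 := hP.mono (t := Icc a b) fun s hs => ⟨by linarith [hs.1], by linarith [hs.2]⟩
  have c3 := hP.comp (s := Icc a b) (continuous_sub_right δ).continuousOn
    fun s hs => ⟨by linarith [hs.1], by linarith [hs.2]⟩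
  refine (((c1.sub c2).sub (c2.sub c3)).div_const (δ ^ 2)).congr fun s hs => ?_
  have m0 : a - δ ∈ Icc (a - δ) (b + δ) := left_mem_Icc.2 hle
  have m1 : s + δ ∈ Icc (a - δ) (b + δ) := ⟨by linarith [hs.1], by linarith [hs.2]⟩
  have m2 : s ∈ Icc (a - δ) (b + δ) := ⟨by linarith [hs.1], by linarith [hs.2]⟩
  have m3 : s - δ ∈ Icc (a - δ) (b + δ) := ⟨by linarith [hs.1], by linarith [hs.2]⟩
  rw [Ed_eq hδ (Ed_sub_ii h m3 m1),
    ← intervalIntegral.integral_interval_sub_left (Ed_sub_ii h m0 m1) (Ed_sub_ii h m0 m2),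
    ← intervalIntegral.integral_interval_sub_left (Ed_sub_ii h m0 m2) (Ed_sub_ii h m0 m3)]
  rfl

lemma continuous_Ed_lg {δ : ℝ} (hδ : 0 < δ) : Continuous (Ed δ lg) := by
  refine continuous_iff_continuousAt.2 fun x => ?_
  exact (Ed_continuousOn (a := x - 1) (b := x + 1) hδ (by linarith)
    (intervalIntegrable_lg _ _)).continuousAt (Icc_mem_nhds (by linarith) (by linarith))

lemma Ed_lin (L δ : ℝ) : ∫ τ in (0 : ℝ)..δ, L * (2 * τ) = L * δ ^ 2 := by
  rw [intervalIntegral.integral_const_mul, intervalIntegral.integral_const_mul, integral_id]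
  ring

lemma Ed_lin_ii (L δ : ℝ) : IntervalIntegrable (fun τ : ℝ => L * (2 * τ)) volume 0 δ :=
  Continuous.intervalIntegrable (by fun_prop) _ _

lemma Ed_le_of {φ : ℝ → ℝ} {δ s L : ℝ} (hδ : 0 < δ)
    (hi : IntervalIntegrable φ volume (s - δ) (s + δ))
    (h : ∀ τ ∈ Icc 0 δ, φ (s + τ) - φ (s - τ) ≤ L * (2 * τ)) : Ed δ φ s ≤ L := by
  rw [Ed, div_le_iff₀ (pow_pos hδ 2), ← Ed_lin]
  exact intervalIntegral.integral_mono_on hδ.le (Ed_ii hδ hi) (Ed_lin_ii L δ) h

lemma Ed_ge_of {φ : ℝ → ℝ} {δ s L : ℝ} (hδ : 0 < δ)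
    (hi : IntervalIntegrable φ volume (s - δ) (s + δ))
    (h : ∀ τ ∈ Icc 0 δ, L * (2 * τ) ≤ φ (s + τ) - φ (s - τ)) : L ≤ Ed δ φ s := by
  rw [Ed, le_div_iff₀ (pow_pos hδ 2), ← Ed_lin]
  exact intervalIntegral.integral_mono_on hδ.le (Ed_lin_ii L δ) (Ed_ii hδ hi) h

lemma Ed_lip {φ : ℝ → ℝ} {δ s L : ℝ} (hδ : 0 < δ)
    (h : ∀ x ∈ Icc (s - δ) (s + δ), ∀ x' ∈ Icc (s - δ) (s + δ), |φ x - φ x'| ≤ L * |x - x'|) :
    |Ed δ φ s| ≤ L := by
  rw [Ed, abs_div, abs_of_pos (pow_pos hδ 2), div_le_iff₀ (pow_pos hδ 2), ← Ed_lin,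
    ← Real.norm_eq_abs]
  refine intervalIntegral.norm_integral_le_of_norm_le hδ.le
    (Eventually.of_forall fun τ hτ => ?_) (Ed_lin_ii L δ)
  have h1 := h (s + τ) ⟨by linarith [hτ.1], by linarith [hτ.2]⟩ (s - τ)
    ⟨by linarith [hτ.2], by linarith [hτ.1]⟩
  rwa [show s + τ - (s - τ) = 2 * τ by ring, abs_of_pos (by linarith [hτ.1] : 0 < 2 * τ)] at h1

theorem Ed_lg_le : ∃ K : ℝ, 0 ≤ K ∧ ∀ δ, 0 < δ → δ ≤ 1 → ∀ x, |Ed δ lg x| ≤ K / δ := by
  set A : ℝ := ∫ u in (-3 : ℝ)..3, (|Real.log u| + 1) with hA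
  have A0 : 0 ≤ A := intervalIntegral.integral_nonneg (by norm_num) fun u _ => by positivity
  refine ⟨2 * A + 3, by linarith, fun δ hδ hδ1 x₀ => ?_⟩
  obtain ⟨n, hn1, hn2⟩ := exists_window (-π) x₀
  have e0 : Ed δ lg x₀ = Ed δ lg (x₀ + n * (2 * π)) := by
    have hp := lg_periodic.int_mul n
    unfold Ed
    congr 2
    funext τ
    rw [add_right_comm, hp, add_sub_right_comm, hp]
  rw [e0]
  generalize x₀ + n * (2 * π) = x at hn1 hn2
  have hx : |x| ≤ π := abs_le.2 ⟨hn1, by linarith⟩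
  rcases le_or_gt (2 * δ) |x| with h2 | h2
  · refine (Ed_lip (L := 3 / δ) hδ fun u hu v hv => ?_).trans
      (div_le_div_of_nonneg_right (by linarith) hδ.le)
    refine (lg_lip (η := δ / 3) (by positivity) fun w hw => ?_).trans_eq (by field_simp)
    have hw1 : w ∈ Icc (x - δ) (x + δ) := uIcc_subset_Icc hv hu hw
    have h3 : |w - x| ≤ δ := abs_le.2 ⟨by linarith [hw1.1], by linarith [hw1.2]⟩
    have h4 := abs_abs_sub_abs_le_abs_sub w x
    have h5 := abs_le.1 (h4.trans h3)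
    have h6 := le_ch3 (abs_nonneg w) (by linarith [h5.2])
    rw [ch_abs] at h6
    linarith only [h2, h5, h6, h5.1]
  · have hF : ∀ a c, IntervalIntegrable (fun t => lg t - Real.log δ) volume a c := fun a c =>
      (intervalIntegrable_lg a c).sub intervalIntegrable_const
    have hx2 := abs_lt.1 h2
    have hG : IntervalIntegrable (fun t => |Real.log (t / δ)| + 1) volume (-3 * δ) (3 * δ) := by
      have h3 : ∀ a c, IntervalIntegrable (fun u => |Real.log u| + 1) volume a c := fun a c =>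
        intervalIntegral.intervalIntegrable_log'.abs.add intervalIntegrable_const
      have h4 := (h3 (-3) 3).comp_mul_right (c := δ⁻¹)
      simpa [div_eq_mul_inv] using h4
    have hb : ∫ t in (-3 * δ)..(3 * δ), |lg t - Real.log δ| ≤ δ * A := by
      have h3 : ∫ t in (-3 * δ)..(3 * δ), (|Real.log (t / δ)| + 1) = δ * A := by
        rw [intervalIntegral.integral_comp_div (fun u => |Real.log u| + 1) hδ.ne',
          mul_div_cancel_right₀ _ hδ.ne', mul_div_cancel_right₀ _ hδ.ne', smul_eq_mul]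
      rw [← h3]
      refine intervalIntegral.integral_mono_ae_restrict (by linarith only [hδ]) (hF _ _).abs hG ?_
      refine (ae_restrict_iff' measurableSet_Icc).2 ?_
      filter_upwards [Measure.ae_ne volume (0 : ℝ)] with t ht hm
      have t0 : 0 < |t| := abs_pos.2 ht
      have t1 : |t| ≤ π := abs_le.2 ⟨by linarith [hm.1, pi_gt_three], by linarith [hm.2, pi_gt_three]⟩
      have l1 := Real.log_le_log (by positivity) (le_ch' t1)
      have l2 := Real.log_le_log (lt_of_lt_of_le (by positivity) (le_ch' t1)) (ch_le_abs t)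
      rw [Real.log_div t0.ne' two_ne_zero] at l1
      rw [Real.log_abs] at l1 l2
      have l3 := Real.log_two_lt_d9
      rw [Real.log_div ht hδ.ne', lg, abs_le]
      constructor <;>
        linarith only [l1, l3, l2, le_abs_self (Real.log t - Real.log δ), neg_abs_le (Real.log t - Real.log δ)]
    have hs : ∀ a c, -3 * δ ≤ a → a ≤ c → c ≤ 3 * δ →
        |∫ t in a..c, (lg t - Real.log δ)| ≤ δ * A := fun a c h3 h4 h5 =>
      ((intervalIntegral.abs_integral_le_integral_abs h4).trans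
        (intervalIntegral.integral_mono_interval h3 h4 h5
          (Eventually.of_forall fun _ => abs_nonneg _) (hF _ _).abs)).trans hb
    have e1 : Ed δ lg x = Ed δ (fun t => lg t - Real.log δ) x := by
      unfold Ed
      congr 2
      funext τ
      ring
    have b1 := hs x (x + δ) (by linarith [hx2.1]) (by linarith) (by linarith [hx2.2])
    have b2 := hs (x - δ) x (by linarith [hx2.1]) (by linarith) (by linarith [hx2.2])
    rw [e1, Ed_eq hδ (hF _ _), abs_div, abs_of_pos (pow_pos hδ 2), div_le_iff₀ (pow_pos hδ 2),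
      show (2 * A + 3) / δ * δ ^ 2 = (2 * A + 3) * δ by field_simp]
    exact (abs_sub _ _).trans (by linarith)

lemma Ed_logPot (ν : Measure ℝ) [IsFiniteMeasure ν] {δ : ℝ} (hδ : 0 < δ) (hδ1 : δ ≤ 1) (s : ℝ) :
    Ed δ (logPot ν) s = ∫ σ, Ed δ lg (s - σ) ∂ν := by
  have key : ∀ p q : ℝ, p ≤ q → q ≤ p + 2 * π →
      Integrable (fun σ => ∫ t in p..q, lg (t - σ)) ν ∧
        ∫ t in p..q, logPot ν t = ∫ σ, (∫ t in p..q, lg (t - σ)) ∂ν := fun p q h1 h2 => by
    have hi := integrable_lg_prod ν h1 h2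
    simp only [intervalIntegral.integral_of_le h1, logPot_eq]
    exact ⟨hi.integral_prod_right, integral_integral_swap (f := fun t σ => lg (t - σ)) hi⟩
  obtain ⟨i1, e1⟩ := key s (s + δ) (by linarith) (by linarith [pi_gt_three])
  obtain ⟨i2, e2⟩ := key (s - δ) s (by linarith) (by linarith [pi_gt_three])
  rw [Ed_eq hδ (intervalIntegrable_logPot ν _ _), e1, e2, ← integral_sub i1 i2, ← integral_div]
  congr 1
  funext σ
  rw [← Ed_shift, Ed_eq hδ (intervalIntegrable_lg_sub σ _ _)]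

lemma Ed_dom {α p : ℝ → ℝ} {a b δ s : ℝ} (h : Dom α p a b) (hδ : 0 < δ) (h1 : a ≤ s - δ)
    (h2 : s + δ ≤ b) : |Ed δ α s| ≤ Ed δ p s ∧ Ed δ p s ≤ (p b - p a) / δ := by
  have hi : IntervalIntegrable p volume (s - δ) (s + δ) := by
    refine MonotoneOn.intervalIntegrable ?_
    rw [uIcc_of_le (by linarith)]
    exact h.monotoneOn.mono (Icc_subset_Icc h1 h2)
  constructor
  · rw [Ed, Ed, abs_div, abs_of_pos (pow_pos hδ 2)]
    refine div_le_div_of_nonneg_right ?_ (pow_pos hδ 2).le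
    rw [← Real.norm_eq_abs]
    refine intervalIntegral.norm_integral_le_of_norm_le hδ.le
      (Eventually.of_forall fun τ hτ => ?_) (Ed_ii hδ hi)
    exact h (s - τ) (s + τ) (by linarith [hτ.2]) (by linarith [hτ.1]) (by linarith [hτ.2])
  · have h3 := intervalIntegral.integral_mono_on (g := fun _ => p b - p a) hδ.le (Ed_ii hδ hi)
      intervalIntegrable_const fun τ hτ => sub_le_sub
        (h.le (by linarith [hτ.1]) (by linarith [hτ.2]) le_rfl)
        (h.le le_rfl (by linarith [hτ.2]) (by linarith [hτ.1]))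
    rw [intervalIntegral.integral_const, sub_zero, smul_eq_mul] at h3
    rw [Ed, div_le_iff₀ (pow_pos hδ 2)]
    exact h3.trans_eq (by field_simp)

lemma Ed_prim {φ : ℝ → ℝ} {δ : ℝ} (hδ : 0 < δ) (h : ∀ a b, IntervalIntegrable φ volume a b)
    (s : ℝ) : Ed δ φ s = (((∫ t in (0 : ℝ)..(s + δ), φ t) - ∫ t in (0 : ℝ)..s, φ t) -
      ((∫ t in (0 : ℝ)..s, φ t) - ∫ t in (0 : ℝ)..(s - δ), φ t)) / δ ^ 2 := by
  rw [Ed_eq hδ (h _ _), intervalIntegral.integral_interval_sub_left (h _ _) (h _ _),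
    intervalIntegral.integral_interval_sub_left (h _ _) (h _ _)]

lemma Ed_int_glob {q : ℝ → ℝ} {δ : ℝ} (hδ : 0 < δ) (a b : ℝ) (h : Monotone q) :
    ∫ s in a..b, Ed δ q s ≤ q (b + δ) - q (a - δ) := by
  have hi : ∀ x y, IntervalIntegrable q volume x y := fun _ _ => h.intervalIntegrable
  obtain ⟨P, hP⟩ : ∃ P : ℝ → ℝ, P = fun x => ∫ t in (0 : ℝ)..x, q t := ⟨_, rfl⟩
  have cP : Continuous P := hP ▸ intervalIntegral.continuous_primitive hi 0
  have iP : ∀ x y, IntervalIntegrable P volume x y := fun _ _ => cP.intervalIntegrable _ _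
  have e1 : Ed δ q = fun s => (P (s + δ) - P s - (P s - P (s - δ))) / δ ^ 2 :=
    funext fun s => by rw [Ed_prim hδ hi, hP]
  have i1 : IntervalIntegrable (fun s => P (s + δ)) volume a b :=
    Continuous.intervalIntegrable (by fun_prop) _ _
  have i2 : IntervalIntegrable (fun s => P (s - δ)) volume a b :=
    Continuous.intervalIntegrable (by fun_prop) _ _
  have e2 : ∫ s in a..b, Ed δ q s = Ed δ P b - Ed δ P a := by
    rw [e1, intervalIntegral.integral_div,
      intervalIntegral.integral_sub (i1.sub (iP _ _)) ((iP _ _).sub i2),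
      intervalIntegral.integral_sub i1 (iP _ _), intervalIntegral.integral_sub (iP _ _) i2,
      intervalIntegral.integral_comp_add_right, intervalIntegral.integral_comp_sub_right,
      Ed_prim hδ iP, Ed_prim hδ iP,
      ← intervalIntegral.integral_interval_sub_left (iP 0 (b + δ)) (iP 0 (a + δ)),
      ← intervalIntegral.integral_interval_sub_left (iP 0 b) (iP 0 a),
      ← intervalIntegral.integral_interval_sub_left (iP 0 (b - δ)) (iP 0 (a - δ))]
    ring
  have e3 : ∀ s τ, P (s + τ) - P (s - τ) = ∫ t in (s - τ)..(s + τ), q t := fun s τ => by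
    rw [hP]
    exact intervalIntegral.integral_interval_sub_left (hi _ _) (hi _ _)
  have e4 : ∀ s τ c : ℝ, ∫ _ in (s - τ)..(s + τ), c = c * (2 * τ) := fun s τ c => by
    rw [intervalIntegral.integral_const, smul_eq_mul]
    ring
  rw [e2]
  refine sub_le_sub (Ed_le_of hδ (iP _ _) fun τ hτ => ?_) (Ed_ge_of hδ (iP _ _) fun τ hτ => ?_)
  · rw [e3, ← e4 b]
    exact intervalIntegral.integral_mono_on (by linarith [hτ.1]) (hi _ _)
      intervalIntegrable_const fun t ht => h (by linarith [ht.2, hτ.2])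
  · rw [e3, ← e4 a]
    exact intervalIntegral.integral_mono_on (by linarith [hτ.1])
      intervalIntegrable_const (hi _ _) fun t ht => h (by linarith [ht.1, hτ.2])

lemma Ed_int {p : ℝ → ℝ} {a b δ : ℝ} (hδ : 0 < δ) (hab : a ≤ b)
    (h : MonotoneOn p (Icc (a - δ) (b + δ))) :
    ∫ s in a..b, Ed δ p s ≤ p (b + δ) - p (a - δ) := by
  have hle : a - δ ≤ b + δ := by linarith
  have hq : Monotone fun x => p (projIcc _ _ hle x) := fun x y hxy =>
    h (projIcc _ _ hle x).2 (projIcc _ _ hle y).2 (monotone_projIcc hle hxy)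
  have he : ∀ x ∈ Icc (a - δ) (b + δ), p (projIcc _ _ hle x) = p x := fun x hx => by
    rw [projIcc_of_mem hle hx]
  have h1 := Ed_int_glob hδ a b hq
  rw [he _ (right_mem_Icc.2 hle), he _ (left_mem_Icc.2 hle)] at h1
  refine le_of_eq_of_le (intervalIntegral.integral_congr fun s hs => ?_) h1
  rw [uIcc_of_le hab] at hs
  exact Ed_congr hδ (Eventually.of_forall fun t ht =>
    (he t ⟨by linarith [hs.1, ht.1], by linarith [hs.2, ht.2]⟩).symm)

lemma Ed_tendsto {φ : ℝ → ℝ} {d s η : ℝ} (h : HasDerivAt φ d s) (hη : 0 < η)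
    (hi : IntervalIntegrable φ volume (s - η) (s + η)) :
    Tendsto (fun δ => Ed δ φ s) (𝓝[>] 0) (𝓝 d) := by
  refine Metric.tendsto_nhds.2 fun ε hε => ?_
  obtain ⟨ρ, hρ, H⟩ := Metric.eventually_nhds_iff.1 (h.isLittleO.bound (half_pos hε))
  filter_upwards [Ioo_mem_nhdsGT (lt_min hρ hη)] with δ hδ
  have d1 : δ < ρ := hδ.2.trans_le (min_le_left _ _)
  have d2 : δ < η := hδ.2.trans_le (min_le_right _ _)
  have hi' : IntervalIntegrable φ volume (s - δ) (s + δ) :=
    Ed_sub_ii hi ⟨by linarith, by linarith [hδ.1]⟩ ⟨by linarith [hδ.1], by linarith⟩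
  have key : ∀ τ ∈ Icc 0 δ, |φ (s + τ) - φ s - τ * d| ≤ ε / 2 * τ ∧
      |φ (s - τ) - φ s + τ * d| ≤ ε / 2 * τ := fun τ hτ => by
    have h1 := @H (s + τ) (by rw [Real.dist_eq, add_sub_cancel_left, abs_of_nonneg hτ.1]; linarith [hτ.2])
    have h2 := @H (s - τ) (by rw [Real.dist_eq, sub_sub_cancel_left, abs_neg, abs_of_nonneg hτ.1]; linarith [hτ.2])
    rw [add_sub_cancel_left, Real.norm_eq_abs, Real.norm_eq_abs, abs_of_nonneg hτ.1,
      smul_eq_mul] at h1
    rw [sub_sub_cancel_left, Real.norm_eq_abs, Real.norm_eq_abs, abs_neg, abs_of_nonneg hτ.1,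
      smul_eq_mul, neg_mul, sub_neg_eq_add] at h2
    exact ⟨h1, h2⟩
  have u1 := Ed_le_of (L := d + ε / 2) hδ.1 hi' fun τ hτ => by
    linarith only [key, hτ, (abs_le.1 (key τ hτ).1).2, (abs_le.1 (key τ hτ).2).1]
  have u2 := Ed_ge_of (L := d - ε / 2) hδ.1 hi' fun τ hτ => by
    linarith only [key, hτ, (abs_le.1 (key τ hτ).1).1, (abs_le.1 (key τ hτ).2).2]
  rw [Real.dist_eq, abs_lt]
  constructor <;> linarith only [hε, u2, u1]

lemma Ed_ge {φ : ℝ → ℝ} {δ s : ℝ} (hδ : 0 < δ) (h : MonotoneOn φ (Icc (s - δ) (s + δ))) :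
    (φ (s + δ / 2) - φ (s - δ / 2)) / (2 * δ) ≤ Ed δ φ s := by
  have hi : IntervalIntegrable φ volume (s - δ) (s + δ) := by
    refine MonotoneOn.intervalIntegrable ?_
    rwa [uIcc_of_le (by linarith)]
  have hf := Ed_ii hδ hi
  have m0 : (0 : ℝ) ∈ Icc 0 δ := ⟨le_rfl, hδ.le⟩
  have m1 : δ / 2 ∈ Icc 0 δ := ⟨by linarith, by linarith⟩
  have m2 : δ ∈ Icc 0 δ := ⟨hδ.le, le_rfl⟩
  have h1 : 0 ≤ ∫ τ in (0 : ℝ)..(δ / 2), (φ (s + τ) - φ (s - τ)) :=
    intervalIntegral.integral_nonneg m1.1 fun τ hτ => sub_nonneg.2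
      (h ⟨by linarith [hτ.2], by linarith [hτ.1]⟩ ⟨by linarith [hτ.1], by linarith [hτ.2]⟩
        (by linarith [hτ.1]))
  have h2 := intervalIntegral.integral_mono_on (f := fun _ => φ (s + δ / 2) - φ (s - δ / 2)) m1.2
    intervalIntegrable_const (Ed_sub_ii hf m1 m2) fun τ hτ => sub_le_sub
      (h ⟨by linarith, by linarith⟩ ⟨by linarith [hτ.1], by linarith [hτ.2]⟩ (by linarith [hτ.1]))
      (h ⟨by linarith [hτ.2], by linarith [hτ.1]⟩ ⟨by linarith, by linarith⟩ (by linarith only [hτ, hτ.1]))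
  rw [intervalIntegral.integral_const, smul_eq_mul] at h2
  rw [Ed, ← intervalIntegral.integral_add_adjacent_intervals (Ed_sub_ii hf m0 m1)
    (Ed_sub_ii hf m1 m2), le_div_iff₀ (pow_pos hδ 2),
    show (φ (s + δ / 2) - φ (s - δ / 2)) / (2 * δ) * δ ^ 2 =
      (δ - δ / 2) * (φ (s + δ / 2) - φ (s - δ / 2)) by field_simp; ring]
  linarith only [h1, h2]

end Pool.Agent.Work.MP_af796d_an.H
end

-- merged part: Pool.Agent.Work.MP_af796d_an.H.Dbl
section
/-!
# Doubling, lower bound for c at good scales, property Beta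
PLAN.  L = log S is monotone on (0, ∞).
* Ed_lg_mem: for s in [r/2, r], δ = r/8: lg is monotone on the window (lg_mono) so Ed ≥ 0 (Ed_ge), and ch ≥ 3r/16 there, so lg_lip and Ed_lip give 16/(3r) ≤ 6/r.
* LocN.dbl: Ed (r/8) L s ≤ 7 K / r by LocN.pt, so L (s + r/16) - L (s - r/16) ≤ 7K/4 (Ed_ge).  Use s = 9r/16, 11r/16, 13r/16, 15r/16 and add: L r - L (r/2) ≤ 7 K.
* db_of_locN: the first half from side + at y, the second from side - at y + r.
* c_lower: s = 13 r/16; S (7r/8) ≥ (1 + 1/D^3) S (3r/4) because S (7r/8) - S (3r/4) ≥ S r/D^3; so Ed (r/8) L s ≥ 4 log (1 + 1/D^3)/r.  With ε = 2 log (1 + 1/D^3):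
  c r * Ed lg ≥ ε/r, and 0 ≤ Ed lg ≤ 6/r, hence c r ≥ ε/6.
* LocN.wk': s L' - c = (s/r) * r (L' - c lg1 s) + c (s lg1 s - 1), abs_mul_lg1, min_one_add_sq, min 1 (x^2) ≤ |x|.
* beta_of_locN: D, c0, ε as above (DB three times: right half, right half, left half of [y, y + r]).  ε' = min ε (min 1 (c0^2/4)/4).  N2 k = 2 N (rr k) + K rr k has partial sums ≤ 4 K.
  Take a natural number m with m ε' > 4 K.  Given ρ ≤ 1 take k1 with rr k1 ≤ ρ ≤ 2 rr k1 (exists_rr); some k in [k1, k1 + m) has N2 k ≤ ε'.  With r = rr k, Chebyshev: the set of s in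
  Ioc (r/2) r with |s L' s - c r| > c0/2 has measure ≤ r N2 k / min 1 (c0^2/4) ≤ r/4.  On the rest s L' s ≥ c0/2 > 0, so L is differentiable at s (deriv ≠ 0), S = exp L near s,
  deriv Φ (y + s) = L' s * S s ≥ (c0/2) S (r/2)/r ≥ (c0/2) D^(-(m+1)) S ρ/ρ (iterate S ρ ≤ D^j S (ρ/2^j); r/2 ≥ ρ/2^(m+1), r ≤ ρ).
  η = min 1 (c0/(2 D^(m+1))), γ = 1/2^(m+2); translate the set by y (measure_preimage_add).
-/

set_option autoImplicit false

namespace Pool.Agent.Work.MP_af796d_an.H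

open MeasureTheory Set Real Metric Filter Topology

lemma Ed_lg_mem {r s : ℝ} (hr : 0 < r) (hr1 : r ≤ 1) (hs : s ∈ Icc (r / 2) r) :
    0 ≤ Ed (r / 8) lg s ∧ Ed (r / 8) lg s ≤ 6 / r := by
  have h3 := pi_gt_three
  obtain ⟨h1, h2⟩ := hs
  have hδ : 0 < r / 8 := by linarith only [hr]
  constructor
  · refine le_trans ?_ (Ed_ge hδ fun a ha b hb hab =>
      lg_mono (by linarith only [hr, h1, ha, ha.1]) hab (by linarith only [hr1, h3, h2, hb, hb.2]))
    exact div_nonneg (sub_nonneg.2 (lg_mono (by linarith only [hr, h1]) (by linarith only [hr]) (by linarith only [hr1, h3, h2])))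
      (by linarith only [hr])
  · refine (le_abs_self _).trans (Ed_lip hδ fun x hx x' hx' => ?_)
    have := lg_lip (a := x') (b := x) (η := r / 6) (by linarith only [hr]) fun t ht => by
      have ht' := uIcc_subset_Icc hx' hx ht
      have h0 : 0 < t := by linarith only [hr, h1, ht', ht'.1]
      have := le_ch' (t := t) (by rw [abs_of_pos h0]; linarith only [hr1, h3, h2, ht', ht'.2])
      rw [abs_of_pos h0] at this
      linarith only [h1, h0, this, ht', ht'.1]
    refine this.trans (le_of_eq ?_)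
    field_simp

lemma Dbl_pos {S c N : ℝ → ℝ} {K : ℝ} (h : LocN S c N K) {t : ℝ} (ht : 0 < t) : 0 < S t := by
  have := h.mono ht
  rwa [h.zero] at this

lemma Dbl_ge {S c N : ℝ → ℝ} {K : ℝ} (h : LocN S c N K) {r a b : ℝ} (hr : 0 < r)
    (hab : b = a + r / 8) (ha : r / 2 ≤ a) :
    (Real.log (S b) - Real.log (S a)) / (r / 4) ≤
      Ed (r / 8) (fun t => Real.log (S t)) (a + r / 16) := by
  have hδ : 0 < r / 8 := by linarith only [hr]
  have := Ed_ge (φ := fun t => Real.log (S t)) (s := a + r / 16) hδ fun x hx y _ hxy =>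
    Real.log_le_log (Dbl_pos h (by linarith only [hr, ha, hx, hx.1])) (h.mono.monotone hxy)
  rwa [show a + r / 16 + r / 8 / 2 = b by rw [hab]; ring,
    show a + r / 16 - r / 8 / 2 = a by ring, show 2 * (r / 8) = r / 4 by ring] at this

lemma Dbl_step {S c N : ℝ → ℝ} {K : ℝ} (h : LocN S c N K) {r a b : ℝ} (hr : 0 < r) (hr1 : r ≤ 1)
    (hab : b = a + r / 8) (ha : r / 2 ≤ a) (hb : b ≤ r) :
    Real.log (S b) - Real.log (S a) ≤ 7 * K / 4 := by
  have hs : a + r / 16 ∈ Icc (r / 2) r := ⟨by linarith only [hr, ha], by linarith only [hr, hab, hb]⟩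
  have h1 := Dbl_ge h hr hab ha
  have h2 := (abs_le.1 (h.pt r hr hr1 _ hs)).2
  obtain ⟨h3, h4⟩ := Ed_lg_mem hr hr1 hs
  obtain ⟨h5, h6, h7⟩ := h.bd r hr hr1
  have h8 : c r * Ed (r / 8) lg (a + r / 16) ≤ K * (6 / r) :=
    mul_le_mul ((le_abs_self _).trans h7) h4 h3 (h5.trans h6)
  have h9 : N r / r ≤ K / r := div_le_div_of_nonneg_right h6 hr.le
  have h10 : (Real.log (S b) - Real.log (S a)) / (r / 4) ≤ K / r + K * (6 / r) := by linarith only [h1, h2, h8, h9]
  rw [div_le_iff₀ (by linarith only [hr])] at h10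
  refine h10.trans (le_of_eq ?_)
  field_simp
  ring

lemma LocN.dbl {S c N : ℝ → ℝ} {K : ℝ} (h : LocN S c N K) {r : ℝ} (hr : 0 < r) (hr1 : r ≤ 1) :
    S r ≤ Real.exp (7 * K) * S (r / 2) := by
  have h1 := Dbl_step h (a := r / 2) (b := 5 * r / 8) hr hr1 (by ring) le_rfl (by linarith)
  have h2 := Dbl_step h (a := 5 * r / 8) (b := 6 * r / 8) hr hr1 (by ring) (by linarith)
    (by linarith)
  have h3 := Dbl_step h (a := 6 * r / 8) (b := 7 * r / 8) hr hr1 (by ring) (by linarith only [hr])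
    (by linarith only [hr])
  have h4 := Dbl_step h (a := 7 * r / 8) (b := r) hr hr1 (by ring) (by linarith only [hr]) le_rfl
  have h5 : 0 < S (r / 2) := Dbl_pos h (by linarith only [hr])
  rw [← Real.exp_log h5, ← Real.exp_add, ← Real.log_le_iff_le_exp (Dbl_pos h hr)]
  linarith only [h1, h2, h3, h4]

theorem db_of_locN {Φ : ℝ → ℝ} {K : ℝ} (h : ∀ y, ∃ c N₁ N₂ : ℝ → ℝ,
    LocN (fun r => Φ (y + r) - Φ y) c N₁ K ∧ LocN (fun r => Φ y - Φ (y - r)) c N₂ K) :
    DB Φ (Real.exp (7 * K)) := by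
  intro y r hr hr1
  obtain ⟨c, N₁, N₂, h1, -⟩ := h y
  obtain ⟨c', N₁', N₂', -, h2⟩ := h (y + r)
  refine ⟨h1.dbl hr hr1, ?_⟩
  have := h2.dbl hr hr1
  rwa [show y + r - r = y by ring, show y + r - r / 2 = y + r / 2 by ring] at this

theorem c_lower {D : ℝ} (hD : 1 ≤ D) : ∃ c₀ ε : ℝ, 0 < c₀ ∧ 0 < ε ∧
    ∀ (Φ : ℝ → ℝ) (y : ℝ) (c N : ℝ → ℝ) (K : ℝ), DB Φ D → LocN (fun r => Φ (y + r) - Φ y) c N K →
      ∀ r, 0 < r → r ≤ 1 → N r ≤ ε → c₀ ≤ c r := by
  have hD0 : 0 < D := by linarith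
  have hl : 0 < Real.log (1 + 1 / D ^ 3) := Real.log_pos (by
    have : 0 < 1 / D ^ 3 := by positivity
    linarith)
  refine ⟨Real.log (1 + 1 / D ^ 3) / 3, 2 * Real.log (1 + 1 / D ^ 3), by linarith, by linarith, ?_⟩
  intro Φ y c N K hdb h r hr hr1 hN
  have d1 := (hdb y r hr hr1).2
  have d2 := (hdb (y + r / 2) (r / 2) (by linarith only [hr]) (by linarith only [hr1])).2
  have d3 := (hdb (y + 3 * r / 4) (r / 4) (by linarith only [hr]) (by linarith only [hr1])).1
  rw [show y + r / 2 + r / 2 = y + r by ring,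
    show y + r / 2 + r / 2 / 2 = y + 3 * r / 4 by ring] at d2
  rw [show y + 3 * r / 4 + r / 4 = y + r by ring,
    show y + 3 * r / 4 + r / 4 / 2 = y + 7 * r / 8 by ring] at d3
  have p1 : 0 < Φ (y + 3 * r / 4) - Φ y := Dbl_pos h (t := 3 * r / 4) (by linarith only [hr])
  have p2 : Φ (y + 3 * r / 4) - Φ y ≤ Φ (y + r) - Φ y :=
    h.mono.monotone (show 3 * r / 4 ≤ r by linarith only [hr])
  have d4 : Φ (y + 3 * r / 4) - Φ y ≤ D ^ 3 * (Φ (y + 7 * r / 8) - Φ (y + 3 * r / 4)) :=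
    calc _ ≤ _ := p2
      _ ≤ _ := d1
      _ ≤ D * (D * (D * (Φ (y + 7 * r / 8) - Φ (y + 3 * r / 4)))) :=
        mul_le_mul_of_nonneg_left (d2.trans (mul_le_mul_of_nonneg_left d3 hD0.le)) hD0.le
      _ = _ := by ring
  have d5 : (1 + 1 / D ^ 3) * (Φ (y + 3 * r / 4) - Φ y) ≤ Φ (y + 7 * r / 8) - Φ y := by
    have : (Φ (y + 3 * r / 4) - Φ y) / D ^ 3 ≤ Φ (y + 7 * r / 8) - Φ (y + 3 * r / 4) := by
      rw [div_le_iff₀ (by positivity)]; exact d4.trans_eq (mul_comm _ _)
    rw [add_mul, one_mul, one_div_mul_eq_div]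
    linarith only [this]
  have d6 := Real.log_le_log (by positivity) d5
  rw [Real.log_mul (by positivity) p1.ne'] at d6
  have hs : 3 * r / 4 + r / 16 ∈ Icc (r / 2) r := ⟨by linarith only [hr], by linarith only [hr]⟩
  have h1 := Dbl_ge h (a := 3 * r / 4) (b := 7 * r / 8) hr (by ring) (by linarith only [hr])
  have h2 := (abs_le.1 (h.pt r hr hr1 _ hs)).2
  obtain ⟨h3, h4⟩ := Ed_lg_mem hr hr1 hs
  generalize Real.log (1 + 1 / D ^ 3) = l at hl hN d6 ⊢
  generalize Ed (r / 8) lg (3 * r / 4 + r / 16) = E at h2 h3 h4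
  have h5 : l / (r / 4) ≤ (Real.log (Φ (y + 7 * r / 8) - Φ y) -
      Real.log (Φ (y + 3 * r / 4) - Φ y)) / (r / 4) :=
    div_le_div_of_nonneg_right (by linarith only [d6]) (by linarith only [hr])
  have h6 : N r / r ≤ 2 * l / r := div_le_div_of_nonneg_right hN hr.le
  have h7 : l / (r / 4) = 2 * (2 * l / r) := by field_simp; ring
  have h8 : 2 * l / r ≤ c r * E := by linarith only [h1, h2, h5, h6, h7]
  by_contra hc
  push Not at hc
  have h9 : c r * E ≤ l / 3 * E := mul_le_mul_of_nonneg_right hc.le h3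
  rcases h3.eq_or_lt with h0 | h0
  · rw [← h0, mul_zero] at h8
    have : 0 < 2 * l / r := by positivity
    linarith only [h8, this]
  · have h10 : c r * E < l / 3 * E := mul_lt_mul_of_pos_right hc h0
    have h11 : l / 3 * E ≤ l / 3 * (6 / r) := mul_le_mul_of_nonneg_left h4 (by linarith only [hl])
    have h12 : l / 3 * (6 / r) = 2 * l / r := by field_simp; ring
    linarith only [h1, h2, h5, h6, h7, h10, h11, h12]

lemma Dbl_ii {f : ℝ → ℝ} (hf : Measurable f) (a b : ℝ) :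
    IntervalIntegrable (fun s => min 1 (f s ^ 2)) volume a b := by
  refine (intervalIntegrable_const (c := (1 : ℝ))).mono_fun'
    (measurable_const.min (hf.pow_const 2)).aestronglyMeasurable (Eventually.of_forall fun s => ?_)
  show ‖min 1 (f s ^ 2)‖ ≤ 1
  rw [Real.norm_eq_abs, abs_of_nonneg (le_min zero_le_one (sq_nonneg _))]
  exact min_le_left _ _

lemma Dbl_min_le (b : ℝ) : min 1 (b ^ 2) ≤ |b| := by
  rcases le_total 1 |b| with h | h
  · exact (min_le_left _ _).trans h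
  · refine (min_le_right _ _).trans ?_
    rw [← sq_abs, sq]
    exact mul_le_of_le_one_left (abs_nonneg _) h

lemma LocN.wk' {S c N : ℝ → ℝ} {K : ℝ} (h : LocN S c N K) {r : ℝ} (hr : 0 < r) (hr1 : r ≤ 1) :
    ∫ s in (r / 2)..r, min 1 ((s * deriv (fun t => Real.log (S t)) s - c r) ^ 2) ≤
      r * (2 * N r + K * r) := by
  have hm : Measurable (deriv fun t => Real.log (S t)) := measurable_deriv _
  have h1 := h.wk r hr hr1
  obtain ⟨-, -, h7⟩ := h.bd r hr hr1
  generalize (deriv fun t => Real.log (S t)) = d at hm h1 ⊢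
  have i1 := Dbl_ii (f := fun s => s * d s - c r) ((measurable_id.mul hm).sub_const _) (r / 2) r
  have i2 := Dbl_ii (f := fun s => r * (d s - c r * lg1 s))
    ((hm.sub (measurable_lg1.const_mul _)).const_mul _) (r / 2) r
  have h2 := intervalIntegral.integral_mono_on (by linarith only [hr] : r / 2 ≤ r) i1
    ((i2.const_mul 2).add (intervalIntegrable_const (c := 2 * (K * r)))) fun s hs => by
      have hs0 : 0 < s := by linarith [hs.1]
      have e1 : s * d s - c r = s * (d s - c r * lg1 s) + c r * (s * lg1 s - 1) := by ring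
      have e2 := min_one_add_sq (s * (d s - c r * lg1 s)) (c r * (s * lg1 s - 1))
      have e3 : min 1 ((s * (d s - c r * lg1 s)) ^ 2) ≤
          min 1 ((r * (d s - c r * lg1 s)) ^ 2) := by
        refine min_le_min le_rfl ?_
        rw [mul_pow, mul_pow]
        exact mul_le_mul_of_nonneg_right (pow_le_pow_left₀ hs0.le hs.2 2) (sq_nonneg _)
      have e4 := Dbl_min_le (c r * (s * lg1 s - 1))
      have e5 := abs_mul_lg1 hs0.ne' (by rw [abs_of_pos hs0]; linarith [hs.2])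
      rw [abs_of_pos hs0] at e5
      have e6 : |c r * (s * lg1 s - 1)| ≤ K * r := by
        rw [abs_mul]
        exact mul_le_mul h7 (e5.trans hs.2) (abs_nonneg _) ((abs_nonneg _).trans h7)
      rw [e1]
      linarith only [e2, e3, e4, e6]
  rw [intervalIntegral.integral_add (i2.const_mul 2) intervalIntegrable_const,
    intervalIntegral.integral_const_mul, intervalIntegral.integral_const, smul_eq_mul] at h2
  refine h2.trans ?_
  have : (r - r / 2) * (2 * (K * r)) = r * (K * r) := by ring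
  rw [this, mul_add]
  linarith only [h1]

lemma Dbl_good {S c N : ℝ → ℝ} {K : ℝ} (h : LocN S c N K) {r c₀ : ℝ} (hr : 0 < r) (hr1 : r ≤ 1)
    (hc0 : 0 < c₀) (hc : c₀ ≤ c r) (hN : 2 * N r + K * r ≤ min 1 (c₀ ^ 2 / 4) / 4) :
    r / 4 ≤ volume.real {s | s ∈ Ioc (r / 2) r ∧ c₀ / 2 * S s ≤ s * deriv S s} := by
  have hm : Measurable (deriv fun t => Real.log (S t)) := measurable_deriv _
  have hf : Measurable fun s => s * deriv (fun t => Real.log (S t)) s - c r :=
    (measurable_id.mul hm).sub_const _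
  have h1 := h.wk' hr hr1
  have hθ : 0 < min 1 (c₀ ^ 2 / 4) := lt_min one_pos (by positivity)
  have hle : r / 2 ≤ r := by linarith only [hr]
  have i1 := (Dbl_ii hf (r / 2) r).1
  rw [intervalIntegral.integral_of_le hle] at h1
  have h2 := mul_meas_ge_le_integral_of_nonneg
    (Eventually.of_forall fun s => le_min zero_le_one (sq_nonneg _)) i1 (min 1 (c₀ ^ 2 / 4))
  set B := {s | min 1 (c₀ ^ 2 / 4) ≤
    min 1 ((s * deriv (fun t => Real.log (S t)) s - c r) ^ 2)} with hB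
  have hBm : MeasurableSet B :=
    measurableSet_le measurable_const (measurable_const.min (hf.pow_const 2))
  have h3 : (volume.restrict (Ioc (r / 2) r)).real B ≤ r / 4 := by
    refine le_of_mul_le_mul_left ((h2.trans h1).trans ?_) hθ
    calc r * (2 * N r + K * r) ≤ r * (min 1 (c₀ ^ 2 / 4) / 4) :=
          mul_le_mul_of_nonneg_left hN hr.le
      _ = _ := by ring
  have h4 := measureReal_add_measureReal_compl (μ := volume.restrict (Ioc (r / 2) r)) hBm
  rw [measureReal_restrict_apply_univ, Real.volume_real_Ioc_of_le hle,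
    measureReal_restrict_apply hBm.compl] at h4
  refine le_trans (by linarith only [h3, h4]) (measureReal_mono (s₁ := Bᶜ ∩ Ioc (r / 2) r) ?_ ?_)
  · rintro s ⟨hs1, hs2⟩
    refine ⟨hs2, ?_⟩
    have hs0 : 0 < s := by linarith only [hr, hs2, hs2.1]
    have e1 : (s * deriv (fun t => Real.log (S t)) s - c r) ^ 2 < (c₀ / 2) ^ 2 := by
      by_contra hcon
      push Not at hcon
      rw [show (c₀ / 2) ^ 2 = c₀ ^ 2 / 4 by ring] at hcon
      exact hs1 (min_le_min le_rfl hcon)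
    have e2 := (abs_lt.1 (abs_lt_of_sq_lt_sq e1 (by linarith only [hc0]))).1
    have e3 : c₀ / 2 ≤ s * deriv (fun t => Real.log (S t)) s := by linarith only [hc, e2]
    have e4 : deriv (fun t => Real.log (S t)) s ≠ 0 := by
      intro h0
      rw [h0, mul_zero] at e3
      linarith only [hc0, e3]
    have e5 := (differentiableAt_of_deriv_ne_zero e4).hasDerivAt.exp
    have e6 : S =ᶠ[𝓝 s] fun t => Real.exp (Real.log (S t)) :=
      (lt_mem_nhds hs0).mono fun t ht => (Real.exp_log (Dbl_pos h ht)).symm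
    have e7 := (e5.congr_of_eventuallyEq e6).deriv
    rw [Real.exp_log (Dbl_pos h hs0)] at e7
    rw [e7]
    calc c₀ / 2 * S s ≤ s * deriv (fun t => Real.log (S t)) s * S s :=
          mul_le_mul_of_nonneg_right e3 (Dbl_pos h hs0).le
      _ = _ := by ring
  · exact ((measure_mono fun s hs => hs.1).trans_lt measure_Ioc_lt_top).ne

lemma Dbl_sum_rr (n : ℕ) : ∑ k ∈ Finset.range n, rr k ≤ 2 := by
  have : ∀ n, ∑ k ∈ Finset.range n, rr k = 2 - 2 * rr n := by
    intro n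
    induction n with
    | zero => simp [rr_zero]
    | succ n ih => rw [Finset.sum_range_succ, ih, rr_succ]; ring
  rw [this]
  linarith [rr_pos n]

lemma Dbl_scale {S c N : ℝ → ℝ} {K ε : ℝ} (h : LocN S c N K) {m : ℕ} (hm : 4 * K < m * ε)
    (k : ℕ) : ∃ j, j < m ∧ 2 * N (rr (k + j)) + K * rr (k + j) ≤ ε := by
  by_contra hcon
  push Not at hcon
  have hK : 0 ≤ K := by
    obtain ⟨a, b, -⟩ := h.bd 1 one_pos le_rfl
    exact a.trans b
  have h1 : ∑ j ∈ Finset.range (k + m), (2 * N (rr j) + K * rr j) ≤ 4 * K := by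
    rw [Finset.sum_add_distrib, ← Finset.mul_sum, ← Finset.mul_sum]
    have a := h.sN (k + m)
    have b := mul_le_mul_of_nonneg_left (Dbl_sum_rr (k + m)) hK
    linarith
  rw [Finset.sum_range_add] at h1
  have h2 : 0 ≤ ∑ j ∈ Finset.range k, (2 * N (rr j) + K * rr j) :=
    Finset.sum_nonneg fun j _ => by
      have a := (h.bd _ (rr_pos j) (rr_le_one j)).1
      have b := rr_pos j
      positivity
  have h3 : ∑ _j ∈ Finset.range m, ε ≤
      ∑ j ∈ Finset.range m, (2 * N (rr (k + j)) + K * rr (k + j)) :=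
    Finset.sum_le_sum fun j hj => (hcon j (Finset.mem_range.1 hj)).le
  rw [Finset.sum_const, Finset.card_range, nsmul_eq_mul] at h3
  linarith

lemma Dbl_iter {S c N : ℝ → ℝ} {K : ℝ} (h : LocN S c N K) {ρ : ℝ} (hρ : 0 < ρ) (hρ1 : ρ ≤ 1)
    (i : ℕ) : S ρ ≤ Real.exp (7 * K) ^ i * S (ρ * rr i) := by
  induction i with
  | zero => simp [rr_zero]
  | succ i ih =>
    have h1 := h.dbl (mul_pos hρ (rr_pos i)) (mul_le_one₀ hρ1 (rr_pos i).le (rr_le_one i))
    rw [rr_succ, ← mul_div_assoc, pow_succ, mul_assoc]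
    exact ih.trans (mul_le_mul_of_nonneg_left h1 (by positivity))

lemma Dbl_rr_add (a b : ℕ) : rr (a + b) = rr a * rr b := by
  unfold rr; rw [pow_add]; field_simp

theorem beta_of_locN {Φ : ℝ → ℝ} {K : ℝ} (h : ∀ y, ∃ c N₁ N₂ : ℝ → ℝ,
    LocN (fun r => Φ (y + r) - Φ y) c N₁ K ∧ LocN (fun r => Φ y - Φ (y - r)) c N₂ K) :
    ∃ η γ : ℝ, 0 < η ∧ η ≤ 1 ∧ 0 < γ ∧ γ ≤ 1 ∧ Beta Φ η γ := by
  have hdb := db_of_locN h
  have hK : 0 ≤ K := by
    obtain ⟨c, N₁, N₂, h1, -⟩ := h 0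
    obtain ⟨a, b, -⟩ := h1.bd 1 one_pos le_rfl
    exact a.trans b
  have hD : 1 ≤ Real.exp (7 * K) := Real.one_le_exp (by linarith)
  obtain ⟨c₀, ε, hc0, hε, hcl⟩ := c_lower hD
  have hθ : 0 < min 1 (c₀ ^ 2 / 4) := lt_min one_pos (by positivity)
  have hε' : 0 < min ε (min 1 (c₀ ^ 2 / 4) / 4) := lt_min hε (by linarith)
  obtain ⟨m, hm⟩ := exists_nat_gt (4 * K / min ε (min 1 (c₀ ^ 2 / 4) / 4))
  rw [div_lt_iff₀ hε'] at hm
  have hDm : 0 < Real.exp (7 * K) ^ (m + 1) := by positivity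
  refine ⟨min 1 (c₀ / (2 * Real.exp (7 * K) ^ (m + 1))), rr (m + 2),
    lt_min one_pos (by positivity), min_le_left _ _, rr_pos _, rr_le_one _, ?_⟩
  intro y ρ hρ hρ1
  obtain ⟨c, N, N₂, h1, -⟩ := h y
  obtain ⟨k, hk1, hk2⟩ := exists_rr hρ hρ1
  obtain ⟨j, hj, hN⟩ := Dbl_scale h1 hm (k + 1)
  have hr := rr_pos (k + 1 + j)
  have hr1 := rr_le_one (k + 1 + j)
  have hrρ : rr (k + 1 + j) ≤ ρ := (rr_anti (Nat.le_add_right _ _)).trans hk1
  have hlow : ρ * rr (m + 1) ≤ rr (k + 1 + j) / 2 := by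
    rw [← rr_succ]
    calc ρ * rr (m + 1) ≤ rr k * rr (m + 1) := mul_le_mul_of_nonneg_right hk2 (rr_pos _).le
      _ = rr (k + (m + 1)) := (Dbl_rr_add _ _).symm
      _ ≤ _ := rr_anti (by omega)
  have hit := Dbl_iter h1 hρ hρ1 (m + 1)
  generalize rr (k + 1 + j) = r at hN hr hr1 hrρ hlow
  have hN0 := (h1.bd r hr hr1).1
  have hc : c₀ ≤ c r := hcl Φ y c N K hdb h1 r hr hr1 (by
    have := hN.trans (min_le_left _ _)
    have := mul_nonneg hK hr.le
    linarith)
  have hg := Dbl_good h1 hr hr1 hc0 hc (hN.trans (min_le_right _ _))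
  have hγ : rr (m + 2) * ρ ≤ r / 4 := by
    rw [rr_succ (m + 1)]
    linarith only [hlow]
  refine hγ.trans (hg.trans ?_)
  have hpre : ∀ T : Set ℝ, volume.real T = volume.real ((fun s => y + s) ⁻¹' T) := fun T => by
    rw [measureReal_def, measureReal_def, measure_preimage_add]
  rw [hpre {x | x ∈ Ioc y (y + ρ) ∧ min 1 (c₀ / (2 * Real.exp (7 * K) ^ (m + 1))) *
      ((Φ (y + ρ) - Φ y) / ρ) ≤ deriv Φ x}]
  refine measureReal_mono ?_ ?_
  · rintro s ⟨hs, hs'⟩
    have hs0 : 0 < s := by linarith only [hr, hs, hs.1]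
    refine ⟨⟨by linarith only [hs0], by linarith only [hrρ, hs, hs.2]⟩, ?_⟩
    rw [deriv_sub_const, deriv_comp_const_add] at hs'
    have p1 : 0 < Φ (y + ρ) - Φ y := Dbl_pos h1 hρ
    have p2 : 0 < Φ (y + s) - Φ y := Dbl_pos h1 hs0
    have p3 : Φ (y + ρ * rr (m + 1)) - Φ y ≤ Φ (y + s) - Φ y :=
      h1.mono.monotone (hlow.trans hs.1.le)
    have p4 : Φ (y + ρ) - Φ y ≤ Real.exp (7 * K) ^ (m + 1) * (Φ (y + s) - Φ y) :=
      hit.trans (mul_le_mul_of_nonneg_left p3 hDm.le)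
    have p5 : 0 ≤ deriv Φ (y + s) := by
      have : 0 ≤ s * deriv Φ (y + s) := le_trans (by positivity) hs'
      exact nonneg_of_mul_nonneg_right this hs0
    have p6 : c₀ / 2 * (Φ (y + s) - Φ y) ≤ ρ * deriv Φ (y + s) :=
      hs'.trans (mul_le_mul_of_nonneg_right (hs.2.trans hrρ) p5)
    calc _ ≤ c₀ / (2 * Real.exp (7 * K) ^ (m + 1)) *
          (Real.exp (7 * K) ^ (m + 1) * (Φ (y + s) - Φ y) / ρ) :=
          mul_le_mul (min_le_right _ _) (div_le_div_of_nonneg_right p4 hρ.le) (by positivity)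
            (by positivity)
      _ = c₀ / 2 * (Φ (y + s) - Φ y) / ρ := by field_simp
      _ ≤ _ := by rw [div_le_iff₀ hρ, mul_comm _ ρ]; exact p6
  · rw [measure_preimage_add]
    exact ((measure_mono fun s hs => hs.1).trans_lt measure_Ioc_lt_top).ne

end Pool.Agent.Work.MP_af796d_an.H
end

-- merged part: Pool.Agent.Work.MP_af796d_an.H.Beta1
section
/-!
# Absolute continuity and the logarithmic recursion
PLAN.  w = deriv Φ is measurable, ≥ 0 (Monotone.deriv_nonneg), interval integrable (MonotoneOn.intervalIntegrable_deriv).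
* ac_of_beta: for 0 < ρ ≤ 1, ∫_y^{y+ρ} w ≥ η m * γ ρ with m = (Φ (y+ρ) - Φ y)/ρ.  By additivity (induction on the number of unit steps)
  η γ (Φ c - Φ a) ≤ ∫_a^c w for all a ≤ c.  So |Φ c - Φ a| ≤ |P c - P a|/(η γ) with P x = ∫_{a0}^x w absolutely continuous
  (IntervalIntegrable.absolutelyContinuousOnInterval_intervalIntegral), hence Φ is AC (absolutelyContinuousOnInterval_iff), and integral_deriv_eq_sub.
* ps facts: for m > 0, T ≥ 0: ps T m w = T if w ≤ m e^(-T), and max 0 (log m - log w) otherwise.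
* rec_bound: fix T > 0.  Let Λ be the supremum of (∫_y^{y+ρ} ps T (m y ρ) (w x))/ρ over y and 0 < ρ ≤ 1 (bounded by T).  For I = Ioc y (y + ρ), m = m y ρ,
  E = {x | w x < η m}: |E ∩ I| ≤ (1 - γ) ρ by Beta.  Off E, ps ≤ - log η.  Apply cz with θ = 1 - γ/2, ψ x = ps T m (w x), K = Λ + c1, c1 = log (D/(γ η)) ≥ 0:
  if [p, q] ⊆ I has density ≤ θ then Φ q - Φ p = ∫ w ≥ (γ/2)(q - p) η m, each half J has increment ≥ (Φ q - Φ p)/D (DB), so its mean slope m' ≥ γ η m / D and
  ps T m ≤ ps T m' + c1 (ps_le_add), ∫_J ψ ≤ (Λ + c1) |J|.  Hence Λ ≤ - log η + q (Λ + c1), q = (1 - γ)/(1 - γ/2) < 1, and L = (- log η + c1)/(1 - q) works for all T.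
-/

set_option autoImplicit false

namespace Pool.Agent.Work.MP_af796d_an.H

open MeasureTheory Set Real Metric Filter Topology

/-- lower bound for an integral from the set where the function is large. -/
lemma Beta1_low {w : ℝ → ℝ} (hw : Measurable w) (h0 : ∀ x, 0 ≤ w x) {p q : ℝ} (hpq : p ≤ q)
    (hi : IntervalIntegrable w volume p q) (κ : ℝ) :
    κ * volume.real (Ioc p q \ {x | w x < κ}) ≤ ∫ x in p..q, w x := by
  rw [intervalIntegral.integral_of_le hpq]
  refine le_trans ?_ (setIntegral_mono_set (s := Ioc p q \ {x | w x < κ}) hi.1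
    (Eventually.of_forall h0) sdiff_subset.eventuallyLE)
  exact setIntegral_ge_of_const_le_real
    (measurableSet_Ioc.diff (measurableSet_lt hw measurable_const))
    ((measure_mono sdiff_subset).trans_lt measure_Ioc_lt_top).ne (fun x hx => not_lt.1 hx.2)
    (hi.1.mono_set sdiff_subset)

lemma Beta1_split {E : Set ℝ} (hE : MeasurableSet E) {p q : ℝ} (hpq : p ≤ q) :
    volume.real (E ∩ Ioc p q) + volume.real (Ioc p q \ E) = q - p := by
  rw [inter_comm, measureReal_inter_add_sdiff hE measure_Ioc_lt_top.ne,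
    Real.volume_real_Ioc_of_le hpq]

lemma Beta1_set {Φ : ℝ → ℝ} {η γ : ℝ} (h : Beta Φ η γ) {y ρ : ℝ} (h0 : 0 < ρ) (h1 : ρ ≤ 1) :
    γ * ρ ≤ volume.real (Ioc y (y + ρ) \ {x | deriv Φ x < η * ((Φ (y + ρ) - Φ y) / ρ)}) := by
  refine (h y ρ h0 h1).trans_eq ?_
  congr 1
  ext x
  simp only [Set.mem_sdiff, mem_ofPred_eq, not_lt]

theorem ac_of_beta {Φ : ℝ → ℝ} {η γ : ℝ} (hΦ : Good Φ) (hη : 0 < η) (hγ : 0 < γ)
    (h : Beta Φ η γ) : (∀ a c, IntervalIntegrable (deriv Φ) volume a c) ∧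
      ∀ a c, Φ c - Φ a = ∫ t in a..c, deriv Φ t := by
  have hm := hΦ.mono.monotone
  have hi : ∀ a c, IntervalIntegrable (deriv Φ) volume a c := fun a c =>
    (hm.monotoneOn _).intervalIntegrable_deriv
  refine ⟨hi, fun a c => ?_⟩
  have step : ∀ y z, y < z → z ≤ y + 1 → η * γ * (Φ z - Φ y) ≤ ∫ x in y..z, deriv Φ x := by
    intro y z h0 h1
    obtain ⟨ρ, rfl⟩ : ∃ ρ, z = y + ρ := ⟨z - y, by ring⟩
    have r0 : 0 < ρ := by linarith
    have a1 := Beta1_set h (y := y) r0 (by linarith)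
    have a2 : 0 ≤ Φ (y + ρ) - Φ y := sub_nonneg.2 (hm h0.le)
    refine le_trans ?_ (Beta1_low (measurable_deriv Φ) (fun x => hm.deriv_nonneg) h0.le (hi _ _)
      (η * ((Φ (y + ρ) - Φ y) / ρ)))
    refine le_trans (le_of_eq ?_) (mul_le_mul_of_nonneg_left a1 (by positivity))
    field_simp
  have all : ∀ n : ℕ, ∀ y z : ℝ, y ≤ z → z ≤ y + n →
      η * γ * (Φ z - Φ y) ≤ ∫ x in y..z, deriv Φ x := by
    intro n
    induction n with
    | zero =>
      intro y z h0 h1
      obtain rfl : z = y := le_antisymm (by simpa using h1) h0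
      simp
    | succ n ih =>
      intro y z h0 h1
      rcases le_or_gt z (y + n) with h2 | h2
      · exact ih y z h0 h2
      · have a1 := ih y (y + n) (le_add_of_nonneg_right (Nat.cast_nonneg n)) le_rfl
        have a2 := step (y + n) z h2 (by push_cast at h1; linarith)
        rw [← intervalIntegral.integral_add_adjacent_intervals (hi y (y + n)) (hi (y + n) z)]
        linarith
  have k0 : 0 < η * γ := mul_pos hη hγ
  let P : ℝ → ℝ := fun x => (η * γ)⁻¹ * ∫ t in a..x, deriv Φ t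
  have hP : AbsolutelyContinuousOnInterval P a c :=
    ((hi a c).absolutelyContinuousOnInterval_intervalIntegral left_mem_uIcc).const_mul _
  have one : ∀ u v, u ≤ v → dist (Φ v) (Φ u) ≤ dist (P v) (P u) := by
    intro u v huv
    obtain ⟨n, hn⟩ := exists_nat_ge (v - u)
    have a1 := all n u v huv (by linarith)
    rw [Real.dist_eq, Real.dist_eq, abs_of_nonneg (sub_nonneg.2 (hm huv))]
    refine le_trans ?_ (le_abs_self _)
    simp only [P]
    rw [← mul_sub, intervalIntegral.integral_interval_sub_left (hi _ _) (hi _ _),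
      le_inv_mul_iff₀ k0]
    exact a1
  have two : ∀ u v, dist (Φ u) (Φ v) ≤ dist (P u) (P v) := fun u v => by
    rcases le_total u v with huv | huv
    · rw [dist_comm, dist_comm (P u)]; exact one u v huv
    · exact one v u huv
  have hA : AbsolutelyContinuousOnInterval Φ a c :=
    squeeze_zero (fun E => Finset.sum_nonneg fun i _ => dist_nonneg)
      (fun E => Finset.sum_le_sum fun i _ => two _ _) hP
  exact hA.integral_deriv_eq_sub.symm

lemma ps_mem {T m : ℝ} (hT : 0 ≤ T) (hm : 0 < m) (w : ℝ) : 0 ≤ ps T m w ∧ ps T m w ≤ T := by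
  refine ⟨le_max_left _ _, max_le hT ?_⟩
  have a1 := Real.log_le_log (by positivity) (le_max_right w (m * Real.exp (-T)))
  rw [Real.log_mul hm.ne' (Real.exp_pos _).ne', Real.log_exp] at a1
  linarith

lemma Beta1_ps {T m w κ : ℝ} (hκ : 0 < κ) (h : κ ≤ w) :
    ps T m w ≤ max 0 (Real.log m - Real.log κ) :=
  max_le_max le_rfl (sub_le_sub_left (Real.log_le_log hκ (h.trans (le_max_left _ _))) _)

lemma ps_le_add {T m m' : ℝ} (hT : 0 ≤ T) (hm : 0 < m) (hm' : 0 < m') (w : ℝ) :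
    ps T m w ≤ ps T m' w + max 0 (Real.log m - Real.log m') := by
  have d0 := le_max_left 0 (Real.log m - Real.log m')
  have d1 := le_max_right 0 (Real.log m - Real.log m')
  rcases le_total w (m' * Real.exp (-T)) with h | h
  · have e : ps T m' w = T := by
      rw [ps, max_eq_right h, Real.log_mul hm'.ne' (Real.exp_pos _).ne', Real.log_exp,
        max_eq_right (by linarith)]
      ring
    linarith [(ps_mem hT hm w).2]
  · have w0 : 0 < w := lt_of_lt_of_le (by positivity) h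
    have e : Real.log m' - Real.log w ≤ ps T m' w := by
      rw [ps, max_eq_left h]
      exact le_max_right _ _
    refine (Beta1_ps w0 le_rfl).trans (max_le ?_ ?_)
    · linarith [(ps_mem hT hm' w).1]
    · linarith

lemma measurable_ps (T m : ℝ) : Measurable (ps T m) := by
  exact measurable_const.max (measurable_const.sub
    (Real.measurable_log.comp (measurable_id.max measurable_const)))

theorem rec_bound {Φ : ℝ → ℝ} {D η γ : ℝ} (hΦ : Good Φ) (hD : 1 ≤ D) (hη : 0 < η) (hη1 : η ≤ 1)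
    (hγ : 0 < γ) (hγ1 : γ ≤ 1) (hDB : DB Φ D) (h : Beta Φ η γ) :
    ∃ L : ℝ, 0 ≤ L ∧ ∀ T, 0 < T → ∀ y ρ, 0 < ρ → ρ ≤ 1 →
      ∫ x in y..(y + ρ), ps T ((Φ (y + ρ) - Φ y) / ρ) (deriv Φ x) ≤ L * ρ := by
  obtain ⟨hi, hint⟩ := ac_of_beta hΦ hη hγ h
  have hm := hΦ.mono.monotone
  have hw := measurable_deriv Φ
  obtain ⟨c, hc⟩ : ∃ c, c = Real.log (D / (γ * η)) := ⟨_, rfl⟩
  have k0 : 0 < γ * η := mul_pos hγ hη
  have c0 : 0 ≤ c := hc ▸ Real.log_nonneg ((one_le_div k0).2
    ((mul_le_one₀ hγ1 hη.le hη1).trans hD))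
  have e0 : 0 ≤ -Real.log η := neg_nonneg.2 (Real.log_nonpos hη.le hη1)
  obtain ⟨θ, hθ⟩ : ∃ θ, θ = 1 - γ / 2 := ⟨_, rfl⟩
  have θ0 : 0 < θ := by linarith only [hγ1, hθ]
  have θ1 : θ < 1 := by linarith
  obtain ⟨q, hq⟩ : ∃ q, q = (1 - γ) / θ := ⟨_, rfl⟩
  have q1 : q < 1 := hq ▸ (div_lt_one θ0).2 (by linarith)
  refine ⟨(-Real.log η + c) / (1 - q), div_nonneg (by linarith) (by linarith), fun T hT => ?_⟩
  have mp : ∀ y ρ, 0 < ρ → 0 < (Φ (y + ρ) - Φ y) / ρ := fun y ρ h0 =>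
    div_pos (sub_pos.2 (hΦ.mono (by linarith))) h0
  have ii : ∀ m, 0 < m → ∀ a b, IntervalIntegrable (fun x => ps T m (deriv Φ x)) volume a b :=
    fun m hm0 => bdd_intervalIntegrable (B := T) ((measurable_ps T m).comp hw) fun x =>
      abs_le.2 ⟨by linarith only [hT, hm0, (ps_mem hT.le hm0 (deriv Φ x)).1], (ps_mem hT.le hm0 _).2⟩
  let S : Set ℝ := {v | ∃ y ρ, 0 < ρ ∧ ρ ≤ 1 ∧
    v = (∫ x in y..(y + ρ), ps T ((Φ (y + ρ) - Φ y) / ρ) (deriv Φ x)) / ρ}
  have hS : BddAbove S := by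
    refine ⟨T, ?_⟩
    rintro v ⟨y, ρ, h0, -, rfl⟩
    rw [div_le_iff₀ h0]
    refine (intervalIntegral.integral_mono_on (by linarith) (ii _ (mp y ρ h0) _ _)
      (intervalIntegrable_const (c := T)) fun x _ => (ps_mem hT.le (mp y ρ h0) _).2).trans_eq ?_
    rw [intervalIntegral.integral_const, add_sub_cancel_left, smul_eq_mul, mul_comm]
  obtain ⟨Λ, hΛ⟩ : ∃ Λ, Λ = sSup S := ⟨_, rfl⟩
  have up : ∀ y ρ, 0 < ρ → ρ ≤ 1 →
      ∫ x in y..(y + ρ), ps T ((Φ (y + ρ) - Φ y) / ρ) (deriv Φ x) ≤ Λ * ρ := fun y ρ h0 h1 => by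
    rw [← div_le_iff₀ h0, hΛ]
    exact le_csSup hS ⟨y, ρ, h0, h1, rfl⟩
  have Λ0 : 0 ≤ Λ := by
    have a1 := up 0 1 one_pos le_rfl
    rw [mul_one] at a1
    exact le_trans (intervalIntegral.integral_nonneg (by norm_num) fun x _ =>
      (ps_mem hT.le (mp 0 1 one_pos) _).1) a1
  have half : ∀ m u v, 0 < m → u < v → v ≤ u + 1 → γ * η * m * (v - u) ≤ D * (Φ v - Φ u) →
      ∫ x in u..v, ps T m (deriv Φ x) ≤ (Λ + c) * (v - u) := by
    intro m u v m0 h0 h1 h2
    obtain ⟨s, rfl⟩ : ∃ s, v = u + s := ⟨v - u, by ring⟩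
    rw [add_sub_cancel_left] at h2 ⊢
    have s0 : 0 < s := by linarith
    have a1 := up u s s0 (by linarith)
    have a2 := mp u s s0
    have a3 : m ≤ D / (γ * η) * ((Φ (u + s) - Φ u) / s) := by
      rw [div_mul_div_comm, le_div_iff₀ (by positivity)]
      linarith only [h2]
    generalize (Φ (u + s) - Φ u) / s = m' at a1 a2 a3
    have a4 : Real.log m - Real.log m' ≤ c := by
      have := Real.log_le_log m0 a3
      rw [Real.log_mul (by positivity) a2.ne', ← hc] at this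
      linarith only [this]
    refine (intervalIntegral.integral_mono_on h0.le (ii m m0 _ _)
      ((ii m' a2 _ _).add (intervalIntegrable_const (c := c))) fun x _ =>
        (ps_le_add hT.le m0 a2 _).trans (add_le_add le_rfl (max_le c0 a4))).trans ?_
    rw [intervalIntegral.integral_add (ii m' a2 _ _) intervalIntegrable_const,
      intervalIntegral.integral_const, add_sub_cancel_left, smul_eq_mul]
    linarith only [a1]
  have main : ∀ y ρ, 0 < ρ → ρ ≤ 1 → ∫ x in y..(y + ρ), ps T ((Φ (y + ρ) - Φ y) / ρ) (deriv Φ x) ≤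
      (-Real.log η + q * (Λ + c)) * ρ := by
    intro y ρ h0 h1
    have a1 := Beta1_set h (y := y) h0 h1
    have m0 := mp y ρ h0
    generalize (Φ (y + ρ) - Φ y) / ρ = m at a1 m0 ⊢
    have hy : y < y + ρ := by linarith
    have hE : MeasurableSet {x | deriv Φ x < η * m} := measurableSet_lt hw measurable_const
    have a2 := Beta1_split hE hy.le
    have a3 : volume.real ({x | deriv Φ x < η * m} ∩ Ioc y (y + ρ)) ≤ (1 - γ) * ρ := by linarith only [a1, a2]
    have a4 := cz hE (K := Λ + c) hy θ0 θ1 (by linarith only [c0, Λ0]) (ii m m0 _ _)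
      (fun x => (ps_mem hT.le m0 _).1) (a3.trans (by rw [hθ]; linarith only [hγ, h0, mul_pos_of_neg_of_neg (Mathlib.Tactic.Linarith.sub_neg_of_lt hγ) (Mathlib.Tactic.Linarith.sub_neg_of_lt h0)])) fun a b ha hab hb hd => by
        have b1 := Beta1_split hE hab.le
        have b2 := Beta1_low hw (fun x => hm.deriv_nonneg) hab.le (hi a b) (η * m)
        have b3 : γ / 2 * (b - a) ≤ volume.real (Ioc a b \ {x | deriv Φ x < η * m}) := by
          rw [hθ] at hd; linarith only [hd, b1]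
        have b4 : η * m * (γ / 2 * (b - a)) ≤ Φ b - Φ a :=
          (mul_le_mul_of_nonneg_left b3 (by positivity)).trans (b2.trans_eq (hint a b).symm)
        obtain ⟨b5, b6⟩ := hDB a (b - a) (by linarith only [hab]) (by linarith only [h1, ha, hb])
        have e1 : a + (b - a) = b := by ring
        have e2 : a + (b - a) / 2 = (a + b) / 2 := by ring
        rw [e1, e2] at b5 b6
        exact ⟨(half m _ _ m0 (by linarith only [hab]) (by linarith only [θ0, θ1, h1, ha, hb]) (by linarith only [b4, b5])).trans_eq (by ring),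
          (half m _ _ m0 (by linarith only [hab]) (by linarith only [θ0, θ1, h1, ha, hb]) (by linarith only [b4, b6])).trans_eq (by ring)⟩
    have a5 : ∫ x in Ioc y (y + ρ) \ {x | deriv Φ x < η * m}, ps T m (deriv Φ x) ≤
        -Real.log η * ρ := by
      refine (Real.le_norm_self _).trans ((norm_setIntegral_le_of_norm_le_const (C := -Real.log η)
        ((measure_mono sdiff_subset).trans_lt measure_Ioc_lt_top) fun x hx => ?_).trans
          (mul_le_mul_of_nonneg_left ?_ e0))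
      · rw [Real.norm_of_nonneg (ps_mem hT.le m0 _).1]
        refine (Beta1_ps (mul_pos hη m0) (not_lt.1 hx.2)).trans (max_le e0 (le_of_eq ?_))
        rw [Real.log_mul hη.ne' m0.ne']
        ring
      · have : 0 ≤ volume.real ({x | deriv Φ x < η * m} ∩ Ioc y (y + ρ)) := measureReal_nonneg
        linarith only [a2, this]
    have a6 : (Λ + c) / θ * volume.real ({x | deriv Φ x < η * m} ∩ Ioc y (y + ρ)) ≤
        q * (Λ + c) * ρ := by
      refine (mul_le_mul_of_nonneg_left a3 (by positivity)).trans_eq ?_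
      rw [hq]
      ring
    rw [intervalIntegral.integral_of_le hy.le, ← integral_inter_add_sdiff hE (ii m m0 _ _).1,
      inter_comm]
    linarith only [a4, a5, a6]
  have fin : Λ ≤ -Real.log η + q * (Λ + c) := by
    refine hΛ.trans_le (csSup_le ⟨_, 0, 1, one_pos, le_rfl, rfl⟩ ?_)
    rintro v ⟨y, ρ, h0, h1, rfl⟩
    rw [div_le_iff₀ h0]
    exact main y ρ h0 h1
  intro y ρ h0 h1
  refine (up y ρ h0 h1).trans (mul_le_mul_of_nonneg_right ?_ h0.le)
  rw [le_div_iff₀ (by linarith only [q1])]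
  linarith only [fin, q1, c0, mul_le_mul_of_nonneg_right q1.le c0]

end Pool.Agent.Work.MP_af796d_an.H
end

-- merged part: Pool.Agent.Work.MP_af796d_an.H.Beta2
section
/-!
# The derivative is an A-infinity weight
PLAN.  w = deriv Φ, b = log w, L from rec_bound.  On a short interval I with mean slope m > 0: ps T m (w x) = T where w x ≤ 0, so T |{w ≤ 0} ∩ I| ≤ L ρ for all T,
hence w > 0 a.e. (cover the line by unit intervals), and exp (b t) = w t a.e.; this gives St.int and AI.iie from ac_of_beta.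
Where w > 0, ps n m w increases to max 0 (log m - log w) =: χ as n → ∞; monotone convergence or Fatou (lintegral_liminf_le, or integrable_of_monotone / lintegral_iSup)
gives χ integrable on I with ∫ χ ≤ L ρ.  |log w| ≤ w + χ + |log m|, so b is interval integrable on short intervals, hence on all.
For c - a ≤ 1: log m - b ≤ χ, so log m - mean b ≤ L.  For 1 ≤ c - a ≤ 2π: m ≤ 2π (Good.per, monotone), and ∫_a^c b ≥ - K: cut [a, c] into 7 equal pieces of length ρ in [1/7, 1],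
each with ∫ b ≥ ρ (log m' - L) and m' ≥ η1 > 0 uniformly (Good.chord_lower with r = 1/7, ch_le_abs).  deriv Φ is periodic: Φ (t + 2π) = Φ t + 2π, deriv_comp_add_const, deriv_add_const.
-/

set_option autoImplicit false

namespace Pool.Agent.Work.MP_af796d_an.H

open MeasureTheory Set Real Metric Filter Topology

lemma Beta2_short {w : ℝ → ℝ} (hw : Measurable w) {m L y ρ : ℝ} (hm : 0 < m) (hρ : 0 < ρ)
    (hL : 0 ≤ L) (H : ∀ T, 0 < T → ∫ x in y..(y + ρ), ps T m (w x) ≤ L * ρ) :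
    (∀ᵐ x ∂volume.restrict (Ioc y (y + ρ)), 0 < w x) ∧
      IntegrableOn (fun x => max 0 (Real.log m - Real.log (w x))) (Ioc y (y + ρ)) ∧
      ∫ x in Ioc y (y + ρ), max 0 (Real.log m - Real.log (w x)) ≤ L * ρ := by
  have mp : ∀ n : ℕ, Measurable fun x => ENNReal.ofReal (ps (n + 1) m (w x)) := fun n =>
    ((measurable_ps _ _).comp hw).ennreal_ofReal
  have F : ∫⁻ x in Ioc y (y + ρ), liminf (fun n : ℕ => ENNReal.ofReal (ps (n + 1) m (w x))) atTop ≤
      ENNReal.ofReal (L * ρ) := by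
    refine (lintegral_liminf_le mp).trans (liminf_le_of_frequently_le' (.of_forall fun n => ?_))
    have a := fun x => ps_mem (T := n + 1) (by positivity) hm (w x)
    rw [← ofReal_integral_eq_lintegral_ofReal (Integrable.of_bound
      (f := fun x => ps (n + 1) m (w x)) ((measurable_ps _ _).comp hw).aestronglyMeasurable (n + 1)
        (.of_forall fun x => by rw [Real.norm_of_nonneg (a x).1]; exact (a x).2))
      (.of_forall fun x => (a x).1), ← intervalIntegral.integral_of_le (by linarith)]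
    exact ENNReal.ofReal_le_ofReal (H _ (by positivity))
  have pos : ∀ᵐ x ∂volume.restrict (Ioc y (y + ρ)), 0 < w x := by
    filter_upwards [ae_lt_top (Measurable.liminf mp) (F.trans_lt ENNReal.ofReal_lt_top).ne] with x hx
    refine lt_of_not_ge fun k => hx.ne (Tendsto.liminf_eq ?_)
    have e : ∀ n : ℕ, ps (n + 1) m (w x) = n + 1 := fun n => by
      rw [ps, max_eq_right (k.trans (by positivity)), Real.log_mul hm.ne' (Real.exp_ne_zero _),
        Real.log_exp, max_eq_right (by have : (0 : ℝ) ≤ n := n.cast_nonneg; linarith)]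
      ring
    simp only [e]
    exact ENNReal.tendsto_ofReal_atTop.comp
      (tendsto_atTop_add_const_right _ _ tendsto_natCast_atTop_atTop)
  have G : ∫⁻ x in Ioc y (y + ρ), ENNReal.ofReal (max 0 (Real.log m - Real.log (w x))) ≤
      ENNReal.ofReal (L * ρ) := by
    refine le_trans (lintegral_congr_ae ?_).le F
    filter_upwards [pos] with x hx
    refine (Tendsto.liminf_eq (tendsto_const_nhds.congr' ?_)).symm
    have t : Tendsto (fun n : ℕ => m * Real.exp (-((n : ℝ) + 1))) atTop (𝓝 (m * 0)) :=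
      (Real.tendsto_exp_neg_atTop_nhds_zero.comp
        (tendsto_atTop_add_const_right _ _ tendsto_natCast_atTop_atTop)).const_mul m
    filter_upwards [t.eventually (gt_mem_nhds (by simpa using hx))] with n hn
    rw [ps, max_eq_left hn.le]
  have mχ : Measurable fun x => max 0 (Real.log m - Real.log (w x)) := by fun_prop
  have nn : 0 ≤ᵐ[volume.restrict (Ioc y (y + ρ))] fun x => max 0 (Real.log m - Real.log (w x)) :=
    .of_forall fun x => le_max_left _ _
  have i : IntegrableOn (fun x => max 0 (Real.log m - Real.log (w x))) (Ioc y (y + ρ)) :=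
    ⟨mχ.aestronglyMeasurable, (hasFiniteIntegral_iff_ofReal nn).2
      (G.trans_lt ENNReal.ofReal_lt_top)⟩
  refine ⟨pos, i, ?_⟩
  rwa [← ofReal_integral_eq_lintegral_ofReal i nn, ENNReal.ofReal_le_ofReal_iff (by positivity)] at G

theorem st_of_beta {Φ : ℝ → ℝ} {D η γ : ℝ} (hΦ : Good Φ) (hD : 1 ≤ D) (hη : 0 < η) (hη1 : η ≤ 1)
    (hγ : 0 < γ) (hγ1 : γ ≤ 1) (hDB : DB Φ D) (h : Beta Φ η γ) :
    ∃ C, St Φ (fun t => Real.log (deriv Φ t)) C := by
  obtain ⟨iw, ew⟩ := ac_of_beta hΦ hη hγ h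
  obtain ⟨L, hL, H⟩ := rec_bound hΦ hD hη hη1 hγ hγ1 hDB h
  have mw := measurable_deriv Φ
  have hm : ∀ y ρ, 0 < ρ → 0 < (Φ (y + ρ) - Φ y) / ρ := fun y ρ a =>
    div_pos (sub_pos.2 (hΦ.mono (by linarith))) a
  have S := fun y ρ a b => Beta2_short mw (hm y ρ a) a hL fun T t => H T t y ρ a b
  have pos : ∀ᵐ x : ℝ, 0 < deriv Φ x := by
    have := ae_all_iff.2 fun n : ℤ =>
      (ae_restrict_iff' measurableSet_Ioc).1 (S n 1 one_pos le_rfl).1
    filter_upwards [this] with x hx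
    exact hx (⌈x⌉ - 1) ⟨by push_cast; linarith [Int.ceil_lt_add_one x],
      by push_cast; linarith [Int.le_ceil x]⟩
  have ee : (fun t => Real.exp (Real.log (deriv Φ t))) =ᵐ[volume] deriv Φ :=
    pos.mono fun x hx => Real.exp_log hx
  have ei : ∀ a c, Φ c - Φ a = ∫ t in a..c, Real.exp (Real.log (deriv Φ t)) := fun a c =>
    (ew a c).trans (intervalIntegral.integral_congr_ae (ee.mono fun x hx _ => hx.symm))
  have ib : ∀ a c, IntervalIntegrable (fun t => Real.log (deriv Φ t)) volume a c := by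
    have : LocallyIntegrable (fun t => Real.log (deriv Φ t)) volume := fun x => by
      refine ⟨Ioc (x - 1 / 2) (x - 1 / 2 + 1), Ioc_mem_nhds (by linarith only []) (by linarith), ?_⟩
      refine Integrable.mono' (((iw (x - 1 / 2) (x - 1 / 2 + 1)).1.add
        (S (x - 1 / 2) 1 one_pos le_rfl).2.1).add (integrable_const
          |Real.log ((Φ (x - 1 / 2 + 1) - Φ (x - 1 / 2)) / 1)|)) mw.log.aestronglyMeasurable ?_
      filter_upwards [ae_restrict_of_ae pos] with t ht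
      simp only [Pi.add_apply, Real.norm_eq_abs]
      generalize Real.log ((Φ (x - 1 / 2 + 1) - Φ (x - 1 / 2)) / 1) = l
      have := Real.log_le_self ht.le
      have := le_max_left 0 (l - Real.log (deriv Φ t))
      have := le_max_right 0 (l - Real.log (deriv Φ t))
      have := abs_nonneg l
      have := neg_le_abs l
      rw [abs_le]
      constructor <;> linarith
    exact fun a c => (this.integrableOn_isCompact isCompact_uIcc).intervalIntegrable
  have lo : ∀ y ρ, 0 < ρ → ρ ≤ 1 → ρ * (Real.log ((Φ (y + ρ) - Φ y) / ρ) - L) ≤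
      ∫ t in y..(y + ρ), Real.log (deriv Φ t) := fun y ρ a b => by
    obtain ⟨-, i, e⟩ := S y ρ a b
    rw [← intervalIntegral.integral_of_le (by linarith)] at e
    have := intervalIntegral.integral_mono_on (by linarith : y ≤ y + ρ)
      ((intervalIntegrable_const (c := Real.log ((Φ (y + ρ) - Φ y) / ρ))).sub (ib y (y + ρ)))
      ((intervalIntegrable_iff_integrableOn_Ioc_of_le (by linarith)).2 i)
      fun x _ => le_max_right _ _
    rw [intervalIntegral.integral_sub intervalIntegrable_const (ib _ _),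
      intervalIntegral.integral_const, smul_eq_mul] at this
    linarith only [e, this]
  obtain ⟨δ, hδ, hδ'⟩ := hΦ.chord_lower (r := 1 / 7) (by norm_num)
  refine ⟨max (Real.exp L) (2 * π * Real.exp (L - Real.log δ)), hΦ, ⟨mw.log, ib, fun a c =>
    (iw a c).congr_ae (ae_restrict_of_ae ee.symm), fun a c ac ca => ?_⟩, fun t => ?_, ei⟩
  · rw [← ei]
    have p := sub_pos.2 ac
    rcases le_total (c - a) 1 with q | q
    · have := lo a (c - a) p q
      have k := hm a (c - a) p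
      rw [add_sub_cancel] at this k
      refine le_trans ?_ (mul_le_mul_of_nonneg_right (le_max_left _ _) (Real.exp_pos _).le)
      rw [← Real.exp_add, ← Real.log_le_iff_le_exp k, ← sub_le_iff_le_add', le_div_iff₀' p]
      exact this
    · have pi3 := Real.pi_gt_three
      have pi4 := Real.pi_lt_d2
      have r0 : 0 < (c - a) / 7 := by positivity
      have r1 : (c - a) / 7 ≤ 1 := by linarith only [ca, pi3, pi4]
      have sm := intervalIntegral.sum_integral_adjacent_intervals (μ := volume)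
        (f := fun t => Real.log (deriv Φ t)) (a := fun k : ℕ => a + k * ((c - a) / 7)) (n := 7)
        fun k _ => ib _ _
      have le : ∑ _k ∈ Finset.range 7, (c - a) / 7 * (Real.log δ - L) ≤ _ :=
        (Finset.sum_le_sum fun k _ => by
          have := lo (a + k * ((c - a) / 7)) _ r0 r1
          rw [show a + ((k + 1 : ℕ) : ℝ) * ((c - a) / 7) = a + k * ((c - a) / 7) + (c - a) / 7 by
            push_cast; ring]
          refine le_trans (mul_le_mul_of_nonneg_left (sub_le_sub_right (Real.log_le_log hδ ?_) L)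
            r0.le) this
          have b := (hδ' (a + k * ((c - a) / 7)) ((c - a) / 7) (by linarith only [q]) (by linarith only [ca, pi3, pi4])).trans
            (ch_le_abs _)
          rw [abs_of_pos (sub_pos.2 (hΦ.mono (by linarith only [ac])))] at b
          rw [le_div_iff₀ r0]
          linarith only [hδ, b, ca, pi4, mul_nonneg_of_nonpos_of_nonpos (le_of_lt (Mathlib.Tactic.Linarith.sub_neg_of_lt hδ)) (Mathlib.Tactic.Linarith.sub_nonpos_of_le ca), mul_pos_of_neg_of_neg (Mathlib.Tactic.Linarith.sub_neg_of_lt hδ) (Mathlib.Tactic.Linarith.sub_neg_of_lt pi4)]).trans sm.le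
      rw [Finset.sum_const, Finset.card_range, nsmul_eq_mul, show a + ((7 : ℕ) : ℝ) * ((c - a) / 7) = c
        by push_cast; ring, Nat.cast_zero, zero_mul, add_zero] at le
      refine le_trans ?_ (mul_le_mul_of_nonneg_right (le_max_right _ _) (Real.exp_pos _).le)
      have b : (Φ c - Φ a) / (c - a) ≤ 2 * π := by
        have := hΦ.mono.monotone ca
        rw [hΦ.per] at this
        rw [div_le_iff₀ p]
        linarith only [this, ac, q, ca, mul_nonneg_of_nonpos_of_nonpos (le_of_lt (Mathlib.Tactic.Linarith.sub_neg_of_lt ac)) (Mathlib.Tactic.Linarith.sub_nonpos_of_le q), mul_nonneg_of_nonpos_of_nonpos (Mathlib.Tactic.Linarith.sub_nonpos_of_le ca) (Mathlib.Tactic.Linarith.sub_nonpos_of_le q)]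
      rw [mul_assoc (2 * π), ← Real.exp_add]
      refine b.trans (le_mul_of_one_le_right (by positivity) (Real.one_le_exp ?_))
      rw [← sub_le_iff_le_add', le_div_iff₀' p]
      push_cast at le
      linarith only [le]
  · have : (fun x => Φ (x + 2 * π)) = fun x => Φ x + 2 * π := funext hΦ.per
    beta_reduce
    rw [← deriv_comp_add_const, this, deriv_add_const]

end Pool.Agent.Work.MP_af796d_an.H
end

-- merged part: Pool.Agent.Work.MP_af796d_an.H.CDefs
section
/-! Definitions for the core decomposition theorem.  No proofs here. -/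

set_option autoImplicit false

namespace Pool.Agent.Work.MP_af796d_an.H

open MeasureTheory Set Real Metric

/-- normalised geometric sum. -/
noncomputable def aN (n : ℕ) (s : ℝ) : ℂ := (∑ m ∈ Finset.range n, ex (m * s)) / n

/-- Dirichlet kernel. -/
noncomputable def dN (N : ℕ) (s : ℝ) : ℂ := ∑ m ∈ Finset.Icc (-(N : ℤ)) N, ex (m * s)

/-- a fast decaying kernel with multiplier `1` on `|m| ≤ N - 14 n`. -/
noncomputable def Ker (N n : ℕ) (s : ℝ) : ℂ := dN N s * (aN n s * aN n (-s)) ^ 14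

/-- periodic convolution. -/
noncomputable def cv (V φ : ℝ → ℂ) (t : ℝ) : ℂ :=
  (1 / (2 * π) : ℂ) * ∫ s in (-π)..π, V s * φ (t - s)

/-- trigonometric polynomials with spectrum in `[a, c]`. -/
noncomputable def Sp (a c : ℤ) : Submodule ℂ (ℝ → ℂ) :=
  Submodule.span ℂ {f | ∃ m : ℤ, a ≤ m ∧ m ≤ c ∧ f = fun t : ℝ => ex (m * t)}

/-- smoothing of `F` at scale `rr k`. -/
noncomputable def Gk (k : ℕ) (F : ℝ → ℂ) : ℝ → ℂ := cv (Ker (42 * 2 ^ k) (2 ^ k)) F

/-- smoothing of the weights at scale `rr k`. -/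
noncomputable def Uk (k : ℕ) (θ : ℝ → ℂ) : ℝ → ℂ := cv (Ker (14 * 2 ^ k) (2 ^ k)) θ

/-- soft median-of-three weight; `b` is the distinguished variable. -/
noncomputable def TT (b a c : ℝ) : ℝ :=
  (a ^ 2 + a * c + c ^ 2) / (a * c * (a * b + b * c + c * a) * (a + b + c))

variable {n : ℕ}

noncomputable def w1 (l D : Fin n → ℝ) : ℝ := ∑ i, l i / D i

noncomputable def w2 (l D : Fin n → ℝ) : ℝ := ∑ i, l i / D i ^ 2

noncomputable def wy (l : Fin n → ℝ) (b : ℝ) (D : Fin n → ℝ) : ℝ := ∑ i, l i / (b + D i)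

/-- the weight function. -/
noncomputable def th (l : Fin n → ℝ) (b : ℝ) (D : Fin n → ℝ) : ℝ :=
  3 * (∑ i, ∑ m, l i * l m * TT b (D i) (D m)) / w1 l D ^ 3

/-- off-diagonal error size. -/
noncomputable def ee (l : Fin n → ℝ) (h b : ℝ) (D : Fin n → ℝ) : ℝ :=
  h * w2 l D * wy l b D / (b * w1 l D ^ 3)

noncomputable def La (l : Fin n → ℝ) (h : ℝ) (D : Fin n → ℝ) : ℝ := ∑ i, l i * (h / D i)

noncomputable def mu2 (l : Fin n → ℝ) (h : ℝ) (D : Fin n → ℝ) : ℝ := ∑ i, l i * (h / D i) ^ 2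

noncomputable def tt (l : Fin n → ℝ) (h : ℝ) (D : Fin n → ℝ) : ℝ :=
  ∑ i, l i * (h / D i * (1 - h / D i))

noncomputable def aa (l : Fin n → ℝ) (h : ℝ) (D : Fin n → ℝ) : ℝ :=
  ∑ i, l i * ((h / D i) ^ 2 * (1 - h / D i))

/-- diagonal drift size. -/
noncomputable def dr (l : Fin n → ℝ) (h : ℝ) (D : Fin n → ℝ) : ℝ :=
  aa l h D / La l h D ^ 2 + mu2 l h D * tt l h D / La l h D ^ 3

/-- regularised distances to the points `y i` at scale `rr k`. -/
noncomputable def DD (y : Fin n → ℝ) (k : ℕ) (t : ℝ) : Fin n → ℝ := fun i => rr k + ch (t - y i)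

/-- the weight of the atom `j` at scale `rr k` at the point `t`. -/
noncomputable def thk (l y : Fin n → ℝ) (k : ℕ) (j : Fin n) (t : ℝ) : ℝ :=
  th l (DD y k t j) (DD y k t)

/-- the smoothed weight. -/
noncomputable def ths (l y : Fin n → ℝ) (k : ℕ) (j : Fin n) : ℝ → ℂ :=
  Uk k fun s => (thk l y k j s : ℂ)

/-- the piece of `F` at scale `rr k` given to the atom `j`. -/
noncomputable def XX (l y : Fin n → ℝ) (F : ℝ → ℂ) (k : ℕ) (j : Fin n) (t : ℝ) : ℂ :=
  (Gk (k + 1) F t - Gk k F t) * ths l y k j t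

/-- data of the core theorem. -/
structure CD (l y : Fin n → ℝ) (F : ℝ → ℂ) : Prop where
  nn : ∀ i, 0 ≤ l i
  pos : 0 < ∑ i, l i
  sp : ∃ d : ℕ, F ∈ Sp 0 d
  md : ∀ t t', ‖F t - F t'‖ ≤ ∑ i, l i * (ch (t - t') / (ch (t - t') + ch (t - y i)))

/-- bounds for the pieces. -/
structure PB (l y : Fin n → ℝ) (F : ℝ → ℂ) (A : ℝ) : Prop where
  gd : ∀ k, Differentiable ℝ (Gk k F)
  g0 : ∀ k t, ‖Gk k F t - F t‖ ≤ A * (rr k * w1 l (DD y k t))
  g1 : ∀ k t, ‖deriv (Gk k F) t‖ ≤ A * w1 l (DD y k t)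
  ud : ∀ k j, Differentiable ℝ (ths l y k j)
  u0 : ∀ k j t, ‖ths l y k j t - (thk l y k j t : ℂ)‖ ≤ A * ee l (rr k) (DD y k t j) (DD y k t)
  u1 : ∀ k j t, ‖deriv (ths l y k j) t‖ ≤ A * ee l (rr k) (DD y k t j) (DD y k t) / rr k
  k0 : ∀ k j t, |thk l y (k + 1) j t - thk l y k j t| ≤ A * ee l (rr k) (DD y k t j) (DD y k t)
  d0 : ∀ k j, ‖ths l y k j (y j) - (thk l y k j (y j) : ℂ)‖ ≤ A * dr l (rr k) (DD y k (y j))
  d1 : ∀ k j, |thk l y (k + 1) j (y j) - thk l y k j (y j)| ≤ A * dr l (rr k) (DD y k (y j))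
  an : ∀ k j, An (XX l y F k j)
  an0 : An (Gk 0 F)
  fin : ∃ K, Gk K F = F
  sum : ∀ k t, ∑ j, (l j : ℂ) * ths l y k j t = 1

/-- fourth power of the analytic cut-off, on the circle. -/
noncomputable def t4 (k : ℕ) (y t : ℝ) : ℂ := ta (rr k) y (ex t) ^ 4

/-- the coefficient of `b` at scale `rr k` at the point `y`. -/
noncomputable def ck (b : ℝ → ℝ) (k : ℕ) (y : ℝ) : ℂ := pr b (t4 k y)

/-- the atom of the decomposition attached to `j`. -/
noncomputable def ZZ (l y : Fin n → ℝ) (F : ℝ → ℂ) (K : ℕ) (j : Fin n) (t : ℝ) : ℂ :=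
  ∑ k ∈ Finset.range K, (XX l y F k j t - XX l y F k j (y j) * t4 k (y j) t)

/-- bounded measurable periodic real functions of mean zero. -/
def XR : Submodule ℝ (ℝ → ℝ) where
  carrier := {g | Measurable g ∧ Function.Periodic g (2 * π) ∧ (∃ B, ∀ t, |g t| ≤ B) ∧
    ∫ t in (0 : ℝ)..(2 * π), g t = 0}
  add_mem' := by
    rintro f g ⟨hf1, hf2, ⟨B, hB⟩, hf4⟩ ⟨hg1, hg2, ⟨B', hB'⟩, hg4⟩
    refine ⟨hf1.add hg1, hf2.add hg2, ⟨B + B', fun t => ?_⟩, ?_⟩
    · exact (abs_add_le _ _).trans (add_le_add (hB t) (hB' t))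
    · simp only [Pi.add_apply]
      rw [intervalIntegral.integral_add (bdd_intervalIntegrable hf1 hB _ _)
        (bdd_intervalIntegrable hg1 hB' _ _), hf4, hg4, add_zero]
  zero_mem' := ⟨measurable_const, fun _ => rfl, ⟨0, fun _ => by simp⟩, by simp⟩
  smul_mem' := by
    rintro c g ⟨hg1, hg2, ⟨B, hB⟩, hg4⟩
    refine ⟨hg1.const_smul c, hg2.smul c, ⟨|c| * B, fun t => ?_⟩, ?_⟩
    · simp only [Pi.smul_apply, smul_eq_mul, abs_mul]
      exact mul_le_mul_of_nonneg_left (hB t) (abs_nonneg c)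
    · simp only [Pi.smul_apply, smul_eq_mul]
      rw [intervalIntegral.integral_const_mul, hg4, mul_zero]

/-- a functional on `XR` that is bounded on real atoms. -/
def AtomBd (Λ : XR →ₗ[ℝ] ℝ) (K : ℝ) : Prop :=
  ∀ (g : XR) (y M : ℝ), (∀ x, |∫ t in y..x, (g : ℝ → ℝ) t| ≤ M) →
    (∀ t, ch (t - y) * |(g : ℝ → ℝ) t| ≤ M) → |Λ g| ≤ K * M

/-- conclusion of the core theorem. -/
def CoreBd (b : ℝ → ℝ) (K : ℝ) : Prop :=
  ∀ (n : ℕ) (l y : Fin n → ℝ) (F : ℝ → ℂ), CD l y F → ‖pr b F‖ ≤ K * ∑ i, l i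

end Pool.Agent.Work.MP_af796d_an.H
end

-- merged part: Pool.Agent.Work.MP_af796d_an.H.An
section
/-!
# Boundary functions of analytic functions, the pairing pr, the complex hub
PLAN.
* An.hasDerivAt: chain rule with hasDerivAt_ex (HasDerivAt.comp_of_eq / scomp; g is complex differentiable at ex t).
  deriv f t = deriv g (ex t) * (I * ex t), so its norm is ‖deriv g (ex t)‖ and wg g t = (deriv f t).re.
* deriv f is continuous and periodic, hence bounded, hence deriv f * b is interval integrable.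
* hc_of_hb: K ≥ 0 from g = 0, M = 1.  The real part of pr b f is ∫ wg g * b; the imaginary part is
  ∫ wg (fun z => -I * g z) * b.  Norm at most |re| + |im|.
* sumatom: choose u a with ‖u a‖ ≤ 1 and u a * pr b (f a) = ‖pr b (f a)‖ (conj z / ‖z‖, or 0), apply
  HC.bd to the sum of u a * f a, use linearity of pr.
* t4 bounds: ‖ta‖ ≤ 1 and ≤ 2 X with X = h/(h+x); |τ^4 - 1| ≤ 4 |τ - 1|; (τ^4)' = 4 τ^3 τ' with
  ‖τ'‖ ≤ 4 h/(h+x)^2 = 4 X^2 / h, so the norm is at most 4 * 8 X^3 * 4 X^2 / h = 128 X^5 / h.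
-/

set_option autoImplicit false

namespace Pool.Agent.Work.MP_af796d_an.H

open MeasureTheory Set Real Metric Filter Topology

lemma An_mem (t : ℝ) : ex t ∈ closedBall (0 : ℂ) 1 := mem_closedBall_zero_iff.2 (norm_ex t).le

lemma An.hasDerivAt {f : ℝ → ℂ} {g : ℂ → ℂ} (hg : AnalyticOnNhd ℂ g (closedBall 0 1))
    (hf : ∀ t, f t = g (ex t)) (t : ℝ) :
    HasDerivAt f (deriv g (ex t) * (Complex.I * ex t)) t := by
  obtain rfl : f = g ∘ ex := funext hf
  exact (hg _ (An_mem t)).differentiableAt.hasDerivAt.comp t (hasDerivAt_ex t)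

lemma An_der {f : ℝ → ℂ} (h : An f) : An (deriv f) := by
  obtain ⟨g, hg, hf⟩ := h
  exact ⟨fun z => deriv g z * (Complex.I * z),
    hg.deriv.mul (analyticOnNhd_const.mul analyticOnNhd_id), fun t => (An.hasDerivAt hg hf t).deriv⟩

lemma An.differentiable {f : ℝ → ℂ} (h : An f) : Differentiable ℝ f := by
  obtain ⟨g, hg, hf⟩ := h
  exact fun t => (An.hasDerivAt hg hf t).differentiableAt

lemma An.continuous_deriv {f : ℝ → ℂ} (h : An f) : Continuous (deriv f) := by
  exact (An_der h).differentiable.continuous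

lemma An.periodic {f : ℝ → ℂ} (h : An f) : Function.Periodic f (2 * π) := by
  obtain ⟨g, -, hf⟩ := h
  exact fun t => by rw [hf, hf, ex_periodic t]

lemma An.der {f : ℝ → ℂ} (h : An f) : An (deriv f) := by
  exact An_der h

lemma An.const (c : ℂ) : An (fun _ => c) := by
  exact ⟨fun _ => c, analyticOnNhd_const, fun _ => rfl⟩

lemma an_ex : An ex := by
  exact ⟨id, analyticOnNhd_id, fun _ => rfl⟩

lemma An.add {f g : ℝ → ℂ} (hf : An f) (hg : An g) : An (fun t => f t + g t) := by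
  obtain ⟨u, hu, e⟩ := hf
  obtain ⟨v, hv, e'⟩ := hg
  exact ⟨fun z => u z + v z, hu.add hv, fun t => by simp only [e, e']⟩

lemma An.sub {f g : ℝ → ℂ} (hf : An f) (hg : An g) : An (fun t => f t - g t) := by
  obtain ⟨u, hu, e⟩ := hf
  obtain ⟨v, hv, e'⟩ := hg
  exact ⟨fun z => u z - v z, hu.sub hv, fun t => by simp only [e, e']⟩

lemma An.mul {f g : ℝ → ℂ} (hf : An f) (hg : An g) : An (fun t => f t * g t) := by
  obtain ⟨u, hu, e⟩ := hf
  obtain ⟨v, hv, e'⟩ := hg
  exact ⟨fun z => u z * v z, hu.mul hv, fun t => by simp only [e, e']⟩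

lemma An.const_mul {f : ℝ → ℂ} (hf : An f) (c : ℂ) : An (fun t => c * f t) := by
  exact (An.const c).mul hf

lemma An.sum {α : Type*} (s : Finset α) {f : α → ℝ → ℂ} (hf : ∀ a ∈ s, An (f a)) :
    An (fun t => ∑ a ∈ s, f a t) := by
  classical
  induction s using Finset.induction_on with
  | empty => simpa only [Finset.sum_empty] using An.const 0
  | insert a s ha ih =>
    simp only [Finset.sum_insert ha]
    exact (hf a (Finset.mem_insert_self a s)).add (ih fun b hb => hf b (Finset.mem_insert_of_mem hb))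

lemma an_t4 (k : ℕ) (y : ℝ) : An (t4 k y) := by
  exact ⟨fun z => ta (rr k) y z ^ 4, (ta_an (rr_pos k) y).pow 4, fun _ => rfl⟩

lemma An_ii {b : ℝ → ℝ} (hb : IntervalIntegrable b volume 0 (2 * π)) {f : ℝ → ℂ} (hf : An f) :
    IntervalIntegrable (fun t => deriv f t * (b t : ℂ)) volume 0 (2 * π) :=
  IntervalIntegrable.continuousOn_mul (f := fun t => (b t : ℂ)) ⟨hb.1.ofReal, hb.2.ofReal⟩
    hf.continuous_deriv.continuousOn

lemma An_cmul {f : ℝ → ℂ} (hf : An f) (c : ℂ) (t : ℝ) :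
    deriv (fun t => c * f t) t = c * deriv f t :=
  ((hf.differentiable t).hasDerivAt.const_mul c).deriv

lemma pr_const (b : ℝ → ℝ) (c : ℂ) : pr b (fun _ => c) = 0 := by
  simp [pr]

lemma pr_add {b : ℝ → ℝ} (hb : IntervalIntegrable b volume 0 (2 * π)) {f g : ℝ → ℂ} (hf : An f)
    (hg : An g) : pr b (fun t => f t + g t) = pr b f + pr b g := by
  unfold pr
  rw [← intervalIntegral.integral_add (An_ii hb hf) (An_ii hb hg)]
  refine intervalIntegral.integral_congr fun t _ => ?_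
  have := ((hf.differentiable t).hasDerivAt.fun_add (hg.differentiable t).hasDerivAt).deriv
  simp only [this, add_mul]

lemma pr_sub {b : ℝ → ℝ} (hb : IntervalIntegrable b volume 0 (2 * π)) {f g : ℝ → ℂ} (hf : An f)
    (hg : An g) : pr b (fun t => f t - g t) = pr b f - pr b g := by
  unfold pr
  rw [← intervalIntegral.integral_sub (An_ii hb hf) (An_ii hb hg)]
  refine intervalIntegral.integral_congr fun t _ => ?_
  have := ((hf.differentiable t).hasDerivAt.fun_sub (hg.differentiable t).hasDerivAt).deriv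
  simp only [this, sub_mul]

lemma pr_const_mul (b : ℝ → ℝ) {f : ℝ → ℂ} (hf : An f) (c : ℂ) :
    pr b (fun t => c * f t) = c * pr b f := by
  unfold pr
  rw [← intervalIntegral.integral_const_mul]
  refine intervalIntegral.integral_congr fun t _ => ?_
  simp only [An_cmul hf, mul_assoc]

lemma pr_sum {b : ℝ → ℝ} (hb : IntervalIntegrable b volume 0 (2 * π)) {α : Type*} (s : Finset α)
    {f : α → ℝ → ℂ} (hf : ∀ a ∈ s, An (f a)) :
    pr b (fun t => ∑ a ∈ s, f a t) = ∑ a ∈ s, pr b (f a) := by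
  classical
  induction s using Finset.induction_on with
  | empty => simpa only [Finset.sum_empty] using pr_const b 0
  | insert a s ha ih =>
    have h := fun b hb => hf b (Finset.mem_insert_of_mem hb)
    simp only [Finset.sum_insert ha]
    rw [pr_add hb (hf a (Finset.mem_insert_self a s)) (An.sum s h), ih h]

lemma An_re {b : ℝ → ℝ} {K : ℝ} (hb : IntervalIntegrable b volume 0 (2 * π)) (h : HB b K) (y : ℝ)
    {f : ℝ → ℂ} {M : ℝ} (hf : An f) (h0 : ∀ t, ‖f t‖ ≤ M)
    (h1 : ∀ t, ch (t - y) * ‖deriv f t‖ ≤ M) : |(pr b f).re| ≤ K * M := by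
  have e := Complex.reCLM.intervalIntegral_comp_comm (An_ii hb hf)
  obtain ⟨g, hg, hf⟩ := hf
  have d := fun t => (An.hasDerivAt hg hf t).deriv
  have k := h y g M hg (fun t => hf t ▸ h0 t) fun t => by
    have := h1 t
    rwa [d, norm_mul, norm_mul, Complex.norm_I, norm_ex, mul_one, mul_one] at this
  simp only [Complex.reCLM_apply] at e
  rw [pr, ← e]
  simpa only [d, wg, Complex.re_mul_ofReal] using k

theorem hc_of_hb {b : ℝ → ℝ} {K : ℝ} (hb : IntervalIntegrable b volume 0 (2 * π)) (h : HB b K) :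
    HC b (2 * K) := by
  have hK : 0 ≤ K := by
    have := An_re hb h 0 (M := 1) (An.const 0) (fun _ => by simp) fun _ => by simp
    exact (abs_nonneg _).trans (this.trans_eq (mul_one K))
  refine ⟨hb, by linarith, fun y f M hf h0 h1 => ?_⟩
  have a1 := An_re hb h y hf h0 h1
  have a2 := An_re hb h y (M := M) (hf.const_mul (-Complex.I))
    (fun t => by simpa only [norm_mul, norm_neg, Complex.norm_I, one_mul] using h0 t)
    fun t => by simpa only [An_cmul hf, norm_mul, norm_neg, Complex.norm_I, one_mul] using h1 t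
  rw [pr_const_mul b hf] at a2
  have a3 : (-Complex.I * pr b f).re = (pr b f).im := by simp
  have a4 := Complex.norm_le_abs_re_add_abs_im (pr b f)
  rw [a3] at a2
  linarith

theorem sumatom {b : ℝ → ℝ} {K : ℝ} (h : HC b K) {α : Type*} (s : Finset α) {f : α → ℝ → ℂ}
    (hf : ∀ a ∈ s, An (f a)) (y M : ℝ) (h0 : ∀ t, ∑ a ∈ s, ‖f a t‖ ≤ M)
    (h1 : ∀ t, ch (t - y) * ∑ a ∈ s, ‖deriv (f a) t‖ ≤ M) : ∑ a ∈ s, ‖pr b (f a)‖ ≤ K * M := by
  choose u hu e using fun a => Complex.exists_norm_eq_mul_self (pr b (f a))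
  have hA : ∀ a ∈ s, An fun t => u a * f a t := fun a ha => (hf a ha).const_mul _
  have k := h.bd y _ M (An.sum s hA) (fun t => (norm_sum_le _ _).trans (by
      simpa only [norm_mul, hu, one_mul] using h0 t)) fun t => by
    rw [(HasDerivAt.fun_sum fun a ha => ((hA a ha).differentiable t).hasDerivAt).deriv]
    refine (mul_le_mul_of_nonneg_left ((norm_sum_le _ _).trans_eq
      (Finset.sum_congr rfl fun a ha => ?_)) (ch_nonneg _)).trans (h1 t)
    rw [An_cmul (hf a ha), norm_mul, hu, one_mul]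
  rw [pr_sum h.ii s hA, Finset.sum_congr rfl fun a ha =>
    (pr_const_mul b (hf a ha) (u a)).trans (e a).symm, ← Complex.ofReal_sum, Complex.norm_real] at k
  exact (le_abs_self _).trans k

lemma t4_self (k : ℕ) (y : ℝ) : t4 k y y = 1 := by
  rw [t4, ta_self (rr_pos k), one_pow]

lemma t4_le_one (k : ℕ) (y t : ℝ) : ‖t4 k y t‖ ≤ 1 := by
  rw [t4, norm_pow]
  exact pow_le_one₀ (norm_nonneg _) (ta_le_one (rr_pos k) y (norm_ex t).le)

lemma t4_le (k : ℕ) (y t : ℝ) : ‖t4 k y t‖ ≤ 16 * (rr k / (rr k + ch (t - y))) ^ 4 := by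
  rw [t4, norm_pow]
  exact (pow_le_pow_left₀ (norm_nonneg _) (ta_le (rr_pos k) y t) 4).trans_eq (by ring)

lemma An_pow4 {a b : ℂ} (ha : ‖a‖ ≤ 1) (hb : ‖b‖ ≤ 1) : ‖a ^ 4 - b ^ 4‖ ≤ 4 * ‖a - b‖ := by
  have e : a ^ 4 - b ^ 4 = (a + b) * (a ^ 2 + b ^ 2) * (a - b) := by ring
  have h1 : ‖a + b‖ ≤ 2 := (norm_add_le _ _).trans (by linarith)
  have h2 : ‖a ^ 2 + b ^ 2‖ ≤ 2 := (norm_add_le _ _).trans (by
    rw [norm_pow, norm_pow]
    linarith [pow_le_one₀ (norm_nonneg a) ha (n := 2), pow_le_one₀ (norm_nonneg b) hb (n := 2)])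
  rw [e, norm_mul, norm_mul]
  exact mul_le_mul_of_nonneg_right ((mul_le_mul h1 h2 (norm_nonneg _) zero_le_two).trans_eq
    (by norm_num)) (norm_nonneg _)

lemma t4_sub_one_le (k : ℕ) (y t : ℝ) :
    ‖t4 k y t - 1‖ ≤ 8 * (ch (t - y) / (rr k + ch (t - y))) := by
  have h1 := An_pow4 (ta_le_one (rr_pos k) y (norm_ex t).le) norm_one.le
  have h2 := one_sub_ta_le (rr_pos k) y t
  rw [one_pow, norm_sub_rev (ta _ _ _)] at h1
  unfold t4
  linarith only [h1, h2]

lemma t4_sub_le (k : ℕ) (y t : ℝ) :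
    ‖t4 (k + 1) y t - t4 k y t‖ ≤ 16 * om (rr k) (ch (t - y)) := by
  have h1 := An_pow4 (ta_le_one (rr_pos (k + 1)) y (norm_ex t).le)
    (ta_le_one (rr_pos k) y (norm_ex t).le)
  have h2 := ta_sub_ta_le (rr_pos k) y t
  rw [← rr_succ] at h2
  unfold t4
  linarith

lemma deriv_t4_le (k : ℕ) (y t : ℝ) :
    ‖deriv (t4 k y) t‖ ≤ 128 * (rr k / (rr k + ch (t - y))) ^ 5 / rr k := by
  have hk := rr_pos k
  have hx := ch_nonneg (t - y)
  have d : HasDerivAt (t4 k y) _ t :=
    (An.hasDerivAt (ta_an hk y) (fun _ => rfl) t).fun_pow 4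
  rw [d.deriv]
  simp only [norm_mul, norm_pow, Complex.norm_I, norm_ex, mul_one, Complex.norm_natCast]
  refine (mul_le_mul (mul_le_mul_of_nonneg_left (pow_le_pow_left₀ (norm_nonneg _)
    (ta_le hk y t) _) (Nat.cast_nonneg _)) (deriv_ta_le hk y t) (norm_nonneg _)
    (by positivity)).trans_eq ?_
  rw [show 4 - 1 = 3 from rfl]
  field_simp
  norm_num

end Pool.Agent.Work.MP_af796d_an.H
end

-- merged part: Pool.Agent.Work.MP_af796d_an.H.Spec
section
/-!
# Spectral bookkeeping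
PLAN.  Everything is by Submodule.span_induction.  Write e m = fun t => ex (m * t); e m * e m' = e (m + m') (ex_add).
* Sp_mul: induct on f, then on g.  Sp_mono: span_mono.  Elements of Sp are smooth and periodic.
* an_of_Sp: e m = (fun z => z ^ m.toNat) ∘ ex for m ≥ 0.
* orth: ∫ s in -π..π, ex (m * s) = 2π if m = 0 and 0 otherwise (integer m).
* cv_mem: for V = e m, cv V φ t = (1/2π) ∫ ex (m s) φ (t - s) ds = ex (m t) * (1/2π) ∫ ex (-m u) φ u du over
  the period [t - π, t + π] (substitute u = t - s, intervalIntegral.integral_comp_sub_left), and the last integral does not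
  depend on t (Function.Periodic.intervalIntegral_add_eq).  cv is linear in V for continuous V and φ.
* cv_e: cv V (e m) = c * e m with c = (1/2π) ∫ V s * ex (-m s).
* cv_Ker_e: B s = (aN n s * aN n (-s))^14 lies in Sp (-14 n) (14 n) and B 0 = 1 (n ≥ 1).  Show for every
  B in Sp (-d) d and |m| + d ≤ N that (1/2π) ∫ dN N s * B s * ex (-m s) = B 0 (span induction: for B = e l exactly one term
  of dN, the one with index m - l, survives by orth).
* Gk_sub_mem: span induction on F in Sp 0 d: for F = e m with m ≤ 28 * 2^k both kernels reproduce e m, so the difference is 0;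
  otherwise both are multiples of e m (cv_e) and 28 * 2^k ≤ m ≤ d.  cv V is linear in φ for continuous φ.
* an_XX: Uk k θ is in Sp (-(28 * 2^k)) (28 * 2^k); multiply; Sp_mono; an_of_Sp.
* Gk_fin: take 2^K ≥ d.  Uk_sum: linearity in φ and cv_Ker_e with m = 0.
-/

set_option autoImplicit false

namespace Pool.Agent.Work.MP_af796d_an.H

open MeasureTheory Set Real Metric Filter Topology

lemma Sp_mono {a c a' c' : ℤ} (h1 : a' ≤ a) (h2 : c ≤ c') : Sp a c ≤ Sp a' c' := by
  refine Submodule.span_mono ?_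
  rintro f ⟨m, hm1, hm2, rfl⟩
  exact ⟨m, h1.trans hm1, hm2.trans h2, rfl⟩

lemma e_mem_Sp {a c m : ℤ} (h1 : a ≤ m) (h2 : m ≤ c) : (fun t : ℝ => ex (m * t)) ∈ Sp a c := by
  exact Submodule.subset_span ⟨m, h1, h2, rfl⟩

lemma Spec_ind {a c : ℤ} {P : (ℝ → ℂ) → Prop} {f : ℝ → ℂ} (hf : f ∈ Sp a c)
    (he : ∀ m : ℤ, a ≤ m → m ≤ c → P (fun t : ℝ => ex (m * t))) (h0 : P (fun _ => 0))
    (hadd : ∀ f g, f ∈ Sp a c → g ∈ Sp a c → P f → P g → P (fun t => f t + g t))
    (hsm : ∀ (z : ℂ) f, f ∈ Sp a c → P f → P (fun t => z * f t)) : P f := by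
  refine Submodule.span_induction (p := fun f _ => P f) ?_ h0 hadd hsm hf
  rintro f ⟨m, h1, h2, rfl⟩
  exact he m h1 h2

lemma Spec_zero {a c : ℤ} : (fun _ => 0) ∈ Sp a c := (Sp a c).zero_mem

lemma Spec_add {a c : ℤ} {f g : ℝ → ℂ} (hf : f ∈ Sp a c) (hg : g ∈ Sp a c) :
    (fun t => f t + g t) ∈ Sp a c := (Sp a c).add_mem hf hg

lemma Spec_smul {a c : ℤ} {f : ℝ → ℂ} (z : ℂ) (hf : f ∈ Sp a c) :
    (fun t => z * f t) ∈ Sp a c := (Sp a c).smul_mem z hf

lemma Spec_sum {a c : ℤ} {α : Type} (s : Finset α) {f : α → ℝ → ℂ} (hf : ∀ i ∈ s, f i ∈ Sp a c) :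
    (fun t => ∑ i ∈ s, f i t) ∈ Sp a c := by
  have h := (Sp a c).sum_mem hf
  rwa [Finset.sum_fn] at h

lemma Spec_ee (m l : ℤ) (t : ℝ) : ex (m * t) * ex (l * t) = ex (((m + l : ℤ) : ℝ) * t) := by
  rw [← ex_add]
  push_cast
  ring_nf

lemma Spec_zpow (m : ℤ) (t : ℝ) : ex (m * t) = ex t ^ m := by
  unfold ex
  rw [← Complex.exp_int_mul]
  push_cast
  ring_nf

lemma Sp_mul {a c a' c' : ℤ} {f g : ℝ → ℂ} (hf : f ∈ Sp a c) (hg : g ∈ Sp a' c') :
    (fun t => f t * g t) ∈ Sp (a + a') (c + c') := by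
  refine Spec_ind (P := fun f => (fun t => f t * g t) ∈ Sp (a + a') (c + c')) hf ?_ ?_ ?_ ?_
  · intro m h1 h2
    refine Spec_ind (P := fun g => (fun t : ℝ => ex (m * t) * g t) ∈ Sp (a + a') (c + c'))
      hg ?_ ?_ ?_ ?_
    · intro l h3 h4
      simp only [Spec_ee]
      exact e_mem_Sp (add_le_add h1 h3) (add_le_add h2 h4)
    · simp only [mul_zero]
      exact Spec_zero
    · intro g1 g2 _ _ h3 h4
      simp only [mul_add]
      exact Spec_add h3 h4
    · intro z g1 _ h3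
      simp only [mul_left_comm _ z]
      exact Spec_smul z h3
  · simp only [zero_mul]
    exact Spec_zero
  · intro f1 f2 _ _ h3 h4
    simp only [add_mul]
    exact Spec_add h3 h4
  · intro z f1 _ h3
    simp only [mul_assoc]
    exact Spec_smul z h3

lemma Sp_contDiff {a c : ℤ} {f : ℝ → ℂ} (hf : f ∈ Sp a c) : ContDiff ℝ 1 f := by
  refine Spec_ind (P := fun f => ContDiff ℝ 1 f) hf ?_ contDiff_const
    (fun _ _ _ _ h1 h2 => h1.add h2) (fun _ _ _ h => contDiff_const.mul h)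
  intro m _ _
  unfold ex
  exact Complex.contDiff_exp.comp (contDiff_const.mul
    (Complex.ofRealCLM.contDiff.comp (contDiff_const.mul contDiff_id)))

lemma Sp_periodic {a c : ℤ} {f : ℝ → ℂ} (hf : f ∈ Sp a c) : Function.Periodic f (2 * π) := by
  refine Spec_ind (P := fun f => Function.Periodic f (2 * π)) hf ?_ (fun _ => rfl)
    (fun _ _ _ _ h1 h2 t => by simp only [h1 t, h2 t]) (fun _ _ _ h t => by simp only [h t])
  intro m _ _ t
  simp only [Spec_zpow, ex_periodic t]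

lemma an_of_Sp {c : ℤ} {f : ℝ → ℂ} (hf : f ∈ Sp 0 c) : An f := by
  refine Spec_ind (P := An) hf ?_ (An.const 0) (fun _ _ _ _ h1 h2 => h1.add h2)
    (fun z _ _ h => h.const_mul z)
  intro m hm _
  obtain ⟨k, rfl⟩ := Int.eq_ofNat_of_zero_le hm
  refine ⟨fun z => z ^ k, fun z _ => analyticAt_id.pow k, fun t => ?_⟩
  simp only [Spec_zpow, zpow_natCast]

lemma Spec_cont {a c : ℤ} {f : ℝ → ℂ} (hf : f ∈ Sp a c) : Continuous f :=
  (Sp_contDiff hf).continuous

lemma Spec_pow {d : ℤ} {f : ℝ → ℂ} (hf : f ∈ Sp (-d) d) (j : ℕ) :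
    (fun t => f t ^ j) ∈ Sp (-(j * d)) (j * d) := by
  induction j with
  | zero => simpa [ex_zero] using e_mem_Sp (a := 0) (c := 0) (m := 0) le_rfl le_rfl
  | succ j ih =>
    simp only [pow_succ]
    refine Sp_mono (le_of_eq ?_) (le_of_eq ?_) (Sp_mul ih hf) <;> push_cast <;> ring

lemma Spec_B (n : ℕ) :
    (fun s => (aN n s * aN n (-s)) ^ 14) ∈ Sp (-(14 * n : ℤ)) (14 * n) := by
  have h1 : aN n ∈ Sp 0 n := by
    have h := Spec_smul (n : ℂ)⁻¹ (Spec_sum (Finset.range n) fun m hm =>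
      e_mem_Sp (a := 0) (c := n) (m := m) (by omega) (by have := Finset.mem_range.mp hm; omega))
    refine (congrArg (· ∈ Sp 0 n) ?_).mp h
    funext s
    simp only [aN, Int.cast_natCast, div_eq_inv_mul]
  have h2 : (fun s => aN n (-s)) ∈ Sp (-n) 0 := by
    have h := Spec_smul (n : ℂ)⁻¹ (Spec_sum (Finset.range n) fun m hm =>
      e_mem_Sp (a := -n) (c := 0) (m := -m) (by have := Finset.mem_range.mp hm; omega) (by omega))
    refine (congrArg (· ∈ Sp (-n) 0) ?_).mp h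
    funext s
    simp only [aN, Int.cast_neg, Int.cast_natCast, div_eq_inv_mul, neg_mul, mul_neg]
  have h3 : (fun s => aN n s * aN n (-s)) ∈ Sp (-n) n :=
    Sp_mono (by omega) (by omega) (Sp_mul h1 h2)
  exact Spec_pow h3 14

lemma Ker_mem (N n : ℕ) : Ker N n ∈ Sp (-((N : ℤ) + 14 * n)) ((N : ℤ) + 14 * n) := by
  have h1 : dN N ∈ Sp (-(N : ℤ)) N :=
    Spec_sum _ fun m hm => e_mem_Sp (Finset.mem_Icc.mp hm).1 (Finset.mem_Icc.mp hm).2
  exact Sp_mono (by omega) (by omega) (Sp_mul h1 (Spec_B n))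

lemma Spec_ii {V φ : ℝ → ℂ} (hV : Continuous V) (hφ : Continuous φ) (t : ℝ) :
    IntervalIntegrable (fun s => V s * φ (t - s)) volume (-π) π :=
  (hV.mul (hφ.comp (continuous_const.sub continuous_id))).intervalIntegrable _ _

lemma cv_mem {a c : ℤ} {V φ : ℝ → ℂ} (hV : V ∈ Sp a c) (hφ : Continuous φ)
    (hp : Function.Periodic φ (2 * π)) : cv V φ ∈ Sp a c := by
  refine Spec_ind (P := fun V => cv V φ ∈ Sp a c) hV ?_ ?_ ?_ ?_
  · intro m h1 h2
    have hg : Function.Periodic (fun u : ℝ => ex (((-m : ℤ) : ℝ) * u) * φ u) (2 * π) := fun u => by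
      simp only [Spec_zpow, ex_periodic u, hp u]
    have h := Spec_smul ((1 / (2 * π) : ℂ) *
      ∫ u in (0 : ℝ)..0 + 2 * π, ex (((-m : ℤ) : ℝ) * u) * φ u) (e_mem_Sp h1 h2)
    refine (congrArg (· ∈ Sp a c) ?_).mp h
    funext t
    rw [← hg.intervalIntegral_add_eq (t - π), show t - π + 2 * π = t - -π by ring,
      ← intervalIntegral.integral_comp_sub_left (fun u : ℝ => ex (((-m : ℤ) : ℝ) * u) * φ u) t,
      mul_assoc, ← intervalIntegral.integral_mul_const]
    unfold cv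
    congr 2
    funext s
    rw [mul_right_comm, ← ex_add]
    push_cast
    ring_nf
  · refine (congrArg (· ∈ Sp a c) ?_).mp Spec_zero
    funext t
    simp [cv]
  · intro V W hV hW h1 h2
    refine (congrArg (· ∈ Sp a c) ?_).mp (Spec_add h1 h2)
    funext t
    simp only [cv, add_mul]
    rw [intervalIntegral.integral_add (Spec_ii (Spec_cont hV) hφ t) (Spec_ii (Spec_cont hW) hφ t),
      mul_add]
  · intro z V _ h1
    refine (congrArg (· ∈ Sp a c) ?_).mp (Spec_smul z h1)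
    funext t
    simp only [cv, mul_assoc z, intervalIntegral.integral_const_mul]
    ring

lemma Spec_cv_e (V : ℝ → ℂ) (m : ℤ) : cv V (fun t : ℝ => ex (m * t)) = fun t : ℝ =>
    ((1 / (2 * π) : ℂ) * ∫ s in (-π)..π, V s * ex (((-m : ℤ) : ℝ) * s)) * ex (m * t) := by
  funext t
  rw [mul_assoc, ← intervalIntegral.integral_mul_const]
  unfold cv
  congr 2
  funext s
  rw [mul_assoc, ← ex_add]
  push_cast
  ring_nf

lemma Spec_orth (m : ℤ) : ∫ s in (-π)..π, ex (m * s) = if m = 0 then (2 * π : ℂ) else 0 := by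
  split_ifs with h
  · simp [h, ex_zero, two_mul]
  · have hc : Complex.I * m ≠ 0 := mul_ne_zero Complex.I_ne_zero (Int.cast_ne_zero.mpr h)
    have h1 : ∀ s : ℝ, ex (m * s) = Complex.exp (Complex.I * m * s) := fun s => by
      unfold ex
      push_cast
      ring_nf
    have h2 : ex π = ex (-π) := by rw [← ex_periodic (-π)]; ring_nf
    simp only [h1]
    rw [integral_exp_mul_complex hc, ← h1, ← h1, Spec_zpow, Spec_zpow, h2, sub_self, zero_div]

lemma Spec_rep {N : ℕ} {d m : ℤ} (hm : |m| + d ≤ N) {B : ℝ → ℂ} (hB : B ∈ Sp (-d) d) :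
    ∫ s in (-π)..π, dN N s * B s * ex (((-m : ℤ) : ℝ) * s) = 2 * π * B 0 := by
  have hD : Continuous (dN N) := Spec_cont (a := -N) (c := N)
    (Spec_sum _ fun m hm => e_mem_Sp (Finset.mem_Icc.mp hm).1 (Finset.mem_Icc.mp hm).2)
  have hE : ∀ j : ℤ, Continuous fun s : ℝ => ex (j * s) := fun j =>
    Spec_cont (e_mem_Sp (le_refl j) le_rfl)
  refine Spec_ind (P := fun B =>
    ∫ s in (-π)..π, dN N s * B s * ex (((-m : ℤ) : ℝ) * s) = 2 * π * B 0) hB ?_ ?_ ?_ ?_
  · intro l h1 h2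
    simp only [dN, Finset.sum_mul, Spec_ee]
    rw [intervalIntegral.integral_finsetSum fun j _ => (hE _).intervalIntegrable _ _]
    simp only [Spec_orth]
    have h3 := le_abs_self m
    have h4 := neg_abs_le m
    rw [Finset.sum_eq_single_of_mem (m - l) (Finset.mem_Icc.mpr (by omega))
      fun j _ hj => if_neg (by omega), if_pos (by omega), mul_zero, ex_zero, mul_one]
  · simp
  · intro f g hf hg h1 h2
    simp only [mul_add, add_mul]
    rw [← h1, ← h2]
    exact intervalIntegral.integral_add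
      (((hD.mul (Spec_cont hf)).mul (hE _)).intervalIntegrable _ _)
      (((hD.mul (Spec_cont hg)).mul (hE _)).intervalIntegrable _ _)
  · intro z f _ h1
    simp only [mul_left_comm _ z, mul_assoc z, intervalIntegral.integral_const_mul]
    rw [h1]

lemma cv_Ker_e {N n : ℕ} (hn : 1 ≤ n) {m : ℤ} (hm : |m| + 14 * n ≤ N) :
    cv (Ker N n) (fun t : ℝ => ex (m * t)) = fun t : ℝ => ex (m * t) := by
  rw [Spec_cv_e]
  funext t
  have h := Spec_rep hm (Spec_B n)
  have h0 : aN n 0 = 1 := by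
    have : (n : ℂ) ≠ 0 := Nat.cast_ne_zero.mpr (by omega)
    simp [aN, ex_zero, this]
  have hπ : (2 * π : ℂ) ≠ 0 := by exact_mod_cast Real.two_pi_pos.ne'
  simp only [neg_zero, h0, one_pow, mul_one] at h
  unfold Ker
  rw [h, one_div, inv_mul_cancel₀ hπ, one_mul]

lemma integral_Ker {N n : ℕ} (hn : 1 ≤ n) (hN : 14 * n ≤ N) :
    ∫ s in (-π)..π, Ker N n s = 2 * π := by
  have h := congrFun (cv_Ker_e (N := N) hn (m := 0) (by simpa using by exact_mod_cast hN)) 0
  have hπ : (2 * π : ℂ) ≠ 0 := by exact_mod_cast Real.two_pi_pos.ne'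
  simp only [cv, Int.cast_zero, zero_mul, ex_zero, mul_one] at h
  rwa [one_div, inv_mul_eq_one₀ hπ, eq_comm] at h

lemma Spec_G0 (k : ℕ) : Gk k (fun _ => 0) = fun _ => 0 := by
  funext t
  simp [Gk, cv]

lemma Spec_Gadd (k : ℕ) {a c : ℤ} {f g : ℝ → ℂ} (hf : f ∈ Sp a c) (hg : g ∈ Sp a c) :
    Gk k (fun t => f t + g t) = fun t => Gk k f t + Gk k g t := by
  funext t
  have hV := Spec_cont (Ker_mem (42 * 2 ^ k) (2 ^ k))
  simp only [Gk, cv, mul_add]
  rw [intervalIntegral.integral_add (Spec_ii hV (Spec_cont hf) t) (Spec_ii hV (Spec_cont hg) t),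
    mul_add]

lemma Spec_Gsm (k : ℕ) (z : ℂ) (f : ℝ → ℂ) :
    Gk k (fun t => z * f t) = fun t => z * Gk k f t := by
  funext t
  simp only [Gk, cv, mul_left_comm _ z, intervalIntegral.integral_const_mul]

lemma Spec_Ge (k : ℕ) {m : ℤ} (h0 : 0 ≤ m) (h1 : m ≤ 28 * 2 ^ k) :
    Gk k (fun t : ℝ => ex (m * t)) = fun t : ℝ => ex (m * t) := by
  refine cv_Ker_e Nat.one_le_two_pow ?_
  rw [abs_of_nonneg h0]
  push_cast
  linarith only [h1]

lemma Gk_mem {d : ℕ} {F : ℝ → ℂ} (hF : F ∈ Sp 0 d) (k : ℕ) : Gk k F ∈ Sp 0 d := by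
  refine Spec_ind (P := fun F => Gk k F ∈ Sp 0 d) hF ?_ ?_ ?_ ?_
  · intro m h1 h2
    rw [Gk, Spec_cv_e]
    exact Spec_smul _ (e_mem_Sp h1 h2)
  · rw [Spec_G0]
    exact Spec_zero
  · intro f g hf hg h1 h2
    rw [Spec_Gadd k hf hg]
    exact Spec_add h1 h2
  · intro z f _ h1
    rw [Spec_Gsm]
    exact Spec_smul z h1

lemma Gk_sub_mem {d : ℕ} {F : ℝ → ℂ} (hF : F ∈ Sp 0 d) (k : ℕ) :
    (fun t => Gk (k + 1) F t - Gk k F t) ∈ Sp (28 * 2 ^ k) d := by
  refine Spec_ind (P := fun F => (fun t => Gk (k + 1) F t - Gk k F t) ∈ Sp (28 * 2 ^ k) d)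
    hF ?_ ?_ ?_ ?_
  · intro m h1 h2
    by_cases h : m ≤ 28 * 2 ^ k
    · have h3 : (0 : ℤ) < 2 ^ k := by positivity
      rw [Spec_Ge k h1 h, Spec_Ge (k + 1) h1 (by rw [pow_succ]; linarith only [h, h3])]
      simp only [sub_self]
      exact Spec_zero
    · simp only [Gk, Spec_cv_e, ← sub_mul]
      exact Spec_smul _ (e_mem_Sp (not_le.mp h).le h2)
  · simp only [Spec_G0, sub_self]
    exact Spec_zero
  · intro f g hf hg h1 h2
    simp only [Spec_Gadd _ hf hg, add_sub_add_comm]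
    exact Spec_add h1 h2
  · intro z f _ h1
    simp only [Spec_Gsm, ← mul_sub]
    exact Spec_smul z h1

lemma Gk_fin {d : ℕ} {F : ℝ → ℂ} (hF : F ∈ Sp 0 d) : ∃ K, Gk K F = F := by
  refine ⟨d, Spec_ind (P := fun F => Gk d F = F) hF ?_ (Spec_G0 d) ?_ ?_⟩
  · intro m h1 h2
    have h3 : (d : ℤ) < 2 ^ d := by exact_mod_cast Nat.lt_two_pow_self
    exact Spec_Ge d h1 (by linarith only [h2, h3])
  · intro f g hf hg h1 h2
    rw [Spec_Gadd d hf hg, h1, h2]
  · intro z f _ h1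
    rw [Spec_Gsm, h1]

lemma an_mul_Uk {d : ℕ} {F : ℝ → ℂ} (hF : F ∈ Sp 0 d) (k : ℕ) {θ : ℝ → ℂ} (hθ : Continuous θ)
    (hp : Function.Periodic θ (2 * π)) :
    An (fun t => (Gk (k + 1) F t - Gk k F t) * Uk k θ t) := by
  have h := Sp_mul (Gk_sub_mem hF k) (cv_mem (Ker_mem (14 * 2 ^ k) (2 ^ k)) hθ hp)
  refine an_of_Sp (Sp_mono (le_of_eq ?_) le_rfl h)
  push_cast
  ring

lemma Uk_differentiable (k : ℕ) {θ : ℝ → ℂ} (hθ : Continuous θ)
    (hp : Function.Periodic θ (2 * π)) : Differentiable ℝ (Uk k θ) := by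
  exact (Sp_contDiff (cv_mem (Ker_mem (14 * 2 ^ k) (2 ^ k)) hθ hp)).differentiable one_ne_zero

lemma Uk_sum {n : ℕ} (k : ℕ) (l : Fin n → ℝ) {θ : Fin n → ℝ → ℂ} (hθ : ∀ j, Continuous (θ j))
    (h1 : ∀ t, ∑ j, (l j : ℂ) * θ j t = 1) (t : ℝ) : ∑ j, (l j : ℂ) * Uk k (θ j) t = 1 := by
  have hV := Spec_cont (Ker_mem (14 * 2 ^ k) (2 ^ k))
  have hπ : (2 * π : ℂ) ≠ 0 := by exact_mod_cast Real.two_pi_pos.ne'
  simp only [Uk, cv, mul_left_comm _ (1 / (2 * π) : ℂ), ← Finset.mul_sum,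
    ← intervalIntegral.integral_const_mul (l _ : ℂ)]
  rw [← intervalIntegral.integral_finsetSum fun j _ => (Spec_ii hV (hθ j) t).const_mul _]
  simp only [mul_left_comm _ (Ker _ _ _), ← Finset.mul_sum, h1, mul_one]
  rw [integral_Ker Nat.one_le_two_pow le_rfl, one_div, inv_mul_cancel₀ hπ]

end Pool.Agent.Work.MP_af796d_an.H
end

-- merged part: Pool.Agent.Work.MP_af796d_an.H.HB1
section
/-!
# Hahn-Banach extension
PLAN.  Work in the real vector space X = XR × XR; p = (g1, g2) stands for g1 + i g2.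
* atom_md.  Let G be a primitive of g.  Put h = ch (t - t'), c = ch (t - y).  The primitive x ↦ ∫_y^x g is periodic (mean zero),
  so we may replace t' by t' + 2π m with |t - t'| ≤ π, and then |t - t'| ≤ 2 h (le_ch').  If c ≤ 4 h: the increment is at most 2 M and
  h/(h + c) ≥ 1/5 (if h = 0 then t = t' and both sides vanish).  If 4 h < c: on the segment ch (ξ - y) ≥ c - |ξ - t| ≥ c/2
  (abs_ch_sub_ch), so |g| ≤ 2M/c there and the increment is ≤ 4 M h / c ≤ 5 M h/(h + c).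
* Define Dec p s: there are n, l y : Fin n → ℝ, q : Fin n → X with p = sum q, s = sum l, and for all i both components of q i satisfy
  the two atom bounds at y i with M = l i (an inductive predicate is also fine).  Every p has a decomposition (n = 1, M = 2π B + 2 B:
  the primitive is periodic so bounded by 2π B).  N p = sInf of the set of s.  N is subadditive (concatenate) and positively homogeneous.
* On the submodule Y of p such that there are d and F in Sp 0 d with deriv F t = g1 t + i g2 t for all t, the linear functional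
  f p = ∫_0^{2π} g1 b (defined and linear on all of X since g1 is bounded measurable) satisfies f p ≤ 20 K N p:
  for a decomposition, F t - F t' = ∫_{t'}^t (g1 + i g2) (F is C1), so ‖F t - F t'‖ ≤ sum 20 l i h/(h + c_i) by atom_md;
  add one more index with weight ε > 0 to get CD.pos; f p = (pr b F).re ≤ ‖pr b F‖ ≤ K (20 s + ε); let ε → 0 (K ≥ 0 assumed).
* exists_extension_of_le_sublinear with the sublinear function 20 K N gives Λ on X with Λ ≤ 20 K N, equal to f on Y.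
  Λ1 g = Λ (g, 0), Λ2 g = Λ (0, g).  For an atom g with bound M, N (g, 0) ≤ M and N (-g, 0) ≤ M (M ≥ 0 from x = y).
-/

set_option autoImplicit false

namespace Pool.Agent.Work.MP_af796d_an.H

open MeasureTheory Set Real Metric Filter Topology

lemma HB1_ii {g : ℝ → ℝ} (hg : g ∈ XR) (a c : ℝ) : IntervalIntegrable g volume a c := by
  obtain ⟨h1, -, ⟨B, hB⟩, -⟩ := hg
  exact bdd_intervalIntegrable h1 hB a c

lemma HB1_per {g : ℝ → ℝ} (hg : g ∈ XR) (t : ℝ) (m : ℤ) :
    ∫ s in t..(t + m • (2 * π)), g s = 0 := by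
  rw [hg.2.1.intervalIntegral_add_zsmul_eq m t (HB1_ii hg), hg.2.1.intervalIntegral_add_eq t 0,
    zero_add, hg.2.2.2, smul_zero]

lemma HB1_red (x : ℝ) : ∃ m : ℤ, |x - m • (2 * π)| ≤ π := by
  refine ⟨round (x / (2 * π)), ?_⟩
  have h := abs_sub_round (x / (2 * π))
  have e : x - round (x / (2 * π)) • (2 * π) = (x / (2 * π) - round (x / (2 * π))) * (2 * π) := by
    rw [zsmul_eq_mul]
    field_simp
  rw [e, abs_mul, abs_of_pos two_pi_pos]
  linarith only [h, pi_pos, mul_nonneg_of_nonpos_of_nonpos (Mathlib.Tactic.Linarith.sub_nonpos_of_le h) (le_of_lt (Mathlib.Tactic.Linarith.sub_neg_of_lt pi_pos))]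

lemma HB1_md {g : ℝ → ℝ} (hg : g ∈ XR) {y M : ℝ} (h0 : ∀ x, |∫ t in y..x, g t| ≤ M)
    (h1 : ∀ t, ch (t - y) * |g t| ≤ M) {t t' : ℝ} (ht : |t - t'| ≤ π) :
    |∫ s in t'..t, g s| ≤ 10 * M * (ch (t - t') / (ch (t - t') + ch (t - y))) := by
  have hM : 0 ≤ M := (abs_nonneg _).trans (h0 y)
  have h2 := le_ch' ht
  have hh := ch_nonneg (t - t')
  have hc := ch_nonneg (t - y)
  rcases le_or_gt (ch (t - y)) (4 * ch (t - t')) with k | k
  · rcases hh.eq_or_lt with e | e
    · have : t - t' = 0 := abs_nonpos_iff.1 (by linarith only [h2, e])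
      rw [← e, show t = t' by linarith only [this]]
      simp
    · have h3 : |∫ s in t'..t, g s| ≤ 2 * M := by
        rw [← intervalIntegral.integral_interval_sub_left (HB1_ii hg y t) (HB1_ii hg y t')]
        exact (abs_sub _ _).trans (by linarith only [h0, h0 t, h0 t'])
      have h4 : 1 / 5 ≤ ch (t - t') / (ch (t - t') + ch (t - y)) := by
        rw [le_div_iff₀ (by linarith)]
        linarith only [k]
      linarith only [h3, hM, h4, mul_nonneg_of_nonpos_of_nonpos (Mathlib.Tactic.Linarith.sub_nonpos_of_le hM) (Mathlib.Tactic.Linarith.sub_nonpos_of_le h4)]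
  · have hc' : 0 < ch (t - y) := by linarith
    have h3 : ‖∫ s in t'..t, g s‖ ≤ 2 * M / ch (t - y) * |t - t'| := by
      refine intervalIntegral.norm_integral_le_of_norm_le_const fun x hx => ?_
      have h4 : |x - t| ≤ |t - t'| := by
        rw [abs_sub_comm x t]
        exact abs_sub_right_of_mem_uIcc (uIoc_subset_uIcc hx)
      have h5 := abs_ch_sub_ch (x - y) (t - y)
      rw [sub_sub_sub_cancel_right] at h5
      have h6 : ch (t - y) / 2 ≤ ch (x - y) := by linarith only [h2, k, h4, h5, (abs_le.1 h5).1]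
      rw [le_div_iff₀ hc', Real.norm_eq_abs]
      (refine le_of_not_gt fun h_nl => ?_; linarith only [h_nl, hM, h6, hh, hc, h1, k, h1 x, abs_nonneg (g x), mul_nonneg_of_nonpos_of_nonpos (Mathlib.Tactic.Linarith.sub_nonpos_of_le hM) (Mathlib.Tactic.Linarith.sub_nonpos_of_le h6), mul_nonneg_of_nonpos_of_nonpos (Mathlib.Tactic.Linarith.sub_nonpos_of_le hh) (le_of_lt (Mathlib.Tactic.Linarith.sub_neg_of_lt h_nl)), mul_nonneg_of_nonpos_of_nonpos (Mathlib.Tactic.Linarith.sub_nonpos_of_le hc) (Mathlib.Tactic.Linarith.sub_nonpos_of_le (h1 x)), mul_pos_of_neg_of_neg (Mathlib.Tactic.Linarith.sub_neg_of_lt k) (Mathlib.Tactic.Linarith.sub_neg_of_lt h_nl), mul_nonneg_of_nonpos_of_nonpos (Mathlib.Tactic.Linarith.sub_nonpos_of_le h6) (le_of_lt (Mathlib.Tactic.Linarith.sub_neg_of_lt h_nl))])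
    refine h3.trans ?_
    have h4 : 2 * M / ch (t - y) * |t - t'| ≤ 2 * M / ch (t - y) * (2 * ch (t - t')) :=
      mul_le_mul_of_nonneg_left (by linarith only [h2]) (by positivity)
    refine h4.trans ?_
    rw [div_mul_eq_mul_div, ← mul_div_assoc, div_le_div_iff₀ hc' (by linarith only [hh, k])]
    have := mul_nonneg hM hh
    linarith only [hc, this, k, mul_nonneg_of_nonpos_of_nonpos (Mathlib.Tactic.Linarith.sub_nonpos_of_le hc) (Mathlib.Tactic.Linarith.sub_nonpos_of_le this), mul_nonneg_of_nonpos_of_nonpos (le_of_lt (Mathlib.Tactic.Linarith.sub_neg_of_lt k)) (Mathlib.Tactic.Linarith.sub_nonpos_of_le this)]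

lemma atom_md {g : ℝ → ℝ} (hg : g ∈ XR) {y M : ℝ} (h0 : ∀ x, |∫ t in y..x, g t| ≤ M)
    (h1 : ∀ t, ch (t - y) * |g t| ≤ M) (t t' : ℝ) :
    |∫ s in t'..t, g s| ≤ 10 * M * (ch (t - t') / (ch (t - t') + ch (t - y))) := by
  obtain ⟨m, hm⟩ := HB1_red (t - t')
  rw [sub_sub] at hm
  have h := HB1_md hg h0 h1 hm
  rw [← sub_sub, ch_periodic.sub_zsmul_eq] at h
  rwa [← intervalIntegral.integral_add_adjacent_intervals (HB1_ii hg t' (t' + m • (2 * π)))
    (HB1_ii hg _ t), HB1_per hg, zero_add]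

/-- the increments of the primitives are dominated by a sum of atoms of total weight `s`. -/
def HB1_D (p : XR × XR) (s : ℝ) : Prop :=
  ∃ (n : ℕ) (l y : Fin n → ℝ), (∀ i, 0 ≤ l i) ∧ ∑ i, l i = s ∧ ∀ t t',
    |∫ x in t'..t, (p.1 : ℝ → ℝ) x| + |∫ x in t'..t, (p.2 : ℝ → ℝ) x| ≤
      ∑ i, l i * (ch (t - t') / (ch (t - t') + ch (t - y i)))

lemma HB1_nn {p : XR × XR} {s : ℝ} (h : HB1_D p s) : 0 ≤ s := by
  obtain ⟨n, l, y, h1, rfl, -⟩ := h
  exact Finset.sum_nonneg fun i _ => h1 i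

lemma HB1_add {p q : XR × XR} {s r : ℝ} (h : HB1_D p s) (h' : HB1_D q r) :
    HB1_D (p + q) (s + r) := by
  obtain ⟨n, l, y, h1, rfl, h3⟩ := h
  obtain ⟨n', l', y', h1', rfl, h3'⟩ := h'
  refine ⟨n + n', Fin.append l l', Fin.append y y', fun i => ?_, ?_, fun t t' => ?_⟩
  · refine Fin.addCases (fun i => ?_) (fun i => ?_) i
    · rw [Fin.append_left]; exact h1 i
    · rw [Fin.append_right]; exact h1' i
  · simp only [Fin.sum_univ_add, Fin.append_left, Fin.append_right]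
  · simp only [Fin.sum_univ_add, Fin.append_left, Fin.append_right, Prod.fst_add, Prod.snd_add,
      Submodule.coe_add, Pi.add_apply]
    rw [intervalIntegral.integral_add (HB1_ii p.1.2 _ _) (HB1_ii q.1.2 _ _),
      intervalIntegral.integral_add (HB1_ii p.2.2 _ _) (HB1_ii q.2.2 _ _)]
    linarith only [h3, h3', h3 t t', h3' t t',
      abs_add_le (∫ x in t'..t, (p.1 : ℝ → ℝ) x) (∫ x in t'..t, (q.1 : ℝ → ℝ) x),
      abs_add_le (∫ x in t'..t, (p.2 : ℝ → ℝ) x) (∫ x in t'..t, (q.2 : ℝ → ℝ) x)]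

lemma HB1_smul {p : XR × XR} {s : ℝ} (h : HB1_D p s) (c : ℝ) : HB1_D (c • p) (|c| * s) := by
  obtain ⟨n, l, y, h1, rfl, h3⟩ := h
  refine ⟨n, fun i => |c| * l i, y, fun i => mul_nonneg (abs_nonneg c) (h1 i),
    (Finset.mul_sum _ _ _).symm, fun t t' => ?_⟩
  simp only [Prod.smul_fst, Prod.smul_snd, Submodule.coe_smul, Pi.smul_apply, smul_eq_mul,
    intervalIntegral.integral_const_mul, abs_mul, mul_assoc, ← Finset.mul_sum, ← mul_add]
  exact mul_le_mul_of_nonneg_left (h3 t t') (abs_nonneg c)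

lemma HB1_swap {g g' : XR} {s : ℝ} (h : HB1_D (g, g') s) : HB1_D (g', g) s := by
  obtain ⟨n, l, y, h1, h2, h3⟩ := h
  exact ⟨n, l, y, h1, h2, fun t t' => (add_comm _ _).trans_le (h3 t t')⟩

lemma HB1_atom (g : XR) {y M : ℝ} (h0 : ∀ x, |∫ t in y..x, (g : ℝ → ℝ) t| ≤ M)
    (h1 : ∀ t, ch (t - y) * |(g : ℝ → ℝ) t| ≤ M) : HB1_D (g, 0) (10 * M) := by
  have hM : 0 ≤ M := (abs_nonneg _).trans (h0 y)
  refine ⟨1, fun _ => 10 * M, fun _ => y, fun _ => by positivity, by simp, fun t t' => ?_⟩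
  simpa using atom_md g.2 h0 h1 t t'

lemma HB1_zero {ε : ℝ} (h : 0 ≤ ε) : HB1_D 0 ε := by
  have := HB1_atom 0 (y := 0) (M := ε / 10) (fun x => by simpa using by positivity)
    (fun x => by simpa using by positivity)
  rwa [mul_div_cancel₀ _ (by norm_num)] at this

lemma HB1_ex1 (g : XR) : ∃ s, HB1_D (g, 0) s := by
  obtain ⟨B, hB⟩ := g.2.2.2.1
  have hB0 : 0 ≤ B := (abs_nonneg _).trans (hB 0)
  refine ⟨_, HB1_atom g (y := 0) (M := B * π + 2 * B) (fun x => ?_) fun t => ?_⟩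
  · obtain ⟨m, hm⟩ := HB1_red (x - 0)
    rw [sub_sub] at hm
    rw [← intervalIntegral.integral_add_adjacent_intervals (HB1_ii g.2 0 (0 + m • (2 * π)))
      (HB1_ii g.2 _ x), HB1_per g.2, zero_add]
    have := intervalIntegral.norm_integral_le_of_norm_le_const (a := 0 + m • (2 * π)) (b := x)
      (f := (g : ℝ → ℝ)) (C := B) fun x _ => hB x
    rw [Real.norm_eq_abs] at this
    linarith only [hB0, this, hm, mul_nonneg_of_nonpos_of_nonpos (Mathlib.Tactic.Linarith.sub_nonpos_of_le hB0) (Mathlib.Tactic.Linarith.sub_nonpos_of_le hm)]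
  · have := mul_le_mul (ch_le_two (t - 0)) (hB t) (abs_nonneg _) zero_le_two
    nlinarith [pi_pos]

lemma HB1_ex (p : XR × XR) : {s | HB1_D p s}.Nonempty := by
  obtain ⟨s, hs⟩ := HB1_ex1 p.1
  obtain ⟨r, hr⟩ := HB1_ex1 p.2
  have := HB1_add hs (HB1_swap hr)
  rw [Prod.mk_add_mk, add_zero, zero_add] at this
  exact ⟨_, this⟩

/-- the atomic gauge. -/
noncomputable def HB1_N (p : XR × XR) : ℝ := sInf {s | HB1_D p s}

lemma HB1_le {p : XR × XR} {s : ℝ} (h : HB1_D p s) : HB1_N p ≤ s :=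
  csInf_le ⟨0, fun _ h => HB1_nn h⟩ h

lemma HB1_Nadd (p q : XR × XR) : HB1_N (p + q) ≤ HB1_N p + HB1_N q := by
  rw [← sub_le_iff_le_add]
  refine le_csInf (HB1_ex p) fun s hs => ?_
  rw [sub_le_comm]
  refine le_csInf (HB1_ex q) fun r hr => ?_
  linarith [HB1_le (HB1_add hs hr)]

lemma HB1_Nle {c : ℝ} (hc : 0 < c) (p : XR × XR) : HB1_N (c • p) ≤ c * HB1_N p := by
  rw [← div_le_iff₀' hc]
  refine le_csInf (HB1_ex p) fun s hs => ?_
  have := HB1_le (HB1_smul hs c)
  rwa [abs_of_pos hc, ← div_le_iff₀' hc] at this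

lemma HB1_Nhom {c : ℝ} (hc : 0 < c) (p : XR × XR) : HB1_N (c • p) = c * HB1_N p := by
  refine (HB1_Nle hc p).antisymm ?_
  have := HB1_Nle (inv_pos.2 hc) (c • p)
  rwa [inv_smul_smul₀ hc.ne', le_inv_mul_iff₀ hc] at this

lemma HB1_iib {b : ℝ → ℝ} (hb : IntervalIntegrable b volume 0 (2 * π)) (g : XR) :
    IntervalIntegrable (fun t => (g : ℝ → ℝ) t * b t) volume 0 (2 * π) := by
  obtain ⟨h1, -, ⟨B, hB⟩, -⟩ := g.2
  rw [intervalIntegrable_iff] at hb ⊢
  exact hb.bdd_mul (c := B) h1.aestronglyMeasurable (Eventually.of_forall hB)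

lemma HB1_of {f : ℝ → ℝ} {a c : ℝ} (h : IntervalIntegrable f volume a c) :
    IntervalIntegrable (fun t => (f t : ℂ)) volume a c := ⟨h.1.ofReal, h.2.ofReal⟩

/-- the pairs that are the derivative of an analytic polynomial. -/
def HB1_Y : Submodule ℝ (XR × XR) where
  carrier := {p | ∃ (d : ℕ) (F : ℝ → ℂ), F ∈ Sp 0 d ∧
    ∀ t, deriv F t = ((p.1 : ℝ → ℝ) t : ℂ) + Complex.I * ((p.2 : ℝ → ℝ) t : ℂ)}
  add_mem' := by
    rintro p q ⟨d, F, h1, h2⟩ ⟨d', F', h1', h2'⟩
    refine ⟨d + d', F + F', add_mem (Sp_mono le_rfl (by omega) h1) (Sp_mono le_rfl (by omega) h1'),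
      fun t => ?_⟩
    rw [deriv_add ((Sp_contDiff h1).differentiable one_ne_zero t)
      ((Sp_contDiff h1').differentiable one_ne_zero t), h2, h2']
    simp only [Prod.fst_add, Prod.snd_add, Submodule.coe_add, Pi.add_apply]
    push_cast
    ring
  zero_mem' := ⟨0, 0, zero_mem _, fun t => by simp⟩
  smul_mem' := by
    rintro c p ⟨d, F, h1, h2⟩
    refine ⟨d, (c : ℂ) • F, Submodule.smul_mem _ _ h1, fun t => ?_⟩
    rw [deriv_const_smul _ ((Sp_contDiff h1).differentiable one_ne_zero t), h2]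
    simp only [Prod.smul_fst, Prod.smul_snd, Submodule.coe_smul, Pi.smul_apply, smul_eq_mul]
    push_cast
    ring

lemma HB1_key {b : ℝ → ℝ} {K : ℝ} (hb : IntervalIntegrable b volume 0 (2 * π))
    (h : CoreBd b K) {p : XR × XR} (hp : p ∈ HB1_Y) {s : ℝ} (hs : HB1_D p s) (h0 : 0 < s) :
    ∫ t in (0 : ℝ)..(2 * π), (p.1 : ℝ → ℝ) t * b t ≤ K * s := by
  obtain ⟨d, F, h1, h2⟩ := hp
  obtain ⟨n, l, y, k1, rfl, k3⟩ := hs
  have hF := Sp_contDiff h1
  have k4 := h n l y F ⟨k1, h0, ⟨d, h1⟩, fun t t' => le_trans ?_ (k3 t t')⟩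
  · have e : pr b F = ((∫ t in (0 : ℝ)..(2 * π), (p.1 : ℝ → ℝ) t * b t : ℝ) : ℂ) +
        Complex.I * ((∫ t in (0 : ℝ)..(2 * π), (p.2 : ℝ → ℝ) t * b t : ℝ) : ℂ) := by
      rw [← intervalIntegral.integral_ofReal, ← intervalIntegral.integral_ofReal,
        ← intervalIntegral.integral_const_mul, ← intervalIntegral.integral_add
          (HB1_of (HB1_iib hb p.1)) ((HB1_of (HB1_iib hb p.2)).const_mul _), pr]
      refine intervalIntegral.integral_congr fun t _ => ?_
      simp only [h2]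
      push_cast
      ring
    have := Complex.re_le_norm (pr b F)
    rw [e] at this k4
    simp only [Complex.add_re, Complex.ofReal_re, Complex.mul_re, Complex.I_re, Complex.I_im,
      Complex.ofReal_im, zero_mul, mul_zero, sub_zero, add_zero] at this
    exact this.trans k4
  · rw [← intervalIntegral.integral_deriv_eq_sub (fun x _ => hF.differentiable one_ne_zero x)
      ((hF.continuous_deriv le_rfl).intervalIntegrable _ _)]
    simp only [h2]
    rw [intervalIntegral.integral_add (HB1_of (HB1_ii p.1.2 _ _))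
      ((HB1_of (HB1_ii p.2.2 _ _)).const_mul _), intervalIntegral.integral_const_mul,
      intervalIntegral.integral_ofReal, intervalIntegral.integral_ofReal]
    refine (norm_add_le _ _).trans ?_
    simp

theorem exists_ext {b : ℝ → ℝ} {K : ℝ} (hb : IntervalIntegrable b volume 0 (2 * π)) (hK : 0 ≤ K)
    (h : CoreBd b K) : ∃ Λ₁ Λ₂ : XR →ₗ[ℝ] ℝ, AtomBd Λ₁ (20 * K) ∧ AtomBd Λ₂ (20 * K) ∧
      ∀ (g₁ g₂ : XR) (d : ℕ) (F : ℝ → ℂ), F ∈ Sp 0 d →
        (∀ t, deriv F t = ((g₁ : ℝ → ℝ) t : ℂ) + Complex.I * ((g₂ : ℝ → ℝ) t : ℂ)) →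
        ∫ t in (0 : ℝ)..(2 * π), (g₁ : ℝ → ℝ) t * b t = Λ₁ g₁ + Λ₂ g₂ := by
  let f : (XR × XR) →ₗ[ℝ] ℝ :=
    { toFun := fun p => ∫ t in (0 : ℝ)..(2 * π), (p.1 : ℝ → ℝ) t * b t
      map_add' := fun p q => by
        rw [← intervalIntegral.integral_add (HB1_iib hb p.1) (HB1_iib hb q.1)]
        simp only [Prod.fst_add, Submodule.coe_add, Pi.add_apply, add_mul]
      map_smul' := fun c p => by
        simp only [Prod.smul_fst, Submodule.coe_smul, Pi.smul_apply, smul_eq_mul, mul_assoc,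
          intervalIntegral.integral_const_mul, RingHom.id_apply] }
  obtain ⟨Λ, h1, h2⟩ := exists_extension_of_le_sublinear (f.toPMap HB1_Y) (fun p => K * HB1_N p)
    (fun c hc p => by rw [HB1_Nhom hc, mul_left_comm])
    (fun p q => by rw [← mul_add]; exact mul_le_mul_of_nonneg_left (HB1_Nadd p q) hK)
    (fun p => by
      show f p ≤ _
      refine le_of_forall_pos_le_add fun ε hε => ?_
      have hδ : 0 < ε / (K + 1) / 2 := by positivity
      obtain ⟨s, hs, hs'⟩ := exists_lt_of_csInf_lt (HB1_ex p) (lt_add_of_pos_right _ hδ)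
      have k := HB1_add hs (HB1_zero hδ.le)
      rw [add_zero] at k
      refine (HB1_key hb h p.2 k (by linarith only [hδ, hs, HB1_nn hs])).trans ?_
      have e : ε / (K + 1) * (K + 1) = ε := div_mul_cancel₀ _ (by positivity)
      have := mul_le_mul_of_nonneg_left hs'.le hK
      unfold HB1_N
      linarith only [hδ, e, this])
  have h3 : ∀ p s, HB1_D p s → |Λ p| ≤ K * s := fun p s hs => by
    have k1 := (h2 p).trans (mul_le_mul_of_nonneg_left (HB1_le hs) hK)
    have k2 := (h2 _).trans (mul_le_mul_of_nonneg_left (HB1_le (HB1_smul hs (-1))) hK)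
    rw [map_smul, abs_neg, abs_one, one_mul, smul_eq_mul] at k2
    exact abs_le.2 ⟨by linarith, k1⟩
  have h4 : ∀ M : ℝ, 0 ≤ M → K * (10 * M) ≤ 20 * K * M := fun M hM => by nlinarith [mul_nonneg hK hM]
  refine ⟨Λ.comp (LinearMap.inl ℝ _ _), Λ.comp (LinearMap.inr ℝ _ _), fun g y M k0 k1 => ?_,
    fun g y M k0 k1 => ?_, fun g₁ g₂ d F k1 k2 => ?_⟩
  · exact (h3 _ _ (HB1_atom g k0 k1)).trans (h4 M ((abs_nonneg _).trans (k0 y)))
  · exact (h3 _ _ (HB1_swap (HB1_atom g k0 k1))).trans (h4 M ((abs_nonneg _).trans (k0 y)))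
  · have := h1 ⟨(g₁, g₂), d, F, k1, k2⟩
    simp only [LinearMap.comp_apply, LinearMap.inl_apply, LinearMap.inr_apply, ← map_add,
      Prod.mk_add_mk, add_zero, zero_add]
    exact this.symm

end Pool.Agent.Work.MP_af796d_an.H
end

-- merged part: Pool.Agent.Work.MP_af796d_an.H.HB2
section
/-!
# Functionals bounded on atoms are given by functions
PLAN.  chi x t = fract (-t/2π) - fract ((x - t)/2π) = floor ((x-t)/2π) - floor (-t/2π) - x/2π.
* chi x is in XR (Int.fract is measurable, bounded, periodic; the two integrals over a period agree by translation).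
  chi (x + 2π) = chi x.  chi_sub: for a ≤ c ≤ a + 2π and a < t ≤ a + 2π,
  chi c t - chi a t = (if t ≤ c then 1 else 0) - (c - a)/2π  (floor ((a - t)/2π) = -1, floor ((c - t)/2π) is 0 or -1).
* E x = Λ (chi x).  For 0 ≤ c - a ≤ 2π the function g = chi c - chi a is an atom at y = a with M = 2 (c - a):
  its primitive from a is periodic and on [a, a + 2π] lies between -(c-a) and c - a; for t in (a, a + 2π],
  ch (t - a) |g t| ≤ ch (t-a) * indicator + 2 (c - a)/2π ≤ 2 (c - a); extend by periodicity (exists_window).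
  So E is Lipschitz with constant 2 K (chain for long intervals) and periodic.  u = deriv E is measurable (measurable_deriv), periodic,
  bounded by 2 K, and E c - E a = ∫_a^c u (Lipschitz implies AC, integral_deriv_eq_sub).
* For continuous g in XR and the uniform partition t_i = 2π i / N put g_N = sum_i g (t_i) • (chi t_{i+1} - chi t_i) in XR.  On (t_i, t_{i+1}]
  g_N = g (t_i) - m_N with m_N = (1/N) sum g (t_i), and |m_N| ≤ ω_N because ∫ g = 0, where ω_N is the oscillation of g at scale 2π/N.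
  So |g - g_N| ≤ 2 ω_N everywhere (periodicity), g - g_N is an atom with M = 4π ω_N, Λ g_N = sum g (t_i) ∫_{t_i}^{t_{i+1}} u,
  and |Λ g_N - ∫ g u| ≤ ω_N * 2π * 2K.  Let N → ∞ (uniform continuity on [0, 2π]).
-/

set_option autoImplicit false

namespace Pool.Agent.Work.MP_af796d_an.H

open MeasureTheory Set Real Metric Filter Topology

/-- periodised, mean zero indicator function of `(0, x]`. -/
noncomputable def chi (x t : ℝ) : ℝ := Int.fract (-t / (2 * π)) - Int.fract ((x - t) / (2 * π))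

lemma chi_mem (x : ℝ) : chi x ∈ XR := by
  have hP : (0 : ℝ) < 2 * π := by positivity
  obtain ⟨φ, hφ⟩ : ∃ φ : ℝ → ℝ, ∀ t, φ t = Int.fract (-t / (2 * π)) := ⟨_, fun _ => rfl⟩
  have e : chi x = fun t => φ t - φ (t - x) := funext fun t => by rw [chi, hφ, hφ, neg_sub]
  have m : Measurable φ := by
    rw [show φ = fun t => Int.fract (-t / (2 * π)) from funext hφ]
    exact (measurable_neg.div_const _).fract
  have p : Function.Periodic φ (2 * π) := fun t => by
    rw [hφ, hφ, show -(t + 2 * π) / (2 * π) = -t / (2 * π) - 1 by field_simp; ring,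
      Int.fract_sub_one]
  have b : ∀ t, |φ t| ≤ 1 := fun t => by
    rw [hφ, abs_of_nonneg (Int.fract_nonneg _)]
    exact (Int.fract_lt_one _).le
  have m' : Measurable fun t => φ (t - x) := m.comp (measurable_id.sub_const x)
  rw [e]
  refine ⟨m.sub m', fun t => ?_, ⟨2, fun t => ?_⟩, ?_⟩
  · beta_reduce
    rw [p t, show t + 2 * π - x = t - x + 2 * π by ring, p]
  · have := abs_sub (φ t) (φ (t - x))
    linarith [b t, b (t - x)]
  · rw [intervalIntegral.integral_sub (bdd_intervalIntegrable m b _ _)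
      (bdd_intervalIntegrable m' (fun t => b _) _ _), intervalIntegral.integral_comp_sub_right,
      show 2 * π - x = 0 - x + 2 * π by ring, p.intervalIntegral_add_eq (0 - x) 0, zero_add,
      sub_self]

lemma chi_sub {a c t : ℝ} (h1 : a ≤ c) (h2 : c ≤ a + 2 * π) (h3 : a < t) (h4 : t ≤ a + 2 * π) :
    chi c t - chi a t = (if t ≤ c then 1 else 0) - (c - a) / (2 * π) := by
  have hP : (0 : ℝ) < 2 * π := by positivity
  have f1 : ∀ s : ℝ, -(2 * π) ≤ s → s < 0 → ⌊s / (2 * π)⌋ = -1 := fun s k1 k2 => by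
    rw [Int.floor_eq_iff]
    push_cast
    exact ⟨by rw [le_div_iff₀ hP]; linarith, by
      rw [neg_add_cancel]; exact div_neg_of_neg_of_pos k2 hP⟩
  have f2 : ∀ s : ℝ, 0 ≤ s → s < 2 * π → ⌊s / (2 * π)⌋ = 0 := fun s k1 k2 => by
    rw [Int.floor_eq_iff]
    push_cast
    exact ⟨by positivity, by rw [zero_add, div_lt_one hP]; exact k2⟩
  have e : (c - a) / (2 * π) = (c - t) / (2 * π) - (a - t) / (2 * π) := by ring
  rw [chi, chi, e]
  unfold Int.fract
  rw [f1 (a - t) (by linarith) (by linarith)]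
  split_ifs with k
  · rw [f2 (c - t) (by linarith) (by linarith)]
    push_cast
    ring
  · rw [f1 (c - t) (by linarith) (by linarith [not_le.1 k])]
    push_cast
    ring

lemma HB2_ii (g : XR) (a b : ℝ) : IntervalIntegrable (g : ℝ → ℝ) volume a b :=
  let ⟨h1, _, ⟨_, h3⟩, _⟩ := g.2
  bdd_intervalIntegrable h1 h3 a b

lemma HB2_atom {Λ : XR →ₗ[ℝ] ℝ} {K : ℝ} (h : AtomBd Λ K) (g : XR) (y M : ℝ)
    (h1 : ∀ x ∈ Ioc y (y + 2 * π), |∫ t in y..x, (g : ℝ → ℝ) t| ≤ M)
    (h2 : ∀ t ∈ Ioc y (y + 2 * π), ch (t - y) * |(g : ℝ → ℝ) t| ≤ M) : |Λ g| ≤ K * M := by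
  have hP : (0 : ℝ) < 2 * π := by positivity
  obtain ⟨-, p, -, z⟩ := g.2
  have p1 : Function.Periodic (fun x => ∫ t in y..x, (g : ℝ → ℝ) t) (2 * π) := fun x => by
    beta_reduce
    rw [p.intervalIntegral_add_eq_add y x (HB2_ii g), p.intervalIntegral_add_eq y 0, zero_add, z,
      add_zero]
  have p2 : Function.Periodic (fun t => ch (t - y) * |(g : ℝ → ℝ) t|) (2 * π) := fun t => by
    beta_reduce
    rw [p t, show t + 2 * π - y = t - y + 2 * π by ring, ch_periodic]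
  refine h g y M (fun x => ?_) fun t => ?_
  · obtain ⟨x', k, e⟩ := p1.exists_mem_Ioc hP x y
    exact (congrArg abs e).trans_le (h1 x' k)
  · obtain ⟨t', k, e⟩ := p2.exists_mem_Ioc hP t y
    exact e.trans_le (h2 t' k)

lemma HB2_int {f : ℝ → ℝ} {a b C : ℝ} (hab : a ≤ b) (h : ∀ t ∈ Ioc a b, |f t| ≤ C) :
    |∫ t in a..b, f t| ≤ C * (b - a) := by
  have := intervalIntegral.norm_integral_le_of_norm_le_const (a := a) (b := b) (C := C) (f := f)
    fun t ht => h t (uIoc_of_le hab ▸ ht)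
  rwa [Real.norm_eq_abs, abs_of_nonneg (sub_nonneg.2 hab)] at this

lemma HB2_sup {Λ : XR →ₗ[ℝ] ℝ} {K : ℝ} (h : AtomBd Λ K) (f : XR) {m ε : ℝ}
    (hf : ∀ t ∈ Ioc 0 (2 * π), |(f : ℝ → ℝ) t - m| ≤ ε) : |Λ f| ≤ K * (2 * ε * (2 * π)) := by
  have hP : (0 : ℝ) < 2 * π := by positivity
  have h3 := pi_gt_three
  have k := HB2_int hP.le hf
  rw [intervalIntegral.integral_sub (HB2_ii f _ _) intervalIntegrable_const, f.2.2.2.2,
    intervalIntegral.integral_const, zero_sub, abs_neg, sub_zero, smul_eq_mul, abs_mul,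
    abs_of_pos hP, mul_comm] at k
  have k1 : |m| ≤ ε := le_of_mul_le_mul_right k hP
  have k0 : 0 ≤ ε := (abs_nonneg _).trans k1
  have k2 : ∀ t ∈ Ioc 0 (2 * π), |(f : ℝ → ℝ) t| ≤ 2 * ε := fun t ht => by
    have := abs_add_le ((f : ℝ → ℝ) t - m) m
    rw [sub_add_cancel] at this
    linarith [hf t ht]
  refine HB2_atom h f 0 _ (fun x hx => ?_) fun t ht => ?_
  · rw [zero_add] at hx
    refine (HB2_int hx.1.le fun t ht => k2 t ⟨ht.1, ht.2.trans hx.2⟩).trans ?_
    exact mul_le_mul_of_nonneg_left (by linarith [hx.2]) (by positivity)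
  · rw [zero_add] at ht
    rw [mul_comm (2 * ε)]
    exact mul_le_mul ((ch_le_two _).trans (by linarith)) (k2 t ht) (abs_nonneg _) hP.le

lemma HB2_lip0 {Λ : XR →ₗ[ℝ] ℝ} {K : ℝ} (h : AtomBd Λ K) {a c : ℝ} (h1 : a ≤ c)
    (h2 : c ≤ a + 2 * π) : |Λ ⟨chi c, chi_mem c⟩ - Λ ⟨chi a, chi_mem a⟩| ≤ K * (2 * (c - a)) := by
  have hP : (0 : ℝ) < 2 * π := by positivity
  have h3 := pi_gt_three
  obtain ⟨g, hg, e⟩ : ∃ g : XR, Λ g = Λ ⟨chi c, chi_mem c⟩ - Λ ⟨chi a, chi_mem a⟩ ∧
      ∀ t, (g : ℝ → ℝ) t = chi c t - chi a t := ⟨_, map_sub Λ _ _, fun _ => rfl⟩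
  obtain ⟨δ, hδ⟩ : ∃ δ, δ = (c - a) / (2 * π) := ⟨_, rfl⟩
  have d0 : 0 ≤ δ := hδ ▸ div_nonneg (sub_nonneg.2 h1) hP.le
  have d1 : δ ≤ 1 := by rw [hδ, div_le_one hP]; linarith only [h2]
  have d2 : δ * (2 * π) = c - a := by rw [hδ, div_mul_cancel₀ _ hP.ne']
  have b1 : ∀ t, a < t → t ≤ c → |(g : ℝ → ℝ) t| ≤ 1 := fun t k1 k2 => by
    rw [e, chi_sub h1 h2 k1 (k2.trans h2), if_pos k2, ← hδ, abs_le]
    constructor <;> linarith only [d1, d0]
  have b2 : ∀ t, c < t → t ≤ a + 2 * π → |(g : ℝ → ℝ) t| ≤ δ := fun t k1 k2 => by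
    rw [e, chi_sub h1 h2 (h1.trans_lt k1) k2, if_neg k1.not_ge, ← hδ, zero_sub, abs_neg,
      abs_of_nonneg d0]
  rw [← hg]
  refine HB2_atom h g a _ (fun x hx => ?_) fun t ht => ?_
  · rcases le_or_gt x c with k | k
    · have := HB2_int hx.1.le fun t ht => b1 t ht.1 (ht.2.trans k)
      linarith
    · have i1 := HB2_int h1 fun t ht => b1 t ht.1 ht.2
      have i2 := HB2_int k.le fun t ht => b2 t ht.1 (ht.2.trans hx.2)
      have i3 : δ * (x - c) ≤ δ * (2 * π) := mul_le_mul_of_nonneg_left (by linarith only [h1, hx, hx.2]) d0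
      rw [← intervalIntegral.integral_add_adjacent_intervals (HB2_ii g a c) (HB2_ii g c x)]
      refine (abs_add_le _ _).trans ?_
      linarith only [d2, i1, i2, i3]
  · rcases le_or_gt t c with k | k
    · have i1 := ch_le_abs (t - a)
      rw [abs_of_pos (sub_pos.2 ht.1)] at i1
      have := mul_le_mul i1 (b1 t ht.1 k) (abs_nonneg _) (sub_pos.2 ht.1).le
      linarith
    · have := mul_le_mul (ch_le_two (t - a)) (b2 t k ht.2) (abs_nonneg _) zero_le_two
      (refine le_of_not_gt fun h_nl => ?_; linarith only [h_nl, d2, h1, h2, h3, this, hP, mul_nonneg_of_nonpos_of_nonpos (Mathlib.Tactic.Linarith.sub_nonpos_of_le h1) (Mathlib.Tactic.Linarith.sub_nonpos_of_le h1), mul_nonneg_of_nonpos_of_nonpos (Mathlib.Tactic.Linarith.sub_nonpos_of_le h1) (Mathlib.Tactic.Linarith.sub_nonpos_of_le h2), mul_nonneg_of_nonpos_of_nonpos (Mathlib.Tactic.Linarith.sub_nonpos_of_le h1) (le_of_lt (Mathlib.Tactic.Linarith.sub_neg_of_lt h3)), mul_nonneg_of_nonpos_of_nonpos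 (Mathlib.Tactic.Linarith.sub_nonpos_of_le h1) (Mathlib.Tactic.Linarith.sub_nonpos_of_le this), mul_nonneg_of_nonpos_of_nonpos (Mathlib.Tactic.Linarith.sub_nonpos_of_le h2) (Mathlib.Tactic.Linarith.sub_nonpos_of_le this), mul_pos_of_neg_of_neg (Mathlib.Tactic.Linarith.sub_neg_of_lt hP) (Mathlib.Tactic.Linarith.sub_neg_of_lt h_nl)])

lemma HB2_per (Λ : XR →ₗ[ℝ] ℝ) :
    Function.Periodic (fun x => Λ ⟨chi x, chi_mem x⟩) (2 * π) := fun x => by
  have hP : (0 : ℝ) < 2 * π := by positivity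
  refine congrArg Λ (Subtype.ext (funext fun t => ?_))
  change chi (x + 2 * π) t = chi x t
  rw [chi, chi, show (x + 2 * π - t) / (2 * π) = (x - t) / (2 * π) + 1 by field_simp; ring,
    Int.fract_add_one]

lemma HB2_lip {Λ : XR →ₗ[ℝ] ℝ} {K : ℝ} (h : AtomBd Λ K) (hK : 0 ≤ K) :
    LipschitzWith (2 * K).toNNReal fun x => Λ ⟨chi x, chi_mem x⟩ := by
  have hP : (0 : ℝ) < 2 * π := by positivity
  have key : ∀ a c, a ≤ c → |Λ ⟨chi c, chi_mem c⟩ - Λ ⟨chi a, chi_mem a⟩| ≤ 2 * K * (c - a) :=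
    fun a c h1 => by
      rcases le_or_gt c (a + 2 * π) with k | k
      · exact (HB2_lip0 h h1 k).trans_eq (by ring)
      · obtain ⟨c', k', e⟩ := (HB2_per Λ).exists_mem_Ioc hP c a
        rw [e]
        refine (HB2_lip0 h k'.1.le k'.2).trans ?_
        linarith only [hK, k, k', k'.2, mul_nonneg_of_nonpos_of_nonpos (Mathlib.Tactic.Linarith.sub_nonpos_of_le hK) (le_of_lt (Mathlib.Tactic.Linarith.sub_neg_of_lt k)), mul_nonneg_of_nonpos_of_nonpos (Mathlib.Tactic.Linarith.sub_nonpos_of_le hK) (Mathlib.Tactic.Linarith.sub_nonpos_of_le k'.right)]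
  refine LipschitzWith.of_dist_le' fun x y => ?_
  rw [Real.dist_eq, Real.dist_eq]
  rcases le_total x y with k | k
  · rw [abs_sub_comm, abs_sub_comm x, abs_of_nonneg (sub_nonneg.2 k)]
    exact key x y k
  · rw [abs_of_nonneg (sub_nonneg.2 k)]
    exact key y x k

lemma HB2_step {g : ℝ → ℝ} {τ : ℕ → ℝ} (hτ : Monotone τ) {N : ℕ} {t ε : ℝ} (h0 : τ 0 < t)
    (h1 : t ≤ τ N) (h : ∀ i < N, τ i < t → t ≤ τ (i + 1) → |g t - g (τ i)| ≤ ε) :
    |g t - ∑ i ∈ Finset.range N, g (τ i) *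
      ((if t ≤ τ (i + 1) then 1 else 0) - if t ≤ τ i then 1 else 0)| ≤ ε := by
  have s := Finset.sum_range_sub (fun i => if t ≤ τ i then (1 : ℝ) else 0) N
  rw [if_pos h1, if_neg h0.not_ge, sub_zero] at s
  have e : g t - ∑ i ∈ Finset.range N, g (τ i) *
      ((if t ≤ τ (i + 1) then 1 else 0) - if t ≤ τ i then 1 else 0) =
      ∑ i ∈ Finset.range N, (g t - g (τ i)) *
        ((if t ≤ τ (i + 1) then 1 else 0) - if t ≤ τ i then 1 else 0) := by
    simp only [sub_mul, Finset.sum_sub_distrib]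
    rw [← Finset.mul_sum, s, mul_one]
  have e' : ∑ i ∈ Finset.range N, ε *
      ((if t ≤ τ (i + 1) then 1 else 0) - if t ≤ τ i then 1 else 0) = ε := by
    rw [← Finset.mul_sum, s, mul_one]
  rw [e]
  refine (Finset.abs_sum_le_sum_abs _ _).trans ((Finset.sum_le_sum fun i hi => ?_).trans_eq e')
  by_cases k : t ≤ τ i
  · rw [if_pos k, if_pos (k.trans (hτ i.le_succ))]
    simp
  · by_cases k' : t ≤ τ (i + 1)
    · rw [if_neg k, if_pos k', sub_zero, mul_one, mul_one]
      exact h i (Finset.mem_range.1 hi) (not_le.1 k) k'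
    · rw [if_neg k, if_neg k']
      simp

lemma HB2_approx {Λ : XR →ₗ[ℝ] ℝ} {K B ε : ℝ} (h : AtomBd Λ K) {u : ℝ → ℝ} (hu : Measurable u)
    (hB : ∀ t, |u t| ≤ B)
    (hE : ∀ a c, Λ ⟨chi c, chi_mem c⟩ - Λ ⟨chi a, chi_mem a⟩ = ∫ t in a..c, u t) (g : XR)
    (hg : Continuous (g : ℝ → ℝ)) (hε : 0 < ε) :
    |Λ g - ∫ t in (0 : ℝ)..(2 * π), (g : ℝ → ℝ) t * u t| ≤ ε * ((2 * K + B) * (2 * π)) := by
  have hP : (0 : ℝ) < 2 * π := by positivity
  obtain ⟨δ, hδ, uc⟩ := Metric.uniformContinuousOn_iff.1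
    ((isCompact_Icc (a := (0 : ℝ)) (b := 2 * π)).uniformContinuousOn_of_continuous
      hg.continuousOn) ε hε
  obtain ⟨N, hN⟩ := exists_nat_gt (2 * π / δ)
  have N0 : (0 : ℝ) < N := (div_pos hP hδ).trans hN
  obtain ⟨η, η0, η1, η2⟩ : ∃ η : ℝ, 0 < η ∧ η < δ ∧ N * η = 2 * π :=
    ⟨2 * π / N, div_pos hP N0, by
      rw [div_lt_iff₀ N0, mul_comm δ]
      exact (div_lt_iff₀ hδ).1 hN, mul_div_cancel₀ _ N0.ne'⟩
  obtain ⟨τ, hτ⟩ : ∃ τ : ℕ → ℝ, ∀ i, τ i = i * η := ⟨_, fun _ => rfl⟩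
  have t0 : τ 0 = 0 := by rw [hτ, Nat.cast_zero, zero_mul]
  have tN : τ N = 2 * π := by rw [hτ, η2]
  have ts : ∀ i, τ (i + 1) = τ i + η := fun i => by rw [hτ, hτ]; push_cast; ring
  have tm : Monotone τ := monotone_nat_of_le_succ fun i => by rw [ts]; linarith
  have tI : ∀ i ≤ N, 0 ≤ τ i ∧ τ i ≤ 2 * π := fun i hi => ⟨t0 ▸ tm i.zero_le, tN ▸ tm hi⟩
  have osc : ∀ i < N, ∀ t, τ i < t → t ≤ τ (i + 1) →
      |(g : ℝ → ℝ) t - (g : ℝ → ℝ) (τ i)| ≤ ε := fun i hi t k1 k2 => by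
    have a1 := tI i hi.le
    have a2 := tI (i + 1) hi
    refine (uc t ⟨by linarith only [k1, a1, a1.1], k2.trans a2.2⟩ (τ i) a1 ?_).le
    rw [Real.dist_eq, abs_of_pos (sub_pos.2 k1)]
    rw [ts] at k2
    linarith only [η1, k2]
  obtain ⟨G, hG⟩ : ∃ G : XR, G = ∑ i ∈ Finset.range N, (g : ℝ → ℝ) (τ i) •
    ((⟨chi (τ (i + 1)), chi_mem _⟩ : XR) - ⟨chi (τ i), chi_mem _⟩) := ⟨_, rfl⟩
  have G1 : Λ G = ∑ i ∈ Finset.range N, (g : ℝ → ℝ) (τ i) * ∫ t in τ i..τ (i + 1), u t := by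
    rw [hG, map_sum]
    refine Finset.sum_congr rfl fun i _ => ?_
    rw [map_smul, map_sub, hE, smul_eq_mul]
  have G2 : ∀ t, (G : ℝ → ℝ) t =
      ∑ i ∈ Finset.range N, (g : ℝ → ℝ) (τ i) * (chi (τ (i + 1)) t - chi (τ i) t) := fun t => by
    rw [hG, Submodule.coe_sum, Finset.sum_apply]
    rfl
  have A1 : |Λ (g - G)| ≤ K * (2 * ε * (2 * π)) := by
    refine HB2_sup h (g - G) (m := ∑ i ∈ Finset.range N, (g : ℝ → ℝ) (τ i) * (η / (2 * π)))
      fun t ht => ?_
    refine le_of_eq_of_le (congrArg abs ?_) (HB2_step (g := (g : ℝ → ℝ)) tm (N := N) (t := t)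
      (t0 ▸ ht.1) (tN ▸ ht.2) fun i hi => osc i hi t)
    rw [Submodule.coe_sub, Pi.sub_apply, G2, sub_sub, ← Finset.sum_add_distrib]
    refine congrArg _ (Finset.sum_congr rfl fun i hi => ?_)
    have a1 := tI i (Finset.mem_range.1 hi).le
    have a2 := tI (i + 1) (Finset.mem_range.1 hi)
    have c1 := chi_sub (a := 0) a1.1 (by linarith only [a1, a1.2]) ht.1 (by linarith only [ht, ht.2])
    have c2 := chi_sub (a := 0) a2.1 (by linarith only [a2, a2.2]) ht.1 (by linarith only [ht, ht.2])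
    have c3 : η / (2 * π) = (τ (i + 1) - 0) / (2 * π) - (τ i - 0) / (2 * π) := by
      rw [ts]; ring
    rw [← mul_add, c3]
    refine congrArg _ ?_
    linarith only [c1, c2]
  have iu : ∀ a b, IntervalIntegrable u volume a b := bdd_intervalIntegrable hu hB
  have ig : ∀ a b, IntervalIntegrable (fun t => (g : ℝ → ℝ) t * u t) volume a b :=
    fun a b => (iu a b).continuousOn_mul hg.continuousOn
  have A2 : |Λ G - ∫ t in (0 : ℝ)..(2 * π), (g : ℝ → ℝ) t * u t| ≤ ε * B * (2 * π) := by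
    have s := intervalIntegral.sum_integral_adjacent_intervals (a := τ) (n := N)
      fun k _ => ig (τ k) (τ (k + 1))
    rw [t0, tN] at s
    rw [← s, G1, ← Finset.sum_sub_distrib]
    refine (Finset.abs_sum_le_sum_abs _ _).trans ((Finset.sum_le_card_nsmul _ _ (ε * B * η)
      fun i hi => ?_).trans_eq ?_)
    · rw [← intervalIntegral.integral_const_mul,
        ← intervalIntegral.integral_sub ((iu _ _).const_mul _) (ig _ _)]
      refine (HB2_int (C := ε * B) (tm i.le_succ) fun t ht => ?_).trans_eq (by rw [ts]; ring)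
      rw [← sub_mul, abs_mul, abs_sub_comm]
      exact mul_le_mul (osc i (Finset.mem_range.1 hi) t ht.1 ht.2) (hB t) (abs_nonneg _) hε.le
    · rw [Finset.card_range, nsmul_eq_mul, ← η2]
      ring
  rw [map_sub] at A1
  have := abs_sub_le (Λ g) (Λ G) (∫ t in (0 : ℝ)..(2 * π), (g : ℝ → ℝ) t * u t)
  linarith only [A1, A2, this]

theorem exists_rep {Λ : XR →ₗ[ℝ] ℝ} {K : ℝ} (h : AtomBd Λ K) : ∃ u : ℝ → ℝ, Measurable u ∧
    Function.Periodic u (2 * π) ∧ (∃ B, ∀ t, |u t| ≤ B) ∧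
    (∀ a c, Λ ⟨chi c, chi_mem c⟩ - Λ ⟨chi a, chi_mem a⟩ = ∫ t in a..c, u t) ∧
    ∀ g : XR, Continuous (g : ℝ → ℝ) → Λ g = ∫ t in (0 : ℝ)..(2 * π), (g : ℝ → ℝ) t * u t := by
  have hK : 0 ≤ K := by
    have := h 0 0 1 (fun x => by simp) fun t => by simp
    rwa [map_zero, abs_zero, mul_one] at this
  have L := HB2_lip h hK
  have hB : ∀ t, |deriv (fun x => Λ ⟨chi x, chi_mem x⟩) t| ≤ (2 * K).toNNReal := fun t =>
    norm_deriv_le_of_lipschitz L
  have hE : ∀ a c, Λ ⟨chi c, chi_mem c⟩ - Λ ⟨chi a, chi_mem a⟩ =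
      ∫ t in a..c, deriv (fun x => Λ ⟨chi x, chi_mem x⟩) t := fun a c =>
    (L.lipschitzOnWith.absolutelyContinuousOnInterval.integral_deriv_eq_sub).symm
  refine ⟨_, measurable_deriv _, fun t => ?_, ⟨_, hB⟩, hE, fun g hg => ?_⟩
  · rw [← deriv_comp_add_const, (HB2_per Λ).funext]
  · obtain ⟨C, hC, k⟩ : ∃ C : ℝ, 0 ≤ C ∧ ∀ ε > 0, |Λ g - ∫ t in (0 : ℝ)..(2 * π),
        (g : ℝ → ℝ) t * deriv (fun x => Λ ⟨chi x, chi_mem x⟩) t| ≤ ε * C :=
      ⟨_, by positivity, fun ε hε => HB2_approx h (measurable_deriv _) hB hE g hg hε⟩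
    refine sub_eq_zero.1 (abs_nonpos_iff.1 (le_of_forall_pos_le_add fun η hη => ?_))
    refine (k (η / (C + 1)) (by positivity)).trans ?_
    rw [zero_add, div_mul_eq_mul_div, div_le_iff₀ (by positivity)]
    linarith only [hη]

end Pool.Agent.Work.MP_af796d_an.H
end

-- merged part: Pool.Agent.Work.MP_af796d_an.H.Final
section
/-! Reduction of the final statements to good lifts (both orientations). -/

set_option autoImplicit false

namespace Pool.Agent.Work.MP_af796d_an.H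

open MeasureTheory Set Real Metric

/-- stage 1 for good lifts. -/
def Stage1 : Prop := ∀ Φ : ℝ → ℝ, Good Φ → (PresL Φ ↔ HSL Φ)

/-- stage 2 for good lifts. -/
def Stage2 : Prop :=
  ∀ Φ Θ : ℝ → ℝ, Good Φ → Good Θ → (∀ t, Θ (Φ t) = t) → HSL Φ → PresL Θ

lemma Final_presL (φ : Circle ≃ₜ Circle) {Φ : ℝ → ℝ}
    (h : ∀ t, φ (Circle.exp t) = Circle.exp (Φ t)) :
    PresL Φ ↔ ∀ u ∈ ReA, u ∘ φ.symm ∈ ReA := by
  constructor
  · rintro H u ⟨f, hf, hfu⟩
    obtain ⟨F, hF, hFf⟩ := H f hf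
    refine ⟨F, hF, fun z => ?_⟩
    obtain ⟨t, ht⟩ := exists_ex (φ.symm z)
    have e : z = Circle.exp (Φ t) := by rw [← h, ht, Homeomorph.apply_symm_apply]
    rw [Function.comp, hfu, ← ht, e, coe_exp_eq, coe_exp_eq, hFf]
  · intro H f hf
    obtain ⟨F, hF, hFu⟩ := H (fun z => (f z).re) ⟨f, hf, fun _ => rfl⟩
    refine ⟨F, hF, fun t => ?_⟩
    have e := hFu (φ (Circle.exp t))
    simp only [Function.comp, Homeomorph.symm_apply_apply] at e
    rw [h, coe_exp_eq, coe_exp_eq] at e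
    exact e.symm

/-- the homeomorphism `z ↦ (ψ z)⁻¹`. -/
noncomputable def Final_rev (ψ : Circle ≃ₜ Circle) : Circle ≃ₜ Circle :=
  ψ.trans (Homeomorph.inv Circle)

lemma Final_rev_apply (ψ : Circle ≃ₜ Circle) (z : Circle) : Final_rev ψ z = (ψ z)⁻¹ := rfl

lemma Final_rev_symm_apply (ψ : Circle ≃ₜ Circle) (z : Circle) :
    (Final_rev ψ).symm z = ψ.symm z⁻¹ := rfl

lemma Final_rev_left (ψ : Circle ≃ₜ Circle) :
    (∀ u ∈ ReA, u ∘ Final_rev ψ ∈ ReA) ↔ ∀ u ∈ ReA, u ∘ ψ ∈ ReA := by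
  constructor
  · intro H u hu
    have := H _ (mem_ReA_comp_inv hu)
    have e : ((fun z => u z⁻¹) ∘ Final_rev ψ) = u ∘ ψ := by
      ext z; simp only [Function.comp, Final_rev_apply, inv_inv]
    rwa [e] at this
  · intro H u hu
    exact H _ (mem_ReA_comp_inv hu)

lemma Final_rev_right (ψ : Circle ≃ₜ Circle) :
    (∀ u ∈ ReA, u ∘ (Final_rev ψ).symm ∈ ReA) ↔ ∀ u ∈ ReA, u ∘ ψ.symm ∈ ReA := by
  constructor
  · intro H u hu
    have := mem_ReA_comp_inv (H u hu)
    have e : (fun z => (u ∘ (Final_rev ψ).symm) z⁻¹) = u ∘ ψ.symm := by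
      ext z; simp only [Function.comp, Final_rev_symm_apply, inv_inv]
    rwa [e] at this
  · intro H u hu
    exact mem_ReA_comp_inv (H u hu)

lemma Final_good {φ : Circle → Circle} (hinj : Function.Injective φ) {Φ b : ℝ → ℝ}
    (hl : ∀ t, φ (Circle.exp t) = Circle.exp (Φ t))
    (hi : ∀ a c, Φ c - Φ a = ∫ t in a..c, Real.exp (b t)) (hb : AInf b) : Good Φ := by
  obtain ⟨-, -, -, hie, -⟩ := hb
  have hc : Continuous Φ := by
    have e : Φ = fun t => Φ 0 + ∫ s in (0 : ℝ)..t, Real.exp (b s) := by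
      ext t; rw [← hi]; ring
    rw [e]
    exact continuous_const.add (intervalIntegral.continuous_primitive hie 0)
  refine good_of_pos hinj hc hl fun s t h1 h2 => ⟨?_, ?_⟩
  · rw [hi]
    exact intervalIntegral.intervalIntegral_pos_of_pos (hie s t) (fun x => Real.exp_pos _) h1
  · by_contra hh
    push Not at hh
    have hp : 0 < 2 * π := by positivity
    obtain ⟨x, hx, hx'⟩ := intermediate_value_Icc h1.le hc.continuousOn
      (show Φ s + 2 * π ∈ Icc (Φ s) (Φ t) from ⟨by linarith, by linarith⟩)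
    have e : Circle.exp (Φ x) = Circle.exp (Φ s) := by rw [hx', Circle.exp_add_two_pi]
    rw [← hl, ← hl] at e
    have := Circle.exp_injOn_Ico (a := s) (b := s + 2 * π) (by linarith)
      ⟨hx.1, by linarith [hx.2]⟩ ⟨le_rfl, by linarith⟩ (hinj e)
    rw [this] at hx'
    linarith

lemma Final_inv {Φ : ℝ → ℝ} (h : Good Φ) :
    ∃ Θ : ℝ → ℝ, Good Θ ∧ (∀ t, Θ (Φ t) = t) ∧ ∀ t, Φ (Θ t) = t := by
  let e : ℝ ≃o ℝ := h.mono.orderIsoOfSurjective Φ h.surj
  have he : ∀ t, e t = Φ t := fun t => rfl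
  have h1 : ∀ t, e.symm (Φ t) = t := fun t => by rw [← he, OrderIso.symm_apply_apply]
  have h2 : ∀ t, Φ (e.symm t) = t := fun t => by rw [← he, OrderIso.apply_symm_apply]
  refine ⟨e.symm, ⟨e.symm.continuous, e.symm.strictMono, fun t => ?_⟩, h1, h2⟩
  apply h.mono.injective
  rw [h.per, h2, h2]

/-- `HS` in terms of good lifts. -/
lemma Final_hs (ψ : Circle ≃ₜ Circle) : HS ψ ↔ ∃ Φ : ℝ → ℝ, Good Φ ∧ HSL Φ ∧
    ((∀ t, ψ (Circle.exp t) = Circle.exp (Φ t)) ∨
      ∀ t, Final_rev ψ (Circle.exp t) = Circle.exp (Φ t)) := by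
  constructor
  · rintro ⟨Ψ, b, u, v, ε, hε | hε, hl, hi, hb, hu, hv, hc⟩
    · subst hε
      simp only [one_mul] at hi
      exact ⟨Ψ, Final_good ψ.injective hl hi hb, ⟨b, u, v, hi, hb, hu, hv, hc⟩, Or.inl hl⟩
    · subst hε
      have hi' : ∀ a c, -Ψ c - -Ψ a = ∫ t in a..c, Real.exp (b t) := fun a c => by
        have := hi a c
        linarith
      have hl' : ∀ t, Final_rev ψ (Circle.exp t) = Circle.exp (-Ψ t) := fun t => by
        rw [Final_rev_apply, hl, Circle.exp_neg]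
      exact ⟨fun t => -Ψ t, Final_good (Final_rev ψ).injective hl' hi' hb,
        ⟨b, u, v, hi', hb, hu, hv, hc⟩, Or.inr hl'⟩
  · rintro ⟨Φ, -, ⟨b, u, v, hi, hb, hu, hv, hc⟩, hl | hl⟩
    · exact ⟨Φ, b, u, v, 1, Or.inl rfl, hl, fun a c => by rw [hi, one_mul], hb, hu, hv, hc⟩
    · refine ⟨fun t => -Φ t, b, u, v, -1, Or.inr rfl, fun t => ?_, fun a c => ?_, hb, hu, hv, hc⟩
      · rw [Circle.exp_neg, ← hl, Final_rev_apply, inv_inv]
      · have := hi a c
        linarith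

/-- stage 1 on the circle. -/
theorem final_one (h1 : Stage1) (ψ : Circle ≃ₜ Circle) :
    (∀ u ∈ ReA, u ∘ ψ.symm ∈ ReA) ↔ HS ψ := by
  rw [Final_hs]
  constructor
  · intro H
    obtain ⟨Φ, hΦ, hl | hl⟩ := exists_good_lift ψ ψ.continuous ψ.injective
    · exact ⟨Φ, hΦ, (h1 Φ hΦ).1 ((Final_presL ψ hl).2 H), Or.inl hl⟩
    · exact ⟨Φ, hΦ, (h1 Φ hΦ).1 ((Final_presL (Final_rev ψ) hl).2 ((Final_rev_right ψ).2 H)),
        Or.inr hl⟩
  · rintro ⟨Φ, hΦ, hs, hl | hl⟩
    · exact (Final_presL ψ hl).1 ((h1 Φ hΦ).2 hs)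
    · exact (Final_rev_right ψ).1 ((Final_presL (Final_rev ψ) hl).1 ((h1 Φ hΦ).2 hs))

lemma Final_two_aux (h2 : Stage2) (φ : Circle ≃ₜ Circle) {Φ : ℝ → ℝ} (hΦ : Good Φ) (hs : HSL Φ)
    (hl : ∀ t, φ (Circle.exp t) = Circle.exp (Φ t)) : ∀ u ∈ ReA, u ∘ φ ∈ ReA := by
  obtain ⟨Θ, hΘ, e1, e2⟩ := Final_inv hΦ
  have hl' : ∀ t, φ.symm (Circle.exp t) = Circle.exp (Θ t) := fun t => by
    rw [Homeomorph.symm_apply_eq, hl, e2]
  have := (Final_presL φ.symm hl').1 (h2 Φ Θ hΦ hΘ e1 hs)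
  simpa only [Homeomorph.symm_symm] using this

/-- stage 2 on the circle. -/
theorem final_two (h2 : Stage2) (ψ : Circle ≃ₜ Circle) (h : HS ψ) : ∀ u ∈ ReA, u ∘ ψ ∈ ReA := by
  obtain ⟨Φ, hΦ, hs, hl | hl⟩ := (Final_hs ψ).1 h
  · exact Final_two_aux h2 ψ hΦ hs hl
  · exact (Final_rev_left ψ).1 (Final_two_aux h2 (Final_rev ψ) hΦ hs hl)

lemma Final_subset (ψ : Circle ≃ₜ Circle) :
    ReA ⊆ (fun u : Circle → ℝ => u ∘ ψ) '' ReA ↔ ∀ u ∈ ReA, u ∘ ψ.symm ∈ ReA := by
  constructor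
  · intro h u hu
    obtain ⟨v, hv, rfl⟩ := h hu
    have e : (v ∘ ψ) ∘ ψ.symm = v := by ext z; simp
    simpa only [e] using hv
  · intro h u hu
    exact ⟨u ∘ ψ.symm, h u hu, by ext z; simp⟩

/-- the final statement if only stage 1 is available. -/
theorem final_stage1 (h1 : Stage1) (ψ : Circle ≃ₜ Circle) :
    (ReA = (fun u : Circle → ℝ => u ∘ ψ) '' ReA ↔ HS ψ ∧ HS ψ.symm) ∧
      (ReA ⊆ (fun u : Circle → ℝ => u ∘ ψ) '' ReA ↔ HS ψ) := by
  refine ⟨?_, by rw [Final_subset, final_one h1]⟩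
  rw [eq_iff_both, final_one h1, ← final_one h1 ψ.symm, Homeomorph.symm_symm, and_comm]

/-- the final statement. -/
theorem final_both (h1 : Stage1) (h2 : Stage2) (ψ : Circle ≃ₜ Circle) :
    (ReA = (fun u : Circle → ℝ => u ∘ ψ) '' ReA ↔ HS ψ) ∧
      (ReA ⊆ (fun u : Circle → ℝ => u ∘ ψ) '' ReA ↔ HS ψ) := by
  refine ⟨?_, by rw [Final_subset, final_one h1]⟩
  rw [eq_iff_both, final_one h1]
  exact ⟨fun h => h.2, fun h => ⟨final_two h2 ψ h, h⟩⟩

/-- the other inclusion. -/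
theorem final_incl (h1 : Stage1) (h2 : Stage2) (ψ : Circle ≃ₜ Circle) :
    (∀ u ∈ ReA, u ∘ ψ ∈ ReA) ↔ HS ψ := by
  refine ⟨fun h => ?_, final_two h2 ψ⟩
  have h3 : HS ψ.symm := (final_one h1 ψ.symm).1 (by simpa only [Homeomorph.symm_symm] using h)
  exact (final_one h1 ψ).1 (final_two h2 ψ.symm h3)

lemma Final_supset (ψ : Circle ≃ₜ Circle) :
    (fun u : Circle → ℝ => u ∘ ψ) '' ReA ⊆ ReA ↔ ∀ u ∈ ReA, u ∘ ψ ∈ ReA := by
  constructor
  · intro h u hu
    exact h ⟨u, hu, rfl⟩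
  · rintro h _ ⟨u, hu, rfl⟩
    exact h u hu

/-- all three forms. -/
theorem final_all (h1 : Stage1) (h2 : Stage2) (ψ : Circle ≃ₜ Circle) :
    (ReA = (fun u : Circle → ℝ => u ∘ ψ) '' ReA ↔ HS ψ) ∧
      (ReA ⊆ (fun u : Circle → ℝ => u ∘ ψ) '' ReA ↔ HS ψ) ∧
      ((fun u : Circle → ℝ => u ∘ ψ) '' ReA ⊆ ReA ↔ HS ψ) :=
  ⟨(final_both h1 h2 ψ).1, (final_both h1 h2 ψ).2, by rw [Final_supset, final_incl h1 h2]⟩

end Pool.Agent.Work.MP_af796d_an.H
end
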