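import Pool.Agent.Work.MP_af796d_an.H.Final

-- merged part: Pool.Agent.Work.MP_af796d_an.H.Tools2
section
/-!
# Pairing with monotone functions, change of variables, integration by parts
PLAN.
* mono_pair.  Layer cake.  Put χ0 = χ + A (values in [0, 2A] on Ioc a b); replace it by a measurable
  version (a monotone function on Ioc a b is a.e. measurable there: aemeasurable_restrict_of_monotoneOn,
  or extend monotonically to the line).  χ0 r = ∫ λ in 0..2A of the indicator of λ < χ0 r.  Fubini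
  (φ integrable, indicator bounded).  For each λ the set of r in Ioc a b with λ < χ0 r is an upper set of
  Ioc a b, so it is Ioc x b or Icc x b up to a null set for some x in Icc a b, and the integral of φ over it
  is ∫_a^b φ - ∫_a^x φ, of size at most 2 M.  Total 4 A M; the constant part gives A M.
  Any other proof (approximation by step functions and Abel summation) is fine.
* anti_pair: apply mono_pair to - χ.
* cov_var: P x = ∫_{S p}^x χ is C1 with derivative χ (continuous), S is absolutely continuous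
  (IntervalIntegrable.absolutelyContinuousOnInterval_intervalIntegral) with derivative w a.e.
  (IntervalIntegrable.ae_hasDerivAt_integral).  P is Lipschitz on the compact range of S, so P ∘ S is
  absolutely continuous (prove a small lemma: Lipschitz on a set containing the range, composed with AC, is AC,
  from absolutelyContinuousOnInterval_iff); then AbsolutelyContinuousOnInterval.integral_deriv_eq_sub.
  For ContinuousOn on a compact interval extend χ by composing with projIcc.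
* ibp: both F and G are AC on uIcc a b with the given a.e. derivatives;
  AbsolutelyContinuousOnInterval.integral_deriv_mul_eq_sub, and congruence a.e.
* prim_of_lip: a function that is Lipschitz on Icc a b is AC (LipschitzOnWith.absolutelyContinuousOnInterval);
  its deriv is bounded by L at interior points (norm_deriv_le_of_lipschitzOn).
-/

set_option autoImplicit false

namespace Pool.Agent.Work.MP_af796d_an.H

open MeasureTheory Set Real Metric Filter Topology

lemma Tools2_upper {φ : ℝ → ℝ} {a b M : ℝ} (hab : a ≤ b) (hφ : IntervalIntegrable φ volume a b)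
    (hM : ∀ x ∈ Icc a b, |∫ t in a..x, φ t| ≤ M) {U : Set ℝ} (hUm : MeasurableSet U)
    (hU : ∀ s t, s ≤ t → s ∈ U → t ∈ U) :
    |∫ t in Ioc a b, U.indicator φ t| ≤ 2 * M := by
  set T : Set ℝ := insert a (Ioc a b \ U) with hT
  have hne : T.Nonempty := ⟨a, mem_insert _ _⟩
  have hbd : ∀ s ∈ T, s ≤ b := by
    intro s hs
    rcases hs with rfl | hs
    · exact hab
    · exact hs.1.2
  have hbdd : BddAbove T := ⟨b, hbd⟩
  set x := sSup T with hx
  have hax : a ≤ x := le_csSup hbdd (mem_insert _ _)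
  have hxb : x ≤ b := csSup_le hne hbd
  have h1 : ∫ t in Ioc a b, U.indicator φ t = ∫ t in Ioc x b, φ t := by
    rw [setIntegral_indicator hUm]
    apply setIntegral_congr_set
    have h0 : ∀ᵐ t : ℝ, t ≠ x := by simp [ae_iff, measure_singleton]
    filter_upwards [h0] with t ht
    apply propext
    change t ∈ Ioc a b ∩ U ↔ t ∈ Ioc x b
    constructor
    · rintro ⟨⟨h1, h2⟩, h3⟩
      refine ⟨?_, h2⟩
      rcases lt_or_gt_of_ne ht with h | h
      · obtain ⟨s, hs, hts⟩ := exists_lt_of_lt_csSup hne h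
        rcases hs with rfl | hs
        · exact absurd h1 (not_lt.mpr hts.le)
        · exact absurd (hU _ _ hts.le h3) hs.2
      · exact h
    · rintro ⟨h1, h2⟩
      refine ⟨⟨lt_of_le_of_lt hax h1, h2⟩, ?_⟩
      by_contra hn
      have : t ≤ x := le_csSup hbdd (Or.inr ⟨⟨lt_of_le_of_lt hax h1, h2⟩, hn⟩)
      exact absurd h1 (not_lt.mpr this)
  rw [h1, ← intervalIntegral.integral_of_le hxb]
  have hx1 : IntervalIntegrable φ volume a x :=
    hφ.mono_set (by rw [uIcc_of_le hax, uIcc_of_le hab]; exact Icc_subset_Icc le_rfl hxb)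
  have h2 := intervalIntegral.integral_interval_sub_left hφ hx1
  rw [← h2]
  have h3 := hM b ⟨hab, le_rfl⟩
  have h4 := hM x ⟨hax, hxb⟩
  have h5 := abs_sub (∫ t in a..b, φ t) (∫ t in a..x, φ t)
  linarith only [h3, h4, h5]

lemma Tools2_mono {φ χ : ℝ → ℝ} {a b M A : ℝ} (hab : a ≤ b) (hφ : IntervalIntegrable φ volume a b)
    (hM : ∀ x ∈ Icc a b, |∫ t in a..x, φ t| ≤ M) (hχ : Monotone χ)
    (hA : ∀ t, |χ t| ≤ A) (hA0 : 0 ≤ A) :
    IntervalIntegrable (fun t => φ t * χ t) volume a b ∧ |∫ t in a..b, φ t * χ t| ≤ 5 * A * M := by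
  have hφ' : IntegrableOn φ (Ioc a b) volume := (intervalIntegrable_iff_integrableOn_Ioc_of_le hab).mp hφ
  have hm : Measurable χ := hχ.measurable
  have hI : IntervalIntegrable (fun t => φ t * χ t) volume a b := by
    rw [intervalIntegrable_iff_integrableOn_Ioc_of_le hab]
    exact Integrable.mul_bdd (c := A) hφ' hm.aestronglyMeasurable
      (Eventually.of_forall fun t => by simpa using hA t)
  refine ⟨hI, ?_⟩
  have hM0 : 0 ≤ M := le_trans (abs_nonneg _) (hM a ⟨le_rfl, hab⟩)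
  set W : Set (ℝ × ℝ) := {p | p.1 < χ p.2 + A} with hW
  have hWm : MeasurableSet W :=
    measurableSet_lt measurable_fst ((hm.comp measurable_snd).add_const A)
  have hK : Integrable (W.indicator (fun p : ℝ × ℝ => φ p.2))
      ((volume.restrict (Ioc 0 (2 * A))).prod (volume.restrict (Ioc a b))) := by
    apply Integrable.indicator _ hWm
    exact Integrable.comp_snd hφ' _
  have hsw := integral_integral_swap
    (f := fun l t => W.indicator (fun p : ℝ × ℝ => φ p.2) (l, t)) hK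
  have h1 : ∀ t, ∫ l in Ioc 0 (2 * A), W.indicator (fun p : ℝ × ℝ => φ p.2) (l, t)
      = φ t * (χ t + A) := by
    intro t
    have h3 := abs_le.mp (hA t)
    have e : (fun l => W.indicator (fun p : ℝ × ℝ => φ p.2) (l, t))
        = (Iio (χ t + A)).indicator (fun _ => φ t) := by
      funext l
      by_cases h : l < χ t + A
      · rw [indicator_of_mem (show (l, t) ∈ W from h), indicator_of_mem (show l ∈ Iio _ from h)]
      · rw [indicator_of_notMem (show (l, t) ∉ W from h),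
          indicator_of_notMem (show l ∉ Iio _ from h)]
    rw [e, setIntegral_indicator measurableSet_Iio]
    have e2 : Ioc 0 (2 * A) ∩ Iio (χ t + A) = Ioo 0 (χ t + A) := by
      ext l
      constructor
      · rintro ⟨⟨h1, _⟩, h2⟩
        exact ⟨h1, h2⟩
      · rintro ⟨h1, h2⟩
        exact ⟨⟨h1, by linarith [h3.2]⟩, h2⟩
    rw [e2, setIntegral_const, Real.volume_real_Ioo_of_le (by linarith [h3.1])]
    simp [mul_comm]
  have h2 : ∀ l, |∫ t in Ioc a b, W.indicator (fun p : ℝ × ℝ => φ p.2) (l, t)| ≤ 2 * M := by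
    intro l
    have e : (fun t => W.indicator (fun p : ℝ × ℝ => φ p.2) (l, t))
        = {t | l < χ t + A}.indicator φ := by
      funext t
      by_cases h : l < χ t + A
      · rw [indicator_of_mem (show (l, t) ∈ W from h),
          indicator_of_mem (show t ∈ {t | l < χ t + A} from h)]
      · rw [indicator_of_notMem (show (l, t) ∉ W from h),
          indicator_of_notMem (show t ∉ {t | l < χ t + A} from h)]
    rw [e]
    apply Tools2_upper hab hφ hM (measurableSet_lt measurable_const (hm.add_const A))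
    intro s t hst hs
    have := hχ hst
    change l < χ s + A at hs
    change l < χ t + A
    linarith
  have h3 : |∫ t in Ioc a b, φ t * (χ t + A)| ≤ 2 * M * (2 * A) := by
    simp_rw [h1] at hsw
    rw [← hsw, ← intervalIntegral.integral_of_le (by linarith only [hA0] : (0 : ℝ) ≤ 2 * A)]
    have := intervalIntegral.norm_integral_le_of_norm_le_const (a := 0) (b := 2 * A) (C := 2 * M)
      (f := fun l => ∫ t in Ioc a b, W.indicator (fun p : ℝ × ℝ => φ p.2) (l, t))
      (fun l _ => by simpa using h2 l)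
    rw [sub_zero, abs_of_nonneg (by linarith : (0 : ℝ) ≤ 2 * A)] at this
    simpa using this
  rw [← intervalIntegral.integral_of_le hab] at h3
  have h4 : ∫ t in a..b, φ t * (χ t + A) = (∫ t in a..b, φ t * χ t) + (∫ t in a..b, φ t) * A := by
    rw [← intervalIntegral.integral_mul_const, ← intervalIntegral.integral_add hI (hφ.mul_const A)]
    congr 1
    funext t
    ring
  have h5 := hM b ⟨hab, le_rfl⟩
  have h6 : |(∫ t in a..b, φ t) * A| ≤ M * A := by
    rw [abs_mul, abs_of_nonneg hA0]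
    exact mul_le_mul_of_nonneg_right h5 hA0
  have h7 : (∫ t in a..b, φ t * χ t) = (∫ t in a..b, φ t * (χ t + A)) - (∫ t in a..b, φ t) * A := by
    linarith only [h4]
  rw [h7]
  have h8 := abs_sub (∫ t in a..b, φ t * (χ t + A)) ((∫ t in a..b, φ t) * A)
  linarith

/-- pairing of a function with bounded primitive and a bounded monotone function. -/
lemma mono_pair {φ χ : ℝ → ℝ} {a b M A : ℝ} (hab : a ≤ b) (hφ : IntervalIntegrable φ volume a b)
    (hM : ∀ x ∈ Icc a b, |∫ t in a..x, φ t| ≤ M) (hχ : MonotoneOn χ (Ioc a b))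
    (hA : ∀ t ∈ Ioc a b, |χ t| ≤ A) (hA0 : 0 ≤ A) :
    IntervalIntegrable (fun t => φ t * χ t) volume a b ∧ |∫ t in a..b, φ t * χ t| ≤ 5 * A * M := by
  classical
  set χ' : ℝ → ℝ := fun t => if t ≤ a then -A else if t ≤ b then χ t else A with hχ'
  have he : ∀ t ∈ Ioc a b, χ' t = χ t := by
    intro t ht
    simp only [hχ', if_neg (not_le.mpr ht.1), if_pos ht.2]
  have hb : ∀ t, |χ' t| ≤ A := by
    intro t
    simp only [hχ']
    split_ifs with h1 h2
    · rw [abs_neg, abs_of_nonneg hA0]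
    · exact hA t ⟨not_le.mp h1, h2⟩
    · rw [abs_of_nonneg hA0]
  have hmono : Monotone χ' := by
    intro s t hst
    by_cases h1 : s ≤ a
    · have : χ' s = -A := by simp only [hχ', if_pos h1]
      rw [this]
      exact (abs_le.mp (hb t)).1
    · by_cases h2 : t ≤ b
      · have hs : s ∈ Ioc a b := ⟨not_le.mp h1, hst.trans h2⟩
        have ht : t ∈ Ioc a b := ⟨lt_of_lt_of_le (not_le.mp h1) hst, h2⟩
        rw [he s hs, he t ht]
        exact hχ hs ht hst
      · have h3 : ¬ t ≤ a := fun h => h1 (hst.trans h)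
        have : χ' t = A := by simp only [hχ', if_neg h3, if_neg h2]
        rw [this]
        exact (abs_le.mp (hb s)).2
  obtain ⟨h1, h2⟩ := Tools2_mono hab hφ hM hmono hb hA0
  have hc : EqOn (fun t => φ t * χ' t) (fun t => φ t * χ t) (uIoc a b) := by
    intro t ht
    rw [uIoc_of_le hab] at ht
    simp only [he t ht]
  refine ⟨h1.congr hc, ?_⟩
  rwa [← intervalIntegral.integral_congr_ae (Eventually.of_forall fun t ht => hc ht)]

lemma anti_pair {φ χ : ℝ → ℝ} {a b M A : ℝ} (hab : a ≤ b) (hφ : IntervalIntegrable φ volume a b)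
    (hM : ∀ x ∈ Icc a b, |∫ t in a..x, φ t| ≤ M) (hχ : AntitoneOn χ (Ioc a b))
    (hA : ∀ t ∈ Ioc a b, |χ t| ≤ A) (hA0 : 0 ≤ A) :
    IntervalIntegrable (fun t => φ t * χ t) volume a b ∧ |∫ t in a..b, φ t * χ t| ≤ 5 * A * M := by
  obtain ⟨h1, h2⟩ := mono_pair (χ := fun t => - χ t) hab hφ hM hχ.neg
    (fun t ht => by rw [abs_neg]; exact hA t ht) hA0
  have e : (fun t => φ t * χ t) = fun t => - (φ t * - χ t) := by
    funext t
    ring
  refine ⟨?_, ?_⟩
  · rw [e]
    exact h1.neg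
  · rw [e, intervalIntegral.integral_neg, abs_neg]
    exact h2

lemma Tools2_congr {F G : ℝ → ℝ} {a b : ℝ} (hF : AbsolutelyContinuousOnInterval F a b)
    (h : ∀ x ∈ uIcc a b, G x = F x) : AbsolutelyContinuousOnInterval G a b := by
  rw [absolutelyContinuousOnInterval_iff] at hF ⊢
  intro ε hε
  obtain ⟨δ, hδ, H⟩ := hF ε hε
  refine ⟨δ, hδ, fun E hE hE2 => ?_⟩
  have := H E hE hE2
  rwa [Finset.sum_congr rfl (fun i hi => by rw [h _ (hE.1 i hi).1, h _ (hE.1 i hi).2])]

lemma Tools2_ac {F f : ℝ → ℝ} {a b : ℝ} (hab : a ≤ b) (hf : IntervalIntegrable f volume a b)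
    (hF : ∀ x ∈ Icc a b, F x = F a + ∫ t in a..x, f t) : AbsolutelyContinuousOnInterval F a b := by
  have h1 := hf.absolutelyContinuousOnInterval_intervalIntegral (c := a) (by simp)
  have h2 : AbsolutelyContinuousOnInterval (fun _ : ℝ => F a) a b :=
    (LipschitzWith.const (F a)).lipschitzOnWith.absolutelyContinuousOnInterval
  refine Tools2_congr (h2.fun_add h1) (fun x hx => ?_)
  rw [uIcc_of_le hab] at hx
  exact hF x hx

lemma Tools2_der {F f : ℝ → ℝ} {a b : ℝ} (hab : a ≤ b) (hf : IntervalIntegrable f volume a b)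
    (hF : ∀ x ∈ Icc a b, F x = F a + ∫ t in a..x, f t) :
    ∀ᵐ x, x ∈ Ioo a b → HasDerivAt F (f x) x := by
  filter_upwards [hf.ae_hasDerivAt_integral] with x hx hx'
  have h1 := (hx (by rw [uIcc_of_le hab]; exact Ioo_subset_Icc_self hx') a (by simp)).const_add (F a)
  refine h1.congr_of_eventuallyEq ?_
  filter_upwards [Icc_mem_nhds hx'.1 hx'.2] with y hy
  exact hF y hy

lemma Tools2_ftc {F f : ℝ → ℝ} {a b : ℝ} (hab : a ≤ b) (hF : AbsolutelyContinuousOnInterval F a b)
    (hd : ∀ᵐ x, x ∈ Ioo a b → HasDerivAt F (f x) x) :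
    IntervalIntegrable f volume a b ∧ ∫ t in a..b, f t = F b - F a := by
  have h0 : ∀ᵐ t : ℝ, t ≠ b := by simp [ae_iff, measure_singleton]
  have he : ∀ᵐ x, x ∈ uIoc a b → deriv F x = f x := by
    filter_upwards [hd, h0] with x hx hxb hx'
    rw [uIoc_of_le hab] at hx'
    exact (hx ⟨hx'.1, lt_of_le_of_ne hx'.2 hxb⟩).deriv
  refine ⟨hF.intervalIntegrable_deriv.congr_ae ?_, ?_⟩
  · exact (ae_restrict_iff' measurableSet_uIoc).mpr he
  · rw [← hF.integral_deriv_eq_sub]
    exact (intervalIntegral.integral_congr_ae he).symm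

lemma Tools2_comp {P S : ℝ → ℝ} {a b C : ℝ} {T : Set ℝ} (hS : AbsolutelyContinuousOnInterval S a b)
    (hT : ∀ x ∈ uIcc a b, S x ∈ T)
    (hL : ∀ x ∈ T, ∀ y ∈ T, dist (P x) (P y) ≤ C * dist x y) (hC : 0 ≤ C) :
    AbsolutelyContinuousOnInterval (fun x => P (S x)) a b := by
  rw [absolutelyContinuousOnInterval_iff] at hS ⊢
  intro ε hε
  obtain ⟨δ, hδ, H⟩ := hS (ε / (C + 1)) (by positivity)
  refine ⟨δ, hδ, fun E hE hE2 => ?_⟩
  have h1 := H E hE hE2
  calc _ ≤ ∑ i ∈ Finset.range E.1, C * dist (S (E.2 i).1) (S (E.2 i).2) :=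
        Finset.sum_le_sum fun i hi => hL _ (hT _ (hE.1 i hi).1) _ (hT _ (hE.1 i hi).2)
    _ = C * ∑ i ∈ Finset.range E.1, dist (S (E.2 i).1) (S (E.2 i).2) := by
        rw [Finset.mul_sum]
    _ ≤ C * (ε / (C + 1)) := mul_le_mul_of_nonneg_left h1.le hC
    _ < (C + 1) * (ε / (C + 1)) := by
        apply mul_lt_mul_of_pos_right (by linarith only []) (by positivity)
    _ = ε := by field_simp

/-- change of variables by an absolutely continuous monotone function. -/
lemma cov_var {S w χ : ℝ → ℝ} {p q : ℝ} (hpq : p ≤ q) (hw : IntervalIntegrable w volume p q)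
    (hw0 : ∀ t, 0 ≤ w t) (hS : ∀ x ∈ Icc p q, S x = S p + ∫ t in p..x, w t)
    (hχ : ContinuousOn χ (Icc (S p) (S q))) :
    IntervalIntegrable (fun t => χ (S t) * w t) volume p q ∧
      ∫ t in p..q, χ (S t) * w t = ∫ x in (S p)..(S q), χ x := by
  have hmem : ∀ x ∈ Icc p q, S x ∈ Icc (S p) (S q) := by
    intro x hx
    have hx1 : IntervalIntegrable w volume p x :=
      hw.mono_set (by rw [uIcc_of_le hx.1, uIcc_of_le hpq]; exact Icc_subset_Icc le_rfl hx.2)
    have h1 : 0 ≤ ∫ t in p..x, w t := intervalIntegral.integral_nonneg hx.1 (fun t _ => hw0 t)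
    have h2 : 0 ≤ ∫ t in x..q, w t := intervalIntegral.integral_nonneg hx.2 (fun t _ => hw0 t)
    have h3 := intervalIntegral.integral_interval_sub_left hw hx1
    have h4 := hS x hx
    have h5 := hS q ⟨hpq, le_rfl⟩
    constructor <;> linarith only [h1, h4, h2, h3, h5]
  have hSpq : S p ≤ S q := (hmem q ⟨hpq, le_rfl⟩).1
  set χ' : ℝ → ℝ := fun x => χ (projIcc (S p) (S q) hSpq x) with hχ'
  have hc : Continuous χ' := by
    have := (continuousOn_iff_continuous_domRestrict.mp hχ).comp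
      (continuous_projIcc (a := S p) (b := S q) (h := hSpq))
    exact this
  have he : ∀ x ∈ Icc (S p) (S q), χ' x = χ x := by
    intro x hx
    simp only [hχ', projIcc_of_mem hSpq hx]
  set P : ℝ → ℝ := fun x => ∫ t in (S p)..x, χ' t with hP
  have hPd : ∀ x, HasDerivAt P (χ' x) x := fun x =>
    (hc.integral_hasStrictDerivAt (S p) x).hasDerivAt
  obtain ⟨C, hC⟩ := isCompact_Icc.exists_bound_of_continuousOn
    (hc.continuousOn (s := Icc (S p) (S q)))
  have hC0 : 0 ≤ C := le_trans (norm_nonneg _) (hC (S p) ⟨le_rfl, hSpq⟩)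
  have hL : ∀ x ∈ Icc (S p) (S q), ∀ y ∈ Icc (S p) (S q), dist (P x) (P y) ≤ C * dist x y := by
    intro x hx y hy
    rw [dist_eq_norm, dist_eq_norm]
    exact (convex_Icc _ _).norm_image_sub_le_of_norm_hasDerivWithin_le
      (fun z _ => (hPd z).hasDerivWithinAt) hC hy hx
  have hSac := Tools2_ac hpq hw hS
  have hac : AbsolutelyContinuousOnInterval (fun x => P (S x)) p q :=
    Tools2_comp hSac (fun x hx => hmem x (by rwa [uIcc_of_le hpq] at hx)) hL hC0
  have hd : ∀ᵐ x, x ∈ Ioo p q → HasDerivAt (fun x => P (S x)) (χ (S x) * w x) x := by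
    filter_upwards [Tools2_der hpq hw hS] with x hx hx'
    have := (hPd (S x)).comp x (hx hx')
    rw [he _ (hmem x (Ioo_subset_Icc_self hx'))] at this
    exact this
  obtain ⟨h1, h2⟩ := Tools2_ftc hpq hac hd
  refine ⟨h1, ?_⟩
  rw [h2]
  simp only [hP, intervalIntegral.integral_same, sub_zero]
  apply intervalIntegral.integral_congr
  intro x hx
  rw [uIcc_of_le hSpq] at hx
  exact he x hx

/-- integration by parts for primitives. -/
lemma ibp {F f G g : ℝ → ℝ} {a b : ℝ} (hab : a ≤ b) (hf : IntervalIntegrable f volume a b)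
    (hg : IntervalIntegrable g volume a b) (hF : ∀ x ∈ Icc a b, F x = F a + ∫ t in a..x, f t)
    (hG : ∀ x ∈ Icc a b, G x = G a + ∫ t in a..x, g t) :
    IntervalIntegrable (fun t => f t * G t) volume a b ∧
      IntervalIntegrable (fun t => F t * g t) volume a b ∧
      (∫ t in a..b, f t * G t) + ∫ t in a..b, F t * g t = F b * G b - F a * G a := by
  have hFa := Tools2_ac hab hf hF
  have hGa := Tools2_ac hab hg hG
  have h1 : IntervalIntegrable (fun t => f t * G t) volume a b := hf.mul_continuousOn hGa.continuousOn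
  have h2 : IntervalIntegrable (fun t => F t * g t) volume a b := hg.continuousOn_mul hFa.continuousOn
  refine ⟨h1, h2, ?_⟩
  rw [← intervalIntegral.integral_add h1 h2]
  have hd : ∀ᵐ x, x ∈ Ioo a b → HasDerivAt (fun x => F x * G x) (f x * G x + F x * g x) x := by
    filter_upwards [Tools2_der hab hf hF, Tools2_der hab hg hG] with x hx hy hx'
    exact (hx hx').mul (hy hx')
  exact (Tools2_ftc hab (hFa.fun_mul hGa) hd).2

/-- the product of two primitives is a primitive. -/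
lemma prim_mul {F f G g : ℝ → ℝ} {a b : ℝ} (hab : a ≤ b) (hf : IntervalIntegrable f volume a b)
    (hg : IntervalIntegrable g volume a b) (hF : ∀ x ∈ Icc a b, F x = F a + ∫ t in a..x, f t)
    (hG : ∀ x ∈ Icc a b, G x = G a + ∫ t in a..x, g t) :
    IntervalIntegrable (fun t => f t * G t + F t * g t) volume a b ∧
      ∀ x ∈ Icc a b, F x * G x = F a * G a + ∫ t in a..x, (f t * G t + F t * g t) := by
  obtain ⟨h1, h2, _⟩ := ibp hab hf hg hF hG
  refine ⟨h1.add h2, fun x hx => ?_⟩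
  have hsub : uIcc a x ⊆ uIcc a b := by
    rw [uIcc_of_le hx.1, uIcc_of_le hab]
    exact Icc_subset_Icc le_rfl hx.2
  obtain ⟨k1, k2, k3⟩ := ibp hx.1 (hf.mono_set hsub) (hg.mono_set hsub)
    (fun y hy => hF y ⟨hy.1, hy.2.trans hx.2⟩) (fun y hy => hG y ⟨hy.1, hy.2.trans hx.2⟩)
  rw [intervalIntegral.integral_add k1 k2]
  linarith only [k3]

/-- a Lipschitz function is the primitive of a bounded measurable function. -/
lemma prim_of_lip {R : ℝ → ℝ} {a b L : ℝ} (hab : a ≤ b)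
    (h : ∀ x ∈ Icc a b, ∀ x' ∈ Icc a b, |R x - R x'| ≤ L * |x - x'|) (hL : 0 ≤ L) :
    ∃ ρ : ℝ → ℝ, Measurable ρ ∧ (∀ t, |ρ t| ≤ L) ∧ ∀ x ∈ Icc a b, R x = R a + ∫ t in a..x, ρ t := by
  classical
  have hlip : LipschitzOnWith ⟨L, hL⟩ R (Icc a b) :=
    LipschitzOnWith.of_dist_le_mul fun x hx y hy => by
      rw [Real.dist_eq, Real.dist_eq]
      exact h x hx y hy
  have hac : AbsolutelyContinuousOnInterval R a b := by
    rw [← uIcc_of_le hab] at hlip
    exact hlip.absolutelyContinuousOnInterval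
  refine ⟨(Ioo a b).indicator (deriv R), (measurable_deriv R).indicator measurableSet_Ioo, ?_, ?_⟩
  · intro t
    by_cases ht : t ∈ Ioo a b
    · rw [indicator_of_mem ht]
      exact norm_deriv_le_of_lipschitzOn (Icc_mem_nhds ht.1 ht.2) hlip
    · rw [indicator_of_notMem ht, abs_zero]
      exact hL
  · intro x hx
    have hsub : uIcc a x ⊆ uIcc a b := by
      rw [uIcc_of_le hx.1, uIcc_of_le hab]
      exact Icc_subset_Icc le_rfl hx.2
    have hd : ∀ᵐ y, y ∈ Ioo a x → HasDerivAt R ((Ioo a b).indicator (deriv R) y) y := by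
      filter_upwards [hac.ae_differentiableAt] with y hy hy'
      have hy2 : y ∈ Ioo a b := ⟨hy'.1, lt_of_lt_of_le hy'.2 hx.2⟩
      rw [indicator_of_mem hy2]
      exact (hy (by rw [uIcc_of_le hab]; exact Ioo_subset_Icc_self hy2)).hasDerivAt
    rw [(Tools2_ftc hx.1 (hac.mono hsub) hd).2]
    ring

/-- a `C¹` function is the primitive of its derivative (convenience form). -/
lemma prim_of_deriv {F f : ℝ → ℝ} {a b : ℝ} (hab : a ≤ b)
    (h : ∀ x ∈ Icc a b, HasDerivAt F (f x) x) (hf : ContinuousOn f (Icc a b)) :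
    IntervalIntegrable f volume a b ∧ ∀ x ∈ Icc a b, F x = F a + ∫ t in a..x, f t := by
  have hi : IntervalIntegrable f volume a b := hf.intervalIntegrable_of_Icc hab
  refine ⟨hi, fun x hx => ?_⟩
  have hsub : uIcc a x ⊆ Icc a b := by
    rw [uIcc_of_le hx.1]
    exact Icc_subset_Icc le_rfl hx.2
  rw [intervalIntegral.integral_eq_sub_of_hasDerivAt (fun y hy => h y (hsub hy))
    (hi.mono_set (by rw [uIcc_of_le hab]; exact hsub))]
  ring

end Pool.Agent.Work.MP_af796d_an.H
end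

-- merged part: Pool.Agent.Work.MP_af796d_an.H.LP
section
/-!
# The primitive of the conjugate function is a logarithmic potential
PLAN.  U t = ∫_0^t (w - κ) is continuous and 2π-periodic (the mean of w - κ is 0 and w is periodic).
P t = (1/π) ∫_0^{2π} lg (t - σ) v σ = JJ id v 0 (ex t) (JJ_boundary, lg_neg) is continuous (continuousOn_JJ good_id UI_id) and periodic.
* const_of_fourier: lift D to AddCircle (2π) (Function.Periodic.lift, or AddCircle.liftIco), all Fourier coefficients of nonzero index vanish (for negative n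
  take complex conjugates, D is real).  So D minus its mean has all coefficients 0; by hasSum_fourier_series_L2 (or fourierBasis.repr injective) it is 0 in L2, so a.e., so
  everywhere by continuity (Continuous.ae_eq_iff_eq).  Alternative: span_fourier_closure_eq_top gives ∫ D0 * φ = 0 for all continuous φ, take φ = D0.
* four_lg: JJ_id_wg for g = z^n and g = -I z^n (wg (z^n) t = -n sin (n t), wg (-I z^n) t = n cos (n t)), with JJ_boundary.
* For n ≥ 1: IsConj gives ∫ w e^{int} = i ∫ v e^{int}; integration by parts (ibp for real and imaginary parts) gives ∫ U e^{int} = -(1/n) ∫ v e^{int};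
  Fubini (integrable_lg_prod with ν = volume.restrict (Ioc 0 (2π))) and four_lg give the same for P.  So U - P is constant, equal to its value at 0.
-/

set_option autoImplicit false

namespace Pool.Agent.Work.MP_af796d_an.H

open MeasureTheory Set Real Metric Filter Topology

lemma const_of_fourier {D : ℝ → ℝ} (hc : Continuous D) (hp : Function.Periodic D (2 * π))
    (h : ∀ n : ℕ, 1 ≤ n → ∫ t in (0 : ℝ)..(2 * π), (D t : ℂ) * ex (n * t) = 0) (t : ℝ) :
    D t = D 0 := by
  have : Fact (0 < 2 * π) := ⟨two_pi_pos⟩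
  have hc' : Continuous fun t => (D t : ℂ) := Complex.continuous_ofReal.comp hc
  have hp' : Function.Periodic (fun t => (D t : ℂ)) (2 * π) := fun t => by simp only [hp t]
  have hz : ∀ m : ℤ, m ≠ 0 → ∫ t in (0 : ℝ)..(2 * π), (D t : ℂ) * ex (m * t) = 0 := by
    intro m hm
    obtain ⟨n, rfl | rfl⟩ := Int.eq_nat_or_neg m
    · exact_mod_cast h n (by omega)
    · have h1 := congrArg (starRingEnd ℂ) (h n (by omega))
      rw [map_zero, intervalIntegral.integral_of_le two_pi_pos.le, ← integral_conj] at h1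
      rw [intervalIntegral.integral_of_le two_pi_pos.le, ← h1]
      congr 1
      ext t
      rw [map_mul, Complex.conj_ofReal, conj_ex]
      push_cast
      rw [neg_mul]
  let f : C(AddCircle (2 * π), ℂ) := ⟨hp'.lift, hc'.quotient_liftOn' _⟩
  have hf : ∀ n : ℤ, n ≠ 0 → fourierCoeff f n = 0 := by
    intro n hn
    rw [fourierCoeff_eq_intervalIntegral _ _ 0, zero_add]
    have := hz (-n) (neg_ne_zero.2 hn)
    refine smul_eq_zero_of_right _ (Eq.trans ?_ this)
    congr 1
    ext x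
    rw [fourier_coe_apply, smul_eq_mul, mul_comm]
    show (D x : ℂ) * _ = _
    rw [ex]
    congr 2
    have : (π : ℂ) ≠ 0 := by exact_mod_cast pi_ne_zero
    push_cast
    field_simp
  have hs : Summable (fourierCoeff f) := (hasSum_single 0 hf).summable
  have key : ∀ x : AddCircle (2 * π), f x = fourierCoeff f 0 := fun x => by
    have h1 := has_pointwise_sum_fourier_series_of_summable hs x
    have h2 := hasSum_single (f := fun i => fourierCoeff f i • fourier i x) 0
      fun i hi => by rw [hf i hi, zero_smul]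
    rw [h1.unique h2, fourier_zero, smul_eq_mul, mul_one]
  have h3 : (D t : ℂ) = D 0 := (key (t : ℝ)).trans (key (0 : ℝ)).symm
  exact_mod_cast h3

lemma LP_ii {f : ℝ → ℝ} {a b : ℝ} (hf : IntervalIntegrable f volume a b) (m : ℝ) :
    IntervalIntegrable (fun t => (f t : ℂ) * ex (m * t)) volume a b :=
  IntervalIntegrable.mul_continuousOn ⟨hf.1.ofReal, hf.2.ofReal⟩ (by fun_prop)

lemma LP_re {f : ℝ → ℝ} {a b : ℝ} (hf : IntervalIntegrable f volume a b) (m : ℝ) (c : ℂ) :
    ∫ t in a..b, f t * (c * ex (m * t)).re = (c * ∫ t in a..b, (f t : ℂ) * ex (m * t)).re := by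
  rw [← intervalIntegral.integral_const_mul, ← Complex.reCLM_apply (∫ t in a..b, _),
    ← Complex.reCLM.intervalIntegral_comp_comm ((LP_ii hf m).const_mul c)]
  congr 1
  ext t
  rw [Complex.reCLM_apply, mul_left_comm, Complex.re_ofReal_mul]

lemma LP_ext {a b : ℂ} (h : ∀ c : ℂ, (c * a).re = (c * b).re) : a = b := by
  have h1 := h 1
  have h2 := h Complex.I
  apply Complex.ext
  · simpa using h1
  · simpa using h2

lemma LP_pow (n : ℕ) (t : ℝ) : ex t ^ n = ex (n * t) := by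
  rw [ex, ex, ← Complex.exp_nat_mul]
  congr 1
  push_cast
  ring

lemma four_lg {n : ℕ} (hn : 1 ≤ n) (σ : ℝ) :
    ∫ t in (0 : ℝ)..(2 * π), (lg (t - σ) : ℂ) * ex (n * t) = -(π / n : ℂ) * ex (n * σ) := by
  have hn' : (n : ℂ) ≠ 0 := by exact_mod_cast (by omega : n ≠ 0)
  have hπ : (π : ℂ) ≠ 0 := by exact_mod_cast pi_ne_zero
  have key : (n * Complex.I) * ∫ t in (0 : ℝ)..(2 * π), (lg (t - σ) : ℂ) * ex (n * t) =
      -(π * Complex.I) * ex (n * σ) := by
    refine LP_ext fun c => ?_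
    have ha : AnalyticOnNhd ℂ (fun z : ℂ => c * z ^ n) (closedBall 0 1) := fun z _ => by fun_prop
    have h1 := JJ_id_wg ha 0 (z := ex σ) (norm_ex σ).le
    have h2 := JJ_boundary id (wg fun z : ℂ => c * z ^ n) 0 σ
    have h3 : ∀ t, wg (fun z : ℂ => c * z ^ n) t = (c * (n * Complex.I) * ex (n * t)).re := by
      intro t
      obtain ⟨m, rfl⟩ : ∃ m, n = m + 1 := ⟨n - 1, by omega⟩
      rw [wg, ((hasDerivAt_pow (m + 1) (ex t)).const_mul c).deriv, ← LP_pow]
      congr 1
      rw [Nat.add_sub_cancel]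
      ring
    simp only [id, zero_add] at h2
    rw [h1] at h2
    simp only [h3] at h2
    rw [LP_re (intervalIntegrable_lg_sub σ _ _), LP_pow, zero_pow (by omega), mul_zero,
      Complex.zero_im, sub_zero, mul_assoc c] at h2
    have h4 : c * (-(π * Complex.I) * ex (n * σ)) = π * (-Complex.I * (c * ex (n * σ))) := by
      ring
    rw [h4, Complex.re_ofReal_mul, neg_mul, Complex.neg_re, Complex.I_mul_re, neg_neg, h2,
      ← mul_assoc π, mul_one_div_cancel pi_ne_zero, one_mul]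
  have h5 : (n * Complex.I : ℂ) ≠ 0 := mul_ne_zero hn' Complex.I_ne_zero
  refine mul_left_cancel₀ h5 (key.trans ?_)
  field_simp

lemma LP_der (m : ℝ) (t : ℝ) :
    HasDerivAt (fun t => ex (m * t)) ((m * Complex.I) * ex (m * t)) t := by
  have h1 := (hasDerivAt_ex (m * t)).scomp t ((hasDerivAt_id t).const_mul m)
  refine h1.congr_deriv ?_
  rw [mul_one, Complex.real_smul, mul_assoc]

lemma LP_ex_two_pi (n : ℕ) : ex (n * (2 * π)) = 1 := by
  rw [← LP_pow, ex_two_pi, one_pow]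

lemma LP_int_ex {n : ℕ} (hn : 1 ≤ n) : ∫ t in (0 : ℝ)..(2 * π), ex (n * t) = 0 := by
  have hn' : (n : ℂ) ≠ 0 := by exact_mod_cast (by omega : n ≠ 0)
  have h1 := intervalIntegral.integral_eq_sub_of_hasDerivAt (a := 0) (b := 2 * π)
    (fun t _ => LP_der n t) (Continuous.intervalIntegrable (by fun_prop) _ _)
  rw [intervalIntegral.integral_const_mul, LP_ex_two_pi, mul_zero, ex_zero, sub_self] at h1
  exact (mul_eq_zero.1 h1).resolve_left
    (mul_ne_zero (by exact_mod_cast hn') Complex.I_ne_zero)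

lemma LP_ibp {f : ℝ → ℝ} (hf : ∀ a c, IntervalIntegrable f volume a c)
    (h0 : ∫ s in (0 : ℝ)..(2 * π), f s = 0) (m : ℝ) :
    (m * Complex.I) * ∫ t in (0 : ℝ)..(2 * π), ((∫ s in (0 : ℝ)..t, f s : ℝ) : ℂ) * ex (m * t) =
      -∫ t in (0 : ℝ)..(2 * π), (f t : ℂ) * ex (m * t) := by
  refine LP_ext fun c => ?_
  have hU : Continuous fun t => ∫ s in (0 : ℝ)..t, f s :=
    intervalIntegral.continuous_primitive hf 0
  obtain ⟨g1, g2⟩ := prim_of_deriv (F := fun t => (c * ex (m * t)).re)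
    (f := fun t => (c * (m * Complex.I) * ex (m * t)).re) two_pi_pos.le
    (fun x _ => by
      have := Complex.reCLM.hasFDerivAt.comp_hasDerivAt x ((LP_der m x).const_mul c)
      rw [mul_assoc c]
      exact this) (by fun_prop)
  obtain ⟨-, -, h1⟩ := ibp (F := fun t => ∫ s in (0 : ℝ)..t, f s) two_pi_pos.le (hf _ _) g1
    (fun x _ => by simp) g2
  rw [h0, intervalIntegral.integral_same, zero_mul, zero_mul, sub_zero, LP_re (hf _ _),
    LP_re (hU.intervalIntegrable _ _), mul_assoc c] at h1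
  rw [mul_neg, Complex.neg_re]
  linarith

lemma LP_fub {v : ℝ → ℝ} (hv : Measurable v) {B : ℝ} (hB : ∀ t, |v t| ≤ B) {n : ℕ} (hn : 1 ≤ n) :
    ∫ t in (0 : ℝ)..(2 * π),
      ((∫ σ in (0 : ℝ)..(2 * π), lg (t - σ) * v σ : ℝ) : ℂ) * ex (n * t) =
      -(π / n : ℂ) * ∫ σ in (0 : ℝ)..(2 * π), (v σ : ℂ) * ex (n * σ) := by
  have hi := (integrable_lg_prod (volume.restrict (Ioc (0 : ℝ) (2 * π))) two_pi_pos.le
    (zero_add _).ge).ofReal (𝕜 := ℂ)
  have hi2 := hi.mul_bdd (g := fun x : ℝ × ℝ => (v x.2 : ℂ) * ex (n * x.1)) (c := B)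
    (Measurable.aestronglyMeasurable (by fun_prop)) (Eventually.of_forall fun x => by
      rw [norm_mul, norm_ex, mul_one, Complex.norm_real, Real.norm_eq_abs]; exact hB _)
  have h1 := integral_integral_swap
    (f := fun t σ : ℝ => (lg (t - σ) : ℂ) * ((v σ : ℂ) * ex (n * t))) hi2
  simp only [← intervalIntegral.integral_of_le two_pi_pos.le] at h1
  rw [← intervalIntegral.integral_const_mul]
  calc _ = _ := ?_
    _ = _ := h1
    _ = _ := ?_
  · congr 1
    ext t
    rw [← intervalIntegral.integral_ofReal, ← intervalIntegral.integral_mul_const]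
    congr 1
    ext σ
    push_cast
    ring
  · congr 1
    ext σ
    rw [mul_left_comm, ← four_lg hn, ← intervalIntegral.integral_const_mul]
    congr 1
    ext t
    ring

theorem lpi_of_conj {v w : ℝ → ℝ} (hv : Measurable v) {B : ℝ} (hB : ∀ t, |v t| ≤ B)
    (hw : ∀ a c, IntervalIntegrable w volume a c) (hp : Function.Periodic w (2 * π))
    (h : IsConj v w) : LPI (fun t => w t - (∫ s in (0 : ℝ)..(2 * π), w s) / (2 * π)) v := by
  set κ := (∫ s in (0 : ℝ)..(2 * π), w s) / (2 * π) with hκ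
  have hw0 : ∀ a c, IntervalIntegrable (fun t => w t - κ) volume a c := fun a c =>
    (hw a c).sub intervalIntegrable_const
  have h0 : ∫ s in (0 : ℝ)..(2 * π), (w s - κ) = 0 := by
    rw [intervalIntegral.integral_sub (hw _ _) intervalIntegrable_const,
      intervalIntegral.integral_const, smul_eq_mul, hκ]
    field_simp
    ring
  have hp0 : Function.Periodic (fun t => w t - κ) (2 * π) := fun t => by simp only [hp t]
  have hU : Continuous fun t => ∫ s in (0 : ℝ)..t, (w s - κ) :=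
    intervalIntegral.continuous_primitive hw0 0
  have hP : ∀ t, (1 / π) * (∫ σ in (0 : ℝ)..(2 * π), lg (t - σ) * v σ) = JJ id v 0 (ex t) := by
    intro t
    have := JJ_boundary id v 0 t
    simp only [id, zero_add] at this
    rw [this]
    congr 2
    ext σ
    rw [← lg_neg, neg_sub]
  have hPc : Continuous fun t => (1 / π) * ∫ σ in (0 : ℝ)..(2 * π), lg (t - σ) * v σ := by
    simp only [hP]
    exact (continuousOn_JJ good_id UI_id hv hB).comp_continuous continuous_ex ex_mem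
  intro t
  have key := const_of_fourier (D := fun t => (∫ s in (0 : ℝ)..t, (w s - κ)) -
    (1 / π) * ∫ σ in (0 : ℝ)..(2 * π), lg (t - σ) * v σ) (hU.sub hPc) (fun t => by
      simp only [hP, ex_periodic t]
      rw [← intervalIntegral.integral_add_adjacent_intervals (hw0 0 t) (hw0 t _),
        hp0.intervalIntegral_add_eq t 0, zero_add, h0, add_zero]) (fun n hn => by
      have hn' : (n : ℂ) ≠ 0 := by exact_mod_cast (by omega : n ≠ 0)
      have hπ : (π : ℂ) ≠ 0 := by exact_mod_cast pi_ne_zero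
      have e1 := LP_ibp hw0 h0 n
      have e2 := LP_fub hv hB hn
      have e3 := h n hn
      have iv := LP_ii (bdd_intervalIntegrable hv hB 0 (2 * π)) n
      have iw := LP_ii (hw 0 (2 * π)) n
      have e4 : (∫ t in (0 : ℝ)..(2 * π), (v t : ℂ) * ex (n * t)) +
          Complex.I * ∫ t in (0 : ℝ)..(2 * π), (w t : ℂ) * ex (n * t) = 0 := by
        rw [← intervalIntegral.integral_const_mul,
          ← intervalIntegral.integral_add iv (iw.const_mul _), ← e3]
        congr 1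
        ext t
        rw [ex]
        push_cast
        rw [← mul_assoc Complex.I (n : ℂ)]
        ring
      have e5 : ∫ t in (0 : ℝ)..(2 * π), ((w t - κ : ℝ) : ℂ) * ex (n * t) =
          ∫ t in (0 : ℝ)..(2 * π), (w t : ℂ) * ex (n * t) := by
        push_cast
        simp only [sub_mul]
        rw [intervalIntegral.integral_sub iw (Continuous.intervalIntegrable (by fun_prop) _ _),
          intervalIntegral.integral_const_mul, LP_int_ex hn, mul_zero, sub_zero]
      rw [e5] at e1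
      simp only [Complex.ofReal_sub, sub_mul]
      rw [intervalIntegral.integral_sub (LP_ii (hU.intervalIntegrable _ _) n)
        (LP_ii (hPc.intervalIntegrable _ _) n)]
      simp only [Complex.ofReal_mul, mul_assoc]
      rw [intervalIntegral.integral_const_mul, e2]
      push_cast at e1 ⊢
      generalize ∫ t in (0 : ℝ)..(2 * π), (v t : ℂ) * ex (n * t) = V at e4 ⊢
      generalize ∫ t in (0 : ℝ)..(2 * π), (w t : ℂ) * ex (n * t) = W at e4 e1
      refine mul_left_cancel₀ (mul_ne_zero hn' Complex.I_ne_zero) ?_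
      rw [mul_sub, e1]
      field_simp
      linear_combination Complex.I * e4 - W * Complex.I_sq) t
  simp only [intervalIntegral.integral_same, zero_sub, lg_neg] at key
  linarith only [key]

end Pool.Agent.Work.MP_af796d_an.H
end

-- merged part: Pool.Agent.Work.MP_af796d_an.H.VP1
section
/-!
# The class VP in integral and dyadic form
PLAN.  Q r = mean V 0 r = (∫_0^r V)/r, q r = |V r - Q r|/r.
* mean_sub: prim_mul or ibp for F r = ∫_0^r V and G r = 1/r on [r, r'].
* vi_of_var: on [ε, π] exists_dom gives p with Dom Q p ε π and p π - p ε ≤ C.  p + Q and p - Q are monotone, so a.e. differentiable with derivative ≥ 0, and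
  ∫ deriv ≤ increment (MonotoneOn.intervalIntegral_deriv_mem_uIcc).  At a.e. r, Q has derivative (V r - Q r)/r (ae_hasDerivAt_integral), so |Q'| ≤ p' and ∫_ε^π q ≤ C.
  (Alternative without derivatives: by mean_sub Q is the primitive of a bounded measurable function ρ on [ε, π]; ∫ |ρ| ≤ variation.)
  Let ε → 0: intervalIntegral.integrableOn_Ioc_of_intervalIntegral_norm_bounded_left and monotone convergence.
* vu_of_vp: mean (sd v y 1) 0 r = mean v y r, mean (sd v y (-1)) 0 r = mean v y (-r); eVariationOn.comp_eq_of_antitoneOn (or comp_le_of_antitoneOn) for the negative side.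
* vd_of_vi: n k = 2 ∫_0^π min (r/h) (h/r) q r, h = rr k; the sums are ≤ 16 C by min_le_om, om_sum.  |V r - Q h| ≤ r q r + |∫ q over the interval between r and h|.
  Inner: (1/h) ∫_0^h ∫_r^h q = (1/h) ∫_0^h ρ q ρ; outer: h ∫_h^π r^(-2) ∫_h^r q ≤ h ∫_h^π q ρ/ρ (ibp or Fubini).  df: min ≥ 1/2 on [h/2, h].
* vi_pair: φ V = φ (V - Q) + φ Q; the first integral is ≤ M C.  On [ε, π] ibp with f x = ∫_0^x φ and Q gives at most 2 M C + M C; let ε → 0 (continuity of the primitive).
-/

set_option autoImplicit false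

namespace Pool.Agent.Work.MP_af796d_an.H

open MeasureTheory Set Real Metric Filter Topology

lemma VP1_mul {φ V : ℝ → ℝ} {a b C : ℝ} (hφ : IntervalIntegrable φ volume a b) (hV : Measurable V)
    (hB : ∀ t, |V t| ≤ C) : IntervalIntegrable (fun t => φ t * V t) volume a b :=
  ⟨hφ.1.mul_bdd hV.aestronglyMeasurable (ae_of_all _ hB),
    hφ.2.mul_bdd hV.aestronglyMeasurable (ae_of_all _ hB)⟩

lemma VP1_ii {V : ℝ → ℝ} {C : ℝ} (hV : Measurable V) (hB : ∀ t, |V t| ≤ C) (a b : ℝ) :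
    IntervalIntegrable V volume a b := by
  simpa using VP1_mul (intervalIntegrable_const (c := (1 : ℝ))) hV hB

lemma VP1_rr (k : ℕ) : rr k ∈ Ioc 0 π := ⟨rr_pos k, (rr_le_one k).trans (by linarith [pi_gt_three])⟩

lemma VP1_lim {g : ℝ → ℝ} {K : ℝ} (hg : IntervalIntegrable g volume 0 π)
    (h : ∀ k, |∫ t in (rr k)..π, g t| ≤ K) : |∫ t in (0 : ℝ)..π, g t| ≤ K := by
  have c := (intervalIntegral.continuousOn_primitive_interval' hg right_mem_uIcc 0
    left_mem_uIcc).tendsto.comp (tendsto_nhdsWithin_iff.2 ⟨tendsto_rr, .of_forall fun k =>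
      Icc_subset_uIcc (Ioc_subset_Icc_self (VP1_rr k))⟩)
  rw [intervalIntegral.integral_symm, abs_neg]
  refine le_of_tendsto' c.abs fun k => ?_
  rw [Function.comp, intervalIntegral.integral_symm, abs_neg]
  exact h k

lemma VP1_dom {Q ρ p : ℝ → ℝ} {a b : ℝ} (hab : a ≤ b) (hρ : IntervalIntegrable ρ volume a b)
    (hQ : ∀ x ∈ Icc a b, Q x = Q a + ∫ t in a..x, ρ t) (hd : Dom Q p a b) :
    ∫ t in a..b, |ρ t| ≤ p b - p a := by
  have hp : MonotoneOn p (uIcc a b) := uIcc_of_le hab ▸ hd.monotoneOn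
  have h := hp.intervalIntegral_deriv_mem_uIcc
  rw [uIcc_of_le (sub_nonneg.2 (hd.le le_rfl hab le_rfl))] at h
  refine (intervalIntegral.integral_mono_ae_restrict hab hρ.abs hp.intervalIntegrable_deriv
    ?_).trans h.2
  rw [EventuallyLE, ← restrict_Ioo_eq_restrict_Icc, ae_restrict_iff' measurableSet_Ioo]
  filter_upwards [Tools2_der hab hρ hQ, hd.monotoneOn.ae_differentiableWithinAt_of_mem] with
    x h1 h2 hx
  have hn := Icc_mem_nhds hx.1 hx.2
  have d := ((h2 (Ioo_subset_Icc_self hx)).differentiableAt hn).hasDerivAt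
  have m1 : MonotoneOn (p - Q) (Icc a b) := fun x hx y hy hxy => by
    linarith only [hd, hx, hxy, hy, (abs_le.1 (hd x y hx.1 hxy hy.2)).2, Pi.sub_apply p Q x, Pi.sub_apply p Q y]
  have m2 : MonotoneOn (p + Q) (Icc a b) := fun x hx y hy hxy => by
    linarith only [hd, hx, hxy, hy, (abs_le.1 (hd x y hx.1 hxy hy.2)).1, Pi.add_apply p Q x, Pi.add_apply p Q y]
  have n1 := m1.derivWithin_nonneg (x := x)
  have n2 := m2.derivWithin_nonneg (x := x)
  rw [derivWithin_of_mem_nhds hn] at n1 n2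
  rw [(d.sub (h1 hx)).deriv] at n1
  rw [(d.add (h1 hx)).deriv] at n2
  exact abs_le.2 ⟨by linarith, by linarith⟩

lemma mean_abs_le {V : ℝ → ℝ} {C r : ℝ} (hB : ∀ t, |V t| ≤ C) (hr : 0 < r) : |mean V 0 r| ≤ C := by
  rw [mean, abs_div, abs_of_pos hr, div_le_iff₀ hr]
  simpa [abs_of_pos hr] using intervalIntegral.norm_integral_le_of_norm_le_const (a := 0)
    (b := 0 + r) (f := V) fun t _ => hB t

lemma mean_sub {V : ℝ → ℝ} {C r r' : ℝ} (hV : Measurable V) (hB : ∀ t, |V t| ≤ C) (hr : 0 < r)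
    (hrr : r ≤ r') : IntervalIntegrable (fun ρ => (V ρ - mean V 0 ρ) / ρ) volume r r' ∧
      mean V 0 r' - mean V 0 r = ∫ ρ in r..r', (V ρ - mean V 0 ρ) / ρ := by
  have hi := VP1_ii hV hB
  obtain ⟨g1, g2⟩ := prim_of_deriv (F := fun x => x⁻¹) hrr
    (fun x hx => hasDerivAt_inv (hr.trans_le hx.1).ne') ((continuousOn_pow 2).inv₀
      fun x hx => pow_ne_zero 2 (hr.trans_le hx.1).ne').neg
  obtain ⟨h1, h2⟩ := prim_mul (F := fun x => ∫ t in (0 : ℝ)..x, V t) hrr (hi _ _) g1
    (fun x _ => (intervalIntegral.integral_add_adjacent_intervals (hi _ _) (hi _ _)).symm) g2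
  have e : (fun ρ => (V ρ - mean V 0 ρ) / ρ) =
      fun t => V t * t⁻¹ + (∫ t in (0 : ℝ)..t, V t) * -(t ^ 2)⁻¹ := funext fun t => by
    rw [mean, zero_add]
    ring
  rw [e, mean, mean, zero_add, zero_add]
  exact ⟨h1, sub_eq_of_eq_add' (h2 r' ⟨hrr, le_rfl⟩)⟩

lemma vi_of_var {V : ℝ → ℝ} {B : ℝ} {C : NNReal} (hV : Measurable V) (hB : ∀ t, |V t| ≤ B)
    (h : eVariationOn (mean V 0) (Ioc 0 π) ≤ C) : VI V (max B C) := by
  have key : ∀ k, IntervalIntegrable (fun r => |V r - mean V 0 r| / r) volume (rr k) π ∧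
      ∫ r in (rr k)..π, ‖|V r - mean V 0 r| / r‖ ≤ C := fun k => by
    have h0 := rr_pos k
    have h1 := (VP1_rr k).2
    have h2 := (eVariationOn.mono _ (Icc_subset_Ioc h0 le_rfl : Icc (rr k) π ⊆ _)).trans h
    obtain ⟨p, p1, p2⟩ := exists_dom h1 (ne_top_of_le_ne_top ENNReal.coe_ne_top h2)
    have h3 := (mean_sub hV hB h0 h1).1
    refine ⟨h3.abs.congr fun t ht => ?_, le_trans (le_of_eq ?_) ((VP1_dom h1 h3 (fun x hx =>
      eq_add_of_sub_eq' (mean_sub hV hB h0 hx.1).2) p1).trans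
        (p2.trans_le (ENNReal.toReal_le_coe_of_le_coe h2)))⟩
    · rw [uIoc_of_le h1] at ht
      simp only [abs_div, abs_of_pos (h0.trans ht.1)]
    · simp only [norm_eq_abs, abs_div, abs_abs]
  have hi : IntervalIntegrable (fun r => |V r - mean V 0 r| / r) volume 0 π :=
    (intervalIntegrable_iff_integrableOn_Ioc_of_le pi_pos.le).2
      (integrableOn_Ioc_of_intervalIntegral_norm_bounded_left (fun k => (key k).1.1) tendsto_rr
        (.of_forall fun k => (intervalIntegral.integral_of_le (VP1_rr k).2).ge.trans (key k).2))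
  exact ⟨hV, fun r => (hB r).trans (le_max_left _ _), hi, (le_abs_self _).trans ((VP1_lim hi
    fun k => (intervalIntegral.norm_integral_le_integral_norm (VP1_rr k).2).trans (key k).2).trans
      (le_max_right _ _))⟩

theorem vu_of_vp {v : ℝ → ℝ} (h : VP v) : ∃ C, VU v C := by
  obtain ⟨hm, hp, ⟨B, hB⟩, C, hC⟩ := h
  have m : ∀ y σ, Measurable (sd v y σ) := fun y σ => hm.comp (by fun_prop)
  refine ⟨max B C, hm, hp, fun y => vi_of_var (m _ _) (fun _ => hB _) ?_,
    fun y => vi_of_var (m _ _) (fun _ => hB _) ?_⟩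
  · rw [show mean (sd v y 1) 0 = mean v y from funext fun r => by simp [mean, sd]]
    exact (hC y).1
  · rw [show mean (sd v y (-1)) 0 = mean v y ∘ Neg.neg from funext fun r => by
      simp only [mean, sd, Function.comp, neg_one_mul, ← sub_eq_add_neg, zero_add,
        intervalIntegral.integral_comp_sub_left, sub_zero]
      rw [intervalIntegral.integral_symm, neg_div, div_neg]]
    exact le_trans (eVariationOn.comp_le_of_antitoneOn _ _ (fun _ _ _ _ => neg_le_neg)
      fun r hr => mem_Ico.2 ⟨neg_le_neg hr.2, neg_lt_zero.2 hr.1⟩) (hC y).2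

lemma VI.mono {V : ℝ → ℝ} {C C' : ℝ} (h : VI V C) (hC : C ≤ C') : VI V C' :=
  ⟨h.meas, fun r => (h.bd r).trans hC, h.ii, h.le.trans hC⟩

lemma VU.mono {v : ℝ → ℝ} {C C' : ℝ} (h : VU v C) (hC : C ≤ C') : VU v C' :=
  ⟨h.meas, h.per, fun y => (h.pos y).mono hC, fun y => (h.neg y).mono hC⟩

lemma VU.bd {v : ℝ → ℝ} {C : ℝ} (h : VU v C) (t : ℝ) : |v t| ≤ C := by
  simpa [sd] using (h.pos t).bd 0

lemma VP1_sub {V : ℝ → ℝ} {C a b : ℝ} (h : VI V C) (ha : a ∈ Icc 0 π) (hb : b ∈ Icc 0 π) :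
    IntervalIntegrable (fun r => |V r - mean V 0 r| / r) volume a b :=
  h.ii.mono_set (uIcc_subset_uIcc (Icc_subset_uIcc ha) (Icc_subset_uIcc hb))

lemma VP1_Q {V : ℝ → ℝ} {C a b : ℝ} (h : VI V C) (ha : a ∈ Ioc 0 π) (hb : b ∈ Ioc 0 π) :
    |mean V 0 b - mean V 0 a| ≤ |∫ r in a..b, |V r - mean V 0 r| / r| := by
  wlog hab : a ≤ b generalizing a b
  · rw [abs_sub_comm, intervalIntegral.integral_symm, abs_neg]
    exact this hb ha (le_of_not_ge hab)
  rw [(mean_sub h.meas h.bd ha.1 hab).2]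
  refine le_trans (intervalIntegral.norm_integral_le_of_norm_le (E := ℝ) hab
    (.of_forall fun t ht => ?_) (VP1_sub h (Ioc_subset_Icc_self ha) (Ioc_subset_Icc_self hb)))
    (le_abs_self _)
  rw [norm_eq_abs, abs_div, abs_of_pos (ha.1.trans ht.1)]

lemma VP1_kap {h : ℝ} (h0 : 0 < h) (r : ℝ) : 0 ≤ kap h r := le_min (by positivity) (by positivity)

lemma VP1_i1 {V : ℝ → ℝ} {C h : ℝ} (hV : VI V C) (h0 : 0 < h) (a b : ℝ) :
    IntervalIntegrable (fun r => |V r - mean V 0 h| * kap h r) volume a b :=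
  VP1_mul ((VP1_ii hV.meas hV.bd a b).sub intervalIntegrable_const).abs (C := 1 / h)
    (by unfold kap; fun_prop) fun t => (abs_of_nonneg (VP1_kap h0 t)).trans_le (min_le_left _ _)

lemma VP1_i2 {V : ℝ → ℝ} {C h a b : ℝ} (hV : VI V C) (h0 : 0 < h) (ha : a ∈ Icc 0 π)
    (hb : b ∈ Icc 0 π) :
    IntervalIntegrable (fun r => 8 * om h r * (|V r - mean V 0 r| / r)) volume a b :=
  (VP1_sub hV ha hb).continuousOn_mul (continuousOn_const.mul (ContinuousOn.div (by fun_prop)
    (by fun_prop) fun x hx => (pow_pos (add_pos_of_pos_of_nonneg h0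
      ((le_min ha.1 hb.1).trans hx.1)) 2).ne'))

lemma VP1_part {V F f : ℝ → ℝ} {C h a b : ℝ} (hV : VI V C) (hh : h ∈ Ioc 0 π) (ha : 0 ≤ a)
    (hab : a ≤ b) (hb : b ≤ π) (hF : IntervalIntegrable f volume a b ∧
      ∀ x ∈ Icc a b, F x = F a + ∫ t in a..x, f t)
    (hw : ∀ x ∈ Ioo a b, F x = -min (x / h) (h / x) ∧
      |∫ r in h..x, |V r - mean V 0 r| / r| * kap h x ≤ f x * ∫ r in h..x, |V r - mean V 0 r| / r)
    (he : F b * ∫ r in h..b, |V r - mean V 0 r| / r ≤ F a * ∫ r in h..a, |V r - mean V 0 r| / r) :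
    ∫ r in a..b, |V r - mean V 0 h| * kap h r ≤
      ∫ r in a..b, 8 * om h r * (|V r - mean V 0 r| / r) := by
  have a1 : a ∈ Icc 0 π := ⟨ha, hab.trans hb⟩
  have b1 : b ∈ Icc 0 π := ⟨ha.trans hab, hb⟩
  obtain ⟨i1, i2, i3⟩ := ibp (G := fun x => ∫ r in h..x, |V r - mean V 0 r| / r) hab hF.1
    (VP1_sub hV a1 b1) hF.2 fun x hx => (intervalIntegral.integral_add_adjacent_intervals
      (VP1_sub hV (Ioc_subset_Icc_self hh) a1) (VP1_sub hV a1 ⟨ha.trans hx.1, hx.2.trans hb⟩)).symm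
  have i4 := VP1_i2 hV hh.1 a1 b1
  refine (intervalIntegral.integral_mono_on_of_le_Ioo hab (VP1_i1 hV hh.1 a b) ((i1.add i2).add i4)
    fun x hx => ?_).trans ?_
  · have x0 := ha.trans_lt hx.1
    have e : x * kap h x = min (x / h) (h / x) := by
      rw [kap, mul_min_of_nonneg _ _ x0.le, mul_one_div, sq, mul_div_assoc', mul_div_mul_left _ _ x0.ne']
    have q0 : 0 ≤ |V x - mean V 0 x| / x := by positivity
    have h1 := mul_le_mul_of_nonneg_right ((abs_sub_le (V x) (mean V 0 x) _).trans (add_le_add_right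
      (VP1_Q hV hh ⟨x0, hx.2.le.trans hb⟩) _)) (VP1_kap hh.1 x)
    have h2 := mul_le_mul_of_nonneg_right (min_le_om hh.1 x0.le) q0
    rw [add_mul, ← div_mul_cancel₀ |V x - mean V 0 x| x0.ne', mul_assoc, e] at h1
    rw [(hw x hx).1]
    linarith only [h1, h2, hw, hx, (hw x hx).2]
  · rw [intervalIntegral.integral_add (i1.add i2) i4, intervalIntegral.integral_add i1 i2]
    linarith only [he, i3]

theorem vd_of_vi {V : ℝ → ℝ} {C : ℝ} (h : VI V C) : ∃ n, VD V n (16 * C) := by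
  have z : (0 : ℝ) ∈ Icc 0 π := left_mem_Icc.2 pi_pos.le
  have p : π ∈ Icc 0 π := right_mem_Icc.2 pi_pos.le
  have q0 : ∀ r, 0 ≤ r → 0 ≤ |V r - mean V 0 r| / r := fun r hr => by positivity
  have w0 : ∀ k r, 0 ≤ r → 0 ≤ 8 * om (rr k) r * (|V r - mean V 0 r| / r) := fun k r hr =>
    mul_nonneg (mul_nonneg (by norm_num) (om_nonneg (rr_pos k).le hr)) (q0 r hr)
  refine ⟨fun k => ∫ r in (0 : ℝ)..π, 8 * om (rr k) r * (|V r - mean V 0 r| / r),
    ⟨fun k => intervalIntegral.integral_nonneg pi_pos.le fun r hr => w0 k r hr.1, fun n => ?_⟩,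
    fun k => VP1_i1 h (rr_pos k) _ _, fun k => ?_, fun k => ?_⟩
  · rw [← intervalIntegral.integral_finsetSum fun k _ => VP1_i2 h (rr_pos k) z p]
    refine (intervalIntegral.integral_mono_on pi_pos.le ?_ (h.ii.const_mul 16) fun r hr => ?_).trans ?_
    · exact ⟨integrable_finsetSum _ fun k _ => (VP1_i2 h (rr_pos k) z p).1,
        integrable_finsetSum _ fun k _ => (VP1_i2 h (rr_pos k) z p).2⟩
    · rw [← Finset.sum_mul, ← Finset.mul_sum]
      exact mul_le_mul_of_nonneg_right (by linarith only [hr, om_sum hr.1 n]) (q0 r hr.1)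
    · rw [intervalIntegral.integral_const_mul]
      linarith only [h, h.le]
  · have hk := VP1_rr k
    have hk' := Ioc_subset_Icc_self hk
    have h0 := hk.1
    generalize rr k = t at *
    rw [← intervalIntegral.integral_add_adjacent_intervals (VP1_i1 h h0 0 t) (VP1_i1 h h0 t π),
      ← intervalIntegral.integral_add_adjacent_intervals (VP1_i2 h h0 z hk') (VP1_i2 h h0 hk' p)]
    refine add_le_add (VP1_part (F := fun x => -(x / t)) (f := fun _ => -(1 / t)) h hk le_rfl h0.le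
      hk.2 (prim_of_deriv h0.le (fun x _ => ((hasDerivAt_id' x).div_const t).neg) continuousOn_const)
      (fun x hx => ⟨?_, ?_⟩) (by simp)) (VP1_part (F := fun x => -(t * x⁻¹))
        (f := fun x => -(t * -(x ^ 2)⁻¹)) h hk h0.le hk.2 le_rfl (prim_of_deriv hk.2 (fun x hx =>
          ((hasDerivAt_inv (h0.trans_le hx.1).ne').const_mul t).neg) (continuousOn_const.mul
            ((continuousOn_pow 2).inv₀ fun x hx => pow_ne_zero 2 (h0.trans_le hx.1).ne').neg).neg)
        (fun x hx => ⟨?_, ?_⟩) ?_)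
    · rw [min_eq_left (((div_le_one h0).2 hx.2.le).trans ((one_le_div hx.1).2 hx.2.le))]
    · rw [intervalIntegral.integral_symm, abs_neg, neg_mul_neg, mul_comm, abs_of_nonneg
        (intervalIntegral.integral_nonneg hx.2.le fun r hr => q0 r (hx.1.le.trans hr.1))]
      exact mul_le_mul_of_nonneg_right (min_le_left _ _)
        (intervalIntegral.integral_nonneg hx.2.le fun r hr => q0 r (hx.1.le.trans hr.1))
    · rw [min_eq_right (((div_le_one (h0.trans hx.1)).2 hx.1.le).trans ((one_le_div h0).2 hx.1.le)),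
        div_eq_mul_inv]
    · rw [mul_neg, neg_neg, mul_comm, abs_of_nonneg
        (intervalIntegral.integral_nonneg hx.1.le fun r hr => q0 r (h0.le.trans hr.1))]
      exact mul_le_mul_of_nonneg_right (min_le_right _ _)
        (intervalIntegral.integral_nonneg hx.1.le fun r hr => q0 r (h0.le.trans hr.1))
    · rw [intervalIntegral.integral_same, mul_zero, neg_mul, neg_nonpos]
      exact mul_nonneg (by positivity)
        (intervalIntegral.integral_nonneg hk.2 fun r hr => q0 r (h0.le.trans hr.1))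
  · have hk := Ioc_subset_Icc_self (VP1_rr k)
    have hk' := Ioc_subset_Icc_self (VP1_rr (k + 1))
    rw [abs_sub_comm]
    refine (VP1_Q h (VP1_rr _) (VP1_rr _)).trans ((abs_of_nonneg (intervalIntegral.integral_nonneg
      (rr_succ_le k) fun r hr => q0 r (hk'.1.trans hr.1))).trans_le
      ((intervalIntegral.integral_mono_on (rr_succ_le k) (VP1_sub h hk' hk)
        (VP1_i2 h (rr_pos k) hk' hk) fun r hr => ?_).trans
        (intervalIntegral.integral_mono_interval hk'.1 (rr_succ_le k) hk.2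
          ((ae_restrict_mem measurableSet_Ioc).mono fun r hr => w0 k r hr.1.le)
          (VP1_i2 h (rr_pos k) z p))))
    refine le_mul_of_one_le_left (q0 r (hk'.1.trans hr.1)) ?_
    have h0 := rr_pos k
    have h1 := (rr_succ k).ge.trans hr.1
    rw [om, ← mul_div_assoc, one_le_div (pow_pos (by linarith only [h0, h1]) 2)]
    linarith only [h0, h1, hr, hr.2, mul_pos_of_neg_of_neg (Mathlib.Tactic.Linarith.sub_neg_of_lt h0) (Mathlib.Tactic.Linarith.sub_neg_of_lt h0), mul_nonneg_of_nonpos_of_nonpos (le_of_lt (Mathlib.Tactic.Linarith.sub_neg_of_lt h0)) (Mathlib.Tactic.Linarith.sub_nonpos_of_le h1), mul_nonneg_of_nonpos_of_nonpos (Mathlib.Tactic.Linarith.sub_nonpos_of_le h1) (Mathlib.Tactic.Linarith.sub_nonpos_of_le hr.right)]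

theorem vi_pair {V φ : ℝ → ℝ} {C M : ℝ} (h : VI V C) (hφ : IntervalIntegrable φ volume 0 π)
    (h1 : ∀ r ∈ Ioc 0 π, r * |φ r| ≤ M) (h2 : ∀ x ∈ Icc 0 π, |∫ t in (0 : ℝ)..x, φ t| ≤ M) :
    |∫ r in (0 : ℝ)..π, φ r * V r| ≤ 4 * C * M := by
  refine VP1_lim (VP1_mul hφ h.meas h.bd) fun k => ?_
  have hk := VP1_rr k
  have hk' := Ioc_subset_Icc_self hk
  have p : π ∈ Icc 0 π := right_mem_Icc.2 pi_pos.le
  have s : ∀ a ∈ Icc 0 π, ∀ b ∈ Icc 0 π, IntervalIntegrable φ volume a b := fun a ha b hb =>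
    hφ.mono_set (uIcc_subset_uIcc (Icc_subset_uIcc ha) (Icc_subset_uIcc hb))
  have M0 := (abs_nonneg _).trans (h2 _ p)
  generalize rr k = t at *
  obtain ⟨i1, i2, i3⟩ := ibp (F := fun x => ∫ r in (0 : ℝ)..x, φ r) hk.2 (s _ hk' _ p)
    (mean_sub h.meas h.bd hk.1 hk.2).1 (fun x hx => (intervalIntegral.integral_add_adjacent_intervals
      (s _ (left_mem_Icc.2 pi_pos.le) _ hk') (s _ hk' _ ⟨hk'.1.trans hx.1, hx.2⟩)).symm)
    fun x hx => eq_add_of_sub_eq' (mean_sub h.meas h.bd hk.1 hx.1).2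
  have i4 := intervalIntegral.norm_integral_le_of_norm_le hk.2 (f := fun x => φ x * V x -
    (φ x * mean V 0 x + (∫ r in (0 : ℝ)..x, φ r) * ((V x - mean V 0 x) / x))) (.of_forall
      fun x hx => by
        have x0 := hk.1.trans hx.1
        rw [show φ x * V x - (φ x * mean V 0 x + (∫ r in (0 : ℝ)..x, φ r) *
          ((V x - mean V 0 x) / x)) = (x * φ x - ∫ r in (0 : ℝ)..x, φ r) *
            ((V x - mean V 0 x) / x) by field_simp; ring, norm_eq_abs, abs_mul, abs_div,
          abs_of_pos x0]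
        refine mul_le_mul_of_nonneg_right ((abs_sub _ _).trans ?_) (by positivity)
        rw [abs_mul, abs_of_pos x0]
        exact add_le_add (h1 x ⟨x0, hx.2⟩) (h2 x ⟨x0.le, hx.2⟩))
    ((VP1_sub h hk' p).const_mul (M + M))
  rw [intervalIntegral.integral_sub (VP1_mul (s _ hk' _ p) h.meas h.bd) (i1.add i2),
    intervalIntegral.integral_add i1 i2, i3, intervalIntegral.integral_const_mul] at i4
  have i5 := mul_le_mul_of_nonneg_left ((intervalIntegral.integral_mono_interval hk'.1 hk.2 le_rfl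
    ((ae_restrict_mem measurableSet_Ioc).mono fun r hr => div_nonneg (abs_nonneg _) hr.1.le)
    h.ii).trans h.le) (add_nonneg M0 M0)
  have b : ∀ x ∈ Ioc 0 π, |(∫ r in (0 : ℝ)..x, φ r) * mean V 0 x| ≤ M * C := fun x hx =>
    (abs_mul _ _).trans_le (mul_le_mul (h2 x (Ioc_subset_Icc_self hx)) (mean_abs_le h.bd hx.1)
      (abs_nonneg _) M0)
  obtain ⟨b1, b2⟩ := abs_le.1 (b t hk)
  obtain ⟨b3, b4⟩ := abs_le.1 (b π ⟨pi_pos, le_rfl⟩)
  obtain ⟨b5, b6⟩ := abs_le.1 (i4.trans i5)
  exact abs_le.2 ⟨by linarith only [b2, b3, b5], by linarith only [b1, b4, b6]⟩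

theorem vu_pair {v φ : ℝ → ℝ} {C M : ℝ} (h : VU v C) (y : ℝ)
    (hφ : IntervalIntegrable φ volume (-π) π) (h1 : ∀ s, |s| ≤ π → |s| * |φ s| ≤ M)
    (h2 : ∀ x, |x| ≤ π → |∫ t in (0 : ℝ)..x, φ t| ≤ M) :
    |∫ s in (-π)..π, φ s * v (y + s)| ≤ 8 * C * M := by
  have n := neg_nonpos.2 pi_pos.le
  have s1 := hφ.mono_set (uIcc_subset_uIcc left_mem_uIcc (Icc_subset_uIcc ⟨n, pi_pos.le⟩))
  have s2 := hφ.mono_set (uIcc_subset_uIcc (Icc_subset_uIcc ⟨n, pi_pos.le⟩) right_mem_uIcc)
  have m : Measurable fun s => v (y + s) := h.meas.comp (measurable_const_add y)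
  have a1 := vi_pair (h.pos y) s2 (fun r hr => by
    simpa only [abs_of_pos hr.1] using h1 r ((abs_of_pos hr.1).trans_le hr.2))
    fun x hx => h2 x ((abs_of_nonneg hx.1).trans_le hx.2)
  have a2 := vi_pair (φ := fun r => φ (-r)) (h.neg y)
    (by simpa using ((IntervalIntegrable.iff_comp_neg (by simp)).1 s1).symm) (fun r hr => by
      simpa only [abs_neg, abs_of_pos hr.1] using
        h1 (-r) ((abs_neg r).trans_le ((abs_of_pos hr.1).trans_le hr.2))) fun x hx => by
      rw [intervalIntegral.integral_comp_neg, neg_zero, intervalIntegral.integral_symm, abs_neg]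
      exact h2 _ ((abs_neg x).trans_le ((abs_of_nonneg hx.1).trans_le hx.2))
  simp only [sd, one_mul, neg_mul] at a1 a2
  rw [intervalIntegral.integral_comp_neg fun s => φ s * v (y + s), neg_zero] at a2
  rw [← intervalIntegral.integral_add_adjacent_intervals (VP1_mul s1 m fun _ => h.bd _)
    (VP1_mul s2 m fun _ => h.bd _)]
  exact (abs_add_le _ _).trans (by linarith)

end Pool.Agent.Work.MP_af796d_an.H
end

-- merged part: Pool.Agent.Work.MP_af796d_an.H.AI3
section
/-!
# Doubling, logarithmic growth, one-sided and two-sided consequences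
PLAN.  SS β r = mu β 0 r.
* os_dbl: ai_subint with p = 1/2 for both halves of [0, r].
* os_log: pick j with ρ/2^(j+1) < r ≤ ρ/2^j (exists_nat_pow_near or induction).  S r ≥ S (ρ/2^(j+1)) ≥ η^(j+1) S ρ and j log 2 ≤ log (ρ/r),
  so A = - 2 log η works (1/log 2 ≤ 2).  os_pow: S r ≤ S (ρ/2^j) ≤ (1 - η)^j S ρ and j + 1 ≥ log (ρ/r)/log 2 ≥ log (ρ/r); α = - log (1 - η).
* os_A7: 0 ≤ log S ρ - log S r ≤ A (1 + log ρ - log r), and ∫_0^ρ (log ρ - log r) dr = ρ (integral_log, intervalIntegrable_log').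
* os_A6: for r > 0, log W r = (β r - log (S ρ/ρ)) + (log S ρ - log S r) - (log ρ - log r); AI.abs_le and os_A7.
* os_sg: sg_anti, sg_nonpos (Mod1.lean); 0 < S r ≤ S π ≤ 2π - 1/C; A = |sg (2π - 1/C)|.
* os_far: S 1 ≥ η S π ≥ η/C (ai_subint with p = 1/4), S π ≤ 2π.
* st_os: both halves of [y - π, y + π] have mass ≥ η 2π (total mass 2π by Good.per); C' = max C (1/η).
* st_qs: both halves of [y - r, y + r] have mass between η μ and μ.
* ui_of_log: 1 + |log |s|| is integrable near 0 with small integral on short intervals.  Interval integrability on [y - π, y + π]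
  by domination (measurable since Φ is continuous), then on every interval by periodicity (Good.lg_periodic,
  Function.Periodic.intervalIntegrable).
* St.lg_le: lg = log + sg, os_sg, os_log with ρ = π, os_far.
-/

set_option autoImplicit false

namespace Pool.Agent.Work.MP_af796d_an.H

open MeasureTheory Set Real Metric Filter Topology

variable {β Φ b : ℝ → ℝ} {C : ℝ}

lemma SS_zero (β : ℝ → ℝ) : SS β 0 = 0 := by
  exact intervalIntegral.integral_same

lemma AI.SS_pos (h : AI β C) {r : ℝ} (hr : 0 < r) : 0 < SS β r := by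
  exact h.mu_pos hr

lemma AI.SS_mono (h : AI β C) : StrictMono (SS β) := by
  intro a c hac
  have h1 := h.mu_add 0 a c
  have h2 := h.mu_pos hac
  change mu β 0 a < mu β 0 c
  linarith

lemma AI.SS_cont (h : AI β C) : Continuous (SS β) := by
  exact intervalIntegral.continuous_primitive h.iie 0

lemma AI.SS_sub (h : AI β C) (a c : ℝ) : SS β c - SS β a = mu β a c := by
  exact sub_eq_of_eq_add' (h.mu_add 0 a c).symm

lemma AI.measurable_WW (h : AI β C) : Measurable (WW β) := by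
  exact (measurable_id.mul h.meas.exp).div h.SS_cont.measurable

lemma OS.mono (h : OS β C) {C' : ℝ} (hC : C ≤ C') : OS β C' := by
  have := one_div_le_one_div_of_le (one_pos.trans_le h.ai.one_le) hC
  exact ⟨h.ai.mono hC, this.trans h.lo, by linarith only [this, h, h.hi]⟩

lemma St.mono (h : St Φ b C) {C' : ℝ} (hC : C ≤ C') : St Φ b C' := by
  exact ⟨h.good, h.ai.mono hC, h.per, h.int⟩

lemma CS.mono {c : ℕ → ℝ} (h : CS c C) {C' : ℝ} (hC : C ≤ C') : CS c C' := by
  exact ⟨h.one.trans hC, fun k => (one_div_le_one_div_of_le (one_pos.trans_le h.one) hC).trans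
    (h.lo k), fun k => (h.hi k).trans hC, fun n => (h.bv n).trans hC⟩

lemma WS1.mono {c N : ℕ → ℝ} (h : WS1 β c N C) {C' : ℝ} (hC : C ≤ C') : WS1 β c N C' := by
  exact ⟨h.cs.mono hC, ⟨h.sm.nn, fun n => (h.sm.sum n).trans hC⟩, h.osc⟩

lemma WSy.mono {c : ℕ → ℝ} {y : ℝ} (h : WSy b y c C) {C' : ℝ} (hC : C ≤ C') : WSy b y c C' := by
  obtain ⟨N₁, N₂, h1, h2⟩ := h
  exact ⟨N₁, N₂, h1.mono hC, h2.mono hC⟩

theorem os_dbl (C : ℝ) : ∃ η : ℝ, 0 < η ∧ η ≤ 1 / 2 ∧ ∀ β : ℝ → ℝ, AI β C → ∀ r, 0 < r → r ≤ π →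
    η * SS β r ≤ SS β (r / 2) ∧ η * SS β r ≤ SS β r - SS β (r / 2) := by
  obtain ⟨η, h0, h1, H⟩ := ai_subint C (p := 1 / 2) (by norm_num)
  refine ⟨η, h0, h1, fun β h r hr hπ => ⟨?_, ?_⟩⟩
  · exact H β h 0 r 0 (r / 2) le_rfl (by linarith only [hr]) (by linarith) (by linarith) (by linarith only [])
  · rw [h.SS_sub]
    exact H β h 0 r (r / 2) r (by linarith only [hr]) (by linarith only [hr]) le_rfl (by linarith only [hr, hπ]) (by linarith only [])

lemma AI3_near {r ρ : ℝ} (hr : 0 < r) (h : r ≤ ρ) : ∃ j : ℕ, ρ / 2 ^ (j + 1) ≤ r ∧ r ≤ ρ / 2 ^ j ∧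
    (j : ℝ) ≤ 2 * (Real.log ρ - Real.log r) ∧ Real.log ρ - Real.log r ≤ j + 1 := by
  obtain ⟨j, h1, h2⟩ := exists_nat_pow_near ((one_le_div hr).2 h) one_lt_two
  have h3 := Real.log_le_log (by positivity) h1
  have h4 := Real.log_le_log (div_pos (hr.trans_le h) hr) h2.le
  rw [Real.log_pow, Real.log_div (hr.trans_le h).ne' hr.ne'] at h3 h4
  rw [le_div_iff₀ hr] at h1
  rw [div_lt_iff₀ hr] at h2
  push_cast at h4
  have h5 : (0 : ℝ) ≤ j := j.cast_nonneg
  exact ⟨j, by rw [div_le_iff₀ (by positivity)]; linarith,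
    by rw [le_div_iff₀ (by positivity)]; linarith, by linarith only [h3, h4, Real.log_two_gt_d9, mul_nonneg_of_nonpos_of_nonpos (Mathlib.Tactic.Linarith.sub_nonpos_of_le (Mathlib.Tactic.Linarith.natCast_nonneg ℝ j)) (Mathlib.Tactic.Linarith.sub_nonpos_of_le h3), mul_nonneg_of_nonpos_of_nonpos (Mathlib.Tactic.Linarith.sub_nonpos_of_le (Mathlib.Tactic.Linarith.natCast_nonneg ℝ j)) (Mathlib.Tactic.Linarith.sub_nonpos_of_le h4), mul_nonneg_of_nonpos_of_nonpos (Mathlib.Tactic.Linarith.sub_nonpos_of_le (Mathlib.Tactic.Linarith.natCast_nonneg ℝ j)) (le_of_lt (Mathlib.Tactic.Linarith.sub_neg_of_lt log_two_gt_d9))],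
    by linarith only [h4, Real.log_two_lt_d9, mul_nonneg_of_nonpos_of_nonpos (Mathlib.Tactic.Linarith.sub_nonpos_of_le (Mathlib.Tactic.Linarith.natCast_nonneg ℝ j)) (le_of_lt (Mathlib.Tactic.Linarith.sub_neg_of_lt log_two_lt_d9))]⟩

lemma AI3_iter (C : ℝ) : ∃ α A : ℝ, 0 < α ∧ 0 ≤ A ∧ ∀ β : ℝ → ℝ, AI β C → ∀ ρ, 0 < ρ → ρ ≤ π →
    ∀ j : ℕ, j * α ≤ Real.log (SS β ρ) - Real.log (SS β (ρ / 2 ^ j)) ∧
      Real.log (SS β ρ) - Real.log (SS β (ρ / 2 ^ j)) ≤ j * A := by
  obtain ⟨η, h0, h1, H⟩ := os_dbl C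
  refine ⟨-Real.log (1 - η), -Real.log η, neg_pos.2 (Real.log_neg (by linarith only [h0, h1]) (by linarith)),
    neg_nonneg.2 (Real.log_nonpos h0.le (by linarith)), fun β h ρ hρ hπ j => ?_⟩
  induction j with
  | zero => simp
  | succ j ih =>
    have hr : 0 < ρ / 2 ^ j := by positivity
    obtain ⟨h2, h3⟩ := H β h _ hr ((div_le_self hρ.le (one_le_pow₀ one_le_two)).trans hπ)
    have h4 := h.SS_pos hr
    have h5 := Real.log_le_log (mul_pos h0 h4) h2
    have h6 := Real.log_le_log (h.SS_pos (half_pos hr))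
      (by linarith only [h3] : SS β (ρ / 2 ^ j / 2) ≤ (1 - η) * SS β (ρ / 2 ^ j))
    rw [Real.log_mul (by linarith only [h0, h1]) h4.ne'] at h5 h6
    rw [pow_succ, ← div_div]
    push_cast
    exact ⟨by linarith only [ih, h6, ih.1], by linarith only [ih, h5, ih.2]⟩

theorem os_log (C : ℝ) : ∃ A : ℝ, 0 ≤ A ∧ ∀ β : ℝ → ℝ, AI β C → ∀ r ρ, 0 < r → r ≤ ρ → ρ ≤ π →
    0 ≤ Real.log (SS β ρ) - Real.log (SS β r) ∧
      Real.log (SS β ρ) - Real.log (SS β r) ≤ A * (1 + (Real.log ρ - Real.log r)) := by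
  obtain ⟨α, A, -, hA, H⟩ := AI3_iter C
  refine ⟨2 * A, by linarith, fun β h r ρ hr hρ hπ =>
    ⟨sub_nonneg.2 (Real.log_le_log (h.SS_pos hr) (h.SS_mono.monotone hρ)), ?_⟩⟩
  obtain ⟨j, h1, -, h2, -⟩ := AI3_near hr hρ
  have h0 := hr.trans_le hρ
  have h3 := (H β h ρ h0 hπ (j + 1)).2
  have h4 := Real.log_le_log (h.SS_pos (by positivity)) (h.SS_mono.monotone h1)
  push_cast at h3
  linarith only [hA, h4, h3, h2, mul_nonneg_of_nonpos_of_nonpos (Mathlib.Tactic.Linarith.sub_nonpos_of_le hA) (Mathlib.Tactic.Linarith.sub_nonpos_of_le h2)]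

theorem os_pow (C : ℝ) : ∃ α : ℝ, 0 < α ∧ ∀ β : ℝ → ℝ, AI β C → ∀ r ρ, 0 < r → r ≤ ρ → ρ ≤ π →
    α * ((Real.log ρ - Real.log r) - 1) ≤ Real.log (SS β ρ) - Real.log (SS β r) := by
  obtain ⟨α, A, hα, -, H⟩ := AI3_iter C
  refine ⟨α, hα, fun β h r ρ hr hρ hπ => ?_⟩
  obtain ⟨j, -, h1, -, h2⟩ := AI3_near hr hρ
  have h3 := (H β h ρ (hr.trans_le hρ) hπ j).1
  have h4 := Real.log_le_log (h.SS_pos hr) (h.SS_mono.monotone h1)
  linarith only [h3, h4, hα, h2, mul_nonneg_of_nonpos_of_nonpos (le_of_lt (Mathlib.Tactic.Linarith.sub_neg_of_lt hα)) (Mathlib.Tactic.Linarith.sub_nonpos_of_le h2)]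

lemma AI3_dom {f g : ℝ → ℝ} {a c : ℝ} (hac : a ≤ c) (hf : Measurable f)
    (hg : IntervalIntegrable g volume a c) (h : ∀ r ∈ Ioc a c, |f r| ≤ g r) :
    IntervalIntegrable f volume a c ∧ ∫ r in a..c, |f r| ≤ ∫ r in a..c, g r := by
  have hi : IntervalIntegrable f volume a c := hg.mono_fun' hf.aestronglyMeasurable (by
    rw [uIoc_of_le hac]
    exact ae_restrict_of_forall_mem measurableSet_Ioc h)
  exact ⟨hi, intervalIntegral.integral_mono_on_of_le_Ioo hac hi.abs hg fun x hx =>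
    h x (Ioo_subset_Ioc_self hx)⟩

lemma AI3_log (ρ : ℝ) : IntervalIntegrable (fun r => Real.log ρ - Real.log r) volume 0 ρ ∧
    ∫ r in (0 : ℝ)..ρ, (Real.log ρ - Real.log r) = ρ := by
  refine ⟨intervalIntegrable_const.sub intervalIntegral.intervalIntegrable_log', ?_⟩
  rw [intervalIntegral.integral_sub intervalIntegrable_const
    intervalIntegral.intervalIntegrable_log', integral_log]
  simp

theorem os_A7 (C : ℝ) : ∃ K : ℝ, 0 ≤ K ∧ ∀ β : ℝ → ℝ, AI β C → ∀ ρ, 0 < ρ → ρ ≤ π →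
    IntervalIntegrable (fun r => Real.log (SS β r)) volume 0 ρ ∧
      ∫ r in (0 : ℝ)..ρ, |Real.log (SS β r) - Real.log (SS β ρ)| ≤ K * ρ := by
  obtain ⟨A, hA, H⟩ := os_log C
  refine ⟨2 * A, by linarith, fun β h ρ hρ hπ => ?_⟩
  obtain ⟨h1, h2⟩ := AI3_dom (f := fun r => Real.log (SS β r) - Real.log (SS β ρ)) hρ.le
    (h.SS_cont.measurable.log.sub_const _)
    ((intervalIntegrable_const.add (AI3_log ρ).1).const_mul A) fun r hr => by
      obtain ⟨h1, h2⟩ := H β h r ρ hr.1 hr.2 hπ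
      rwa [abs_sub_comm, abs_of_nonneg h1]
  refine ⟨by simpa using h1.add (intervalIntegrable_const (c := Real.log (SS β ρ))),
    h2.trans_eq ?_⟩
  rw [intervalIntegral.integral_const_mul,
    intervalIntegral.integral_add intervalIntegrable_const (AI3_log ρ).1, (AI3_log ρ).2]
  simp only [intervalIntegral.integral_const, sub_zero, smul_eq_mul, mul_one]
  ring

theorem os_A6 (C : ℝ) : ∃ K : ℝ, 0 ≤ K ∧ ∀ β : ℝ → ℝ, AI β C → ∀ ρ, 0 < ρ → ρ ≤ π →
    IntervalIntegrable (fun r => Real.log (WW β r)) volume 0 ρ ∧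
      ∫ r in (0 : ℝ)..ρ, |Real.log (WW β r)| ≤ K * ρ := by
  obtain ⟨K, hK, H⟩ := os_A7 C
  refine ⟨3 + |Real.log C| + K, by positivity, fun β h ρ hρ hπ => ?_⟩
  obtain ⟨a1, a2⟩ := H β h ρ hρ hπ
  have b1 := ((h.ii 0 ρ).sub
    (intervalIntegrable_const (c := Real.log (mu β 0 ρ / (ρ - 0))))).abs
  have b2 := h.abs_le hρ (by linarith)
  have a3 := (a1.sub (intervalIntegrable_const (c := Real.log (SS β ρ)))).abs
  obtain ⟨h1, h2⟩ := AI3_dom hρ.le h.measurable_WW.log ((b1.add a3).add (AI3_log ρ).1)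
    fun r hr => by
      have e : Real.log (WW β r) = (β r - Real.log (mu β 0 ρ / (ρ - 0))) -
          (Real.log (SS β r) - Real.log (SS β ρ)) - (Real.log ρ - Real.log r) := by
        rw [WW, Real.log_div (mul_pos hr.1 (Real.exp_pos _)).ne' (h.SS_pos hr.1).ne',
          Real.log_mul hr.1.ne' (Real.exp_pos _).ne', Real.log_exp, sub_zero,
          Real.log_div (h.mu_pos hρ).ne' hρ.ne']
        change _ = _ - (Real.log (SS β ρ) - _) - _ - _
        ring
      rw [e]
      exact (abs_sub _ _).trans (add_le_add (abs_sub _ _)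
        (abs_of_nonneg (sub_nonneg.2 (Real.log_le_log hr.1 hr.2))).le)
  refine ⟨h1, h2.trans ?_⟩
  rw [intervalIntegral.integral_add (b1.add a3) (AI3_log ρ).1, intervalIntegral.integral_add b1 a3,
    (AI3_log ρ).2]
  linarith only [a2, b2, hρ, le_abs_self (Real.log C), mul_nonneg_of_nonpos_of_nonpos (le_of_lt (Mathlib.Tactic.Linarith.sub_neg_of_lt hρ)) (Mathlib.Tactic.Linarith.sub_nonpos_of_le (le_abs_self (log C)))]

theorem os_sg (C : ℝ) : ∃ A : ℝ, 0 ≤ A ∧ ∀ β : ℝ → ℝ, OS β C →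
    AntitoneOn (fun r => sg (SS β r)) (Ioc 0 π) ∧ ∀ r ∈ Ioc 0 π, |sg (SS β r)| ≤ A := by
  refine ⟨|sg (2 * π - 1 / C)|, abs_nonneg _, fun β h => ?_⟩
  have hC : 0 < 1 / C := one_div_pos.2 (one_pos.trans_le h.ai.one_le)
  have hb : ∀ r ∈ Ioc 0 π, SS β r ≤ 2 * π - 1 / C := fun r hr =>
    (h.ai.SS_mono.monotone hr.2).trans h.hi
  refine ⟨fun r hr s hs H => sg_anti (h.ai.SS_pos hr.1) (h.ai.SS_mono.monotone H)
    (by linarith only [hC, hb, hs, hb s hs]), fun r hr => ?_⟩
  rw [abs_of_nonpos (sg_nonpos (h.ai.SS_pos hr.1) (by linarith [hb r hr]))]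
  exact (neg_le_neg (sg_anti (h.ai.SS_pos hr.1) (hb r hr) (by linarith))).trans (neg_le_abs _)

theorem os_far (C : ℝ) : ∃ A : ℝ, 0 ≤ A ∧ ∀ β : ℝ → ℝ, OS β C →
    ∀ r ∈ Icc 1 π, |Real.log (SS β r)| ≤ A := by
  obtain ⟨η, h0, -, H⟩ := ai_subint C (p := 1 / 4) (by norm_num)
  refine ⟨|Real.log (η * (1 / C))| + |Real.log (2 * π)|, by positivity, fun β h r hr => ?_⟩
  have hC : 0 < 1 / C := one_div_pos.2 (one_pos.trans_le h.ai.one_le)
  have h1 : η * SS β π ≤ SS β 1 := H β h.ai 0 π 0 1 le_rfl one_pos (hr.1.trans hr.2)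
    (by linarith [pi_pos]) (by linarith only [pi_lt_four])
  have h2 := Real.log_le_log (mul_pos h0 hC)
    (((mul_le_mul_of_nonneg_left h.lo h0.le).trans h1).trans (h.ai.SS_mono.monotone hr.1))
  have h3 := Real.log_le_log (h.ai.SS_pos (one_pos.trans_le hr.1))
    ((h.ai.SS_mono.monotone hr.2).trans (h.hi.trans (sub_le_self _ hC.le)))
  exact abs_le.2 ⟨by linarith only [h2, neg_abs_le (Real.log (η * (1 / C))), abs_nonneg (Real.log (2 * π))],
    by linarith only [h3, le_abs_self (Real.log (2 * π)), abs_nonneg (Real.log (η * (1 / C)))]⟩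

lemma St.SS_pos_eq (h : St Φ b C) (y r : ℝ) : SS (sd b y 1) r = Φ (y + r) - Φ y := by
  exact (mu_sd_pos b y 0 r).trans (by rw [add_zero, h.int, mu])

lemma St.SS_neg_eq (h : St Φ b C) (y r : ℝ) : SS (sd b y (-1)) r = Φ y - Φ (y - r) := by
  exact (mu_sd_neg b y 0 r).trans (by rw [sub_zero, h.int, mu])

lemma AI3_half (C : ℝ) : ∃ η : ℝ, 0 < η ∧ η ≤ 1 / 2 ∧ ∀ Φ b : ℝ → ℝ, St Φ b C → ∀ y r, 0 < r → r ≤ π →
    η * (Φ (y + r) - Φ (y - r)) ≤ Φ (y + r) - Φ y ∧ η * (Φ (y + r) - Φ (y - r)) ≤ Φ y - Φ (y - r) := by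
  obtain ⟨η, h0, h1, H⟩ := ai_subint C (p := 1 / 2) (by norm_num)
  refine ⟨η, h0, h1, fun Φ b h y r hr hπ => ?_⟩
  simp only [h.int]
  exact ⟨H b h.ai _ _ y (y + r) (by linarith) (by linarith) le_rfl (by linarith) (by linarith only []),
    H b h.ai _ _ (y - r) y le_rfl (by linarith) (by linarith) (by linarith) (by linarith only [])⟩

theorem st_os (C : ℝ) : ∃ C' : ℝ, C ≤ C' ∧ ∀ Φ b : ℝ → ℝ, St Φ b C →
    ∀ y, OS (sd b y 1) C' ∧ OS (sd b y (-1)) C' := by
  obtain ⟨η, h0, -, H⟩ := AI3_half C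
  refine ⟨max C (1 / η), le_max_left _ _, fun Φ b h y => ?_⟩
  obtain ⟨h1, h2⟩ := H Φ b h y π pi_pos le_rfl
  have h3 := h.good.per (y - π)
  rw [show y - π + 2 * π = y + π by ring] at h3
  have h4 : 1 / max C (1 / η) ≤ η :=
    (one_div_le_one_div_of_le (one_div_pos.2 h0) (le_max_right _ _)).trans_eq (one_div_one_div η)
  have h5 : η ≤ η * (Φ (y + π) - Φ (y - π)) :=
    le_mul_of_one_le_right h0.le (by linarith only [h3, pi_gt_three])
  refine ⟨⟨(h.ai.sd_pos y).mono (le_max_left _ _), ?_, ?_⟩,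
    ⟨(h.ai.sd_neg y).mono (le_max_left _ _), ?_, ?_⟩⟩ <;>
  simp only [h.SS_pos_eq, h.SS_neg_eq] <;> linarith only [h1, h4, h5, h2, h3]

theorem st_qs (C : ℝ) : ∃ A : ℝ, 0 ≤ A ∧ ∀ Φ b : ℝ → ℝ, St Φ b C → ∀ y r, 0 < r → r ≤ π →
    |Real.log (SS (sd b y 1) r) - Real.log (SS (sd b y (-1)) r)| ≤ A := by
  obtain ⟨η, h0, h1, H⟩ := AI3_half C
  refine ⟨-Real.log η, neg_nonneg.2 (Real.log_nonpos h0.le (by linarith only [h0, h1])),
    fun Φ b h y r hr hπ => ?_⟩
  obtain ⟨h2, h3⟩ := H Φ b h y r hr hπ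
  have p1 : 0 < Φ (y + r) - Φ y := sub_pos.2 (h.good.mono (by linarith))
  have p2 : 0 < Φ y - Φ (y - r) := sub_pos.2 (h.good.mono (by linarith))
  have h4 := Real.log_le_log (mul_pos h0 p1)
    ((mul_le_mul_of_nonneg_left (by linarith) h0.le).trans h3)
  have h5 := Real.log_le_log (mul_pos h0 p2)
    ((mul_le_mul_of_nonneg_left (by linarith) h0.le).trans h2)
  rw [Real.log_mul h0.ne' p1.ne'] at h4
  rw [Real.log_mul h0.ne' p2.ne'] at h5
  rw [h.SS_pos_eq, h.SS_neg_eq]
  exact abs_le.2 ⟨by linarith, by linarith⟩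

theorem ui_of_log (hΦ : Good Φ) {A : ℝ}
    (h : ∀ y s, s ≠ 0 → |s| ≤ π → |lg (Φ (y + s) - Φ y)| ≤ A * (1 + |Real.log s|)) : UI Φ := by
  have hA : 0 ≤ A := by
    simpa using (abs_nonneg _).trans (h 0 1 one_ne_zero (by rw [abs_one]; linarith [pi_gt_three]))
  have hg : ∀ a c, IntervalIntegrable (fun s => A * (1 + |Real.log s|)) volume a c := fun a c =>
    (intervalIntegrable_const.add intervalIntegral.intervalIntegrable_log'.abs).const_mul A
  have key : ∀ y r, 0 < r → r ≤ π →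
      IntervalIntegrable (fun t => lg (Φ t - Φ y)) volume (y - r) (y + r) ∧
      ∫ t in (y - r)..(y + r), |lg (Φ t - Φ y)| ≤ ∫ s in (-r)..r, A * (1 + |Real.log s|) := by
    intro y r hr hπ
    have := AI3_dom (a := y - r) (c := y + r) (f := fun t => lg (Φ t - Φ y))
      (g := fun t => A * (1 + |Real.log (t - y)|)) (by linarith)
      (measurable_lg.comp (hΦ.cont.measurable.sub_const _))
      (by simpa only [sub_add_cancel] using (hg (y - r - y) (y + r - y)).comp_sub_right y)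
      fun t ht => by
        by_cases e : t - y = 0
        · rw [sub_eq_zero.1 e]
          simpa [lg, ch_zero] using hA
        · simpa using h y (t - y) e (abs_le.2 ⟨by linarith [ht.1], by linarith [ht.2]⟩)
    rwa [intervalIntegral.integral_comp_sub_right (fun s => A * (1 + |Real.log s|)),
      sub_sub_cancel_left, add_sub_cancel_left] at this
  refine ⟨fun y p q => (hΦ.lg_periodic y).intervalIntegrable (t := y - π) (by positivity) ?_ p q,
    fun ε hε => ?_⟩
  · rw [show y - π + 2 * π = y + π by ring]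
    exact (key y π pi_pos le_rfl).1
  · have hc := intervalIntegral.continuous_primitive hg 0
    have ht := ((hc.sub (hc.comp continuous_neg)).tendsto' 0 0 (by simp)).mono_left
      (nhdsWithin_le_nhds (s := Ioi 0))
    obtain ⟨r, h1, h2⟩ := ((ht.eventually_le_const hε).and (Ioc_mem_nhdsGT pi_pos)).exists
    refine ⟨r, h2.1, fun y => (key y r h2.1 h2.2).2.trans (le_of_eq_of_le ?_ h1)⟩
    exact (intervalIntegral.integral_interval_sub_left (hg 0 r) (hg 0 (-r))).symm

lemma St.lg_le (h : St Φ b C) : ∃ A : ℝ, ∀ y s, s ≠ 0 → |s| ≤ π →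
    |lg (Φ (y + s) - Φ y)| ≤ A * (1 + |Real.log s|) := by
  obtain ⟨C', -, H⟩ := st_os C
  obtain ⟨A1, a1, H1⟩ := os_sg C'
  obtain ⟨A2, a2, H2⟩ := os_log C'
  obtain ⟨A3, a3, H3⟩ := os_far C'
  have key : ∀ β, OS β C' → ∀ r, 0 < r → r ≤ π →
      |lg (SS β r)| ≤ (A1 + A3 + 4 * A2) * (1 + |Real.log r|) := fun β hβ r hr hπ => by
    have h1 := abs_le.1 ((H1 β hβ).2 r ⟨hr, hπ⟩)
    have h2 := H2 β hβ.ai r π hr hπ le_rfl
    have h3 := abs_le.1 (H3 β hβ π ⟨by linarith only [hr, hπ, pi_gt_three], le_rfl⟩)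
    have h4 := Real.log_le_sub_one_of_pos pi_pos
    have h5 := mul_le_mul_of_nonneg_left (show 1 + (Real.log π - Real.log r) ≤ 4 + |Real.log r| by
      linarith [neg_abs_le (Real.log r), pi_lt_four]) a2
    have h6 := mul_nonneg (show 0 ≤ A1 + A3 + 3 * A2 by positivity) (abs_nonneg (Real.log r))
    have h7 := mul_nonneg a2 (abs_nonneg (Real.log r))
    unfold sg at h1
    exact abs_le.2 ⟨by linarith [h1.1, h2.2, h3.1], by linarith only [h1, h2, h3, h5, h6, h1.2, h2.1, h3.2]⟩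
  refine ⟨A1 + A3 + 4 * A2, fun y s hs hπ => ?_⟩
  rcases hs.lt_or_gt with h0 | h0
  · have := key _ (H Φ b h y).2 (-s) (by linarith) ((neg_le_abs s).trans hπ)
    rwa [h.SS_neg_eq, sub_neg_eq_add, ← neg_sub, lg_neg, Real.log_neg_eq_log] at this
  · have := key _ (H Φ b h y).1 s h0 ((le_abs_self s).trans hπ)
    rwa [h.SS_pos_eq] at this

theorem St.ui (h : St Φ b C) : UI Φ := by
  obtain ⟨A, hA⟩ := h.lg_le
  exact ui_of_log h.good hA

end Pool.Agent.Work.MP_af796d_an.H
end

-- merged part: Pool.Agent.Work.MP_af796d_an.H.ML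
section
/-!
# The local decomposition of the logarithmic potential
PLAN.  r = rr k, ψ = psi v y k (measurable, |ψ| ≤ 2 C), Q1, Q2 the two means.  For ρ > 0: ψ ρ = sd v y 1 ρ - Q1, ψ (-ρ) = sd v y (-1) ρ - Q2.
kap r ρ = 1/r on (0, r], r/ρ^2 on [r, π], ≥ 1/(4 r) on (0, 2 r].
* psi_near: |indicator ψ| ≤ 4 r |ψ| kap on each side.
* P0_bar: ∫_0^π lg (s - σ) dσ = ∫_{s-π}^s lg, ∫_{-π}^0 lg (s - σ) = ∫_s^{s+π} lg; with G x = ∫_0^x lg and periodicity of lg the first is
  const + ∫_0^s (lg t - lg (t + π)) and the second is const - ∫_0^s (lg t - lg (t + π)).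
* rm_lip: v (y + σ) = step + 1_in ψ + 1_near ψ + 1_out ψ with in = {|σ| < r/8}, out = {|σ| > 2 r}; P0 is additive on bounded measurable functions (intervalIntegrable_lg_sub).
  So RM s - RM s' = (1/π) ∫ 1_in ψ (lg (s - σ) - lg (s' - σ)) + (1/π) ∫ 1_out ψ (lg (s - σ) - lg (s' - σ) - (s - s') lg1 (-σ)).
  For x between s and s' we have r/4 ≤ |x| ≤ r.  Inner: |x - σ| ≥ r/8, ch ≥ r/16, lg_lip gives 16 |s - s'|/r = 16 kap |s - s'|.
  Outer: |σ|/2 ≤ |x - σ| ≤ π + 1, ch (x - σ) ≥ |σ|/6 (le_ch3), ch σ ≥ |σ|/2; the derivative lg1 (x - σ) - lg1 (-σ) is ch x/(ch (x - σ) ch σ) ≤ 12 r/σ^2 (abs_lg1_sub).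
* ek_jump: ψ_k - ψ_{k+1} is constant on each side; ∫_{2r}^π lg1 = lg π - lg (2 r) = log 2 - lg (2 r) (hasDerivAt_lg), lg1_neg.  So
  ek k - ek (k+1) = (g k - g (k+1)) (log 2 - lg (2 r)) - (1/π) ∫_{r < |σ| ≤ 2r} lg1 (-σ) ψ_{k+1}, where |lg1| ≤ 2/r and kap (r/2) ≥ 1/(8 r) there;
  log 2 ≤ lg (2 r) - log (r/2) ≤ log 4 ≤ 2 (le_ch', ch_le_abs), |g k - g (k+1)| ≤ (n1 k + n2 k)/π.
-/

set_option autoImplicit false

namespace Pool.Agent.Work.MP_af796d_an.H

open MeasureTheory Set Real Metric Filter Topology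

variable {v : ℝ → ℝ} {C y : ℝ} {n₁ n₂ : ℕ → ℝ}

lemma measurable_psi (h : VU v C) (y : ℝ) (k : ℕ) : Measurable (psi v y k) := by
  exact (h.meas.comp (measurable_const_add y)).sub
    (Measurable.ite measurableSet_Ioi measurable_const measurable_const)

lemma abs_psi_le (h : VU v C) (y : ℝ) (k : ℕ) (σ : ℝ) : |psi v y k σ| ≤ 2 * C := by
  have h1 := abs_le.1 (h.bd (y + σ))
  have h2 := abs_le.1 (mean_abs_le (h.pos y).bd (rr_pos k))
  have h3 := abs_le.1 (mean_abs_le (h.neg y).bd (rr_pos k))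
  unfold psi
  split_ifs <;> rw [abs_le] <;> constructor <;> linarith only [h1, h2, h3]

lemma measurableSet_nr (k : ℕ) : MeasurableSet (nr k) := by
  exact (measurableSet_le measurable_const measurable_abs).inter
    (measurableSet_le measurable_abs measurable_const)

lemma abs_gk_le (h : VU v C) (y : ℝ) (k : ℕ) : |gk v y k| ≤ C := by
  have h2 := abs_le.1 (mean_abs_le (h.pos y).bd (rr_pos k))
  have h3 := abs_le.1 (mean_abs_le (h.neg y).bd (rr_pos k))
  have h0 := (abs_nonneg _).trans (h.bd 0)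
  rw [gk, abs_div, abs_of_pos pi_pos, div_le_iff₀ pi_pos, abs_le]
  constructor <;> linarith only [h2, h3, pi_gt_three, mul_nonneg_of_nonpos_of_nonpos (Mathlib.Tactic.Linarith.sub_nonpos_of_le h2.left) (le_of_lt (Mathlib.Tactic.Linarith.sub_neg_of_lt pi_gt_three)), mul_nonneg_of_nonpos_of_nonpos (Mathlib.Tactic.Linarith.sub_nonpos_of_le h2.right) (le_of_lt (Mathlib.Tactic.Linarith.sub_neg_of_lt pi_gt_three))]

lemma gk_sub_le {C' : ℝ} (h₁ : VD (sd v y 1) n₁ C') (h₂ : VD (sd v y (-1)) n₂ C') (k : ℕ) :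
    |gk v y (k + 1) - gk v y k| ≤ n₁ k + n₂ k := by
  have h2 := abs_le.1 (h₁.df k)
  have h3 := abs_le.1 (h₂.df k)
  have h0 := add_nonneg (h₁.sm.nn k) (h₂.sm.nn k)
  rw [gk, gk, ← sub_div, abs_div, abs_of_pos pi_pos, div_le_iff₀ pi_pos, abs_le]
  constructor <;> linarith only [h2, h3, pi_gt_three, mul_nonneg_of_nonpos_of_nonpos (Mathlib.Tactic.Linarith.sub_nonpos_of_le h2.left) (le_of_lt (Mathlib.Tactic.Linarith.sub_neg_of_lt pi_gt_three)), mul_nonneg_of_nonpos_of_nonpos (Mathlib.Tactic.Linarith.sub_nonpos_of_le h2.right) (le_of_lt (Mathlib.Tactic.Linarith.sub_neg_of_lt pi_gt_three)), mul_nonneg_of_nonpos_of_nonpos (Mathlib.Tactic.Linarith.sub_nonpos_of_le h3.left) (le_of_lt (Mathlib.Tactic.Linarith.sub_neg_of_lt pi_gt_three)), mul_nonneg_of_nonpos_of_nonpos (Mathlib.Tactic.Linarith.sub_nonpos_of_le h3.right) (le_of_lt (Mathlib.Tactic.Linarith.sub_neg_of_lt pi_gt_three))]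

lemma ML_kap {h ρ A c : ℝ} (hc : 0 ≤ c) (h1 : A ≤ c * (1 / h)) (h2 : A ≤ c * (h / ρ ^ 2)) :
    A ≤ c * kap h ρ := by
  rw [kap, mul_min_of_nonneg _ _ hc]
  exact le_min h1 h2

lemma ML_key {C' c : ℝ} (h₁ : VD (sd v y 1) n₁ C') (h₂ : VD (sd v y (-1)) n₂ C') (k : ℕ)
    {f : ℝ → ℝ} (hc : 0 ≤ c)
    (hf : ∀ σ, |σ| ≤ π → σ ≠ 0 → |f σ| ≤ c * kap (rr k) |σ| * |psi v y k σ|) :
    |∫ σ in (-π)..π, f σ| ≤ c * (n₁ k + n₂ k) := by
  have e1 : EqOn (fun r => |sd v y 1 r - mean (sd v y 1) 0 (rr k)| * kap (rr k) r)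
      (fun σ => |psi v y k σ| * kap (rr k) |σ|) (uIoo 0 π) := fun σ hσ => by
    rw [uIoo_of_le pi_pos.le] at hσ
    simp only [psi, sd, if_pos hσ.1, abs_of_pos hσ.1, one_mul]
  have e2 : EqOn (fun r => |sd v y (-1) (-r) - mean (sd v y (-1)) 0 (rr k)| * kap (rr k) (-r))
      (fun σ => |psi v y k σ| * kap (rr k) |σ|) (uIoo (-π) 0) := fun σ hσ => by
    rw [uIoo_of_le (by linarith [pi_pos])] at hσ
    simp only [psi, sd, if_neg hσ.2.not_gt, abs_of_neg hσ.2, neg_mul_neg, one_mul]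
  have i1 := (h₁.ii k).congr_uIoo e1
  have i2 := ((IntervalIntegrable.iff_comp_neg enorm_ne_top).1 (h₂.ii k)).symm
  rw [neg_zero] at i2
  have l1 := h₁.le k
  have l2 := h₂.le k
  have l3 := intervalIntegral.integral_comp_neg (a := -π) (b := 0)
    fun r => |sd v y (-1) r - mean (sd v y (-1)) 0 (rr k)| * kap (rr k) r
  rw [neg_zero, neg_neg, intervalIntegral.integral_congr_uIoo e2] at l3
  rw [intervalIntegral.integral_congr_uIoo e1] at l1
  have i3 := i2.congr_uIoo e2
  refine (intervalIntegral.norm_integral_le_of_norm_le (f := f) (by linarith [pi_pos]) ?_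
    ((i3.trans i1).const_mul c)).trans ?_
  · filter_upwards [compl_mem_ae_iff.2 (measure_singleton (0 : ℝ))] with σ h0 hσ
    exact (hf σ (abs_le.2 ⟨hσ.1.le, hσ.2⟩) h0).trans (le_of_eq (by ring))
  · rw [intervalIntegral.integral_const_mul,
      ← intervalIntegral.integral_add_adjacent_intervals i3 i1]
    exact mul_le_mul_of_nonneg_left (by linarith) hc

lemma ML_ii {f : ℝ → ℝ} {a b B : ℝ} (hf : Measurable f) (hB : ∀ x ∈ uIcc a b, |f x| ≤ B) :
    IntervalIntegrable f volume a b :=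
  (intervalIntegrable_const (c := B)).mono_fun' hf.aestronglyMeasurable
    (ae_restrict_of_forall_mem measurableSet_uIoc fun x hx => hB x (uIoc_subset_uIcc hx))

lemma ML_mul {f φ : ℝ → ℝ} {a b B : ℝ} (hf : IntervalIntegrable f volume a b) (hφ : Measurable φ)
    (hB : ∀ x, |φ x| ≤ B) : IntervalIntegrable (fun x => f x * φ x) volume a b :=
  ⟨hf.1.mul_bdd hφ.aestronglyMeasurable (Eventually.of_forall hB),
    hf.2.mul_bdd hφ.aestronglyMeasurable (Eventually.of_forall hB)⟩

lemma ML_lg0 (s a b : ℝ) : IntervalIntegrable (fun σ => lg (s - σ)) volume a b := by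
  simpa using (intervalIntegrable_lg (s - a) (s - b)).comp_sub_left s

lemma ML_lg (s : ℝ) {φ : ℝ → ℝ} {B : ℝ} (hφ : Measurable φ) (hB : ∀ x, |φ x| ≤ B) :
    IntervalIntegrable (fun σ => lg (s - σ) * φ σ) volume (-π) π := ML_mul (ML_lg0 s _ _) hφ hB

lemma ML_step (a₁ a₂ s : ℝ) : P0 (fun σ => if 0 < σ then a₁ else a₂) s = (1 / π) *
    (((∫ t in (0 : ℝ)..(s + π), lg t) - ∫ t in (0 : ℝ)..s, lg t) * a₂ +
      ((∫ t in (0 : ℝ)..s, lg t) - ∫ t in (0 : ℝ)..(s - π), lg t) * a₁) := by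
  have ii := intervalIntegrable_lg
  have e1 : EqOn (fun σ => lg (s - σ) * a₁) (fun σ => lg (s - σ) * if 0 < σ then a₁ else a₂)
      (uIoo 0 π) := fun σ hσ => by
    rw [uIoo_of_le pi_pos.le] at hσ
    simp only [if_pos hσ.1]
  have e2 : EqOn (fun σ => lg (s - σ) * a₂) (fun σ => lg (s - σ) * if 0 < σ then a₁ else a₂)
      (uIoo (-π) 0) := fun σ hσ => by
    rw [uIoo_of_le (by linarith [pi_pos])] at hσ
    simp only [if_neg hσ.2.not_gt]
  rw [P0, ← intervalIntegral.integral_add_adjacent_intervals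
    (((ML_lg0 s _ _).mul_const _).congr_uIoo e2) (((ML_lg0 s _ _).mul_const _).congr_uIoo e1),
    ← intervalIntegral.integral_congr_uIoo e1, ← intervalIntegral.integral_congr_uIoo e2,
    intervalIntegral.integral_mul_const, intervalIntegral.integral_mul_const,
    intervalIntegral.integral_comp_sub_left, intervalIntegral.integral_comp_sub_left,
    intervalIntegral.integral_interval_sub_left (ii _ _) (ii _ _),
    intervalIntegral.integral_interval_sub_left (ii _ _) (ii _ _), sub_zero, sub_neg_eq_add]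

lemma ML_ek {φ : ℝ → ℝ} {B : ℝ} (hφ : Measurable φ) (hB : ∀ x, |φ x| ≤ B) (k : ℕ) :
    IntervalIntegrable ({σ | 2 * rr k < |σ|}.indicator fun σ => lg1 (-σ) * φ σ) volume (-π) π ∧
      ∫ σ in (-π)..π, {σ | 2 * rr k < |σ|}.indicator (fun σ => lg1 (-σ) * φ σ) σ =
        (∫ σ in (2 * rr k)..π, lg1 (-σ) * φ σ) + ∫ σ in (-π)..(-(2 * rr k)), lg1 (-σ) * φ σ := by
  have r0 := rr_pos k
  have r1 := rr_le_one k
  have p3 := pi_gt_three
  have i : ∀ a b, |a| ≤ π → |b| ≤ π → IntervalIntegrable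
      ({σ | 2 * rr k < |σ|}.indicator fun σ => lg1 (-σ) * φ σ) volume a b := fun a b ha hb =>
    ML_ii (((measurable_lg1.comp measurable_neg).mul hφ).indicator
      (measurableSet_lt measurable_const measurable_abs)) (B := 1 / rr k * B) fun x hx => by
      have b0 := (abs_nonneg _).trans (hB 0)
      rw [indicator_apply]
      split_ifs with q
      · have := le_ch' (abs_le.2 (uIcc_subset_Icc (abs_le.1 ha) (abs_le.1 hb) hx))
        have q : 2 * rr k < |x| := q
        rw [abs_mul]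
        refine mul_le_mul ((abs_lg1_le _).trans ?_) (hB x) (abs_nonneg _) (by positivity)
        rw [ch_neg]
        exact one_div_le_one_div_of_le r0 (by linarith only [this, q])
      · rw [abs_zero]
        positivity
  have a0 : |π| ≤ π := (abs_of_pos pi_pos).le
  have a1 : |-π| ≤ π := abs_neg π ▸ a0
  have a2 : |2 * rr k| ≤ π := abs_le.2 ⟨by linarith, by linarith⟩
  have a3 : |-(2 * rr k)| ≤ π := abs_neg (2 * rr k) ▸ a2
  refine ⟨i _ _ a1 a0, ?_⟩
  rw [← intervalIntegral.integral_add_adjacent_intervals (i _ _ a1 a3) (i _ _ a3 a0),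
    ← intervalIntegral.integral_add_adjacent_intervals (i _ _ a3 a2) (i _ _ a2 a0),
    intervalIntegral.integral_congr_uIoo (a := -(2 * rr k)) (b := 2 * rr k) (g := fun _ => 0),
    intervalIntegral.integral_congr_uIoo (a := 2 * rr k) (g := fun σ => lg1 (-σ) * φ σ),
    intervalIntegral.integral_congr_uIoo (a := -π) (g := fun σ => lg1 (-σ) * φ σ),
    intervalIntegral.integral_zero, zero_add, add_comm]
  all_goals
    intro σ hσ
    rw [uIoo_of_le (by linarith only [r1, p3, r0])] at hσ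
  · exact if_pos (lt_abs.2 (Or.inr (lt_neg.1 hσ.2)))
  · exact if_pos (lt_abs.2 (Or.inl hσ.1))
  · exact if_neg (abs_lt.2 hσ).not_gt

lemma ML_mvt {s s' σ c L : ℝ} (h : ∀ x ∈ uIcc s' s, ch (x - σ) ≠ 0 ∧ |lg1 (x - σ) - c| ≤ L) :
    |lg (s - σ) - lg (s' - σ) - (s - s') * c| ≤ L * |s - s'| := by
  have := (convex_uIcc s' s).norm_image_sub_le_of_norm_hasDerivWithin_le
    (f := fun x => lg (x - σ) - x * c) (f' := fun x => lg1 (x - σ) - c)
    (fun x hx => (((hasDerivAt_lg (h x hx).1).comp_sub_const x σ).sub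
      (hasDerivAt_mul_const c)).hasDerivWithinAt) (fun x hx => (h x hx).2) left_mem_uIcc
    right_mem_uIcc
  exact le_of_eq_of_le (congrArg _ (by ring)) this

lemma ML_pi {A B : ℝ} (h : |A| ≤ 3 * B) : |1 / π * A| ≤ B := by
  rw [abs_mul, abs_of_pos (one_div_pos.2 pi_pos), one_div, inv_mul_le_iff₀ pi_pos]
  linarith only [h, pi_gt_three, abs_nonneg A, mul_nonneg_of_nonpos_of_nonpos (Mathlib.Tactic.Linarith.sub_nonpos_of_le h) (le_of_lt (Mathlib.Tactic.Linarith.sub_neg_of_lt pi_gt_three)), mul_nonneg_of_nonpos_of_nonpos (le_of_lt (Mathlib.Tactic.Linarith.sub_neg_of_lt pi_gt_three)) (Mathlib.Tactic.Linarith.sub_nonpos_of_le (abs_nonneg A))]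

lemma psi_near {C' : ℝ} (h : VU v C) (h₁ : VD (sd v y 1) n₁ C') (h₂ : VD (sd v y (-1)) n₂ C')
    (k : ℕ) : ∫ σ in (-π)..π, |(nr k).indicator (psi v y k) σ| ≤ 4 * rr k * (n₁ k + n₂ k) := by
  have r0 := rr_pos k
  refine (le_abs_self _).trans (ML_key h₁ h₂ k (by positivity) fun σ _ _ => ?_)
  rw [abs_abs]
  by_cases q : σ ∈ nr k
  · rw [indicator_of_mem q]
    have q0 : 0 < |σ| := by linarith only [r0, q, q.1]
    refine le_mul_of_one_le_left (abs_nonneg _) (ML_kap (by positivity) ?_ ?_)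
    · field_simp
      norm_num
    · rw [← mul_div_assoc, one_le_div (by positivity)]
      linarith only [r0, q, q0, q.2, mul_nonneg_of_nonpos_of_nonpos (le_of_lt (Mathlib.Tactic.Linarith.sub_neg_of_lt r0)) (Mathlib.Tactic.Linarith.sub_nonpos_of_le q.right), mul_nonneg_of_nonpos_of_nonpos (le_of_lt (Mathlib.Tactic.Linarith.sub_neg_of_lt q0)) (Mathlib.Tactic.Linarith.sub_nonpos_of_le q.right)]
  · rw [indicator_of_notMem q, abs_zero]
    exact mul_nonneg (ML_kap (by positivity) (by positivity) (by positivity)) (abs_nonneg _)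

lemma P0_bar (a₁ a₂ s : ℝ) : P0 (fun σ => if 0 < σ then a₁ else a₂) s =
    P0 (fun σ => if 0 < σ then a₁ else a₂) 0 + (a₁ - a₂) / π * ∫ t in (0 : ℝ)..s, ltan t := by
  have ii := intervalIntegrable_lg
  have e : ∫ t in (0 : ℝ)..s, ltan t =
      (∫ t in (0 : ℝ)..s, lg t) - ((∫ t in (0 : ℝ)..(s + π), lg t) - ∫ t in (0 : ℝ)..π, lg t) := by
    rw [intervalIntegral.integral_interval_sub_left (ii _ _) (ii _ _)]
    unfold ltan
    rw [intervalIntegral.integral_sub (ii _ _) (by simpa using (ii π (s + π)).comp_add_right π),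
      intervalIntegral.integral_comp_add_right, zero_add]
  have e' := lg_periodic.intervalIntegral_add_eq (s - π) (0 - π)
  rw [show s - π + 2 * π = s + π by ring, show 0 - π + 2 * π = 0 + π by ring,
    ← intervalIntegral.integral_interval_sub_left (ii 0 _) (ii 0 _),
    ← intervalIntegral.integral_interval_sub_left (ii 0 (0 + π)) (ii 0 _)] at e'
  rw [ML_step, ML_step, e]
  simp only [zero_add, intervalIntegral.integral_same] at *
  linear_combination a₁ / π * e'

theorem rm_lip {C' : ℝ} (h : VU v C) (h₁ : VD (sd v y 1) n₁ C') (h₂ : VD (sd v y (-1)) n₂ C')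
    (k : ℕ) {s s' : ℝ} (hs : (s ∈ Icc (rr k / 4) (rr k) ∧ s' ∈ Icc (rr k / 4) (rr k)) ∨
      (s ∈ Icc (-rr k) (-(rr k / 4)) ∧ s' ∈ Icc (-rr k) (-(rr k / 4)))) :
    |RM v y k s - RM v y k s'| ≤ 16 * (n₁ k + n₂ k) * |s - s'| := by
  have r0 := rr_pos k
  have r1 := rr_le_one k
  have p3 := pi_gt_three
  have hx : ∀ x ∈ uIcc s' s, rr k / 4 ≤ |x| ∧ |x| ≤ rr k := fun x hx => by
    rcases hs with hs | hs
    · have := uIcc_subset_Icc hs.2 hs.1 hx
      rwa [abs_of_pos (by linarith only [r0, this, this.1])]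
    · have := uIcc_subset_Icc hs.2 hs.1 hx
      rw [abs_of_neg (by linarith [this.2])]
      exact ⟨by linarith [this.2], by linarith [this.1]⟩
  have mψ := measurable_psi h y k
  have bψ := abs_psi_le h y k
  have iχ := fun s => ML_lg s (mψ.indicator (measurableSet_nr k).compl) (B := 2 * C)
    fun σ => (norm_indicator_le_norm_self (psi v y k) σ).trans (bψ σ)
  have R : ∀ s, RM v y k s = (1 / π) * (∫ σ in (-π)..π, lg (s - σ) * (nr k)ᶜ.indicator (psi v y k) σ) +
      P0 (fun σ => if 0 < σ then mean (sd v y 1) 0 (rr k) else mean (sd v y (-1)) 0 (rr k)) 0 -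
      ek v y k * s := fun s => by
    have e := P0_bar (mean (sd v y 1) 0 (rr k)) (mean (sd v y (-1)) 0 (rr k)) s
    have i1 := ML_lg s (mψ.indicator (measurableSet_nr k)) (B := 2 * C)
      fun σ => (norm_indicator_le_norm_self (psi v y k) σ).trans (bψ σ)
    have i2 := ML_lg s (φ := fun σ => if 0 < σ then mean (sd v y 1) 0 (rr k) else
      mean (sd v y (-1)) 0 (rr k))
      (Measurable.ite measurableSet_Ioi measurable_const measurable_const) (B := C) fun σ => by
        split_ifs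
        exacts [mean_abs_le (h.pos y).bd r0, mean_abs_le (h.neg y).bd r0]
    have e2 : P0 (fun σ => v (y + σ)) s = (1 / π) * ∫ σ in (-π)..π,
        (lg (s - σ) * (nr k)ᶜ.indicator (psi v y k) σ + lg (s - σ) * (nr k).indicator (psi v y k) σ +
          lg (s - σ) * if 0 < σ then mean (sd v y 1) 0 (rr k) else mean (sd v y (-1)) 0 (rr k)) := by
      unfold P0
      congr 2
      funext σ
      rw [← mul_add, indicator_compl_add_self_apply, ← mul_add, psi, sub_add_cancel]
    rw [intervalIntegral.integral_add ((iχ s).add i1) i2,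
      intervalIntegral.integral_add (iχ s) i1] at e2
    unfold RM gk
    rw [e2]
    unfold P0 at e ⊢
    linear_combination e
  obtain ⟨i3, e3⟩ := ML_ek mψ bψ k
  have K := ML_key h₁ h₂ k (c := 16 * |s - s'|) (f := fun σ =>
    lg (s - σ) * (nr k)ᶜ.indicator (psi v y k) σ - lg (s' - σ) * (nr k)ᶜ.indicator (psi v y k) σ -
      (s - s') * {σ | 2 * rr k < |σ|}.indicator (fun σ => lg1 (-σ) * psi v y k σ) σ)
    (by positivity) fun σ hσ h0 => by
      have σ0 := abs_pos.2 h0
      by_cases q : σ ∈ nr k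
      · rw [indicator_of_notMem (not_not.2 q),
          indicator_of_notMem (show σ ∉ {σ | 2 * rr k < |σ|} from not_lt.2 q.2)]
        simp only [mul_zero, sub_self, abs_zero]
        exact mul_nonneg (ML_kap (by positivity) (by positivity) (by positivity)) (abs_nonneg _)
      rw [indicator_of_mem (show σ ∈ (nr k)ᶜ from q)]
      by_cases q' : 2 * rr k < |σ|
      · rw [indicator_of_mem (show σ ∈ {σ | 2 * rr k < |σ|} from q'), ← mul_assoc, ← sub_mul,
          ← sub_mul, abs_mul]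
        refine mul_le_mul_of_nonneg_right ((ML_mvt (L := 16 * (rr k / |σ| ^ 2)) fun x hx' => ?_).trans
          (ML_kap (by positivity) ?_ (le_of_eq (by ring)))) (abs_nonneg _)
        · obtain ⟨-, x2⟩ := hx x hx'
          have a1 : |σ| - |x| ≤ |x - σ| := abs_sub_comm x σ ▸ abs_sub_abs_le_abs_sub σ x
          have a2 := abs_sub x σ
          have c1 := le_ch3 (abs_nonneg (x - σ)) (by linarith)
          have c2 := le_ch' hσ
          have c3 := ch_le_abs x
          rw [ch_abs] at c1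
          have c4 : 0 < ch (x - σ) := by linarith only [r0, q', x2, a1, c1]
          have c5 : 0 < ch σ := by linarith only [σ0, c2]
          have e := abs_lg1_sub (x := -σ) (s := -x) (by rw [ch_neg]; exact c5.ne')
            (by rw [show -σ - -x = x - σ by ring]; exact c4.ne')
          rw [show -σ - -x = x - σ by ring, ch_neg, ch_neg] at e
          refine ⟨c4.ne', ?_⟩
          rw [e, ← mul_div_assoc, div_le_div_iff₀ (by positivity) (by positivity)]
          have c6 : |σ| / 6 * (|σ| / 2) ≤ ch (x - σ) * ch σ :=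
            mul_le_mul (by linarith only [q', x2, a1, c1]) c2 (by positivity) c4.le
          linarith only [c3, x2, c6, r0, mul_le_mul_of_nonneg_right (c3.trans x2) (sq_nonneg |σ|),
            mul_le_mul_of_nonneg_left c6 r0.le, mul_nonneg r0.le (sq_nonneg |σ|), sq_nonneg |σ|]
        · rw [mul_right_comm]
          gcongr 16 * _ * ?_
          rw [div_le_div_iff₀ (by positivity) r0]
          linarith only [r0, σ0, q', mul_pos_of_neg_of_neg (Mathlib.Tactic.Linarith.sub_neg_of_lt r0) (Mathlib.Tactic.Linarith.sub_neg_of_lt σ0), mul_pos_of_neg_of_neg (Mathlib.Tactic.Linarith.sub_neg_of_lt r0) (Mathlib.Tactic.Linarith.sub_neg_of_lt q'), mul_pos_of_neg_of_neg (Mathlib.Tactic.Linarith.sub_neg_of_lt σ0) (Mathlib.Tactic.Linarith.sub_neg_of_lt q')]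
      · have q2 : |σ| < rr k / 8 := by_contra fun w => q ⟨not_lt.1 w, not_lt.1 q'⟩
        rw [indicator_of_notMem (show σ ∉ {σ | 2 * rr k < |σ|} from q'), mul_zero, sub_zero,
          ← sub_mul, abs_mul]
        have := ML_mvt (s := s) (s' := s') (σ := σ) (c := 0) (L := 16 * (1 / rr k)) fun x hx' => by
          obtain ⟨x1, x2⟩ := hx x hx'
          have a1 := abs_sub_abs_le_abs_sub x σ
          have a2 := abs_sub x σ
          have c1 := le_ch' (t := x - σ) (by linarith only [r1, p3, σ0, q2, x2, a2])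
          have c4 : 0 < ch (x - σ) := by linarith only [σ0, q2, x1, a1, c1]
          refine ⟨c4.ne', ?_⟩
          rw [sub_zero, mul_one_div]
          refine (abs_lg1_le _).trans ?_
          rw [div_le_div_iff₀ c4 r0]
          linarith only [q2, x1, a1, c1]
        rw [mul_zero, sub_zero] at this
        refine mul_le_mul_of_nonneg_right (this.trans
          (ML_kap (by positivity) (le_of_eq (by ring)) ?_)) (abs_nonneg _)
        rw [mul_right_comm]
        gcongr 16 * _ * ?_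
        rw [div_le_div_iff₀ r0 (by positivity)]
        linarith only [r0, σ0, q2, q', mul_pos_of_neg_of_neg (Mathlib.Tactic.Linarith.sub_neg_of_lt r0) (Mathlib.Tactic.Linarith.sub_neg_of_lt σ0), mul_pos_of_neg_of_neg (Mathlib.Tactic.Linarith.sub_neg_of_lt r0) (Mathlib.Tactic.Linarith.sub_neg_of_lt q2), mul_nonneg_of_nonpos_of_nonpos (le_of_lt (Mathlib.Tactic.Linarith.sub_neg_of_lt σ0)) (Mathlib.Tactic.Linarith.sub_nonpos_of_le (le_of_not_gt q'))]
  rw [intervalIntegral.integral_sub ((iχ s).sub (iχ s')) (i3.const_mul _),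
    intervalIntegral.integral_sub (iχ s) (iχ s'), intervalIntegral.integral_const_mul, e3] at K
  refine le_of_eq_of_le (congrArg _ ?_) (ML_pi (K.trans (by
    linarith only [h₁, h₂, mul_nonneg (abs_nonneg (s - s')) (add_nonneg (h₁.sm.nn k) (h₂.sm.nn k))])))
  rw [R, R, ek]
  ring

theorem ek_jump {C' : ℝ} (h : VU v C) (h₁ : VD (sd v y 1) n₁ C') (h₂ : VD (sd v y (-1)) n₂ C')
    (k : ℕ) : |(gk v y k - gk v y (k + 1)) * Real.log (rr (k + 1)) +
      ((ek v y k - gk v y k * Real.log 2) - (ek v y (k + 1) - gk v y (k + 1) * Real.log 2))| ≤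
        2 * (n₁ k + n₂ k) + 6 * (n₁ (k + 1) + n₂ (k + 1)) := by
  have r0 := rr_pos k
  have r1 := rr_le_one k
  have r2 := rr_succ k
  have p3 := pi_gt_three
  have mψ := measurable_psi h y (k + 1)
  have bψ := abs_psi_le h y (k + 1)
  obtain ⟨i1, e1⟩ := ML_ek mψ bψ k
  obtain ⟨i2, e2⟩ := ML_ek mψ bψ (k + 1)
  have K := ML_key h₁ h₂ (k + 1) (c := 8) (f := fun σ =>
    {σ | 2 * rr k < |σ|}.indicator (fun σ => lg1 (-σ) * psi v y (k + 1) σ) σ -
      {σ | 2 * rr (k + 1) < |σ|}.indicator (fun σ => lg1 (-σ) * psi v y (k + 1) σ) σ)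
    (by positivity) fun σ hσ h0 => by
      have σ0 := abs_pos.2 h0
      have z : 0 ≤ 8 * kap (rr (k + 1)) |σ| * |psi v y (k + 1) σ| :=
        mul_nonneg (ML_kap (by positivity) (by rw [r2]; positivity) (by rw [r2]; positivity))
          (abs_nonneg _)
      simp only [indicator_apply, mem_ofPred_eq]
      split_ifs with q q' q'
      · rwa [sub_self, abs_zero]
      · linarith only [r0, r2, q, q']
      · rw [zero_sub, abs_neg, abs_mul]
        have c2 := le_ch' hσ
        have c3 : |lg1 (-σ)| ≤ 2 / |σ| := by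
          refine (abs_lg1_le _).trans ?_
          rw [ch_neg, div_le_div_iff₀ (by linarith only [σ0, c2]) σ0]
          linarith only [c2]
        refine mul_le_mul_of_nonneg_right (c3.trans (ML_kap (by norm_num) ?_ ?_)) (abs_nonneg _)
        · rw [mul_one_div, div_le_div_iff₀ σ0 (rr_pos _)]
          linarith only [σ0, q']
        · rw [← mul_div_assoc, div_le_div_iff₀ σ0 (by positivity)]
          linarith only [r2, p3, hσ, σ0, q, Mathlib.Tactic.Linarith.zero_mul_eq (sub_eq_zero_of_eq r2) (Mathlib.Tactic.Linarith.sub_neg_of_lt p3), Mathlib.Tactic.Linarith.zero_mul_eq (sub_eq_zero_of_eq r2) (Mathlib.Tactic.Linarith.sub_nonpos_of_le hσ), mul_nonneg_of_nonpos_of_nonpos (le_of_lt (Mathlib.Tactic.Linarith.sub_neg_of_lt σ0)) (Mathlib.Tactic.Linarith.sub_nonpos_of_le (le_of_not_gt q))]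
      · rwa [sub_self, abs_zero]
  rw [intervalIntegral.integral_sub i1 i2, e1, e2] at K
  have cp : ∀ x ∈ uIcc (2 * rr k) π, ch x ≠ 0 ∧ |lg1 x| ≤ 1 / rr k := fun x hx => by
    rw [uIcc_of_le (by linarith)] at hx
    have a := abs_of_pos (show 0 < x by linarith [hx.1])
    have := le_ch' (t := x) (by rw [a]; exact hx.2)
    rw [a] at this
    exact ⟨(show 0 < ch x by linarith only [r0, this, hx, hx.1]).ne',
      (abs_lg1_le x).trans (one_div_le_one_div_of_le r0 (by linarith only [this, hx, hx.1]))⟩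
  have j0 := ML_ii measurable_lg1 fun x hx => (cp x hx).2
  have l0 : ∫ σ in (2 * rr k)..π, lg1 σ = Real.log 2 - lg (2 * rr k) := by
    rw [intervalIntegral.integral_eq_sub_of_hasDerivAt (fun x hx => hasDerivAt_lg (cp x hx).1) j0,
      lg, ch_eq_sin pi_pos.le (by linarith), sin_pi_div_two, mul_one]
  have j1 : IntervalIntegrable (fun σ => lg1 (-σ)) volume (2 * rr k) π := by
    simp only [lg1_neg]
    exact j0.neg
  have j2 : IntervalIntegrable (fun σ => lg1 (-σ)) volume (-π) (-(2 * rr k)) :=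
    ((IntervalIntegrable.iff_comp_neg (by simp)).1 j0).symm
  have m : ∀ {a b : ℝ}, IntervalIntegrable (fun σ => lg1 (-σ)) volume a b →
      IntervalIntegrable (fun σ => lg1 (-σ) * psi v y (k + 1) σ) volume a b := fun j =>
    ML_mul j mψ bψ
  have f1 : ∫ σ in (2 * rr k)..π, lg1 (-σ) * psi v y k σ =
      (∫ σ in (2 * rr k)..π, lg1 (-σ) * psi v y (k + 1) σ) - (Real.log 2 - lg (2 * rr k)) *
        (mean (sd v y 1) 0 (rr (k + 1)) - mean (sd v y 1) 0 (rr k)) := by
    rw [← l0, ← intervalIntegral.integral_mul_const,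
      ← intervalIntegral.integral_sub (m j1) (j0.mul_const _)]
    refine intervalIntegral.integral_congr fun σ hσ => ?_
    rw [uIcc_of_le (by linarith)] at hσ
    simp only [psi, if_pos (show 0 < σ by linarith [hσ.1]), lg1_neg]
    ring
  have f2 : ∫ σ in (-π)..(-(2 * rr k)), lg1 (-σ) * psi v y k σ =
      (∫ σ in (-π)..(-(2 * rr k)), lg1 (-σ) * psi v y (k + 1) σ) + (Real.log 2 - lg (2 * rr k)) *
        (mean (sd v y (-1)) 0 (rr (k + 1)) - mean (sd v y (-1)) 0 (rr k)) := by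
    have l1 := intervalIntegral.integral_comp_neg (a := -π) (b := -(2 * rr k)) lg1
    rw [neg_neg, neg_neg] at l1
    rw [← l0, ← l1, ← intervalIntegral.integral_mul_const,
      ← intervalIntegral.integral_add (m j2) (j2.mul_const _)]
    refine intervalIntegral.integral_congr fun σ hσ => ?_
    rw [uIcc_of_le (by linarith only [r1, p3])] at hσ
    simp only [psi, if_neg (show ¬ 0 < σ by linarith only [r0, hσ, hσ.2])]
    ring
  have g1 := gk_sub_le h₁ h₂ k
  have g2 : |Real.log (rr (k + 1)) - lg (2 * rr k)| ≤ 2 := by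
    have a := abs_of_pos (show 0 < 2 * rr k by linarith only [r0])
    have c1 := le_ch' (t := 2 * rr k) (by rw [a]; linarith only [r1, p3])
    have c2 := ch_le_abs (2 * rr k)
    rw [a] at c1 c2
    have c3 := Real.log_le_log (rr_pos (k + 1)) (show _ ≤ ch (2 * rr k) by linarith only [r0, r2, c1])
    have c4 := Real.log_le_log (show 0 < ch (2 * rr k) by linarith only [r0, c1])
      (show _ ≤ 2 ^ 2 * rr (k + 1) by linarith only [r2, c2])
    rw [Real.log_mul (by norm_num) (rr_pos _).ne', Real.log_pow] at c4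
    rw [lg, abs_le]
    push_cast at c4
    constructor <;> linarith only [c4, c3, Real.log_two_lt_d9]
  have g3 := mul_le_mul g2 g1 (abs_nonneg _) zero_le_two
  have n0 := add_nonneg (h₁.sm.nn (k + 1)) (h₂.sm.nn (k + 1))
  have g4 := ML_pi (B := 6 * (n₁ (k + 1) + n₂ (k + 1))) (K.trans
    (show 8 * (n₁ (k + 1) + n₂ (k + 1)) ≤ 3 * (6 * (n₁ (k + 1) + n₂ (k + 1))) by linarith only [n0]))
  rw [← abs_mul, ← abs_neg] at g3
  refine le_of_eq_of_le (congrArg _ ?_) ((abs_add_le _ _).trans (add_le_add g3 g4))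
  rw [ek, ek, f1, f2, gk, gk]
  ring

end Pool.Agent.Work.MP_af796d_an.H
end

-- merged part: Pool.Agent.Work.MP_af796d_an.H.PA
section
/-!
# From the logarithmic model to WS
PLAN.  Model μ_k r = g k log r + e k, f = β - μ_k, R_k r = r exp (μ_k r), P_k r = (1 + g k) S r - R_k r, A_k = [rr (k+1), rr k], η from os_dbl.
∫_{A_k} f^2 ≤ rr k N k (MS1.osc restricted; the integrand is ≥ 0), N k ≤ C.
* pa_norm: with m = mu β (rr (k+1)) (rr k)/(rr k/2): |mean β - log m| ≤ log C (AI.log_mean), |mean β - mean μ_k| ≤ mean |f| ≤ (1 + mean f^2)/2 ≤ (1 + 2 C)/2, and μ_k oscillates by at most C log 2 on A_k.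
  Then log (R_k r / S r) = log r + μ_k r - log S r with r m in [mu, 2 mu] and mu / S r in [η, 1/η].
* pa_int: |e^f - 1| ≤ eg f + |f|; cov with the model μ_k (measurable), min 1 (f^2) ≤ f^2; |f| ≤ (t + f^2/t)/2 with t = sqrt (N k) + rr k > 0, N k ≤ t^2, N k ≤ sqrt C * t.
* sq_rec: x k^2 ≤ (1 - η) x (k+1)^2 + (K t k)^2/η (convexity); sum and telescope.
* pa: R_k has derivative (1 + g k) exp (μ_k) (prim_of_deriv), so P_k r - P_k r' = (1 + g k) ∫_{r'}^r (e^β - e^{μ_k}), and |e^β - e^{μ_k}| = e^{μ_k} |e^f - 1| ≤ (2 e^L S (rr k)/rr k) |e^f - 1| on A_k.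
  Jump at rr (k+1): |P_k - P_{k+1}| ≤ S (rr (k+1)) (|g (k+1) - g k| + e^L j k), j k the term of MS1.jmp (|a - a'| ≤ max a a' |log a - log a'|; rr (k+1) lies in A_k and A_{k+1}).
  x k = |P_k (rr k)|/S (rr k) ≤ 1 + C + e^L satisfies x k ≤ (1 - η) x (k+1) + K t k with t k = sqrt (N k) + rr k + |g (k+1) - g k| + j k, sum of t^2 bounded.
  On A_k, |R_k/S - (1 + g k)| ≤ z k := (x k + K t k)/η, sum z^2 bounded.  c0 = e^(-L)/2, c k = max (1 + g k) c0.  R_k/S ≥ 2 c0, so |R_k/S - c k| ≤ z k,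
  |log (R_k/S) - log (c k)| ≤ z k / c0, log (W / c k) = f + (log (R_k/S) - log (c k)); min 1 ((a+b)^2) ≤ 2 a^2 + 2 b^2.
  If c k ≠ 1 + g k then 1 + g k < c0, z k ≥ c0 and |c k - (1 + g k)| ≤ z k ≤ z k^2/c0.
-/

set_option autoImplicit false

namespace Pool.Agent.Work.MP_af796d_an.H

open MeasureTheory Set Real Metric Filter Topology

lemma PA_log {a r t : ℝ} (ha : 0 < a) (hr : r ∈ Icc a (2 * a)) (ht : t ∈ Icc a (2 * a)) :
    |Real.log r - Real.log t| ≤ 1 := by
  have h2 : Real.log 2 ≤ 1 := by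
    have := Real.log_le_sub_one_of_pos (x := 2) (by norm_num)
    linarith
  have h3 : Real.log (2 * a) = Real.log 2 + Real.log a := Real.log_mul (by norm_num) ha.ne'
  have r1 := Real.log_le_log ha hr.1
  have r2 := Real.log_le_log (ha.trans_le hr.1) hr.2
  have t1 := Real.log_le_log ha ht.1
  have t2 := Real.log_le_log (ha.trans_le ht.1) ht.2
  rw [abs_le]
  constructor <;> linarith only [h2, h3, r1, t2, r2, t1]

lemma PA_two (k : ℕ) : rr k = 2 * rr (k + 1) := by rw [rr_succ]; ring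

lemma PA_lt (k : ℕ) : rr (k + 1) < rr k := by
  have := rr_pos (k + 1)
  have := PA_two k
  linarith

lemma PA_pi (k : ℕ) : rr k ≤ π := by
  have := rr_le_one k
  have := Real.pi_gt_three
  linarith

lemma PA_pi2 (k : ℕ) : rr k ≤ rr (k + 1) + 2 * π := by
  have := PA_pi k
  have := rr_pos (k + 1)
  have := Real.pi_pos
  linarith

lemma PA_le {d : ℕ → ℝ} {C : ℝ} (h0 : ∀ k, 0 ≤ d k) (h : ∀ n, ∑ k ∈ Finset.range n, d k ≤ C)
    (k : ℕ) : d k ≤ C :=
  (Finset.single_le_sum (f := d) (fun i _ => h0 i) (Finset.self_mem_range_succ k)).trans (h _)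

lemma PA_sumsq {d : ℕ → ℝ} {C : ℝ} (h0 : ∀ k, 0 ≤ d k) (h : ∀ n, ∑ k ∈ Finset.range n, d k ≤ C)
    (n : ℕ) : ∑ k ∈ Finset.range n, d k ^ 2 ≤ C ^ 2 :=
  (Finset.sum_sq_le_sq_sum_of_nonneg fun i _ => h0 i).trans
    (pow_le_pow_left₀ (Finset.sum_nonneg fun i _ => h0 i) (h n) 2)

lemma PA_sum_rr (n : ℕ) : ∑ k ∈ Finset.range n, rr k ≤ 2 := by
  have h : ∑ k ∈ Finset.range n, rr k = 2 - 2 * rr n := by
    induction n with
    | zero => simp [rr_zero]
    | succ n ih => rw [Finset.sum_range_succ, ih, rr_succ]; ring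
  have := rr_pos n
  linarith

lemma PA_sq {β : ℝ → ℝ} {g e N : ℕ → ℝ} {C : ℝ} (h : MS1 β g e N C) (k : ℕ) :
    IntervalIntegrable (fun r => (β r - (g k * Real.log r + e k)) ^ 2) volume
        (rr (k + 1)) (rr k) ∧
      ∫ r in (rr (k + 1))..(rr k), (β r - (g k * Real.log r + e k)) ^ 2 ≤ rr k * N k := by
  have e1 : (fun r => (β r - (g k * Real.log r + e k)) ^ 2) =
      fun r => (β r - g k * Real.log r - e k) ^ 2 := by
    funext r
    ring
  rw [e1]
  refine ⟨(h.ii k).mono_set ?_, le_trans ?_ (h.osc k)⟩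
  · rw [uIcc_of_le (rr_succ_le k), uIcc_of_le ((rr_succ_le _).trans (rr_succ_le k))]
    exact Icc_subset_Icc (rr_succ_le _) le_rfl
  · exact intervalIntegral.integral_mono_interval (rr_succ_le _) (rr_succ_le k) le_rfl
      (Eventually.of_forall fun r => sq_nonneg _) (h.ii k)

lemma PA_mean {β : ℝ → ℝ} {g e N : ℕ → ℝ} {C : ℝ} (hβ : AI β C) (h : MS1 β g e N C) (k : ℕ)
    {r : ℝ} (hr : r ∈ Icc (rr (k + 1)) (rr k)) :
    |g k * Real.log r + e k - (∫ t in (rr (k + 1))..(rr k), β t) / (rr k - rr (k + 1))| ≤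
      2 * C + 1 := by
  obtain ⟨s1, s2⟩ := PA_sq h k
  have ha := rr_pos (k + 1)
  have h2 := PA_two k
  have hl : 0 < rr k - rr (k + 1) := by linarith
  have hN := PA_le h.sm.nn h.sm.sum k
  have hC := hβ.one_le
  have e1 : g k * Real.log r + e k - (∫ t in (rr (k + 1))..(rr k), β t) / (rr k - rr (k + 1)) =
      (∫ t in (rr (k + 1))..(rr k), (g k * Real.log r + e k - β t)) / (rr k - rr (k + 1)) := by
    rw [intervalIntegral.integral_sub intervalIntegrable_const (hβ.ii _ _),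
      intervalIntegral.integral_const, smul_eq_mul]
    field_simp
  rw [e1, abs_div, abs_of_pos hl, div_le_iff₀ hl]
  have i1 : IntervalIntegrable
      (fun t => (C + 1) + (β t - (g k * Real.log t + e k)) ^ 2 / 2) volume (rr (k + 1)) (rr k) :=
    intervalIntegrable_const.add (s1.div_const 2)
  have b1 := intervalIntegral.norm_integral_le_of_norm_le
    (f := fun t => g k * Real.log r + e k - β t) (rr_succ_le k)
    (Eventually.of_forall fun t ht => ?_) i1
  · rw [Real.norm_eq_abs, intervalIntegral.integral_add intervalIntegrable_const (s1.div_const 2),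
      intervalIntegral.integral_const, intervalIntegral.integral_div, smul_eq_mul] at b1
    have := mul_le_mul_of_nonneg_left hN (rr_pos k).le
    linarith only [s2, h2, b1, this, hC, Mathlib.Tactic.Linarith.zero_mul_eq (sub_eq_zero_of_eq h2) (Mathlib.Tactic.Linarith.sub_nonpos_of_le hC)]
  · have l1 := PA_log ha (r := r) (t := t) ⟨hr.1, h2 ▸ hr.2⟩ ⟨ht.1.le, h2 ▸ ht.2⟩
    have l2 : |g k * (Real.log r - Real.log t)| ≤ C := by
      rw [abs_mul]
      have := h.bd k
      linarith only [this, l1, abs_nonneg (g k), abs_nonneg (Real.log r - Real.log t), mul_nonneg_of_nonpos_of_nonpos (Mathlib.Tactic.Linarith.sub_nonpos_of_le l1) (Mathlib.Tactic.Linarith.sub_nonpos_of_le (abs_nonneg (g k)))]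
    rw [Real.norm_eq_abs, abs_le]
    rw [abs_le] at l2
    constructor <;> linarith only [l2, sq_nonneg (β t - (g k * Real.log t + e k) - 1),
      sq_nonneg (β t - (g k * Real.log t + e k) + 1), sq_nonneg (β t - (g k * log t + e k) - (1 : ℝ)), sq_nonneg (β t - (g k * log t + e k) + (1 : ℝ))]

theorem pa_norm (C : ℝ) : ∃ L : ℝ, 0 ≤ L ∧ ∀ (β : ℝ → ℝ) (g e N : ℕ → ℝ), AI β C →
    MS1 β g e N C → ∀ k, ∀ r ∈ Icc (rr (k + 1)) (rr k),
      |g k * Real.log r + e k - Real.log (mu β (rr (k + 1)) (rr k) / (rr k - rr (k + 1)))| ≤ L ∧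
        |Real.log r + (g k * Real.log r + e k) - Real.log (SS β r)| ≤ L := by
  obtain ⟨η, h0, h1, hη⟩ := os_dbl C
  have hl : Real.log η ≤ 0 := Real.log_nonpos h0.le (by linarith only [h0, h1])
  refine ⟨2 * |C| + 1 + |Real.log C| + 1 - Real.log η, by
    have := abs_nonneg C
    have := abs_nonneg (Real.log C)
    linarith, fun β g e N hβ h k r hr => ?_⟩
  have m1 := PA_mean hβ h k hr
  have m2 := hβ.log_mean (PA_lt k) (PA_pi2 k)
  have c1 := le_abs_self C
  have c2 := le_abs_self (Real.log C)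
  have ha := rr_pos (k + 1)
  have h2 := PA_two k
  have m3 : |g k * Real.log r + e k - Real.log (mu β (rr (k + 1)) (rr k) / (rr k - rr (k + 1)))| ≤
      2 * |C| + 1 + |Real.log C| := by
    rw [abs_le] at m1 m2 ⊢
    constructor <;> linarith only [m1, m2, c1, c2, m1.1, m1.2, m2.1, m2.2]
  refine ⟨by linarith only [h0, h1, hl, m3], ?_⟩
  have hm := hβ.mu_pos (PA_lt k)
  have e1 : rr k - rr (k + 1) = rr (k + 1) := by linarith only [h2]
  rw [e1, Real.log_div hm.ne' ha.ne'] at m3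
  have l1 := PA_log ha (r := r) (t := rr (k + 1)) ⟨hr.1, h2 ▸ hr.2⟩ ⟨le_rfl, by linarith only [ha]⟩
  obtain ⟨d1, d2⟩ := hη β hβ (rr k) (rr_pos k) (PA_pi k)
  rw [← rr_succ] at d1 d2
  rw [hβ.SS_sub] at d2
  have p1 := hβ.SS_pos (rr_pos k)
  have p2 := hβ.SS_pos ha
  have p3 := hβ.SS_mono.monotone hr.1
  have p4 := hβ.SS_mono.monotone hr.2
  have p5 : mu β (rr (k + 1)) (rr k) ≤ SS β (rr k) := by
    rw [← hβ.SS_sub]
    linarith only [p2]
  have q0 : Real.log (η * SS β (rr k)) = Real.log η + Real.log (SS β (rr k)) :=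
    Real.log_mul h0.ne' p1.ne'
  have q1 := Real.log_le_log (mul_pos h0 p1) (d1.trans p3)
  have q2 := Real.log_le_log (mul_pos h0 p1) d2
  have q3 := Real.log_le_log (p2.trans_le p3) p4
  have q4 := Real.log_le_log hm p5
  rw [abs_le] at m3 l1 ⊢
  constructor <;> linarith only [m3, l1, q0, q2, q3, q1, q4, m3.1, m3.2, l1.1, l1.2]

theorem pa_int (C : ℝ) : ∃ K : ℝ, 0 ≤ K ∧ ∀ (β : ℝ → ℝ) (g e N : ℕ → ℝ), AI β C →
    MS1 β g e N C → ∀ k,
      IntervalIntegrable (fun r => |Real.exp (β r - (g k * Real.log r + e k)) - 1|) volume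
          (rr (k + 1)) (rr k) ∧
        ∫ r in (rr (k + 1))..(rr k), |Real.exp (β r - (g k * Real.log r + e k)) - 1| ≤
          K * rr k * (Real.sqrt (N k) + rr k) := by
  obtain ⟨L, -, hL⟩ := pa_norm C
  obtain ⟨K, hK0, hK⟩ := cov C L
  refine ⟨K * |C| + 1, by positivity, fun β g e N hβ h k => ?_⟩
  have mm : Measurable fun r => g k * Real.log r + e k :=
    (measurable_const.mul Real.measurable_log).add measurable_const
  obtain ⟨c1, c2⟩ := hK β _ hβ mm _ _ (PA_lt k) (PA_pi2 k)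
    fun x hx => (hL β g e N hβ h k x ⟨hx.1.le, hx.2⟩).1
  obtain ⟨s1, s2⟩ := PA_sq h k
  have mf : Measurable fun r => β r - (g k * Real.log r + e k) := hβ.meas.sub mm
  have c3 : ∫ t in (rr (k + 1))..(rr k), min 1 ((β t - (g k * Real.log t + e k)) ^ 2) ≤
      rr k * N k := by
    have d := AI3_dom (f := fun t => min 1 ((β t - (g k * Real.log t + e k)) ^ 2)) (rr_succ_le k)
      (measurable_const.min (mf.pow_const 2)) s1 fun r _ => by
        rw [abs_of_nonneg (le_min zero_le_one (sq_nonneg _))]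
        exact min_le_right _ _
    refine le_trans ?_ s2
    exact intervalIntegral.integral_mono_on (rr_succ_le k) d.1 s1 fun r _ => min_le_right _ _
  have hρ := rr_pos k
  have hs := Real.sqrt_nonneg (N k)
  have hN0 := h.sm.nn k
  have hN := PA_le h.sm.nn h.sm.sum k
  have hC := hβ.one_le
  have hs2 := Real.mul_self_sqrt hN0
  set s := Real.sqrt (N k) with hsd
  have ht : 0 < s + rr k := by linarith
  have i1 : IntervalIntegrable (fun r => (s + rr k) / 2 +
      (β r - (g k * Real.log r + e k)) ^ 2 / (2 * (s + rr k))) volume (rr (k + 1)) (rr k) :=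
    intervalIntegrable_const.add (s1.div_const _)
  have d := AI3_dom (f := fun r => Real.exp (β r - (g k * Real.log r + e k)) - 1) (rr_succ_le k)
    (mf.exp.sub measurable_const) (c1.add i1) fun r _ => by
      have a1 := eg_nonneg (β r - (g k * Real.log r + e k))
      have a2 : |β r - (g k * Real.log r + e k)| ≤ (s + rr k) / 2 +
          (β r - (g k * Real.log r + e k)) ^ 2 / (2 * (s + rr k)) := by
        rw [← sq_abs, div_add_div _ _ (by norm_num) (by positivity), le_div_iff₀ (by positivity)]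
        linarith only [sq_nonneg (|β r - (g k * Real.log r + e k)| - (s + rr k)), sq_nonneg (|β r - (g k * log r + e k)| - (s + rr k))]
      have a3 := le_abs_self (β r - (g k * Real.log r + e k))
      have a4 := neg_abs_le (β r - (g k * Real.log r + e k))
      unfold eg at a1 ⊢
      rw [abs_le]
      constructor <;> linarith only [a1, a2, a4, a3]
  refine ⟨d.1.abs, d.2.trans ?_⟩
  rw [intervalIntegral.integral_add c1 i1,
    intervalIntegral.integral_add intervalIntegrable_const (s1.div_const _),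
    intervalIntegral.integral_const, intervalIntegral.integral_div, smul_eq_mul]
  have b1 : (∫ r in (rr (k + 1))..(rr k), (β r - (g k * Real.log r + e k)) ^ 2) / (2 * (s + rr k)) ≤
      rr k * (s + rr k) / 2 := by
    rw [div_le_iff₀ (by positivity)]
    have : N k ≤ (s + rr k) * (s + rr k) := by linarith only [hs2, hρ, hs, mul_pos_of_neg_of_neg (Mathlib.Tactic.Linarith.sub_neg_of_lt hρ) (Mathlib.Tactic.Linarith.sub_neg_of_lt hρ), mul_nonneg_of_nonpos_of_nonpos (le_of_lt (Mathlib.Tactic.Linarith.sub_neg_of_lt hρ)) (Mathlib.Tactic.Linarith.sub_nonpos_of_le hs)]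
    have := mul_le_mul_of_nonneg_left this hρ.le
    linarith only [s2, this]
  have b2 : N k ≤ |C| * (s + rr k) := by
    have : s ≤ |C| := by
      rw [abs_of_nonneg (by linarith only [hC])]
      (refine le_of_not_gt fun h_nl => ?_; linarith only [h_nl, hN, hs2, hC, hs, mul_nonneg_of_nonpos_of_nonpos (Mathlib.Tactic.Linarith.sub_nonpos_of_le hC) (Mathlib.Tactic.Linarith.sub_nonpos_of_le hs), mul_nonneg_of_nonpos_of_nonpos (Mathlib.Tactic.Linarith.sub_nonpos_of_le hs) (le_of_lt (Mathlib.Tactic.Linarith.sub_neg_of_lt h_nl))])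
    linarith only [hs2, hρ, hs, this, abs_nonneg C, mul_nonneg_of_nonpos_of_nonpos (le_of_lt (Mathlib.Tactic.Linarith.sub_neg_of_lt hρ)) (Mathlib.Tactic.Linarith.sub_nonpos_of_le hs), mul_nonneg_of_nonpos_of_nonpos (le_of_lt (Mathlib.Tactic.Linarith.sub_neg_of_lt hρ)) (Mathlib.Tactic.Linarith.sub_nonpos_of_le this), mul_nonneg_of_nonpos_of_nonpos (Mathlib.Tactic.Linarith.sub_nonpos_of_le hs) (Mathlib.Tactic.Linarith.sub_nonpos_of_le this)]
  have b3 := mul_le_mul_of_nonneg_left (c3.trans (mul_le_mul_of_nonneg_left b2 hρ.le)) hK0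
  have b4 := mul_pos (rr_pos (k + 1)) ht
  have b5 := mul_pos hρ ht
  linarith only [c2, b1, b3, b4]

lemma sq_rec {x t : ℕ → ℝ} {η X T : ℝ} (hη : 0 < η) (hη1 : η ≤ 1) (hx0 : ∀ k, 0 ≤ x k)
    (hX : ∀ k, x k ≤ X) (h : ∀ k, x k ≤ (1 - η) * x (k + 1) + t k)
    (hT : ∀ n, ∑ k ∈ Finset.range n, t k ^ 2 ≤ T) (n : ℕ) :
    ∑ k ∈ Finset.range n, x k ^ 2 ≤ X ^ 2 / η + T / η ^ 2 := by
  have h1 : ∀ k, x k ^ 2 ≤ (1 - η) * x (k + 1) ^ 2 + t k ^ 2 / η := by
    intro k
    refine (pow_le_pow_left₀ (hx0 k) (h k) 2).trans ?_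
    have e1 : t k = η * (t k / η) := by field_simp
    have e2 : t k ^ 2 / η = η * (t k / η) ^ 2 := by field_simp
    rw [e2]
    generalize t k / η = u at e1 ⊢
    rw [e1]
    linarith only [hη, hη1, mul_nonneg (mul_nonneg hη.le (sub_nonneg.2 hη1)) (sq_nonneg (x (k + 1) - u)), sq_nonneg (x (k + (1 : ℕ)) - u)]
  have h2 := Finset.sum_le_sum fun k (_ : k ∈ Finset.range n) => h1 k
  rw [Finset.sum_add_distrib, ← Finset.mul_sum, ← Finset.sum_div] at h2
  have h3 : ∑ k ∈ Finset.range n, x (k + 1) ^ 2 ≤ ∑ k ∈ Finset.range n, x k ^ 2 + X ^ 2 := by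
    have e := Finset.sum_range_succ' (fun k => x k ^ 2) n
    rw [Finset.sum_range_succ] at e
    have := pow_le_pow_left₀ (hx0 n) (hX n) 2
    linarith only [e, this, sq_nonneg (x 0), sq_nonneg (x (0 : ℕ))]
  have h4 := div_le_div_of_nonneg_right (hT n) hη.le
  have h5 := mul_le_mul_of_nonneg_left h3 (sub_nonneg.2 hη1)
  have h6 : η * ∑ k ∈ Finset.range n, x k ^ 2 ≤ X ^ 2 + T / η := by
    linarith only [h2, h4, h5, hη, mul_nonneg hη.le (sq_nonneg X), sq_nonneg X]
  have e3 : X ^ 2 / η + T / η ^ 2 = (X ^ 2 + T / η) / η := by field_simp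
  rw [e3, le_div_iff₀ hη]
  linarith only [h6]

lemma PA_exp {u v M : ℝ} (hu : Real.exp u ≤ M) (hv : Real.exp v ≤ M) :
    |Real.exp u - Real.exp v| ≤ M * |u - v| := by
  have key : ∀ u v : ℝ, Real.exp u ≤ M → Real.exp u - Real.exp v ≤ M * |u - v| := by
    intro u v hu
    have h1 := Real.add_one_le_exp (v - u)
    have h2 : Real.exp v = Real.exp u * Real.exp (v - u) := by
      rw [← Real.exp_add]
      congr 1
      ring
    have h3 := Real.exp_pos u
    have h4 := mul_le_mul_of_nonneg_left h1 h3.le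
    have h5 := mul_le_mul_of_nonneg_left (le_abs_self (u - v)) h3.le
    have h6 := mul_le_mul_of_nonneg_right hu (abs_nonneg (u - v))
    linarith only [h2, h4, h5, h6]
  have h1 := key u v hu
  have h2 := key v u hv
  rw [abs_sub_comm v u] at h2
  rw [abs_le]
  constructor <;> linarith

lemma PA_lip {c u v : ℝ} (hc : 0 < c) (hu : c ≤ u) (hv : c ≤ v) :
    |Real.log u - Real.log v| ≤ |u - v| / c := by
  have key : ∀ u v : ℝ, c ≤ u → c ≤ v → Real.log u - Real.log v ≤ |u - v| / c := by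
    intro u v hu hv
    have hv0 := hc.trans_le hv
    have h1 := Real.log_le_sub_one_of_pos (div_pos (hc.trans_le hu) hv0)
    rw [Real.log_div (hc.trans_le hu).ne' hv0.ne'] at h1
    have h2 : u / v - 1 = (u - v) / v := by field_simp
    have h3 : (u - v) / v ≤ |u - v| / v := div_le_div_of_nonneg_right (le_abs_self _) hv0.le
    have h4 : |u - v| / v ≤ |u - v| / c := div_le_div_of_nonneg_left (abs_nonneg _) hc hv
    linarith only [h1, h2, h3, h4]
  have h1 := key u v hu hv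
  have h2 := key v u hv hu
  rw [abs_sub_comm v u] at h2
  rw [abs_le]
  constructor <;> linarith only [h2, h1]

/-- The model mass. -/
noncomputable def PA_R (g e : ℕ → ℝ) (k : ℕ) (r : ℝ) : ℝ := r * Real.exp (g k * Real.log r + e k)

lemma PA_R_eq (g e : ℕ → ℝ) (k : ℕ) {r : ℝ} (hr : 0 < r) :
    PA_R g e k r = Real.exp (Real.log r + (g k * Real.log r + e k)) := by
  rw [Real.exp_add (Real.log r), Real.exp_log hr, PA_R]

lemma PA_R_bd {g e : ℕ → ℝ} {k : ℕ} {r s L : ℝ} (hr : 0 < r) (hs : 0 < s)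
    (h : |Real.log r + (g k * Real.log r + e k) - Real.log s| ≤ L) :
    Real.exp (-L) * s ≤ PA_R g e k r ∧ PA_R g e k r ≤ Real.exp L * s := by
  rw [PA_R_eq g e k hr, abs_le] at *
  constructor
  · conv_lhs => rw [← Real.exp_log hs, ← Real.exp_add]
    exact Real.exp_le_exp.2 (by linarith [h.1])
  · conv_rhs => rw [← Real.exp_log hs, ← Real.exp_add]
    exact Real.exp_le_exp.2 (by linarith [h.2])

lemma PA_der (g e : ℕ → ℝ) (k : ℕ) {r : ℝ} (hr : 0 < r) :
    HasDerivAt (PA_R g e k) ((1 + g k) * Real.exp (g k * Real.log r + e k)) r := by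
  have h1 := (hasDerivAt_id' r).mul
    ((((Real.hasDerivAt_log hr.ne').const_mul (g k)).add_const (e k)).exp)
  refine h1.congr_deriv ?_
  field_simp

lemma PA_move (C : ℝ) : ∃ K : ℝ, 0 ≤ K ∧ ∀ (β : ℝ → ℝ) (g e N : ℕ → ℝ), AI β C →
    MS1 β g e N C → ∀ k, ∀ r ∈ Icc (rr (k + 1)) (rr k),
      |((1 + g k) * SS β (rr k) - PA_R g e k (rr k)) - ((1 + g k) * SS β r - PA_R g e k r)| ≤
        K * SS β (rr k) * (Real.sqrt (N k) + rr k) := by
  obtain ⟨L, -, hL⟩ := pa_norm C
  obtain ⟨K, hK0, hK⟩ := pa_int C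
  refine ⟨(1 + |C|) * (2 * Real.exp L) * K, by positivity, fun β g e N hβ h k r hr => ?_⟩
  obtain ⟨i1, i2⟩ := hK β g e N hβ h k
  have ha := rr_pos (k + 1)
  have hρ := rr_pos k
  have h2 := PA_two k
  have hr0 := ha.trans_le hr.1
  have hS := hβ.SS_pos hρ
  have hc : ContinuousOn (fun t => Real.exp (g k * Real.log t + e k)) (Icc r (rr k)) :=
    ((continuousOn_const.mul (Real.continuousOn_log.mono fun t ht =>
      (hr0.trans_le ht.1).ne')).add continuousOn_const).rexp
  have hi : IntervalIntegrable (fun t => Real.exp (g k * Real.log t + e k)) volume r (rr k) :=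
    hc.intervalIntegrable_of_Icc hr.2
  have p1 := (prim_of_deriv hr.2 (fun x hx => PA_der g e k (hr0.trans_le hx.1))
    (continuousOn_const.mul hc)).2 (rr k) ⟨hr.2, le_rfl⟩
  rw [intervalIntegral.integral_const_mul] at p1
  have p2 := hβ.SS_sub r (rr k)
  have e1 : ((1 + g k) * SS β (rr k) - PA_R g e k (rr k)) - ((1 + g k) * SS β r - PA_R g e k r) =
      (1 + g k) * ∫ t in r..(rr k), (Real.exp (β t) - Real.exp (g k * Real.log t + e k)) := by
    rw [intervalIntegral.integral_sub (hβ.iie _ _) hi, p1]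
    unfold mu at p2
    rw [← p2]
    ring
  have i3 : IntervalIntegrable (fun t => |Real.exp (β t - (g k * Real.log t + e k)) - 1|) volume
      r (rr k) := by
    refine i1.mono_set ?_
    rw [uIcc_of_le hr.2, uIcc_of_le (rr_succ_le k)]
    exact Icc_subset_Icc hr.1 le_rfl
  have b1 := intervalIntegral.norm_integral_le_of_norm_le
    (f := fun t => Real.exp (β t) - Real.exp (g k * Real.log t + e k)) hr.2
    (Eventually.of_forall fun t ht => ?_) (i3.const_mul (2 * Real.exp L * SS β (rr k) / rr k))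
  · rw [Real.norm_eq_abs, intervalIntegral.integral_const_mul] at b1
    have b2 := (intervalIntegral.integral_mono_interval hr.1 hr.2 le_rfl
      (Eventually.of_forall fun t => abs_nonneg _) i1).trans i2
    have b3 := b1.trans (mul_le_mul_of_nonneg_left b2 (by positivity))
    have b4 : |1 + g k| ≤ 1 + |C| := by
      have := h.bd k
      have := le_abs_self C
      have := abs_add_le 1 (g k)
      rw [abs_one] at this
      linarith
    rw [e1, abs_mul]
    refine (mul_le_mul b4 b3 (abs_nonneg _) (by positivity)).trans (le_of_eq ?_)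
    field_simp
  · have ht0 := hr0.trans ht.1
    have ht1 : t ∈ Icc (rr (k + 1)) (rr k) := ⟨hr.1.trans ht.1.le, ht.2⟩
    have q1 := (PA_R_bd ht0 (hβ.SS_pos ht0) (hL β g e N hβ h k t ht1).2).2
    have q2 := mul_le_mul_of_nonneg_left (hβ.SS_mono.monotone ht.2) (Real.exp_pos L).le
    have q3 : Real.exp (g k * Real.log t + e k) ≤ 2 * Real.exp L * SS β (rr k) / rr k := by
      rw [le_div_iff₀ hρ]
      unfold PA_R at q1
      have q5 := mul_le_mul_of_nonneg_right ht1.1 (Real.exp_pos (g k * Real.log t + e k)).le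
      have q6 : Real.exp (g k * Real.log t + e k) * rr k =
          2 * (rr (k + 1) * Real.exp (g k * Real.log t + e k)) := by
        rw [rr_succ]
        ring
      linarith only [q1, q2, q5, q6]
    have q4 : Real.exp (β t) - Real.exp (g k * Real.log t + e k) =
        Real.exp (g k * Real.log t + e k) * (Real.exp (β t - (g k * Real.log t + e k)) - 1) := by
      rw [mul_sub, ← Real.exp_add]
      congr 2 <;> ring
    rw [Real.norm_eq_abs, q4, abs_mul, abs_of_pos (Real.exp_pos _)]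
    exact mul_le_mul_of_nonneg_right q3 (abs_nonneg _)

lemma PA_core (C : ℝ) : ∃ c Z : ℝ, 0 < c ∧ 0 ≤ Z ∧ ∀ (β : ℝ → ℝ) (g e N : ℕ → ℝ), AI β C →
    MS1 β g e N C → ∃ z : ℕ → ℝ, (∀ n, ∑ k ∈ Finset.range n, z k ^ 2 ≤ Z) ∧
      ∀ k, ∀ r ∈ Icc (rr (k + 1)) (rr k),
        |PA_R g e k r / SS β r - (1 + g k)| ≤ z k ∧ 2 * c ≤ PA_R g e k r / SS β r := by
  obtain ⟨L, -, hL⟩ := pa_norm C
  obtain ⟨K, hK0, hK⟩ := PA_move C
  obtain ⟨η, h0, h1, hη⟩ := os_dbl C
  obtain ⟨T, hT⟩ : ∃ T : ℝ, T = 4 * (C ^ 2 + Real.exp L ^ 2 * C ^ 2 + K ^ 2 * |C| + K ^ 2 * 2 ^ 2) :=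
    ⟨_, rfl⟩
  obtain ⟨X, hX⟩ : ∃ X : ℝ, X = 1 + C + Real.exp L := ⟨_, rfl⟩
  have hT0 : 0 ≤ T := by rw [hT]; positivity
  refine ⟨Real.exp (-L) / 2, 2 * ((X ^ 2 / η + T / η ^ 2) + T) / η ^ 2, by positivity,
    by positivity, fun β g e N hβ h => ?_⟩
  have hE := Real.exp_pos L
  have hS : ∀ k, 0 < SS β (rr k) := fun k => hβ.SS_pos (rr_pos k)
  obtain ⟨x, hx⟩ : ∃ x : ℕ → ℝ,
      ∀ k, x k = |(1 + g k) * SS β (rr k) - PA_R g e k (rr k)| / SS β (rr k) := ⟨_, fun _ => rfl⟩
  obtain ⟨j, hj⟩ : ∃ j : ℕ → ℝ,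
      ∀ k, j k = |(g k - g (k + 1)) * Real.log (rr (k + 1)) + (e k - e (k + 1))| :=
    ⟨_, fun _ => rfl⟩
  obtain ⟨τ, hτ⟩ : ∃ τ : ℕ → ℝ,
      ∀ k, τ k = |g (k + 1) - g k| + Real.exp L * j k + K * (Real.sqrt (N k) + rr k) :=
    ⟨_, fun _ => rfl⟩
  have hj0 : ∀ k, 0 ≤ j k := fun k => hj k ▸ abs_nonneg _
  have hx0 : ∀ k, 0 ≤ x k := fun k => hx k ▸ div_nonneg (abs_nonneg _) (hS k).le
  have hx1 : ∀ k, |(1 + g k) * SS β (rr k) - PA_R g e k (rr k)| = x k * SS β (rr k) := fun k => by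
    rw [hx, div_mul_cancel₀ _ (hS k).ne']
  have hd : ∀ k, η * SS β (rr k) ≤ SS β (rr (k + 1)) ∧
      SS β (rr (k + 1)) ≤ (1 - η) * SS β (rr k) := fun k => by
    obtain ⟨d1, d2⟩ := hη β hβ (rr k) (rr_pos k) (PA_pi k)
    rw [← rr_succ] at d1 d2
    exact ⟨d1, by linarith only [d2]⟩
  have hR : ∀ k, ∀ r ∈ Icc (rr (k + 1)) (rr k),
      Real.exp (-L) * SS β r ≤ PA_R g e k r ∧ PA_R g e k r ≤ Real.exp L * SS β r := fun k r hr =>
    PA_R_bd ((rr_pos _).trans_le hr.1) (hβ.SS_pos ((rr_pos _).trans_le hr.1))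
      (hL β g e N hβ h k r hr).2
  have hxX : ∀ k, x k ≤ X := fun k => by
    obtain ⟨r1, r2⟩ := hR k (rr k) ⟨rr_succ_le k, le_rfl⟩
    have r3 := mul_pos (Real.exp_pos (-L)) (hS k)
    have r4 := abs_le.1 (h.bd k)
    have r5 := hS k
    have r6 := hβ.one_le
    rw [hx, div_le_iff₀ (hS k), hX, abs_le]
    constructor <;> (refine le_of_not_gt fun h_nl => ?_; linarith only [h_nl, r1, r2, h0, r3, h1, hE, r4, r4.1, r4.2, mul_pos_of_neg_of_neg (Mathlib.Tactic.Linarith.sub_neg_of_lt h0) (Mathlib.Tactic.Linarith.sub_neg_of_lt r3), mul_nonneg_of_nonpos_of_nonpos (Mathlib.Tactic.Linarith.sub_nonpos_of_le h1) (le_of_lt (Mathlib.Tactic.Linarith.sub_neg_of_lt r3)), mul_nonneg_of_nonpos_of_nonpos (le_of_lt (Mathlib.Tactic.Linarith.sub_neg_of_lt hE)) (Mathlib.Tactic.Linarith.sub_nonpos_of_le r2), mul_pos_of_neg_of_neg (Mathlib.Tactic.Linarith.sub_neg_of_lt hE) (Mathlib.Tactic.Linarith.sub_neg_of_lt h_nl), mul_nonneg_of_nonpos_of_nonpos (Mathlib.Tactic.Linarith.sub_nonpos_of_le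 r1) (Mathlib.Tactic.Linarith.sub_nonpos_of_le r4.left), mul_nonneg_of_nonpos_of_nonpos (Mathlib.Tactic.Linarith.sub_nonpos_of_le r2) (Mathlib.Tactic.Linarith.sub_nonpos_of_le r4.left), mul_nonneg_of_nonpos_of_nonpos (le_of_lt (Mathlib.Tactic.Linarith.sub_neg_of_lt r3)) (Mathlib.Tactic.Linarith.sub_nonpos_of_le r4.left), mul_nonneg_of_nonpos_of_nonpos (le_of_lt (Mathlib.Tactic.Linarith.sub_neg_of_lt hE)) (Mathlib.Tactic.Linarith.sub_nonpos_of_le r1), mul_pos_of_neg_of_neg (Mathlib.Tactic.Linarith.sub_neg_of_lt hE) (Mathlib.Tactic.Linarith.sub_neg_of_lt r3), mul_nonneg_of_nonpos_of_nonpos (Mathlib.Tactic.Linarith.sub_nonpos_of_le r1) (Mathlib.Tactic.Linarith.sub_nonpos_of_le r4.right), mul_nonneg_of_nonpos_of_nonpos (Mathlib.Tactic.Linarith.sub_nonpos_of_le r2) (Mathlib.Tactic.Linarith.sub_nonpos_of_le r4.right), mul_nonneg_of_nonpos_of_nonpos (le_of_lt (Mathlib.Tactic.Linarith.sub_neg_of_lt r3)) (Mathlib.Tactic.Linarith.sub_nonpos_of_le r4.right)])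
  have hrec : ∀ k, x k ≤ (1 - η) * x (k + 1) + τ k := fun k => by
    have m1 := hK β g e N hβ h k (rr (k + 1)) ⟨le_rfl, rr_succ_le k⟩
    have m2 := hx1 (k + 1)
    have r1 := (hR k (rr (k + 1)) ⟨le_rfl, rr_succ_le k⟩).2
    have r2 := (hR (k + 1) (rr (k + 1)) ⟨rr_succ_le _, le_rfl⟩).2
    have m3 : |PA_R g e k (rr (k + 1)) - PA_R g e (k + 1) (rr (k + 1))| ≤
        Real.exp L * SS β (rr (k + 1)) * j k := by
      rw [PA_R_eq _ _ _ (rr_pos _)] at r1 r2
      rw [PA_R_eq _ _ k (rr_pos _), PA_R_eq _ _ (k + 1) (rr_pos _)]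
      refine (PA_exp r1 r2).trans (le_of_eq ?_)
      rw [hj]
      congr 2
      ring
    have m4 : |(g (k + 1) - g k) * SS β (rr (k + 1))| = |g (k + 1) - g k| * SS β (rr (k + 1)) := by
      rw [abs_mul, abs_of_pos (hS _)]
    have m5 : SS β (rr (k + 1)) ≤ SS β (rr k) := hβ.SS_mono.monotone (rr_succ_le k)
    have m6 := mul_le_mul_of_nonneg_left (hd k).2 (hx0 (k + 1))
    have m7 := mul_le_mul_of_nonneg_left m5 (abs_nonneg (g (k + 1) - g k))
    have m8 := mul_le_mul_of_nonneg_left m5 (mul_nonneg hE.le (hj0 k))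
    have n1 := abs_le.1 m1
    have n2 := abs_le.1 m2.le
    have n3 := abs_le.1 m3
    have n4 := abs_le.1 m4.le
    rw [hx k, div_le_iff₀ (hS k), hτ, abs_le]
    constructor <;> linarith only [m6, m7, m8, n1, n2, n3, n4, n1.1, n1.2, n2.1, n2.2, n3.1, n3.2, n4.1, n4.2]
  have hτT : ∀ n, ∑ k ∈ Finset.range n, τ k ^ 2 ≤ T := fun n => by
    have a1 := PA_sumsq (fun k => abs_nonneg (g (k + 1) - g k)) h.bv n
    have a2 := PA_sumsq hj0 (fun n => by simp only [hj]; exact h.jmp n) n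
    have a3 := (h.sm.sum n).trans (le_abs_self C)
    have a4 := PA_sumsq (fun k => (rr_pos k).le) PA_sum_rr n
    have a5 : ∀ k ∈ Finset.range n, τ k ^ 2 ≤ 4 * (|g (k + 1) - g k| ^ 2 +
        Real.exp L ^ 2 * j k ^ 2 + K ^ 2 * N k + K ^ 2 * rr k ^ 2) := fun k _ => by
      have s1 : K ^ 2 * N k = (K * Real.sqrt (N k)) ^ 2 := by
        rw [mul_pow, Real.sq_sqrt (h.sm.nn k)]
      rw [hτ, s1, ← mul_pow, ← mul_pow, mul_add K]
      generalize |g (k + 1) - g k| = u1
      generalize Real.exp L * j k = u2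
      generalize K * Real.sqrt (N k) = u3
      generalize K * rr k = u4
      linarith only [sq_nonneg (u1 - u2), sq_nonneg (u1 - u3), sq_nonneg (u1 - u4), sq_nonneg (u2 - u3),
        sq_nonneg (u2 - u4), sq_nonneg (u3 - u4), sq_nonneg (u3 - u4), sq_nonneg (u2 - u4), sq_nonneg (u2 - u3), sq_nonneg (u1 - u4), sq_nonneg (u1 - u3), sq_nonneg (u1 - u2)]
    refine (Finset.sum_le_sum a5).trans ?_
    rw [← Finset.mul_sum, Finset.sum_add_distrib, Finset.sum_add_distrib, Finset.sum_add_distrib,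
      ← Finset.mul_sum, ← Finset.mul_sum, ← Finset.mul_sum, hT]
    have := mul_le_mul_of_nonneg_left a2 (sq_nonneg (Real.exp L))
    have := mul_le_mul_of_nonneg_left a3 (sq_nonneg K)
    have := mul_le_mul_of_nonneg_left a4 (sq_nonneg K)
    linarith
  refine ⟨fun k => (x k + τ k) / η, fun n => ?_, fun k r hr => ?_⟩
  · have a1 := sq_rec h0 (by linarith only [h0, h1]) hx0 hxX hrec hτT n
    have a2 : ∀ k ∈ Finset.range n, ((x k + τ k) / η) ^ 2 ≤ 2 * (x k ^ 2 + τ k ^ 2) / η ^ 2 :=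
      fun k _ => by
        rw [div_pow]
        exact div_le_div_of_nonneg_right (by linarith only [sq_nonneg (x k - τ k), sq_nonneg (x k - τ k)]) (by positivity)
    refine (Finset.sum_le_sum a2).trans ?_
    rw [← Finset.sum_div, ← Finset.mul_sum, Finset.sum_add_distrib]
    exact div_le_div_of_nonneg_right (by linarith only [a1, hτT, hτT n]) (by positivity)
  · have hr0 := hβ.SS_pos ((rr_pos _).trans_le hr.1)
    refine ⟨?_, by rw [le_div_iff₀ hr0]; linarith only [hR, hr, (hR k r hr).1]⟩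
    have m1 := abs_le.1 (hK β g e N hβ h k r hr)
    have m2 := abs_le.1 (hx1 k).le
    have m3 := (hd k).1.trans (hβ.SS_mono.monotone hr.1)
    have t1 : K * (Real.sqrt (N k) + rr k) ≤ τ k := by
      have := abs_nonneg (g (k + 1) - g k)
      have := mul_nonneg hE.le (hj0 k)
      rw [hτ]
      linarith
    have t0 : 0 ≤ K * (Real.sqrt (N k) + rr k) :=
      mul_nonneg hK0 (add_nonneg (Real.sqrt_nonneg _) (rr_pos k).le)
    have t2 := mul_le_mul_of_nonneg_right t1 (hS k).le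
    have t3 : (x k + τ k) * SS β (rr k) ≤ (x k + τ k) / η * SS β r := by
      have := mul_le_mul_of_nonneg_left m3 (div_nonneg (add_nonneg (hx0 k) (t0.trans t1)) h0.le)
      rwa [← mul_assoc, div_mul_cancel₀ _ h0.ne'] at this
    have e1 : PA_R g e k r / SS β r - (1 + g k) = (PA_R g e k r - (1 + g k) * SS β r) / SS β r := by
      field_simp
    rw [e1, abs_div, abs_of_pos hr0, div_le_iff₀ hr0, abs_le]
    constructor <;> linarith only [m1, m2, t2, t3, m1.1, m1.2, m2.1, m2.2]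

theorem pa (C : ℝ) : ∃ c₀ K : ℝ, 0 < c₀ ∧ C ≤ K ∧ ∀ (β : ℝ → ℝ) (g e N : ℕ → ℝ), AI β C →
    MS1 β g e N C → (∃ N', WS1 β (fun k => max (1 + g k) c₀) N' K) ∧
      ∀ n, ∑ k ∈ Finset.range n, |max (1 + g k) c₀ - (1 + g k)| ≤ K := by
  obtain ⟨c, Z, hc, hZ, H⟩ := PA_core C
  have k1 := abs_nonneg C
  have k2 := le_abs_self C
  have k3 : 0 < 1 / c := by positivity
  have k4 : 0 ≤ Z / c ^ 2 := by positivity
  have k5 : 0 ≤ Z / c := by positivity
  obtain ⟨K, hK⟩ : ∃ K : ℝ, K = 1 + 2 * |C| + c + 1 / c + Z / c ^ 2 + Z / c := ⟨_, rfl⟩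
  refine ⟨c, K, hc, by linarith only [hc, k1, k2, k3, k4, k5, hK], fun β g e N hβ h => ?_⟩
  obtain ⟨z, hz, hq⟩ := H β g e N hβ h
  refine ⟨⟨fun k => 2 * N k + z k ^ 2 / c ^ 2, ⟨by linarith only [hc, k1, k3, k4, k5, hK], fun k => ?_, fun k => ?_, fun n => ?_⟩,
    ⟨fun k => ?_, fun n => ?_⟩, fun k => ?_⟩, fun n => ?_⟩
  · refine le_trans ?_ (le_max_right _ _)
    rw [one_div_le (by linarith only [hc, k1, k3, k4, k5, hK]) hc]
    linarith only [hc, k1, k4, k5, hK]
  · have := abs_le.1 (h.bd k)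
    exact max_le (by linarith only [hc, k1, k2, k3, k4, k5, hK, this, this.2]) (by linarith only [k1, k3, k4, k5, hK])
  · refine le_trans (Finset.sum_le_sum fun k _ => ?_) ((h.bv n).trans (by linarith only [hc, k1, k2, k3, k4, k5, hK]))
    refine (abs_max_sub_max_le_abs _ _ _).trans (le_of_eq ?_)
    congr 1
    ring
  · have := h.sm.nn k
    positivity
  · rw [Finset.sum_add_distrib, ← Finset.mul_sum, ← Finset.sum_div]
    have := div_le_div_of_nonneg_right (hz n) (sq_nonneg c)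
    linarith only [hc, k2, k3, k5, hK, this, h, h.sm.sum n]
  · obtain ⟨s1, s2⟩ := PA_sq h k
    have i1 : IntervalIntegrable (fun r => 2 * (β r - (g k * Real.log r + e k)) ^ 2 +
        2 * (z k ^ 2 / c ^ 2)) volume (rr (k + 1)) (rr k) :=
      (s1.const_mul 2).add intervalIntegrable_const
    have b1 := intervalIntegral.norm_integral_le_of_norm_le
      (f := fun r => min 1 ((Real.log (WW β r / max (1 + g k) c)) ^ 2)) (rr_succ_le k)
      (Eventually.of_forall fun r hr => ?_) i1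
    · refine (le_abs_self _).trans (b1.trans ?_)
      rw [intervalIntegral.integral_add (s1.const_mul 2) intervalIntegrable_const,
        intervalIntegral.integral_const_mul, intervalIntegral.integral_const, smul_eq_mul,
        rr_succ]
      rw [rr_succ] at s2
      linarith only [s2]
    · have hr0 := (rr_pos _).trans hr.1
      have hS := hβ.SS_pos hr0
      obtain ⟨q1, q2⟩ := hq k r ⟨hr.1.le, hr.2⟩
      have hm : c ≤ max (1 + g k) c := le_max_right _ _
      have q3 : |PA_R g e k r / SS β r - max (1 + g k) c| ≤ z k := by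
        rcases le_total (1 + g k) c with hh | hh
        · rw [max_eq_right hh, abs_of_nonneg (by linarith only [hc, q2])]
          linarith only [hh, q1, (abs_le.1 q1).2]
        · rwa [max_eq_left hh]
      have q4 := (PA_lip hc (by linarith only [hc, q2]) hm).trans (div_le_div_of_nonneg_right q3 hc.le)
      have q5 : Real.log (WW β r / max (1 + g k) c) = (β r - (g k * Real.log r + e k)) +
          (Real.log (PA_R g e k r / SS β r) - Real.log (max (1 + g k) c)) := by
        rw [WW, PA_R_eq _ _ _ hr0, Real.log_div (by positivity) (hc.trans_le hm).ne',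
          Real.log_div (by positivity) hS.ne', Real.log_div (Real.exp_pos _).ne' hS.ne',
          Real.log_mul hr0.ne' (Real.exp_pos _).ne', Real.log_exp, Real.log_exp]
        ring
      have q6 := pow_le_pow_left₀ (abs_nonneg _) q4 2
      rw [sq_abs, div_pow] at q6
      rw [Real.norm_eq_abs, abs_of_nonneg (le_min zero_le_one (sq_nonneg _)), q5]
      refine (min_le_right _ _).trans ?_
      linarith only [q6, sq_nonneg ((β r - (g k * Real.log r + e k)) -
        (Real.log (PA_R g e k r / SS β r) - Real.log (max (1 + g k) c))), sq_nonneg ((1 : ℝ) * β r - ((1 : ℝ) * g k * ((1 : ℝ) * log r) + (1 : ℝ) * e k) - ((1 : ℝ) * log (PA_R g e k r / SS β r) - (1 : ℝ) * log (max ((1 : ℝ) + g k) c)))]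
  · have a1 : ∀ k ∈ Finset.range n, |max (1 + g k) c - (1 + g k)| ≤ z k ^ 2 / c := fun k _ => by
      rcases le_total (1 + g k) c with hh | hh
      · obtain ⟨q1, q2⟩ := hq k (rr k) ⟨rr_succ_le k, le_rfl⟩
        have q3 := (abs_le.1 q1).2
        rw [max_eq_right hh, abs_of_nonneg (by linarith only [hh]), le_div_iff₀ hc]
        linarith only [hc, q2, q3, hh, sq_nonneg (z k), mul_pos_of_neg_of_neg (Mathlib.Tactic.Linarith.sub_neg_of_lt hc) (Mathlib.Tactic.Linarith.sub_neg_of_lt hc), mul_nonneg_of_nonpos_of_nonpos (le_of_lt (Mathlib.Tactic.Linarith.sub_neg_of_lt hc)) (Mathlib.Tactic.Linarith.sub_nonpos_of_le q2), mul_nonneg_of_nonpos_of_nonpos (le_of_lt (Mathlib.Tactic.Linarith.sub_neg_of_lt hc)) (Mathlib.Tactic.Linarith.sub_nonpos_of_le q3), mul_nonneg_of_nonpos_of_nonpos (Mathlib.Tactic.Linarith.sub_nonpos_of_le hh) (Mathlib.Tactic.Linarith.sub_nonpos_of_le hh), mul_nonneg_of_nonpos_of_nonpos (Mathlib.Tactic.Linarith.sub_nonpos_of_le hh) (Mathlib.Tactic.Linarith.sub_nonpos_of_le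 q2), mul_nonneg_of_nonpos_of_nonpos (Mathlib.Tactic.Linarith.sub_nonpos_of_le hh) (Mathlib.Tactic.Linarith.sub_nonpos_of_le q3), mul_nonneg_of_nonpos_of_nonpos (Mathlib.Tactic.Linarith.sub_nonpos_of_le q2) (Mathlib.Tactic.Linarith.sub_nonpos_of_le q2), mul_nonneg_of_nonpos_of_nonpos (Mathlib.Tactic.Linarith.sub_nonpos_of_le q2) (Mathlib.Tactic.Linarith.sub_nonpos_of_le q3), mul_nonneg_of_nonpos_of_nonpos (Mathlib.Tactic.Linarith.sub_nonpos_of_le q3) (Mathlib.Tactic.Linarith.sub_nonpos_of_le q3)]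
      · rw [max_eq_left hh, sub_self, abs_zero]
        positivity
    refine (Finset.sum_le_sum a1).trans ?_
    rw [← Finset.sum_div]
    have := div_le_div_of_nonneg_right (hz n) hc.le
    linarith only [hc, k1, k3, k4, hK, this]

end Pool.Agent.Work.MP_af796d_an.H
end

-- merged part: Pool.Agent.Work.MP_af796d_an.H.Kol
section
/-!
# Kolmogorov weak type estimate
PLAN.  w0 ξ = (indicator of Ioc (-δ) 0 minus indicator of Ioc 0 δ)/δ^2, F0 = FF id w0 (-π) (Core.lean): DiffContOnCl by diffContOnCl_FF good_id UI_id.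
For |x| ≤ π: Re F0 (ex x) = ∫_{-π}^x w0 = max 0 (δ - |x|)/δ^2 ≥ 0 (RR_boundary), and for every x, Im F0 (ex x) = (1/π) ∫ lg (t - x) w0 t = (1/π) Ed δ lg x
(JJ_boundary, lg_neg, Ed_eq).  Re F0 ≥ 0 on the disc (re_nonpos_of_boundary is for equality; use the maximum principle for exp (-F0) via norm_le_of_sphere).
F0 0 = 1/(2π): Im by JJ_zero, Re by the mean value property (DiffContOnCl.circleAverage or circle integral formula) and ∫ tent = 1;
only F0 0 real with Re ≤ 1/(2π) is needed.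
G z = ∫ F0 (z * ex (-σ)) dν(σ) is DiffContOnCl on the disc (F0 is bounded and uniformly continuous on the closed disc: continuity by
continuousOn_of_dominated; holomorphy by hasDerivAt_integral_of_dominated_loc_of_deriv_le with Cauchy estimates, or by Morera / the circle integral formula and Fubini).
Re G ≥ 0, G 0 = mass/(2π), Im G (ex s) = (1/π) ∫ Ed δ lg (s - σ) dν.  With μ = λ/π the function G/(G + μ) is DiffContOnCl, its circle average is
G 0/(G 0 + μ) ≤ G 0/μ, and kol_pt gives min 1 (q^2/μ^2) ≤ 2 Re (G/(G + μ)).  Enlarge [a, b] to [a, a + 2π] (integrand ≥ 0), periodicity.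
* kol_pt: 1 - Re (z/(z + μ)) = μ u/(u^2 + q^2) with u = p + μ ≥ μ.  If |q| ≤ μ then μ u/(u^2+q^2) ≤ μ^2/(μ^2+q^2) (as (u - μ)(u μ - q^2) ≥ 0), so Re ≥ q^2/(2 μ^2).
  If |q| ≥ μ then μ u/(u^2 + q^2) ≤ μ/(2 |q|) ≤ 1/2.
-/

set_option autoImplicit false

namespace Pool.Agent.Work.MP_af796d_an.H

open MeasureTheory Set Real Metric Filter Topology

lemma kol_pt {z : ℂ} {μ : ℝ} (hμ : 0 < μ) (hz : 0 ≤ z.re) :
    min 1 ((z.im / μ) ^ 2) ≤ 2 * (z / (z + μ)).re := by
  have hD : 0 < (z.re + μ) ^ 2 + z.im ^ 2 := by positivity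
  have hre : (z / (z + μ)).re =
      (z.re * (z.re + μ) + z.im ^ 2) / ((z.re + μ) ^ 2 + z.im ^ 2) := by
    rw [Complex.div_re, Complex.normSq_apply]
    simp only [Complex.add_re, Complex.ofReal_re, Complex.add_im, Complex.ofReal_im, add_zero]
    rw [← add_div]
    congr 1 <;> ring
  rw [hre, ← mul_div_assoc, le_div_iff₀ hD]
  set m := min 1 ((z.im / μ) ^ 2) with hm
  have h0 : 0 ≤ m := le_min zero_le_one (sq_nonneg _)
  have h1 : m ≤ 1 := min_le_left _ _
  have h2 : m * μ ^ 2 ≤ z.im ^ 2 := by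
    have h3 : m ≤ (z.im / μ) ^ 2 := min_le_right _ _
    rw [div_pow, le_div_iff₀ (by positivity)] at h3
    exact h3
  have h4 : m * z.re ^ 2 ≤ z.re ^ 2 := mul_le_of_le_one_left (sq_nonneg _) h1
  have h5 : m * (z.re * μ) ≤ z.re * μ := mul_le_of_le_one_left (by positivity) h1
  have h6 : m * z.im ^ 2 ≤ z.im ^ 2 := mul_le_of_le_one_left (sq_nonneg _) h1
  linarith only [h2, h4, h5, h6, sq_nonneg z.re, sq_nonneg z.re]

/-- derivative of the tent function. -/
noncomputable def Kol_w (δ t : ℝ) : ℝ :=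
  ((Ioc (-δ) 0).indicator (fun _ => (1 : ℝ)) t - (Ioc 0 δ).indicator (fun _ => (1 : ℝ)) t) / δ ^ 2

lemma Kol_w_meas (δ : ℝ) : Measurable (Kol_w δ) :=
  ((measurable_const.indicator measurableSet_Ioc).sub
    (measurable_const.indicator measurableSet_Ioc)).div_const _

lemma Kol_w_bd (δ t : ℝ) : |Kol_w δ t| ≤ 1 / δ ^ 2 := by
  unfold Kol_w
  rw [abs_div, abs_of_nonneg (sq_nonneg δ)]
  refine div_le_div_of_nonneg_right ?_ (sq_nonneg _)
  by_cases h1 : t ∈ Ioc (-δ) 0 <;> by_cases h2 : t ∈ Ioc 0 δ <;> simp [h1, h2]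

lemma Kol_w_nonneg (δ : ℝ) {t : ℝ} (ht : t ≤ 0) : 0 ≤ Kol_w δ t := by
  unfold Kol_w
  refine div_nonneg ?_ (sq_nonneg _)
  have h2 : t ∉ Ioc 0 δ := fun h => absurd h.1 (not_lt.2 ht)
  by_cases h1 : t ∈ Ioc (-δ) 0 <;> simp [h1, h2]

lemma Kol_w_nonpos (δ : ℝ) {t : ℝ} (ht : 0 < t) : Kol_w δ t ≤ 0 := by
  unfold Kol_w
  refine div_nonpos_of_nonpos_of_nonneg ?_ (sq_nonneg _)
  have h1 : t ∉ Ioc (-δ) 0 := fun h => absurd h.2 (not_le.2 ht)
  by_cases h2 : t ∈ Ioc 0 δ <;> simp [h1, h2]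

lemma Kol_ind {f : ℝ → ℝ} {p q : ℝ} (h1 : -π ≤ p) (h2 : p ≤ q) (h3 : q ≤ π) :
    ∫ t in (-π)..(-π + 2 * π), (Ioc p q).indicator f t = ∫ t in p..q, f t := by
  rw [intervalIntegral.integral_of_le (by linarith [pi_pos]), intervalIntegral.integral_of_le h2,
    setIntegral_indicator measurableSet_Ioc,
    inter_eq_right.2 (Ioc_subset_Ioc h1 (by linarith))]

lemma Kol_int {δ : ℝ} (hδ : 0 < δ) (hδ1 : δ ≤ 1) {f : ℝ → ℝ}
    (hf : ∀ p q, IntervalIntegrable f volume p q) :
    ∫ t in (-π)..(-π + 2 * π), f t * Kol_w δ t =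
      ((∫ t in (-δ)..0, f t) - ∫ t in (0 : ℝ)..δ, f t) / δ ^ 2 := by
  have hpi := pi_gt_three
  have hi : ∀ p q, IntervalIntegrable ((Ioc p q).indicator f) volume (-π) (-π + 2 * π) :=
    fun p q => ⟨(hf _ _).1.indicator measurableSet_Ioc, (hf _ _).2.indicator measurableSet_Ioc⟩
  have e : ∀ t, f t * Kol_w δ t =
      ((Ioc (-δ) 0).indicator f t - (Ioc 0 δ).indicator f t) / δ ^ 2 := by
    intro t
    unfold Kol_w
    by_cases h1 : t ∈ Ioc (-δ) 0 <;> by_cases h2 : t ∈ Ioc 0 δ <;>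
      simp only [h1, h2, indicator_of_mem, indicator_of_notMem, not_false_eq_true] <;> ring
  simp only [e]
  rw [intervalIntegral.integral_div, intervalIntegral.integral_sub (hi _ _) (hi _ _),
    Kol_ind (by linarith only [hδ1, hpi]) (by linarith) (by linarith),
    Kol_ind (by linarith) (by linarith) (by linarith)]

lemma Kol_w_zero {δ : ℝ} (hδ : 0 < δ) (hδ1 : δ ≤ 1) :
    ∫ t in (-π)..(-π + 2 * π), Kol_w δ t = 0 := by
  have h := Kol_int hδ hδ1 (f := fun _ => 1) (fun _ _ => intervalIntegrable_const)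
  simpa using h

lemma Kol_tent {δ : ℝ} (hδ : 0 < δ) (hδ1 : δ ≤ 1) {y : ℝ} (h1 : -π ≤ y) (h2 : y ≤ -π + 2 * π) :
    0 ≤ ∫ t in (-π)..y, Kol_w δ t := by
  have hi := bdd_intervalIntegrable (Kol_w_meas δ) (Kol_w_bd δ)
  rcases le_or_gt y 0 with hy | hy
  · exact intervalIntegral.integral_nonneg h1 fun t ht => Kol_w_nonneg δ (ht.2.trans hy)
  · have h3 := intervalIntegral.integral_add_adjacent_intervals (hi (-π) y) (hi y (-π + 2 * π))
    rw [Kol_w_zero hδ hδ1] at h3
    have h4 : 0 ≤ ∫ t in y..(-π + 2 * π), -Kol_w δ t :=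
      intervalIntegral.integral_nonneg h2 fun t ht =>
        neg_nonneg.2 (Kol_w_nonpos δ (hy.trans_le ht.1))
    rw [intervalIntegral.integral_neg] at h4
    linarith

lemma Kol_re_nonneg {F : ℂ → ℂ} (hF : DiffContOnCl ℂ F (ball 0 1))
    (h : ∀ z : ℂ, ‖z‖ = 1 → 0 ≤ (F z).re) {z : ℂ} (hz : ‖z‖ ≤ 1) : 0 ≤ (F z).re := by
  have hE : DiffContOnCl ℂ (fun z => Complex.exp (-F z)) (ball 0 1) :=
    Complex.differentiable_exp.comp_diffContOnCl hF.neg
  have h1 := norm_le_of_sphere hE (C := 1) (fun w hw => by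
    rw [Complex.norm_exp, Real.exp_le_one_iff, Complex.neg_re]
    linarith [h w hw]) hz
  rw [Complex.norm_exp, Real.exp_le_one_iff, Complex.neg_re] at h1
  linarith

lemma Kol_F {δ : ℝ} (hδ : 0 < δ) (hδ1 : δ ≤ 1) : ∃ F : ℂ → ℂ, DiffContOnCl ℂ F (ball 0 1) ∧
    (∀ z : ℂ, ‖z‖ ≤ 1 → 0 ≤ (F z).re) ∧ F 0 = ((1 / (2 * π) : ℝ) : ℂ) ∧
    ∀ y, (F (ex y)).im = 1 / π * Ed δ lg y := by
  have hD : DiffContOnCl ℂ (FF id (Kol_w δ) (-π)) (ball 0 1) :=
    diffContOnCl_FF good_id UI_id (Kol_w_meas δ) (Kol_w_bd δ)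
  refine ⟨FF id (Kol_w δ) (-π), hD, fun z hz => Kol_re_nonneg hD (fun w hw => ?_) hz, ?_,
    fun y => ?_⟩
  · obtain ⟨t, rfl⟩ := exists_ex_of_norm hw
    obtain ⟨n, h1, h2⟩ := exists_window (-π) t
    have h3 : ex t = ex (id (t + n * (2 * π))) := (ex_periodic.int_mul n t).symm
    rw [h3, FF_re, RR_boundary good_id (Kol_w_meas δ) (Kol_w_bd δ) (Kol_w_zero hδ hδ1) h1 h2.le]
    exact Kol_tent hδ hδ1 h1 h2.le
  · apply Complex.ext
    · have h := Kol_int hδ hδ1 (f := fun t => t) (fun _ _ => continuous_id.intervalIntegrable _ _)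
      rw [integral_id, integral_id] at h
      rw [FF_re, RR]
      simp only [id, zero_mul, sub_zero, Complex.arg_one, intervalIntegral.integral_zero, mul_zero,
        Complex.ofReal_re]
      rw [h]
      field_simp
      ring
    · rw [FF_im, JJ_zero, Complex.ofReal_im]
  · have hi : ∀ p q, IntervalIntegrable (fun t => lg (t - y)) volume p q := fun p q => by
      simpa using (intervalIntegrable_lg (p - y) (q - y)).comp_sub_right y
    have hj : IntervalIntegrable (fun t => lg (y + t)) volume 0 δ := by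
      simpa using (intervalIntegrable_lg (y + 0) (y + δ)).comp_add_left y
    have h := JJ_boundary id (Kol_w δ) (-π) y
    simp only [id] at h
    rw [FF_im, h, Kol_int hδ hδ1 hi, Ed]
    have e1 : ∀ t, lg (y - t) = lg (t - y) := fun t => by rw [← lg_neg, neg_sub]
    have e2 : ∫ t in (-δ)..0, lg (t - y) = ∫ t in (0 : ℝ)..δ, lg (y + t) := by
      have h5 := intervalIntegral.integral_comp_neg (a := 0) (b := δ) (fun t => lg (t - y))
      rw [neg_zero] at h5
      rw [← h5]
      refine intervalIntegral.integral_congr fun t _ => ?_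
      show lg (-t - y) = lg (y + t)
      rw [← lg_neg]
      congr 1
      ring
    simp only [e1]
    rw [intervalIntegral.integral_sub hj (hi _ _), e2]

lemma Kol_cont {F : ℂ → ℂ} (hF : DiffContOnCl ℂ F (ball 0 1)) {z : ℂ} (hz : ‖z‖ ≤ 1) :
    Continuous fun σ : ℝ => F (z * ex (-σ)) := by
  have hc := hF.continuousOn
  rw [closure_ball _ one_ne_zero] at hc
  refine hc.comp_continuous (by fun_prop) fun σ => ?_
  rw [mem_closedBall, dist_zero_right, norm_mul, norm_ex, mul_one]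
  exact hz

lemma Kol_bd {F : ℂ → ℂ} (hF : DiffContOnCl ℂ F (ball 0 1)) :
    ∃ M : ℝ, ∀ z : ℂ, ‖z‖ ≤ 1 → ‖F z‖ ≤ M := by
  have hc := hF.continuousOn
  rw [closure_ball _ one_ne_zero] at hc
  obtain ⟨M, hM⟩ := (isCompact_closedBall (0 : ℂ) 1).exists_bound_of_continuousOn hc
  exact ⟨M, fun z hz => hM z (by simpa using hz)⟩

lemma Kol_intg (ν : Measure ℝ) [IsFiniteMeasure ν] {F : ℂ → ℂ}
    (hF : DiffContOnCl ℂ F (ball 0 1)) {z : ℂ} (hz : ‖z‖ ≤ 1) :
    Integrable (fun σ : ℝ => F (z * ex (-σ))) ν := by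
  obtain ⟨M, hM⟩ := Kol_bd hF
  refine Integrable.mono' (integrable_const M) (Kol_cont hF hz).aestronglyMeasurable ?_
  filter_upwards with σ
  exact hM _ (by rw [norm_mul, norm_ex, mul_one]; exact hz)

lemma Kol_G (ν : Measure ℝ) [IsFiniteMeasure ν] {F : ℂ → ℂ} (hF : DiffContOnCl ℂ F (ball 0 1)) :
    DiffContOnCl ℂ (fun z => ∫ σ, F (z * ex (-σ)) ∂ν) (ball 0 1) := by
  obtain ⟨M, hM⟩ := Kol_bd hF
  have hc := hF.continuousOn
  rw [closure_ball _ one_ne_zero] at hc
  have hn : ∀ (z : ℂ) (σ : ℝ), ‖z * ex (-σ)‖ = ‖z‖ := fun z σ => by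
    rw [norm_mul, norm_ex, mul_one]
  refine ⟨fun z₀ hz₀ => ?_, ?_⟩
  · have hz₀' : ‖z₀‖ < 1 := by simpa using hz₀
    set ρ : ℝ := (1 + ‖z₀‖) / 2 with hρ
    have hρ1 : ρ < 1 := by rw [hρ]; linarith only [hz₀']
    have hmem : ball (0 : ℂ) ρ ∈ 𝓝 z₀ :=
      isOpen_ball.mem_nhds (by simp only [mem_ball, dist_zero_right, hρ]; linarith only [hρ, hρ1])
    refine (hasDerivAt_integral_of_dominated_loc_of_deriv_le (μ := ν) (s := ball 0 ρ)
      (F := fun z σ => F (z * ex (-σ)))
      (F' := fun z σ => deriv F (z * ex (-σ)) * ex (-σ))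
      (bound := fun _ => M / (1 - ρ)) hmem ?_ (Kol_intg ν hF hz₀'.le) ?_ ?_ (integrable_const _)
      ?_).2.differentiableAt.differentiableWithinAt
    · filter_upwards [hmem] with z hz
      have hz' : ‖z‖ < ρ := by simpa using hz
      exact (Kol_cont hF (by linarith)).aestronglyMeasurable
    · exact (((measurable_deriv F).comp (by fun_prop)).mul (by fun_prop)).aestronglyMeasurable
    · filter_upwards with σ z hz
      have hz' : ‖z‖ < ρ := by simpa using hz
      rw [norm_mul, norm_ex, mul_one]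
      have hsub : ∀ w : ℂ, dist w (z * ex (-σ)) ≤ 1 - ρ → ‖w‖ < 1 := by
        intro w hw
        have h1 := norm_le_norm_add_norm_sub' w (z * ex (-σ))
        rw [hn] at h1
        rw [dist_eq_norm] at hw
        linarith only [hz', hw, h1]
      refine Complex.norm_deriv_le_of_forall_mem_sphere_norm_le (by linarith only [hρ1])
        (hF.mono fun w hw => ?_) fun w hw => hM w (hsub w (le_of_eq hw)).le
      rw [mem_ball, dist_zero_right]
      exact hsub w (le_of_lt hw)
    · filter_upwards with σ z hz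
      have hz' : ‖z‖ < ρ := by simpa using hz
      have h1 : DifferentiableAt ℂ F (z * ex (-σ)) :=
        hF.differentiableAt isOpen_ball (by rw [mem_ball, dist_zero_right, hn]; linarith only [hρ1, hz'])
      have h2 : HasDerivAt (fun z : ℂ => z * ex (-σ)) (ex (-σ)) z := by
        simpa using (hasDerivAt_id z).mul_const (ex (-σ))
      exact h1.hasDerivAt.comp z h2
  · rw [closure_ball _ one_ne_zero]
    refine continuousOn_of_dominated (bound := fun _ => M) (fun z hz => ?_) (fun z hz => ?_)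
      (integrable_const _) ?_
    · exact (Kol_cont hF (by simpa using hz)).aestronglyMeasurable
    · filter_upwards with σ
      exact hM _ (by rw [hn]; simpa using hz)
    · filter_upwards with σ
      refine hc.comp (by fun_prop) fun z hz => ?_
      rw [mem_closedBall, dist_zero_right, hn]
      simpa using hz

lemma Kol_mean {H : ℂ → ℂ} (hH : DiffContOnCl ℂ H (ball 0 1)) (a : ℝ) :
    ∫ s in a..(a + 2 * π), (H (ex s)).re = 2 * π * (H 0).re := by
  have h1 : circleAverage H 0 1 = H 0 := DiffContOnCl.circleAverage (by rwa [abs_one])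
  have hc : Continuous fun s => H (ex s) := by
    simpa [Function.comp_def] using (Kol_cont hH (z := 1) (by simp)).comp continuous_neg
  have e : ∀ θ, circleMap 0 1 θ = ex θ := fun θ => by
    simp [circleMap, ex, mul_comm]
  rw [circleAverage_def] at h1
  simp only [e] at h1
  have hp : Function.Periodic (fun s => (H (ex s)).re) (2 * π) := fun s => by
    simp only [ex_periodic s]
  rw [hp.intervalIntegral_add_eq a 0, zero_add]
  have h2 := Complex.reCLM.intervalIntegral_comp_comm (hc.intervalIntegrable (μ := volume) 0 (2 * π))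
  simp only [Complex.reCLM_apply] at h2
  rw [h2, ← h1, Complex.smul_re, smul_eq_mul, ← mul_assoc, mul_inv_cancel₀ (by positivity), one_mul]

lemma Kol_abs {G : ℂ → ℂ} (hG : DiffContOnCl ℂ G (ball 0 1))
    (hre : ∀ z : ℂ, ‖z‖ ≤ 1 → 0 ≤ (G z).re) {m μ a b : ℝ} (h0 : G 0 = (m : ℂ)) (hμ : 0 < μ)
    (hab : a ≤ b) (hb : b ≤ a + 2 * π) :
    ∫ s in a..b, min 1 (((G (ex s)).im / μ) ^ 2) ≤ 4 * π * m / μ := by
  have hm : 0 ≤ m := by simpa [h0] using hre 0 (by simp)
  have hne : ∀ z ∈ closure (ball (0 : ℂ) 1), G z + μ ≠ 0 := by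
    intro z hz h
    rw [closure_ball _ one_ne_zero] at hz
    have h1 := hre z (by simpa using hz)
    have h2 := congrArg Complex.re h
    simp only [Complex.add_re, Complex.ofReal_re, Complex.zero_re] at h2
    linarith
  have hH : DiffContOnCl ℂ (fun z => G z / (G z + μ)) (ball 0 1) :=
    ⟨hG.differentiableOn.div (hG.differentiableOn.add_const _) fun z hz =>
        hne z (subset_closure hz),
      hG.continuousOn.div (hG.continuousOn.add continuousOn_const) hne⟩
  have hcG : Continuous fun s => G (ex s) := by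
    simpa [Function.comp_def] using (Kol_cont hG (z := 1) (by simp)).comp continuous_neg
  have hcH : Continuous fun s => G (ex s) / (G (ex s) + μ) := by
    simpa [Function.comp_def] using (Kol_cont hH (z := 1) (by simp)).comp continuous_neg
  have hc1 : Continuous fun s => min 1 (((G (ex s)).im / μ) ^ 2) :=
    continuous_const.min (((Complex.continuous_im.comp hcG).div_const μ).pow 2)
  have h1 := Kol_mean hH a
  calc ∫ s in a..b, min 1 (((G (ex s)).im / μ) ^ 2)
      ≤ ∫ s in a..(a + 2 * π), min 1 (((G (ex s)).im / μ) ^ 2) :=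
        intervalIntegral.integral_mono_interval le_rfl hab hb
          (Eventually.of_forall fun s => le_min zero_le_one (sq_nonneg _))
          (hc1.intervalIntegrable _ _)
    _ ≤ ∫ s in a..(a + 2 * π), 2 * (G (ex s) / (G (ex s) + μ)).re :=
        intervalIntegral.integral_mono_on (by linarith) (hc1.intervalIntegrable _ _)
          ((continuous_const.mul (Complex.continuous_re.comp hcH)).intervalIntegrable _ _)
          fun s _ => kol_pt hμ (hre _ (norm_ex s).le)
    _ = 4 * π * (m / (m + μ)) := by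
        rw [intervalIntegral.integral_const_mul, h1, h0, ← Complex.ofReal_add, ← Complex.ofReal_div,
          Complex.ofReal_re]
        ring
    _ ≤ 4 * π * m / μ := by
        rw [mul_div_assoc]
        exact mul_le_mul_of_nonneg_left (div_le_div_of_nonneg_left hm hμ (by linarith))
          (by positivity)

theorem kol (ν : Measure ℝ) [IsFiniteMeasure ν] {δ lam a b : ℝ} (hδ : 0 < δ) (hδ1 : δ ≤ 1)
    (hl : 0 < lam) (hab : a ≤ b) (hb : b ≤ a + 2 * π) :
    ∫ s in a..b, min 1 (((∫ σ, Ed δ lg (s - σ) ∂ν) / lam) ^ 2) ≤ 2 * π * ν.real univ / lam := by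
  obtain ⟨F, hF, hre, h0, him⟩ := Kol_F hδ hδ1
  have hn : ∀ (z : ℂ) (σ : ℝ), ‖z * ex (-σ)‖ = ‖z‖ := fun z σ => by
    rw [norm_mul, norm_ex, mul_one]
  have h1 := Kol_abs (Kol_G ν hF) (m := ν.real univ * (1 / (2 * π))) (μ := lam / π) (a := a) (b := b)
    (fun z hz => by
      have h2 := Complex.reCLM.integral_comp_comm (Kol_intg ν hF hz)
      simp only [Complex.reCLM_apply] at h2
      rw [← h2]
      exact integral_nonneg fun σ => hre _ (by rw [hn]; exact hz))
    (by
      simp only [zero_mul, h0, integral_const, Complex.real_smul]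
      rw [← Complex.ofReal_mul])
    (by positivity) hab hb
  have e : ∀ s, (∫ σ, F (ex s * ex (-σ)) ∂ν).im / (lam / π) = (∫ σ, Ed δ lg (s - σ) ∂ν) / lam := by
    intro s
    have h2 := Complex.imCLM.integral_comp_comm (Kol_intg ν hF (norm_ex s).le)
    simp only [Complex.imCLM_apply] at h2
    rw [← h2]
    simp only [← ex_add, him, ← sub_eq_add_neg]
    rw [integral_const_mul]
    field_simp
  simp only [e] at h1
  refine h1.trans (le_of_eq ?_)
  field_simp
  ring

end Pool.Agent.Work.MP_af796d_an.H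
end

-- merged part: Pool.Agent.Work.MP_af796d_an.H.Loc1
section
/-!
# Local estimates at scale r
PLAN.  For s in [r/2, r] and 0 < δ ≤ r/8 the window [s - δ, s + δ] lies in [3r/8, 9r/8], where ch x ≥ x/2 ≥ 3r/16.
* loc0.  Split the line into sIn r, sNear r and the rest (all measurable; σ ↦ Ed δ lg (s - σ) is continuous and bounded by Ed_lg_le).
  σ in sIn: Ed δ lg (s - σ) - Ed δ lg s = Ed δ (x ↦ lg (x - σ) - lg x) s (Ed_shift, Ed_sub); on the window ch (x - σ) ≥ ch x - ch σ ≥ r/8, so the derivative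
  lg1 (x - σ) - lg1 x is at most ch σ/((r/8)(3r/16)) ≤ 43 ch σ / r^2 ≤ 172 om r (ch σ)/r (abs_lg1_sub, min_le_om); mean value inequality and Ed_lip.
  σ outside with ch σ > 9r/4: ch (x - σ) ≥ ch σ - 9r/8 ≥ ch σ/2, lg_lip and Ed_lip give 2/ch σ ≤ 8 om r (ch σ)/r.  On sNear: min (x/r) (r/x) ≥ 1/16, so 1 ≤ 64 om.
* loc_split: Ed δ (log S) s = Ed δ α s + ∫ Ed δ lg (s - σ) dν1 - ∫ Ed δ lg (s - σ) dν2 (Ed_congr with NS.eq, Ed_add, Ed_sub, Ed_logPot,
  Dom.intervalIntegrable, intervalIntegrable_logPot).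
* loc1: δ = r/8; near parts ≤ mass * K * 8/r; |Ed α| ≤ 8 (p (9r/8) - p (3r/8))/r by Ed_dom on [3r/8, 9r/8].
* loc2: for δ_m = r/(8 (m+1)) let F_m s = min 1 ((r (Ed δ_m L s - c Ed δ_m lg s))^2), L = log S.  Write r (...) = a + b + c1 - c2 with |a| ≤ 172 nn (loc0 twice),
  b = r Ed δ α, c_i = r ∫_{sNear} Ed δ lg (s - σ) dν_i.  min_one_add_sq twice, min 1 (x^2) ≤ |x|, Ed_dom and Ed_int for b, kol with ν_i.restrict (sNear r) and lam = 1/r.
  F_m is continuous on [r/2, r] (Ed_continuousOn), bounded by 1, and tends a.e. to the integrand of the statement: L is monotone on (0, ∞), so a.e. differentiable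
  (apply Monotone.ae_differentiableAt to t ↦ log (S (max t (r/4)))), Ed_tendsto, hasDerivAt_lg.  Dominated convergence
  (intervalIntegral.tendsto_integral_filter_of_dominated_convergence) and le_of_tendsto.
-/

set_option autoImplicit false

namespace Pool.Agent.Work.MP_af796d_an.H

open MeasureTheory Set Real Metric Filter Topology

lemma Loc1_in {r δ s σ : ℝ} (hr : 0 < r) (hr1 : r ≤ 1) (hδ : 0 < δ) (hδ1 : δ ≤ r / 8)
    (hs : s ∈ Icc (r / 2) r) (hσ : ch σ < r / 16) :
    |Ed δ lg (s - σ) - Ed δ lg s| ≤ 172 * om r (ch σ) / r := by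
  have h0 := ch_nonneg σ
  have i1 : IntervalIntegrable (fun t => lg (t - σ)) volume (s - δ) (s + δ) := by
    simpa using (intervalIntegrable_lg (s - δ - σ) (s + δ - σ)).comp_sub_right σ
  rw [← Ed_shift, ← Ed_sub hδ i1 (intervalIntegrable_lg _ _)]
  have key : ∀ x ∈ Icc (s - δ) (s + δ), 3 * r / 16 ≤ ch x ∧ r / 8 ≤ ch (x - σ) := fun x hx => by
    have h1 : 3 * r / 8 ≤ x := by linarith only [hδ1, hx, hs, hx.1, hs.1]
    have h2 := le_ch' (t := x) (by rw [abs_of_nonneg (by linarith only [hδ, hδ1, h1])]; linarith only [hr1, hδ, hδ1, hx, hs, hx.2, hs.2, two_le_pi])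
    have h3 := ch_add_le (x - σ) σ
    rw [abs_of_nonneg (by linarith only [hδ, hδ1, h1])] at h2
    rw [sub_add_cancel] at h3
    constructor <;> linarith only [h1, h2, hσ, h3]
  refine Ed_lip hδ fun x hx x' hx' => ?_
  refine (convex_Icc (s - δ) (s + δ)).norm_image_sub_le_of_norm_hasDerivWithin_le
    (f := fun t => lg (t - σ) - lg t) (f' := fun t => lg1 (t - σ) - lg1 t) (fun t ht => ?_)
    (fun t ht => ?_) hx' hx
  · have k := key t ht
    exact (((hasDerivAt_lg (by linarith only [hδ, hδ1, k, k.2] : 0 < ch (t - σ)).ne').comp_sub_const t σ).sub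
      (hasDerivAt_lg (by linarith only [hδ, hδ1, k, k.1] : 0 < ch t).ne')).hasDerivWithinAt
  · have k := key t ht
    have k1 : 0 < ch t := by linarith only [hδ, hδ1, k, k.1]
    have k2 : 0 < ch (t - σ) := by linarith only [hδ, hδ1, k, k.2]
    have k3 : r / 8 * (3 * r / 16) ≤ ch (t - σ) * ch t := mul_le_mul k.2 k.1 (by positivity) k2.le
    rw [Real.norm_eq_abs, abs_lg1_sub k1.ne' k2.ne']
    refine (div_le_div_of_nonneg_left h0 (by positivity) k3).trans ?_
    have e : 172 * om r (ch σ) / r = ch σ / ((r + ch σ) ^ 2 / 172) := by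
      rw [om]
      field_simp
    rw [e]
    exact div_le_div_of_nonneg_left h0 (by positivity) (by (refine le_of_not_gt fun h_nl => ?_; linarith only [h_nl, hr, hδ1, hr1, hδ, hσ, h0, mul_nonneg_of_nonpos_of_nonpos (le_of_lt (Mathlib.Tactic.Linarith.sub_neg_of_lt hr)) (Mathlib.Tactic.Linarith.sub_nonpos_of_le hδ1), mul_nonneg_of_nonpos_of_nonpos (Mathlib.Tactic.Linarith.sub_nonpos_of_le hr1) (le_of_lt (Mathlib.Tactic.Linarith.sub_neg_of_lt h_nl)), mul_pos_of_neg_of_neg (Mathlib.Tactic.Linarith.sub_neg_of_lt hδ) (Mathlib.Tactic.Linarith.sub_neg_of_lt hδ), mul_nonneg_of_nonpos_of_nonpos (le_of_lt (Mathlib.Tactic.Linarith.sub_neg_of_lt hδ)) (Mathlib.Tactic.Linarith.sub_nonpos_of_le hδ1), mul_pos_of_neg_of_neg (Mathlib.Tactic.Linarith.sub_neg_of_lt hδ) (Mathlib.Tactic.Linarith.sub_neg_of_lt hσ), mul_pos_of_neg_of_neg (Mathlib.Tactic.Linarith.sub_neg_of_lt hδ) (Mathlib.Tactic.Linarith.sub_neg_of_lt h_nl), mul_nonneg_of_nonpos_of_nonpos (Mathlib.Tactic.Linarith.sub_nonpos_of_le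 hδ1) (le_of_lt (Mathlib.Tactic.Linarith.sub_neg_of_lt hσ)), mul_nonneg_of_nonpos_of_nonpos (Mathlib.Tactic.Linarith.sub_nonpos_of_le hδ1) (le_of_lt (Mathlib.Tactic.Linarith.sub_neg_of_lt h_nl)), mul_nonneg_of_nonpos_of_nonpos (le_of_lt (Mathlib.Tactic.Linarith.sub_neg_of_lt hσ)) (Mathlib.Tactic.Linarith.sub_nonpos_of_le h0)]))

lemma Loc1_out {r δ s σ : ℝ} (hr : 0 < r) (hδ : 0 < δ) (hδ1 : δ ≤ r / 8)
    (hs : s ∈ Icc (r / 2) r) (hσ : 9 * r / 4 < ch σ) :
    |Ed δ lg (s - σ)| ≤ 172 * om r (ch σ) / r := by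
  have h0 : 0 < ch σ := by linarith only [hδ, hδ1, hσ]
  refine (Ed_lip (L := 1 / (ch σ / 2)) hδ fun x hx x' hx' => ?_).trans ?_
  · rw [one_div, ← div_eq_inv_mul]
    refine lg_lip (half_pos h0) fun t ht => ?_
    have h1 := uIcc_subset_Icc hx' hx ht
    have h2 := ch_add_le (t + σ) (-t)
    have h3 := ch_le_abs (t + σ)
    rw [ch_neg, add_neg_cancel_comm] at h2
    rw [abs_of_nonneg (by linarith only [hδ, hδ1, h1, hs, h1.1, hs.1])] at h3
    linarith only [hδ1, hσ, h2, h3, h1, hs, h1.2, hs.2]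
  · have e : 172 * om r (ch σ) / r = 172 * ch σ / (r + ch σ) ^ 2 := by
      rw [om]
      field_simp
    rw [e, div_le_div_iff₀ (half_pos h0) (by positivity)]
    linarith only [hr, hδ1, hδ, hσ, mul_nonneg_of_nonpos_of_nonpos (le_of_lt (Mathlib.Tactic.Linarith.sub_neg_of_lt hr)) (Mathlib.Tactic.Linarith.sub_nonpos_of_le hδ1), mul_pos_of_neg_of_neg (Mathlib.Tactic.Linarith.sub_neg_of_lt hδ) (Mathlib.Tactic.Linarith.sub_neg_of_lt hδ), mul_nonneg_of_nonpos_of_nonpos (le_of_lt (Mathlib.Tactic.Linarith.sub_neg_of_lt hδ)) (Mathlib.Tactic.Linarith.sub_nonpos_of_le hδ1), mul_pos_of_neg_of_neg (Mathlib.Tactic.Linarith.sub_neg_of_lt hδ) (Mathlib.Tactic.Linarith.sub_neg_of_lt hσ), mul_nonneg_of_nonpos_of_nonpos (Mathlib.Tactic.Linarith.sub_nonpos_of_le hδ1) (le_of_lt (Mathlib.Tactic.Linarith.sub_neg_of_lt hσ)), mul_pos_of_neg_of_neg (Mathlib.Tactic.Linarith.sub_neg_of_lt hσ) (Mathlib.Tactic.Linarith.sub_neg_of_lt hσ)]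

lemma Loc1_om (ν : Measure ℝ) [IsFiniteMeasure ν] {r : ℝ} (hr : 0 < r) :
    Integrable (fun σ => om r (ch σ)) ν ∧ 0 ≤ ∫ σ, om r (ch σ) ∂ν := by
  have m := continuous_ch.measurable
  refine ⟨Integrable.of_bound (Measurable.aestronglyMeasurable (by unfold om; fun_prop)) (1 / 4)
    (Eventually.of_forall fun σ => ?_), integral_nonneg fun σ => om_nonneg hr.le (ch_nonneg σ)⟩
  rw [Real.norm_of_nonneg (om_nonneg hr.le (ch_nonneg σ))]
  exact om_le hr.le (ch_nonneg σ)

lemma loc0 (ν : Measure ℝ) [IsFiniteMeasure ν] {r δ s : ℝ} (hr : 0 < r) (hr1 : r ≤ 1) (hδ : 0 < δ)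
    (hδ1 : δ ≤ r / 8) (hs : s ∈ Icc (r / 2) r) :
    |(∫ σ, Ed δ lg (s - σ) ∂ν) - ν.real (sIn r) * Ed δ lg s -
        ∫ σ in sNear r, Ed δ lg (s - σ) ∂ν| ≤ 172 * (∫ σ, om r (ch σ) ∂ν) / r ∧
      ν.real (sNear r) ≤ 64 * ∫ σ, om r (ch σ) ∂ν := by
  obtain ⟨K, -, hK⟩ := Ed_lg_le
  have m := continuous_ch.measurable
  have m1 : MeasurableSet (sIn r) := measurableSet_lt m measurable_const
  have m2 : MeasurableSet (sNear r) :=
    (measurableSet_le measurable_const m).inter (measurableSet_le m measurable_const)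
  have i0 := (Loc1_om ν hr).1
  have i1 : Integrable (fun σ => Ed δ lg (s - σ)) ν :=
    Integrable.of_bound ((continuous_Ed_lg hδ).comp (continuous_sub_left s)).aestronglyMeasurable
      (K / δ) (Eventually.of_forall fun σ => hK δ hδ (by linarith only [hr1, hδ, hδ1]) _)
  have i2 := (integrable_const (μ := ν) (Ed δ lg s)).indicator m1
  have i3 : Integrable (fun σ => Ed δ lg (s - σ) - (sIn r).indicator (fun _ => Ed δ lg s) σ) ν :=
    i1.sub i2
  constructor
  · rw [← smul_eq_mul, ← integral_indicator_const _ m1, ← integral_indicator m2,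
      ← integral_sub i1 i2, ← integral_sub i3 (i1.indicator m2), ← integral_const_mul,
      ← integral_div, ← Real.norm_eq_abs]
    refine norm_integral_le_of_norm_le ((i0.const_mul 172).div_const r)
      (Eventually.of_forall fun σ => ?_)
    rw [Real.norm_eq_abs]
    by_cases k1 : σ ∈ sIn r
    · rw [indicator_of_mem k1, indicator_of_notMem fun k => absurd k1 (not_lt.2 k.1), sub_zero]
      exact Loc1_in hr hr1 hδ hδ1 hs k1
    · by_cases k2 : σ ∈ sNear r
      · rw [indicator_of_notMem k1, indicator_of_mem k2, sub_zero, sub_self, abs_zero]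
        have := om_nonneg hr.le (ch_nonneg σ)
        positivity
      · rw [indicator_of_notMem k1, indicator_of_notMem k2, sub_zero, sub_zero]
        exact Loc1_out hr hδ hδ1 hs (lt_of_not_ge fun k => k2 ⟨not_lt.1 k1, k⟩)
  · rw [← integral_indicator_one m2, ← integral_const_mul]
    refine integral_mono ((integrable_const 1).indicator m2) (i0.const_mul 64) fun σ => ?_
    have h0 := ch_nonneg σ
    by_cases k2 : σ ∈ sNear r
    · rw [indicator_of_mem k2, Pi.one_apply, om, ← mul_div_assoc, le_div_iff₀ (by positivity)]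
      (refine le_of_not_gt fun h_nl => ?_; linarith only [h_nl, hr, hδ1, k2, hr1, hδ, h0, k2.1, k2.2, mul_nonneg_of_nonpos_of_nonpos (le_of_lt (Mathlib.Tactic.Linarith.sub_neg_of_lt hr)) (Mathlib.Tactic.Linarith.sub_nonpos_of_le hδ1), mul_nonneg_of_nonpos_of_nonpos (le_of_lt (Mathlib.Tactic.Linarith.sub_neg_of_lt hr)) (Mathlib.Tactic.Linarith.sub_nonpos_of_le k2.left), mul_nonneg_of_nonpos_of_nonpos (Mathlib.Tactic.Linarith.sub_nonpos_of_le hr1) (le_of_lt (Mathlib.Tactic.Linarith.sub_neg_of_lt h_nl)), mul_pos_of_neg_of_neg (Mathlib.Tactic.Linarith.sub_neg_of_lt hδ) (Mathlib.Tactic.Linarith.sub_neg_of_lt hδ), mul_nonneg_of_nonpos_of_nonpos (le_of_lt (Mathlib.Tactic.Linarith.sub_neg_of_lt hδ)) (Mathlib.Tactic.Linarith.sub_nonpos_of_le hδ1), mul_pos_of_neg_of_neg (Mathlib.Tactic.Linarith.sub_neg_of_lt hδ) (Mathlib.Tactic.Linarith.sub_neg_of_lt h_nl), mul_nonneg_of_nonpos_of_nonpos (Mathlib.Tactic.Linarith.sub_nonpos_of_le hδ1) (le_of_lt (Mathlib.Tactic.Linarith.sub_neg_of_lt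 h_nl)), mul_nonneg_of_nonpos_of_nonpos (Mathlib.Tactic.Linarith.sub_nonpos_of_le h0) (Mathlib.Tactic.Linarith.sub_nonpos_of_le k2.right)])
    · rw [indicator_of_notMem k2]
      have := om_nonneg hr.le h0
      positivity

lemma loc_split {S α p : ℝ → ℝ} {ν₁ ν₂ : Measure ℝ} {C : ℝ} (h : NS S α p ν₁ ν₂ C) {δ s : ℝ}
    (hδ : 0 < δ) (hδ1 : δ ≤ 1) (h1 : 0 ≤ s - δ) (h2 : s + δ ≤ 2) :
    Ed δ (fun t => Real.log (S t)) s =
      Ed δ α s + (∫ σ, Ed δ lg (s - σ) ∂ν₁) - ∫ σ, Ed δ lg (s - σ) ∂ν₂ := by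
  have := h.fin₁
  have := h.fin₂
  have i1 := (h.dom.mono h1 h2).intervalIntegrable (by linarith)
  rw [Ed_congr hδ (h.eq.mono fun t k ht => k ⟨h1.trans ht.1, ht.2.trans h2⟩),
    Ed_sub hδ (i1.add (intervalIntegrable_logPot _ _ _)) (intervalIntegrable_logPot _ _ _),
    Ed_add hδ i1 (intervalIntegrable_logPot _ _ _), Ed_logPot _ hδ hδ1, Ed_logPot _ hδ hδ1]

lemma Loc1_dec {S α p : ℝ → ℝ} {ν₁ ν₂ : Measure ℝ} {C : ℝ} (h : NS S α p ν₁ ν₂ C) {r δ s : ℝ}
    (hr : 0 < r) (hr1 : r ≤ 1) (hδ : 0 < δ) (hδ1 : δ ≤ r / 8) (hs : s ∈ Icc (r / 2) r) :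
    ∃ a, |a| ≤ 172 * ((∫ σ, om r (ch σ) ∂ν₁) + ∫ σ, om r (ch σ) ∂ν₂) / r ∧
      Ed δ (fun t => Real.log (S t)) s - cin ν₁ ν₂ r * Ed δ lg s = a + Ed δ α s +
        ((∫ σ in sNear r, Ed δ lg (s - σ) ∂ν₁) - ∫ σ in sNear r, Ed δ lg (s - σ) ∂ν₂) := by
  have := h.fin₁
  have := h.fin₂
  have h1 := (loc0 ν₁ hr hr1 hδ hδ1 hs).1
  have h2 := (loc0 ν₂ hr hr1 hδ hδ1 hs).1
  refine ⟨_, (abs_sub _ _).trans ((add_le_add h1 h2).trans_eq (by ring)), ?_⟩
  rw [loc_split h hδ (by linarith only [hr1, hδ, hδ1]) (by linarith only [hδ, hδ1, hs, hs.1]) (by linarith only [hr1, hδ, hδ1, hs, hs.2]), cin]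
  ring

theorem loc1 : ∃ K : ℝ, 0 ≤ K ∧ ∀ (S α p : ℝ → ℝ) (ν₁ ν₂ : Measure ℝ) (C : ℝ), NS S α p ν₁ ν₂ C →
    ∀ r, 0 < r → r ≤ 1 → ∀ s ∈ Icc (r / 2) r,
      |Ed (r / 8) (fun t => Real.log (S t)) s - cin ν₁ ν₂ r * Ed (r / 8) lg s| ≤
        K * nn ν₁ ν₂ p r / r := by
  obtain ⟨K, hK0, hK⟩ := Ed_lg_le
  refine ⟨180 + 512 * K, by positivity, fun S α p ν₁ ν₂ C h r hr hr1 s hs => ?_⟩
  have := h.fin₁
  have := h.fin₂
  have hδ : 0 < r / 8 := by positivity
  obtain ⟨a, h1, h2⟩ := Loc1_dec h hr hr1 hδ le_rfl hs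
  have h3 := Ed_dom (h.dom.mono (c := 3 * r / 8) (d := 9 * r / 8) (by linarith only [hr]) (by linarith only [hr1])) hδ
    (by linarith only [hs, hs.1]) (by linarith only [hs, hs.2] : s + r / 8 ≤ _)
  have h4 : ∀ (ν : Measure ℝ) [IsFiniteMeasure ν], |∫ σ in sNear r, Ed (r / 8) lg (s - σ) ∂ν| ≤
      512 * K * (∫ σ, om r (ch σ) ∂ν) / r := fun ν _ => by
    have k : r / 8 ≤ 1 := by linarith only [hr1]
    refine (norm_setIntegral_le_of_norm_le_const (f := fun σ => Ed (r / 8) lg (s - σ))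
      (C := K / (r / 8)) (measure_lt_top _ _) fun σ _ => hK _ hδ k _).trans
      ((mul_le_mul_of_nonneg_left (loc0 ν hr hr1 hδ le_rfl hs).2 (by positivity)).trans_eq ?_)
    ring
  have h5 := h.dom.le (x := 3 * r / 8) (y := 9 * r / 8) (by linarith only [hr]) (by linarith only [hr]) (by linarith only [hr1])
  have i1 := (Loc1_om ν₁ hr).2
  have i2 := (Loc1_om ν₂ hr).2
  rw [h2]
  refine ((abs_add_le _ _).trans (add_le_add ((abs_add_le _ _).trans (add_le_add h1
    (h3.1.trans h3.2))) ((abs_sub _ _).trans (add_le_add (h4 ν₁) (h4 ν₂))))).trans ?_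
  rw [div_div_eq_mul_div, ← add_div, ← add_div, ← add_div, nn]
  refine div_le_div_of_nonneg_right ?_ hr.le
  linarith only [h5, i1, i2, hK0, mul_nonneg hK0 (sub_nonneg.2 h5)]

lemma Loc1_min (x : ℝ) : min 1 (x ^ 2) ≤ |x| := by
  rcases le_total |x| 1 with h | h
  · refine (min_le_right _ _).trans ?_
    rw [← sq_abs]
    linarith only [h, abs_nonneg x, mul_nonneg_of_nonpos_of_nonpos (Mathlib.Tactic.Linarith.sub_nonpos_of_le h) (Mathlib.Tactic.Linarith.sub_nonpos_of_le (abs_nonneg x))]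
  · exact (min_le_left _ _).trans h

lemma Loc1_log {S α p : ℝ → ℝ} {ν₁ ν₂ : Measure ℝ} {C : ℝ} (h : NS S α p ν₁ ν₂ C) {a b : ℝ}
    (ha : 0 < a) (hab : a ≤ b) : IntervalIntegrable (fun t => Real.log (S t)) volume a b :=
  (h.cont.continuousOn.log fun _ ht =>
    (h.zero ▸ h.mono (ha.trans_le ht.1)).ne').intervalIntegrable_of_Icc hab

lemma Loc1_fin {S α p : ℝ → ℝ} {ν₁ ν₂ : Measure ℝ} {C : ℝ} (h : NS S α p ν₁ ν₂ C) {r δ : ℝ}
    (hr : 0 < r) (hr1 : r ≤ 1) (hδ : 0 < δ) (hδ1 : δ ≤ r / 8) :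
    ContinuousOn (fun s => min 1
      ((r * (Ed δ (fun t => Real.log (S t)) s - cin ν₁ ν₂ r * Ed δ lg s)) ^ 2)) (Icc (r / 2) r) ∧
    ∫ s in (r / 2)..r, min 1
      ((r * (Ed δ (fun t => Real.log (S t)) s - cin ν₁ ν₂ r * Ed δ lg s)) ^ 2) ≤
        r * (2222 * nn ν₁ ν₂ p r) := by
  have := h.fin₁
  have := h.fin₂
  have hab : r / 2 ≤ r := half_le_self hr.le
  have c0 : ContinuousOn (fun s => min 1
      ((r * (Ed δ (fun t => Real.log (S t)) s - cin ν₁ ν₂ r * Ed δ lg s)) ^ 2)) (Icc (r / 2) r) :=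
    continuousOn_const.inf ((continuousOn_const.mul ((Ed_continuousOn hδ hab
      (Loc1_log h (by linarith only [hδ, hδ1]) (by linarith only [hδ, hδ1]))).sub
        (continuousOn_const.mul (continuous_Ed_lg hδ).continuousOn))).pow 2)
  have hd := h.dom.mono (c := r / 2 - δ) (d := r + δ) (by linarith only [hδ, hδ1]) (by linarith only [hr1, hδ, hδ1])
  have c1 : IntervalIntegrable (Ed δ p) volume (r / 2) r :=
    (Ed_continuousOn hδ hab ((Dom.of_monotoneOn hd.monotoneOn).intervalIntegrable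
      (by linarith only [hδ, hδ1]))).intervalIntegrable_of_Icc hab
  have c2 : ∀ (ν : Measure ℝ) [IsFiniteMeasure ν], IntervalIntegrable
      (fun s => min 1 (((∫ σ in sNear r, Ed δ lg (s - σ) ∂ν) / (1 / r)) ^ 2)) volume (r / 2) r ∧
      ∫ s in (r / 2)..r, min 1 (((∫ σ in sNear r, Ed δ lg (s - σ) ∂ν) / (1 / r)) ^ 2) ≤
        r * (512 * ∫ σ, om r (ch σ) ∂ν) := fun ν _ => by
    constructor
    · simp only [← Ed_logPot _ hδ (by linarith only [hr1, hδ, hδ1] : δ ≤ 1)]
      exact (continuousOn_const.inf (((Ed_continuousOn hδ hab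
        (intervalIntegrable_logPot _ _ _)).div_const _).pow 2)).intervalIntegrable_of_Icc hab
    · refine (kol (ν.restrict (sNear r)) hδ (by linarith only [hr1, hδ, hδ1]) (one_div_pos.2 hr) hab
        (by linarith only [hr1, hδ, hδ1, two_le_pi])).trans ?_
      have k := (loc0 ν hr hr1 hδ hδ1 (right_mem_Icc.2 hab)).2
      rw [measureReal_restrict_apply_univ, div_div_eq_mul_div, div_one, mul_comm r]
      refine mul_le_mul_of_nonneg_right ?_ hr.le
      nlinarith only [k, hr1, hδ, hδ1, pi_le_four, measureReal_nonneg (μ := ν) (s := sNear r)]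
  have i1 := (Loc1_om ν₁ hr).2
  have i2 := (Loc1_om ν₂ hr).2
  have j1 := (intervalIntegrable_const (μ := volume) (a := r / 2) (b := r)
    (c := 344 * ((∫ σ, om r (ch σ) ∂ν₁) + ∫ σ, om r (ch σ) ∂ν₂))).add (c1.const_mul (2 * r))
  have j2 := ((c2 ν₁).1.const_mul 4).add ((c2 ν₂).1.const_mul 4)
  refine ⟨c0, (intervalIntegral.integral_mono_on hab (c0.intervalIntegrable_of_Icc hab) (j1.add j2)
    fun s hs => ?_).trans ?_⟩
  · obtain ⟨a, h1, h2⟩ := Loc1_dec h hr hr1 hδ hδ1 hs
    have h3 := (Ed_dom hd hδ (by linarith only [hs, hs.1]) (by linarith only [hs, hs.2] : s + δ ≤ r + δ)).1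
    rw [h2, div_div_eq_mul_div, div_div_eq_mul_div, div_one, div_one, mul_add, mul_sub,
      sub_eq_add_neg, mul_comm (∫ σ in sNear r, Ed δ lg (s - σ) ∂ν₁) r,
      mul_comm (∫ σ in sNear r, Ed δ lg (s - σ) ∂ν₂) r]
    have h4 := min_one_add_sq (r * ∫ σ in sNear r, Ed δ lg (s - σ) ∂ν₁)
      (-(r * ∫ σ in sNear r, Ed δ lg (s - σ) ∂ν₂))
    have h5 := Loc1_min (r * (a + Ed δ α s))
    have h6 := mul_le_mul_of_nonneg_left ((abs_add_le _ _).trans (add_le_add h1 h3)) hr.le
    rw [neg_sq] at h4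
    rw [abs_mul, abs_of_pos hr] at h5
    rw [mul_add, mul_div_cancel₀ _ hr.ne'] at h6
    refine (min_one_add_sq _ _).trans ?_
    linarith only [h4, h5, h6]
  · rw [intervalIntegral.integral_add j1 j2,
      intervalIntegral.integral_add intervalIntegrable_const (c1.const_mul _),
      intervalIntegral.integral_add ((c2 ν₁).1.const_mul 4) ((c2 ν₂).1.const_mul 4),
      intervalIntegral.integral_const_mul, intervalIntegral.integral_const_mul,
      intervalIntegral.integral_const_mul, intervalIntegral.integral_const_mul,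
      intervalIntegral.integral_const, smul_eq_mul, nn]
    have h1 := Ed_int hδ hab hd.monotoneOn
    have h2 := h.dom.le (x := r + δ) (y := 9 * r / 8) (by linarith only [hδ, hδ1]) (by linarith only [hδ1]) (by linarith only [hr1, hδ, hδ1])
    have h3 := h.dom.le (x := 3 * r / 8) (y := r / 2 - δ) (by linarith only [hδ, hδ1]) (by linarith only [hδ1]) (by linarith only [hr1, hδ, hδ1])
    have h4 := h.dom.le (x := 3 * r / 8) (y := 9 * r / 8) (by linarith only [hδ, hδ1]) (by linarith only [hδ, hδ1]) (by linarith only [hr1, hδ, hδ1])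
    have h5 : ∫ s in (r / 2)..r, Ed δ p s ≤ p (9 * r / 8) - p (3 * r / 8) := by linarith only [h1, h2, h3]
    nlinarith [(c2 ν₁).2, (c2 ν₂).2, mul_le_mul_of_nonneg_left h5 hr.le, mul_nonneg hr.le i1,
      mul_nonneg hr.le i2, mul_nonneg hr.le (sub_nonneg.2 h4)]

theorem loc2 : ∃ K : ℝ, 0 ≤ K ∧ ∀ (S α p : ℝ → ℝ) (ν₁ ν₂ : Measure ℝ) (C : ℝ), NS S α p ν₁ ν₂ C →
    ∀ r, 0 < r → r ≤ 1 → ∫ s in (r / 2)..r,
      min 1 ((r * (deriv (fun t => Real.log (S t)) s - cin ν₁ ν₂ r * lg1 s)) ^ 2) ≤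
        r * (K * nn ν₁ ν₂ p r) := by
  refine ⟨2222, by positivity, fun S α p ν₁ ν₂ C h r hr hr1 => ?_⟩
  have hab : r / 2 ≤ r := half_le_self hr.le
  have ev : ∀ᶠ δ in 𝓝[>] (0 : ℝ), δ ∈ Ioc 0 (r / 8) := Ioc_mem_nhdsGT (by positivity)
  have mo : Monotone fun t => Real.log (S (max t (r / 4))) := fun x y k =>
    Real.log_le_log (h.zero ▸ h.mono (lt_max_of_lt_right (by positivity)))
      (h.mono.monotone (max_le_max_right _ k))
  refine le_of_tendsto (intervalIntegral.tendsto_integral_filter_of_dominated_convergence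
    (fun _ => 1) (ev.mono fun δ k => ?_) (Eventually.of_forall fun δ => Eventually.of_forall
      fun s _ => ?_) intervalIntegrable_const ?_) (ev.mono fun δ k => (Loc1_fin h hr hr1 k.1 k.2).2)
  · rw [uIoc_of_le hab]
    exact ((Loc1_fin h hr hr1 k.1 k.2).1.mono Ioc_subset_Icc_self).aestronglyMeasurable
      measurableSet_Ioc
  · rw [Real.norm_of_nonneg (le_min zero_le_one (sq_nonneg _))]
    exact min_le_left _ _
  · filter_upwards [mo.ae_differentiableAt] with s k hs
    rw [uIoc_of_le hab] at hs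
    have e : (fun t => Real.log (S t)) =ᶠ[𝓝 s] fun t => Real.log (S (max t (r / 4))) := by
      filter_upwards [Ioi_mem_nhds (by linarith only [hr, hs, hs.1] : r / 4 < s)] with t ht
      rw [max_eq_left (le_of_lt ht)]
    have t1 := Ed_tendsto (k.congr_of_eventuallyEq e).hasDerivAt (by positivity : 0 < r / 8)
      (Loc1_log h (by linarith only [hr, hs, hs.1]) (by linarith only [hr]))
    have t2 := Ed_tendsto (hasDerivAt_lg (ch_pos (t := s) (by linarith only [hr, hs, hs.1])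
      (by linarith only [hr1, hs, hs.2, two_le_pi])).ne') one_pos (intervalIntegrable_lg _ _)
    exact tendsto_const_nhds.min (((t1.sub (t2.const_mul _)).const_mul r).pow 2)

end Pool.Agent.Work.MP_af796d_an.H
end

-- merged part: Pool.Agent.Work.MP_af796d_an.H.Loc2
section
/-!
# From EL to the local estimates
PLAN.
* locN_of_NS: K1 = max of the constants of loc1, loc2, plus 1; N r = K1 * nn r; total constant 7 K1 C.  0 ≤ nn r ≤ 2 C (om_le, Dom.le; C ≥ 0), |cin| ≤ C.
  sum_k ∫ om (rr k) (ch σ) dν ≤ 2 C each (integral_finset_sum, om_sum); p (9 r/8) - p (3 r/8) ≤ p (2 rr k) - p (rr k/4) is a sum of three consecutive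
  increments of the sequence p (2 rr k), so the sum over k is ≤ 3 C.  sIn (rr (k+1)) ⊆ sIn (rr k), so |cin (rr (k+1)) - cin (rr k)| is at most the sum of two
  telescoping nonnegative differences, total ≤ 2 C.
* ns_of_EL: from EL at y get α, p, ν1, ν2.  Side +: S r = Φ (y + r) - Φ y, measures ν.map (σ ↦ σ - y), α1 r = α (y + r) - sg (S r), p1 r = p (y + r) - sg (S r).
  sg (S r) is antitone on [0, 2] (sg 0 = 0, sg_nonpos, sg_anti, S 2 < 2π by Good.sub_mem), Dom.comp_add, Dom.of_antitoneOn, Dom.sub; - sg (S 2) ≤ log (2π) - log η by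
  neg_sg_le and Good.chord_lower.  logPot (ν.map ..) r = logPot ν (y + r) (logPot_eq, integral_map).  lg = log + sg.  The a.e. statement is moved by the measure preserving shift.
  Side -: S r = Φ y - Φ (y - r), measures ν.map (σ ↦ y - σ), t = y + 2π - r, Dom.comp_sub, Good.lg_sub, lg_neg, logPot_periodic;
  for the chord bound use Good.chord_lower at the point y - 2.  cin agrees on both sides since ch (y - σ) = ch (σ - y) (Measure.map_apply).
-/

set_option autoImplicit false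

namespace Pool.Agent.Work.MP_af796d_an.H

open MeasureTheory Set Real Metric Filter Topology

lemma Loc2_int (ν : Measure ℝ) [IsFiniteMeasure ν] {r : ℝ} (hr : 0 ≤ r) :
    Integrable (fun σ => om r (ch σ)) ν := by
  have := continuous_ch.measurable
  refine Integrable.of_bound (Measurable.aestronglyMeasurable (by unfold om; fun_prop)) (1 / 4)
    (ae_of_all _ fun σ => ?_)
  rw [Real.norm_of_nonneg (om_nonneg hr (ch_nonneg σ))]
  exact om_le hr (ch_nonneg σ)

lemma Loc2_meas (ν : Measure ℝ) [IsFiniteMeasure ν] {C : ℝ} (hν : ν.real univ ≤ C) :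
    (∀ r, 0 ≤ r → 0 ≤ ∫ σ, om r (ch σ) ∂ν ∧ ∫ σ, om r (ch σ) ∂ν ≤ C) ∧
    (∀ r, 0 ≤ ν.real (sIn r) ∧ ν.real (sIn r) ≤ C) ∧
    (∀ n, ∑ k ∈ Finset.range n, ∫ σ, om (rr k) (ch σ) ∂ν ≤ 2 * C) ∧
    ∀ n, ∑ k ∈ Finset.range n, |ν.real (sIn (rr (k + 1))) - ν.real (sIn (rr k))| ≤ C := by
  have h2 : ∀ r, 0 ≤ ν.real (sIn r) ∧ ν.real (sIn r) ≤ C := fun r =>
    ⟨measureReal_nonneg, (measureReal_mono (subset_univ _)).trans hν⟩
  refine ⟨fun r hr => ⟨integral_nonneg fun σ => om_nonneg hr (ch_nonneg σ), ?_⟩, h2,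
    fun n => ?_, fun n => ?_⟩
  · refine (integral_mono (Loc2_int ν hr) (integrable_const 1) fun σ =>
      (om_le hr (ch_nonneg σ)).trans (by norm_num)).trans ?_
    simpa using hν
  · rw [← integral_finsetSum _ fun k _ => Loc2_int ν (rr_pos k).le]
    refine (integral_mono (integrable_finsetSum _ fun k _ => Loc2_int ν (rr_pos k).le)
      (integrable_const 2) fun σ => om_sum (ch_nonneg σ) n).trans ?_
    rw [integral_const, smul_eq_mul]
    linarith
  · have h3 : ∀ k, ν.real (sIn (rr (k + 1))) ≤ ν.real (sIn (rr k)) := fun k =>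
      measureReal_mono fun σ (hσ : ch σ < rr (k + 1) / 16) => show ch σ < rr k / 16 by
        linarith only [hσ, rr_succ_le k]
    rw [Finset.sum_congr rfl fun k _ => (abs_sub_comm _ _).trans
      (abs_of_nonneg (sub_nonneg.2 (h3 k))), Finset.sum_range_sub' fun k => ν.real (sIn (rr k))]
    linarith [(h2 (rr 0)).2, (h2 (rr n)).1]

lemma Loc2_p {α p : ℝ → ℝ} (h : Dom α p 0 2) (n : ℕ) :
    ∑ k ∈ Finset.range n, (p (9 * rr k / 8) - p (3 * rr k / 8)) ≤ 3 * (p 2 - p 0) := by
  have hq : ∀ k, p 0 ≤ p (2 * rr k) ∧ p (2 * rr k) ≤ p 2 := fun k =>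
    ⟨h.le le_rfl (by linarith [rr_pos k]) (by linarith [rr_le_one k]),
      h.le (by linarith [rr_pos k]) (by linarith [rr_le_one k]) le_rfl⟩
  have h1 := Finset.sum_range_sub'
    (fun k => p (2 * rr k) + p (2 * rr (k + 1)) + p (2 * rr (k + 1 + 1))) n
  refine (Finset.sum_le_sum fun k _ => ?_).trans (h1.trans_le ?_)
  · have h0 := rr_pos k
    have h2 := rr_le_one k
    have h3 : rr (k + 1 + 1 + 1) = rr k / 8 := by
      simp only [rr_succ]
      ring
    have h4 := h.le (x := 9 * rr k / 8) (y := 2 * rr k) (by linarith only [h0]) (by linarith only [h0]) (by linarith)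
    have h5 := h.le (x := 2 * rr (k + 1 + 1 + 1)) (y := 3 * rr k / 8) (by linarith only [h0, h3]) (by linarith only [h0, h3])
      (by linarith only [h2])
    linarith only [h4, h5]
  · linarith only [hq, (hq 0).2, (hq (0 + 1)).2, (hq (0 + 1 + 1)).2, (hq n).1, (hq (n + 1)).1,
      (hq (n + 1 + 1)).1]

theorem locN_of_NS : ∃ K₁ : ℝ, 0 ≤ K₁ ∧ ∀ (S α p : ℝ → ℝ) (ν₁ ν₂ : Measure ℝ) (C : ℝ),
    NS S α p ν₁ ν₂ C → ∃ N, LocN S (cin ν₁ ν₂) N (K₁ * C) := by
  obtain ⟨K1, k1, H1⟩ := loc1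
  obtain ⟨K2, k2, H2⟩ := loc2
  refine ⟨7 * (K1 + K2 + 1), by positivity, fun S α p ν₁ ν₂ C h =>
    ⟨fun r => (K1 + K2 + 1) * nn ν₁ ν₂ p r, ?_⟩⟩
  have := h.fin₁
  have := h.fin₂
  obtain ⟨a1, a2, a3, a4⟩ := Loc2_meas ν₁ h.m₁
  obtain ⟨b1, b2, b3, b4⟩ := Loc2_meas ν₂ h.m₂
  have hC : 0 ≤ C := measureReal_nonneg.trans h.m₁
  have hK : C ≤ (K1 + K2 + 1) * C := le_mul_of_one_le_left hC (by linarith)
  have hn : ∀ r, 0 < r → r ≤ 1 → 0 ≤ nn ν₁ ν₂ p r ∧ nn ν₁ ν₂ p r ≤ 7 * C := fun r h0 h1 => by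
    have c1 := h.dom.le (x := 0) (y := 3 * r / 8) le_rfl (by linarith only [h0]) (by linarith)
    have c2 := h.dom.le (x := 3 * r / 8) (y := 9 * r / 8) (by linarith only [h0]) (by linarith only [h0]) (by linarith only [h1])
    have c3 := h.dom.le (x := 9 * r / 8) (y := 2) (by linarith only [h0]) (by linarith only [h1]) le_rfl
    unfold nn
    exact ⟨by linarith only [c2, a1, h0, b1, (a1 r h0.le).1, (b1 r h0.le).1],
      by linarith only [hC, c1, c3, a1, h0, b1, h, (a1 r h0.le).2, (b1 r h0.le).2, h.var]⟩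
  refine ⟨h.cont, h.mono, h.zero, fun r h0 h1 => ⟨mul_nonneg (by linarith) (hn r h0 h1).1, ?_, ?_⟩,
    fun r h0 h1 s hs => (H1 _ _ _ _ _ _ h r h0 h1 s hs).trans (div_le_div_of_nonneg_right
      (mul_le_mul_of_nonneg_right (by linarith) (hn r h0 h1).1) h0.le),
    fun r h0 h1 => (H2 _ _ _ _ _ _ h r h0 h1).trans (mul_le_mul_of_nonneg_left
      (mul_le_mul_of_nonneg_right (by linarith) (hn r h0 h1).1) h0.le), fun n => ?_, fun n => ?_⟩
  · exact (mul_le_mul_of_nonneg_left (hn r h0 h1).2 (by linarith)).trans_eq (by ring)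
  · unfold cin
    exact abs_le.2 ⟨by linarith [(a2 r).1, (b2 r).2], by linarith [(a2 r).2, (b2 r).1]⟩
  · rw [← Finset.mul_sum]
    refine (mul_le_mul_of_nonneg_left (?_ : _ ≤ 7 * C) (by linarith)).trans_eq (by ring)
    simp only [nn, Finset.sum_add_distrib]
    linarith only [a3, b3, h, a3 n, b3 n, Loc2_p h.dom n, h.var]
  · refine (Finset.sum_le_sum fun k _ => ?_).trans
      (Finset.sum_add_distrib.trans_le ((add_le_add (a4 n) (b4 n)).trans (by linarith)))
    exact le_of_eq_of_le (congrArg abs (by unfold cin; ring)) (abs_sub _ _)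

lemma Loc2_sg0 : sg 0 = 0 := by simp [sg, lg, ch_zero]

lemma Loc2_side {S α p : ℝ → ℝ} {ν₁ ν₂ : Measure ℝ} {C η : ℝ} [IsFiniteMeasure ν₁]
    [IsFiniteMeasure ν₂] (hc : Continuous S) (hm : StrictMono S) (h0 : S 0 = 0) (h2 : S 2 < 2 * π)
    (hη : 0 < η) (hch : η ≤ ch (S 2)) (hd : Dom α p 0 2) (hv : p 2 - p 0 ≤ C)
    (m₁ : ν₁.real univ ≤ C) (m₂ : ν₂.real univ ≤ C)
    (he : ∀ᵐ t : ℝ, t ∈ Icc (0 : ℝ) 2 → lg (S t) = α t + logPot ν₁ t - logPot ν₂ t) :
    NS S (fun r => α r - sg (S r)) (fun r => p r + -sg (S r)) ν₁ ν₂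
      (C + |Real.log (2 * π) - Real.log η|) := by
  have ha : AntitoneOn (fun r => sg (S r)) (Icc 0 2) := fun a ha b hb hab => by
    have hb2 := (hm.monotone hb.2).trans_lt h2
    rcases ha.1.eq_or_lt with rfl | h
    · rcases hab.eq_or_lt with rfl | h
      · exact le_rfl
      · simp only [h0, Loc2_sg0]
        exact sg_nonpos (h0 ▸ hm h) hb2
    · exact sg_anti (h0 ▸ hm h) (hm.monotone hab) hb2
  have h3 := abs_nonneg (Real.log (2 * π) - Real.log η)
  refine ⟨‹_›, ‹_›, hc, hm, h0, hd.sub (Dom.of_antitoneOn ha), ?_, by linarith, by linarith,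
    he.mono fun t ht h => ?_⟩
  · simp only [h0, Loc2_sg0]
    linarith only [hv, hm, h0, h2, hη, hch, neg_sg_le (h0 ▸ hm two_pos) h2 hη hch, le_abs_self (Real.log (2 * π) - Real.log η)]
  · simp only [sg]
    linarith [ht h]

lemma Loc2_pot (ν : Measure ℝ) (y r : ℝ) :
    logPot (ν.map fun σ => σ - y) r = logPot ν (y + r) ∧
      logPot (ν.map fun σ => y - σ) r = logPot ν (y + 2 * π - r) := by
  have hm : Measurable fun s => lg (r - s) := measurable_lg.comp (measurable_id.const_sub r)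
  rw [show y + 2 * π - r = y - r + 2 * π by ring, logPot_periodic]
  simp only [logPot_eq]
  rw [integral_map (by fun_prop) hm.aestronglyMeasurable,
    integral_map (by fun_prop) hm.aestronglyMeasurable]
  refine ⟨integral_congr_ae (ae_of_all _ fun s => congrArg lg (by ring)),
    integral_congr_ae (ae_of_all _ fun s => (lg_neg _).symm.trans (congrArg lg (by ring)))⟩

lemma Loc2_in (ν : Measure ℝ) (y r : ℝ) :
    (ν.map fun σ => σ - y).real (sIn r) = (ν.map fun σ => y - σ).real (sIn r) := by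
  have hm : MeasurableSet (sIn r) := measurableSet_lt continuous_ch.measurable measurable_const
  rw [map_measureReal_apply (by fun_prop) hm, map_measureReal_apply (by fun_prop) hm]
  refine congrArg ν.real (Set.ext fun σ => ?_)
  simp only [mem_preimage, sIn, mem_ofPred_eq]
  rw [← ch_neg, neg_sub]

theorem ns_of_EL {Φ : ℝ → ℝ} (hΦ : Good Φ) (h : EL Φ) : ∃ C : ℝ, ∀ y,
    ∃ (α p α' p' : ℝ → ℝ) (ν₁ ν₂ ν₁' ν₂' : Measure ℝ),
      NS (fun r => Φ (y + r) - Φ y) α p ν₁ ν₂ C ∧ NS (fun r => Φ y - Φ (y - r)) α' p' ν₁' ν₂' C ∧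
        cin ν₁ ν₂ = cin ν₁' ν₂' := by
  obtain ⟨C, H⟩ := h
  obtain ⟨η, hη, hc⟩ := hΦ.chord_lower two_pos
  have hπ := pi_gt_three
  refine ⟨C + |Real.log (2 * π) - Real.log η|, fun y => ?_⟩
  obtain ⟨α, p, ν₁, ν₂, f₁, f₂, hd, hv, m₁, m₂, he⟩ := H y
  have hu : ∀ (ν : Measure ℝ) (f : ℝ → ℝ), Measurable f → ν.real univ ≤ C →
      (ν.map f).real univ ≤ C := fun ν f hf h => by
    rwa [map_measureReal_apply hf MeasurableSet.univ, preimage_univ]
  refine ⟨_, _, _, _, ν₁.map fun σ => σ - y, ν₂.map fun σ => σ - y, ν₁.map fun σ => y - σ,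
    ν₂.map fun σ => y - σ,
    Loc2_side (α := fun t => α (y + t)) (p := fun t => p (y + t))
      ((hΦ.cont.comp (continuous_const.add continuous_id)).sub continuous_const)
      (fun a b hab => sub_lt_sub_right (hΦ.mono (by linarith)) _) (by simp)
      (hΦ.sub_mem (by linarith) (by linarith)).2 hη (hc y 2 le_rfl (by linarith))
      ((hd.comp_add y).mono (by linarith) (by linarith)) ?_ (hu _ _ (by fun_prop) m₁)
      (hu _ _ (by fun_prop) m₂) ?_,
    Loc2_side (α := fun t => α (y + 2 * π - t)) (p := fun t => -p (y + 2 * π - t))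
      (continuous_const.sub (hΦ.cont.comp (continuous_const.sub continuous_id)))
      (fun a b hab => sub_lt_sub_left (hΦ.mono (by linarith)) _) (by simp)
      (hΦ.sub_mem (by linarith) (by linarith)).2 hη
      (by simpa using hc (y - 2) 2 le_rfl (by linarith))
      ((hd.comp_sub (y + 2 * π)).mono (by linarith) (by linarith)) ?_ (hu _ _ (by fun_prop) m₁)
      (hu _ _ (by fun_prop) m₂) ?_, funext fun r => ?_⟩
  · have := hd.le (x := y + 2) (y := y + 2 * π) (by linarith) (by linarith) le_rfl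
    simp only [add_zero]
    linarith
  · filter_upwards [(measurePreserving_add_left volume y).quasiMeasurePreserving.ae he] with t ht h
    rw [(Loc2_pot ν₁ y t).1, (Loc2_pot ν₂ y t).1]
    exact ht ⟨by linarith [h.1], by linarith [h.2]⟩
  · have := hd.le (x := y) (y := y + 2 * π - 2) le_rfl (by linarith) (by linarith)
    simp only [sub_zero]
    linarith
  · filter_upwards [(Measure.measurePreserving_sub_left volume
      (y + 2 * π)).quasiMeasurePreserving.ae he] with t ht h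
    rw [(Loc2_pot ν₁ y t).2, (Loc2_pot ν₂ y t).2, ← lg_neg, neg_sub, hΦ.lg_sub]
    exact ht ⟨by linarith [h.2], by linarith [h.1]⟩
  · rw [cin, cin, Loc2_in, Loc2_in]

theorem locN_of_EL {Φ : ℝ → ℝ} (hΦ : Good Φ) (h : EL Φ) : ∃ K : ℝ, ∀ y, ∃ c N₁ N₂ : ℝ → ℝ,
    LocN (fun r => Φ (y + r) - Φ y) c N₁ K ∧ LocN (fun r => Φ y - Φ (y - r)) c N₂ K := by
  obtain ⟨K₁, -, h1⟩ := locN_of_NS
  obtain ⟨C, h2⟩ := ns_of_EL hΦ h
  refine ⟨K₁ * C, fun y => ?_⟩
  obtain ⟨α, p, α', p', ν₁, ν₂, ν₁', ν₂', a1, a2, a3⟩ := h2 y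
  obtain ⟨N₁, b1⟩ := h1 _ _ _ _ _ _ a1
  obtain ⟨N₂, b2⟩ := h1 _ _ _ _ _ _ a2
  exact ⟨_, N₁, N₂, b1, a3 ▸ b2⟩

end Pool.Agent.Work.MP_af796d_an.H
end

-- merged part: Pool.Agent.Work.MP_af796d_an.H.WsN
section
/-!
# The structure WS in the necessity direction
PLAN.
* min_log_le: for W > 0, c ≥ c0 > 0.  If |W - c| ≤ c/2 then |log (W/c)| ≤ 2 |W - c|/c0 (abs_log_sub_log_le with η = c/2), and min 1 ((κ x)^2) ≤ max 1 (κ^2) min 1 (x^2).
  Otherwise |W - c| ≥ c0/2 and min 1 ((W-c)^2) ≥ min 1 (c0^2/4).  Both are covered by the factor 1 + 4/c0^2.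
* ws1_osc: for a.e. s, SS β has derivative exp (β s) (IntervalIntegrable.ae_hasDerivAt_integral or LocallyIntegrable), so for s > 0, s * deriv (log S) s = WW β s.
  Then min_log_le, min_one_add_sq with W - d = (W - c r) + (c r - d), LocN.wk', min 1 (x^2) ≤ |x|, length r/2.
* ws_of_EL: K from locN_of_EL (K ≥ 0), D = exp (7 K) ≥ 1, db_of_locN, beta_of_locN, st_of_beta give b and C; St.SS_pos_eq, St.SS_neg_eq identify S (funext).
  c0, ε from c_lower.  d k = max (c (rr k)) c0; |d (k+1) - d k| ≤ |c (rr (k+1)) - c (rr k)| (abs_max_sub_max_le_abs), d ≤ K + c0,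
  |d k - c (rr k)| ≤ (K + c0) N1 (rr k)/ε (zero at good scales).  N on each side: (1 + 4/c0^2)(4 N_i + 2 K rr k + (K + c0) N1/ε).  Take a large common constant (St.mono).
-/

set_option autoImplicit false

namespace Pool.Agent.Work.MP_af796d_an.H

open MeasureTheory Set Real Metric Filter Topology

lemma min_log_le {W c c₀ : ℝ} (hW : 0 < W) (h0 : 0 < c₀) (hc : c₀ ≤ c) :
    min 1 ((Real.log (W / c)) ^ 2) ≤ (1 + 4 / c₀ ^ 2) * min 1 ((W - c) ^ 2) := by
  have hκ : 0 < 4 / c₀ ^ 2 := by positivity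
  have hc' : 0 < c := h0.trans_le hc
  rcases le_total 1 ((W - c) ^ 2) with h1 | h1
  · rw [min_eq_left h1]
    exact (min_le_left _ _).trans (by linarith only [hκ])
  rw [min_eq_right h1]
  have key : min 1 ((Real.log (W / c)) ^ 2) ≤ 4 / c₀ ^ 2 * (W - c) ^ 2 := by
    rw [div_mul_eq_mul_div, le_div_iff₀ (by positivity)]
    rcases le_total |W - c| (c / 2) with h2 | h2
    · have h3 := abs_log_sub_log_le (p := W) (q := c) (η := c₀ / 2) (by positivity)
        (by linarith only [hc, h2, (abs_le.mp h2).1]) (by linarith only [h0, hc])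
      rw [← Real.log_div hW.ne' hc'.ne', le_div_iff₀ (by positivity)] at h3
      have h4 := pow_le_pow_left₀ (by positivity) h3 2
      rw [mul_pow, sq_abs, sq_abs] at h4
      have h5 := mul_le_mul_of_nonneg_right (min_le_right 1 ((Real.log (W / c)) ^ 2)) (sq_nonneg c₀)
      linarith only [h4, h5]
    · have h4 := pow_le_pow_left₀ (by positivity) ((show c₀ / 2 ≤ c / 2 by linarith only [hc]).trans h2) 2
      rw [sq_abs] at h4
      have h5 := mul_le_mul_of_nonneg_right (min_le_left 1 ((Real.log (W / c)) ^ 2)) (sq_nonneg c₀)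
      linarith only [h4, h5]
  linarith only [key, sq_nonneg (W - c), sq_nonneg (W - c)]

lemma WsN_min (x : ℝ) : min 1 (x ^ 2) ≤ |x| := by
  rcases le_total 1 |x| with h | h
  · exact (min_le_left _ _).trans h
  · refine (min_le_right _ _).trans ?_
    rw [← sq_abs]
    linarith only [h, abs_nonneg x, mul_nonneg_of_nonpos_of_nonpos (Mathlib.Tactic.Linarith.sub_nonpos_of_le h) (Mathlib.Tactic.Linarith.sub_nonpos_of_le (abs_nonneg x))]

lemma WsN_ii {g : ℝ → ℝ} (hg : Measurable g) (a c : ℝ) :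
    IntervalIntegrable (fun s => min 1 (g s ^ 2)) volume a c := by
  refine bdd_intervalIntegrable (B := 1) (measurable_const.min (hg.pow_const 2)) (fun t => ?_) a c
  rw [abs_of_nonneg (le_min zero_le_one (sq_nonneg _))]
  exact min_le_left _ _

lemma ws1_osc {β c N : ℝ → ℝ} {C K c₀ d r : ℝ} (hβ : AI β C) (h : LocN (SS β) c N K)
    (h0 : 0 < c₀) (hd : c₀ ≤ d) (hr : 0 < r) (hr1 : r ≤ 1) :
    ∫ s in (r / 2)..r, min 1 ((Real.log (WW β s / d)) ^ 2) ≤
      r * ((1 + 4 / c₀ ^ 2) * (4 * N r + 2 * K * r + |d - c r|)) := by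
  have hκ : 0 ≤ 1 + 4 / c₀ ^ 2 := by positivity
  have hder := Tools2_der (F := SS β) (f := fun t => Real.exp (β t)) (a := 0) (b := 2)
    zero_le_two (hβ.iie 0 2) (fun x _ => by rw [SS_zero, zero_add]; rfl)
  have i1 := WsN_ii (g := fun s => Real.log (WW β s / d))
    ((hβ.measurable_WW.div_const d).log) (r / 2) r
  have i2 := WsN_ii (g := fun s => s * deriv (fun t => Real.log (SS β t)) s - c r)
    ((measurable_id.mul (measurable_deriv _)).sub measurable_const) (r / 2) r
  have i3 : IntervalIntegrable (fun _ : ℝ => 2 * |d - c r|) volume (r / 2) r :=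
    intervalIntegrable_const
  have hw := h.wk' hr hr1
  calc _ ≤ ∫ s in (r / 2)..r, (1 + 4 / c₀ ^ 2) *
        (2 * min 1 ((s * deriv (fun t => Real.log (SS β t)) s - c r) ^ 2) + 2 * |d - c r|) := by
        refine intervalIntegral.integral_mono_ae_restrict (by linarith only [hr]) i1
          (((i2.const_mul 2).add i3).const_mul _) ?_
        filter_upwards [ae_restrict_mem measurableSet_Icc, ae_restrict_of_ae hder] with s hs hd'
        have hs0 : 0 < s := by linarith only [hr, hs, hs.1]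
        have hS := hβ.SS_pos hs0
        have h1 := ((hd' ⟨hs0, by linarith only [hr1, hs, hs.2]⟩).log hS.ne').deriv
        have hW : 0 < WW β s := by unfold WW; positivity
        have h2 : s * deriv (fun t => Real.log (SS β t)) s = WW β s := by
          rw [h1, WW, mul_div_assoc]
        rw [h2]
        refine (min_log_le hW h0 hd).trans (mul_le_mul_of_nonneg_left ?_ hκ)
        have h3 := min_one_add_sq (WW β s - c r) (c r - d)
        have h4 := WsN_min (c r - d)
        rw [abs_sub_comm] at h4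
        rw [sub_add_sub_cancel] at h3
        linarith only [h3, h4]
    _ = (1 + 4 / c₀ ^ 2) * (2 * (∫ s in (r / 2)..r,
        min 1 ((s * deriv (fun t => Real.log (SS β t)) s - c r) ^ 2)) + r * |d - c r|) := by
        rw [intervalIntegral.integral_const_mul, intervalIntegral.integral_add (i2.const_mul 2) i3,
          intervalIntegral.integral_const_mul, intervalIntegral.integral_const, smul_eq_mul]
        ring
    _ ≤ (1 + 4 / c₀ ^ 2) * (2 * (r * (2 * N r + K * r)) + r * |d - c r|) := by gcongr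
    _ = _ := by ring

lemma WsN_rr (n : ℕ) : ∑ k ∈ Finset.range n, rr k = 2 - 2 * rr n := by
  induction n with
  | zero => simp [rr_zero]
  | succ n ih => rw [Finset.sum_range_succ, ih, rr_succ]; ring

lemma WsN_side {β c N : ℝ → ℝ} {d : ℕ → ℝ} {C K c₀ L C' : ℝ} (hβ : AI β C)
    (h : LocN (SS β) c N K) (hK : 0 ≤ K) (h0 : 0 < c₀) (hd : ∀ k, c₀ ≤ d k)
    (hL : ∀ n, ∑ k ∈ Finset.range n, |d k - c (rr k)| ≤ L) (hcs : CS d C')
    (hC : (1 + 4 / c₀ ^ 2) * (8 * K + L) ≤ C') : ∃ N', WS1 β d N' C' := by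
  refine ⟨fun k => (1 + 4 / c₀ ^ 2) * (4 * N (rr k) + 2 * K * rr k + |d k - c (rr k)|), hcs,
    ⟨fun k => ?_, fun n => le_trans ?_ hC⟩, fun k => ?_⟩
  · have h1 := (h.bd (rr k) (rr_pos k) (rr_le_one k)).1
    have h2 := rr_pos k
    positivity
  · rw [← Finset.mul_sum]
    refine mul_le_mul_of_nonneg_left ?_ (by positivity)
    rw [Finset.sum_add_distrib, Finset.sum_add_distrib, ← Finset.mul_sum, ← Finset.mul_sum, WsN_rr]
    linarith only [h, hL, hK, h.sN n, hL n, rr_pos n, mul_nonneg_of_nonpos_of_nonpos (Mathlib.Tactic.Linarith.sub_nonpos_of_le hK) (le_of_lt (Mathlib.Tactic.Linarith.sub_neg_of_lt (rr_pos n)))]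
  · rw [rr_succ]
    exact ws1_osc hβ h h0 (hd k) (rr_pos k) (rr_le_one k)

theorem ws_of_EL {Φ : ℝ → ℝ} (hΦ : Good Φ) (h : EL Φ) :
    ∃ (b : ℝ → ℝ) (C : ℝ), St Φ b C ∧ ∀ y, ∃ c, WSy b y c C := by
  obtain ⟨K, hK⟩ := locN_of_EL hΦ h
  have hK0 : 0 ≤ K := by
    obtain ⟨c, N₁, N₂, h1, -⟩ := hK 0
    have := h1.bd 1 one_pos le_rfl
    linarith [this.1, this.2.1]
  have hD : 1 ≤ Real.exp (7 * K) := Real.one_le_exp (by positivity)
  have hDB := db_of_locN hK
  obtain ⟨η, γ, hη, hη1, hγ, hγ1, hB⟩ := beta_of_locN hK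
  obtain ⟨C, hSt⟩ := st_of_beta hΦ hD hη hη1 hγ hγ1 hDB hB
  obtain ⟨c₀, ε, h0, hε, hlow⟩ := c_lower hD
  have hC := hSt.ai.one_le
  have p1 : 0 < 1 / c₀ := by positivity
  have p2 : 0 ≤ (1 + 4 / c₀ ^ 2) * (8 * K + (K + c₀) / ε * K) := by positivity
  refine ⟨_, C + 1 / c₀ + (K + c₀) + (1 + 4 / c₀ ^ 2) * (8 * K + (K + c₀) / ε * K),
    hSt.mono (by linarith only [hK0, h0, p1, p2]), fun y => ?_⟩
  obtain ⟨c, N₁, N₂, h1, h2⟩ := hK y
  have hL : ∀ n, ∑ k ∈ Finset.range n, |max (c (rr k)) c₀ - c (rr k)| ≤ (K + c₀) / ε * K := by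
    intro n
    refine le_trans ?_ (mul_le_mul_of_nonneg_left (h1.sN n) (by positivity))
    rw [Finset.mul_sum]
    refine Finset.sum_le_sum fun k _ => ?_
    obtain ⟨b1, -, b3⟩ := h1.bd (rr k) (rr_pos k) (rr_le_one k)
    rcases le_total (N₁ (rr k)) ε with h3 | h3
    · rw [max_eq_left (hlow Φ y c N₁ K hDB h1 _ (rr_pos k) (rr_le_one k) h3), sub_self, abs_zero]
      positivity
    · refine le_trans ?_ (mul_le_mul_of_nonneg_left h3 (by positivity))
      rw [div_mul_cancel₀ _ hε.ne', abs_of_nonneg (sub_nonneg.mpr (le_max_left _ _)),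
        sub_le_iff_le_add]
      exact max_le (by linarith only [hK0, h0]) (by linarith only [b3, (abs_le.mp b3).1])
  have hcs : CS (fun k => max (c (rr k)) c₀)
      (C + 1 / c₀ + (K + c₀) + (1 + 4 / c₀ ^ 2) * (8 * K + (K + c₀) / ε * K)) := by
    refine ⟨by linarith only [hK0, h0, hC, p1, p2], fun k => le_trans ?_ (le_max_right _ _), fun k => ?_, fun n => ?_⟩
    · exact (one_div_le (by linarith only [hK0, h0, hC, p1, p2]) h0).mpr (by linarith only [hK0, h0, hC, p2])
    · have b3 := (abs_le.mp (h1.bd (rr k) (rr_pos k) (rr_le_one k)).2.2).2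
      exact max_le (by linarith only [h0, hC, p1, p2, b3]) (by linarith only [hK0, hC, p1, p2])
    · refine (Finset.sum_le_sum fun k _ => abs_max_sub_max_le_abs _ _ _).trans ?_
      linarith only [h0, hC, p1, p2, h1, h1.sc n]
  rw [← funext (hSt.SS_pos_eq y)] at h1
  rw [← funext (hSt.SS_neg_eq y)] at h2
  obtain ⟨M₁, g1⟩ := WsN_side (hSt.ai.sd_pos y) h1 hK0 h0 (fun k => le_max_right _ _) hL hcs
    (by linarith only [hK0, h0, hC, p1])
  obtain ⟨M₂, g2⟩ := WsN_side (hSt.ai.sd_neg y) h2 hK0 h0 (fun k => le_max_right _ _) hL hcs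
    (by linarith only [hK0, h0, hC, p1])
  exact ⟨_, M₁, M₂, g1, g2⟩

end Pool.Agent.Work.MP_af796d_an.H
end

-- merged part: Pool.Agent.Work.MP_af796d_an.H.F1
section
/-!
# Disc algebra functions with bounded real part
PLAN.
* re_le: maximum principle (norm_le_of_sphere in Holo.lean) for exp F and exp (-F); exists_ex_of_norm.
* bc: Borel-Caratheodory (Complex.borelCaratheodory_zero or Complex.borelCaratheodory) for w ↦ F (z0 + w) - F z0 on ball 0 r, real part ≤ 2 M:
  norm ≤ 2 (2M) ‖w‖/(r - ‖w‖) ≤ 4 M.  If the library needs M > 0 or a strict bound use M + ε and let ε → 0.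
* IK_succ: the two points are at distance rr k / 2.  IK_shift: four steps of angle s/4; ‖ρ ex a - ρ ex b‖ ≤ |a - b| (norm_ex_sub_ex, ch_le_abs).
* MK_small: F is uniformly continuous on the compact closed disc; tendsto_rr.
* MK_L1: z0 = (1 - r) ex y, G = F - I * Im F z0.  Poisson formula (DiffContOnCl.circleAverage_poissonKernel_smul) for G^2: the Poisson average of Re (G^2) = Re^2 - Im^2 is (Re F z0)^2 ≥ 0, and the
  Poisson average of 1 is 1, so the Poisson average of (Im G)^2 is ≤ M^2.  The kernel (1 - ρ^2)/((1 - ρ)^2 + ρ ch s^2) is ≥ 1/(5 r) for |s| ≤ 2 r.  So ∫_{-2r}^{2r} (Im G)^2 ≤ 10 π r M^2, and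
  ∫ |Im G| ≤ ∫ (t + Im^2/t)/2 with t = 3 M (or 3 M + ε) is at most 6 r M + 6 r M; add 16 M * 4 r from IK_shift.
-/

set_option autoImplicit false

namespace Pool.Agent.Work.MP_af796d_an.H

open MeasureTheory Set Real Metric Filter Topology

variable {F : ℂ → ℂ} {M : ℝ}

lemma re_le (hF : DiffContOnCl ℂ F (ball 0 1)) (hM : ∀ t, |(F (ex t)).re| ≤ M) {z : ℂ}
    (hz : ‖z‖ ≤ 1) : |(F z).re| ≤ M := by
  have h1 : ∀ σ : ℝ, |σ| = 1 → σ * (F z).re ≤ M := by
    intro σ hσ
    have hd : DiffContOnCl ℂ (fun w => Complex.exp ((σ : ℂ) * F w)) (ball 0 1) :=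
      ⟨(hF.1.const_mul (σ : ℂ)).cexp, (continuousOn_const.mul hF.2).cexp⟩
    have h2 := norm_le_of_sphere hd (C := Real.exp M) (fun w hw => by
      obtain ⟨t, rfl⟩ := exists_ex_of_norm hw
      rw [Complex.norm_exp, Complex.re_ofReal_mul]
      refine Real.exp_le_exp.2 ((le_abs_self _).trans ?_)
      rw [abs_mul, hσ, one_mul]
      exact hM t) hz
    rw [Complex.norm_exp, Complex.re_ofReal_mul] at h2
    exact Real.exp_le_exp.1 h2
  have a := h1 1 abs_one
  have b := h1 (-1) (by rw [abs_neg, abs_one])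
  exact abs_le.2 ⟨by linarith, by linarith⟩

lemma bc (hF : DiffContOnCl ℂ F (ball 0 1)) (hM : ∀ t, |(F (ex t)).re| ≤ M) {z₀ z : ℂ} {r : ℝ}
    (hr : 0 < r) (h0 : ‖z₀‖ + r ≤ 1) (h1 : ‖z - z₀‖ ≤ r / 2) : ‖F z - F z₀‖ ≤ 4 * M := by
  have hM0 : 0 ≤ M := (abs_nonneg _).trans (hM 0)
  have hin : ∀ w ∈ ball (0 : ℂ) r, ‖z₀ + w‖ < 1 := fun w hw => by
    have a := norm_add_le z₀ w
    have b : ‖w‖ < r := mem_ball_zero_iff.1 hw
    linarith only [h0, a, b]
  refine le_of_forall_pos_le_add fun ε hε => ?_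
  have hd : DifferentiableOn ℂ (fun w => F (z₀ + w) - F z₀) (ball 0 r) := by
    refine DifferentiableOn.sub_const ?_ _
    refine hF.1.comp (by fun_prop) fun w hw => ?_
    exact mem_ball_zero_iff.2 (hin w hw)
  have hm : Set.MapsTo (fun w => F (z₀ + w) - F z₀) (ball 0 r)
      {z : ℂ | z.re ≤ 2 * M + ε / 2} := by
    intro w hw
    have a := abs_le.1 (re_le hF hM (hin w hw).le)
    have b := abs_le.1 (re_le hF hM (z := z₀) (by linarith))
    show (F (z₀ + w) - F z₀).re ≤ 2 * M + ε / 2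
    rw [Complex.sub_re]
    linarith only [hε, a, b, a.2, b.1]
  have hz : z - z₀ ∈ ball (0 : ℂ) r := mem_ball_zero_iff.2 (by linarith)
  have h := Complex.borelCaratheodory_zero (by positivity) hd hm hr hz (by simp)
  simp only [add_sub_cancel] at h
  refine h.trans ?_
  have hn := norm_nonneg (z - z₀)
  rw [div_le_iff₀ (by linarith only [hr, h1])]
  have : (4 * M + ε) * ‖z - z₀‖ ≤ (4 * M + ε) * (r - ‖z - z₀‖) :=
    mul_le_mul_of_nonneg_left (by linarith) (by positivity)
  linarith only [this]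

lemma IK_zero (F : ℂ → ℂ) (y : ℝ) : IK F y 0 = (F 0).im := by
  simp [IK, rr_zero]

lemma F1_norm (y : ℝ) (k : ℕ) : ‖((1 - rr k : ℝ) : ℂ) * ex y‖ = 1 - rr k := by
  have := rr_le_one k
  rw [norm_mul, norm_ex, mul_one, Complex.norm_real, Real.norm_eq_abs, abs_of_nonneg (by linarith)]

lemma IK_succ (hF : DiffContOnCl ℂ F (ball 0 1)) (hM : ∀ t, |(F (ex t)).re| ≤ M) (y : ℝ) (k : ℕ) :
    |IK F y (k + 1) - IK F y k| ≤ 4 * M := by
  have hk := rr_pos k
  have h := bc hF hM (z₀ := ((1 - rr k : ℝ) : ℂ) * ex y) (z := ((1 - rr (k + 1) : ℝ) : ℂ) * ex y)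
    hk (by rw [F1_norm]; linarith) (by
      rw [← sub_mul, ← Complex.ofReal_sub, norm_mul, norm_ex, mul_one, Complex.norm_real,
        Real.norm_eq_abs, rr_succ, abs_of_nonneg (by linarith only [hk])]
      linarith)
  unfold IK
  rw [← Complex.sub_im]
  exact (Complex.abs_im_le_norm _).trans h

lemma F1_step (hF : DiffContOnCl ℂ F (ball 0 1)) (hM : ∀ t, |(F (ex t)).re| ≤ M) (y : ℝ) (k : ℕ)
    {s : ℝ} (hs : |s| ≤ rr k / 2) : |IK F (y + s) k - IK F y k| ≤ 4 * M := by
  have hk := rr_pos k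
  have hk1 := rr_le_one k
  have h := bc hF hM (z₀ := ((1 - rr k : ℝ) : ℂ) * ex y) (z := ((1 - rr k : ℝ) : ℂ) * ex (y + s))
    hk (by rw [F1_norm]; linarith only []) (by
      rw [← mul_sub, norm_mul, norm_ex_sub_ex, add_sub_cancel_left, Complex.norm_real,
        Real.norm_eq_abs, abs_of_nonneg (by linarith)]
      have a := ch_le_abs s
      have b := ch_nonneg s
      linarith only [hs, a, hk, b, mul_nonneg_of_nonpos_of_nonpos (le_of_lt (Mathlib.Tactic.Linarith.sub_neg_of_lt hk)) (Mathlib.Tactic.Linarith.sub_nonpos_of_le b)])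
  unfold IK
  rw [← Complex.sub_im]
  exact (Complex.abs_im_le_norm _).trans h

lemma IK_shift (hF : DiffContOnCl ℂ F (ball 0 1)) (hM : ∀ t, |(F (ex t)).re| ≤ M) (y : ℝ) (k : ℕ)
    {s : ℝ} (hs : |s| ≤ 2 * rr k) : |IK F (y + s) k - IK F y k| ≤ 16 * M := by
  have hs4 : |s / 4| ≤ rr k / 2 := by
    rw [abs_div, abs_of_pos (by norm_num : (0 : ℝ) < 4)]
    linarith only [hs]
  have a := abs_le.1 (F1_step hF hM y k hs4)
  have b := abs_le.1 (F1_step hF hM (y + s / 4) k hs4)
  have c := abs_le.1 (F1_step hF hM (y + s / 4 + s / 4) k hs4)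
  have d := abs_le.1 (F1_step hF hM (y + s / 4 + s / 4 + s / 4) k hs4)
  rw [show y + s / 4 + s / 4 + s / 4 + s / 4 = y + s by ring] at d
  exact abs_le.2 ⟨by linarith only [a, b, c, d, a.1, b.1, c.1, d.1], by linarith only [a, b, c, d, a.2, b.2, c.2, d.2]⟩

lemma MK_nonneg (F : ℂ → ℂ) (y : ℝ) (k : ℕ) : 0 ≤ MK F y k := abs_nonneg _

lemma MK_succ (hF : DiffContOnCl ℂ F (ball 0 1)) (hM : ∀ t, |(F (ex t)).re| ≤ M) (y : ℝ) (k : ℕ) :
    |MK F y (k + 1) - MK F y k| ≤ 4 * M := by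
  unfold MK
  refine (abs_abs_sub_abs_le_abs_sub _ _).trans ?_
  rw [sub_sub_sub_cancel_left, abs_sub_comm]
  exact IK_succ hF hM y k

lemma MK_rot (F : ℂ → ℂ) (y s : ℝ) (k : ℕ) : MK (fun z => F (z * ex y)) s k = MK F (y + s) k := by
  simp only [MK, IK, ex_add]
  rw [mul_comm (ex s) (ex y), mul_assoc, mul_comm (ex s) (ex y)]

lemma F1_con (hF : DiffContOnCl ℂ F (ball 0 1)) : ContinuousOn F (closedBall 0 1) := by
  have := hF.2
  rwa [closure_ball _ one_ne_zero] at this

lemma F1_cex (hF : DiffContOnCl ℂ F (ball 0 1)) : Continuous fun y => F (ex y) :=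
  (F1_con hF).comp_continuous continuous_ex fun y => mem_closedBall_zero_iff.2 (norm_ex y).le

lemma continuous_MK (hF : DiffContOnCl ℂ F (ball 0 1)) (k : ℕ) :
    Continuous fun y => MK F y k := by
  have hk := rr_pos k
  have h1 : Continuous fun y => F (((1 - rr k : ℝ) : ℂ) * ex y) :=
    (F1_con hF).comp_continuous (by fun_prop) fun y =>
      mem_closedBall_zero_iff.2 (by rw [F1_norm]; linarith)
  unfold MK IK
  exact ((Complex.continuous_im.comp (F1_cex hF)).sub (Complex.continuous_im.comp h1)).abs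

lemma MK_small (hF : DiffContOnCl ℂ F (ball 0 1)) {ε : ℝ} (hε : 0 < ε) :
    ∃ n, ∀ y, MK F y n ≤ ε := by
  have hu := (isCompact_closedBall (0 : ℂ) 1).uniformContinuousOn_of_continuous (F1_con hF)
  obtain ⟨δ, hδ, h⟩ := Metric.uniformContinuousOn_iff.1 hu ε hε
  obtain ⟨n, hn⟩ := (tendsto_rr.eventually (gt_mem_nhds hδ)).exists
  have hk := rr_pos n
  refine ⟨n, fun y => ?_⟩
  have h1 := h (ex y) (mem_closedBall_zero_iff.2 (norm_ex y).le) (((1 - rr n : ℝ) : ℂ) * ex y)
    (mem_closedBall_zero_iff.2 (by rw [F1_norm]; linarith)) (by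
      have e : ex y - ((1 - rr n : ℝ) : ℂ) * ex y = ((rr n : ℝ) : ℂ) * ex y := by
        push_cast; ring
      rw [dist_eq_norm, e, norm_mul, norm_ex, mul_one, Complex.norm_real, Real.norm_eq_abs,
        abs_of_pos hk]
      exact hn)
  unfold MK IK
  rw [← Complex.sub_im]
  rw [dist_eq_norm] at h1
  exact (Complex.abs_im_le_norm _).trans h1.le

lemma F1_ne {ρ : ℝ} (h0 : 0 ≤ ρ) (h1 : ρ < 1) (s : ℝ) : 0 < ‖ex s - (ρ : ℂ)‖ := by
  have a := norm_sub_norm_le (ex s) (ρ : ℂ)
  rw [norm_ex, Complex.norm_real, Real.norm_eq_abs, abs_of_nonneg h0] at a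
  linarith

lemma F1_cker {ρ : ℝ} (h0 : 0 ≤ ρ) (h1 : ρ < 1) :
    Continuous fun s => (1 - ρ ^ 2) / ‖ex s - (ρ : ℂ)‖ ^ 2 :=
  continuous_const.div (by fun_prop) fun s => (pow_pos (F1_ne h0 h1 s) 2).ne'

/-- the Poisson formula for the real part, centred at the angle `y`. -/
lemma F1_poisson {H : ℂ → ℂ} (hH : DiffContOnCl ℂ H (ball 0 1)) {ρ : ℝ} (h0 : 0 ≤ ρ) (h1 : ρ < 1)
    (y : ℝ) : ∫ s in (-π)..π, (1 - ρ ^ 2) / ‖ex s - (ρ : ℂ)‖ ^ 2 * (H (ex (y + s))).re =
      2 * π * (H ((ρ : ℂ) * ex y)).re := by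
  have hn : ‖(ρ : ℂ) * ex y‖ = ρ := by
    rw [norm_mul, norm_ex, mul_one, Complex.norm_real, Real.norm_eq_abs, abs_of_nonneg h0]
  have h := hH.circleAverage_poissonKernel_smul (w := (ρ : ℂ) * ex y)
    (mem_ball_zero_iff.2 (by rw [hn]; exact h1))
  rw [Real.circleAverage_eq_integral_add (y - π)] at h
  obtain ⟨g, hg⟩ : ∃ g : ℝ → ℂ,
      g = fun s => ((1 - ρ ^ 2) / ‖ex s - (ρ : ℂ)‖ ^ 2) • H (ex (y + s)) := ⟨_, rfl⟩
  have hgc : Continuous g := by
    rw [hg]
    exact (F1_cker h0 h1).smul ((F1_cex hH).comp (by fun_prop))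
  have e : (fun θ => (poissonKernel 0 ((ρ : ℂ) * ex y) • H) (circleMap 0 1 (θ + (y - π)))) =
      fun θ => g (θ - π) := by
    funext θ
    have e1 : circleMap 0 1 (θ + (y - π)) = ex (y + (θ - π)) := by
      rw [circleMap_zero, ex, Complex.ofReal_one, one_mul, mul_comm]
      congr 3
      ring
    have e2 : ‖ex (y + (θ - π)) - (ρ : ℂ) * ex y‖ = ‖ex (θ - π) - (ρ : ℂ)‖ := by
      rw [ex_add, mul_comm (ρ : ℂ), ← mul_sub, norm_mul, norm_ex, one_mul]
    rw [e1, hg, Pi.smul_apply', poissonKernel_def]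
    simp only [sub_zero]
    rw [e2, hn, norm_ex, one_pow]
  rw [e, intervalIntegral.integral_comp_sub_right g π, zero_sub,
    show 2 * π - π = π by ring] at h
  have h2 := Complex.reCLM.intervalIntegral_comp_comm (hgc.intervalIntegrable (μ := volume) (-π) π)
  have h3 : (fun s => Complex.reCLM (g s)) =
      fun s => (1 - ρ ^ 2) / ‖ex s - (ρ : ℂ)‖ ^ 2 * (H (ex (y + s))).re := by
    funext s
    rw [hg, Complex.reCLM_apply, Complex.smul_re, smul_eq_mul]
  rw [h3, Complex.reCLM_apply] at h2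
  rw [h2, ← h, Complex.smul_re, smul_eq_mul, ← mul_assoc, mul_inv_cancel₀ (by positivity), one_mul]

lemma F1_sq (hF : DiffContOnCl ℂ F (ball 0 1)) (hM : ∀ t, |(F (ex t)).re| ≤ M) (y : ℝ) (k : ℕ) :
    ∫ s in (-(2 * rr k))..(2 * rr k), ((F (ex (y + s))).im - IK F y k) ^ 2 ≤
      57 * rr k * M ^ 2 := by
  have hk := rr_pos k
  have hk1 := rr_le_one k
  have hp := pi_gt_three
  have hp' := pi_lt_d2
  have h0 : 0 ≤ 1 - rr k := by linarith only [hk1]
  have h1 : 1 - rr k < 1 := by linarith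
  obtain ⟨c, hc⟩ : ∃ c : ℝ, c = IK F y k := ⟨_, rfl⟩
  obtain ⟨H, hH⟩ : ∃ H : ℂ → ℂ, H = fun z => ((M ^ 2 : ℝ) : ℂ) - (F z - Complex.I * c) ^ 2 :=
    ⟨_, rfl⟩
  have hd : DiffContOnCl ℂ H (ball 0 1) := by
    rw [hH]
    exact ⟨((hF.1.sub_const _).pow 2).const_sub _,
      continuousOn_const.sub ((hF.2.sub continuousOn_const).pow 2)⟩
  have hre : ∀ z, (H z).re = M ^ 2 - (F z).re ^ 2 + ((F z).im - c) ^ 2 := by
    intro z
    rw [hH]
    simp only [Complex.sub_re, Complex.ofReal_re, sq, Complex.mul_re, Complex.mul_im,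
      Complex.sub_im, Complex.I_re, Complex.I_im, Complex.ofReal_im]
    ring
  have hP := F1_poisson hd h0 h1 y
  have hc' : (F (((1 - rr k : ℝ) : ℂ) * ex y)).im - c = 0 := by rw [hc, IK, sub_self]
  have hge : ∀ s, ((F (ex (y + s))).im - c) ^ 2 ≤ (H (ex (y + s))).re := by
    intro s
    rw [hre]
    have := sq_le_sq' (abs_le.1 (hM (y + s))).1 (abs_le.1 (hM (y + s))).2
    linarith only [this]
  have hcH : Continuous fun s => (1 - (1 - rr k) ^ 2) / ‖ex s - ((1 - rr k : ℝ) : ℂ)‖ ^ 2 *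
      (H (ex (y + s))).re :=
    (F1_cker h0 h1).mul (Complex.continuous_re.comp ((F1_cex hd).comp (by fun_prop)))
  have hnum : rr k ≤ 1 - (1 - rr k) ^ 2 := by linarith only [hk, hk1, mul_nonneg_of_nonpos_of_nonpos (le_of_lt (Mathlib.Tactic.Linarith.sub_neg_of_lt hk)) (Mathlib.Tactic.Linarith.sub_nonpos_of_le hk1)]
  have hA : ∫ s in (-(2 * rr k))..(2 * rr k),
      (1 - (1 - rr k) ^ 2) / ‖ex s - ((1 - rr k : ℝ) : ℂ)‖ ^ 2 * (H (ex (y + s))).re ≤
      2 * π * M ^ 2 := by
    refine (intervalIntegral.integral_mono_interval (c := -π) (d := π) (by linarith only [hk1, hp, hp']) (by linarith only [hk])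
      (by linarith only [hk1, hp, hp']) (Eventually.of_forall fun s => ?_) (hcH.intervalIntegrable _ _)).trans ?_
    · exact mul_nonneg (div_nonneg (by linarith only [hk, hnum]) (sq_nonneg _)) ((sq_nonneg _).trans (hge s))
    · rw [hP, hre, hc']
      refine mul_le_mul_of_nonneg_left ?_ (by positivity)
      linarith only [sq_nonneg (F (((1 - rr k : ℝ) : ℂ) * ex y)).re, sq_nonneg (F (↑((1 : ℝ) - rr k) * ex y)).re]
  have hcs : Continuous fun s => ((F (ex (y + s))).im - c) ^ 2 :=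
    ((Complex.continuous_im.comp ((F1_cex hF).comp (by fun_prop))).sub continuous_const).pow 2
  have hB : ∫ s in (-(2 * rr k))..(2 * rr k), ((F (ex (y + s))).im - c) ^ 2 ≤
      ∫ s in (-(2 * rr k))..(2 * rr k), 9 * rr k *
        ((1 - (1 - rr k) ^ 2) / ‖ex s - ((1 - rr k : ℝ) : ℂ)‖ ^ 2 * (H (ex (y + s))).re) := by
    refine intervalIntegral.integral_mono_on (by linarith only [hk]) (hcs.intervalIntegrable _ _)
      ((continuous_const.mul hcH).intervalIntegrable _ _) fun s hs => ?_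
    have a : ‖ex s - ((1 - rr k : ℝ) : ℂ)‖ ≤ 3 * rr k := by
      have e : ex s - ((1 - rr k : ℝ) : ℂ) = (ex s - 1) + ((rr k : ℝ) : ℂ) := by
        push_cast; ring
      have a1 := norm_add_le (ex s - 1) ((rr k : ℝ) : ℂ)
      rw [← e, Complex.norm_real, Real.norm_eq_abs, abs_of_pos hk] at a1
      have a2 : ‖ex s - 1‖ ≤ |s| := ch_le_abs s
      have a3 : |s| ≤ 2 * rr k := abs_le.2 hs
      linarith only [a1, a2, a3]
    have b := F1_ne h0 h1 s
    have d : 1 ≤ 9 * rr k * ((1 - (1 - rr k) ^ 2) / ‖ex s - ((1 - rr k : ℝ) : ℂ)‖ ^ 2) := by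
      rw [← mul_div_assoc, le_div_iff₀ (by positivity), one_mul]
      have d1 := pow_le_pow_left₀ b.le a 2
      have d2 := mul_le_mul_of_nonneg_left hnum (by positivity : 0 ≤ 9 * rr k)
      linarith only [d1, d2]
    rw [← mul_assoc]
    exact (hge s).trans (le_mul_of_one_le_left ((sq_nonneg _).trans (hge s)) d)
  rw [intervalIntegral.integral_const_mul] at hB
  rw [← hc]
  have hC := mul_le_mul_of_nonneg_left hA (by positivity : 0 ≤ 9 * rr k)
  have hD : 0 ≤ rr k * M ^ 2 := by positivity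
  linarith only [hB, hC, hD, hp', mul_nonneg_of_nonpos_of_nonpos (le_of_lt (Mathlib.Tactic.Linarith.sub_neg_of_lt hp')) (Mathlib.Tactic.Linarith.sub_nonpos_of_le hD)]

theorem MK_L1 (hF : DiffContOnCl ℂ F (ball 0 1)) (hM : ∀ t, |(F (ex t)).re| ≤ M) (y : ℝ) (k : ℕ) :
    ∫ s in (-(2 * rr k))..(2 * rr k), MK F (y + s) k ≤ 100 * rr k * M := by
  have hM0 : 0 ≤ M := (abs_nonneg _).trans (hM 0)
  have hk := rr_pos k
  have hsq := F1_sq hF hM y k
  have hc : Continuous fun s => (F (ex (y + s))).im - IK F y k :=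
    (Complex.continuous_im.comp ((F1_cex hF).comp (by fun_prop))).sub continuous_const
  refine le_of_forall_pos_le_add fun ε hε => ?_
  obtain ⟨t, ht⟩ : ∃ t : ℝ, t = 4 * M + ε / 2 := ⟨_, rfl⟩
  have ht0 : 0 < t := by rw [ht]; positivity
  have hle : ∫ s in (-(2 * rr k))..(2 * rr k), MK F (y + s) k ≤
      ∫ s in (-(2 * rr k))..(2 * rr k),
        ((16 * M + t / 2) + (1 / (2 * t)) * ((F (ex (y + s))).im - IK F y k) ^ 2) := by
    refine intervalIntegral.integral_mono_on (by linarith only [hk])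
      (((continuous_MK hF k).comp (by fun_prop)).intervalIntegrable _ _)
      ((continuous_const.add (continuous_const.mul (hc.pow 2))).intervalIntegrable _ _)
      fun s hs => ?_
    have a := IK_shift hF hM y k (s := s) (abs_le.2 hs)
    obtain ⟨x, hx⟩ : ∃ x : ℝ, x = (F (ex (y + s))).im - IK F y k := ⟨_, rfl⟩
    have b : MK F (y + s) k ≤ |x| + |IK F (y + s) k - IK F y k| := by
      unfold MK
      refine le_trans (le_of_eq ?_) (abs_sub x _)
      rw [hx, sub_sub_sub_cancel_right]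
    have c : |x| ≤ t / 2 + 1 / (2 * t) * x ^ 2 := by
      have e : t / 2 + 1 / (2 * t) * x ^ 2 - |x| = (t - |x|) ^ 2 / (2 * t) := by
        rw [← sq_abs x]
        field_simp
        ring
      have : 0 ≤ (t - |x|) ^ 2 / (2 * t) := by positivity
      linarith only [e, this]
    rw [← hx]
    linarith only [a, b, c]
  have hc2 : Continuous fun s => 1 / (2 * t) * ((F (ex (y + s))).im - IK F y k) ^ 2 :=
    continuous_const.mul (hc.pow 2)
  rw [intervalIntegral.integral_add (by simp) (hc2.intervalIntegrable _ _),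
    intervalIntegral.integral_const,
    intervalIntegral.integral_const_mul, smul_eq_mul] at hle
  have h1 : 1 / (2 * t) * ∫ s in (-(2 * rr k))..(2 * rr k), ((F (ex (y + s))).im - IK F y k) ^ 2 ≤
      1 / (2 * t) * (57 * rr k * M ^ 2) := mul_le_mul_of_nonneg_left hsq (by positivity)
  have h2 : 1 / (2 * t) * (57 * rr k * M ^ 2) ≤ 8 * rr k * M := by
    rw [one_div_mul_eq_div, div_le_iff₀ (by positivity), ht]
    have a : 0 ≤ rr k * M ^ 2 := by positivity
    have b : 0 ≤ rr k * M * ε := by positivity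
    linarith only [a, b]
  have h3 : rr k * ε ≤ ε := by
    have := rr_le_one k
    linarith only [hε, this, mul_nonneg_of_nonpos_of_nonpos (le_of_lt (Mathlib.Tactic.Linarith.sub_neg_of_lt hε)) (Mathlib.Tactic.Linarith.sub_nonpos_of_le this)]
  have h4 : 0 ≤ rr k * M := by positivity
  rw [ht] at hle h1 h2
  linarith only [hle, h1, h2, h3, h4]

end Pool.Agent.Work.MP_af796d_an.H
end

-- merged part: Pool.Agent.Work.MP_af796d_an.H.F2
section
/-!
# Schwarz formula and truncated Hilbert transform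
PLAN.
* schwarz: T w = (1/2π) ∫_{-π}^π H t * (ex t + w)/(ex t - w) dt, H t = Re F (ex t), is holomorphic on the open disc (differentiate under the integral as in differentiableOn_clog,
  or use the library lemmas on herglotzRieszKernel), Re T w = Poisson integral of H = Re F w (DiffContOnCl.circleAverage_poissonKernel_smul, real parts), Im T 0 = 0.
  F - T has zero real part on the disc so it is constant (open mapping or Cauchy-Riemann: the derivative vanishes; compare im_unique in Holo.lean).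
  Alternative without T: by the Cauchy formula F w = avg (F ζ * ζ/(ζ - w)) and F 0 = avg (F ζ /(1 - conj w ζ)) evaluated through the holomorphic function ζ ↦ F ζ/(1 - conj w ζ); conjugate the second and add:
  F w + conj (F 0) = avg (2 H ζ/(ζ - w)), and 2ζ/(ζ - w) = 1 + (ζ + w)/(ζ - w).
  For w = ρ ex y, t = y + s: Im ((ex t + w)/(ex t - w)) = - 2 ρ sin s/((1 - ρ)^2 + ρ ch s^2) (norm_sq_one_sub in Dyadic.lean); shift the period.
* hilb: fold the integral on [0, π] (QK is odd).  r = rr k, ρ = 1 - r.  On [0, r]: 0 ≤ QK ≤ 2 s/r^2, integral ≤ 1.  On [r, π]: 2 lg1 s = 2 sin s / ch s^2, so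
  2 lg1 s - QK ρ s = 2 sin s r^2/(ch^2 (r^2 + ρ ch^2)) and r^2 + ρ ch^2 ≥ ch^2/4 (k = 0: r = 1, ch ≤ 2; k ≥ 1: ρ ≥ 1/2), ch ≥ s/2: at most 128 r^2/s^3, integral ≤ 64.  Total (1/2π) * 2 M * 65 ≤ 21 M.
-/

set_option autoImplicit false

namespace Pool.Agent.Work.MP_af796d_an.H

open MeasureTheory Set Real Metric Filter Topology

/-- conjugate Poisson kernel. -/
noncomputable def QK (ρ s : ℝ) : ℝ := 2 * ρ * Real.sin s / ((1 - ρ) ^ 2 + ρ * ch s ^ 2)

lemma F2_den {ρ : ℝ} (h0 : 0 ≤ ρ) (h1 : ρ < 1) (s : ℝ) : 0 < (1 - ρ) ^ 2 + ρ * ch s ^ 2 :=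
  add_pos_of_pos_of_nonneg (pow_pos (by linarith) 2) (by positivity)

lemma F2_cQ {ρ : ℝ} (h0 : 0 ≤ ρ) (h1 : ρ < 1) : Continuous (QK ρ) := by
  unfold QK
  exact Continuous.div (by fun_prop) (by fun_prop) fun s => (F2_den h0 h1 s).ne'

lemma F2_neg (ρ s : ℝ) : QK ρ (-s) = -QK ρ s := by
  simp only [QK, ch_neg, Real.sin_neg]
  ring

lemma F2_per (ρ : ℝ) : Function.Periodic (QK ρ) (2 * π) := fun s => by
  simp only [QK, ch_periodic s, Real.sin_add_two_pi]

lemma F2_cre {F : ℂ → ℂ} (hF : DiffContOnCl ℂ F (ball 0 1)) :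
    ContinuousOn F (closedBall 0 1) := by
  have := hF.continuousOn
  rwa [closure_ball _ one_ne_zero] at this

lemma F2_cH {F : ℂ → ℂ} (hF : DiffContOnCl ℂ F (ball 0 1)) :
    Continuous fun t => (F (ex t)).re :=
  Complex.continuous_re.comp ((F2_cre hF).comp_continuous continuous_ex ex_mem)

lemma F2_map (t : ℝ) : circleMap 0 1 t = ex t := by
  simp [circleMap, ex, mul_comm]

lemma F2_ker {ρ : ℝ} (y t : ℝ) :
    (herglotzRieszKernel 0 ((ρ : ℂ) * ex y) (ex t)).im = -QK ρ (t - y) := by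
  have e : ex y = ex t * ex (-(t - y)) := by rw [← ex_add]; congr 1; ring
  have e1 : herglotzRieszKernel 0 ((ρ : ℂ) * ex y) (ex t) =
      (1 + (ρ : ℂ) * ex (-(t - y))) / (1 - (ρ : ℂ) * ex (-(t - y))) := by
    rw [herglotzRieszKernel_def, sub_zero, sub_zero, e,
      ← mul_div_mul_left (1 + (ρ : ℂ) * ex (-(t - y))) _ (ex_ne_zero t)]
    congr 1 <;> ring
  have e2 : (ex (-(t - y))).im = -Real.sin (t - y) := by
    rw [ex, mul_comm, Complex.exp_ofReal_mul_I_im, Real.sin_neg]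
  rw [e1, Complex.div_im, Complex.normSq_eq_norm_sq, norm_sq_one_sub, QK]
  simp only [Complex.add_im, Complex.sub_im, Complex.add_re, Complex.sub_re, Complex.one_re,
    Complex.one_im, Complex.mul_im, Complex.mul_re, Complex.ofReal_re, Complex.ofReal_im, e2]
  ring

lemma F2_int {G : ℝ → ℝ} (hG : Function.Periodic G (2 * π)) (y : ℝ) :
    ∫ t in (0 : ℝ)..(2 * π), G t = ∫ s in (-π)..π, G (y + s) := by
  have := hG.intervalIntegral_add_eq 0 (y + -π)
  rw [zero_add, show y + -π + 2 * π = y + π by ring] at this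
  rw [intervalIntegral.integral_comp_add_left, this]

theorem schwarz {F : ℂ → ℂ} (hF : DiffContOnCl ℂ F (ball 0 1)) {ρ : ℝ} (h0 : 0 ≤ ρ) (h1 : ρ < 1)
    (y : ℝ) : (F ((ρ : ℂ) * ex y)).im - (F 0).im =
      -(1 / (2 * π)) * ∫ s in (-π)..π, (F (ex (y + s))).re * QK ρ s := by
  have hc : ContinuousOn F (sphere 0 |(1 : ℝ)|) := by
    rw [abs_one]; exact (F2_cre hF).mono sphere_subset_closedBall
  have hI : CircleIntegrable F 0 1 := by
    rw [abs_one] at hc; exact hc.circleIntegrable zero_le_one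
  have hIr : CircleIntegrable (fun z => (F z).re) 0 1 := by
    rw [abs_one] at hc
    exact (Complex.continuous_re.comp_continuousOn hc).circleIntegrable zero_le_one
  have hIc : CircleIntegrable (fun z => ((F z).re : ℂ)) 0 1 := by
    rw [abs_one] at hc
    exact (Complex.continuous_ofReal.comp_continuousOn
      (Complex.continuous_re.comp_continuousOn hc)).circleIntegrable zero_le_one
  obtain ⟨T, hT⟩ : ∃ T : ℂ → ℂ, T = fun w =>
    circleAverage (fun ζ => herglotzRieszKernel 0 w ζ • ((F ζ).re : ℂ)) 0 1 := ⟨_, rfl⟩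
  have hd : DifferentiableOn ℂ T (ball 0 1) := by
    rw [hT]; exact differentiableOn_circleAverage_herglotzRieszKernel_smul hIc
  have hre : ∀ w ∈ ball (0 : ℂ) 1, (F w).re = (T w).re := fun w hw => by
    rw [hT]
    simp only
    rw [re_circleAverage_herglotzRieszKernel_smul hIr hw,
      ← hF.circleAverage_re_herglotzRieszKernel_smul hw]
    have h2 : CircleIntegrable ((Complex.re ∘ herglotzRieszKernel 0 w) • F) 0 1 :=
      hI.continuousOn_smul (Complex.continuous_re.comp_continuousOn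
        (continuousOn_herglotzRieszKernel_sphere hw))
    refine (Complex.reCLM.circleAverage_comp_comm h2).symm.trans ?_
    congr 1
    ext z
    simp
  have him : ∀ {r : ℝ}, 0 ≤ r → r < 1 → (T ((r : ℂ) * ex y)).im =
      -(1 / (2 * π)) * ∫ s in (-π)..π, (F (ex (y + s))).re * QK r s := fun {r} r0 r1 => by
    have hw : (r : ℂ) * ex y ∈ ball (0 : ℂ) 1 := by
      simpa [norm_ex, abs_of_nonneg r0] using r1
    have h2 : CircleIntegrable
        (fun ζ => herglotzRieszKernel 0 ((r : ℂ) * ex y) ζ • ((F ζ).re : ℂ)) 0 1 :=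
      hIc.continuousOn_smul (continuousOn_herglotzRieszKernel_sphere hw)
    rw [hT]
    refine (Complex.imCLM.circleAverage_comp_comm h2).symm.trans ?_
    have hp : Function.Periodic (fun t => (F (ex t)).re * QK r (t - y)) (2 * π) := fun t => by
      simp only [ex_periodic t]
      rw [show t + 2 * π - y = t - y + 2 * π by ring, F2_per]
    have e := F2_int hp y
    simp only [add_sub_cancel_left] at e
    rw [← e, circleAverage_def, smul_eq_mul, neg_mul, ← mul_neg, one_div,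
      ← intervalIntegral.integral_neg]
    congr 2
    ext t
    simp only [Function.comp, F2_map, Complex.imCLM_apply, smul_eq_mul, Complex.mul_im,
      Complex.ofReal_re, Complex.ofReal_im, F2_ker]
    ring
  have hw : (ρ : ℂ) * ex y ∈ ball (0 : ℂ) 1 := by
    simpa [norm_ex, abs_of_nonneg h0] using h1
  have hu := im_unique (F := T) (g := F) (R := fun z => (F z).re) hd
    (Complex.continuous_re.comp_continuousOn (F2_cre hF)) hre hF (fun _ _ => rfl) _ hw
  have h00 := him le_rfl one_pos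
  simp only [QK, Complex.ofReal_zero, zero_mul, mul_zero, zero_div, intervalIntegral.integral_zero]
    at h00
  rw [← hu, h00, sub_zero, him h0 h1]

lemma F2_near {r s : ℝ} (h0 : 0 < r) (h1 : r ≤ 1) (hs : |s| ≤ r) : |QK (1 - r) s| ≤ 2 / r := by
  have hd := F2_den (ρ := 1 - r) (by linarith) (by linarith) s
  rw [QK, abs_div, abs_of_pos hd, div_le_div_iff₀ hd h0, abs_mul, abs_mul, abs_two,
    abs_of_nonneg (by linarith : 0 ≤ 1 - r), sub_sub_cancel]
  have a1 : |Real.sin s| ≤ r := Real.abs_sin_le_abs.trans hs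
  have a2 : (1 - r) * |Real.sin s| ≤ 1 * r :=
    mul_le_mul (by linarith) a1 (abs_nonneg _) zero_le_one
  have a3 : 0 ≤ (1 - r) * ch s ^ 2 := mul_nonneg (by linarith) (sq_nonneg _)
  linarith only [a3, h0, a2, mul_nonneg_of_nonpos_of_nonpos (le_of_lt (Mathlib.Tactic.Linarith.sub_neg_of_lt h0)) (Mathlib.Tactic.Linarith.sub_nonpos_of_le a2)]

lemma F2_far {r s : ℝ} (h0 : 0 < r) (h1 : r ≤ 1) (hs : 0 < s) (hp : s ≤ π) :
    |2 * lg1 s - QK (1 - r) s| ≤ 64 * r ^ 2 / s ^ 3 := by
  have hd := F2_den (ρ := 1 - r) (by linarith) (by linarith) s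
  have hc : 0 < ch s := ch_pos hs (by linarith [pi_pos])
  have e1 := ch_eq_sin hs.le (by linarith [pi_pos] : s ≤ 2 * π)
  have e2 : Real.sin s = ch s * Real.cos (s / 2) := by
    have := Real.sin_two_mul (s / 2)
    rw [show 2 * (s / 2) = s by ring] at this
    rw [this, e1]
  have e3 : 2 * lg1 s - QK (1 - r) s =
      2 * r ^ 2 * Real.cos (s / 2) / (ch s * (r ^ 2 + (1 - r) * ch s ^ 2)) := by
    rw [sub_sub_cancel] at hd
    rw [lg1, QK, ← e1, e2, sub_sub_cancel]
    generalize hq : r ^ 2 + (1 - r) * ch s ^ 2 = q at hd ⊢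
    field_simp
    rw [← hq]
    ring
  rw [sub_sub_cancel] at hd
  have b1 : ch s ^ 2 / 4 ≤ r ^ 2 + (1 - r) * ch s ^ 2 := by
    have c2 : ch s ^ 2 ≤ 4 := by linarith only [hc, ch_le_two s, mul_nonneg_of_nonpos_of_nonpos (le_of_lt (Mathlib.Tactic.Linarith.sub_neg_of_lt hc)) (Mathlib.Tactic.Linarith.sub_nonpos_of_le (ch_le_two s))]
    rcases le_total r (3 / 4) with h | h
    · linarith only [h, sq_nonneg (ch s), sq_nonneg r, sq_nonneg r, mul_nonneg_of_nonpos_of_nonpos (Mathlib.Tactic.Linarith.sub_nonpos_of_le (sq_nonneg (ch s))) (Mathlib.Tactic.Linarith.sub_nonpos_of_le h)]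
    · linarith only [h1, h0, c2, h, mul_nonneg_of_nonpos_of_nonpos (Mathlib.Tactic.Linarith.sub_nonpos_of_le (sq_nonneg (ch s))) (Mathlib.Tactic.Linarith.sub_nonpos_of_le h1), mul_nonneg_of_nonpos_of_nonpos (le_of_lt (Mathlib.Tactic.Linarith.sub_neg_of_lt h0)) (Mathlib.Tactic.Linarith.sub_nonpos_of_le c2), mul_nonneg_of_nonpos_of_nonpos (Mathlib.Tactic.Linarith.sub_nonpos_of_le h1) (Mathlib.Tactic.Linarith.sub_nonpos_of_le h1), mul_nonneg_of_nonpos_of_nonpos (Mathlib.Tactic.Linarith.sub_nonpos_of_le c2) (Mathlib.Tactic.Linarith.sub_nonpos_of_le h)]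
  have b2 : s / 2 ≤ ch s := by
    have := le_ch' (t := s) (by rwa [abs_of_pos hs])
    rwa [abs_of_pos hs] at this
  have b3 : s ^ 3 / 32 ≤ ch s * (r ^ 2 + (1 - r) * ch s ^ 2) := by
    have c1 : (s / 2) ^ 3 ≤ ch s ^ 3 := pow_le_pow_left₀ (by positivity) b2 3
    have c2 := mul_le_mul_of_nonneg_left b1 hc.le
    linarith only [c1, c2]
  rw [e3, abs_div, abs_of_pos (mul_pos hc hd), abs_mul, abs_of_pos (by positivity : 0 < 2 * r ^ 2)]
  calc 2 * r ^ 2 * |Real.cos (s / 2)| / (ch s * (r ^ 2 + (1 - r) * ch s ^ 2))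
      ≤ 2 * r ^ 2 * 1 / (s ^ 3 / 32) := by
        gcongr
        exact Real.abs_cos_le_one _
    _ = 64 * r ^ 2 / s ^ 3 := by field_simp; ring

lemma F2_cube {r : ℝ} (h0 : 0 < r) (h1 : r ≤ π) : ∫ s in r..π, 64 * r ^ 2 / s ^ 3 ≤ 32 := by
  have hpos : ∀ s ∈ uIcc r π, 0 < s := fun s hs => by
    rw [uIcc_of_le h1] at hs; exact h0.trans_le hs.1
  rw [intervalIntegral.integral_eq_sub_of_hasDerivAt (f := fun s => -32 * r ^ 2 * (s ^ 2)⁻¹)]
  · have : 0 ≤ r ^ 2 * (π ^ 2)⁻¹ := by positivity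
    have e : r ^ 2 * (r ^ 2)⁻¹ = 1 := mul_inv_cancel₀ (by positivity)
    linarith only [this, e]
  · intro s hs
    have hs0 := hpos s hs
    refine (((hasDerivAt_pow 2 s).inv (by positivity)).const_mul (-32 * r ^ 2)).congr_deriv ?_
    field_simp
    norm_num
    ring
  · refine ContinuousOn.intervalIntegrable (ContinuousOn.div (by fun_prop) (by fun_prop) ?_)
    exact fun s hs => (pow_pos (hpos s hs) 3).ne'

theorem hilb {F : ℂ → ℂ} {M : ℝ} (hF : DiffContOnCl ℂ F (ball 0 1))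
    (hM : ∀ t, |(F (ex t)).re| ≤ M) (y : ℝ) (k : ℕ) :
    |IK F y k - (F 0).im + (1 / π) *
      ∫ s in (rr k)..π, ((F (ex (y + s))).re - (F (ex (y - s))).re) * lg1 s| ≤ 21 * M := by
  have r0 := rr_pos k
  have r1 := rr_le_one k
  have p3 := pi_gt_three
  rw [IK, schwarz hF (by linarith) (by linarith) y]
  generalize rr k = r at *
  have rp : r ≤ π := by linarith
  have M0 : 0 ≤ M := (abs_nonneg _).trans (hM 0)
  have cH := F2_cH hF
  have cQ := F2_cQ (ρ := 1 - r) (by linarith) (by linarith)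
  have c1 : Continuous fun s => (F (ex (y + s))).re := cH.comp (by fun_prop)
  have c2 : Continuous fun s => (F (ex (y - s))).re := cH.comp (by fun_prop)
  obtain ⟨D, hD⟩ : ∃ D : ℝ → ℝ, D = fun s => (F (ex (y + s))).re - (F (ex (y - s))).re := ⟨_, rfl⟩
  have cD : Continuous D := by rw [hD]; exact c1.sub c2
  have bD : ∀ s, |D s| ≤ 2 * M := fun s => by
    rw [hD]; exact (abs_sub _ _).trans (by linarith [hM (y + s), hM (y - s)])
  have eD : ∀ s, (F (ex (y + s))).re - (F (ex (y - s))).re = D s := fun s => by rw [hD]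
  simp only [eD]
  have f1 : ∫ s in (-π)..π, (F (ex (y + s))).re * QK (1 - r) s =
      ∫ s in (0 : ℝ)..π, D s * QK (1 - r) s := by
    have c3 : Continuous fun s => (F (ex (y + s))).re * QK (1 - r) s := c1.mul cQ
    have c4 : Continuous fun s => (F (ex (y + -s))).re * QK (1 - r) (-s) :=
      c3.comp continuous_neg
    rw [← intervalIntegral.integral_add_adjacent_intervals (b := 0)
      (c3.intervalIntegrable _ _) (c3.intervalIntegrable _ _)]
    have g1 := intervalIntegral.integral_comp_neg (a := 0) (b := π)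
      (fun s => (F (ex (y + s))).re * QK (1 - r) s)
    rw [neg_zero] at g1
    rw [← g1, ← intervalIntegral.integral_add (c4.intervalIntegrable _ _)
      (c3.intervalIntegrable _ _)]
    congr 1
    ext s
    simp only [F2_neg, ← eD, ← sub_eq_add_neg]
    ring
  have cl : ContinuousOn lg1 (uIcc r π) := by
    rw [uIcc_of_le rp]
    exact fun s hs => ContinuousAt.continuousWithinAt (by
      have := Tools1_sin_ne (ch_pos (r0.trans_le hs.1) (by linarith [hs.2])).ne'
      unfold lg1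
      exact ContinuousAt.div (by fun_prop) (by fun_prop) (mul_ne_zero two_ne_zero this))
  have i1 : IntervalIntegrable (fun s => D s * lg1 s) volume r π :=
    (cD.continuousOn.mul cl).intervalIntegrable
  have i2 : ∀ a c, IntervalIntegrable (fun s => D s * QK (1 - r) s) volume a c :=
    fun a c => (cD.mul cQ).intervalIntegrable _ _
  have f2 : ∫ s in r..π, D s * (2 * lg1 s - QK (1 - r) s) =
      2 * (∫ s in r..π, D s * lg1 s) - ∫ s in r..π, D s * QK (1 - r) s := by
    rw [← intervalIntegral.integral_const_mul, ← intervalIntegral.integral_sub (i1.const_mul _)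
      (i2 _ _)]
    congr 1
    ext s
    ring
  have b1 : |∫ s in (0 : ℝ)..r, D s * QK (1 - r) s| ≤ 4 * M := by
    have := intervalIntegral.norm_integral_le_of_norm_le_const (a := 0) (b := r)
      (f := fun s => D s * QK (1 - r) s) (C := 2 * M * (2 / r)) (fun s hs => by
        rw [uIoc_of_le r0.le] at hs
        rw [Real.norm_eq_abs, abs_mul]
        exact mul_le_mul (bD s) (F2_near r0 r1 (by rw [abs_of_pos hs.1]; exact hs.2))
          (abs_nonneg _) (by positivity))
    rw [Real.norm_eq_abs, sub_zero, abs_of_pos r0] at this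
    refine this.trans (le_of_eq ?_)
    field_simp
    ring
  have b2 : |∫ s in r..π, D s * (2 * lg1 s - QK (1 - r) s)| ≤ 64 * M := by
    have i3 : IntervalIntegrable (fun s : ℝ => 64 * r ^ 2 / s ^ 3) volume r π := by
      refine ContinuousOn.intervalIntegrable (ContinuousOn.div (by fun_prop) (by fun_prop) ?_)
      rw [uIcc_of_le rp]
      exact fun s hs => (pow_pos (r0.trans_le hs.1) 3).ne'
    have := intervalIntegral.norm_integral_le_of_norm_le (a := r) (b := π) (μ := volume) rp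
      (f := fun s => D s * (2 * lg1 s - QK (1 - r) s))
      (g := fun s => 2 * M * (64 * r ^ 2 / s ^ 3)) (Eventually.of_forall fun s hs => by
        rw [Real.norm_eq_abs, abs_mul]
        exact mul_le_mul (bD s) (F2_far r0 r1 (r0.trans hs.1) hs.2)
          (abs_nonneg _) (by positivity)) (i3.const_mul _)
    rw [Real.norm_eq_abs, intervalIntegral.integral_const_mul] at this
    have h3 := mul_le_mul_of_nonneg_left (F2_cube r0 rp) (by positivity : 0 ≤ 2 * M)
    linarith only [this, h3]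
  rw [f1, ← intervalIntegral.integral_add_adjacent_intervals (i2 0 r) (i2 r π)]
  rw [f2] at b2
  generalize (∫ s in (0 : ℝ)..r, D s * QK (1 - r) s) = A at *
  generalize (∫ s in r..π, D s * QK (1 - r) s) = B at *
  generalize (∫ s in r..π, D s * lg1 s) = E at *
  have e : -(1 / (2 * π)) * (A + B) + 1 / π * E = ((2 * E - B) - A) / (2 * π) := by
    field_simp
    ring
  rw [e, abs_div, abs_of_pos (by positivity : 0 < 2 * π), div_le_iff₀ (by positivity)]
  have := abs_sub (2 * E - B) A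
  linarith only [M0, b1, b2, this, p3, mul_nonneg_of_nonpos_of_nonpos (le_of_lt (Mathlib.Tactic.Linarith.sub_neg_of_lt p3)) (Mathlib.Tactic.Linarith.sub_nonpos_of_le M0)]

end Pool.Agent.Work.MP_af796d_an.H
end

-- merged part: Pool.Agent.Work.MP_af796d_an.H.PairL
section
/-!
# Conjugate functions of localised functions
PLAN.
* lip_conj: subtract log r * ∫ χ = 0.  For 0 < |ξ| ≤ 3 r ≤ 3: |lg ξ - log r| ≤ |log (ξ/r)| + log 2 (le_ch', ch_le_abs); ∫_{-r}^{r} |log ((s - x)/r)| ds ≤ r L1 (L1 in Mod2.lean).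
* pair_lemma: r = rr j.  The integrand vanishes for |s| > r and [-r, r] ⊆ [x - π, x + π] (3 r ≤ π), so integrate over [x - π, x + π].  Integrability: lg * bounded measurable, and FH.iJ times the bounded continuous m.
  m' H + m H' = m x * H' + N', N s = (m s - m x) H s, N' = m' H + (m - m x) H' (prim_mul), |N s| ≤ L M |s - x|/r^2.  The first part is m x * (Im F (ex x) - Im F 0) by FH.cj.
  For the second use ibp with lg (s - x) on [x + ε, x + π] and [x - π, x - ε] (prim_of_deriv, hasDerivAt_lg); the boundary terms at x ± π cancel (m = 0 there, H periodic, lg even), those at x ± ε are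
  O(ε |lg ε|) → 0, and the integrals over [x - ε, x + ε] tend to 0 by integrability.  So it equals - ∫ lg1 t * N (x + t) dt over [-π, π] (bounded integrand).
  |t| ≤ r: at most 4 L M/r.  |t| > r: the part m H gives at most (2/r)(L/r)(2 r) M, and the part - m x H gives m x * ∫_r^π (H (x+s) - H (x-s)) lg1 s, which is - π m x (IK F x j - Im F 0) up to 21 π M |m x| by hilb.
-/

set_option autoImplicit false

namespace Pool.Agent.Work.MP_af796d_an.H

open MeasureTheory Set Real Metric Filter Topology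

lemma PairL_supp {f : ℝ → ℝ} {r a b : ℝ} (hr : 0 ≤ r) (ha : a ≤ -r) (hb : r ≤ b)
    (hf : ∀ s, r < |s| → f s = 0) : ∫ s in a..b, f s = ∫ s, f s := by
  rw [intervalIntegral.integral_of_le (by linarith), ← integral_Icc_eq_integral_Ioc]
  refine setIntegral_eq_integral_of_forall_compl_eq_zero fun s hs => hf s (lt_of_not_ge fun k => ?_)
  exact hs ⟨ha.trans (abs_le.1 k).1, (abs_le.1 k).2.trans hb⟩

lemma PairL_mul {f g : ℝ → ℝ} {a b B : ℝ} (hf : IntervalIntegrable f volume a b)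
    (hg : Measurable g) (hB : ∀ t, |g t| ≤ B) : IntervalIntegrable (fun t => f t * g t) volume a b :=
  ⟨hf.1.mul_bdd hg.aestronglyMeasurable (Eventually.of_forall hB),
    hf.2.mul_bdd hg.aestronglyMeasurable (Eventually.of_forall hB)⟩

lemma PairL_lg {ξ r : ℝ} (hr : 0 < r) (h0 : ξ ≠ 0) (h1 : |ξ| ≤ π) :
    |lg ξ - Real.log r| ≤ |Real.log (ξ / r)| + 1 := by
  have a0 : 0 < |ξ| := abs_pos.2 h0
  have a1 := Real.log_le_log (by positivity) (le_ch' h1)
  have a2 := Real.log_le_log ((half_pos a0).trans_le (le_ch' h1)) (ch_le_abs ξ)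
  rw [Real.log_div a0.ne' two_ne_zero, Real.log_abs] at a1
  rw [Real.log_abs] at a2
  rw [Real.log_div h0 hr.ne', lg, abs_le]
  have a3 := Real.log_le_sub_one_of_pos (x := 2) two_pos
  constructor <;> linarith only [a1, a3, a2, le_abs_self (Real.log ξ - Real.log r), neg_abs_le (Real.log ξ - Real.log r)]

theorem lip_conj : ∃ K : ℝ, 0 ≤ K ∧ ∀ (χ : ℝ → ℝ) (r L x : ℝ), 0 < r → r ≤ 1 → |x| ≤ 2 * r →
    Measurable χ → (∀ s, |χ s| ≤ L) → (∀ s, r < |s| → χ s = 0) → ∫ s in (-π)..π, χ s = 0 →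
    |∫ s in (-π)..π, lg (s - x) * χ s| ≤ K * L * r := by
  refine ⟨L1 + 2, by linarith [L1_nonneg], fun χ r L x hr hr1 hx hm hL hz h0 => ?_⟩
  have p := pi_gt_three
  have L0 : 0 ≤ L := (abs_nonneg _).trans (hL 0)
  have hx' := abs_le.1 hx
  have il : ∀ a b, IntervalIntegrable (fun x => |Real.log x|) volume a b := fun a b =>
    intervalIntegral.intervalIntegrable_log'.abs
  have il2 : IntervalIntegrable (fun t => |Real.log ((t - x) / r)|) volume (-r) r := by
    have := ((il (r⁻¹ * (-r - x)) (r⁻¹ * (r - x))).comp_mul_left (c := r⁻¹)).comp_sub_right x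
    simp only [mul_div_cancel_left₀ _ (inv_ne_zero hr.ne'), sub_add_cancel] at this
    simpa only [div_eq_inv_mul] using this
  have e : ∫ s in (-π)..π, lg (s - x) * χ s = ∫ s in (-r)..r, (lg (s - x) - Real.log r) * χ s := by
    have z : ∀ s, r < |s| → (lg (s - x) - Real.log r) * χ s = 0 := fun s k => by
      rw [hz s k, mul_zero]
    rw [PairL_supp hr.le le_rfl le_rfl z, ← PairL_supp (a := -π) (b := π) hr.le (by linarith only [hr1, p])
      (by linarith) z]
    simp only [sub_mul]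
    rw [intervalIntegral.integral_sub (PairL_mul (intervalIntegrable_lg_sub x _ _) hm hL)
      ((bdd_intervalIntegrable hm hL _ _).const_mul _), intervalIntegral.integral_const_mul, h0,
      mul_zero, sub_zero]
  rw [e, ← Real.norm_eq_abs]
  refine (intervalIntegral.norm_integral_le_of_norm_le (by linarith) ?_
    ((il2.add (intervalIntegrable_const (c := 1))).mul_const L)).trans ?_
  · filter_upwards [(countable_singleton x).ae_notMem volume] with t htx ht
    rw [norm_mul]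
    exact mul_le_mul (PairL_lg hr (sub_ne_zero.2 htx)
      (abs_le.2 ⟨by linarith [ht.1], by linarith [ht.2]⟩)) (hL t) (norm_nonneg _) (by positivity)
  · rw [intervalIntegral.integral_mul_const, intervalIntegral.integral_add il2
      intervalIntegrable_const, intervalIntegral.integral_comp_sub_right
        (fun t => |Real.log (t / r)|) x, intervalIntegral.integral_comp_div
        (fun t => |Real.log t|) hr.ne', intervalIntegral.integral_const, smul_eq_mul, smul_eq_mul]
    have : ∫ t in (-r - x) / r..(r - x) / r, |Real.log t| ≤ L1 :=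
      intervalIntegral.integral_mono_interval (by rw [le_div_iff₀ hr]; linarith)
        (div_le_div_of_nonneg_right (by linarith) hr.le) (by rw [div_le_iff₀ hr]; linarith)
        (Eventually.of_forall fun _ => abs_nonneg _) (il _ _)
    linarith only [this, hr, L0, mul_le_mul_of_nonneg_left this (mul_nonneg hr.le L0)]

lemma PairL_fold {f : ℝ → ℝ} (hf : ∀ a c, IntervalIntegrable f volume a c) (t : ℝ) :
    IntervalIntegrable (fun s => f s + f (-s)) volume 0 t ∧
      ∫ s in (-t)..t, f s = ∫ s in (0 : ℝ)..t, (f s + f (-s)) := by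
  have k : IntervalIntegrable (fun s => f (-s)) volume 0 t := by
    simpa using (IntervalIntegrable.iff_comp_neg (by finiteness)).1 (hf 0 (-t))
  refine ⟨(hf 0 t).add k, ?_⟩
  rw [intervalIntegral.integral_add (hf 0 t) k, intervalIntegral.integral_comp_neg, neg_zero,
    add_comm, intervalIntegral.integral_add_adjacent_intervals (hf _ _) (hf _ _)]

lemma PairL_lg1 {t : ℝ} (h0 : 0 < t) (h1 : t ≤ π) : |lg1 t| ≤ 2 / t := by
  have := le_ch' (t := t) (by rwa [abs_of_pos h0])
  rw [abs_of_pos h0] at this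
  refine (abs_lg1_le t).trans ((one_div_le_one_div_of_le (half_pos h0) this).trans (le_of_eq ?_))
  field_simp

lemma PairL_cont {a : ℝ} (ha : 0 < a) : ContinuousOn lg1 (Icc a π) := by
  unfold lg1
  refine ContinuousOn.div (by fun_prop) (by fun_prop) fun t ht => mul_ne_zero two_ne_zero
    (Tools1_sin_ne (ch_pos (ha.trans_le ht.1) (by linarith [ht.2, pi_pos])).ne')

/-- integration by parts up to the singularity. -/
lemma PairL_ibp {N n : ℝ → ℝ} {C : ℝ} (hn : IntervalIntegrable n volume 0 π)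
    (hN : ∀ t ∈ Icc 0 π, N t = ∫ s in (0 : ℝ)..t, n s) (hm : Measurable N)
    (hC : ∀ t ∈ Icc 0 π, |N t| ≤ C * t)
    (hl : IntervalIntegrable (fun s => lg s * n s) volume 0 π) :
    IntervalIntegrable (fun s => lg1 s * N s) volume 0 π ∧
      (∫ s in (0 : ℝ)..π, lg1 s * N s) + ∫ s in (0 : ℝ)..π, lg s * n s = lg π * N π := by
  have p := pi_pos
  have i1 : IntervalIntegrable (fun s => lg1 s * N s) volume 0 π := by
    refine IntervalIntegrable.mono_fun' (g := fun _ => 2 * C) intervalIntegrable_const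
      (measurable_lg1.mul hm).aestronglyMeasurable ?_
    rw [uIoc_of_le p.le]
    filter_upwards [ae_restrict_mem measurableSet_Ioc] with t ht
    rw [norm_mul]
    refine (mul_le_mul (PairL_lg1 ht.1 ht.2) (hC t ⟨ht.1.le, ht.2⟩) (abs_nonneg _)
      (div_nonneg zero_le_two ht.1.le)).trans (le_of_eq ?_)
    field_simp [ht.1.ne']
  refine ⟨i1, ?_⟩
  have mem : Ioc 0 π ∈ 𝓝[>] (0 : ℝ) := Ioc_mem_nhdsGT p
  have c : ∀ {f : ℝ → ℝ}, IntervalIntegrable f volume 0 π →
      Tendsto (fun ε => ∫ s in ε..π, f s) (𝓝[>] 0) (𝓝 (∫ s in (0 : ℝ)..π, f s)) := fun hf => by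
    have := intervalIntegral.continuousOn_primitive_interval_left
      ((intervalIntegrable_iff' (by finiteness)).1 hf) 0 left_mem_uIcc
    rw [uIcc_of_le p.le] at this
    exact this.tendsto.mono_left (nhdsWithin_le_iff.2 (mem_of_superset mem Ioc_subset_Icc_self) |>
      fun k => le_inf nhdsWithin_le_nhds (k.trans inf_le_right))
  have t0 : Tendsto (fun ε => lg ε * N ε) (𝓝[>] 0) (𝓝 0) := by
    have a1 : Continuous fun ε : ℝ => C * (|ε * Real.log ε| + ε) :=
      continuous_const.mul (Real.continuous_mul_log.abs.add continuous_id)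
    have a2 := (a1.tendsto 0).mono_left (nhdsWithin_le_nhds (s := Ioi 0))
    simp only [zero_mul, abs_zero, add_zero, mul_zero] at a2
    refine squeeze_zero_norm' ?_ a2
    filter_upwards [mem] with t ht
    have a3 := PairL_lg one_pos ht.1.ne' (by rw [abs_of_pos ht.1]; exact ht.2)
    rw [Real.log_one, sub_zero, div_one] at a3
    rw [norm_mul, abs_mul, abs_of_pos ht.1]
    refine (mul_le_mul a3 (hC t ⟨ht.1.le, ht.2⟩) (abs_nonneg _) (by positivity)).trans (le_of_eq ?_)
    ring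
  have t1 := (tendsto_const_nhds (x := lg π * N π)).sub t0
  rw [sub_zero] at t1
  refine tendsto_nhds_unique ((c i1).add (c hl)) (t1.congr' ?_)
  filter_upwards [mem] with ε hε
  have s1 : uIcc ε π ⊆ uIcc 0 π := by
    rw [uIcc_of_le hε.2, uIcc_of_le p.le]
    exact Icc_subset_Icc hε.1.le le_rfl
  obtain ⟨k1, k2⟩ := prim_of_deriv hε.2 (fun t ht => hasDerivAt_lg
    (ch_pos (hε.1.trans_le ht.1) (by linarith [ht.2])).ne') (PairL_cont hε.1)
  refine ((ibp hε.2 k1 (hn.mono_set s1) k2 fun t ht => ?_).2.2).symm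
  have s2 : ∀ a ∈ Icc 0 π, ∀ b ∈ Icc 0 π, IntervalIntegrable n volume a b := fun a ha b hb =>
    hn.mono_set (by rw [uIcc_of_le p.le]; exact uIcc_subset_Icc ha hb)
  have m1 : ε ∈ Icc 0 π := ⟨hε.1.le, hε.2⟩
  have m2 : t ∈ Icc 0 π := ⟨hε.1.le.trans ht.1, ht.2⟩
  rw [hN t m2, hN ε m1, intervalIntegral.integral_add_adjacent_intervals
    (s2 0 ⟨le_rfl, p.le⟩ ε m1) (s2 ε m1 t m2)]

lemma PairL_prim {m m' : ℝ → ℝ} (ii : ∀ a c, IntervalIntegrable m' volume a c)
    (pm : ∀ a c, m c - m a = ∫ t in a..c, m' t) : Continuous m := by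
  have : m = fun c => m 0 + ∫ t in (0 : ℝ)..c, m' t := funext fun c => by rw [← pm 0 c]; ring
  rw [this]
  exact continuous_const.add (intervalIntegral.continuous_primitive ii 0)

lemma PairL_core {H H' m m' : ℝ → ℝ} {M L r : ℝ} (hr : 0 < r) (hr1 : r ≤ 1) (hH : ∀ s, |H s| ≤ M)
    (ii : ∀ a c, IntervalIntegrable H' volume a c) (prim : ∀ a c, H c - H a = ∫ t in a..c, H' t)
    (hp : H π = H (-π)) (iJ : ∀ a c, IntervalIntegrable (fun s => lg s * H' s) volume a c)
    (hm : Measurable m') (b' : ∀ s, |m' s| ≤ L / r ^ 2) (pm : ∀ a c, m c - m a = ∫ t in a..c, m' t)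
    (b : ∀ s, |m s| ≤ L / r) (z : ∀ s, 3 * r ≤ |s| → m s = 0) :
    |(∫ s in (-π)..π, lg s * (m' s * H s + m s * H' s)) - m 0 * ((∫ s in (-π)..π, lg s * H' s) +
      ∫ s in r..π, (H s - H (-s)) * lg1 s)| ≤ 12 * (L / r * M) := by
  have p := pi_gt_three
  have M0 : 0 ≤ M := (abs_nonneg _).trans (hH 0)
  have L0 : 0 ≤ L / r := (abs_nonneg _).trans (b 0)
  have L2 : 0 ≤ L / r ^ 2 := (abs_nonneg _).trans (b' 0)
  have im := bdd_intervalIntegrable hm b'
  have cH := PairL_prim ii prim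
  have cm := PairL_prim im pm
  have j1 : ∀ a c, IntervalIntegrable (fun s => lg s * (m' s * H s)) volume a c := fun a c => by
    simpa only [mul_assoc] using PairL_mul (PairL_mul (intervalIntegrable_lg a c) hm b')
      cH.measurable hH
  have j2 : ∀ a c, IntervalIntegrable (fun s => lg s * (m' s * H s + (m s - m 0) * H' s))
      volume a c := fun a c => by
    refine ((j1 a c).add ((iJ a c).continuousOn_mul (g := fun s => m s - m 0)
      (by fun_prop))).congr fun s _ => ?_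
    ring
  have j3 : ∀ a c, IntervalIntegrable (fun s => m' s * H s + (m s - m 0) * H' s) volume a c :=
    fun a c => ((im a c).mul_continuousOn cH.continuousOn).add
      ((ii a c).continuousOn_mul (cm.sub continuous_const).continuousOn)
  have e1 : ∫ s in (-π)..π, lg s * (m' s * H s + m s * H' s) =
      (∫ s in (-π)..π, lg s * (m' s * H s + (m s - m 0) * H' s)) +
        m 0 * ∫ s in (-π)..π, lg s * H' s := by
    rw [← intervalIntegral.integral_const_mul,
      ← intervalIntegral.integral_add (j2 _ _) ((iJ _ _).const_mul _)]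
    exact intervalIntegral.integral_congr fun s _ => by ring
  have lip : ∀ t, |(m t - m 0) * H t| ≤ L / r ^ 2 * M * |t| := fun t => by
    have := intervalIntegral.norm_integral_le_of_norm_le_const (a := 0) (b := t) (f := m')
      fun s _ => b' s
    rw [← pm, sub_zero] at this
    rw [abs_mul, mul_right_comm]
    exact mul_le_mul this (hH t) (abs_nonneg _) (by positivity)
  have bN : ∀ t, 0 ≤ t → |(m t - m 0) * H t - (m (-t) - m 0) * H (-t)| ≤ 2 * (L / r ^ 2 * M) * t :=
    fun t ht => by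
      have a1 := lip t
      have a2 := lip (-t)
      rw [abs_neg] at a2
      rw [abs_of_nonneg ht] at a1 a2
      linarith only [a1, a2, abs_sub ((m t - m 0) * H t) ((m (-t) - m 0) * H (-t))]
  obtain ⟨f1, f2⟩ := PairL_fold j2 π
  simp only [lg_neg, ← mul_add] at f1 f2
  obtain ⟨k1, k2⟩ := PairL_ibp (N := fun t => (m t - m 0) * H t - (m (-t) - m 0) * H (-t))
    (PairL_fold j3 π).1 (fun t ht => by
      rw [← (PairL_fold j3 t).2]
      have := (prim_mul (F := fun s => m s - m 0) (a := -t) (b := t) (by linarith only [ht, ht.1]) (im _ _)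
        (ii _ _) (fun s _ => by rw [← pm]; ring) (fun s _ => by rw [← prim]; ring)).2 t
        ⟨by linarith [ht.1], le_rfl⟩
      linarith only [this]) (by fun_prop) (fun t ht => bN t ht.1) f1
  rw [z π (by rw [abs_of_pos pi_pos]; linarith only [hr1, p]), z (-π) (by rw [abs_neg, abs_of_pos pi_pos]; linarith only [hr1, p]),
    hp, sub_self, mul_zero, ← f2] at k2
  have sub : ∀ a ∈ Icc 0 π, ∀ c ∈ Icc 0 π, IntervalIntegrable
      (fun s => lg1 s * ((m s - m 0) * H s - (m (-s) - m 0) * H (-s))) volume a c :=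
    fun a ha c hc => k1.mono_set (by rw [uIcc_of_le pi_pos.le]; exact uIcc_subset_Icc ha hc)
  have ic : ∀ {g : ℝ → ℝ}, Continuous g → ∀ a ∈ Icc r π, ∀ c ∈ Icc r π,
      IntervalIntegrable (fun s => lg1 s * g s) volume a c := fun hg a ha c hc =>
    (((PairL_cont hr).mono (uIcc_subset_Icc ha hc)).mul hg.continuousOn).intervalIntegrable
  have r1 : r ∈ Icc r π := ⟨le_rfl, by linarith only [hr1, p]⟩
  have r3 : 3 * r ∈ Icc r π := ⟨by linarith only [hr], by linarith only [hr1, p]⟩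
  have r4 : π ∈ Icc r π := ⟨by linarith only [hr1, p], le_rfl⟩
  have cA : Continuous fun s => m s * H s - m (-s) * H (-s) := by fun_prop
  have cB : Continuous fun s => H s - H (-s) := by fun_prop
  have e2 : ∫ s in r..π, lg1 s * ((m s - m 0) * H s - (m (-s) - m 0) * H (-s)) =
      (∫ s in r..3 * r, lg1 s * (m s * H s - m (-s) * H (-s))) -
        m 0 * ∫ s in r..π, (H s - H (-s)) * lg1 s := by
    have a1 : ∫ s in 3 * r..π, lg1 s * (m s * H s - m (-s) * H (-s)) = 0 := by
      rw [← intervalIntegral.integral_zero (a := 3 * r) (b := π) (μ := volume)]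
      refine intervalIntegral.integral_congr fun s hs => ?_
      rw [uIcc_of_le r3.2] at hs
      have : 3 * r ≤ |s| := hs.1.trans (le_abs_self s)
      simp only [z s this, z (-s) (by rwa [abs_neg]), zero_mul, sub_zero, mul_zero]
    have a2 := intervalIntegral.integral_add_adjacent_intervals (ic cA _ r1 _ r3) (ic cA _ r3 _ r4)
    rw [a1, add_zero] at a2
    rw [a2, ← intervalIntegral.integral_const_mul,
      ← intervalIntegral.integral_sub (ic cA _ r1 _ r4)
        (((ic cB _ r1 _ r4).const_mul (m 0)).congr fun s _ => by ring)]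
    exact intervalIntegral.integral_congr fun s _ => by ring
  rw [← intervalIntegral.integral_add_adjacent_intervals
    (sub 0 ⟨le_rfl, pi_pos.le⟩ r ⟨hr.le, r1.2⟩) (sub r ⟨hr.le, r1.2⟩ π ⟨pi_pos.le, le_rfl⟩), e2] at k2
  have n1 := intervalIntegral.norm_integral_le_of_norm_le_const (a := 0) (b := r)
    (C := 4 * (L / r ^ 2 * M))
    (f := fun s => lg1 s * ((m s - m 0) * H s - (m (-s) - m 0) * H (-s))) fun t ht => by
      rw [uIoc_of_le hr.le] at ht
      rw [norm_mul]
      refine (mul_le_mul (PairL_lg1 ht.1 (ht.2.trans r1.2)) (bN t ht.1.le) (abs_nonneg _)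
        (div_nonneg zero_le_two ht.1.le)).trans (le_of_eq ?_)
      field_simp [ht.1.ne']
      ring
  have n2 := intervalIntegral.norm_integral_le_of_norm_le_const (a := r) (b := 3 * r)
    (C := 2 / r * (2 * (L / r * M)))
    (f := fun s => lg1 s * (m s * H s - m (-s) * H (-s))) fun t ht => by
      rw [uIoc_of_le r3.1] at ht
      rw [norm_mul]
      refine mul_le_mul ((PairL_lg1 (hr.trans ht.1) (ht.2.trans r3.2)).trans
        (div_le_div_of_nonneg_left zero_le_two hr ht.1.le)) ((abs_sub _ _).trans ?_)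
        (norm_nonneg _) (by positivity)
      rw [abs_mul, abs_mul]
      linarith only [b, hH, L0, mul_le_mul (b t) (hH t) (abs_nonneg _) L0,
        mul_le_mul (b (-t)) (hH (-t)) (abs_nonneg _) L0]
  rw [sub_zero, abs_of_pos hr, show 4 * (L / r ^ 2 * M) * r = 4 * (L / r * M) by field_simp,
    Real.norm_eq_abs, abs_le] at n1
  rw [show 3 * r - r = 2 * r by ring, abs_of_pos (by positivity : 0 < 2 * r),
    show 2 / r * (2 * (L / r * M)) * (2 * r) = 8 * (L / r * M) by field_simp; ring,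
    Real.norm_eq_abs, abs_le] at n2
  rw [e1, abs_le]
  constructor <;> linarith only [k2, n1, n2, n1.1, n1.2, n2.1, n2.2]

theorem pair_lemma : ∃ K : ℝ, 0 ≤ K ∧ ∀ (F : ℂ → ℂ) (H H' m m' : ℝ → ℝ) (M L x : ℝ) (j : ℕ),
    FH F H H' M → Measurable m' → (∀ s, |m' s| ≤ L / rr j ^ 2) →
    (∀ a c, m c - m a = ∫ t in a..c, m' t) → (∀ s, |m s| ≤ L / rr j) →
    (∀ s, rr j ≤ |s| → m s = 0) → (∀ s, rr j < |s| → m' s = 0) → |x| ≤ 2 * rr j →
    |(1 / π) * ∫ s in (-π)..π, lg (s - x) * (m' s * H s + m s * H' s)| ≤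
      L / rr j * (MK F x j + K * M) := by
  refine ⟨33, by norm_num, fun F H H' m m' M L x j hF hm b' pm b z z' hx => ?_⟩
  have p := pi_gt_three
  have hr := rr_pos j
  have hr1 := rr_le_one j
  have hx' := abs_le.1 hx
  have M0 : 0 ≤ M := (abs_nonneg _).trans (hF.bd 0)
  have L0 : 0 ≤ L / rr j := (abs_nonneg _).trans (b 0)
  have sh : ∀ {f : ℝ → ℝ}, (∀ a c, IntervalIntegrable f volume a c) → ∀ a c,
      IntervalIntegrable (fun t => f (x + t)) volume a c := fun hf a c => by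
    simpa using (hf (x + a) (x + c)).comp_add_left x
  have k := PairL_core (H := fun t => H (x + t)) (H' := fun t => H' (x + t))
    (m := fun t => m (x + t)) (m' := fun t => m' (x + t)) hr hr1 (fun _ => hF.bd _) (sh hF.ii)
    (fun a c => by rw [intervalIntegral.integral_comp_add_left H' x, ← hF.prim])
    (by
      show H (x + π) = H (x + -π)
      rw [hF.re, hF.re, ← ex_periodic (x + -π), show x + -π + 2 * π = x + π by ring])
    (fun a c => by simpa using sh (hF.iJ x) a c) (hm.comp (measurable_const_add x))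
    (fun _ => b' _) (fun a c => by rw [intervalIntegral.integral_comp_add_left m' x, ← pm])
    (fun _ => b _) fun s hs => z _ (by
      have := abs_sub (x + s) x
      rw [add_sub_cancel_left] at this
      linarith)
  have e : ∫ s in (-π)..π, lg (s - x) * (m' s * H s + m s * H' s) =
      ∫ s in (-π)..π, lg s * (m' (x + s) * H (x + s) + m (x + s) * H' (x + s)) := by
    have zz : ∀ s, rr j < |s| → lg (s - x) * (m' s * H s + m s * H' s) = 0 := fun s hs => by
      rw [z s hs.le, z' s hs, zero_mul, zero_mul, add_zero, mul_zero]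
    rw [PairL_supp hr.le (by linarith only [p, hr1]) (by linarith) zz, ← PairL_supp (a := x + -π) (b := x + π)
      hr.le (by linarith) (by linarith) zz, ← intervalIntegral.integral_comp_add_left
        (fun s => lg (s - x) * (m' s * H s + m s * H' s)) x]
    simp only [add_sub_cancel_left]
  have h1 := hilb hF.dc (fun t => hF.re t ▸ hF.bd t) x j
  simp only [← hF.re] at h1
  have h2 := hF.cj x
  simp only [add_zero, ← sub_eq_add_neg] at k
  rw [e]
  generalize ∫ s in (-π)..π, lg s * (m' (x + s) * H (x + s) + m (x + s) * H' (x + s)) = I at k ⊢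
  generalize ∫ s in (-π)..π, lg s * H' (x + s) = A at k h2
  generalize ∫ s in (rr j)..π, (H (x + s) - H (x - s)) * lg1 s = B at k h1
  have h3 : |1 / π * (A + B)| ≤ MK F x j + 21 * M := by
    rw [mul_add, h2, show (F (ex x)).im - (F 0).im + 1 / π * B = ((F (ex x)).im - IK F x j) +
      (IK F x j - (F 0).im + 1 / π * B) by ring]
    exact (abs_add_le _ _).trans (add_le_add le_rfl h1)
  have h4 : |1 / π * (I - m x * (A + B))| ≤ 12 * (L / rr j * M) := by
    rw [abs_mul, abs_of_pos (by positivity : 0 < 1 / π)]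
    exact (mul_le_of_le_one_left (abs_nonneg _) ((div_le_one pi_pos).2 (by linarith only [p]))).trans k
  rw [show 1 / π * I = 1 / π * (I - m x * (A + B)) + m x * (1 / π * (A + B)) by ring]
  refine (abs_add_le _ _).trans ?_
  rw [abs_mul (m x)]
  linarith only [h4, b, h3, L0, mul_le_mul (b x) h3 (abs_nonneg _) L0]

end Pool.Agent.Work.MP_af796d_an.H
end

-- merged part: Pool.Agent.Work.MP_af796d_an.H.JB
section
/-!
# The near terms in intrinsic form
PLAN.  r = rr j, V1 = sd v y 1, V2 = sd v y (-1).  oscI V p q ≤ 2 ∫_p^q |V - a| for every constant a (oscI_le), and ∫ of |V - a| is monotone in the interval.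
* a1_le_ah: [y + r/8, y + 2r] ⊆ [z + r/16, z + 3r] and the mirror image; write all integrals in the variable t = y + ρ (or y - ρ).
* ah_sum: vd_of_vi at z; kap r ρ ≥ 1/(9 r) on (0, 3r], 3 r ≤ π, so oscI ≤ 18 r n j on each side.
* j1_le_a: monotonicity of the integral (MK continuous).  j1_le: |V - mean| ≤ 2 C, MK (j+1) ≤ MK j + 4 M (MK_succ), MK_L1 (the two intervals are disjoint parts of [-2r, 2r]).
* jn_le: JN = (1/r) sum over sides of ∫_{r/8}^{2r} |V - Q| MK F (y ± ρ) j (MK_rot).  |V - Q| ≤ |V - avg| + |avg - Q|, ∫_{r/8}^{2r} |V - Q| ≤ 4 r n (kap ≥ 1/(4r)), so |avg - Q| ≤ 3 n and oscI ≤ 8 r n; MK j ≤ MK (j+1) + 4 M; MK_L1.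
-/

set_option autoImplicit false

namespace Pool.Agent.Work.MP_af796d_an.H

open MeasureTheory Set Real Metric Filter Topology

/-- oscillation of `v` on the near region. -/
noncomputable def a1 (v : ℝ → ℝ) (j : ℕ) (y : ℝ) : ℝ :=
  (oscI (sd v y 1) (rr j / 8) (2 * rr j) + oscI (sd v y (-1)) (rr j / 8) (2 * rr j)) / rr j

/-- oscillation of `v` on the enlarged near region. -/
noncomputable def ah (v : ℝ → ℝ) (j : ℕ) (z : ℝ) : ℝ :=
  (oscI (sd v z 1) (rr j / 16) (3 * rr j) + oscI (sd v z (-1)) (rr j / 16) (3 * rr j)) / rr j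

/-- intrinsic near term. -/
noncomputable def J1 (v : ℝ → ℝ) (F : ℂ → ℂ) (j : ℕ) (y : ℝ) : ℝ :=
  ((∫ ρ in (rr j / 8)..(2 * rr j), |sd v y 1 ρ -
      (∫ t in (rr j / 8)..(2 * rr j), sd v y 1 t) / (2 * rr j - rr j / 8)| * MK F (y + ρ) (j + 1)) +
    ∫ ρ in (rr j / 8)..(2 * rr j), |sd v y (-1) ρ -
      (∫ t in (rr j / 8)..(2 * rr j), sd v y (-1) t) / (2 * rr j - rr j / 8)| *
        MK F (y - ρ) (j + 1)) / rr j

variable {v : ℝ → ℝ} {C M : ℝ} {F : ℂ → ℂ}

lemma JB_mean {V : ℝ → ℝ} {p q : ℝ} (hpq : p < q) (hV : IntervalIntegrable V volume p q) (a : ℝ) :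
    |(∫ t in p..q, V t) / (q - p) - a| * (q - p) ≤ ∫ r in p..q, |V r - a| := by
  have h0 := sub_pos.2 hpq
  have e : ((∫ t in p..q, V t) / (q - p) - a) * (q - p) = ∫ r in p..q, (V r - a) := by
    rw [intervalIntegral.integral_sub hV intervalIntegrable_const, intervalIntegral.integral_const,
      smul_eq_mul]
    field_simp
  calc _ = |((∫ t in p..q, V t) / (q - p) - a) * (q - p)| := by rw [abs_mul, abs_of_pos h0]
    _ ≤ _ := by
      rw [e]
      exact intervalIntegral.abs_integral_le_integral_abs hpq.le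

lemma oscI_le {V : ℝ → ℝ} {p q : ℝ} (hpq : p < q) (hV : IntervalIntegrable V volume p q) (a : ℝ) :
    oscI V p q ≤ 2 * ∫ r in p..q, |V r - a| := by
  have h1 := JB_mean hpq hV a
  have i1 := (hV.sub (intervalIntegrable_const (c := a))).abs
  have h2 : oscI V p q ≤ ∫ r in p..q, (|V r - a| + |(∫ t in p..q, V t) / (q - p) - a|) :=
    intervalIntegral.integral_mono_on hpq.le (hV.sub intervalIntegrable_const).abs
      (i1.add intervalIntegrable_const) fun x _ => by
        rw [abs_sub_comm (_ / _) a]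
        exact abs_sub_le _ _ _
  rw [intervalIntegral.integral_add i1 intervalIntegrable_const, intervalIntegral.integral_const,
    smul_eq_mul] at h2
  linarith only [h1, h2]

lemma JB_osc0 (V : ℝ → ℝ) {p q : ℝ} (hpq : p ≤ q) : 0 ≤ oscI V p q :=
  intervalIntegral.integral_nonneg hpq fun _ _ => abs_nonneg _

lemma a1_nonneg (v : ℝ → ℝ) (j : ℕ) (y : ℝ) : 0 ≤ a1 v j y := by
  have r0 := rr_pos j
  exact div_nonneg (add_nonneg (JB_osc0 _ (by linarith only [r0])) (JB_osc0 _ (by linarith))) r0.le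

lemma ah_nonneg (v : ℝ → ℝ) (j : ℕ) (z : ℝ) : 0 ≤ ah v j z := by
  have r0 := rr_pos j
  exact div_nonneg (add_nonneg (JB_osc0 _ (by linarith only [r0])) (JB_osc0 _ (by linarith))) r0.le

lemma JB_shift {V W : ℝ → ℝ} {r d : ℝ} (hW : VI W C) (hV : VI V C) (r0 : 0 < r)
    (hd : |d| ≤ r / 16) (e : ∀ ρ, V ρ = W (ρ + d)) :
    oscI V (r / 8) (2 * r) ≤ 2 * oscI W (r / 16) (3 * r) := by
  obtain ⟨d1, d2⟩ := abs_le.1 hd
  refine (oscI_le (by linarith only [r0]) (VP1_ii hV.meas hV.bd _ _)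
    ((∫ t in (r / 16)..(3 * r), W t) / (3 * r - r / 16))).trans ?_
  simp only [e]
  rw [intervalIntegral.integral_comp_add_right
    (fun x => |W x - (∫ t in (r / 16)..(3 * r), W t) / (3 * r - r / 16)|) d]
  exact mul_le_mul_of_nonneg_left (intervalIntegral.integral_mono_interval (by linarith only [d1])
    (by linarith only [r0]) (by linarith only [r0, d2]) (ae_of_all _ fun _ => abs_nonneg _)
    ((VP1_ii hW.meas hW.bd _ _).sub intervalIntegrable_const).abs) zero_le_two

lemma a1_le_ah (h : VU v C) (j : ℕ) {y z : ℝ} (hz : |z - y| ≤ rr j / 16) :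
    a1 v j y ≤ 2 * ah v j z := by
  have r0 := rr_pos j
  have h1 := JB_shift (d := y - z) (h.pos z) (h.pos y) r0 (by rwa [abs_sub_comm]) fun ρ =>
    congrArg v (by ring)
  have h2 := JB_shift (d := z - y) (h.neg z) (h.neg y) r0 hz fun ρ => congrArg v (by ring)
  rw [a1, ah, ← mul_div_assoc]
  exact div_le_div_of_nonneg_right (by linarith only [h1, h2]) r0.le

lemma JB_kap {V : ℝ → ℝ} {n : ℕ → ℝ} {C' c p : ℝ} (hV : VI V C) (hD : VD V n C') (j : ℕ)
    (c1 : 1 ≤ c) (c3 : c ≤ 3) (p0 : 0 < p) (p1 : p ≤ rr j) :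
    ∫ ρ in p..(c * rr j), |V ρ - mean V 0 (rr j)| ≤ c ^ 2 * rr j * n j := by
  have r0 := rr_pos j
  have r1 := rr_le_one j
  have q1 : p ≤ c * rr j := by linarith only [p1, c1, p0, mul_nonneg_of_nonpos_of_nonpos (Mathlib.Tactic.Linarith.sub_nonpos_of_le c1) (le_of_lt (Mathlib.Tactic.Linarith.sub_neg_of_lt p0)), mul_nonneg_of_nonpos_of_nonpos (Mathlib.Tactic.Linarith.sub_nonpos_of_le c1) (Mathlib.Tactic.Linarith.sub_nonpos_of_le p1)]
  have q2 : c * rr j ≤ π := by linarith only [c3, r1, c1, pi_gt_three, mul_nonneg_of_nonpos_of_nonpos (Mathlib.Tactic.Linarith.sub_nonpos_of_le c1) (Mathlib.Tactic.Linarith.sub_nonpos_of_le r1)]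
  have h1 : ∫ ρ in p..(c * rr j), |V ρ - mean V 0 (rr j)| * kap (rr j) ρ ≤ n j :=
    (intervalIntegral.integral_mono_interval p0.le q1 q2
      (ae_of_all _ fun ρ => mul_nonneg (abs_nonneg _) (VP1_kap r0 ρ)) (hD.ii j)).trans (hD.le j)
  refine le_trans (intervalIntegral.integral_mono_on q1
    ((VP1_ii hV.meas hV.bd _ _).sub intervalIntegrable_const).abs
    ((VP1_i1 hV r0 _ _).const_mul (c ^ 2 * rr j)) fun ρ hρ => ?_) ?_
  · have ρ0 : 0 < ρ := p0.trans_le hρ.1
    rw [mul_left_comm]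
    refine le_mul_of_one_le_right (abs_nonneg _) (ML_kap (by positivity) ?_ ?_)
    · field_simp
      linarith only [c1, mul_nonneg_of_nonpos_of_nonpos (Mathlib.Tactic.Linarith.sub_nonpos_of_le c1) (Mathlib.Tactic.Linarith.sub_nonpos_of_le c1)]
    · rw [← mul_div_assoc, one_le_div (by positivity)]
      linarith only [p0, hρ, q1, ρ0, hρ.2, mul_nonneg_of_nonpos_of_nonpos (le_of_lt (Mathlib.Tactic.Linarith.sub_neg_of_lt p0)) (Mathlib.Tactic.Linarith.sub_nonpos_of_le hρ.right), mul_nonneg_of_nonpos_of_nonpos (Mathlib.Tactic.Linarith.sub_nonpos_of_le q1) (Mathlib.Tactic.Linarith.sub_nonpos_of_le hρ.right), mul_nonneg_of_nonpos_of_nonpos (le_of_lt (Mathlib.Tactic.Linarith.sub_neg_of_lt ρ0)) (Mathlib.Tactic.Linarith.sub_nonpos_of_le hρ.right)]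
  · rw [intervalIntegral.integral_const_mul]
    exact mul_le_mul_of_nonneg_left h1 (by positivity)

lemma ah_sum (h : VU v C) (n : ℕ) (z : ℝ) : ∑ j ∈ Finset.range n, ah v j z ≤ 576 * C := by
  obtain ⟨n₁, h₁⟩ := vd_of_vi (h.pos z)
  obtain ⟨n₂, h₂⟩ := vd_of_vi (h.neg z)
  have key : ∀ {V : ℝ → ℝ} {m : ℕ → ℝ}, VI V C → VD V m (16 * C) → ∀ j,
      oscI V (rr j / 16) (3 * rr j) ≤ 18 * m j * rr j := fun {V _} hV hD j => by
    have r0 := rr_pos j
    have a := oscI_le (by linarith only [r0] : rr j / 16 < 3 * rr j) (VP1_ii hV.meas hV.bd _ _)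
      (mean V 0 (rr j))
    have b := JB_kap (c := 3) (p := rr j / 16) hV hD j (by norm_num) le_rfl (by linarith)
      (by linarith)
    linarith only [a, b]
  refine (Finset.sum_le_sum (g := fun j => 18 * n₁ j + 18 * n₂ j) fun j _ => ?_).trans ?_
  · rw [ah, div_le_iff₀ (rr_pos j)]
    linarith [key (h.pos z) h₁ j, key (h.neg z) h₂ j]
  · rw [Finset.sum_add_distrib, ← Finset.mul_sum, ← Finset.mul_sum]
    linarith [h₁.sm.sum n, h₂.sm.sum n]

lemma JB_ii {V m : ℝ → ℝ} (hV : VI V C) (hm : Continuous m) (a p q : ℝ) :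
    IntervalIntegrable (fun ρ => |V ρ - a| * m ρ) volume p q :=
  ((VP1_ii hV.meas hV.bd _ _).sub intervalIntegrable_const).abs.mul_continuousOn hm.continuousOn

lemma j1_le_a (h : VU v C) (hF : DiffContOnCl ℂ F (ball 0 1)) (j : ℕ) (y D : ℝ)
    (hD : ∀ x, |x - y| ≤ 2 * rr j → MK F x (j + 1) ≤ D) : J1 v F j y ≤ a1 v j y * D := by
  have r0 := rr_pos j
  have key : ∀ {V m : ℝ → ℝ}, VI V C → Continuous m → (∀ ρ, 0 ≤ ρ → ρ ≤ 2 * rr j → m ρ ≤ D) →
      ∫ ρ in (rr j / 8)..(2 * rr j), |V ρ - (∫ t in (rr j / 8)..(2 * rr j), V t) /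
        (2 * rr j - rr j / 8)| * m ρ ≤ oscI V (rr j / 8) (2 * rr j) * D := fun hV hm hb => by
    rw [oscI, ← intervalIntegral.integral_mul_const]
    exact intervalIntegral.integral_mono_on (by linarith only [r0]) (JB_ii hV hm _ _ _)
      (JB_ii hV continuous_const _ _ _) fun ρ hρ =>
        mul_le_mul_of_nonneg_left (hb ρ (by linarith [hρ.1]) hρ.2) (abs_nonneg _)
  have c := continuous_MK hF (j + 1)
  have a := key (m := fun ρ => MK F (y + ρ) (j + 1)) (h.pos y) (c.comp (by fun_prop))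
    fun ρ h0 h1 => hD _ (by rwa [add_sub_cancel_left, abs_of_nonneg h0])
  have b := key (m := fun ρ => MK F (y - ρ) (j + 1)) (h.neg y) (c.comp (by fun_prop))
    fun ρ h0 h1 => hD _ (by rwa [sub_sub_cancel_left, abs_neg, abs_of_nonneg h0])
  rw [J1, a1, div_mul_eq_mul_div, add_mul]
  exact div_le_div_of_nonneg_right (add_le_add a b) r0.le

lemma JB_L1 (hF : DiffContOnCl ℂ F (ball 0 1)) (hM : ∀ t, |(F (ex t)).re| ≤ M) (j : ℕ) (y : ℝ) :
    (∫ ρ in (rr j / 8)..(2 * rr j), MK F (y + ρ) j) +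
      ∫ ρ in (rr j / 8)..(2 * rr j), MK F (y - ρ) j ≤ 100 * rr j * M := by
  have r0 := rr_pos j
  have c : Continuous fun s => MK F (y + s) j := (continuous_MK hF j).comp (by fun_prop)
  have a := MK_L1 hF hM y j
  have b := intervalIntegral.integral_comp_neg (a := rr j / 8) (b := 2 * rr j)
    fun s => MK F (y + s) j
  simp only [← sub_eq_add_neg] at b
  rw [← intervalIntegral.integral_add_adjacent_intervals (c.intervalIntegrable _ (-(rr j / 8)))
    (c.intervalIntegrable _ _), ← intervalIntegral.integral_add_adjacent_intervals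
    (c.intervalIntegrable (-(rr j / 8)) (rr j / 8)) (c.intervalIntegrable _ _)] at a
  have d : 0 ≤ ∫ s in (-(rr j / 8))..(rr j / 8), MK F (y + s) j :=
    intervalIntegral.integral_nonneg (by linarith only [r0]) fun _ _ => MK_nonneg _ _ _
  linarith only [a, b, d]

lemma j1_le (h : VU v C) (hF : DiffContOnCl ℂ F (ball 0 1)) (hM : ∀ t, |(F (ex t)).re| ≤ M)
    (j : ℕ) (y : ℝ) : J1 v F j y ≤ 240 * C * M := by
  have r0 := rr_pos j
  have C0 : 0 ≤ C := (abs_nonneg _).trans (h.bd 0)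
  have M0 : 0 ≤ M := (abs_nonneg _).trans (hM 0)
  have key : ∀ {V s : ℝ → ℝ}, VI V C → Continuous s →
      ∫ ρ in (rr j / 8)..(2 * rr j), |V ρ - (∫ t in (rr j / 8)..(2 * rr j), V t) /
        (2 * rr j - rr j / 8)| * MK F (s ρ) (j + 1) ≤
      2 * C * ((∫ ρ in (rr j / 8)..(2 * rr j), MK F (s ρ) j) + (2 * rr j - rr j / 8) * (4 * M)) :=
    fun {V s} hV hs => by
    have c := ((continuous_MK hF j).comp hs).intervalIntegrable (μ := volume) (rr j / 8) (2 * rr j)
    have q : 0 < 2 * rr j - rr j / 8 := by linarith only [r0]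
    have m : |(∫ t in (rr j / 8)..(2 * rr j), V t) / (2 * rr j - rr j / 8)| ≤ C := by
      rw [abs_div, abs_of_pos q, div_le_iff₀ q]
      simpa [abs_of_pos q] using intervalIntegral.norm_integral_le_of_norm_le_const
        (a := rr j / 8) (b := 2 * rr j) (f := V) fun t _ => hV.bd t
    refine (intervalIntegral.integral_mono_on (by linarith only [r0])
      (JB_ii hV ((continuous_MK hF (j + 1)).comp hs) _ _ _)
      ((c.add (intervalIntegrable_const (c := 4 * M))).const_mul (2 * C)) fun ρ _ => ?_).trans_eq ?_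
    · refine mul_le_mul ((abs_sub _ _).trans (by linarith only [m, hV, hV.bd ρ])) ?_ (MK_nonneg _ _ _)
        (by positivity)
      have := (abs_le.1 (MK_succ hF hM (s ρ) j)).2
      simp only [Function.comp_apply]
      linarith only [this]
    · rw [intervalIntegral.integral_const_mul,
        intervalIntegral.integral_add c intervalIntegrable_const, intervalIntegral.integral_const,
        smul_eq_mul]
      rfl
  have a := key (s := fun ρ => y + ρ) (h.pos y) (by fun_prop)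
  have b := key (s := fun ρ => y - ρ) (h.neg y) (by fun_prop)
  have c := mul_le_mul_of_nonneg_left (JB_L1 hF hM j y) C0
  have d := mul_nonneg (mul_nonneg C0 M0) r0.le
  rw [J1, div_le_iff₀ r0]
  linarith only [a, b, c, d]

lemma JB_one {V m m' : ℝ → ℝ} {n : ℕ → ℝ} {C' : ℝ} (hV : VI V C) (hD : VD V n C') (j : ℕ)
    (M0 : 0 ≤ M) (hm : Continuous m) (hm' : Continuous m') (m0 : ∀ ρ, 0 ≤ m ρ)
    (m1 : ∀ ρ, m ρ ≤ m' ρ + 4 * M) (m2 : ∫ ρ in (rr j / 8)..(2 * rr j), m ρ ≤ 100 * rr j * M) :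
    ∫ ρ in (rr j / 8)..(2 * rr j), |V ρ - mean V 0 (rr j)| * m ρ ≤
      (∫ ρ in (rr j / 8)..(2 * rr j), |V ρ - (∫ t in (rr j / 8)..(2 * rr j), V t) /
        (2 * rr j - rr j / 8)| * m' ρ) + 400 * M * n j * rr j := by
  have r0 := rr_pos j
  have n0 := hD.sm.nn j
  have q : rr j / 8 < 2 * rr j := by linarith only [r0]
  have iV := VP1_ii hV.meas hV.bd (rr j / 8) (2 * rr j)
  have a := JB_kap (c := 2) (p := rr j / 8) hV hD j (by norm_num) (by norm_num) (by linarith)
    (by linarith)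
  have b := oscI_le q iV (mean V 0 (rr j))
  have c := JB_mean q iV (mean V 0 (rr j))
  rw [oscI] at b
  generalize (∫ t in (rr j / 8)..(2 * rr j), V t) / (2 * rr j - rr j / 8) = A at b c ⊢
  have d : |A - mean V 0 (rr j)| ≤ 3 * n j :=
    le_of_mul_le_mul_right (by linarith only [a, c, r0, n0, mul_nonneg_of_nonpos_of_nonpos (le_of_lt (Mathlib.Tactic.Linarith.sub_neg_of_lt r0)) (Mathlib.Tactic.Linarith.sub_nonpos_of_le n0)]) (sub_pos.2 q)
  have i1 := JB_ii hV hm' A (rr j / 8) (2 * rr j)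
  have i2 := JB_ii hV (continuous_const (y := 4 * M)) A (rr j / 8) (2 * rr j)
  have i3 := (hm.intervalIntegrable (μ := volume) (rr j / 8) (2 * rr j)).const_mul (3 * n j)
  refine (intervalIntegral.integral_mono_on q.le (JB_ii hV hm _ _ _) ((i1.add i2).add i3)
    fun ρ _ => ?_).trans ?_
  · have e1 := mul_le_mul_of_nonneg_right ((abs_sub_le (V ρ) A _).trans (add_le_add le_rfl d)) (m0 ρ)
    have e2 := mul_le_mul_of_nonneg_left (m1 ρ) (abs_nonneg (V ρ - A))
    linarith only [e1, e2]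
  · rw [intervalIntegral.integral_add (i1.add i2) i3, intervalIntegral.integral_add i1 i2,
      intervalIntegral.integral_mul_const, intervalIntegral.integral_const_mul]
    have e1 := mul_le_mul_of_nonneg_left m2 n0
    have e2 := mul_le_mul_of_nonneg_left (b.trans (mul_le_mul_of_nonneg_left a zero_le_two)) M0
    have e3 := mul_nonneg (mul_nonneg M0 n0) r0.le
    linarith only [e1, e2, e3]

lemma jn_le (h : VU v C) (hF : DiffContOnCl ℂ F (ball 0 1)) (hM : ∀ t, |(F (ex t)).re| ≤ M)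
    {C' y : ℝ} {n₁ n₂ : ℕ → ℝ} (h₁ : VD (sd v y 1) n₁ C') (h₂ : VD (sd v y (-1)) n₂ C') (j : ℕ) :
    JN v y (fun z => F (z * ex y)) j ≤ J1 v F j y + 400 * M * (n₁ j + n₂ j) := by
  have r0 := rr_pos j
  have M0 : 0 ≤ M := (abs_nonneg _).trans (hM 0)
  have c := continuous_MK hF
  have L := JB_L1 hF hM j y
  have L1 : 0 ≤ ∫ ρ in (rr j / 8)..(2 * rr j), MK F (y + ρ) j :=
    intervalIntegral.integral_nonneg (by linarith only [r0]) fun _ _ => MK_nonneg _ _ _
  have L2 : 0 ≤ ∫ ρ in (rr j / 8)..(2 * rr j), MK F (y - ρ) j :=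
    intervalIntegral.integral_nonneg (by linarith only [r0]) fun _ _ => MK_nonneg _ _ _
  have s := fun x => (abs_le.1 (MK_succ hF hM x j)).1
  have a := JB_one (m := fun ρ => MK F (y + ρ) j) (m' := fun ρ => MK F (y + ρ) (j + 1)) (h.pos y) h₁ j
    M0 ((c _).comp (by fun_prop)) ((c _).comp (by fun_prop)) (fun _ => MK_nonneg _ _ _)
    (fun ρ => by linarith [s (y + ρ)]) (by linarith only [L, L2])
  have b := JB_one (m := fun ρ => MK F (y - ρ) j) (m' := fun ρ => MK F (y - ρ) (j + 1)) (h.neg y) h₂ j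
    M0 ((c _).comp (by fun_prop)) ((c _).comp (by fun_prop)) (fun _ => MK_nonneg _ _ _)
    (fun ρ => by linarith only [s, s (y - ρ)]) (by linarith only [L, L1])
  obtain ⟨g, hg⟩ : ∃ g : ℝ → ℝ, g = fun σ => |(nr j).indicator (psi v y j) σ| * MK F (y + σ) j :=
    ⟨_, rfl⟩
  have ig : ∀ p q, IntervalIntegrable g volume p q := fun p q => by
    rw [hg]
    exact (VP1_ii (C := 2 * C) ((measurable_psi h y j).indicator (measurableSet_nr j))
      (fun t => le_trans (norm_indicator_le_norm_self (s := nr j) (psi v y j) t)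
        (abs_psi_le h y j t)) p q).abs.mul_continuousOn ((c j).comp (by fun_prop)).continuousOn
  have z : ∀ p q, p ≤ q → (∀ σ, p < σ → σ < q → σ ∉ nr j) → ∫ σ in p..q, g σ = 0 :=
    fun p q hpq hz => by
    rw [intervalIntegral.integral_congr_uIoo (g := fun _ => 0), intervalIntegral.integral_zero]
    intro σ hσ
    rw [uIoo_of_le hpq] at hσ
    simp only [hg, indicator_of_notMem (hz σ hσ.1 hσ.2), abs_zero, zero_mul]
  have r1 := rr_le_one j
  have p3 := pi_gt_three
  have z1 := z (-π) (-(2 * rr j)) (by linarith only [r1, p3]) fun σ _ h2 h3 => by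
    linarith only [h2, h3, h3.2, neg_abs_le σ]
  have z2 := z (-(rr j / 8)) (rr j / 8) (by linarith only [r0]) fun σ h1 h2 h3 =>
    absurd (abs_lt.2 ⟨h1, h2⟩) (not_lt.2 h3.1)
  have z3 := z (2 * rr j) π (by linarith only [r1, p3]) fun σ h1 _ h3 => by
    linarith only [h1, h3, h3.2, le_abs_self σ]
  have e1 : ∫ σ in (rr j / 8)..(2 * rr j), g σ = ∫ ρ in (rr j / 8)..(2 * rr j),
      |sd v y 1 ρ - mean (sd v y 1) 0 (rr j)| * MK F (y + ρ) j := by
    refine intervalIntegral.integral_congr fun σ hσ => ?_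
    rw [uIcc_of_le (by linarith only [r0])] at hσ
    have σ0 : 0 < σ := by linarith only [r0, hσ, hσ.1]
    have : σ ∈ nr j := by rwa [nr, mem_ofPred_eq, abs_of_pos σ0]
    simp only [hg, indicator_of_mem this, psi, if_pos σ0, sd, one_mul]
  have e2 : ∫ σ in (-(2 * rr j))..(-(rr j / 8)), g σ = ∫ ρ in (rr j / 8)..(2 * rr j),
      |sd v y (-1) ρ - mean (sd v y (-1)) 0 (rr j)| * MK F (y - ρ) j := by
    rw [← intervalIntegral.integral_comp_neg]
    refine intervalIntegral.integral_congr fun σ hσ => ?_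
    rw [uIcc_of_le (by linarith only [r0])] at hσ
    have σ0 : 0 < σ := by linarith only [r0, hσ, hσ.1]
    have : -σ ∈ nr j := by rwa [nr, mem_ofPred_eq, abs_neg, abs_of_pos σ0]
    simp only [hg, indicator_of_mem this, psi, if_neg (neg_neg_of_pos σ0).not_gt, sd, neg_one_mul,
      sub_eq_add_neg y]
  have e3 : JN v y (fun z => F (z * ex y)) j = (∫ σ in (-π)..π, g σ) / rr j := by
    simp only [JN, MK_rot, hg]
  rw [e3, ← intervalIntegral.integral_add_adjacent_intervals (ig _ (-(2 * rr j))) (ig _ _),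
    ← intervalIntegral.integral_add_adjacent_intervals (ig (-(2 * rr j)) (-(rr j / 8))) (ig _ _),
    ← intervalIntegral.integral_add_adjacent_intervals (ig (-(rr j / 8)) (rr j / 8)) (ig _ _),
    ← intervalIntegral.integral_add_adjacent_intervals (ig (rr j / 8) (2 * rr j)) (ig _ _),
    z1, z2, z3, e1, e2, J1, div_add' _ _ _ r0.ne']
  exact div_le_div_of_nonneg_right (by linarith only [a, b]) r0.le

end Pool.Agent.Work.MP_af796d_an.H
end
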