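import Pool.Agent.Work.MP_af796d_an.H.Final
import Pool.Agent.Work.MP_af796d_an.H.WsN
import Pool.Agent.Work.MP_af796d_an.H.HubN
import Pool.Agent.Work.MP_af796d_an.H.HB4

/-! Assembly of the necessity half of stage 1, and the passage between `AInf` and `St`. -/

set_option autoImplicit false

namespace Pool.Agent.Work.MP_af796d_an.H

open MeasureTheory Set Real Metric

lemma St.ainf {Φ b : ℝ → ℝ} {C : ℝ} (h : St Φ b C) : AInf b := by
  refine ⟨h.ai.meas, h.per, h.ai.ii, h.ai.iie, C, fun y s h0 h1 => ?_⟩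
  have := h.ai.hru y (y + s) (by linarith) (by linarith)
  rwa [add_sub_cancel_left] at this

lemma st_of_ainf {Φ b : ℝ → ℝ} (hΦ : Good Φ) (hb : AInf b)
    (hi : ∀ a c, Φ c - Φ a = ∫ t in a..c, Real.exp (b t)) : ∃ C, St Φ b C := by
  obtain ⟨h1, h2, h3, h4, C, h5⟩ := hb
  refine ⟨C, hΦ, ⟨h1, h3, h4, fun a c hac hc => ?_⟩, h2, hi⟩
  have := h5 a (c - a) (by linarith) (by linarith)
  simpa only [mean, add_sub_cancel] using this

/-- necessity of the condition `HSL`. -/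
theorem nec {Φ : ℝ → ℝ} (hΦ : Good Φ) (h : PresL Φ) : HSL Φ := by
  obtain ⟨b, C, hS, hW⟩ := ws_of_EL hΦ (EL_of_presL hΦ h)
  obtain ⟨K₀, hB⟩ := bb_of_presL hΦ hS.ui h
  obtain ⟨K, hH⟩ := hb_of_bb hS hW hB
  obtain ⟨u, v, hu, hv, hc⟩ := uv_of_hb (hS.ai.ii _ _) hH
  exact ⟨b, u, v, hS.int, hS.ainf, hu, hv, hc⟩

end Pool.Agent.Work.MP_af796d_an.H
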