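import Pool.Agent.Work.MP_af796d_an.H.Final
import Pool.Agent.Work.MP_af796d_an.H.JB

-- merged part: Pool.Agent.Work.MP_af796d_an.H.StepD
section
-- merged part: Pool.Agent.Work.MP_af796d_an.H.Star1
section
/-!
# The basic identity, one side
PLAN.  φ is bounded on (0, π] by M / rr n.  For r in (0, π]:
β r - lg (S r) + lg r = log W r - sg (S r) + sg r  (W = r e^β / S, sg = lg - log).
* The pairings of φ with sg (S r) and with sg r are at most 5 A M by anti_pair (os_sg; sg is antitone on (0, π] with values in [sg π, 0]).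
* ∫_0^π φ log W splits at rr n and at 1 = rr 0, and [rr n, 1] into the annuli (intervalIntegral.sum_integral_adjacent_intervals).
  Inner part: (M / rr n) * K rr n by os_A6 with ρ = rr n.  Far part: |φ| ≤ M on [1, π], os_A6 with ρ = π.
* On the annulus j, with g = log (W / c j): log W = (log c j - 1) + W / c j - eg g.
  The constants: sum_j (log c j - 1) (f (rr j) - f (rr (j+1))), f x = ∫_0^x φ; abel_le with |log c j - 1| ≤ log C + 1 and
  |log c (j+1) - log c j| ≤ C |c (j+1) - c j| (abs_log_sub_log_le in Suff.lean).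
  The eg term: apply cov on [rr (j+1), rr j] with the model r ↦ log (c j * S r / r), which is normalised with
  L = log C - log η + log 2 because S r and the mass of the annulus both lie in [η S (rr j), S (rr j)] (os_dbl) and r in [rr j/2, rr j];
  β minus the model is g.  With WS1.osc: ∫ eg g ≤ K rr j N j, and |φ| ≤ 2 M / rr j there; sum N ≤ C.
-/

set_option autoImplicit false

namespace Pool.Agent.Work.MP_af796d_an.H

open MeasureTheory Set Real Metric Filter Topology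

lemma Star1_mul {φ g : ℝ → ℝ} {a b B : ℝ} (hab : a ≤ b) (hφ : Measurable φ)
    (hB : ∀ r ∈ Ioc a b, |φ r| ≤ B) (hg : IntervalIntegrable g volume a b) :
    IntervalIntegrable (fun r => φ r * g r) volume a b ∧
      |∫ r in a..b, φ r * g r| ≤ B * ∫ r in a..b, |g r| := by
  have h1 : ∀ r ∈ Ioc a b, ‖φ r * g r‖ ≤ B * |g r| := fun r hr => by
    rw [Real.norm_eq_abs, abs_mul]
    exact mul_le_mul_of_nonneg_right (hB r hr) (abs_nonneg _)
  refine ⟨(hg.abs.const_mul B).mono_fun' (hφ.aestronglyMeasurable.mul hg.def'.aestronglyMeasurable)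
    ((ae_restrict_mem measurableSet_uIoc).mono fun r hr => h1 r (uIoc_of_le hab ▸ hr)), ?_⟩
  rw [← intervalIntegral.integral_const_mul]
  exact intervalIntegral.norm_integral_le_of_norm_le hab (Eventually.of_forall h1)
    (hg.abs.const_mul B)

lemma Star1_sub {g : ℝ → ℝ} (h : IntervalIntegrable g volume 0 π) {a b : ℝ} (ha : a ∈ Icc 0 π)
    (hb : b ∈ Icc 0 π) : IntervalIntegrable g volume a b :=
  h.mono_set (uIcc_subset_uIcc (Icc_subset_uIcc ha) (Icc_subset_uIcc hb))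

lemma Star1_rr (j : ℕ) : rr j ∈ Icc 0 π :=
  ⟨(rr_pos j).le, (rr_le_one j).trans (by linarith [pi_gt_three])⟩

lemma Star1_W {β : ℝ → ℝ} {C r : ℝ} (h : AI β C) (hr : 0 < r) :
    0 < WW β r ∧ Real.log (WW β r) = Real.log r + β r - Real.log (SS β r) := by
  have hS := h.SS_pos hr
  have he := Real.exp_pos (β r)
  refine ⟨div_pos (mul_pos hr he) hS, ?_⟩
  rw [WW, Real.log_div (mul_pos hr he).ne' hS.ne', Real.log_mul hr.ne' he.ne', Real.log_exp]

lemma Star1_c {c : ℕ → ℝ} {C : ℝ} (h : CS c C) (j : ℕ) :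
    0 < c j ∧ |Real.log (c j)| ≤ Real.log C := by
  have h0 : 0 < 1 / C := one_div_pos.2 (by linarith [h.one])
  have h1 := h0.trans_le (h.lo j)
  have h2 := Real.log_le_log h0 (h.lo j)
  rw [one_div, Real.log_inv] at h2
  exact ⟨h1, abs_le.2 ⟨h2, Real.log_le_log h1 (h.hi j)⟩⟩

lemma Star1_eg (C : ℝ) : ∃ K : ℝ, 0 ≤ K ∧ ∀ (β : ℝ → ℝ) (c N : ℕ → ℝ), AI β C → WS1 β c N C →
    ∀ j, IntervalIntegrable (fun r => eg (Real.log (WW β r / c j))) volume (rr (j + 1)) (rr j) ∧
      ∫ r in (rr (j + 1))..(rr j), eg (Real.log (WW β r / c j)) ≤ K * (rr j * N j) := by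
  obtain ⟨η, hη, -, hd⟩ := os_dbl C
  obtain ⟨K, hK, hc⟩ := cov C (Real.log C - Real.log η + Real.log 2)
  refine ⟨K, hK, fun β c N hβ hW j => ?_⟩
  have hρ := rr_pos j
  have hρ1 := (Star1_rr j).2
  obtain ⟨c0, c1⟩ := Star1_c hW.cs j
  have key := hc β (fun r => β r - Real.log (WW β r / c j)) hβ
    (hβ.meas.sub (hβ.measurable_WW.div_const _).log) (rr (j + 1)) (rr j)
    (by rw [rr_succ]; linarith) (by rw [rr_succ]; linarith [pi_pos]) (fun x hx => by
      rw [rr_succ] at hx ⊢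
      have hx0 : 0 < x := lt_trans (by linarith) hx.1
      obtain ⟨w0, w1⟩ := Star1_W hβ hx0
      obtain ⟨d1, d2⟩ := hd β hβ (rr j) hρ hρ1
      have s0 := hβ.SS_pos hρ
      have s1 := hβ.SS_pos (half_pos hρ)
      have s2 : 0 < η * SS β (rr j) := mul_pos hη s0
      have a1 := Real.log_le_log s2 (d1.trans (hβ.SS_mono.monotone hx.1.le))
      have a2 := Real.log_le_log (hβ.SS_pos hx0) (hβ.SS_mono.monotone hx.2)
      have a3 := Real.log_le_log s2 d2
      have a4 := Real.log_le_log (s2.trans_le d2)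
        (show SS β (rr j) - SS β (rr j / 2) ≤ SS β (rr j) by linarith only [s1])
      have a5 := Real.log_le_log (half_pos hρ) hx.1.le
      have a6 := Real.log_le_log hx0 hx.2
      have a7 := Real.log_pos (one_lt_two (α := ℝ))
      rw [Real.log_mul hη.ne' s0.ne'] at a1 a3
      rw [Real.log_div hρ.ne' two_ne_zero] at a5
      rw [← hβ.SS_sub, sub_half, Real.log_div w0.ne' c0.ne', w1,
        Real.log_div (s2.trans_le d2).ne' (half_pos hρ).ne', Real.log_div hρ.ne' two_ne_zero]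
      obtain ⟨c2, c3⟩ := abs_le.1 c1
      exact abs_le.2 ⟨by linarith only [a1, a4, a6, c2], by linarith only [a2, a3, a5, a7, c3]⟩)
  simp only [sub_sub_cancel] at key
  exact ⟨key.1, key.2.trans (mul_le_mul_of_nonneg_left (hW.osc j) hK)⟩

lemma Star1_ann {β φ : ℝ → ℝ} {C c0 a b : ℝ} (h : AI β C) (hc : 0 < c0) (ha : 0 < a) (hab : a ≤ b)
    (h1 : IntervalIntegrable φ volume a b)
    (h2 : IntervalIntegrable (fun r => φ r * Real.log (WW β r)) volume a b)
    (h3 : IntervalIntegrable (fun r => φ r * eg (Real.log (WW β r / c0))) volume a b) :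
    (∫ r in a..b, φ r * WW β r) / c0 = (∫ r in a..b, φ r * Real.log (WW β r)) -
      (Real.log c0 - 1) * (∫ r in a..b, φ r) + ∫ r in a..b, φ r * eg (Real.log (WW β r / c0)) := by
  rw [← intervalIntegral.integral_div, ← intervalIntegral.integral_const_mul,
    ← intervalIntegral.integral_sub h2 (h1.const_mul _),
    ← intervalIntegral.integral_add (h2.sub (h1.const_mul _)) h3]
  refine intervalIntegral.integral_congr fun r hr => ?_
  rw [uIcc_of_le hab] at hr
  have w0 := (Star1_W h (ha.trans_le hr.1)).1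
  rw [eg, Real.exp_log (div_pos w0 hc), Real.log_div w0.ne' hc.ne']
  ring

theorem star1 (C : ℝ) : ∃ K : ℝ, 0 ≤ K ∧ ∀ (β : ℝ → ℝ) (c N : ℕ → ℝ), OS β C → WS1 β c N C →
    ∀ (n : ℕ) (φ : ℝ → ℝ) (M : ℝ), Measurable φ → (∀ r ∈ Ioc 0 π, r * |φ r| ≤ M) →
      (∀ r ∈ Ioc 0 (rr n), rr n * |φ r| ≤ M) → (∀ x ∈ Icc 0 π, |∫ t in (0 : ℝ)..x, φ t| ≤ M) →
      IntervalIntegrable (fun r => φ r * (β r - lg (SS β r) + lg r)) volume 0 π ∧
        |(∫ r in (0 : ℝ)..π, φ r * (β r - lg (SS β r) + lg r)) -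
          ∑ j ∈ Finset.range n, (∫ r in (rr (j + 1))..(rr j), φ r * WW β r) / c j| ≤ K * M := by
  obtain ⟨K6, hK6, h6⟩ := os_A6 C
  obtain ⟨A, hA, hs⟩ := os_sg C
  obtain ⟨K1, hK1, h1⟩ := Star1_eg C
  refine ⟨|K6 + K6 * π + 5 * A + 5 * |sg π| + (2 * (Real.log C + 1) + C * C) + 2 * K1 * C|,
    abs_nonneg _, fun β c N hβ hW n φ M hφ hM1 hM2 hM3 => ?_⟩
  have p3 := pi_gt_three
  have p0 := pi_pos
  have hn := rr_pos n
  have hM : 0 ≤ M := (abs_nonneg _).trans (hM3 0 ⟨le_rfl, p0.le⟩)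
  have hB0 : ∀ r ∈ Ioc 0 (rr n), |φ r| ≤ M / rr n := fun r hr => by
    rw [le_div_iff₀' hn]
    exact hM2 r hr
  have hB1 : ∀ ρ, 0 < ρ → ∀ r ∈ Ioc ρ π, |φ r| ≤ M / ρ := fun ρ hρ r hr => by
    rw [le_div_iff₀' hρ]
    exact (mul_le_mul_of_nonneg_right hr.1.le (abs_nonneg _)).trans
      (hM1 r ⟨hρ.trans hr.1, hr.2⟩)
  have hB : ∀ r ∈ Ioc 0 π, |φ r| ≤ M / rr n := fun r hr =>
    (le_or_gt r (rr n)).elim (fun h => hB0 r ⟨hr.1, h⟩) fun h => hB1 _ hn r ⟨h, hr.2⟩
  have iφ : IntervalIntegrable φ volume 0 π := by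
    simpa using (Star1_mul (g := fun _ => 1) p0.le hφ hB intervalIntegrable_const).1
  obtain ⟨iL, bL⟩ := h6 β hβ.ai π p0 le_rfl
  have iW := (Star1_mul p0.le hφ hB iL).1
  obtain ⟨i1, b1⟩ := anti_pair p0.le iφ hM3 (hs β hβ).1 (hs β hβ).2 hA
  obtain ⟨i2, b2⟩ := anti_pair (χ := sg) (A := |sg π|) p0.le iφ hM3
    (fun x hx y hy hxy => sg_anti hx.1 hxy (by linarith [hy.2])) (fun t ht => by
      have a1 := sg_nonpos ht.1 (by linarith [ht.2])
      have a2 := sg_anti ht.1 ht.2 (by linarith)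
      exact abs_le.2 ⟨by linarith [neg_abs_le (sg π)], by linarith [abs_nonneg (sg π)]⟩)
    (abs_nonneg _)
  have hE : EqOn (fun r => φ r * Real.log (WW β r) - φ r * sg (SS β r) + φ r * sg r)
      (fun r => φ r * (β r - lg (SS β r) + lg r)) (uIoc 0 π) := fun r hr => by
    rw [uIoc_of_le p0.le] at hr
    beta_reduce
    rw [(Star1_W hβ.ai hr.1).2, sg, sg]
    ring
  refine ⟨((iW.sub i1).add i2).congr hE, ?_⟩
  rw [← intervalIntegral.integral_congr_ae (Eventually.of_forall hE),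
    intervalIntegral.integral_add (iW.sub i1) i2, intervalIntegral.integral_sub iW i1]
  set G : ℝ → ℝ := fun x => ∫ r in (0 : ℝ)..x, φ r * Real.log (WW β r) with hG
  set f : ℕ → ℝ := fun j => ∫ r in (0 : ℝ)..(rr j), φ r with hf
  set E : ℕ → ℝ := fun j => ∫ r in (rr (j + 1))..(rr j), φ r * eg (Real.log (WW β r / c j))
    with hE'
  have z : (0 : ℝ) ∈ Icc 0 π := ⟨le_rfl, p0.le⟩
  have hj : ∀ j, (∫ r in (rr (j + 1))..(rr j), φ r * WW β r) / c j =
      G (rr j) - G (rr (j + 1)) - (Real.log (c j) - 1) * (f j - f (j + 1)) + E j ∧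
      |E j| ≤ 2 * K1 * M * N j := by
    intro j
    obtain ⟨e1, e2⟩ := h1 β c N hβ.ai hW j
    obtain ⟨e3, e4⟩ := Star1_mul (B := M / rr (j + 1)) (rr_succ_le j) hφ
      (fun r hr => hB1 _ (rr_pos _) r ⟨hr.1, hr.2.trans (Star1_rr j).2⟩) e1
    constructor
    · rw [Star1_ann hβ.ai (Star1_c hW.cs j).1 (rr_pos _) (rr_succ_le j)
        (Star1_sub iφ (Star1_rr _) (Star1_rr _)) (Star1_sub iW (Star1_rr _) (Star1_rr _)) e3,
        ← intervalIntegral.integral_interval_sub_left (Star1_sub iφ z (Star1_rr _))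
          (Star1_sub iφ z (Star1_rr _)),
        ← intervalIntegral.integral_interval_sub_left (Star1_sub iW z (Star1_rr _))
          (Star1_sub iW z (Star1_rr _))]
    · simp only [abs_of_nonneg (eg_nonneg _)] at e4
      have r0 := rr_pos j
      refine e4.trans ((mul_le_mul_of_nonneg_left e2
        (div_nonneg hM (rr_pos _).le)).trans (le_of_eq ?_))
      rw [rr_succ]
      field_simp
  rw [Finset.sum_congr rfl fun j _ => (hj j).1, Finset.sum_add_distrib, Finset.sum_sub_distrib,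
    Finset.sum_range_sub' (fun j => G (rr j)), rr_zero]
  have hC := hW.cs.one
  have b3 : |G (rr n)| ≤ K6 * M := by
    obtain ⟨e1, e2⟩ := h6 β hβ.ai (rr n) hn (Star1_rr n).2
    refine (Star1_mul hn.le hφ hB0 e1).2.trans ((mul_le_mul_of_nonneg_left e2
      (div_nonneg hM hn.le)).trans (le_of_eq ?_))
    field_simp
  have b4 : |G π - G 1| ≤ K6 * π * M := by
    have o : (1 : ℝ) ∈ Icc 0 π := ⟨zero_le_one, by linarith only [p3]⟩
    rw [hG]
    beta_reduce
    rw [intervalIntegral.integral_interval_sub_left iW (Star1_sub iW z o)]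
    refine (Star1_mul o.2 hφ (hB1 1 one_pos) (Star1_sub iL o ⟨p0.le, le_rfl⟩)).2.trans ?_
    rw [div_one, mul_comm]
    refine mul_le_mul_of_nonneg_right (le_trans ?_ bL) hM
    exact intervalIntegral.integral_mono_interval o.1 o.2 le_rfl
      (Eventually.of_forall fun _ => abs_nonneg _) iL.abs
  have b5 := abel_le (d := fun j => Real.log (c j) - 1) (f := f) (D := Real.log C + 1)
    (V := C * C) (M := M) (Nat.zero_le n)
    (fun j _ _ => (abs_sub _ _).trans (by rw [abs_one]; linarith only [hW, (Star1_c hW.cs j).2]))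
    (by
      rw [← Finset.range_eq_Ico]
      refine le_trans (Finset.sum_le_sum fun j _ => ?_)
        ((Finset.mul_sum _ _ _).ge.trans
          (mul_le_mul_of_nonneg_left (hW.cs.bv n) (zero_le_one.trans hC)))
      have := abs_log_sub_log_le (one_div_pos.2 (one_pos.trans_le hC)) (hW.cs.lo (j + 1))
        (hW.cs.lo j)
      rw [one_div, div_inv_eq_mul] at this
      rwa [sub_sub_sub_cancel_right, mul_comm])
    fun j _ _ => hM3 _ (Star1_rr j)
  rw [← Finset.range_eq_Ico] at b5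
  have b6 : |∑ j ∈ Finset.range n, E j| ≤ 2 * K1 * C * M := by
    refine (Finset.abs_sum_le_sum_abs _ _).trans
      ((Finset.sum_le_sum fun j _ => (hj j).2).trans ?_)
    rw [← Finset.mul_sum, mul_right_comm _ C]
    exact mul_le_mul_of_nonneg_left (hW.sm.sum n) (by positivity)
  refine le_trans ?_ (mul_le_mul_of_nonneg_right (le_abs_self _) hM)
  have t1 := abs_le.1 b1
  have t2 := abs_le.1 b2
  have t3 := abs_le.1 b3
  have t4 := abs_le.1 b4
  have t5 := abs_le.1 b5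
  have t6 := abs_le.1 b6
  change |G π - _ + _ - _| ≤ _
  exact abs_le.2 ⟨by linarith only [t1, t2, t3, t4, t5, t6, t1.1, t1.2, t2.1, t2.2, t3.1, t3.2, t4.1, t4.2, t5.1, t5.2, t6.1,
    t6.2], by linarith only [t1, t2, t3, t4, t5, t6, t1.1, t1.2, t2.1, t2.2, t3.1, t3.2, t4.1, t4.2, t5.1, t5.2, t6.1, t6.2]⟩

end Pool.Agent.Work.MP_af796d_an.H
end

-- merged part: Pool.Agent.Work.MP_af796d_an.H.Star2
section
/-!
# The basic identity, two sides
PLAN.
* log_SS_prim: cov_var with χ x = 1/x on [S ρ, S x], integral_inv (or integral_one_div).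
* star2: on [0, ρ] the factor is the constant log S ρ - log S ρ', on [ρ', π] it vanishes, on [ρ, ρ'] it is log S r - log S ρ'; ibp there.
* star.  Take C' from st_os, OS and WS1 at C'.  Split both integrals at 0 and substitute s = -r on the negative side:
  φ2 r = φ (-r), γ2 r = γ (-r), Γ2 r = - Γ (-r); then Γ2 x = Γ2 0 + ∫_0^x γ2, b (y - r) = sd b y (-1) r,
  lg (Φ (y - r) - Φ y) = lg (SS (sd b y (-1)) r) (lg_neg, St.SS_neg_eq), and |Γ2 r - φ2 r * r / c j| ≤ ε j.
  On each side star1 and star2 (ρ = rr n, ρ' = rr k).  For j < k the annulus integral of φ W vanishes (φ = 0 on Ioc (rr (j+1)) (rr j)).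
  For k ≤ j < n: φ W / c j = (φ r * r / c j) * (e^β / S), so it differs from Γ e^β / S by at most
  ε j * ∫ e^β / S = ε j (log S (rr j) - log S (rr (j+1))) ≤ ε j * (- log η) (os_dbl).  The boundary terms add up to
  - Γ 0 (log S1 (rr n) - log S2 (rr n)) + Γ 0 (log S1 (rr k) - log S2 (rr k)), at most 2 A M by st_qs.
* star0: star with k = 0 and 2 M (primitive of φ is f x - f 0).  Then on each side, with L r = log S r,
  ∫ γ lg (S) - ∫ γ (LT (rr n) - LT 1) = ∫ γ sg (S) + ∫ γ (L - LT (rr n)) + ∫ γ LT 1: anti_pair with os_sg, os_A7 with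
  |γ| ≤ M / rr n on (0, rr n], mono_pair with os_far (LT β 1 is monotone and bounded on (0, π]).
-/

set_option autoImplicit false

namespace Pool.Agent.Work.MP_af796d_an.H

open MeasureTheory Set Real Metric Filter Topology

lemma log_SS_prim {β : ℝ → ℝ} {C : ℝ} (h : AI β C) {ρ ρ' : ℝ} (h0 : 0 < ρ) (h1 : ρ ≤ ρ') :
    IntervalIntegrable (fun r => Real.exp (β r) / SS β r) volume ρ ρ' ∧
      ∀ x ∈ Icc ρ ρ', Real.log (SS β x) =
        Real.log (SS β ρ) + ∫ r in ρ..x, Real.exp (β r) / SS β r := by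
  have hS : ∀ p x : ℝ, SS β x = SS β p + ∫ t in p..x, Real.exp (β t) := fun p x =>
    (intervalIntegral.integral_add_adjacent_intervals (h.iie 0 p) (h.iie p x)).symm
  have s0 := h.SS_pos h0
  have key : ∀ x, ρ ≤ x → IntervalIntegrable (fun r => Real.exp (β r) / SS β r) volume ρ x ∧
      Real.log (SS β x) = Real.log (SS β ρ) + ∫ r in ρ..x, Real.exp (β r) / SS β r := by
    intro x hx
    have s1 := h.SS_pos (h0.trans_le hx)
    obtain ⟨k1, k2⟩ := cov_var (S := SS β) (χ := fun t => t⁻¹) hx (h.iie ρ x)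
      (fun t => (Real.exp_pos _).le) (fun t _ => hS ρ t)
      (continuousOn_inv₀.mono fun t ht => (s0.trans_le ht.1).ne')
    simp only [div_eq_inv_mul]
    refine ⟨k1, ?_⟩
    rw [k2, integral_inv_of_pos s0 s1, Real.log_div s1.ne' s0.ne']
    ring
  exact ⟨(key ρ' h1).1, fun x hx => (key x hx.1).2⟩

lemma Star2_cont {β : ℝ → ℝ} {C : ℝ} (h : AI β C) {ρ : ℝ} (h0 : 0 < ρ) : Continuous (LT β ρ) :=
  (h.SS_cont.comp (continuous_id.max continuous_const)).log fun _ =>
    (h.SS_pos (lt_max_of_lt_right h0)).ne'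

lemma Star2_sub {f : ℝ → ℝ} (hf : IntervalIntegrable f volume 0 π) {a c : ℝ} (h0 : 0 ≤ a)
    (h1 : a ≤ c) (h2 : c ≤ π) : IntervalIntegrable f volume a c :=
  hf.mono_set (by
    rw [uIcc_of_le h1, uIcc_of_le pi_pos.le]
    exact Icc_subset_Icc h0 h2)

lemma Star2_congr {f g : ℝ → ℝ} {a c : ℝ} (h : a ≤ c) (e : ∀ r ∈ Ioc a c, f r = g r) :
    ∫ r in a..c, f r = ∫ r in a..c, g r :=
  intervalIntegral.integral_congr_ae (Eventually.of_forall fun r hr => e r (uIoc_of_le h ▸ hr))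

lemma Star2_pi (n : ℕ) : rr n ≤ π := (rr_le_one n).trans (by linarith [pi_gt_three])

lemma star2 {β : ℝ → ℝ} {C : ℝ} (h : AI β C) {ρ ρ' : ℝ} (h0 : 0 < ρ) (h1 : ρ ≤ ρ') (h2 : ρ' ≤ π)
    {γ Γ : ℝ → ℝ} (hγ : IntervalIntegrable γ volume 0 π)
    (hΓ : ∀ x ∈ Icc 0 π, Γ x = Γ 0 + ∫ t in (0 : ℝ)..x, γ t) :
    IntervalIntegrable (fun r => γ r * (LT β ρ r - LT β ρ' r)) volume 0 π ∧
      IntervalIntegrable (fun r => Γ r * (Real.exp (β r) / SS β r)) volume ρ ρ' ∧
      (∫ r in (0 : ℝ)..π, γ r * (LT β ρ r - LT β ρ' r)) +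
        ∫ r in ρ..ρ', Γ r * (Real.exp (β r) / SS β r) =
          -Γ 0 * (Real.log (SS β ρ) - Real.log (SS β ρ')) := by
  obtain ⟨l1, l2⟩ := log_SS_prim h h0 h1
  have h3 : 0 < ρ' := h0.trans_le h1
  have i0 : IntervalIntegrable (fun r => γ r * (LT β ρ r - LT β ρ' r)) volume 0 π :=
    hγ.mul_continuousOn ((Star2_cont h h0).sub (Star2_cont h h3)).continuousOn
  have g1 := Star2_sub hγ h0.le h1 h2
  have g0 := Star2_sub hγ le_rfl h0.le (h1.trans h2)
  have e0 := hΓ ρ ⟨h0.le, h1.trans h2⟩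
  obtain ⟨-, k2, k3⟩ := ibp (F := Γ) (G := fun r => Real.log (SS β r) - Real.log (SS β ρ')) h1 g1 l1
    (fun x hx => by
      rw [hΓ x ⟨h0.le.trans hx.1, hx.2.trans h2⟩, e0, add_assoc,
        intervalIntegral.integral_add_adjacent_intervals g0
          (Star2_sub hγ h0.le hx.1 (hx.2.trans h2))])
    (fun x hx => by
      beta_reduce
      rw [l2 x hx]
      ring)
  refine ⟨i0, k2, ?_⟩
  have a1 : ∫ r in (0 : ℝ)..ρ, γ r * (LT β ρ r - LT β ρ' r) =
      (Γ ρ - Γ 0) * (Real.log (SS β ρ) - Real.log (SS β ρ')) := by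
    rw [Star2_congr (g := fun r => γ r * (Real.log (SS β ρ) - Real.log (SS β ρ'))) h0.le
      fun r hr => by simp only [LT, max_eq_right hr.2, max_eq_right (hr.2.trans h1)],
      intervalIntegral.integral_mul_const, e0, add_sub_cancel_left]
  have a2 : ∫ r in ρ..ρ', γ r * (LT β ρ r - LT β ρ' r) =
      ∫ r in ρ..ρ', γ r * (Real.log (SS β r) - Real.log (SS β ρ')) :=
    Star2_congr h1 fun r hr => by simp only [LT, max_eq_left hr.1.le, max_eq_right hr.2]
  have a3 : ∫ r in ρ'..π, γ r * (LT β ρ r - LT β ρ' r) = 0 := by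
    rw [Star2_congr (g := fun _ => 0) h2 fun r hr => by
      simp only [LT, max_eq_left hr.1.le, max_eq_left (h1.trans hr.1.le), sub_self, mul_zero]]
    simp
  rw [← intervalIntegral.integral_add_adjacent_intervals (Star2_sub i0 le_rfl h3.le h2)
    (Star2_sub i0 h3.le h2 le_rfl), ← intervalIntegral.integral_add_adjacent_intervals
      (Star2_sub i0 le_rfl h0.le (h1.trans h2)) (Star2_sub i0 h0.le h1 h2), a1, a2, a3]
  linarith only [k3]

/-- one annulus. -/
lemma Star2_ann {β φ Γ : ℝ → ℝ} {C c ε M p q : ℝ} (h : AI β C) (h0 : 0 < p) (h1 : p ≤ q)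
    (hφ : Measurable φ) (hM : ∀ r ∈ Ioc p q, r * |φ r| ≤ M)
    (hi : IntervalIntegrable (fun r => Γ r * (Real.exp (β r) / SS β r)) volume p q)
    (he : ∀ r ∈ Ioc p q, |Γ r - φ r * r / c| ≤ ε) :
    |(∫ r in p..q, φ r * WW β r) / c - ∫ r in p..q, Γ r * (Real.exp (β r) / SS β r)| ≤
      ε * (Real.log (SS β q) - Real.log (SS β p)) := by
  obtain ⟨l1, l2⟩ := log_SS_prim h h0 h1
  have l0 : ∀ r ∈ Ioc p q, 0 ≤ Real.exp (β r) / SS β r := fun r hr =>
    div_nonneg (Real.exp_pos _).le (h.SS_pos (h0.trans hr.1)).le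
  have i1 : IntervalIntegrable (fun r => φ r * WW β r) volume p q := by
    refine (l1.const_mul M).mono_fun' (hφ.mul h.measurable_WW).aestronglyMeasurable ?_
    rw [uIoc_of_le h1]
    refine (ae_restrict_mem measurableSet_Ioc).mono fun r hr => ?_
    have e : φ r * WW β r = r * φ r * (Real.exp (β r) / SS β r) := by
      unfold WW
      ring
    beta_reduce
    rw [e, Real.norm_eq_abs, abs_mul, abs_mul, abs_of_nonneg (l0 r hr),
      abs_of_pos (h0.trans hr.1)]
    exact mul_le_mul_of_nonneg_right (hM r hr) (l0 r hr)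
  rw [← intervalIntegral.integral_div, ← intervalIntegral.integral_sub (i1.div_const c) hi,
    l2 q ⟨h1, le_rfl⟩, add_sub_cancel_left, ← intervalIntegral.integral_const_mul]
  rw [← Real.norm_eq_abs]
  refine intervalIntegral.norm_integral_le_of_norm_le h1
    (Eventually.of_forall fun r hr => ?_) (l1.const_mul ε)
  have e : φ r * WW β r / c - Γ r * (Real.exp (β r) / SS β r) =
      -(Γ r - φ r * r / c) * (Real.exp (β r) / SS β r) := by
    unfold WW
    ring
  rw [e, Real.norm_eq_abs, abs_mul, abs_neg, abs_of_nonneg (l0 r hr)]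
  exact mul_le_mul_of_nonneg_right (he r hr) (l0 r hr)

/-- the identity on one side. -/
lemma Star2_side (C : ℝ) : ∃ K : ℝ, 0 ≤ K ∧ ∀ (β : ℝ → ℝ) (c N : ℕ → ℝ), OS β C → WS1 β c N C →
    ∀ (k n : ℕ) (φ γ Γ : ℝ → ℝ) (ε : ℕ → ℝ) (M : ℝ), k ≤ n → Measurable φ →
      (∀ r ∈ Ioc 0 π, r * |φ r| ≤ M) → (∀ r ∈ Ioc 0 (rr n), rr n * |φ r| ≤ M) →
      (∀ x ∈ Icc 0 π, |∫ t in (0 : ℝ)..x, φ t| ≤ M) → (∀ r, rr k < r → r ≤ 1 → φ r = 0) →
      IntervalIntegrable γ volume 0 π → (∀ x ∈ Icc 0 π, Γ x = Γ 0 + ∫ t in (0 : ℝ)..x, γ t) →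
      (∀ j, k ≤ j → j < n → ∀ r ∈ Ioc (rr (j + 1)) (rr j), |Γ r - φ r * r / c j| ≤ ε j) →
      IntervalIntegrable (fun r => φ r * (β r - lg (SS β r) + lg r)) volume 0 π ∧
      IntervalIntegrable (fun r => γ r * (LT β (rr n) r - LT β (rr k) r)) volume 0 π ∧
      |(∫ r in (0 : ℝ)..π, φ r * (β r - lg (SS β r) + lg r)) +
        (∫ r in (0 : ℝ)..π, γ r * (LT β (rr n) r - LT β (rr k) r)) +
        Γ 0 * (Real.log (SS β (rr n)) - Real.log (SS β (rr k)))| ≤
          K * (M + ∑ j ∈ Finset.Ico k n, ε j) := by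
  obtain ⟨K, hK, h1⟩ := star1 C
  obtain ⟨η, η0, η1, h2⟩ := os_dbl C
  have hE : 0 ≤ -Real.log η := neg_nonneg.2 (Real.log_nonpos η0.le (by linarith))
  refine ⟨K + -Real.log η, add_nonneg hK hE, ?_⟩
  intro β c N hO hW k n φ γ Γ ε M hkn hφ m1 m2 m3 hz hγ hΓ he
  obtain ⟨a1, a2⟩ := h1 β c N hO hW n φ M hφ m1 m2 m3
  obtain ⟨b1, b2, b3⟩ := star2 hO.ai (rr_pos n) (rr_anti hkn) (Star2_pi k) hγ hΓ
  refine ⟨a1, b1, ?_⟩
  have M0 : 0 ≤ M := (abs_nonneg _).trans (m3 0 ⟨le_rfl, pi_pos.le⟩)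
  have e0 : ∀ j ∈ Finset.Ico k n, 0 ≤ ε j := fun j hj => (abs_nonneg _).trans
    (he j (Finset.mem_Ico.1 hj).1 (Finset.mem_Ico.1 hj).2 (rr j)
      ⟨by have := rr_pos j; rw [rr_succ]; linarith only [this], le_rfl⟩)
  have ii : ∀ j, k ≤ j → j < n → IntervalIntegrable
      (fun r => Γ r * (Real.exp (β r) / SS β r)) volume (rr (j + 1)) (rr j) := fun j j1 j2 =>
    b2.mono_set (by
      rw [uIcc_of_le (rr_succ_le j), uIcc_of_le (rr_anti hkn)]
      exact Icc_subset_Icc (rr_anti j2) (rr_anti j1))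
  have s1 : ∫ r in (rr n)..(rr k), Γ r * (Real.exp (β r) / SS β r) = ∑ j ∈ Finset.Ico k n,
      ∫ r in (rr (j + 1))..(rr j), Γ r * (Real.exp (β r) / SS β r) := by
    rw [intervalIntegral.integral_symm, ← intervalIntegral.sum_integral_adjacent_intervals_Ico hkn
      fun j hj => (ii j hj.1 hj.2).symm, ← Finset.sum_neg_distrib]
    exact Finset.sum_congr rfl fun j _ => (intervalIntegral.integral_symm _ _).symm
  have s2 : ∑ j ∈ Finset.range n, (∫ r in (rr (j + 1))..(rr j), φ r * WW β r) / c j =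
      ∑ j ∈ Finset.Ico k n, (∫ r in (rr (j + 1))..(rr j), φ r * WW β r) / c j := by
    rw [← Finset.sum_range_add_sum_Ico _ hkn, Finset.sum_eq_zero, zero_add]
    intro j hj
    rw [Star2_congr (g := fun _ => 0) (rr_succ_le j) fun r hr => by
      rw [hz r ((rr_anti (Finset.mem_range.1 hj)).trans_lt hr.1) (hr.2.trans (rr_le_one j)),
        zero_mul]]
    simp
  have s3 : |∑ j ∈ Finset.Ico k n, (∫ r in (rr (j + 1))..(rr j), φ r * WW β r) / c j -
      ∑ j ∈ Finset.Ico k n, ∫ r in (rr (j + 1))..(rr j), Γ r * (Real.exp (β r) / SS β r)| ≤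
      -Real.log η * ∑ j ∈ Finset.Ico k n, ε j := by
    rw [← Finset.sum_sub_distrib, Finset.mul_sum]
    refine (Finset.abs_sum_le_sum_abs _ _).trans (Finset.sum_le_sum fun j hj => ?_)
    obtain ⟨j1, j2⟩ := Finset.mem_Ico.1 hj
    refine (Star2_ann hO.ai (rr_pos _) (rr_succ_le j) hφ (M := M) (fun r hr => m1 r
      ⟨(rr_pos _).trans hr.1, hr.2.trans (Star2_pi j)⟩) (ii j j1 j2) (he j j1 j2)).trans ?_
    rw [mul_comm]
    refine mul_le_mul_of_nonneg_right ?_ (e0 j hj)
    have s0 := hO.ai.SS_pos (rr_pos j)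
    have d := Real.log_le_log (mul_pos η0 s0) (h2 β hO.ai (rr j) (rr_pos j) (Star2_pi j)).1
    rw [Real.log_mul η0.ne' s0.ne', ← rr_succ] at d
    linarith only [d]
  have s4 := Finset.sum_nonneg e0
  rw [s2] at a2
  rw [s1] at b3
  rw [abs_le] at a2 s3 ⊢
  constructor <;> linarith only [a2, b3, s3, hK, s4, hE, M0, mul_nonneg hK s4, mul_nonneg hE M0]

/-- splitting an integral at zero. -/
lemma Star2_split {F F₁ F₂ : ℝ → ℝ} (h1 : IntervalIntegrable F₁ volume 0 π)
    (h2 : IntervalIntegrable F₂ volume 0 π) (e1 : ∀ r ∈ Ioc 0 π, F r = F₁ r)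
    (e2 : ∀ r ∈ Ioc 0 π, F (-r) = F₂ r) : IntervalIntegrable F volume (-π) π ∧
      ∫ s in (-π)..π, F s = (∫ r in (0 : ℝ)..π, F₁ r) + ∫ r in (0 : ℝ)..π, F₂ r := by
  have i1 : IntervalIntegrable F volume 0 π :=
    h1.congr fun r hr => (e1 r (uIoc_of_le pi_pos.le ▸ hr)).symm
  have i2 : IntervalIntegrable (fun r => F (-r)) volume 0 π :=
    h2.congr fun r hr => (e2 r (uIoc_of_le pi_pos.le ▸ hr)).symm
  have i3 : IntervalIntegrable F volume (-π) 0 := by
    rw [IntervalIntegrable.iff_comp_neg, neg_neg, neg_zero]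
    exact i2.symm
  refine ⟨i3.trans i1, ?_⟩
  rw [← intervalIntegral.integral_add_adjacent_intervals i3 i1, ← Star2_congr pi_pos.le e1,
    ← Star2_congr pi_pos.le e2, intervalIntegral.integral_comp_neg, neg_zero, add_comm]

lemma Star2_neg (f : ℝ → ℝ) (x : ℝ) : ∫ t in (0 : ℝ)..x, f (-t) = -∫ t in (0 : ℝ)..(-x), f t := by
  rw [intervalIntegral.integral_comp_neg, neg_zero, intervalIntegral.integral_symm]

lemma Star2_lg1 {Φ b : ℝ → ℝ} {C : ℝ} (h : St Φ b C) (y r : ℝ) :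
    lg (Φ (y + r) - Φ y) = lg (SS (sd b y 1) r) := by rw [h.SS_pos_eq]

lemma Star2_lg2 {Φ b : ℝ → ℝ} {C : ℝ} (h : St Φ b C) (y r : ℝ) :
    lg (Φ (y + -r) - Φ y) = lg (SS (sd b y (-1)) r) := by
  rw [h.SS_neg_eq, ← lg_neg, neg_sub, ← sub_eq_add_neg]

lemma Star2_LL1 (b : ℝ → ℝ) (y ρ : ℝ) {r : ℝ} (h : 0 < r) : LL b y ρ r = LT (sd b y 1) ρ r := by
  rw [LL, if_pos h.le]

lemma Star2_LL2 (b : ℝ → ℝ) (y ρ : ℝ) {r : ℝ} (h : 0 < r) :
    LL b y ρ (-r) = LT (sd b y (-1)) ρ r := by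
  rw [LL, if_neg (by linarith), neg_neg]

theorem star (C : ℝ) : ∃ K : ℝ, 0 ≤ K ∧ ∀ (Φ b : ℝ → ℝ) (y : ℝ) (c : ℕ → ℝ), St Φ b C →
    WSy b y c C → ∀ (k n : ℕ) (φ γ Γ : ℝ → ℝ) (ε : ℕ → ℝ) (M : ℝ), k ≤ n → Measurable φ →
      (∀ s, |s| ≤ π → |s| * |φ s| ≤ M) → (∀ s, |s| ≤ rr n → rr n * |φ s| ≤ M) →
      (∀ x, |x| ≤ π → |∫ t in (0 : ℝ)..x, φ t| ≤ M) → (∀ s, rr k < |s| → |s| ≤ 1 → φ s = 0) →
      IntervalIntegrable γ volume (-π) π → (∀ x, |x| ≤ π → Γ x = Γ 0 + ∫ t in (0 : ℝ)..x, γ t) →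
      |Γ 0| ≤ M →
      (∀ j, k ≤ j → j < n → ∀ s, rr (j + 1) < |s| → |s| ≤ rr j → |Γ s - φ s * s / c j| ≤ ε j) →
      IntervalIntegrable (fun s => φ s * (b (y + s) - lg (Φ (y + s) - Φ y) + lg s)) volume (-π) π ∧
      IntervalIntegrable (fun s => γ s * (LL b y (rr n) s - LL b y (rr k) s)) volume (-π) π ∧
      |(∫ s in (-π)..π, φ s * (b (y + s) - lg (Φ (y + s) - Φ y) + lg s)) +
        ∫ s in (-π)..π, γ s * (LL b y (rr n) s - LL b y (rr k) s)| ≤
          K * (M + ∑ j ∈ Finset.Ico k n, ε j) := by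
  obtain ⟨C', hC, h0⟩ := st_os C
  obtain ⟨K, hK, h1⟩ := Star2_side C'
  obtain ⟨A, hA, h2⟩ := st_qs C
  refine ⟨2 * K + 2 * A, by positivity, ?_⟩
  intro Φ b y c hS ⟨N₁, N₂, w1, w2⟩ k n φ γ Γ ε M hkn hφ m1 m2 m3 hz hγ hΓ m4 he
  have hπ := pi_pos
  have g1 : IntervalIntegrable γ volume 0 π := hγ.mono_set (by
    rw [uIcc_of_le hπ.le, uIcc_of_le (by linarith only [hπ])]
    exact Icc_subset_Icc (by linarith) le_rfl)
  have g2 : IntervalIntegrable (fun r => γ (-r)) volume 0 π := by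
    have : IntervalIntegrable γ volume 0 (-π) := hγ.mono_set (by
      rw [uIcc_of_ge (by linarith), uIcc_of_le (by linarith)]
      exact Icc_subset_Icc le_rfl hπ.le)
    rwa [IntervalIntegrable.iff_comp_neg, neg_neg, neg_zero] at this
  obtain ⟨a1, a2, a3⟩ := h1 _ c N₁ (h0 Φ b hS y).1 (w1.mono hC) k n φ γ Γ ε M hkn hφ
    (fun r hr => by simpa only [abs_of_pos hr.1] using m1 r (by rw [abs_of_pos hr.1]; exact hr.2))
    (fun r hr => m2 r (by rw [abs_of_pos hr.1]; exact hr.2))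
    (fun x hx => m3 x (by rw [abs_of_nonneg hx.1]; exact hx.2))
    (fun r r1 r2 => by
      have := abs_of_pos ((rr_pos k).trans r1)
      exact hz r (by rwa [this]) (by rwa [this])) g1
    (fun x hx => hΓ x (by rw [abs_of_nonneg hx.1]; exact hx.2))
    (fun j j1 j2 r hr => by
      have := abs_of_pos ((rr_pos _).trans hr.1)
      exact he j j1 j2 r (by rw [this]; exact hr.1) (by rw [this]; exact hr.2))
  obtain ⟨b1, b2, b3⟩ := h1 _ c N₂ (h0 Φ b hS y).2 (w2.mono hC) k n (fun r => φ (-r))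
    (fun r => γ (-r)) (fun r => -Γ (-r)) ε M hkn (hφ.comp measurable_neg)
    (fun r hr => by
      simpa only [abs_neg, abs_of_pos hr.1] using
        m1 (-r) (by rw [abs_neg, abs_of_pos hr.1]; exact hr.2))
    (fun r hr => m2 (-r) (by rw [abs_neg, abs_of_pos hr.1]; exact hr.2))
    (fun x hx => by
      rw [Star2_neg, abs_neg]
      exact m3 (-x) (by rw [abs_neg, abs_of_nonneg hx.1]; exact hx.2))
    (fun r r1 r2 => by
      have := abs_of_pos ((rr_pos k).trans r1)
      exact hz (-r) (by rwa [abs_neg, this]) (by rwa [abs_neg, this])) g2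
    (fun x hx => by
      rw [Star2_neg, hΓ (-x) (by rw [abs_neg, abs_of_nonneg hx.1]; exact hx.2), neg_zero]
      ring)
    (fun j j1 j2 r hr => by
      have := abs_of_pos ((rr_pos _).trans hr.1)
      have e : -Γ (-r) - φ (-r) * r / c j = -(Γ (-r) - φ (-r) * -r / c j) := by ring
      rw [e, abs_neg]
      exact he j j1 j2 (-r) (by rw [abs_neg, this]; exact hr.1) (by rw [abs_neg, this]; exact hr.2))
  obtain ⟨c1, c2⟩ := Star2_split
    (F := fun s => φ s * (b (y + s) - lg (Φ (y + s) - Φ y) + lg s)) a1 b1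
    (fun r _ => by simp only [Star2_lg1 hS, sd, one_mul])
    (fun r _ => by simp only [Star2_lg2 hS, lg_neg, sd, neg_one_mul])
  obtain ⟨d1, d2⟩ := Star2_split
    (F := fun s => γ s * (LL b y (rr n) s - LL b y (rr k) s)) a2 b2
    (fun r hr => by simp only [Star2_LL1 b y _ hr.1])
    (fun r hr => by simp only [Star2_LL2 b y _ hr.1])
  refine ⟨c1, d1, ?_⟩
  have e0 : 0 ≤ ∑ j ∈ Finset.Ico k n, ε j := Finset.sum_nonneg fun j hj => (abs_nonneg _).trans
    (he j (Finset.mem_Ico.1 hj).1 (Finset.mem_Ico.1 hj).2 (rr j)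
      (by have := rr_pos j; rw [rr_succ, abs_of_pos this]; linarith only [this]) (abs_of_pos (rr_pos j)).le)
  have q : ∀ j, |Γ 0 * (Real.log (SS (sd b y 1) (rr j)) - Real.log (SS (sd b y (-1)) (rr j)))| ≤
      M * A := fun j => by
    rw [abs_mul]
    exact mul_le_mul m4 (h2 Φ b hS y _ (rr_pos j) (Star2_pi j)) (abs_nonneg _)
      ((abs_nonneg _).trans m4)
  have q1 := q n
  have q2 := q k
  rw [neg_zero] at b3
  rw [c2, d2]
  rw [abs_le] at a3 b3 q1 q2 ⊢
  constructor <;> linarith only [a3, b3, q1, q2, hA, e0, mul_nonneg hA e0]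

/-- removing the truncation on one side. -/
lemma Star2_side0 (C : ℝ) : ∃ K : ℝ, 0 ≤ K ∧ ∀ β : ℝ → ℝ, OS β C → ∀ (ρ : ℝ) (γ : ℝ → ℝ) (M : ℝ),
    0 < ρ → ρ ≤ π → Continuous γ → (∀ x ∈ Icc 0 π, |∫ t in (0 : ℝ)..x, γ t| ≤ M) →
      (∀ r ∈ Ioc 0 ρ, ρ * |γ r| ≤ M) →
      IntervalIntegrable (fun r => γ r * lg (SS β r)) volume 0 π ∧
      |(∫ r in (0 : ℝ)..π, γ r * lg (SS β r)) -
        ∫ r in (0 : ℝ)..π, γ r * (LT β ρ r - LT β 1 r)| ≤ K * M := by
  obtain ⟨A₁, p1, h1⟩ := os_sg C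
  obtain ⟨A₂, p2, h2⟩ := os_A7 C
  obtain ⟨A₃, p3, h3⟩ := os_far C
  refine ⟨5 * A₁ + A₂ + 5 * A₃, by positivity, fun β hO ρ γ M r0 r1 hγ m1 m2 => ?_⟩
  have hπ := pi_pos
  have gi := hγ.intervalIntegrable (μ := volume) 0 π
  obtain ⟨a1, a2⟩ := anti_pair hπ.le gi m1 (h1 β hO).1 (h1 β hO).2 p1
  obtain ⟨b1, b2⟩ := mono_pair (χ := LT β 1) hπ.le gi m1
    (fun s _ t _ st => Real.log_le_log (hO.ai.SS_pos (lt_max_of_lt_right one_pos))
      (hO.ai.SS_mono.monotone (max_le_max_right 1 st)))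
    (fun t ht => h3 β hO _ ⟨le_max_right _ _, max_le ht.2 (by linarith [pi_gt_three])⟩) p3
  have c0 := (h2 β hO.ai π hπ le_rfl).1
  have c1 : IntervalIntegrable (fun r => γ r * (Real.log (SS β r) - LT β ρ r)) volume 0 π :=
    (c0.sub ((Star2_cont hO.ai r0).intervalIntegrable 0 π)).continuousOn_mul hγ.continuousOn
  have c2 : |∫ r in (0 : ℝ)..π, γ r * (Real.log (SS β r) - LT β ρ r)| ≤ A₂ * M := by
    have M0 : 0 ≤ M := (abs_nonneg _).trans (m1 0 ⟨le_rfl, hπ.le⟩)
    have z : ∫ r in ρ..π, γ r * (Real.log (SS β r) - LT β ρ r) = 0 := by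
      rw [Star2_congr (g := fun _ => 0) r1 fun r hr => by
        simp only [LT, max_eq_left hr.1.le, sub_self, mul_zero]]
      simp
    rw [← intervalIntegral.integral_add_adjacent_intervals (Star2_sub c1 le_rfl r0.le r1)
      (Star2_sub c1 r0.le r1 le_rfl), z, add_zero]
    obtain ⟨d1, d2⟩ := h2 β hO.ai ρ r0 r1
    rw [← Real.norm_eq_abs]
    refine (intervalIntegral.norm_integral_le_of_norm_le r0.le
      (g := fun r => M / ρ * |Real.log (SS β r) - Real.log (SS β ρ)|)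
      (Eventually.of_forall fun r hr => ?_)
      ((d1.sub intervalIntegrable_const).abs.const_mul _)).trans ?_
    · rw [Real.norm_eq_abs, abs_mul, LT, max_eq_right hr.2]
      refine mul_le_mul_of_nonneg_right ?_ (abs_nonneg _)
      rw [le_div_iff₀ r0, mul_comm]
      exact m2 r hr
    · rw [intervalIntegral.integral_const_mul]
      refine (mul_le_mul_of_nonneg_left d2 (by positivity)).trans_eq ?_
      field_simp
  have d1 : IntervalIntegrable (fun r => γ r * (LT β ρ r - LT β 1 r)) volume 0 π :=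
    gi.mul_continuousOn ((Star2_cont hO.ai r0).sub (Star2_cont hO.ai one_pos)).continuousOn
  have e : (fun r => γ r * lg (SS β r)) = fun r => γ r * sg (SS β r) +
      γ r * (Real.log (SS β r) - LT β ρ r) + γ r * LT β 1 r + γ r * (LT β ρ r - LT β 1 r) := by
    funext r
    unfold sg
    ring
  rw [e]
  refine ⟨((a1.add c1).add b1).add d1, ?_⟩
  rw [intervalIntegral.integral_add ((a1.add c1).add b1) d1,
    intervalIntegral.integral_add (a1.add c1) b1, intervalIntegral.integral_add a1 c1]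
  rw [abs_le] at a2 b2 c2 ⊢
  constructor <;> linarith only [a2, b2, c2]

theorem star0 (C : ℝ) : ∃ K : ℝ, 0 ≤ K ∧ ∀ (Φ b : ℝ → ℝ) (y : ℝ) (c : ℕ → ℝ), St Φ b C →
    WSy b y c C → ∀ (n : ℕ) (φ γ f Γ : ℝ → ℝ) (ε : ℕ → ℝ) (M : ℝ), Continuous φ → Continuous γ →
      (∀ s, HasDerivAt f (φ s) s) → (∀ s, HasDerivAt Γ (γ s) s) → (∀ s, |f s| ≤ M) →
      (∀ s, |Γ s| ≤ M) → (∀ s, |s| ≤ π → |s| * |φ s| ≤ M) →
      (∀ s, |s| ≤ rr n → rr n * |φ s| ≤ M) → (∀ s, |s| ≤ rr n → rr n * |γ s| ≤ M) →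
      (∀ j, j < n → ∀ s, rr (j + 1) < |s| → |s| ≤ rr j → |Γ s - φ s * s / c j| ≤ ε j) →
      |(∫ s in (-π)..π, φ s * (b (y + s) - lg (Φ (y + s) - Φ y) + lg s)) +
        ∫ s in (-π)..π, γ s * lg (Φ (y + s) - Φ y)| ≤ K * (M + ∑ j ∈ Finset.range n, ε j) := by
  obtain ⟨C', -, h0⟩ := st_os C
  obtain ⟨K, hK, h1⟩ := star C
  obtain ⟨A, hA, h2⟩ := Star2_side0 C'
  refine ⟨2 * K + 4 * A, by positivity, ?_⟩
  intro Φ b y c hS hW n φ γ f Γ ε M hφ hγ df dΓ mf mΓ m1 m2 m3 he
  have M0 : 0 ≤ M := (abs_nonneg _).trans (mf 0)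
  have pr : ∀ {F g : ℝ → ℝ}, Continuous g → (∀ s, HasDerivAt F (g s) s) → ∀ x,
      ∫ t in (0 : ℝ)..x, g t = F x - F 0 := fun hg hd x =>
    intervalIntegral.integral_eq_sub_of_hasDerivAt (fun s _ => hd s) (hg.intervalIntegrable _ _)
  have bd : ∀ {F g : ℝ → ℝ}, Continuous g → (∀ s, HasDerivAt F (g s) s) → (∀ s, |F s| ≤ M) → ∀ x,
      |∫ t in (0 : ℝ)..x, g t| ≤ 2 * M := fun hg hd hb x => by
    rw [pr hg hd]
    exact (abs_sub _ _).trans (by linarith [hb x, hb 0])
  obtain ⟨-, -, a3⟩ := h1 Φ b y c hS hW 0 n φ γ Γ ε (2 * M) (Nat.zero_le n) hφ.measurable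
    (fun s hs => by linarith [m1 s hs]) (fun s hs => by linarith [m2 s hs])
    (fun x _ => bd hφ df mf x) (fun s s1 s2 => absurd s2 (by rw [rr_zero] at s1; linarith))
    (hγ.intervalIntegrable _ _) (fun x _ => by rw [pr hγ dΓ]; ring) (by linarith [mΓ 0])
    fun j _ => he j
  obtain ⟨b1, b2⟩ := h2 _ (h0 Φ b hS y).1 (rr n) γ (2 * M) (rr_pos n) (Star2_pi n) hγ
    (fun x _ => bd hγ dΓ mΓ x)
    fun r hr => by linarith [m3 r (by rw [abs_of_pos hr.1]; exact hr.2)]
  obtain ⟨c1, c2⟩ := h2 _ (h0 Φ b hS y).2 (rr n) (fun r => γ (-r)) (2 * M) (rr_pos n) (Star2_pi n)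
    (hγ.comp continuous_neg) (fun x _ => by rw [Star2_neg, abs_neg]; exact bd hγ dΓ mΓ _)
    fun r hr => by linarith [m3 (-r) (by rw [abs_neg, abs_of_pos hr.1]; exact hr.2)]
  have ii : ∀ {β g : ℝ → ℝ}, AI β C' → Continuous g →
      IntervalIntegrable (fun r => g r * (LT β (rr n) r - LT β 1 r)) volume 0 π := fun h hg =>
    (hg.mul ((Star2_cont h (rr_pos n)).sub (Star2_cont h one_pos))).intervalIntegrable _ _
  obtain ⟨-, d1⟩ := Star2_split (F := fun s => γ s * lg (Φ (y + s) - Φ y)) b1 c1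
    (fun r _ => by simp only [Star2_lg1 hS]) fun r _ => by simp only [Star2_lg2 hS]
  obtain ⟨-, d2⟩ := Star2_split (F := fun s => γ s * (LL b y (rr n) s - LL b y 1 s))
    (ii (h0 Φ b hS y).1.ai hγ) (ii (h0 Φ b hS y).2.ai (hγ.comp continuous_neg))
    (fun r hr => by simp only [Star2_LL1 b y _ hr.1])
    fun r hr => by simp only [Star2_LL2 b y _ hr.1, Function.comp]
  have e0 : 0 ≤ ∑ j ∈ Finset.range n, ε j := Finset.sum_nonneg fun j hj => (abs_nonneg _).trans
    (he j (Finset.mem_range.1 hj) (rr j)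
      (by have := rr_pos j; rw [rr_succ, abs_of_pos this]; linarith only [this]) (abs_of_pos (rr_pos j)).le)
  rw [rr_zero, d2, ← Finset.range_eq_Ico] at a3
  simp only [Function.comp] at a3
  rw [d1]
  rw [abs_le] at a3 b2 c2 ⊢
  constructor <;> linarith only [a3, b2, c2, hA, e0, hK, mul_nonneg hA e0, mul_nonneg hK e0]

end Pool.Agent.Work.MP_af796d_an.H
end

-- merged part: Pool.Agent.Work.MP_af796d_an.H.HubN
section
/-!
# Necessity of the hub condition
PLAN.
* bb_id: JJ_id_wg and JJ_boundary (Core.lean, Pzero.lean): the integral is π (Im g (ex y) - Im g 0).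
* bb_of_presL: PresL.test (Mod2.lean) with w = wg g, c = 2π M: integral_wg for the primitive, JJ_id_wg with a = y for the potential,
  integrability from UI (continuous times integrable).
* shift_int: substitution t = y + s and Function.Periodic.intervalIntegral_add_eq.
* hb_of_bb.  Fix y, g, M, c from WSy.  ‖g‖ ≤ M on the disc (norm_le_of_sphere).  If M = 0 then wg g = 0.  Let M > 0.
  d k = 1 / c k has |d 0| ≤ C and variation ≤ C^3.  For n to be chosen put m = stp d n y, a z = -I (z ex (-y) - 1),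
  g1 z = deriv g z * (I z), G = g1 * a * m (analytic near the disc).  On the circle ‖a‖ = ch (t - y), so ‖G‖ ≤ M (C + C^3) on the circle, hence on the disc.
  wg G is bounded independently of n: deriv G = g1' a m + g1 a' m + g1 a m', with ‖a‖ ≤ 2, ‖a'‖ = 1, ‖m‖ ≤ C + C^3, ‖a m'‖ ≤ C^3 (stp_deriv),
  and g1, g1' bounded on the circle.  Choose n with rr n * B ≤ M for a common bound B of |wg g| and |wg G|.
  Apply star0 with φ s = wg g (y+s), f s = Re g (ex (y+s)), γ s = wg G (y+s), Γ s = Re G (ex (y+s)), constant M' = (2 + C + C^3) M.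
  (|s| |φ s| ≤ 2 ch s ‖deriv g‖ by le_ch'.)  On the annulus j, with x = ch s: Γ s - φ s * s / c j = Re (g1 * (a m - s / c j)),
  ‖g1‖ ≤ M/x, ‖a m - s/c j‖ ≤ x ‖m - d j‖ + C ‖a - s‖, ‖a - s‖ = ‖exp (i s) - 1 - i s‖ ≤ s^2 (Complex.norm_exp_sub_one_sub_id_le), x ≥ |s|/2.
  So ε j = M (8 gc d n j + 2 C rr j), sum ≤ M (24 C^3 + 4 C) (stp_sub, gc_sum).  Finally ∫ φ b = total - (- ∫ φ ℓ + ∫ φ lg + ∫ γ ℓ), each of the three
  bounded through BB Φ and bb_id after shift_int (integrability from St.ui, intervalIntegrable_lg, AI.ii).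
-/

set_option autoImplicit false

namespace Pool.Agent.Work.MP_af796d_an.H

open MeasureTheory Set Real Metric Filter Topology

lemma HubN_pot {g : ℂ → ℂ} (hg : AnalyticOnNhd ℂ g (closedBall 0 1)) {M : ℝ}
    (hM : ∀ z : ℂ, ‖z‖ ≤ 1 → ‖g z‖ ≤ M) (a s : ℝ) :
    |∫ t in a..(a + 2 * π), lg (t - s) * wg g t| ≤ 2 * π * M := by
  have h1 := JJ_id_wg hg a (z := ex s) (norm_ex s).le
  have h2 := JJ_boundary id (wg g) a s
  simp only [id] at h2
  have h3 : ∫ t in a..(a + 2 * π), lg (t - s) * wg g t = π * ((g (ex s)).im - (g 0).im) := by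
    rw [← h1, h2]
    field_simp
  have h4 := (Complex.abs_im_le_norm (g (ex s))).trans (hM _ (norm_ex s).le)
  have h5 := (Complex.abs_im_le_norm (g 0)).trans (hM 0 (by simp))
  have h6 := abs_sub (g (ex s)).im (g 0).im
  rw [h3, abs_mul, abs_of_pos pi_pos]
  linarith only [h4, h5, h6, pi_pos, mul_nonneg_of_nonpos_of_nonpos (Mathlib.Tactic.Linarith.sub_nonpos_of_le h4) (le_of_lt (Mathlib.Tactic.Linarith.sub_neg_of_lt pi_pos)), mul_nonneg_of_nonpos_of_nonpos (Mathlib.Tactic.Linarith.sub_nonpos_of_le h5) (le_of_lt (Mathlib.Tactic.Linarith.sub_neg_of_lt pi_pos)), mul_nonneg_of_nonpos_of_nonpos (Mathlib.Tactic.Linarith.sub_nonpos_of_le h6) (le_of_lt (Mathlib.Tactic.Linarith.sub_neg_of_lt pi_pos))]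

lemma bb_id : BB id (2 * π) := by
  intro g hg M hM y
  exact HubN_pot hg hM y y

theorem bb_of_presL {Φ : ℝ → ℝ} (hΦ : Good Φ) (hU : UI Φ) (h : PresL Φ) : ∃ K, BB Φ K := by
  obtain ⟨K, -, hK⟩ := h.test hΦ
  refine ⟨K * (2 * π), fun g hg M hM y => ?_⟩
  obtain ⟨B, hB⟩ := exists_bound_wg hg
  rw [mul_assoc]
  refine hK (wg g) B (2 * π * M) y (continuous_wg hg).measurable hB ?_
    ((hU.1 y _ _).mul_continuousOn (continuous_wg hg).continuousOn) (fun x _ => ?_)
    fun s => HubN_pot hg hM y s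
  · rw [integral_wg hg, ex_periodic y, sub_self]
  · have h4 := (Complex.abs_re_le_norm (g (ex x))).trans (hM _ (norm_ex x).le)
    have h5 := (Complex.abs_re_le_norm (g (ex y))).trans (hM _ (norm_ex y).le)
    have h6 := abs_sub (g (ex x)).re (g (ex y)).re
    have h7 : 0 ≤ M := (abs_nonneg _).trans h4
    rw [integral_wg hg]
    linarith only [h4, h5, h6, h7, pi_gt_three, mul_nonneg_of_nonpos_of_nonpos (Mathlib.Tactic.Linarith.sub_nonpos_of_le h7) (le_of_lt (Mathlib.Tactic.Linarith.sub_neg_of_lt pi_gt_three))]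

lemma shift_int {F : ℝ → ℝ} (hF : Function.Periodic F (2 * π)) (y a : ℝ) :
    ∫ s in (-π)..π, F (y + s) = ∫ t in a..(a + 2 * π), F t := by
  rw [intervalIntegral.integral_comp_add_left, ← hF.intervalIntegral_add_eq (y + -π) a]
  congr 1
  ring

lemma HubN_ii {F : ℝ → ℝ} (hF : ∀ a c, IntervalIntegrable F volume a c) (y a c : ℝ) :
    IntervalIntegrable (fun s => F (y + s)) volume a c := by
  simpa using (hF (a + y) (c + y)).comp_add_left y

lemma HubN_rr (n : ℕ) : ∑ j ∈ Finset.range n, rr j ≤ 2 := by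
  have h : ∑ j ∈ Finset.range n, rr j = 2 - 2 * rr n := by
    induction n with
    | zero => simp [rr_zero]
    | succ n ih => rw [Finset.sum_range_succ, ih, rr_succ]; ring
  linarith [rr_pos n]

lemma HubN_d {c : ℕ → ℝ} {C : ℝ} (h : CS c C) :
    (∀ k, |1 / c k| ≤ C) ∧
      ∀ n, ∑ k ∈ Finset.range n, |1 / c (k + 1) - 1 / c k| ≤ C ^ 3 := by
  have C0 : 0 < C := lt_of_lt_of_le one_pos h.one
  have c0 : ∀ k, 0 < c k := fun k => lt_of_lt_of_le (by positivity) (h.lo k)
  have h1 : ∀ k, |1 / c k| ≤ C := fun k => by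
    have := h.lo k
    rw [div_le_iff₀ C0] at this
    rw [abs_of_pos (one_div_pos.2 (c0 k)), div_le_iff₀ (c0 k)]
    linarith
  refine ⟨h1, fun n => ?_⟩
  have h2 : ∀ k, |1 / c (k + 1) - 1 / c k| ≤ C ^ 2 * |c (k + 1) - c k| := fun k => by
    have e : 1 / c (k + 1) - 1 / c k = 1 / c (k + 1) * (1 / c k) * (c k - c (k + 1)) := by
      have := (c0 k).ne'
      have := (c0 (k + 1)).ne'
      field_simp
    rw [e, abs_mul, abs_mul, abs_sub_comm, sq]
    exact mul_le_mul_of_nonneg_right (mul_le_mul (h1 _) (h1 _) (abs_nonneg _) C0.le) (abs_nonneg _)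
  refine (Finset.sum_le_sum fun k _ => h2 k).trans ?_
  rw [← Finset.mul_sum, pow_succ C 2]
  exact mul_le_mul_of_nonneg_left (h.bv n) (by positivity)

lemma HubN_bd {P : ℂ → ℂ} (hP : AnalyticOnNhd ℂ P (closedBall 0 1)) :
    ∃ B, 0 ≤ B ∧ ∀ t, ‖P (ex t)‖ ≤ B := by
  obtain ⟨B, hB⟩ := (isCompact_closedBall (0 : ℂ) 1).exists_bound_of_continuousOn hP.continuousOn
  exact ⟨B, (norm_nonneg _).trans (hB _ (ex_mem 0)), fun t => hB _ (ex_mem t)⟩

lemma HubN_wg (g : ℂ → ℂ) (t : ℝ) : |wg g t| ≤ ‖deriv g (ex t)‖ := by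
  refine (Complex.abs_re_le_norm _).trans_eq ?_
  rw [norm_mul, norm_mul, Complex.norm_I, norm_ex, mul_one, mul_one]

/-- the analytic model of `t - y`. -/
noncomputable def HubN_a (y : ℝ) (z : ℂ) : ℂ := Complex.I * (1 - z * ex (-y))

lemma HubN_a_norm (y t : ℝ) : ‖HubN_a y (ex t)‖ = ch (t - y) := by
  rw [HubN_a, norm_mul, Complex.norm_I, one_mul, Tau_ch]

lemma HubN_a_sub (y : ℝ) {s : ℝ} (hs : |s| ≤ 1) : ‖HubN_a y (ex (y + s)) - s‖ ≤ s ^ 2 := by
  have e : HubN_a y (ex (y + s)) - s =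
      -Complex.I * (Complex.exp (Complex.I * s) - 1 - Complex.I * s) := by
    have h1 := ex_neg_mul y
    have h2 : ex s = Complex.exp (Complex.I * s) := rfl
    rw [HubN_a, ex_add, ← h2]
    linear_combination (-Complex.I * ex s) * h1 - (s : ℂ) * Complex.I_mul_I
  have h3 : ‖Complex.I * (s : ℂ)‖ = |s| := by
    rw [norm_mul, Complex.norm_I, one_mul, Complex.norm_real, Real.norm_eq_abs]
  rw [e, norm_mul, norm_neg, Complex.norm_I, one_mul, ← sq_abs s, ← h3]
  exact Complex.norm_exp_sub_one_sub_id_le (h3.trans_le hs)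

/-- the angular derivative. -/
noncomputable def HubN_g (g : ℂ → ℂ) (z : ℂ) : ℂ := deriv g z * (Complex.I * z)

lemma HubN_g_norm (g : ℂ → ℂ) (t : ℝ) : ‖HubN_g g (ex t)‖ = ‖deriv g (ex t)‖ := by
  rw [HubN_g, norm_mul, norm_mul, Complex.norm_I, norm_ex, mul_one, mul_one]

lemma HubN_an {g : ℂ → ℂ} (hg : AnalyticOnNhd ℂ g (closedBall 0 1)) (y : ℝ) :
    AnalyticOnNhd ℂ (fun z => HubN_g g z * HubN_a y z) (closedBall 0 1) :=
  (hg.deriv.mul (analyticOnNhd_const.mul analyticOnNhd_id)).mul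
    (analyticOnNhd_const.mul (analyticOnNhd_const.sub (analyticOnNhd_id.mul analyticOnNhd_const)))

lemma HubN_ann {g : ℂ → ℂ} {y M C e D s : ℝ} {m : ℂ} (hs : |s| ≤ 1)
    (hg : ch s * ‖deriv g (ex (y + s))‖ ≤ M) (hm : ‖m - (D : ℂ)‖ ≤ e) (hD : |D| ≤ C) :
    |(HubN_g g (ex (y + s)) * HubN_a y (ex (y + s)) * m).re - wg g (y + s) * s * D| ≤
      M * e + 2 * C * M * |s| := by
  have e1 : (HubN_g g (ex (y + s)) * HubN_a y (ex (y + s)) * m).re - wg g (y + s) * s * D =
      (HubN_g g (ex (y + s)) * HubN_a y (ex (y + s)) * (m - D) +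
        HubN_g g (ex (y + s)) * (HubN_a y (ex (y + s)) - s) * D).re := by
    have h1 : wg g (y + s) = (HubN_g g (ex (y + s))).re := rfl
    have h2 : HubN_g g (ex (y + s)) * HubN_a y (ex (y + s)) * (m - D) +
        HubN_g g (ex (y + s)) * (HubN_a y (ex (y + s)) - s) * D =
        HubN_g g (ex (y + s)) * HubN_a y (ex (y + s)) * m -
          HubN_g g (ex (y + s)) * ((s * D : ℝ) : ℂ) := by
      push_cast
      ring
    rw [h2, Complex.sub_re, Complex.re_mul_ofReal, h1, mul_assoc _ s D]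
  have M0 : 0 ≤ M := le_trans (mul_nonneg (ch_nonneg _) (norm_nonneg _)) hg
  have C0 : 0 ≤ C := (abs_nonneg _).trans hD
  have h1 : |s| / 2 ≤ ch s := le_ch' (by linarith [pi_gt_three])
  have h2 : ‖deriv g (ex (y + s))‖ * |s| ≤ 2 * M := by
    linarith only [hg, h1, norm_nonneg (deriv g (ex (y + s))), mul_nonneg_of_nonpos_of_nonpos (Mathlib.Tactic.Linarith.sub_nonpos_of_le h1) (Mathlib.Tactic.Linarith.sub_nonpos_of_le (norm_nonneg (deriv g (ex (y + s)))))]
  rw [e1]
  refine (Complex.abs_re_le_norm _).trans ((norm_add_le _ _).trans (add_le_add ?_ ?_))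
  · rw [norm_mul, norm_mul, HubN_g_norm, HubN_a_norm, add_sub_cancel_left, mul_comm _ (ch s)]
    exact mul_le_mul hg hm (norm_nonneg _) M0
  · rw [norm_mul, norm_mul, HubN_g_norm, Complex.norm_real, Real.norm_eq_abs]
    calc _ ≤ ‖deriv g (ex (y + s))‖ * s ^ 2 * C :=
          mul_le_mul (mul_le_mul_of_nonneg_left (HubN_a_sub y hs) (norm_nonneg _)) hD
            (abs_nonneg _) (by positivity)
      _ = ‖deriv g (ex (y + s))‖ * |s| * (C * |s|) := by rw [← sq_abs s]; ring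
      _ ≤ 2 * M * (C * |s|) := mul_le_mul_of_nonneg_right h2 (by positivity)
      _ = _ := by ring

lemma HubN_der {f : ℝ → ℝ} {f' y s : ℝ} (h : HasDerivAt f f' (y + s)) :
    HasDerivAt (fun s => f (y + s)) f' s := h.comp_const_add y s

theorem hb_of_bb {Φ b : ℝ → ℝ} {C K₀ : ℝ} (h : St Φ b C) (hW : ∀ y, ∃ c, WSy b y c C)
    (hB : BB Φ K₀) : ∃ K, HB b K := by
  obtain ⟨K, K0, hK⟩ := star0 C
  refine ⟨K * (2 + C + C ^ 3 + (24 * C ^ 3 + 4 * C)) + K₀ + 2 * π + K₀ * (C + C ^ 3),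
    fun y g M hg hM hM1 => ?_⟩
  obtain ⟨c, hc⟩ := hW y
  have hcs : CS c C := by
    obtain ⟨N₁, N₂, h1, -⟩ := hc
    exact h1.cs
  have C0 : 0 ≤ C := zero_le_one.trans hcs.one
  obtain ⟨d1, d2⟩ := HubN_d hcs
  have disc : ∀ {G : ℂ → ℂ} {A : ℝ}, AnalyticOnNhd ℂ G (closedBall 0 1) →
      (∀ t, ‖G (ex t)‖ ≤ A) → ∀ z : ℂ, ‖z‖ ≤ 1 → ‖G z‖ ≤ A := fun hG hA z hz =>
    norm_le_of_sphere (diffContOnCl_of_analytic hG) (fun w hw => by
      obtain ⟨t, rfl⟩ := exists_ex_of_norm hw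
      exact hA t) hz
  rcases ((norm_nonneg _).trans (hM 0)).eq_or_lt with rfl | M0
  · have h0 : ∀ t, wg g t = 0 := fun t => by
      have h1 := hasDerivAt_wg hg t
      have h2 : (fun t => (g (ex t)).re) = fun _ => 0 := funext fun t => by
        rw [norm_le_zero_iff.1 (hM t), Complex.zero_re]
      rw [h2] at h1
      exact h1.unique (hasDerivAt_const t 0)
    simp [h0]
  have hP := HubN_an hg y
  obtain ⟨B₁, B10, hB1⟩ := HubN_bd hP.deriv
  obtain ⟨B₂, B20, hB2⟩ := HubN_bd hg.deriv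
  obtain ⟨n, hn⟩ : ∃ n, rr n * (B₁ * (C + C ^ 3) + B₂ * C ^ 3 + B₂) ≤ M := by
    have := tendsto_rr.mul_const (B₁ * (C + C ^ 3) + B₂ * C ^ 3 + B₂)
    rw [zero_mul] at this
    exact (this.eventually_le_const M0).exists
  have hm := stp_an (fun k => 1 / c k) n y
  have m1 : ∀ t, ‖stp (fun k => 1 / c k) n y (ex t)‖ ≤ C + C ^ 3 := fun t =>
    (stp_le _ n y (norm_ex t).le).trans (add_le_add (d1 0) (d2 n))
  obtain ⟨G, hGd⟩ : ∃ G : ℂ → ℂ,
      G = fun z => HubN_g g z * HubN_a y z * stp (fun k => 1 / c k) n y z := ⟨_, rfl⟩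
  have hG : AnalyticOnNhd ℂ G (closedBall 0 1) := hGd ▸ hP.mul hm
  have G1 : ∀ t, ‖G (ex t)‖ ≤ (C + C ^ 3) * M := fun t => by
    rw [hGd]
    beta_reduce
    rw [norm_mul, norm_mul, HubN_g_norm, HubN_a_norm, mul_comm _ (ch _), mul_comm _ M]
    exact mul_le_mul (hM1 t) (m1 t) (norm_nonneg _) M0.le
  have G2 : ∀ t, |wg G t| ≤ B₁ * (C + C ^ 3) + B₂ * C ^ 3 := fun t => by
    refine (HubN_wg G t).trans ?_
    rw [hGd, deriv_fun_mul (hP _ (ex_mem t)).differentiableAt (hm _ (ex_mem t)).differentiableAt]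
    refine (norm_add_le _ _).trans (add_le_add ?_ ?_)
    · rw [norm_mul]
      exact mul_le_mul (hB1 t) (m1 t) (norm_nonneg _) B10
    · rw [norm_mul, norm_mul, HubN_g_norm, HubN_a_norm, mul_assoc]
      exact mul_le_mul (hB2 t) ((stp_deriv _ n y t).trans (d2 n))
        (mul_nonneg (ch_nonneg _) (norm_nonneg _)) B20
  have p1 : 0 ≤ B₁ * (C + C ^ 3) := by positivity
  have p2 : 0 ≤ B₂ * C ^ 3 := by positivity
  have p3 : 0 ≤ (C + C ^ 3) * M := by positivity
  have r0 := rr_pos n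
  have cg : Continuous fun s => wg g (y + s) := (continuous_wg hg).comp (continuous_const_add y)
  have cG : Continuous fun s => wg G (y + s) := (continuous_wg hG).comp (continuous_const_add y)
  have key := hK Φ b y c h hc n (fun s => wg g (y + s)) (fun s => wg G (y + s))
    (fun s => (g (ex (y + s))).re) (fun s => (G (ex (y + s))).re)
    (fun j => M * (8 * gc (fun k => 1 / c k) n j) + 2 * C * M * rr j) ((2 + C + C ^ 3) * M) cg cG
    (fun s => HubN_der (f := fun t => (g (ex t)).re) (hasDerivAt_wg hg _))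
    (fun s => HubN_der (f := fun t => (G (ex t)).re) (hasDerivAt_wg hG _))
    (fun s => by linarith [(Complex.abs_re_le_norm _).trans (hM (y + s))])
    (fun s => by linarith [(Complex.abs_re_le_norm _).trans (G1 (y + s))])
    (fun s hs => by
      have h1 := le_ch' hs
      have h2 := hM1 (y + s)
      rw [add_sub_cancel_left] at h2
      have h3 : |s| * |wg g (y + s)| ≤ 2 * ch s * ‖deriv g (ex (y + s))‖ :=
        mul_le_mul (by linarith) (HubN_wg g _) (abs_nonneg _) (by linarith [ch_nonneg s])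
      linarith)
    (fun s _ => by
      have h1 : |wg g (y + s)| ≤ B₁ * (C + C ^ 3) + B₂ * C ^ 3 + B₂ := by
        linarith [(HubN_wg g (y + s)).trans (hB2 _)]
      linarith [mul_le_mul_of_nonneg_left h1 r0.le])
    (fun s _ => by
      have h1 : |wg G (y + s)| ≤ B₁ * (C + C ^ 3) + B₂ * C ^ 3 + B₂ := by
        linarith [G2 (y + s)]
      linarith [mul_le_mul_of_nonneg_left h1 r0.le])
    (fun j hj s h1 h2 => by
      have h3 := hM1 (y + s)
      rw [add_sub_cancel_left] at h3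
      have h4 := HubN_ann (h2.trans (rr_le_one j)) h3
        (stp_sub (fun k => 1 / c k) hj.le y h1.le h2) (d1 j)
      rw [hGd, div_eq_mul_one_div]
      exact h4.trans (add_le_add le_rfl (mul_le_mul_of_nonneg_left h2 (by positivity))))
  have s1 : ∑ j ∈ Finset.range n, (M * (8 * gc (fun k => 1 / c k) n j) + 2 * C * M * rr j) ≤
      (24 * C ^ 3 + 4 * C) * M := by
    rw [Finset.sum_add_distrib, ← Finset.mul_sum, ← Finset.mul_sum, ← Finset.mul_sum]
    have h1 := (gc_sum (fun k => 1 / c k) n n).trans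
      (mul_le_mul_of_nonneg_left (d2 n) (by norm_num))
    have h2 := mul_le_mul_of_nonneg_left h1 M0.le
    have h3 := mul_le_mul_of_nonneg_left (HubN_rr n) (show 0 ≤ 2 * C * M by positivity)
    linarith only [h2, h3]
  have i1 : IntervalIntegrable (fun s => wg g (y + s) * b (y + s)) volume (-π) π :=
    (HubN_ii h.ai.ii y _ _).continuousOn_mul cg.continuousOn
  have i2 : IntervalIntegrable (fun s => wg g (y + s) * lg (Φ (y + s) - Φ y)) volume (-π) π :=
    (HubN_ii (h.ui.1 y) y _ _).continuousOn_mul cg.continuousOn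
  have i3 : IntervalIntegrable (fun s => wg g (y + s) * lg s) volume (-π) π :=
    (intervalIntegrable_lg _ _).continuousOn_mul cg.continuousOn
  have e1 : ∫ s in (-π)..π, wg g (y + s) * b (y + s) = ∫ t in (0 : ℝ)..(2 * π), wg g t * b t := by
    simpa using shift_int ((wg_periodic g).mul h.per) y 0
  have e2 : ∀ {Ψ : ℝ → ℝ} (g : ℂ → ℂ), Good Ψ →
      ∫ s in (-π)..π, wg g (y + s) * lg (Ψ (y + s) - Ψ y) =
        ∫ t in y..(y + 2 * π), lg (Ψ t - Ψ y) * wg g t := fun g hΨ => by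
    simpa [mul_comm] using shift_int ((hΨ.lg_periodic y).mul (wg_periodic g)) y y
  have e3 : ∫ s in (-π)..π, wg g (y + s) * lg s =
      ∫ t in y..(y + 2 * π), lg (id t - id y) * wg g t := by
    simpa using e2 g good_id
  have e4 : ∫ s in (-π)..π, wg g (y + s) * (b (y + s) - lg (Φ (y + s) - Φ y) + lg s) =
      (∫ s in (-π)..π, wg g (y + s) * b (y + s)) -
        (∫ s in (-π)..π, wg g (y + s) * lg (Φ (y + s) - Φ y)) +
        ∫ s in (-π)..π, wg g (y + s) * lg s := by
    rw [← intervalIntegral.integral_sub i1 i2, ← intervalIntegral.integral_add (i1.sub i2) i3]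
    congr 1
    funext s
    ring
  rw [e4, e1, e2 g h.good, e3, e2 G h.good] at key
  have b1 := abs_le.1 (hB g hg M (disc hg hM) y)
  have b2 := abs_le.1 (bb_id g hg M (disc hg hM) y)
  have b3 := abs_le.1 (hB G hG _ (disc hG G1) y)
  have b4 := abs_le.1 (key.trans (mul_le_mul_of_nonneg_left (add_le_add le_rfl s1) K0))
  rw [abs_le]
  constructor <;> linarith only [b1, b2, b3, b4, b1.1, b1.2, b2.1, b2.2, b3.1, b3.2, b4.1, b4.2]

end Pool.Agent.Work.MP_af796d_an.H
end

-- merged part: Pool.Agent.Work.MP_af796d_an.H.HubV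
section
/-!
# The hub condition from the decomposition
PLAN.
* conj_dual: U t = ∫_0^t w, U (2π) = 0 by LPI and lg_periodic.  g1 z = deriv g z * (I z) is analytic near the disc, wg g t = Re g1 (ex t), with derivative wg g1 (hasDerivAt_wg).
  ibp: ∫ wg g * w = - ∫ wg g1 * U.  Insert LPI; the constant drops since ∫ wg g1 = 0 (integral_wg).  Fubini (integrable_lg_prod with the restricted volume) and
  JJ_boundary, JJ_id_wg: (1/π) ∫ lg (t - σ) wg g1 t dt = Im g1 (ex σ) - Im g1 0 = Im g1 (ex σ) = wg (-I g) σ.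
* vu_pair_wg: shift_int and vu_pair with φ s = wg g (y + s), bound 2 M (|s| ≤ 2 ch s, integral_wg).
* hb_of_sd: b = u + κ + w; ∫ wg g = 0; -I g satisfies the same bounds.
-/

set_option autoImplicit false

namespace Pool.Agent.Work.MP_af796d_an.H

open MeasureTheory Set Real Metric Filter Topology

lemma HubV_ii {v : ℝ → ℝ} {B : ℝ} (hv : Measurable v) (hB : ∀ t, |v t| ≤ B) (a c : ℝ) :
    IntervalIntegrable v volume a c :=
  (intervalIntegrable_const (c := B)).mono_fun' hv.aestronglyMeasurable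
    (Eventually.of_forall fun t => hB t)

lemma HubV_der (g : ℂ → ℂ) (z : ℂ) :
    deriv (fun z => -Complex.I * g z) z = -Complex.I * deriv g z := deriv_const_mul_field _

lemma HubV_zero {g : ℂ → ℂ} (hg : AnalyticOnNhd ℂ g (closedBall 0 1)) :
    ∫ t in (0 : ℝ)..(2 * π), wg g t = 0 := by
  rw [integral_wg hg, ex_two_pi, ex_zero, sub_self]

lemma conj_dual {w v : ℝ → ℝ} {B : ℝ} (hw : IntervalIntegrable w volume 0 (2 * π))
    (hv : Measurable v) (hB : ∀ t, |v t| ≤ B) (h : LPI w v) {g : ℂ → ℂ}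
    (hg : AnalyticOnNhd ℂ g (closedBall 0 1)) :
    ∫ t in (0 : ℝ)..(2 * π), wg g t * w t =
      -∫ t in (0 : ℝ)..(2 * π), wg (fun z => -Complex.I * g z) t * v t := by
  have hle : (0 : ℝ) ≤ 2 * π := by positivity
  obtain ⟨g1, hg1e⟩ : ∃ g1 : ℂ → ℂ, g1 = fun z => deriv g z * (Complex.I * z) := ⟨_, rfl⟩
  have hg1 : AnalyticOnNhd ℂ g1 (closedBall 0 1) := by
    rw [hg1e]; exact hg.deriv.mul (analyticOnNhd_const.mul analyticOnNhd_id)
  have e1 : ∀ t, wg g t = (g1 (ex t)).re := fun t => by rw [hg1e]; rfl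
  have e2 : ∀ t, wg (fun z => -Complex.I * g z) t = (g1 (ex t)).im - (g1 0).im := fun t => by
    rw [hg1e, wg, HubV_der]
    simp [mul_assoc]
  have hc1 := continuous_wg hg1
  obtain ⟨-, -, hI⟩ := ibp (F := wg g) (f := wg g1) (G := fun t => ∫ s in (0 : ℝ)..t, w s) (g := w)
    hle (hc1.intervalIntegrable _ _) hw
    (fun x _ => by rw [integral_wg hg1, e1, e1]; ring) (fun x _ => by simp)
  have hU : ∫ s in (0 : ℝ)..(2 * π), w s = 0 := by
    rw [h (2 * π)]
    have : ∀ σ, lg (2 * π - σ) = lg σ := fun σ => by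
      rw [show 2 * π - σ = -σ + 2 * π by ring, lg_periodic, lg_neg]
    simp only [this, sub_self]
  simp only [hU, intervalIntegral.integral_same, mul_zero, sub_self] at hI
  obtain ⟨B1, hB1⟩ := exists_bound_wg hg1
  have hm1 := hc1.measurable
  have hi : Integrable (fun x : ℝ × ℝ => lg (x.1 - x.2) * (wg g1 x.1 * v x.2))
      ((volume.restrict (Ioc 0 (2 * π))).prod (volume.restrict (Ioc 0 (2 * π)))) := by
    refine Integrable.mono' ((integrable_lg_prod _ hle (by simp)).abs.mul_const (B1 * B))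
      (Measurable.aestronglyMeasurable (by fun_prop)) (Eventually.of_forall fun x => ?_)
    rw [Real.norm_eq_abs, abs_mul, abs_mul]
    exact mul_le_mul_of_nonneg_left (mul_le_mul (hB1 _) (hB _) (abs_nonneg _)
      ((abs_nonneg _).trans (hB1 0))) (abs_nonneg _)
  have hsw := integral_integral_swap (f := fun t σ => lg (t - σ) * (wg g1 t * v σ)) hi
  have a1 : ∀ t, ∫ σ in Ioc 0 (2 * π), lg (t - σ) * (wg g1 t * v σ) =
      wg g1 t * ∫ σ in (0 : ℝ)..(2 * π), lg (t - σ) * v σ := fun t => by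
    rw [intervalIntegral.integral_of_le hle, ← integral_const_mul]
    congr 1; ext σ; ring
  have a2 : ∀ σ, ∫ t in Ioc 0 (2 * π), lg (t - σ) * (wg g1 t * v σ) =
      π * (wg (fun z => -Complex.I * g z) σ * v σ) := fun σ => by
    have b1 := JJ_boundary id (wg g1) 0 σ
    simp only [id] at b1
    rw [JJ_id_wg hg1 0 (norm_ex σ).le, ← e2, zero_add, intervalIntegral.integral_of_le hle] at b1
    rw [b1]
    simp only [← mul_assoc]
    rw [integral_mul_const, mul_one_div_cancel pi_ne_zero, one_mul]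
  have hi1 := hi.integral_prod_left
  simp only [a1] at hi1
  simp only [a1, a2] at hsw
  rw [integral_const_mul, ← intervalIntegral.integral_of_le hle,
    ← intervalIntegral.integral_of_le hle] at hsw
  have hi2 : IntervalIntegrable
      (fun t => wg g1 t * ∫ σ in (0 : ℝ)..(2 * π), lg (t - σ) * v σ) volume 0 (2 * π) :=
    (intervalIntegrable_iff_integrableOn_Ioc_of_le hle).2 hi1
  have a3 : ∫ t in (0 : ℝ)..(2 * π), wg g1 t * ∫ s in (0 : ℝ)..t, w s =
      (1 / π) * (∫ t in (0 : ℝ)..(2 * π), wg g1 t * ∫ σ in (0 : ℝ)..(2 * π), lg (t - σ) * v σ) -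
        ((1 / π) * ∫ σ in (0 : ℝ)..(2 * π), lg σ * v σ) * ∫ t in (0 : ℝ)..(2 * π), wg g1 t := by
    rw [← intervalIntegral.integral_const_mul, ← intervalIntegral.integral_const_mul
      ((1 / π) * ∫ σ in (0 : ℝ)..(2 * π), lg σ * v σ), ← intervalIntegral.integral_sub
      (hi2.const_mul _) ((hc1.intervalIntegrable _ _).const_mul _)]
    congr 1; ext t
    rw [h t]; ring
  rw [a3, HubV_zero hg1, hsw, mul_zero, sub_zero, ← mul_assoc, one_div_mul_cancel pi_ne_zero,
    one_mul] at hI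
  linarith only [hI]

lemma vu_pair_wg {v : ℝ → ℝ} {C M y : ℝ} (h : VU v C) {g : ℂ → ℂ}
    (hg : AnalyticOnNhd ℂ g (closedBall 0 1)) (h0 : ∀ t, ‖g (ex t)‖ ≤ M)
    (h1 : ∀ t, ch (t - y) * ‖deriv g (ex t)‖ ≤ M) :
    |∫ t in (0 : ℝ)..(2 * π), wg g t * v t| ≤ 16 * C * M := by
  have hp : Function.Periodic (fun t => wg g t * v t) (2 * π) := (wg_periodic g).mul h.per
  have e := shift_int hp y 0
  rw [zero_add] at e
  rw [← e]
  have hc : Continuous fun s => wg g (y + s) := (continuous_wg hg).comp (by fun_prop)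
  refine (vu_pair (φ := fun s => wg g (y + s)) (M := 2 * M) h y (hc.intervalIntegrable _ _)
    (fun s hs => ?_) (fun x _ => ?_)).trans (le_of_eq (by ring))
  · have b1 := h1 (y + s)
    rw [add_sub_cancel_left] at b1
    have b2 := le_ch' hs
    calc |s| * |wg g (y + s)| ≤ (2 * ch s) * ‖deriv g (ex (y + s))‖ :=
          mul_le_mul (by linarith) (HubN_wg g _) (abs_nonneg _) (by linarith [abs_nonneg s])
      _ ≤ 2 * M := by linarith
  · rw [intervalIntegral.integral_comp_add_left (fun t => wg g t), integral_wg hg]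
    have b1 := (Complex.abs_re_le_norm _).trans (h0 (y + x))
    have b2 := (Complex.abs_re_le_norm _).trans (h0 (y + 0))
    exact (abs_sub _ _).trans (by linarith)

theorem hb_of_sd {Φ b u v : ℝ → ℝ} {κ C : ℝ} (h : SD Φ b u v κ C) : HB b (32 * C) := by
  intro y g M hg h0 h1
  have hc := continuous_wg hg
  have iu := HubV_ii h.vu.meas h.vu.bd 0 (2 * π)
  have iw : IntervalIntegrable (fun t => b t - u t - κ) volume 0 (2 * π) :=
    ((h.st.ai.ii _ _).sub iu).sub intervalIntegrable_const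
  have e1 := conj_dual iw h.vv.meas h.vv.bd h.lp hg
  have e2 := vu_pair_wg (y := y) h.vu hg h0 h1
  have e3 := vu_pair_wg (y := y) (M := M) (g := fun z => -Complex.I * g z) h.vv
    (analyticOnNhd_const.mul hg) (fun t => by simpa using h0 t)
    (fun t => by rw [HubV_der]; simpa using h1 t)
  have e4 : ∫ t in (0 : ℝ)..(2 * π), wg g t * b t =
      (∫ t in (0 : ℝ)..(2 * π), wg g t * u t) + (∫ t in (0 : ℝ)..(2 * π), wg g t * (b t - u t - κ)) +
        κ * ∫ t in (0 : ℝ)..(2 * π), wg g t := by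
    rw [← intervalIntegral.integral_const_mul, ← intervalIntegral.integral_add
      (iu.continuousOn_mul hc.continuousOn) (iw.continuousOn_mul hc.continuousOn),
      ← intervalIntegral.integral_add ((iu.continuousOn_mul hc.continuousOn).add
        (iw.continuousOn_mul hc.continuousOn)) ((hc.intervalIntegrable _ _).const_mul _)]
    congr 1; ext t; ring
  rw [e4, e1, HubV_zero hg, mul_zero, add_zero, ← sub_eq_add_neg]
  exact (abs_sub _ _).trans (by linarith)

end Pool.Agent.Work.MP_af796d_an.H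
end

-- merged part: Pool.Agent.Work.MP_af796d_an.H.L2
section
/-!
# L2 bound for the conjugate function
PLAN.
* l2_conj: F^2 is DiffContOnCl, its circle average is F 0 ^ 2, whose real part is (Re F 0)^2 ≥ 0; Re (F^2) = Re^2 - Im^2.
* l2_quot: w σ = (φ (σ + δ) - φ σ)/δ is bounded measurable, supported in [-3, 2], ∫_{-π}^π w = 0, ∫_{-π}^x w = h x := (1/δ) ∫_x^{x+δ} φ.
  (P0 φ (t + δ) - P0 φ t)/δ = (1/π) ∫ lg (σ - t) w σ = JJ id w (-π) (ex t) (substitute σ ↦ σ + δ; supports stay inside (-π, π)).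
  F = FF id w (-π): diffContOnCl_FF good_id UI_id, RR_boundary, JJ_boundary, JJ_zero; l2_conj.  Finally h x ^ 2 ≤ (1/δ) ∫_x^{x+δ} φ^2
  (Cauchy-Schwarz, or expand 0 ≤ ∫ (φ - h x)^2), and ∫_{-π}^π (1/δ) ∫_0^δ φ (x + τ)^2 dτ dx ≤ ∫ φ^2 by Fubini, or by differentiating primitives.
-/

set_option autoImplicit false

namespace Pool.Agent.Work.MP_af796d_an.H

open MeasureTheory Set Real Metric Filter Topology

lemma l2_conj {F : ℂ → ℂ} (hF : DiffContOnCl ℂ F (ball 0 1)) (h0 : (F 0).im = 0) :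
    ∫ t in (-π)..π, (F (ex t)).im ^ 2 ≤ ∫ t in (-π)..π, (F (ex t)).re ^ 2 := by
  have c : Continuous fun t => F (ex t) := by
    have := hF.continuousOn
    rw [closure_ball _ one_ne_zero] at this
    exact this.comp_continuous continuous_ex ex_mem
  have a := DiffContOnCl.circleAverage (c := 0) (R := 1) (f := fun z => F z * F z)
    (by simpa using hF.smul hF)
  rw [circleAverage_eq_integral_add (-π),
    intervalIntegral.integral_comp_add_right (fun θ => F (circleMap 0 1 θ) * F (circleMap 0 1 θ)),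
    zero_add, show 2 * π + -π = π by ring] at a
  simp only [circleMap_zero, Complex.ofReal_one, one_mul, mul_comm _ Complex.I] at a
  have b := congrArg Complex.re a
  rw [Complex.smul_re, Complex.mul_re, h0, mul_zero, sub_zero, smul_eq_mul] at b
  have e := Complex.reCLM.intervalIntegral_comp_comm (μ := volume)
    ((c.fun_mul c).intervalIntegrable (-π) π)
  simp only [Complex.reCLM_apply, Complex.mul_re] at e
  have c1 : Continuous fun t => (F (ex t)).re := Complex.continuous_re.comp c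
  have c2 : Continuous fun t => (F (ex t)).im := Complex.continuous_im.comp c
  rw [intervalIntegral.integral_sub ((c1.fun_mul c1).intervalIntegrable _ _)
    ((c2.fun_mul c2).intervalIntegrable _ _)] at e
  have p : 0 ≤ (∫ x in (-π)..π, F (ex x) * F (ex x)).re :=
    nonneg_of_mul_nonneg_right (b ▸ mul_self_nonneg _) (by positivity : 0 < (2 * π)⁻¹)
  simp only [sq]
  linarith only [e, p]

lemma L2_JJ (φ : ℝ → ℝ) (s : ℝ) : JJ id φ (-π) (ex s) = P0 φ s := by
  rw [show ex s = ex (id s) from rfl, JJ_boundary, show -π + 2 * π = π by ring, P0]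
  simp only [id, ← lg_neg (s - _), neg_sub]

lemma continuous_P0 {φ : ℝ → ℝ} {B : ℝ} (hφ : Measurable φ) (hB : ∀ t, |φ t| ≤ B) :
    Continuous (P0 φ) := by
  rw [← funext (L2_JJ φ)]
  exact (continuousOn_JJ good_id UI_id hφ hB).comp_continuous continuous_ex ex_mem

lemma L2_shift {g : ℝ → ℝ} {δ : ℝ} (hg : ∀ t, 2 < |t| → g t = 0) (hδ : 0 < δ) (hδ1 : δ ≤ 1) :
    ∫ σ in (-π)..π, g (σ + δ) = ∫ σ in (-π)..π, g σ := by
  have p := pi_gt_three
  rw [intervalIntegral.integral_eq_integral_of_support_subset,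
    intervalIntegral.integral_eq_integral_of_support_subset, integral_add_right_eq_self]
  all_goals
    intro x hx
    have := abs_le.1 (not_lt.1 fun k => hx (hg _ k))
    constructor <;> linarith only [p, this, hδ1, hδ, this.1, this.2]

lemma L2_diff {g : ℝ → ℝ} (hg : ∀ a b, IntervalIntegrable g volume a b) (a x δ : ℝ) :
    ∫ σ in a..x, (g (σ + δ) - g σ) / δ =
      ((∫ σ in x..(x + δ), g σ) - ∫ σ in a..(a + δ), g σ) / δ := by
  rw [intervalIntegral.integral_div, intervalIntegral.integral_sub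
    (by simpa using (hg (a + δ) (x + δ)).comp_add_right δ) (hg _ _),
    intervalIntegral.integral_comp_add_right,
    intervalIntegral.integral_interval_sub_interval_comm' (hg _ _) (hg _ _) (hg _ _)]

lemma L2_zero {g : ℝ → ℝ} (hg : ∀ t, 2 < |t| → g t = 0) {a b : ℝ} (hab : a ≤ b)
    (h : b < -2 ∨ 2 < a) : ∫ σ in a..b, g σ = 0 := by
  rw [intervalIntegral.integral_congr (g := fun _ => 0), intervalIntegral.integral_zero]
  intro x hx
  rw [uIcc_of_le hab] at hx
  exact hg x (lt_abs.2 (h.symm.imp (fun k => by linarith [hx.1]) fun k => by linarith [hx.2]))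

lemma L2_cs {φ : ℝ → ℝ} {x δ : ℝ} (hδ : 0 < δ) (h1 : IntervalIntegrable φ volume x (x + δ))
    (h2 : IntervalIntegrable (fun t => φ t ^ 2) volume x (x + δ)) :
    ((∫ t in x..(x + δ), φ t) / δ) ^ 2 ≤ (∫ t in x..(x + δ), φ t ^ 2) / δ := by
  set m := (∫ t in x..(x + δ), φ t) / δ with hm
  have k := intervalIntegral.integral_mono_on (by linarith : x ≤ x + δ)
    ((h1.const_mul (2 * m)).sub (intervalIntegrable_const (c := m ^ 2))) h2
    fun t _ => by linarith only [sq_nonneg (φ t - m), sq_nonneg (φ t - m)]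
  rw [intervalIntegral.integral_sub (h1.const_mul _) intervalIntegrable_const,
    intervalIntegral.integral_const_mul, intervalIntegral.integral_const, smul_eq_mul,
    add_sub_cancel_left, (div_eq_iff hδ.ne').1 hm.symm] at k
  rw [le_div_iff₀ hδ]
  linarith

theorem l2_quot {φ : ℝ → ℝ} {B δ : ℝ} (hφ : Measurable φ) (hB : ∀ t, |φ t| ≤ B)
    (hs : ∀ t, 2 < |t| → φ t = 0) (hδ : 0 < δ) (hδ1 : δ ≤ 1) :
    ∫ t in (-π)..π, ((P0 φ (t + δ) - P0 φ t) / δ) ^ 2 ≤ ∫ t in (-π)..π, φ t ^ 2 := by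
  have p : 3.14 < π := pi_gt_d2
  have mw : Measurable fun σ => (φ (σ + δ) - φ σ) / δ :=
    ((hφ.comp (measurable_add_const δ)).sub hφ).div_const δ
  have bw : ∀ σ, |(φ (σ + δ) - φ σ) / δ| ≤ (B + B) / δ := fun σ => by
    rw [abs_div, abs_of_pos hδ]
    exact div_le_div_of_nonneg_right ((abs_sub _ _).trans (add_le_add (hB _) (hB _))) hδ.le
  have i1 := bdd_intervalIntegrable hφ hB
  have i2 := bdd_intervalIntegrable (hφ.pow_const 2) (B := B ^ 2) fun t => by
    rw [abs_pow]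
    exact pow_le_pow_left₀ (abs_nonneg _) (hB t) 2
  have s2 : ∀ t, 2 < |t| → φ t ^ 2 = 0 := fun t k => by rw [hs t k, zero_pow two_ne_zero]
  have e1 : ∀ x, ∫ σ in (-π)..x, (φ (σ + δ) - φ σ) / δ = (∫ t in x..(x + δ), φ t) / δ := fun x => by
    rw [L2_diff i1, L2_zero hs (a := -π) (by linarith only [hδ]) (Or.inl (by linarith)), sub_zero]
  have e2 : ∀ t, (P0 φ (t + δ) - P0 φ t) / δ = P0 (fun σ => (φ (σ + δ) - φ σ) / δ) t := fun t => by
    have il : ∀ {u : ℝ → ℝ}, Measurable u → (∀ t, |u t| ≤ B) →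
        IntervalIntegrable (fun σ => lg (t - σ) * u σ) volume (-π) π := fun hu hb =>
      ⟨(by simpa using (intervalIntegrable_lg (t + π) (t - π)).comp_sub_left t :
          IntervalIntegrable (fun σ => lg (t - σ)) volume (-π) π).1.mul_bdd
        hu.aestronglyMeasurable (.of_forall hb), by simp [pi_pos.le]⟩
    rw [P0, P0, P0, ← L2_shift (g := fun σ => lg (t + δ - σ) * φ σ)
      (fun x k => by rw [hs x k, mul_zero]) hδ hδ1, ← mul_sub, mul_div_assoc,
      ← intervalIntegral.integral_sub (by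
        simpa using il (hφ.comp (measurable_add_const δ)) fun t => hB _) (il hφ hB),
      ← intervalIntegral.integral_div]
    simp only [add_sub_add_right_eq_sub, ← mul_sub, mul_div_assoc]
  have k := l2_conj (diffContOnCl_FF (a := -π) good_id UI_id mw bw) (by rw [FF_im, JJ_zero])
  simp only [FF_im, FF_re, L2_JJ, ← e2] at k
  refine k.trans ?_
  have cV : Continuous fun x => ∫ t in (-π)..x, φ t ^ 2 :=
    intervalIntegral.continuous_primitive i2 _
  have cU : Continuous fun x => ∫ σ in (-π)..x, (φ (σ + δ) - φ σ) / δ :=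
    intervalIntegral.continuous_primitive (bdd_intervalIntegrable mw bw) _
  rw [intervalIntegral.integral_congr (g := fun x => (∫ σ in (-π)..x, (φ (σ + δ) - φ σ) / δ) ^ 2)
    fun x hx => by
      rw [uIcc_of_le (by linarith only [p])] at hx
      exact congrArg (· ^ 2) (RR_boundary (y := x) good_id mw bw (by
        rw [e1, L2_zero hs (by linarith) (Or.inr (by linarith)), zero_div]) hx.1
          (by linarith [hx.2]))]
  refine (intervalIntegral.integral_mono_on (by linarith) ((cU.fun_pow 2).intervalIntegrable _ _)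
    (g := fun x => ((∫ t in (-π)..(x + δ), φ t ^ 2) - ∫ t in (-π)..x, φ t ^ 2) / δ)
    (Continuous.intervalIntegrable (by fun_prop) _ _) fun x _ => ?_).trans ?_
  · rw [intervalIntegral.integral_interval_sub_left (i2 _ _) (i2 _ _), e1]
    exact L2_cs hδ (i1 _ _) (i2 _ _)
  · rw [L2_diff (g := fun x => ∫ t in (-π)..x, φ t ^ 2) fun a b => cV.intervalIntegrable a b,
      div_le_iff₀ hδ, intervalIntegral.integral_congr (a := π)
        (g := fun _ => ∫ t in (-π)..π, φ t ^ 2) fun x hx => by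
          rw [uIcc_of_le (by linarith)] at hx
          rw [← sub_eq_zero, intervalIntegral.integral_interval_sub_left (i2 _ _) (i2 _ _)]
          exact L2_zero s2 hx.1 (Or.inr (by linarith only [p])),
      intervalIntegral.integral_const, add_sub_cancel_left, smul_eq_mul, mul_comm]
    exact sub_le_self _ (intervalIntegral.integral_nonneg (by linarith) fun x hx =>
      intervalIntegral.integral_nonneg hx.1 fun _ _ => sq_nonneg _)

end Pool.Agent.Work.MP_af796d_an.H
end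

-- merged part: Pool.Agent.Work.MP_af796d_an.H.MS
section
/-!
# The logarithmic model
PLAN.
* lpi_shift: LPI at y + s and at y, shift_int for the periodic function σ ↦ lg (y + s - σ) v σ.
* ml_L2: D s = ∫_0^s w (y + t) dt - gk ∫_0^s ltan - ek s = P0 near s + RM s + const (lpi_shift), and D has derivative f s = w (y + s) - gk ltan s - ek at a.e. s
  (ae_hasDerivAt_integral).  For s inside a window and δ_m = 1/(m+1) small, ((D (s + δ) - D s)/δ)^2 ≤ 2 ((P (s + δ) - P s)/δ)^2 + 2 (16 n)^2 (rm_lip), n = n1 k + n2 k.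
  Fatou (lintegral_liminf_le) with l2_quot for near = indicator of psi (supported in |σ| ≤ 2), ∫ near^2 ≤ 2 C * 4 r n (abs_psi_le, psi_near).  The window has length ≤ r.
  For the side -1 substitute s = -ρ; ltan is even (lg_neg, lg_periodic).
* ms_w: rr (k+2) = rr k / 4.  w - g log ρ - (ek - g log 2) = f + g (sg ρ - (lg (ρ + π) - log 2)), the last is at most C * 2 r (abs_sg_le, abs_lg_pi); (a + b)^2 ≤ 2 a^2 + 2 b^2;
  n ≤ 32 C.  N k = 2 (16 C n + 512 * 32 C n) + 8 C^2 rr k.  bv from gk_sub_le, jmp from ek_jump.  vd_of_vi supplies n1, n2.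
* ms_add: β = w + κ + U with VI U C, VD U m: e' k = e k + κ + mean U 0 (rr k); ∫ (U - mean)^2 ≤ 2 C ∫ |U - mean| ≤ 2 C r m k (kap = 1/r on the window); the jump gains m k.
* ms_of_sd: ms_w for w = b - u - κ, then ms_add on each side.
-/

set_option autoImplicit false

namespace Pool.Agent.Work.MP_af796d_an.H

open MeasureTheory Set Real Metric Filter Topology

lemma lpi_shift {w v : ℝ → ℝ} {C : ℝ} (hw : ∀ a c, IntervalIntegrable w volume a c) (hv : VU v C)
    (h : LPI w v) (y s : ℝ) :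
    ∫ t in (0 : ℝ)..s, w (y + t) = P0 (fun σ => v (y + σ)) s - P0 (fun σ => v (y + σ)) 0 := by
  have key : ∀ x, P0 (fun σ => v (y + σ)) x =
      (1 / π) * ∫ σ in (0 : ℝ)..(2 * π), lg (y + x - σ) * v σ := by
    intro x
    have hp : Function.Periodic (fun σ => lg (y + x - σ) * v σ) (2 * π) := fun σ => by
      have e : y + x - (σ + 2 * π) = y + x - σ - 2 * π := by ring
      simp only [e, lg_periodic.sub_eq, hv.per σ]
    have := shift_int hp y 0
    simp only [zero_add, add_sub_add_left_eq_sub] at this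
    simp only [P0, this]
  rw [key, key, intervalIntegral.integral_comp_add_left w y, add_zero,
    ← intervalIntegral.integral_interval_sub_left (hw 0 _) (hw 0 _), h, h]
  ring

lemma MS_fatou {f P R : ℝ → ℝ} {a c L A κ : ℝ} (hm : Measurable f)
    (hf : ∀ a c, IntervalIntegrable f volume a c)
    (hD : ∀ s, ∫ t in (0 : ℝ)..s, f t = P s + R s + κ) (hP : Continuous P)
    (hR : ∀ s ∈ Icc a c, ∀ s' ∈ Icc a c, |R s - R s'| ≤ L * |s - s'|) (hac : a ≤ c)
    (ha : -π ≤ a) (hc : c ≤ π)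
    (hA : ∀ δ, 0 < δ → δ ≤ 1 → ∫ t in (-π)..π, ((P (t + δ) - P t) / δ) ^ 2 ≤ A) :
    IntervalIntegrable (fun t => f t ^ 2) volume a c ∧
      ∫ t in a..c, f t ^ 2 ≤ 2 * A + 2 * L ^ 2 * (c - a) := by
  set δ : ℕ → ℝ := fun m => 1 / ((m : ℝ) + 1) with hδ
  have δ0 : ∀ m, 0 < δ m := fun m => Nat.one_div_pos_of_nat
  have δ1 : ∀ m, δ m ≤ 1 := fun m => by
    have : (0 : ℝ) ≤ m := Nat.cast_nonneg m
    simp only [hδ]
    rw [div_le_one (by linarith)]
    linarith
  have δt : Tendsto δ atTop (𝓝 0) := tendsto_one_div_add_atTop_nhds_zero_nat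
  set q : ℕ → ℝ → ℝ := fun m t => 2 * ((P (t + δ m) - P t) / δ m) ^ 2 + 2 * L ^ 2 with hq
  have qc : ∀ m, Continuous (q m) := fun m => by simp only [hq]; fun_prop
  have q0 : ∀ m t, 0 ≤ q m t := fun m t => by simp only [hq]; positivity
  have A0 : 0 ≤ A := le_trans (intervalIntegral.integral_nonneg (by linarith [pi_pos])
    fun _ _ => sq_nonneg _) (hA 1 one_pos le_rfl)
  have B0 : 0 ≤ 2 * A + 2 * L ^ 2 * (c - a) := by
    have : 0 ≤ c - a := by linarith
    positivity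
  have h1 : ∀ m, ∫⁻ t in Ioc a c, ENNReal.ofReal (q m t) ≤
      ENNReal.ofReal (2 * A + 2 * L ^ 2 * (c - a)) := fun m => by
    rw [← ofReal_integral_eq_lintegral_ofReal ((qc m).intervalIntegrable a c).1
      (Eventually.of_forall (q0 m)), ← intervalIntegral.integral_of_le hac]
    refine ENNReal.ofReal_le_ofReal ?_
    have c1 : Continuous fun t => ((P (t + δ m) - P t) / δ m) ^ 2 := by fun_prop
    have i1 : ∫ t in a..c, ((P (t + δ m) - P t) / δ m) ^ 2 ≤ A :=
      (intervalIntegral.integral_mono_interval ha hac hc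
        (Eventually.of_forall fun _ => sq_nonneg _) (c1.intervalIntegrable _ _)).trans
        (hA _ (δ0 m) (δ1 m))
    simp only [hq]
    rw [intervalIntegral.integral_add ((c1.intervalIntegrable _ _).const_mul 2)
      intervalIntegrable_const, intervalIntegral.integral_const_mul,
      intervalIntegral.integral_const, smul_eq_mul]
    linarith only [i1]
  have h2 : ∀ᵐ t ∂(volume.restrict (Ioc a c)),
      ENNReal.ofReal (f t ^ 2) ≤ liminf (fun m => ENNReal.ofReal (q m t)) atTop := by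
    have d := Tools2_der (F := fun s => ∫ t in (0 : ℝ)..s, f t) hac (hf a c) fun x _ =>
      (intervalIntegral.integral_add_adjacent_intervals (hf 0 a) (hf a x)).symm
    have hne : ∀ᵐ t : ℝ, t ≠ c := by simp [ae_iff, measure_singleton]
    rw [ae_restrict_iff' measurableSet_Ioc]
    filter_upwards [d, hne] with t ht hn hI
    have hI' : t ∈ Ioo a c := ⟨hI.1, lt_of_le_of_ne hI.2 hn⟩
    have t1 : Tendsto (fun m => (δ m)⁻¹ • ((∫ s in (0 : ℝ)..(t + δ m), f s) -
        ∫ s in (0 : ℝ)..t, f s)) atTop (𝓝 (f t)) :=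
      (ht hI').tendsto_slope_zero_right.comp
        (tendsto_nhdsWithin_iff.2 ⟨δt, Eventually.of_forall δ0⟩)
    have t2 := (ENNReal.continuous_ofReal.tendsto _).comp (t1.pow 2)
    rw [← t2.liminf_eq]
    refine liminf_le_liminf ?_
    filter_upwards [δt.eventually_lt_const (sub_pos.2 hI'.2)] with m hm'
    refine ENNReal.ofReal_le_ofReal ?_
    have d0 := δ0 m
    have r1 := hR (t + δ m) ⟨by linarith only [d0, hI, hI.1], by linarith⟩ t ⟨hI.1.le, hI.2⟩
    rw [add_sub_cancel_left, abs_of_pos d0] at r1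
    have r2 : |(R (t + δ m) - R t) / δ m| ≤ L := by
      rw [abs_div, abs_of_pos d0, div_le_iff₀ d0]
      exact r1
    have r3 : ((R (t + δ m) - R t) / δ m) ^ 2 ≤ L ^ 2 := sq_le_sq' (abs_le.1 r2).1 (abs_le.1 r2).2
    have e : (δ m)⁻¹ • ((∫ s in (0 : ℝ)..(t + δ m), f s) - ∫ s in (0 : ℝ)..t, f s) =
        (P (t + δ m) - P t) / δ m + (R (t + δ m) - R t) / δ m := by
      rw [hD, hD, smul_eq_mul]
      ring
    simp only [hq]
    rw [e]
    linarith only [r3, sq_nonneg ((P (t + δ m) - P t) / δ m - (R (t + δ m) - R t) / δ m), sq_nonneg ((1 : ℝ) * ((P (t + δ m) - P t) / δ m) - (1 : ℝ) * ((R (t + δ m) - R t) / δ m))]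
  have h3 : ∫⁻ t in Ioc a c, ENNReal.ofReal (f t ^ 2) ≤
      ENNReal.ofReal (2 * A + 2 * L ^ 2 * (c - a)) :=
    ((lintegral_mono_ae h2).trans (lintegral_liminf_le fun m =>
      (qc m).measurable.ennreal_ofReal)).trans (liminf_le_of_frequently_le' (Frequently.of_forall h1))
  have h4 : IntegrableOn (fun t => f t ^ 2) (Ioc a c) :=
    ⟨(hm.pow_const 2).aestronglyMeasurable, (hasFiniteIntegral_iff_ofReal
      (Eventually.of_forall fun _ => sq_nonneg _)).2 (h3.trans_lt ENNReal.ofReal_lt_top)⟩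
  refine ⟨(intervalIntegrable_iff_integrableOn_Ioc_of_le hac).2 h4, ?_⟩
  rw [intervalIntegral.integral_of_le hac, ← ENNReal.ofReal_le_ofReal_iff B0,
    ofReal_integral_eq_lintegral_ofReal h4 (Eventually.of_forall fun _ => sq_nonneg _)]
  exact h3

lemma MS_ltan_neg (s : ℝ) : ltan (-s) = ltan s := by
  have e : -s + π = -(s + π - 2 * π) := by ring
  simp only [ltan, e, lg_neg, lg_periodic.sub_eq]

lemma MS_ltan_meas : Measurable ltan :=
  measurable_lg.sub (measurable_lg.comp (measurable_id.add_const π))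

lemma MS_ltan_ii (a c : ℝ) : IntervalIntegrable ltan volume a c := by
  have := intervalIntegrable_lg_sub (-π) a c
  simp only [sub_neg_eq_add] at this
  exact (intervalIntegrable_lg a c).sub this

lemma MS_le {N : ℕ → ℝ} {C : ℝ} (h : SM N C) (k : ℕ) : N k ≤ C :=
  (Finset.single_le_sum (fun i _ => h.nn i) (Finset.self_mem_range_succ k)).trans (h.sum (k + 1))

lemma MS_shift {N : ℕ → ℝ} {C : ℝ} (h : SM N C) (n : ℕ) :
    ∑ k ∈ Finset.range n, N (k + 1) ≤ C := by
  have := h.sum (n + 1)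
  rw [Finset.sum_range_succ'] at this
  linarith [h.nn 0]

lemma MS_sq {f h : ℝ → ℝ} {a c : ℝ} {G : ℝ → ℝ} (hac : a ≤ c) (hm : Measurable fun t => f t + h t)
    (hf : IntervalIntegrable (fun t => f t ^ 2) volume a c) (hG : IntervalIntegrable G volume a c)
    (hh : ∀ t ∈ Icc a c, h t ^ 2 ≤ G t) :
    IntervalIntegrable (fun t => (f t + h t) ^ 2) volume a c ∧
      ∫ t in a..c, (f t + h t) ^ 2 ≤ 2 * (∫ t in a..c, f t ^ 2) + 2 * ∫ t in a..c, G t := by
  have b : ∀ t ∈ Icc a c, (f t + h t) ^ 2 ≤ 2 * f t ^ 2 + 2 * G t := fun t ht => by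
    linarith only [hh, ht, hh t ht, sq_nonneg (f t - h t), sq_nonneg (f t - h t)]
  have i2 := (hf.const_mul 2).add (hG.const_mul 2)
  have i1 : IntervalIntegrable (fun t => (f t + h t) ^ 2) volume a c := by
    refine i2.mono_fun' (hm.pow_const 2).aestronglyMeasurable ?_
    rw [uIoc_of_le hac]
    refine (ae_restrict_iff' measurableSet_Ioc).2 (Eventually.of_forall fun t ht => ?_)
    simp only [Real.norm_eq_abs, abs_of_nonneg (sq_nonneg (f t + h t))]
    exact b t (Ioc_subset_Icc_self ht)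
  refine ⟨i1, (intervalIntegral.integral_mono_on hac i1 i2 b).trans_eq ?_⟩
  rw [intervalIntegral.integral_add (hf.const_mul 2) (hG.const_mul 2),
    intervalIntegral.integral_const_mul, intervalIntegral.integral_const_mul]

lemma MS_rr (k : ℕ) : rr (k + 2) = rr k / 4 := by
  rw [rr_succ, rr_succ]
  ring

theorem ml_L2 {w v : ℝ → ℝ} {C C' y : ℝ} {n₁ n₂ : ℕ → ℝ} (hm : Measurable w)
    (hw : ∀ a c, IntervalIntegrable w volume a c) (hv : VU v C) (h : LPI w v)
    (h₁ : VD (sd v y 1) n₁ C') (h₂ : VD (sd v y (-1)) n₂ C') (k : ℕ) {σ : ℝ} (hσ : σ = 1 ∨ σ = -1) :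
    IntervalIntegrable (fun ρ => (sd w y σ ρ - gk v y k * ltan ρ - ek v y k) ^ 2) volume
        (rr k / 4) (rr k) ∧
      ∫ ρ in (rr k / 4)..(rr k), (sd w y σ ρ - gk v y k * ltan ρ - ek v y k) ^ 2 ≤
        rr k * (16 * C * (n₁ k + n₂ k) + 512 * (n₁ k + n₂ k) ^ 2) := by
  have r0 := rr_pos k
  have r1 := rr_le_one k
  have p3 := pi_gt_three
  have C0 : 0 ≤ C := (abs_nonneg _).trans (hv.bd 0)
  set f : ℝ → ℝ := fun s => w (y + s) - gk v y k * ltan s - ek v y k with hf
  set φ : ℝ → ℝ := (nr k).indicator (psi v y k) with hφ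
  have φm : Measurable φ := (measurable_psi hv y k).indicator (measurableSet_nr k)
  have φb : ∀ t, |φ t| ≤ 2 * C := fun t => by
    by_cases ht : t ∈ nr k
    · rw [hφ, indicator_of_mem ht]
      exact abs_psi_le hv y k t
    · rw [hφ, indicator_of_notMem ht, abs_zero]
      linarith
  have φs : ∀ t, 2 < |t| → φ t = 0 := fun t ht =>
    indicator_of_notMem (fun k' : t ∈ nr k => by linarith [k'.2]) _
  have fm : Measurable f := ((hm.comp (measurable_id.const_add y)).sub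
    (MS_ltan_meas.const_mul _)).sub_const _
  have w1 := HubN_ii hw y
  have fi : ∀ a c, IntervalIntegrable f volume a c := fun a c =>
    ((w1 a c).sub ((MS_ltan_ii a c).const_mul _)).sub intervalIntegrable_const
  have hD : ∀ s, ∫ t in (0 : ℝ)..s, f t =
      P0 φ s + RM v y k s + -P0 (fun σ => v (y + σ)) 0 := fun s => by
    simp only [hf]
    rw [intervalIntegral.integral_sub ((w1 0 s).sub ((MS_ltan_ii 0 s).const_mul _))
      intervalIntegrable_const, intervalIntegral.integral_sub (w1 0 s)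
      ((MS_ltan_ii 0 s).const_mul _), lpi_shift hw hv h, intervalIntegral.integral_const_mul,
      intervalIntegral.integral_const, smul_eq_mul, RM]
    ring
  have hA : ∀ δ, 0 < δ → δ ≤ 1 → ∫ t in (-π)..π, ((P0 φ (t + δ) - P0 φ t) / δ) ^ 2 ≤
      2 * C * (4 * rr k * (n₁ k + n₂ k)) := fun δ d0 d1 => by
    refine (l2_quot φm φb φs d0 d1).trans ?_
    have i1 : IntervalIntegrable (fun t => |φ t|) volume (-π) π :=
      (bdd_intervalIntegrable φm φb _ _).abs
    have b : ∀ t, φ t ^ 2 ≤ 2 * C * |φ t| := fun t => by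
      rw [← sq_abs, sq]
      exact mul_le_mul_of_nonneg_right (φb t) (abs_nonneg _)
    have i2 : IntervalIntegrable (fun t => φ t ^ 2) volume (-π) π :=
      bdd_intervalIntegrable (B := 2 * C * (2 * C)) (φm.pow_const 2) (fun t => by
        rw [abs_of_nonneg (sq_nonneg _)]
        exact (b t).trans (mul_le_mul_of_nonneg_left (φb t) (by linarith))) _ _
    refine (intervalIntegral.integral_mono_on (by linarith) i2 (i1.const_mul (2 * C))
      fun t _ => b t).trans ?_
    rw [intervalIntegral.integral_const_mul]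
    exact mul_le_mul_of_nonneg_left (psi_near hv h₁ h₂ k) (by linarith)
  have fin : 2 * (2 * C * (4 * rr k * (n₁ k + n₂ k))) +
      2 * (16 * (n₁ k + n₂ k)) ^ 2 * (rr k - rr k / 4) ≤
      rr k * (16 * C * (n₁ k + n₂ k) + 512 * (n₁ k + n₂ k) ^ 2) := by
    linarith only [r0, mul_nonneg r0.le (sq_nonneg (n₁ k + n₂ k)), sq_nonneg (n₁ k + n₂ k)]
  rcases hσ with rfl | rfl
  · have := MS_fatou (a := rr k / 4) (c := rr k) fm fi hD (continuous_P0 φm φb)
      (fun s hs s' hs' => rm_lip hv h₁ h₂ k (Or.inl ⟨hs, hs'⟩)) (by linarith only [r0]) (by linarith only [r0, p3])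
      (by linarith only [r1, p3]) hA
    simp only [sd, one_mul]
    exact ⟨this.1, this.2.trans fin⟩
  · have := MS_fatou (a := -rr k) (c := -(rr k / 4)) fm fi hD (continuous_P0 φm φb)
      (fun s hs s' hs' => rm_lip hv h₁ h₂ k (Or.inr ⟨hs, hs'⟩)) (by linarith only [r0]) (by linarith only [r1, p3])
      (by linarith only [r0, p3]) hA
    have e : (fun ρ => (sd w y (-1) ρ - gk v y k * ltan ρ - ek v y k) ^ 2) =
        fun ρ => (fun t => f t ^ 2) (-ρ) := by
      funext ρ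
      simp only [sd, hf, MS_ltan_neg, neg_mul, one_mul]
    rw [e, intervalIntegral.integral_comp_neg fun t => f t ^ 2]
    refine ⟨?_, this.2.trans (le_of_eq_of_le (by ring) fin)⟩
    have := ((IntervalIntegrable.iff_comp_neg (by simp)).1 this.1).symm
    simpa only [neg_neg] using this

theorem ms_w (C : ℝ) : ∃ C' : ℝ, C ≤ C' ∧ ∀ w v : ℝ → ℝ, Measurable w →
    (∀ a c, IntervalIntegrable w volume a c) → VU v C → LPI w v → ∀ y, ∃ N : ℕ → ℝ,
      MS1 (sd w y 1) (gk v y) (fun k => ek v y k - gk v y k * Real.log 2) N C' ∧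
        MS1 (sd w y (-1)) (gk v y) (fun k => ek v y k - gk v y k * Real.log 2) N C' := by
  refine ⟨256 * |C| + 1049616 * C ^ 2, by linarith only [le_abs_self C, abs_nonneg C, sq_nonneg C, sq_nonneg C], ?_⟩
  intro w v hm hw hv h y
  have C0 : 0 ≤ C := (abs_nonneg _).trans (hv.bd 0)
  rw [abs_of_nonneg C0]
  obtain ⟨n₁, h₁⟩ := vd_of_vi (hv.pos y)
  obtain ⟨n₂, h₂⟩ := vd_of_vi (hv.neg y)
  have C2 := sq_nonneg C
  have main : ∀ σ : ℝ, σ = 1 ∨ σ = -1 → MS1 (sd w y σ) (gk v y)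
      (fun k => ek v y k - gk v y k * Real.log 2)
      (fun k => 32800 * C * (n₁ k + n₂ k) + 8 * C ^ 2 * rr k) (256 * C + 1049616 * C ^ 2) := by
    intro σ hσ
    have key : ∀ k, IntervalIntegrable (fun r => (sd w y σ r - gk v y k * Real.log r -
        (ek v y k - gk v y k * Real.log 2)) ^ 2) volume (rr (k + 2)) (rr k) ∧
        ∫ r in (rr (k + 2))..(rr k), (sd w y σ r - gk v y k * Real.log r -
          (ek v y k - gk v y k * Real.log 2)) ^ 2 ≤
          rr k * (32800 * C * (n₁ k + n₂ k) + 8 * C ^ 2 * rr k) := fun k => by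
      have r0 := rr_pos k
      have r1 := rr_le_one k
      obtain ⟨a1, a2⟩ := ml_L2 hm hw hv h h₁ h₂ k hσ
      have e : (fun r => (sd w y σ r - gk v y k * Real.log r -
          (ek v y k - gk v y k * Real.log 2)) ^ 2) =
          fun r => ((sd w y σ r - gk v y k * ltan r - ek v y k) +
            gk v y k * (sg r - (lg (r + π) - Real.log 2))) ^ 2 := by
        funext r
        simp only [ltan, sg]
        ring
      have m1 : Measurable (sd w y σ) := hm.comp ((measurable_id.const_mul σ).const_add y)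
      have m2 : Measurable sg := measurable_lg.sub measurable_log
      have m3 : Measurable fun r => lg (r + π) := measurable_lg.comp (measurable_id.add_const π)
      obtain ⟨b1, b2⟩ := MS_sq (f := fun r => sd w y σ r - gk v y k * ltan r - ek v y k)
        (h := fun r => gk v y k * (sg r - (lg (r + π) - Real.log 2)))
        (G := fun _ => (C * (2 * rr k)) ^ 2) (by linarith only [r0])
        (((m1.sub (MS_ltan_meas.const_mul _)).sub_const _).add
          ((m2.sub (m3.sub_const _)).const_mul _)) a1 intervalIntegrable_const fun t ht => by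
          have t0 : 0 < t := by linarith only [r0, ht, ht.1]
          have s1 := abs_sg_le t0 (ht.2.trans r1)
          have s2 := abs_lg_pi (s := t) (by rw [abs_of_pos t0]; exact ht.2.trans r1)
          rw [abs_of_pos t0] at s2
          have s3 : |sg t - (lg (t + π) - Real.log 2)| ≤ 2 * rr k :=
            (abs_sub _ _).trans (by linarith only [s1, s2, ht, ht.2])
          have s4 : |gk v y k * (sg t - (lg (t + π) - Real.log 2))| ≤ C * (2 * rr k) := by
            rw [abs_mul]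
            exact mul_le_mul (abs_gk_le hv y k) s3 (abs_nonneg _) C0
          exact sq_le_sq' (abs_le.1 s4).1 (abs_le.1 s4).2
      rw [e, MS_rr]
      refine ⟨b1, b2.trans ?_⟩
      rw [intervalIntegral.integral_const, smul_eq_mul]
      have n0 : 0 ≤ n₁ k + n₂ k := add_nonneg (h₁.sm.nn k) (h₂.sm.nn k)
      have n1 : n₁ k + n₂ k ≤ 32 * C := by linarith only [h₁, h₂, MS_le h₁.sm k, MS_le h₂.sm k]
      have n2 : rr k * (n₁ k + n₂ k) ^ 2 ≤ rr k * (32 * C * (n₁ k + n₂ k)) :=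
        mul_le_mul_of_nonneg_left (by linarith only [n0, n1, mul_nonneg_of_nonpos_of_nonpos (Mathlib.Tactic.Linarith.sub_nonpos_of_le n0) (Mathlib.Tactic.Linarith.sub_nonpos_of_le n1)]) r0.le
      have n3 : rr k * (C ^ 2 * rr k ^ 2) ≤ 1 * (C ^ 2 * rr k ^ 2) :=
        mul_le_mul_of_nonneg_right r1 (by positivity)
      have n4 : 0 ≤ C ^ 2 * rr k ^ 2 := by positivity
      linarith only [a2, n2, n3, sq_nonneg ((1 : ℝ) * C * ((1 : ℝ) * (2 : ℝ) * ((1 : ℝ) * rr k)))]
    refine ⟨fun k => (abs_gk_le hv y k).trans (by nlinarith), fun n => ?_, ⟨fun k => ?_, fun n => ?_⟩,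
      fun k => (key k).1, fun k => (key k).2, fun n => ?_⟩
    · refine (Finset.sum_le_sum fun k _ => gk_sub_le h₁ h₂ k).trans ?_
      rw [Finset.sum_add_distrib]
      linarith only [C0, h₁, h₂, h₁.sm.sum n, h₂.sm.sum n, sq_nonneg C]
    · have := add_nonneg (h₁.sm.nn k) (h₂.sm.nn k)
      have := (rr_pos k).le
      positivity
    · rw [Finset.sum_add_distrib, ← Finset.mul_sum, ← Finset.mul_sum, Finset.sum_add_distrib]
      have s1 : C * (∑ k ∈ Finset.range n, n₁ k + ∑ k ∈ Finset.range n, n₂ k) ≤ C * (32 * C) :=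
        mul_le_mul_of_nonneg_left (by linarith [h₁.sm.sum n, h₂.sm.sum n]) C0
      have s2 := mul_le_mul_of_nonneg_left (HubN_rr n) C2
      linarith only [C0, s1, s2]
    · refine (Finset.sum_le_sum fun k _ => ek_jump hv h₁ h₂ k).trans ?_
      rw [Finset.sum_add_distrib, ← Finset.mul_sum, ← Finset.mul_sum, Finset.sum_add_distrib,
        Finset.sum_add_distrib]
      linarith only [h₁, h₂, h₁.sm.sum n, h₂.sm.sum n, MS_shift h₁.sm n, MS_shift h₂.sm n, sq_nonneg C]
  exact ⟨_, main 1 (Or.inl rfl), main (-1) (Or.inr rfl)⟩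

theorem ms_add (C : ℝ) : ∃ C' : ℝ, C ≤ C' ∧ ∀ (W U : ℝ → ℝ) (g e N : ℕ → ℝ) (κ : ℝ),
    Measurable W → MS1 W g e N C → VI U C → ∃ e' N' : ℕ → ℝ, MS1 (fun r => W r + κ + U r) g e' N' C' := by
  refine ⟨17 * |C| + 64 * C ^ 2, by linarith only [le_abs_self C, abs_nonneg C, sq_nonneg C, sq_nonneg C], ?_⟩
  intro W U g e N κ hW h hU
  have C0 : 0 ≤ C := (abs_nonneg _).trans (hU.bd 0)
  rw [abs_of_nonneg C0]
  obtain ⟨m, hm⟩ := vd_of_vi hU
  have C2 := sq_nonneg C
  have key : ∀ k, IntervalIntegrable (fun r => (W r + κ + U r - g k * Real.log r -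
      (e k + κ + mean U 0 (rr k))) ^ 2) volume (rr (k + 2)) (rr k) ∧
      ∫ r in (rr (k + 2))..(rr k), (W r + κ + U r - g k * Real.log r -
        (e k + κ + mean U 0 (rr k))) ^ 2 ≤ rr k * (2 * N k + 4 * C * m k) := fun k => by
    have r0 := rr_pos k
    have r1 := rr_le_one k
    have r2 := rr_pos (k + 2)
    have r3 : rr (k + 2) ≤ rr k := rr_anti (Nat.le_add_right k 2)
    have p3 := pi_gt_three
    have e1 : (fun r => (W r + κ + U r - g k * Real.log r - (e k + κ + mean U 0 (rr k))) ^ 2) =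
        fun r => ((W r - g k * Real.log r - e k) + (U r - mean U 0 (rr k))) ^ 2 := by
      funext r
      ring
    have i1 : IntervalIntegrable (fun r => |U r - mean U 0 (rr k)| * kap (rr k) r) volume
        (rr (k + 2)) (rr k) := (hm.ii k).mono_set (by
      rw [uIcc_of_le r3, uIcc_of_le pi_pos.le]
      exact Icc_subset_Icc r2.le (by linarith))
    have i2 : ∫ r in (rr (k + 2))..(rr k), |U r - mean U 0 (rr k)| * kap (rr k) r ≤ m k :=
      (intervalIntegral.integral_mono_interval r2.le r3 (by linarith)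
        (Eventually.of_forall fun r => mul_nonneg (abs_nonneg _)
          (le_min (by positivity) (by positivity))) (hm.ii k)).trans (hm.le k)
    obtain ⟨b1, b2⟩ := MS_sq (f := fun r => W r - g k * Real.log r - e k)
      (h := fun r => U r - mean U 0 (rr k))
      (G := fun r => 2 * C * rr k * (|U r - mean U 0 (rr k)| * kap (rr k) r)) r3
      (((hW.sub (measurable_log.const_mul _)).sub_const _).add (hU.meas.sub_const _)) (h.ii k)
      (i1.const_mul _) fun t ht => by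
        have t0 : 0 < t := r2.trans_le ht.1
        have k1 : kap (rr k) t = 1 / rr k := min_eq_left (by
          rw [div_le_div_iff₀ r0 (by positivity)]
          linarith only [r0, ht, t0, ht.2, mul_nonneg_of_nonpos_of_nonpos (le_of_lt (Mathlib.Tactic.Linarith.sub_neg_of_lt r0)) (Mathlib.Tactic.Linarith.sub_nonpos_of_le ht.right), mul_nonneg_of_nonpos_of_nonpos (le_of_lt (Mathlib.Tactic.Linarith.sub_neg_of_lt t0)) (Mathlib.Tactic.Linarith.sub_nonpos_of_le ht.right)])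
        have s1 : |U t - mean U 0 (rr k)| ≤ 2 * C :=
          (abs_sub _ _).trans (by linarith [hU.bd t, mean_abs_le hU.bd r0])
        have e2 : 2 * C * rr k * (|U t - mean U 0 (rr k)| * (1 / rr k)) =
            2 * C * |U t - mean U 0 (rr k)| := by field_simp
        rw [k1, e2, ← sq_abs, sq]
        exact mul_le_mul_of_nonneg_right s1 (abs_nonneg _)
    rw [e1]
    refine ⟨b1, b2.trans ?_⟩
    rw [intervalIntegral.integral_const_mul]
    have := mul_le_mul_of_nonneg_left i2 (show 0 ≤ 2 * C * rr k by positivity)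
    linarith only [this, h, h.osc k]
  refine ⟨fun k => e k + κ + mean U 0 (rr k), fun k => 2 * N k + 4 * C * m k,
    fun k => (h.bd k).trans (by nlinarith), fun n => (h.bv n).trans (by nlinarith),
    ⟨fun k => ?_, fun n => ?_⟩, fun k => (key k).1, fun k => (key k).2, fun n => ?_⟩
  · have := h.sm.nn k
    have := hm.sm.nn k
    positivity
  · rw [Finset.sum_add_distrib, ← Finset.mul_sum, ← Finset.mul_sum]
    linarith only [C0, h, hm, h.sm.sum n, mul_le_mul_of_nonneg_left (hm.sm.sum n) C0]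
  · have b : ∀ k, |(g k - g (k + 1)) * Real.log (rr (k + 1)) + ((e k + κ + mean U 0 (rr k)) -
        (e (k + 1) + κ + mean U 0 (rr (k + 1))))| ≤
        |(g k - g (k + 1)) * Real.log (rr (k + 1)) + (e k - e (k + 1))| + m k := fun k => by
      have e1 : (g k - g (k + 1)) * Real.log (rr (k + 1)) + ((e k + κ + mean U 0 (rr k)) -
          (e (k + 1) + κ + mean U 0 (rr (k + 1)))) =
          ((g k - g (k + 1)) * Real.log (rr (k + 1)) + (e k - e (k + 1))) -
            (mean U 0 (rr (k + 1)) - mean U 0 (rr k)) := by ring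
      rw [e1]
      exact (abs_sub _ _).trans (by linarith [hm.df k])
    refine (Finset.sum_le_sum fun k _ => b k).trans ?_
    rw [Finset.sum_add_distrib]
    nlinarith [h.jmp n, hm.sm.sum n]

theorem ms_of_sd {Φ b u v : ℝ → ℝ} {κ C : ℝ} (h : SD Φ b u v κ C) : ∃ C' : ℝ, C ≤ C' ∧ ∀ y,
    ∃ e₁ N₁ e₂ N₂ : ℕ → ℝ,
      MS1 (sd b y 1) (gk v y) e₁ N₁ C' ∧ MS1 (sd b y (-1)) (gk v y) e₂ N₂ C' := by
  obtain ⟨C₁, c1, h1⟩ := ms_w C
  obtain ⟨C₂, c2, h2⟩ := ms_add C₁
  refine ⟨C₂, c1.trans c2, fun y => ?_⟩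
  have m : Measurable fun t => b t - u t - κ := (h.st.ai.meas.sub h.vu.meas).sub_const κ
  obtain ⟨N, a1, a2⟩ := h1 (fun t => b t - u t - κ) v m (fun a c => ((h.st.ai.ii a c).sub
    (bdd_intervalIntegrable h.vu.meas h.vu.bd a c)).sub intervalIntegrable_const) h.vv h.lp y
  have e : ∀ σ : ℝ, (fun r => sd (fun t => b t - u t - κ) y σ r + κ + sd u y σ r) = sd b y σ :=
    fun σ => by
      funext r
      simp only [sd]
      ring
  have ms : ∀ σ : ℝ, Measurable (sd (fun t => b t - u t - κ) y σ) := fun σ =>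
    m.comp ((measurable_id.const_mul σ).const_add y)
  obtain ⟨e₁, N₁, b1⟩ := h2 _ _ _ _ _ κ (ms 1) a1 ((h.vu.pos y).mono c1)
  obtain ⟨e₂, N₂, b2⟩ := h2 _ _ _ _ _ κ (ms (-1)) a2 ((h.vu.neg y).mono c1)
  rw [e] at b1 b2
  exact ⟨e₁, N₁, e₂, N₂, b1, b2⟩

end Pool.Agent.Work.MP_af796d_an.H
end

-- merged part: Pool.Agent.Work.MP_af796d_an.H.StepA
section
/-!
# Truncated pairings on the image side
PLAN.
* H_prim: cov_var with S = Φ, w = e^b, χ = wg g (continuous_wg), integral_wg; swap the end points if c < a.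
* sym_log: fold to Pair (Dyadic.lean: Pair_eq or directly).  log (max t ρ) = lg (max t ρ) - sg (max t ρ) on (0, π]; t ↦ sg (max t ρ) is antitone with values in [sg π, 0]: anti_pair
  (primitive of wg g bounded by 2 M, integral_wg).  For ρ ≤ 1 use Pair_trunc; for 1 ≤ ρ ≤ π the function log (max t ρ) itself is monotone with values in [0, log π]: mono_pair.
* stepA: side +: β = sd b y 1, S = SS β, Φ (y + r) = Φ y + S r, LT β ρ r = log (max (S r) (S ρ)) (AI.SS_mono).  cov_var on [0, π] turns the integral into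
  ∫_0^{S π} wg g (Φ y + t) * (log (max t (S rn)) - log (max t (S rk))) dt; the integrand vanishes for t ≥ S rk, so the upper limit may be replaced by 2π.  Side -: the same with wg g (Φ y - t).
  Let ρn = min (S1 rn) (S2 rn), ρk = min (S1 rk) (S2 rk) ≤ π (the sum S1 π + S2 π is 2π).  t ↦ log (max t (S rn)) - log (max t ρn) is antitone with values in [0, A] (st_qs): anti_pair on [0, 2π]; same for k.
  What is left is λ t = log (max t ρn) - log (max t ρk), zero for t ≥ π, on both sides: sym_log twice.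
-/

set_option autoImplicit false

namespace Pool.Agent.Work.MP_af796d_an.H

open MeasureTheory Set Real Metric Filter Topology

lemma H_prim {Φ b : ℝ → ℝ} {C : ℝ} (h : St Φ b C) {g : ℂ → ℂ}
    (hg : AnalyticOnNhd ℂ g (closedBall 0 1)) (a c : ℝ) :
    IntervalIntegrable (fun s => wg g (Φ s) * Real.exp (b s)) volume a c ∧
      (g (ex (Φ c))).re - (g (ex (Φ a))).re = ∫ s in a..c, wg g (Φ s) * Real.exp (b s) := by
  have k : ∀ a c, a ≤ c →
      IntervalIntegrable (fun s => wg g (Φ s) * Real.exp (b s)) volume a c ∧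
      (g (ex (Φ c))).re - (g (ex (Φ a))).re = ∫ s in a..c, wg g (Φ s) * Real.exp (b s) :=
    fun a c hac => by
      have := cov_var (S := Φ) hac (h.ai.iie a c) (fun _ => (exp_pos _).le)
        (fun x _ => by rw [← h.int, add_sub_cancel]) (continuous_wg hg).continuousOn
      exact ⟨this.1, by rw [this.2, integral_wg hg]⟩
  rcases le_total a c with hac | hac
  · exact k a c hac
  · exact ⟨(k c a hac).1.symm, by rw [intervalIntegral.integral_symm, ← (k c a hac).2, neg_sub]⟩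

lemma StepA_cont {u : ℝ} (hu : 0 < u) : Continuous fun t => Real.log (max t u) :=
  (continuous_id.max continuous_const).log fun _ => (lt_max_of_lt_right hu).ne'

theorem sym_log : ∃ K : ℝ, 0 ≤ K ∧ ∀ (g : ℂ → ℂ) (M y ρ : ℝ), AnalyticOnNhd ℂ g (closedBall 0 1) →
    (∀ z : ℂ, ‖z‖ ≤ 1 → ‖g z‖ ≤ M) → 0 < ρ → ρ ≤ π →
    |(∫ t in (0 : ℝ)..π, wg g (y + t) * Real.log (max t ρ)) +
      ∫ t in (0 : ℝ)..π, wg g (y - t) * Real.log (max t ρ)| ≤ K * M := by
  have h1 := sg_nonpos pi_pos (by linarith [pi_pos])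
  have h2 : 0 ≤ Real.log π := log_nonneg (by linarith [two_le_pi])
  refine ⟨20 - 4 * sg π + 4 * Real.log π, by linarith, fun g M y ρ hg hM h0 hρ => ?_⟩
  have M0 : 0 ≤ M := (norm_nonneg _).trans (hM 0 (by simp))
  simp only [mul_comm (wg g _)]
  rw [← Pair]
  rcases le_total ρ 1 with k | k
  · have d : Dom (fun t => sg (max t ρ)) (fun t => -sg (max t ρ)) 0 π :=
      Dom.of_antitoneOn fun s _ t ht hst => sg_anti (lt_max_of_lt_right h0)
        (max_le_max_right _ hst) (max_lt (by linarith [ht.2, pi_pos]) (by linarith [pi_pos]))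
    have i1 := (dom_lg_max h0 k).intervalIntegrable pi_pos.le
    have i2 := d.intervalIntegrable pi_pos.le
    have e := Pair_lin (continuous_wg hg) y 1 i1 i1 i2 i2
    have a1 := Pair_trunc hg hM y h0 k
    have a2 := Pair_dom hg hM y d d rfl
    have a3 := sg_nonpos h0 (by linarith [pi_pos])
    simp only [max_eq_left hρ, max_eq_right h0.le] at a2
    simp only [one_mul] at e
    conv_lhs at e => simp only [sg, sub_sub_cancel]
    rw [e]
    refine (abs_sub _ _).trans ?_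
    linarith only [a1, a2, h2, M0, a3, mul_nonneg_of_nonpos_of_nonpos (Mathlib.Tactic.Linarith.sub_nonpos_of_le h2) (Mathlib.Tactic.Linarith.sub_nonpos_of_le M0), mul_nonneg_of_nonpos_of_nonpos (Mathlib.Tactic.Linarith.sub_nonpos_of_le M0) (Mathlib.Tactic.Linarith.sub_nonpos_of_le a3)]
  · have d : Dom (fun t => Real.log (max t ρ)) (fun t => Real.log (max t ρ)) 0 π :=
      Dom.of_monotoneOn fun s _ t _ hst =>
        log_le_log (lt_max_of_lt_right h0) (max_le_max_right _ hst)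
    have a2 := Pair_dom hg hM y d d rfl
    have a3 := log_nonneg k
    simp only [max_eq_left hρ, max_eq_right h0.le] at a2
    linarith only [M0, a2, h1, a3, mul_nonneg_of_nonpos_of_nonpos (Mathlib.Tactic.Linarith.sub_nonpos_of_le h1) (Mathlib.Tactic.Linarith.sub_nonpos_of_le M0), mul_nonneg_of_nonpos_of_nonpos (Mathlib.Tactic.Linarith.sub_nonpos_of_le M0) (Mathlib.Tactic.Linarith.sub_nonpos_of_le a3)]

lemma StepA_J {w : ℝ → ℝ} (hw : Continuous w) {B A ρ u : ℝ} (hB : ∀ x, |∫ t in (0 : ℝ)..x, w t| ≤ B)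
    (h0 : 0 < ρ) (h1 : ρ ≤ π) (h2 : ρ ≤ u) (hA : Real.log u - Real.log ρ ≤ A) :
    |(∫ t in (0 : ℝ)..(2 * π), w t * Real.log (max t u)) -
      (∫ t in (0 : ℝ)..π, w t * Real.log (max t ρ)) - ∫ t in π..(2 * π), w t * Real.log t| ≤
        5 * A * B := by
  have h3 := log_le_log h0 h2
  have e : ∀ {t v : ℝ}, 0 < t → 0 < v → Real.log (max t v) = max (Real.log t) (Real.log v) :=
    fun ht hv => strictMonoOn_log.monotoneOn.map_max ht hv
  have c1 : Continuous fun t => w t * Real.log (max t ρ) := hw.mul (StepA_cont h0)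
  have c2 : Continuous fun t => w t * Real.log (max t u) := hw.mul (StepA_cont (h0.trans_le h2))
  have k := (anti_pair (χ := fun t => Real.log (max t u) - Real.log (max t ρ)) (A := A)
    two_pi_pos.le (hw.intervalIntegrable _ _) (fun x _ => hB x) (fun s hs t ht hst => by
      have := log_le_log hs.1 hst
      simp only [e hs.1 h0, e ht.1 h0, e hs.1 (h0.trans_le h2), e ht.1 (h0.trans_le h2)]
      simp only [max_def]
      split_ifs <;> linarith)
    (fun t ht => by
      simp only [e ht.1 h0, e ht.1 (h0.trans_le h2)]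
      simp only [max_def, abs_le]
      split_ifs <;> constructor <;> linarith) (by linarith)).2
  have e2 : ∫ t in π..(2 * π), w t * Real.log t = ∫ t in π..(2 * π), w t * Real.log (max t ρ) :=
    intervalIntegral.integral_congr fun t ht => by
      rw [uIcc_of_le (by linarith [pi_pos])] at ht
      simp only [max_eq_left (h1.trans ht.1)]
  simp only [mul_sub] at k
  rwa [e2, sub_sub, intervalIntegral.integral_add_adjacent_intervals (c1.intervalIntegrable _ _)
    (c1.intervalIntegrable _ _), ← intervalIntegral.integral_sub (c2.intervalIntegrable _ _)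
      (c1.intervalIntegrable _ _)]

lemma StepA_side {β w : ℝ → ℝ} {C a c : ℝ} (h : AI β C) (hw : Continuous w) (ha : 0 < a)
    (hac : a ≤ c) (hc : c ≤ π) (hS : SS β π ≤ 2 * π) :
    IntervalIntegrable (fun r => w (SS β r) * Real.exp (β r) * (LT β a r - LT β c r)) volume 0 π ∧
      ∫ r in (0 : ℝ)..π, w (SS β r) * Real.exp (β r) * (LT β a r - LT β c r) =
        (∫ t in (0 : ℝ)..(2 * π), w t * Real.log (max t (SS β a))) -
          ∫ t in (0 : ℝ)..(2 * π), w t * Real.log (max t (SS β c)) := by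
  have c1 : Continuous fun t => w t * Real.log (max t (SS β a)) :=
    hw.mul (StepA_cont (h.SS_pos ha))
  have c2 : Continuous fun t => w t * Real.log (max t (SS β c)) :=
    hw.mul (StepA_cont (h.SS_pos (ha.trans_le hac)))
  have c3 : Continuous fun t => w t * Real.log (max t (SS β a)) - w t * Real.log (max t (SS β c)) :=
    c1.sub c2
  have m := h.SS_mono.monotone
  have k := cov_var (S := SS β) pi_pos.le (h.iie 0 π) (fun _ => (exp_pos _).le)
    (fun x _ => by rw [SS_zero, zero_add, SS]) c3.continuousOn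
  have e : (fun r => w (SS β r) * Real.exp (β r) * (LT β a r - LT β c r)) = fun r =>
      (w (SS β r) * Real.log (max (SS β r) (SS β a)) -
        w (SS β r) * Real.log (max (SS β r) (SS β c))) * Real.exp (β r) := funext fun r => by
    rw [LT, LT, m.map_max, m.map_max]
    ring
  have z : ∫ t in (SS β π)..(2 * π),
      (w t * Real.log (max t (SS β a)) - w t * Real.log (max t (SS β c))) = 0 :=
    intervalIntegral.integral_zero_ae (Eventually.of_forall fun t ht => by
      rw [uIoc_of_le hS] at ht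
      rw [max_eq_left ((m hc).trans ht.1.le), max_eq_left ((m (hac.trans hc)).trans ht.1.le),
        sub_self])
  rw [e, k.2, SS_zero, ← intervalIntegral.integral_sub (c1.intervalIntegrable _ _)
    (c2.intervalIntegrable _ _), ← intervalIntegral.integral_add_adjacent_intervals
      (c3.intervalIntegrable 0 (SS β π)) (c3.intervalIntegrable _ (2 * π)), z, add_zero]
  exact ⟨k.1, rfl⟩

theorem stepA (C : ℝ) : ∃ K : ℝ, 0 ≤ K ∧ ∀ (Φ b : ℝ → ℝ) (g : ℂ → ℂ) (M y : ℝ) (k n : ℕ),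
    St Φ b C → AnalyticOnNhd ℂ g (closedBall 0 1) → (∀ z : ℂ, ‖z‖ ≤ 1 → ‖g z‖ ≤ M) → k ≤ n →
    IntervalIntegrable (fun s => wg g (Φ (y + s)) * Real.exp (b (y + s)) *
        (LL b y (rr n) s - LL b y (rr k) s)) volume (-π) π ∧
      |∫ s in (-π)..π, wg g (Φ (y + s)) * Real.exp (b (y + s)) *
        (LL b y (rr n) s - LL b y (rr k) s)| ≤ K * M := by
  obtain ⟨K, K0, hK⟩ := sym_log
  obtain ⟨A, A0, hA⟩ := st_qs C
  refine ⟨40 * A + 2 * K, by positivity, fun Φ b g M y k n h hg hM hkn => ?_⟩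
  have hw := continuous_wg hg
  have c1 : Continuous fun t => wg g (Φ y + t) := by fun_prop
  have c2 : Continuous fun t => wg g (Φ y - t) := by fun_prop
  have hb : ∀ a c, |∫ t in a..c, wg g t| ≤ 2 * M := fun a c => by
    have := fun t => (Complex.abs_re_le_norm _).trans (hM _ (norm_ex t).le)
    rw [integral_wg hg]
    exact (abs_sub _ _).trans (by linarith only [this, this a, this c])
  have b1 : ∀ x, |∫ t in (0 : ℝ)..x, wg g (Φ y + t)| ≤ 2 * M := fun x => by
    rw [intervalIntegral.integral_comp_add_left]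
    exact hb _ _
  have b2 : ∀ x, |∫ t in (0 : ℝ)..x, wg g (Φ y - t)| ≤ 2 * M := fun x => by
    rw [intervalIntegral.integral_comp_sub_left]
    exact hb _ _
  have a1 := h.ai.sd_pos y
  have a2 := h.ai.sd_neg y
  have e0 : SS (sd b y 1) π + SS (sd b y (-1)) π = 2 * π := by
    have := h.good.per (y - π)
    rw [show y - π + 2 * π = y + π by ring] at this
    linarith only [this, h, h.SS_pos_eq y π, h.SS_neg_eq y π]
  have r1 : ∀ j, rr j ≤ π := fun j => (rr_le_one j).trans (by linarith [two_le_pi])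
  have s1 := StepA_side a1 c1 (rr_pos n) (rr_anti hkn) (r1 k) (by linarith [a2.SS_pos pi_pos])
  have s2 := StepA_side a2 c2 (rr_pos n) (rr_anti hkn) (r1 k) (by linarith [a1.SS_pos pi_pos])
  have key : ∀ j, |(∫ t in (0 : ℝ)..(2 * π), wg g (Φ y + t) *
      Real.log (max t (SS (sd b y 1) (rr j)))) + (∫ t in (0 : ℝ)..(2 * π), wg g (Φ y - t) *
      Real.log (max t (SS (sd b y (-1)) (rr j)))) - ((∫ t in π..(2 * π), wg g (Φ y + t) *
      Real.log t) + ∫ t in π..(2 * π), wg g (Φ y - t) * Real.log t)| ≤ (20 * A + K) * M := fun j => by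
    have p1 := a1.SS_pos (rr_pos j)
    have p2 := a2.SS_pos (rr_pos j)
    have p3 := lt_min p1 p2
    have q := abs_le.1 (hA Φ b h y _ (rr_pos j) (r1 j))
    have m1 := min_le_left (SS (sd b y 1) (rr j)) (SS (sd b y (-1)) (rr j))
    have m2 := min_le_right (SS (sd b y 1) (rr j)) (SS (sd b y (-1)) (rr j))
    have m3 : min (SS (sd b y 1) (rr j)) (SS (sd b y (-1)) (rr j)) ≤ π := by
      linarith only [e0, m1, m2, a1, r1, a2, a1.SS_mono.monotone (r1 j), a2.SS_mono.monotone (r1 j)]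
    have t1 := abs_le.1 (StepA_J (A := A) c1 b1 p3 m3 m1 (by
      rcases min_choice (SS (sd b y 1) (rr j)) (SS (sd b y (-1)) (rr j)) with e | e <;> rw [e] <;>
        linarith only [A0, q, q.2]))
    have t2 := abs_le.1 (StepA_J (A := A) c2 b2 p3 m3 m2 (by
      rcases min_choice (SS (sd b y 1) (rr j)) (SS (sd b y (-1)) (rr j)) with e | e <;> rw [e] <;>
        linarith only [q, A0, q.1]))
    have t3 := abs_le.1 (hK g M (Φ y) _ hg hM p3 m3)
    exact abs_le.2 ⟨by linarith only [t1, t2, t3, t1.1, t2.1, t3.1], by linarith only [t1, t2, t3, t1.2, t2.2, t3.2]⟩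
  obtain ⟨F, hF⟩ : ∃ F, F = fun s => wg g (Φ (y + s)) * Real.exp (b (y + s)) *
    (LL b y (rr n) s - LL b y (rr k) s) := ⟨_, rfl⟩
  have f1 : EqOn (fun r => wg g (Φ y + SS (sd b y 1) r) * Real.exp (sd b y 1 r) *
      (LT (sd b y 1) (rr n) r - LT (sd b y 1) (rr k) r)) F (uIoc 0 π) := fun r hr => by
    rw [uIoc_of_le pi_pos.le] at hr
    simp only [hF, LL, if_pos hr.1.le, h.SS_pos_eq, add_sub_cancel]
    simp only [sd, one_mul]
  have f2 : EqOn (fun r => wg g (Φ y - SS (sd b y (-1)) r) * Real.exp (sd b y (-1) r) *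
      (LT (sd b y (-1)) (rr n) r - LT (sd b y (-1)) (rr k) r)) (fun r => F (-r)) (uIoc 0 π) :=
    fun r hr => by
      rw [uIoc_of_le pi_pos.le] at hr
      simp only [hF, LL, if_neg (not_le.2 (neg_neg_of_pos hr.1)), h.SS_neg_eq, sub_sub_cancel,
        neg_neg]
      simp only [sd, neg_one_mul, sub_eq_add_neg]
  have i1 := s1.1.congr f1
  have i2 : IntervalIntegrable F volume (-π) 0 := by
    have := (IntervalIntegrable.iff_comp_neg (f := fun r => F (-r))).1 (s2.1.congr f2).symm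
    simpa only [neg_neg, neg_zero] using this
  rw [intervalIntegral.integral_congr_ae (Eventually.of_forall f1)] at s1
  rw [intervalIntegral.integral_congr_ae (Eventually.of_forall f2),
    intervalIntegral.integral_comp_neg, neg_zero] at s2
  rw [← hF, ← intervalIntegral.integral_add_adjacent_intervals i2 i1, s1.2, s2.2]
  have k1 := abs_le.1 (key n)
  have k2 := abs_le.1 (key k)
  exact ⟨i2.trans i1, abs_le.2 ⟨by linarith only [k1, k2, k1.1, k2.2], by linarith only [k1, k2, k1.2, k2.1]⟩⟩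

end Pool.Agent.Work.MP_af796d_an.H
end

-- merged part: Pool.Agent.Work.MP_af796d_an.H.OdeR
section
/-!
# The real differential equation
PLAN.
* exists_ann: least j with rr (j+1) < x (Nat.find), rr_anti.
* ode_side: induction on n from n = k (f = 0, φ = 0).  Step: on the new annulus [rr (n+1), rr n] put a = c n, E r = r ^ a (rpow),
  f r = E r * (f (rr n)/E (rr n) + ∫_r^{rr n} H ρ * a / (ρ * E ρ) dρ); it is C1 there with f' = (a/r)(f - H), and
  |f r| ≤ M E r/E (rr n) + M E r (1/E r - 1/E (rr n)) = M since ∫ a ρ^(-1-a) = 1/E r - 1/E (rr n).  Glue with if-then-else on r ≤ rr n; φ = the new derivative times the indicator of Ioc (rr (n+1)) (rr n) plus the old φ.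
  A non-inductive variant: E r = exp (- ∫_r^{rr k} cc ρ/ρ) with cc the step function, prim_mul and cov_var.
* ode_real: f1, φ1 for H and f2, φ2 for r ↦ H (-r).  φ s = φ1 s for s > rr n, - φ2 (-s) for s < - rr n, and (f1 (rr n) - f2 (rr n))/(2 rr n) for |s| ≤ rr n; define f x = ∫_{-rr k}^x φ and identify it piecewise
  (f s = f2 (-s) for s ≤ - rr n, affine in the middle, f1 s for s ≥ rr n).
* OD.abs_le: three cases through exists_ann; 1 ≤ C.
-/

set_option autoImplicit false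

namespace Pool.Agent.Work.MP_af796d_an.H

open MeasureTheory Set Real Metric Filter Topology

lemma exists_ann {k n : ℕ} {x : ℝ} (h1 : rr n < x) (h2 : x ≤ rr k) :
    ∃ j, k ≤ j ∧ j < n ∧ rr (j + 1) < x ∧ x ≤ rr j := by
  induction n with
  | zero => linarith [rr_anti (Nat.zero_le k)]
  | succ n ih =>
    rcases lt_or_ge (rr n) x with h | h
    · obtain ⟨j, a, b, c⟩ := ih h
      exact ⟨j, a, by omega, c⟩
    · refine ⟨n, ?_, by omega, h1, h⟩
      by_contra hk
      linarith only [h2, h1, hk, rr_anti (show n + 1 ≤ k by omega)]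

lemma OdeR_ii {φ : ℝ → ℝ} (hφ : Measurable φ) {B : ℝ} (hB : ∀ s, |φ s| ≤ B) (a x : ℝ) :
    IntervalIntegrable φ volume a x :=
  (intervalIntegrable_const (c := B)).mono_fun' hφ.aestronglyMeasurable
    (Eventually.of_forall hB)

/-- the equation on one annulus. -/
lemma OdeR_loc {p q a M f0 : ℝ} (hp : 0 < p) (ha : 0 < a) {H : ℝ → ℝ}
    (hH : Continuous H) (hM : ∀ s, |H s| ≤ M) (h0 : |f0| ≤ M) (hpq : p ≤ q) :
    ∃ g : ℝ → ℝ, Continuous g ∧ g q = f0 ∧
      ∀ r ∈ Icc p q, |g r| ≤ M ∧ HasDerivAt g (a * (g r - H r) / r) r := by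
  have hq : 0 < q := hp.trans_le hpq
  have qa := Real.rpow_pos_of_pos hq a
  have cm : Continuous fun ρ : ℝ => a * max ρ p ^ (-a - 1) :=
    continuous_const.mul ((continuous_id.max continuous_const).rpow_const fun ρ =>
      .inl (lt_max_of_lt_right hp).ne')
  have cw : Continuous fun ρ : ℝ => H ρ * (a * max ρ p ^ (-a - 1)) := hH.mul cm
  have dI := fun r => (cw.integral_hasStrictDerivAt q r).hasDerivAt
  refine ⟨fun r => r ^ a * (f0 / q ^ a - ∫ ρ in q..r, H ρ * (a * max ρ p ^ (-a - 1))),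
    (Real.continuous_rpow_const ha.le).mul (continuous_const.sub
      (continuous_iff_continuousAt.2 fun r => (dI r).continuousAt)), ?_, fun r hr => ?_⟩
  · simp only [intervalIntegral.integral_same, sub_zero]
    field_simp
  have r0 : 0 < r := hp.trans_le hr.1
  have ra := Real.rpow_pos_of_pos r0 a
  constructor
  · have e : ∫ ρ in r..q, a * max ρ p ^ (-a - 1) = -q ^ (-a) - -r ^ (-a) := by
      refine intervalIntegral.integral_eq_sub_of_hasDerivAt (f := fun ρ => -ρ ^ (-a))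
        (fun ρ hρ => ?_) (cm.intervalIntegrable _ _)
      rw [uIcc_of_le hr.2] at hρ
      rw [max_eq_left (hr.1.trans hρ.1)]
      refine (Real.hasDerivAt_rpow_const (p := -a)
        (.inl (r0.trans_le hρ.1).ne')).neg.congr_deriv ?_
      ring
    have b : ‖∫ ρ in r..q, H ρ * (a * max ρ p ^ (-a - 1))‖ ≤
        ∫ ρ in r..q, M * (a * max ρ p ^ (-a - 1)) :=
      intervalIntegral.norm_integral_le_of_norm_le hr.2 (Eventually.of_forall fun ρ _ => by
        have : 0 ≤ a * max ρ p ^ (-a - 1) :=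
          mul_nonneg ha.le (Real.rpow_nonneg (le_max_of_le_right hp.le) _)
        rw [Real.norm_eq_abs, abs_mul, abs_of_nonneg this]
        exact mul_le_mul_of_nonneg_right (hM ρ) this)
        ((continuous_const.mul cm).intervalIntegrable _ _)
    rw [intervalIntegral.integral_const_mul, e, Real.norm_eq_abs, Real.rpow_neg hq.le,
      Real.rpow_neg r0.le] at b
    have c : |f0 / q ^ a| ≤ M * (q ^ a)⁻¹ := by
      rw [abs_div, abs_of_pos qa]
      exact div_le_div_of_nonneg_right h0 qa.le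
    beta_reduce
    rw [abs_mul, abs_of_pos ra, intervalIntegral.integral_symm, sub_neg_eq_add]
    refine (mul_le_mul_of_nonneg_left ((abs_add_le _ _).trans (add_le_add c b)) ra.le).trans_eq ?_
    field_simp
    ring
  · refine ((Real.hasDerivAt_rpow_const (p := a) (.inl r0.ne')).mul
      ((dI r).const_sub (f0 / q ^ a))).congr_deriv ?_
    rw [max_eq_left hr.1, Real.rpow_sub_one r0.ne', Real.rpow_sub_one r0.ne', Real.rpow_neg r0.le]
    field_simp
    ring

lemma ode_side {c : ℕ → ℝ} (hc : ∀ j, 0 < c j) {H : ℝ → ℝ} (hH : Continuous H) {M : ℝ}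
    (hM : ∀ s, |H s| ≤ M) {k n : ℕ} (hkn : k ≤ n) : ∃ f φ : ℝ → ℝ, Measurable φ ∧
      (∃ B, ∀ s, |φ s| ≤ B) ∧ (∀ r, rr n ≤ r → f r = -∫ t in r..(rr k), φ t) ∧
      (∀ r, rr n ≤ r → |f r| ≤ M) ∧ (∀ r, rr k < r → φ r = 0) ∧
      ∀ j, k ≤ j → j < n → ∀ r, rr (j + 1) < r → r ≤ rr j → φ r * r = c j * (f r - H r) := by
  have M0 : 0 ≤ M := (abs_nonneg _).trans (hM 0)
  induction n, hkn using Nat.le_induction with
  | base =>
    exact ⟨fun _ => 0, fun _ => 0, measurable_const, ⟨0, by simp⟩, by simp,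
      fun _ _ => by simpa using M0, by simp, fun j h1 h2 => by omega⟩
  | succ n hkn ih =>
    obtain ⟨f, φ, h1, ⟨B, h2⟩, h3, h4, h5, h6⟩ := ih
    have p0 := rr_pos (n + 1)
    have qk := rr_anti hkn
    obtain ⟨g, g1, g2, g3⟩ := OdeR_loc p0 (hc n) hH hM (h4 _ le_rfl) (rr_succ_le n)
    classical
    set ψ : ℝ → ℝ := fun r => if r ∈ Ioc (rr (n + 1)) (rr n) then c n * (g r - H r) / r else φ r
      with hψ
    have m1 : Measurable ψ := Measurable.ite measurableSet_Ioc
      (((g1.sub hH).measurable.const_mul _).div measurable_id) h1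
    have m2 : ∀ s, |ψ s| ≤ max B (c n * (M + M) / rr (n + 1)) := fun s => by
      simp only [hψ]
      split_ifs with h
      · refine le_max_of_le_right ?_
        rw [abs_div, abs_mul, abs_of_pos (hc n), abs_of_pos (p0.trans h.1)]
        exact div_le_div₀ (mul_nonneg (hc n).le (by linarith only [M0])) (mul_le_mul_of_nonneg_left
          ((abs_sub _ _).trans (add_le_add (g3 s ⟨h.1.le, h.2⟩).1 (hM s))) (hc n).le) p0 h.1.le
      · exact le_max_of_le_left (h2 s)
    have o1 : ∀ r, rr n < r → ψ r = φ r := fun r hr => if_neg fun h => hr.not_ge h.2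
    have o2 : ∀ r, rr n ≤ r → ∫ t in r..(rr k), ψ t = ∫ t in r..(rr k), φ t := fun r hr =>
      intervalIntegral.integral_congr_ae (Eventually.of_forall fun t ht =>
        o1 t ((le_min hr qk).trans_lt ht.1))
    refine ⟨fun r => if r ≤ rr n then g r else f r, ψ, m1, ⟨_, m2⟩, fun r hr => ?_, fun r hr => ?_,
      fun r hr => (o1 r (qk.trans_lt hr)).trans (h5 r hr), fun j j1 j2 r r1 r2 => ?_⟩
    · beta_reduce
      split_ifs with h
      · have e : ∫ t in r..(rr n), ψ t = g (rr n) - g r :=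
          intervalIntegral.integral_eq_sub_of_hasDerivAt_of_le h g1.continuousOn (fun t ht => by
            have k : t ∈ Ioc (rr (n + 1)) (rr n) := ⟨hr.trans_lt ht.1, ht.2.le⟩
            simp only [hψ, if_pos k]
            exact (g3 t ⟨k.1.le, k.2⟩).2) (OdeR_ii m1 m2 _ _)
        rw [← intervalIntegral.integral_add_adjacent_intervals (OdeR_ii m1 m2 r (rr n))
          (OdeR_ii m1 m2 _ _), o2 _ le_rfl, e, g2, h3 _ le_rfl]
        ring
      · rw [o2 r (not_le.1 h).le, h3 r (not_le.1 h).le]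
    · beta_reduce
      split_ifs with h
      · exact (g3 r ⟨hr, h⟩).1
      · exact h4 r (not_le.1 h).le
    · beta_reduce
      rcases (Nat.lt_succ_iff.1 j2).eq_or_lt with rfl | j3
      · simp only [hψ, if_pos (show r ∈ Ioc (rr (j + 1)) (rr j) from ⟨r1, r2⟩), if_pos r2]
        exact div_mul_cancel₀ _ (p0.trans r1).ne'
      · have k : rr n < r := (rr_anti j3).trans_lt r1
        rw [o1 r k, if_neg k.not_ge, h6 j j1 j3 r r1 r2]

theorem ode_real {c : ℕ → ℝ} (hc : ∀ j, 0 < c j) {H : ℝ → ℝ} (hH : Continuous H) {M : ℝ}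
    (hM : ∀ s, |H s| ≤ M) {k n : ℕ} (hkn : k ≤ n) : ∃ f φ, OD c k n H M f φ := by
  obtain ⟨f₁, φ₁, a1, ⟨B₁, a2⟩, a3, a4, a5, a6⟩ := ode_side hc hH hM hkn
  obtain ⟨f₂, φ₂, b1, ⟨B₂, b2⟩, b3, b4, b5, b6⟩ :=
    ode_side (H := fun r => H (-r)) hc (hH.comp continuous_neg) (fun s => hM _) hkn
  have ρ0 := rr_pos n
  have ρk := rr_anti hkn
  set d : ℝ := (f₁ (rr n) - f₂ (rr n)) / (2 * rr n) with hd
  set φ : ℝ → ℝ := fun s => if rr n < s then φ₁ s else if s < -rr n then -φ₂ (-s) else d with hφ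
  have m1 : Measurable φ := Measurable.ite measurableSet_Ioi a1
    (Measurable.ite measurableSet_Iio (b1.comp measurable_neg).neg measurable_const)
  have m2 : ∀ s, |φ s| ≤ max B₁ (max B₂ |d|) := fun s => by
    simp only [hφ]
    split_ifs
    · exact le_max_of_le_left (a2 s)
    · rw [abs_neg]
      exact le_max_of_le_right (le_max_of_le_left (b2 _))
    · exact le_max_of_le_right (le_max_right _ _)
  have ii := OdeR_ii m1 m2
  have e1 : ∀ s, rr n < s → φ s = φ₁ s := fun s h => if_pos h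
  have e2 : ∀ s, s < -rr n → φ s = -φ₂ (-s) := fun s h =>
    (if_neg (by linarith only [ρ0, h])).trans (if_pos h)
  have e3 : ∀ s, |s| ≤ rr n → φ s = d := fun s h =>
    (if_neg (abs_le.1 h).2.not_gt).trans (if_neg (abs_le.1 h).1.not_gt)
  set f : ℝ → ℝ := fun x => ∫ t in (-rr k)..x, φ t with hf
  have pr : ∀ a x, f x - f a = ∫ t in a..x, φ t := fun a x =>
    intervalIntegral.integral_interval_sub_left (ii _ _) (ii _ _)
  have v2 : ∀ s, s ≤ -rr n → f s = f₂ (-s) := fun s h => by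
    rw [b3 (-s) (by linarith)]
    simp only [hf]
    rw [intervalIntegral.integral_congr_uIoo (g := fun t => -φ₂ (-t)) fun t ht =>
      e2 t (ht.2.trans_le (max_le (by linarith) h)), intervalIntegral.integral_neg,
      intervalIntegral.integral_comp_neg, neg_neg]
  have v3 : ∀ s, |s| ≤ rr n → f s = f₂ (rr n) + (s + rr n) * d := fun s h => by
    have k := pr (-rr n) s
    rw [v2 _ le_rfl, neg_neg, intervalIntegral.integral_congr (g := fun _ => d) fun t ht => by
      rw [uIcc_of_le (abs_le.1 h).1] at ht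
      exact e3 t (abs_le.2 ⟨ht.1, ht.2.trans (abs_le.1 h).2⟩), intervalIntegral.integral_const,
      smul_eq_mul] at k
    linarith only [k]
  have v1 : ∀ s, rr n ≤ s → f s = f₁ s := fun s h => by
    have k1 := pr (rr n) s
    have k2 : f₂ (rr n) + (rr n + rr n) * d = f₁ (rr n) := by
      rw [hd]
      field_simp
      ring
    rw [v3 _ (abs_of_pos ρ0).le, k2, intervalIntegral.integral_congr_ae (g := φ₁)
      (Eventually.of_forall fun t ht => e1 t ((le_min le_rfl h).trans_lt ht.1)), a3 _ le_rfl,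
      ← intervalIntegral.integral_add_adjacent_intervals (OdeR_ii a1 a2 (rr n) s)
        (OdeR_ii a1 a2 s (rr k))] at k1
    rw [a3 s h]
    linarith only [k1]
  have z : ∀ {g : ℝ → ℝ}, (∀ r, rr k < r → g r = 0) → ∀ r, rr k ≤ r → -∫ t in r..(rr k), g t = 0 :=
    fun h r hr => by
      rw [intervalIntegral.integral_congr_ae (g := fun _ => 0) (Eventually.of_forall fun t ht =>
        h t ((le_min hr le_rfl).trans_lt ht.1))]
      simp
  have x1 := abs_le.1 (a4 _ le_rfl)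
  have x2 := abs_le.1 (b4 _ le_rfl)
  refine ⟨f, φ, m1, ⟨_, m2⟩, pr, fun s => ?_, fun s h => ?_, fun s h => ?_, fun s h => ?_,
    fun j j1 j2 s s1 s2 => ?_⟩
  · rcases le_total (rr n) s with h | h
    · rw [v1 s h]
      exact a4 s h
    rcases le_total s (-rr n) with h' | h'
    · rw [v2 s h']
      exact b4 _ (by linarith)
    have t0 : 0 ≤ (s + rr n) / (2 * rr n) := div_nonneg (by linarith) (by linarith)
    have t1 : (s + rr n) / (2 * rr n) ≤ 1 := (div_le_one (by linarith only [ρ0])).2 (by linarith only [h])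
    rw [v3 s (abs_le.2 ⟨h', h⟩), hd, mul_div_left_comm, abs_le]
    constructor <;> linarith only [x1, t0, x2, t1, mul_nonneg_of_nonpos_of_nonpos (Mathlib.Tactic.Linarith.sub_nonpos_of_le x1.left) (Mathlib.Tactic.Linarith.sub_nonpos_of_le t0), mul_nonneg_of_nonpos_of_nonpos (Mathlib.Tactic.Linarith.sub_nonpos_of_le x2.left) (Mathlib.Tactic.Linarith.sub_nonpos_of_le t1), mul_nonneg_of_nonpos_of_nonpos (Mathlib.Tactic.Linarith.sub_nonpos_of_le x1.right) (Mathlib.Tactic.Linarith.sub_nonpos_of_le t0), mul_nonneg_of_nonpos_of_nonpos (Mathlib.Tactic.Linarith.sub_nonpos_of_le x2.right) (Mathlib.Tactic.Linarith.sub_nonpos_of_le t1)]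
  · rcases le_abs.1 h with h | h
    · rw [v1 s (ρk.trans h), a3 s (ρk.trans h), z a5 s h]
    · rw [v2 s (by linarith), b3 _ (ρk.trans h), z b5 _ h]
  · rcases lt_abs.1 h with h | h
    · rw [e1 s (ρk.trans_lt h), a5 s h]
    · rw [e2 s (by linarith), b5 _ h, neg_zero]
  · rw [e3 s h, hd, abs_div, abs_of_pos (by linarith : 0 < 2 * rr n), mul_div_assoc',
      div_le_iff₀ (by linarith)]
    have : |f₁ (rr n) - f₂ (rr n)| ≤ 2 * M := abs_le.2 ⟨by linarith, by linarith⟩
    linarith only [ρ0, this, mul_nonneg_of_nonpos_of_nonpos (le_of_lt (Mathlib.Tactic.Linarith.sub_neg_of_lt ρ0)) (Mathlib.Tactic.Linarith.sub_nonpos_of_le this)]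
  · have k : rr n < |s| := (rr_anti j2).trans_lt s1
    rcases le_total 0 s with h | h
    · rw [abs_of_nonneg h] at k s1 s2
      rw [e1 s k, v1 s k.le, a6 j j1 j2 s s1 s2]
    · rw [abs_of_nonpos h] at k s1 s2
      have := b6 j j1 j2 (-s) s1 s2
      rw [neg_neg] at this
      rw [e2 s (by linarith only [k]), v2 s (by linarith only [k]), ← this]
      ring

lemma OD.abs_le {c : ℕ → ℝ} {C M : ℝ} {k n : ℕ} {H f φ : ℝ → ℝ} (h : OD c k n H M f φ)
    (hc : CS c C) (hM : ∀ s, |H s| ≤ M) (s : ℝ) :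
    |s| * |φ s| ≤ 2 * C * M ∧ rr n * |φ s| ≤ 2 * C * M := by
  have M0 : 0 ≤ M := (abs_nonneg _).trans (hM 0)
  have C1 := hc.one
  have MC : M ≤ 2 * C * M := by nlinarith
  rcases le_or_gt |s| (rr n) with h1 | h1
  · have k := (h.inn s h1).trans MC
    exact ⟨(mul_le_mul_of_nonneg_right h1 (abs_nonneg _)).trans k, k⟩
  rcases lt_or_ge (rr k) |s| with h2 | h2
  · rw [h.out' s h2, abs_zero, mul_zero, mul_zero]
    exact ⟨M0.trans MC, M0.trans MC⟩
  obtain ⟨j, j1, j2, j3, j4⟩ := exists_ann h1 h2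
  have c0 : 0 ≤ c j := le_trans (by positivity) (hc.lo j)
  have k : |s| * |φ s| ≤ 2 * C * M := by
    rw [mul_comm, ← abs_mul, h.ode j j1 j2 s j3 j4, abs_mul, abs_of_nonneg c0]
    refine (mul_le_mul (hc.hi j) ((abs_sub _ _).trans (add_le_add (h.bd s) (hM s)))
      (abs_nonneg _) (by linarith only [C1])).trans_eq ?_
    ring
  exact ⟨k, (mul_le_mul_of_nonneg_right h1.le (abs_nonneg _)).trans k⟩

lemma OD.ii {c : ℕ → ℝ} {M : ℝ} {k n : ℕ} {H f φ : ℝ → ℝ} (h : OD c k n H M f φ) (a x : ℝ) :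
    IntervalIntegrable φ volume a x := by
  obtain ⟨B, hB⟩ := h.bdd
  exact OdeR_ii h.meas hB a x

lemma OD.cont {c : ℕ → ℝ} {M : ℝ} {k n : ℕ} {H f φ : ℝ → ℝ} (h : OD c k n H M f φ) :
    Continuous f := by
  have e : f = fun x => f 0 + ∫ t in (0 : ℝ)..x, φ t := funext fun x => by
    rw [← h.prim, add_sub_cancel]
  rw [e]
  exact continuous_const.add (intervalIntegral.continuous_primitive h.ii 0)

end Pool.Agent.Work.MP_af796d_an.H
end

-- merged part: Pool.Agent.Work.MP_af796d_an.H.StepB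
section
/-!
# The identity star applied to the real solution
PLAN.  H' s = wg g (Φ (y+s)) e^{b (y+s)}, H x = H 0 + ∫_0^x H' (H_prim).  Apply star with γ = φ - H', Γ = f - H, ε = 0 and the constant 4 C M + 4 M
(OD.abs_le, OD.inn, primitive of φ is f x - f 0, OD.ode gives Γ s = φ s * s / c j).  Then
∫ φ (b + lg) = (star total) + ∫ φ (ℓ - LL n + LL k) + ∫ H' (LL n - LL k); the last is stepA.  On each side (β = sd b y σ, S = SS β, C' from st_os)
ℓ - LT β rn + LT β rk = sg (S r) + (log (S r) - LT β rn r) + LT β rk r: anti_pair with os_sg; os_A7 with |φ| ≤ 2 M/rn on (0, rn] (the bracket vanishes for r ≥ rn);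
φ = 0 beyond rk and LT β rk = log (S rk) on (0, rk], which gives log S1 rk * (0 - f 0) + log S2 rk * (f 0 - 0), at most A * 2 M by st_qs.
-/

set_option autoImplicit false

namespace Pool.Agent.Work.MP_af796d_an.H

open MeasureTheory Set Real Metric Filter Topology

lemma StepB_side (C : ℝ) : ∃ K : ℝ, 0 ≤ K ∧ ∀ β : ℝ → ℝ, OS β C →
    ∀ (ρ ρ' : ℝ) (φ : ℝ → ℝ) (M B : ℝ), 0 < ρ → ρ ≤ π → Measurable φ → (∀ r, |φ r| ≤ B) →
      (∀ x ∈ Icc 0 π, |∫ t in (0 : ℝ)..x, φ t| ≤ M) → (∀ r ∈ Ioc 0 ρ, ρ * |φ r| ≤ M) →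
      (∀ r, 0 < r → ρ' < r → φ r = 0) →
      IntervalIntegrable (fun r => φ r * (lg (SS β r) - (LT β ρ r - LT β ρ' r))) volume 0 π ∧
      |(∫ r in (0 : ℝ)..π, φ r * (lg (SS β r) - (LT β ρ r - LT β ρ' r))) -
        Real.log (SS β ρ') * ∫ r in (0 : ℝ)..π, φ r| ≤ K * M := by
  obtain ⟨A₁, p1, h1⟩ := os_sg C
  obtain ⟨A₂, p2, h2⟩ := os_A7 C
  refine ⟨5 * A₁ + A₂, by positivity, fun β hO ρ ρ' φ M B r0 r1 hφ hB m1 m2 m3 => ?_⟩
  have hπ := pi_pos
  have gi := OdeR_ii hφ hB 0 π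
  obtain ⟨a1, a2⟩ := anti_pair hπ.le gi m1 (h1 β hO).1 (h1 β hO).2 p1
  have c0 := (h2 β hO.ai π hπ le_rfl).1
  have c1 : IntervalIntegrable (fun r => φ r * (Real.log (SS β r) - LT β ρ r)) volume 0 π :=
    (Star1_mul hπ.le hφ (fun r _ => hB r)
      (c0.sub ((Star2_cont hO.ai r0).intervalIntegrable 0 π))).1
  have c2 : |∫ r in (0 : ℝ)..π, φ r * (Real.log (SS β r) - LT β ρ r)| ≤ A₂ * M := by
    have M0 : 0 ≤ M := (abs_nonneg _).trans (m1 0 ⟨le_rfl, hπ.le⟩)
    have z : ∫ r in ρ..π, φ r * (Real.log (SS β r) - LT β ρ r) = 0 := by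
      rw [Star2_congr (g := fun _ => 0) r1 fun r hr => by
        simp only [LT, max_eq_left hr.1.le, sub_self, mul_zero]]
      simp
    rw [← intervalIntegral.integral_add_adjacent_intervals (Star2_sub c1 le_rfl r0.le r1)
      (Star2_sub c1 r0.le r1 le_rfl), z, add_zero]
    obtain ⟨d1, d2⟩ := h2 β hO.ai ρ r0 r1
    rw [← Real.norm_eq_abs]
    refine (intervalIntegral.norm_integral_le_of_norm_le r0.le
      (g := fun r => M / ρ * |Real.log (SS β r) - Real.log (SS β ρ)|)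
      (Eventually.of_forall fun r hr => ?_)
      ((d1.sub intervalIntegrable_const).abs.const_mul _)).trans ?_
    · rw [Real.norm_eq_abs, abs_mul, LT, max_eq_right hr.2]
      refine mul_le_mul_of_nonneg_right ?_ (abs_nonneg _)
      rw [le_div_iff₀ r0, mul_comm]
      exact m2 r hr
    · rw [intervalIntegral.integral_const_mul]
      refine (mul_le_mul_of_nonneg_left d2 (by positivity)).trans_eq ?_
      field_simp
  have d1 : IntervalIntegrable (fun r => Real.log (SS β ρ') * φ r) volume 0 π := gi.const_mul _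
  have e : ∀ r ∈ Ioc 0 π, φ r * (lg (SS β r) - (LT β ρ r - LT β ρ' r)) = φ r * sg (SS β r) +
      φ r * (Real.log (SS β r) - LT β ρ r) + Real.log (SS β ρ') * φ r := by
    intro r hr
    rcases le_or_gt r ρ' with h | h
    · have : LT β ρ' r = Real.log (SS β ρ') := by rw [LT, max_eq_right h]
      rw [this]
      unfold sg
      ring
    · rw [m3 r hr.1 h]
      ring
  refine ⟨(intervalIntegrable_congr fun r hr => e r ?_).2 ((a1.add c1).add d1), ?_⟩
  · rwa [uIoc_of_le hπ.le] at hr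
  · rw [Star2_congr hπ.le e, intervalIntegral.integral_add (a1.add c1) d1,
      intervalIntegral.integral_add a1 c1, intervalIntegral.integral_const_mul]
    rw [abs_le] at a2 c2 ⊢
    constructor <;> linarith only [a2, c2]



theorem stepB (C : ℝ) : ∃ K : ℝ, 0 ≤ K ∧ ∀ (Φ b : ℝ → ℝ) (y : ℝ) (c : ℕ → ℝ) (g : ℂ → ℂ)
    (M a₀ : ℝ) (k n : ℕ) (f φ : ℝ → ℝ), St Φ b C → WSy b y c C →
    AnalyticOnNhd ℂ g (closedBall 0 1) → (∀ z : ℂ, ‖z‖ ≤ 1 → ‖g z‖ ≤ M) → k ≤ n →
    (∀ s, |(g (ex (Φ (y + s)))).re - a₀| ≤ 2 * M) →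
    OD c k n (fun s => (g (ex (Φ (y + s)))).re - a₀) (2 * M) f φ →
    |∫ s in (-π)..π, φ s * (b (y + s) + lg s)| ≤ K * M := by
  obtain ⟨C', -, h0⟩ := st_os C
  obtain ⟨K₁, p1, h1⟩ := star C
  obtain ⟨K₂, p2, h2⟩ := stepA C
  obtain ⟨K₃, p3, h3⟩ := StepB_side C'
  obtain ⟨A, p4, h4⟩ := st_qs C
  refine ⟨K₁ * (4 * |C| + 4) + K₂ + 8 * K₃ + 2 * A, by positivity, ?_⟩
  intro Φ b y c g M a₀ k n f φ hS hW hg hM hkn hH hO
  have hπ := pi_pos
  have M0 : 0 ≤ M := (norm_nonneg _).trans (hM 0 (by simp))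
  have hc : CS c C := by
    obtain ⟨_, _, w, -⟩ := hW
    exact w.cs
  have C1 := hc.one
  have CM : 0 ≤ C * M := by positivity
  obtain ⟨B, hB⟩ := hO.bdd
  have pb : ∀ x, |∫ t in (0 : ℝ)..x, φ t| ≤ 4 * M := fun x => by
    rw [← hO.prim]
    exact (abs_sub _ _).trans (by linarith only [hO, hO.bd x, hO.bd 0])
  have Hi : ∀ a x, IntervalIntegrable
      (fun s => wg g (Φ (y + s)) * Real.exp (b (y + s))) volume a x := fun a x => by
    have := (H_prim hS hg (y + a) (y + x)).1.comp_add_left y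
    simpa only [add_sub_cancel_left] using this
  have Hp : ∀ x, ∫ s in (0 : ℝ)..x, wg g (Φ (y + s)) * Real.exp (b (y + s)) =
      (g (ex (Φ (y + x)))).re - (g (ex (Φ (y + 0)))).re := fun x => by
    rw [(H_prim hS hg (y + 0) (y + x)).2,
      intervalIntegral.integral_comp_add_left (fun s => wg g (Φ s) * Real.exp (b s)) y]
  obtain ⟨a1, a2, a3⟩ := h1 Φ b y c hS hW k n φ
    (fun s => φ s - wg g (Φ (y + s)) * Real.exp (b (y + s)))
    (fun s => f s - ((g (ex (Φ (y + s)))).re - a₀)) (fun _ => 0) (4 * (C * M) + 4 * M) hkn hO.meas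
    (fun s _ => by linarith only [M0, hO, hc, hH, (hO.abs_le hc hH s).1])
    (fun s _ => by linarith only [M0, hO, hc, hH, (hO.abs_le hc hH s).2])
    (fun x _ => by linarith [pb x]) (fun s hs _ => hO.out' s hs)
    ((hO.ii _ _).sub (Hi _ _))
    (fun x _ => by
      rw [intervalIntegral.integral_sub (hO.ii _ _) (Hi _ _), Hp, ← hO.prim]
      ring)
    ((abs_sub _ _).trans (by linarith only [CM, hO, hH, hO.bd 0, hH 0]))
    (fun j j1 j2 s s1 s2 => by
      rw [hO.ode j j1 j2 s s1 s2, mul_div_cancel_left₀ _ (Star1_c hc j).1.ne', sub_self, abs_zero])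
  obtain ⟨b1, b2⟩ := h2 Φ b g M y k n hS hg hM hkn
  obtain ⟨c1, c2⟩ := h3 _ (h0 Φ b hS y).1 (rr n) (rr k) φ (4 * M) B (rr_pos n) (Star2_pi n)
    hO.meas hB (fun x _ => pb x)
    (fun r hr => by linarith [hO.inn r (by rw [abs_of_pos hr.1]; exact hr.2)])
    fun r r0 hr => hO.out' r (by rwa [abs_of_pos r0])
  obtain ⟨d1, d2⟩ := h3 _ (h0 Φ b hS y).2 (rr n) (rr k) (fun r => φ (-r)) (4 * M) B (rr_pos n)
    (Star2_pi n) (hO.meas.comp measurable_neg) (fun r => hB _)
    (fun x _ => by rw [Star2_neg, abs_neg]; exact pb _)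
    (fun r hr => by linarith [hO.inn (-r) (by rw [abs_neg, abs_of_pos hr.1]; exact hr.2)])
    fun r r0 hr => hO.out' (-r) (by rwa [abs_neg, abs_of_pos r0])
  obtain ⟨e1, e2⟩ := Star2_split
    (F := fun s => φ s * (lg (Φ (y + s) - Φ y) - (LL b y (rr n) s - LL b y (rr k) s))) c1 d1
    (fun r hr => by simp only [Star2_lg1 hS, Star2_LL1 b y _ hr.1])
    fun r hr => by simp only [Star2_lg2 hS, Star2_LL2 b y _ hr.1]
  have f1 : ∫ r in (0 : ℝ)..π, φ r = -f 0 := by
    rw [← hO.prim, hO.out π (by rw [abs_of_pos hπ]; exact Star2_pi k), zero_sub]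
  have f2 : ∫ r in (0 : ℝ)..π, φ (-r) = f 0 := by
    rw [Star2_neg, ← hO.prim, hO.out (-π) (by rw [abs_neg, abs_of_pos hπ]; exact Star2_pi k),
      zero_sub, neg_neg]
  have f3 : |(Real.log (SS (sd b y 1) (rr k)) - Real.log (SS (sd b y (-1)) (rr k))) * f 0| ≤
      A * (2 * M) := by
    rw [abs_mul]
    exact mul_le_mul (h4 Φ b hS y (rr k) (rr_pos k) (Star2_pi k)) (hO.bd 0) (abs_nonneg _) p4
  have e : (fun s => φ s * (b (y + s) + lg s)) = fun s =>
      φ s * (b (y + s) - lg (Φ (y + s) - Φ y) + lg s) +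
      (φ s - wg g (Φ (y + s)) * Real.exp (b (y + s))) * (LL b y (rr n) s - LL b y (rr k) s) +
      wg g (Φ (y + s)) * Real.exp (b (y + s)) * (LL b y (rr n) s - LL b y (rr k) s) +
      φ s * (lg (Φ (y + s) - Φ y) - (LL b y (rr n) s - LL b y (rr k) s)) := by
    funext s
    ring
  rw [e, intervalIntegral.integral_add ((a1.add a2).add b1) e1,
    intervalIntegral.integral_add (a1.add a2) b1, intervalIntegral.integral_add a1 a2, e2,
    abs_of_pos (by linarith : 0 < C)]
  rw [f1] at c2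
  rw [f2] at d2
  rw [Finset.sum_const_zero, add_zero] at a3
  rw [abs_le] at a3 b2 c2 d2 f3 ⊢
  constructor <;> linarith only [a3, b2, c2, d2, f3]

end Pool.Agent.Work.MP_af796d_an.H
end

-- merged part: Pool.Agent.Work.MP_af796d_an.H.StepC1
section
/-!
# The middle pieces
PLAN.  r = rr j.
* tent: θ ρ = cut r ρ - cut (r/2) ρ lies in [0, 1], is Lipschitz (constant 6/r is enough), vanishes for ρ ≤ r/4 and ρ ≥ r.  tent j s = θ |s| * ι s with ι s = s / max (s^2) (r^2/16), bounded by 4/r,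
  Lipschitz with constant 16/r^2.  So tent j is Lipschitz with constant 64/r^2; take tent' = deriv (tent j) (measurable_deriv, LipschitzWith.norm_deriv_le or norm_deriv_le_of_lipschitz;
  Lipschitz implies AC, integral_deriv_eq_sub; deriv vanishes on open sets where tent is 0).
* mid: χ = tent (f - H), χ' = χ1 - (tent' H + tent H'), χ1 = tent' f + tent φ (prim_mul), |χ1| ≤ (64 + 16 A) M/r^2 (|s| ≥ r/4 on the support), ∫ χ1 = 0, ∫ |χ| ≤ 16 M.
  D s = ∫_0^s (w (y+t) - gk ltan t - ek) = RM s + P0 near s - P0 (v (y + .)) 0 (lpi_shift), near = indicator of psi.  ibp on [-π, π]: the integral is - ∫ χ' D, and ∫ χ' = 0.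
  ∫ χ' RM lives on the two windows r/4 ≤ |s| ≤ r; on each use rm_lip, prim_of_lip, ibp (χ vanishes at the end points): total ≤ 16 (n1 + n2) * 16 M.
  ∫ χ' P0 near = ∫ near σ * ((1/π) ∫ lg (s - σ) χ' s ds) dσ by Fubini (|near| ≤ 2 C, ∫ |lg (s - σ)| dσ = L0, χ' integrable).  For σ in nr j: lip_conj for χ1 and pair_lemma with L = 64; psi_near.
-/

set_option autoImplicit false

namespace Pool.Agent.Work.MP_af796d_an.H

open MeasureTheory Set Real Metric Filter Topology

lemma StepC1_cut_lip {r : ℝ} (hr : 0 < r) (a b : ℝ) : |cut r a - cut r b| ≤ 2 / r * |a - b| := by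
  have e : (r - a) / (r / 2) - (r - b) / (r / 2) = -(2 / r) * (a - b) := by
    field_simp
    ring
  have h1 := abs_max_sub_max_le_max (0 : ℝ) (min 1 ((r - a) / (r / 2))) 0
    (min 1 ((r - b) / (r / 2)))
  have h2 := abs_min_sub_min_le_max (1 : ℝ) ((r - a) / (r / 2)) 1 ((r - b) / (r / 2))
  simp only [sub_self, abs_zero, abs_nonneg, max_eq_right] at h1 h2
  rw [e, abs_mul, abs_neg, abs_of_pos (by positivity : 0 < 2 / r)] at h2
  exact h1.trans h2

lemma StepC1_cut_mem (r a : ℝ) : 0 ≤ cut r a ∧ cut r a ≤ 1 :=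
  ⟨le_max_left _ _, max_le zero_le_one (min_le_left _ _)⟩

lemma StepC1_cut_one {r a : ℝ} (hr : 0 < r) (h : a ≤ r / 2) : cut r a = 1 := by
  have h1 : 1 ≤ (r - a) / (r / 2) := by
    rw [one_le_div (by positivity)]
    linarith only [h]
  rw [cut, min_eq_left h1, max_eq_right zero_le_one]

lemma StepC1_cut_zero {r a : ℝ} (hr : 0 < r) (h : r ≤ a) : cut r a = 0 :=
  max_eq_left ((min_le_right _ _).trans
    (div_nonpos_of_nonpos_of_nonneg (sub_nonpos.2 h) (by positivity)))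

/-- the numerator of the tent. -/
noncomputable def StepC1_th (r s : ℝ) : ℝ := cut r |s| - cut (r / 2) |s|

lemma StepC1_th_le (r s : ℝ) : |StepC1_th r s| ≤ 1 := by
  have h1 := StepC1_cut_mem r |s|
  have h2 := StepC1_cut_mem (r / 2) |s|
  rw [StepC1_th, abs_le]
  constructor <;> linarith only [h1, h2]

lemma StepC1_th_in {r s : ℝ} (hr : 0 < r) (h : |s| ≤ r / 4) : StepC1_th r s = 0 := by
  rw [StepC1_th, StepC1_cut_one hr (by linarith only [hr, h]), StepC1_cut_one (by positivity) (by linarith),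
    sub_self]

lemma StepC1_th_out {r s : ℝ} (hr : 0 < r) (h : r ≤ |s|) : StepC1_th r s = 0 := by
  rw [StepC1_th, StepC1_cut_zero hr h, StepC1_cut_zero (by positivity) (by linarith), sub_self]

lemma StepC1_th_lip {r : ℝ} (hr : 0 < r) (s t : ℝ) :
    |StepC1_th r s - StepC1_th r t| ≤ 6 / r * |s - t| := by
  have h1 := StepC1_cut_lip hr |s| |t|
  have h2 := StepC1_cut_lip (half_pos hr) |s| |t|
  have h3 := abs_abs_sub_abs_le_abs_sub s t
  have e : StepC1_th r s - StepC1_th r t =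
      (cut r |s| - cut r |t|) - (cut (r / 2) |s| - cut (r / 2) |t|) := by
    simp only [StepC1_th]
    ring
  have e2 : 2 / (r / 2) = 4 / r := by
    field_simp
    ring
  rw [e2] at h2
  rw [e]
  calc _ ≤ 2 / r * |(|s| - |t|)| + 4 / r * |(|s| - |t|)| := (abs_sub _ _).trans (add_le_add h1 h2)
    _ = 6 / r * |(|s| - |t|)| := by ring
    _ ≤ _ := mul_le_mul_of_nonneg_left h3 (by positivity)

lemma StepC1_inv {r s : ℝ} (hr : 0 < r) (h : r / 4 ≤ |s|) : |s⁻¹| ≤ 4 / r := by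
  rw [abs_inv, inv_le_comm₀ (by linarith) (by positivity), inv_div]
  exact h

lemma StepC1_lip1 {r s : ℝ} (hr : 0 < r) (h : r / 4 ≤ |s|) (t : ℝ) :
    |StepC1_th r s / s - StepC1_th r t / t| ≤ 64 / r ^ 2 * |s - t| := by
  have e : StepC1_th r s / s - StepC1_th r t / t =
      (StepC1_th r s - StepC1_th r t) * s⁻¹ + StepC1_th r t * (s⁻¹ - t⁻¹) := by ring
  have h1 : |(StepC1_th r s - StepC1_th r t) * s⁻¹| ≤ 6 / r * |s - t| * (4 / r) := by
    rw [abs_mul]
    exact mul_le_mul (StepC1_th_lip hr s t) (StepC1_inv hr h) (abs_nonneg _) (by positivity)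
  have h2 : |StepC1_th r t * (s⁻¹ - t⁻¹)| ≤ 1 * (|s - t| * (4 / r) * (4 / r)) := by
    rcases le_total |t| (r / 4) with ht | ht
    · rw [StepC1_th_in hr ht, zero_mul, abs_zero]
      positivity
    · have s0 : s ≠ 0 := abs_pos.1 (by linarith only [hr, h])
      have t0 : t ≠ 0 := abs_pos.1 (by linarith only [hr, ht])
      have e1 : s⁻¹ - t⁻¹ = -(s - t) * s⁻¹ * t⁻¹ := by
        field_simp
        ring
      rw [abs_mul, e1, abs_mul, abs_mul, abs_neg]
      exact mul_le_mul (StepC1_th_le r t) (mul_le_mul (mul_le_mul_of_nonneg_left (StepC1_inv hr h)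
        (abs_nonneg _)) (StepC1_inv hr ht) (abs_nonneg _) (by positivity)) (by positivity)
        zero_le_one
  rw [e]
  calc _ ≤ 6 / r * |s - t| * (4 / r) + 1 * (|s - t| * (4 / r) * (4 / r)) :=
        (abs_add_le _ _).trans (add_le_add h1 h2)
    _ = 40 / r ^ 2 * |s - t| := by ring
    _ ≤ _ := by gcongr; norm_num

lemma StepC1_lip {r : ℝ} (hr : 0 < r) (s t : ℝ) :
    |StepC1_th r s / s - StepC1_th r t / t| ≤ 64 / r ^ 2 * |s - t| := by
  rcases le_total (r / 4) |s| with hs | hs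
  · exact StepC1_lip1 hr hs t
  rcases le_total (r / 4) |t| with ht | ht
  · rw [abs_sub_comm, abs_sub_comm s]
    exact StepC1_lip1 hr ht s
  · rw [StepC1_th_in hr hs, StepC1_th_in hr ht, zero_div, zero_div, sub_self, abs_zero]
    positivity

lemma tent_prop (j : ℕ) : ∃ m' : ℝ → ℝ, Measurable m' ∧ (∀ s, |m' s| ≤ 64 / rr j ^ 2) ∧
    (∀ a c, tent j c - tent j a = ∫ t in a..c, m' t) ∧ (∀ s, |tent j s| ≤ 4 / rr j) ∧
    (∀ s, rr j ≤ |s| → tent j s = 0) ∧ (∀ s, |s| ≤ rr j / 4 → tent j s = 0) ∧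
    (∀ s, rr j < |s| → m' s = 0) ∧ (∀ s, |s| < rr j / 4 → m' s = 0) ∧ Continuous (tent j) := by
  have hr := rr_pos j
  have e : ∀ s, tent j s = StepC1_th (rr j) s / s := fun s => by rw [tent, rr_succ, StepC1_th]
  have hl : LipschitzWith ⟨64 / rr j ^ 2, by positivity⟩ (tent j) :=
    LipschitzWith.of_dist_le_mul fun s t => by
      rw [Real.dist_eq, Real.dist_eq, e, e]
      exact StepC1_lip hr s t
  have z1 : ∀ s, rr j ≤ |s| → tent j s = 0 := fun s hs => by rw [e, StepC1_th_out hr hs, zero_div]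
  have z2 : ∀ s, |s| ≤ rr j / 4 → tent j s = 0 := fun s hs => by
    rw [e, StepC1_th_in hr hs, zero_div]
  refine ⟨deriv (tent j), measurable_deriv _, fun s => norm_deriv_le_of_lipschitz hl,
    fun a c => (hl.lipschitzOnWith.absolutelyContinuousOnInterval.integral_deriv_eq_sub).symm,
    fun s => ?_, z1, z2, fun s hs => ?_, fun s hs => ?_, hl.continuous⟩
  · rcases le_total |s| (rr j / 4) with h | h
    · rw [z2 s h, abs_zero]
      positivity
    · rw [e, div_eq_mul_inv, abs_mul]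
      exact (mul_le_mul (StepC1_th_le _ _) (StepC1_inv hr h) (abs_nonneg _) zero_le_one).trans
        (one_mul _).le
  · have h : tent j =ᶠ[𝓝 s] fun _ => 0 :=
      (continuous_abs.continuousAt.eventually (lt_mem_nhds hs)).mono fun t ht => z1 t ht.le
    rw [h.deriv_eq, deriv_const]
  · have h : tent j =ᶠ[𝓝 s] fun _ => 0 :=
      (continuous_abs.continuousAt.eventually (gt_mem_nhds hs)).mono fun t ht => z2 t ht.le
    rw [h.deriv_eq, deriv_const]

lemma StepC1_z {F : ℝ → ℝ} {a b : ℝ} (hab : a ≤ b) (h : ∀ s ∈ Ioo a b, F s = 0) :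
    IntervalIntegrable F volume a b ∧ ∫ s in a..b, F s = 0 := by
  constructor
  · rw [intervalIntegrable_iff_integrableOn_Ioo_of_le hab]
    exact (integrableOn_zero (μ := volume) (s := Ioo a b)).congr_fun (fun s hs => (h s hs).symm)
      measurableSet_Ioo
  · rw [intervalIntegral.integral_of_le hab, integral_Ioc_eq_integral_Ioo]
    exact setIntegral_eq_zero_of_forall_eq_zero h

lemma StepC1_split {F : ℝ → ℝ} {r : ℝ} (hr : 0 < r) (hr1 : r ≤ 1) (h1 : ∀ s, r < |s| → F s = 0)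
    (h2 : ∀ s, |s| < r / 4 → F s = 0) (i1 : IntervalIntegrable F volume (-r) (-(r / 4)))
    (i2 : IntervalIntegrable F volume (r / 4) r) :
    ∫ s in (-π)..π, F s = (∫ s in (-r)..(-(r / 4)), F s) + ∫ s in (r / 4)..r, F s := by
  have hp := pi_gt_three
  obtain ⟨a1, a2⟩ := StepC1_z (F := F) (a := -π) (b := -r) (by linarith)
    fun s hs => h1 s (lt_abs.2 (Or.inr (by linarith [hs.2])))
  obtain ⟨b1, b2⟩ := StepC1_z (F := F) (a := -(r / 4)) (b := r / 4) (by linarith)
    fun s hs => h2 s (abs_lt.2 hs)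
  obtain ⟨c1, c2⟩ := StepC1_z (F := F) (a := r) (b := π) (by linarith)
    fun s hs => h1 s (lt_abs.2 (Or.inl hs.1))
  rw [← intervalIntegral.integral_add_adjacent_intervals (((a1.trans i1).trans b1).trans i2) c1,
    ← intervalIntegral.integral_add_adjacent_intervals ((a1.trans i1).trans b1) i2,
    ← intervalIntegral.integral_add_adjacent_intervals (a1.trans i1) b1,
    ← intervalIntegral.integral_add_adjacent_intervals a1 i1, a2, b2, c2]
  ring

lemma StepC1_win {χ χ' D g P R : ℝ → ℝ} {a b B L κ : ℝ} (hab : a ≤ b)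
    (i1 : IntervalIntegrable χ' volume a b) (p1 : ∀ x ∈ Icc a b, χ x = χ a + ∫ t in a..x, χ' t)
    (za : χ a = 0) (zb : χ b = 0) (hB : ∀ s, |χ s| ≤ B) (i2 : IntervalIntegrable g volume a b)
    (p2 : ∀ x ∈ Icc a b, D x = D a + ∫ t in a..x, g t) (hL : 0 ≤ L)
    (hR : ∀ x ∈ Icc a b, ∀ x' ∈ Icc a b, |R x - R x'| ≤ L * |x - x'|)
    (hP : ∀ x, P x = D x - R x + κ) :
    IntervalIntegrable (fun t => χ t * g t) volume a b ∧
      IntervalIntegrable (fun t => χ' t * P t) volume a b ∧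
      |(∫ t in a..b, χ t * g t) + ∫ t in a..b, χ' t * P t| ≤ B * L * (b - a) := by
  obtain ⟨ρ, m, hρ, p3⟩ := prim_of_lip hab hR hL
  have i3 := bdd_intervalIntegrable m hρ
  have p4 : ∀ x ∈ Icc a b, P x = P a + ∫ t in a..x, (g t - ρ t) := fun x hx => by
    have i4 : IntervalIntegrable g volume a x := i2.mono_set (by
      rw [uIcc_of_le hx.1, uIcc_of_le hab]
      exact Icc_subset_Icc le_rfl hx.2)
    rw [intervalIntegral.integral_sub i4 (i3 a x), hP, hP, p2 x hx, p3 x hx]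
    ring
  obtain ⟨-, j1, -⟩ := ibp hab i1 i2 p1 p2
  obtain ⟨j2, j3, e⟩ := ibp hab i1 (i2.sub (i3 a b)) p1 p4
  refine ⟨j1, j2, ?_⟩
  have e2 : (∫ t in a..b, χ t * g t) - ∫ t in a..b, χ t * (g t - ρ t) = ∫ t in a..b, χ t * ρ t := by
    rw [← intervalIntegral.integral_sub j1 j3]
    exact intervalIntegral.integral_congr fun t _ => by ring
  have h := intervalIntegral.norm_integral_le_of_norm_le_const (a := a) (b := b) (C := B * L)
    (f := fun t => χ t * ρ t) fun t _ => by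
      rw [Real.norm_eq_abs, abs_mul]
      exact mul_le_mul (hB t) (hρ t) (abs_nonneg _) ((abs_nonneg _).trans (hB t))
  rw [za, zb, zero_mul, zero_mul, sub_zero] at e
  rw [Real.norm_eq_abs, abs_of_nonneg (sub_nonneg.2 hab), ← e2] at h
  rwa [show (∫ t in a..b, χ' t * P t) = -∫ t in a..b, χ t * (g t - ρ t) by linarith,
    ← sub_eq_add_neg]

lemma StepC1_fub {χ ψ : ℝ → ℝ} {B : ℝ} (hχ : IntervalIntegrable χ volume (-π) π)
    (hψ : Measurable ψ) (hB : ∀ s, |ψ s| ≤ B) :
    ∫ s in (-π)..π, χ s * P0 ψ s =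
      ∫ σ in (-π)..π, ψ σ * ((1 / π) * ∫ s in (-π)..π, lg (s - σ) * χ s) := by
  have hp : -π ≤ π := by linarith [pi_pos]
  have hm : Measurable fun x : ℝ × ℝ => lg (x.1 - x.2) * ψ x.2 :=
    (measurable_lg.comp (measurable_fst.sub measurable_snd)).mul (hψ.comp measurable_snd)
  have h1 : AEStronglyMeasurable (fun x : ℝ × ℝ => χ x.1 * (lg (x.1 - x.2) * ψ x.2))
      ((volume.restrict (Ioc (-π) π)).prod (volume.restrict (Ioc (-π) π))) :=
    hχ.1.aestronglyMeasurable.comp_fst.mul hm.aestronglyMeasurable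
  have hi : Integrable (fun x : ℝ × ℝ => χ x.1 * (lg (x.1 - x.2) * ψ x.2))
      ((volume.restrict (Ioc (-π) π)).prod (volume.restrict (Ioc (-π) π))) := by
    rw [integrable_prod_iff h1]
    refine ⟨Eventually.of_forall fun s => (ML_lg s hψ hB).1.const_mul (χ s), ?_⟩
    refine Integrable.mono' (hχ.1.norm.mul_const (L0 * B)) h1.norm.integral_prod_right'
      (Eventually.of_forall fun s => ?_)
    rw [Real.norm_eq_abs, abs_of_nonneg (integral_nonneg fun _ => norm_nonneg _)]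
    simp only [norm_mul]
    rw [integral_const_mul]
    refine mul_le_mul_of_nonneg_left ?_ (norm_nonneg _)
    have e : L0 = ∫ σ in Ioc (-π) π, ‖lg (s - σ)‖ := by
      rw [← integral_abs_lg (-π) s, show -π + 2 * π = π by ring, intervalIntegral.integral_of_le hp]
      refine integral_congr_ae (Eventually.of_forall fun σ => ?_)
      simp only [Real.norm_eq_abs]
      rw [← lg_neg, neg_sub]
    rw [e, ← integral_mul_const]
    refine integral_mono_of_nonneg (Eventually.of_forall fun _ => by positivity)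
      ((ML_lg0 s (-π) π).1.norm.mul_const B) (Eventually.of_forall fun σ => ?_)
    exact mul_le_mul_of_nonneg_left (hB σ) (norm_nonneg _)
  have h := integral_integral_swap (f := fun s σ => χ s * (lg (s - σ) * ψ σ)) hi
  simp only [P0, intervalIntegral.integral_of_le hp]
  calc _ = ∫ s in Ioc (-π) π, (1 / π) * ∫ σ in Ioc (-π) π, χ s * (lg (s - σ) * ψ σ) := by
        refine integral_congr_ae (Eventually.of_forall fun s => ?_)
        simp only [integral_const_mul]
        ring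
    _ = ∫ σ in Ioc (-π) π, (1 / π) * ∫ s in Ioc (-π) π, χ s * (lg (s - σ) * ψ σ) := by
        rw [integral_const_mul, h, integral_const_mul]
    _ = _ := by
        refine integral_congr_ae (Eventually.of_forall fun σ => ?_)
        have e : ∀ s, χ s * (lg (s - σ) * ψ σ) = ψ σ * (lg (s - σ) * χ s) := fun s => by ring
        simp only [e, integral_const_mul]
        ring

lemma StepC1_prim {F f : ℝ → ℝ} (h : ∀ a c, F c - F a = ∫ t in a..c, f t) (a b : ℝ) :
    ∀ x ∈ Icc a b, F x = F a + ∫ t in a..x, f t := fun x _ => by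
  rw [← h]
  ring

lemma StepC1_cont {F f : ℝ → ℝ} (hf : ∀ a c, IntervalIntegrable f volume a c)
    (h : ∀ a c, F c - F a = ∫ t in a..c, f t) : Continuous F := by
  have e : F = fun x => F 0 + ∫ t in (0 : ℝ)..x, f t := funext fun x => by
    rw [← h]
    ring
  rw [e]
  exact continuous_const.add (intervalIntegral.continuous_primitive hf 0)

theorem mid : ∃ K : ℝ, 0 ≤ K ∧ ∀ (w v H H' f φ : ℝ → ℝ) (F : ℂ → ℂ) (C C' y M A : ℝ)
    (n₁ n₂ : ℕ → ℝ) (j : ℕ), (∀ a c, IntervalIntegrable w volume a c) → VU v C → LPI w v →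
    VD (sd v y 1) n₁ C' → VD (sd v y (-1)) n₂ C' → FH F H H' M → Measurable φ →
    (∃ B, ∀ s, |φ s| ≤ B) → (∀ a x, f x - f a = ∫ t in a..x, φ t) → (∀ s, |f s| ≤ M) → 0 ≤ A →
    (∀ s, |s| * |φ s| ≤ A * M) →
    |∫ s in (-π)..π, tent j s * (f s - H s) * (w (y + s) - gk v y j * ltan s - ek v y j)| ≤
      K * (1 + A) * M * (n₁ j + n₂ j) + K * JN v y F j := by
  obtain ⟨K₁, K1, h₁⟩ := lip_conj
  obtain ⟨K₂, K2, h₂⟩ := pair_lemma
  refine ⟨192 + 256 * K₁ + 256 * K₂, by positivity, ?_⟩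
  intro w v H H' f φ F C C' y M A n₁ n₂ j hw hv hl d₁ d₂ hF mφ ⟨B, hB⟩ pf hf hA hφ
  obtain ⟨m', mm, bm', pm, bm, z1, z2, z3, z4, cm⟩ := tent_prop j
  have hr := rr_pos j
  have hr1 := rr_le_one j
  have hp := pi_gt_three
  have hpp : -π ≤ π := by linarith
  have M0 : 0 ≤ M := (abs_nonneg _).trans (hf 0)
  have n0 : 0 ≤ n₁ j + n₂ j := add_nonneg (d₁.sm.nn j) (d₂.sm.nn j)
  set n := n₁ j + n₂ j with hn
  set r := rr j with hrr
  set m := tent j with hm
  have iφ := bdd_intervalIntegrable mφ hB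
  have im' := bdd_intervalIntegrable mm bm'
  have cf := StepC1_cont iφ pf
  have cH := StepC1_cont hF.ii hF.prim
  set ψ := (nr j).indicator (psi v y j) with hψ
  have mψ : Measurable ψ := (measurable_psi hv y j).indicator (measurableSet_nr j)
  have bψ : ∀ s, |ψ s| ≤ 2 * C := fun s => by
    have := abs_psi_le hv y j s
    by_cases h : s ∈ nr j
    · rwa [hψ, indicator_of_mem h]
    · rw [hψ, indicator_of_notMem h, abs_zero]
      exact (abs_nonneg _).trans this
  set g : ℝ → ℝ := fun s => w (y + s) - gk v y j * ltan s - ek v y j with hg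
  have ig : ∀ a c, IntervalIntegrable g volume a c := fun a c =>
    ((HubN_ii hw y a c).sub ((MS_ltan_ii a c).const_mul _)).sub intervalIntegrable_const
  set χ' : ℝ → ℝ := fun s => m' s * (f s - H s) + m s * (φ s - H' s) with hχ'
  have pG : ∀ a c, f c - H c - (f a - H a) = ∫ t in a..c, (φ t - H' t) := fun a c => by
    rw [intervalIntegral.integral_sub (iφ a c) (hF.ii a c), ← pf, ← hF.prim]
    ring
  have pχ := fun a b (hab : a ≤ b) => prim_mul (F := m) (G := fun s => f s - H s) hab (im' a b)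
    ((iφ a b).sub (hF.ii a b)) (StepC1_prim pm a b) (StepC1_prim pG a b)
  have bχ : ∀ s, |m s * (f s - H s)| ≤ 4 / r * (2 * M) := fun s => by
    rw [abs_mul]
    exact mul_le_mul (bm s) ((abs_sub _ _).trans (by linarith [hf s, hF.bd s])) (abs_nonneg _)
      (by positivity)
  have pD : ∀ a c, (∫ t in (0 : ℝ)..c, g t) - ∫ t in (0 : ℝ)..a, g t = ∫ t in a..c, g t :=
    fun a c => intervalIntegral.integral_interval_sub_left (ig 0 c) (ig 0 a)
  have hP : ∀ x, P0 ψ x = (∫ t in (0 : ℝ)..x, g t) - RM v y j x + P0 (fun σ => v (y + σ)) 0 :=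
    fun x => by
      rw [hg, intervalIntegral.integral_sub ((HubN_ii hw y 0 x).sub ((MS_ltan_ii 0 x).const_mul _))
        intervalIntegrable_const, intervalIntegral.integral_sub (HubN_ii hw y 0 x)
        ((MS_ltan_ii 0 x).const_mul _), intervalIntegral.integral_const_mul, lpi_shift hw hv hl, RM,
        intervalIntegral.integral_const, smul_eq_mul]
      ring
  have l1 : -r ≤ -(r / 4) := by linarith only [hr]
  have l2 : r / 4 ≤ r := by linarith
  obtain ⟨a1, a2, a3⟩ := StepC1_win (χ := fun s => m s * (f s - H s)) (χ' := χ')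
    (D := fun x => ∫ t in (0 : ℝ)..x, g t) l1 (pχ _ _ l1).1 (pχ _ _ l1).2
    (by rw [z1 _ (by rw [abs_neg, abs_of_pos hr]), zero_mul])
    (by rw [z2 _ (by rw [abs_neg, abs_of_pos (by positivity)]), zero_mul]) bχ (ig _ _)
    (StepC1_prim pD _ _) (by positivity : 0 ≤ 16 * n)
    (fun x hx x' hx' => rm_lip hv d₁ d₂ j (Or.inr ⟨hx, hx'⟩)) hP
  obtain ⟨b1, b2, b3⟩ := StepC1_win (χ := fun s => m s * (f s - H s)) (χ' := χ')
    (D := fun x => ∫ t in (0 : ℝ)..x, g t) l2 (pχ _ _ l2).1 (pχ _ _ l2).2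
    (by rw [z2 _ (by rw [abs_of_pos (by positivity)]), zero_mul])
    (by rw [z1 _ (by rw [abs_of_pos hr]), zero_mul]) bχ (ig _ _)
    (StepC1_prim pD _ _) (by positivity : 0 ≤ 16 * n)
    (fun x hx x' hx' => rm_lip hv d₁ d₂ j (Or.inl ⟨hx, hx'⟩)) hP
  have s1 := StepC1_split hr hr1 (fun s hs => by rw [z1 s hs.le, zero_mul, zero_mul])
    (fun s hs => by rw [z2 s hs.le, zero_mul, zero_mul]) a1 b1
  have s2 := StepC1_split hr hr1
    (fun s hs => by simp only [hχ', z1 s hs.le, z3 s hs, zero_mul, add_zero])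
    (fun s hs => by simp only [hχ', z2 s hs.le, z4 s hs, zero_mul, add_zero]) a2 b2
  have e1 : 4 / r * (2 * M) * (16 * n) * (-(r / 4) - -r) = 96 * (M * n) := by
    field_simp
    ring
  have e2 : 4 / r * (2 * M) * (16 * n) * (r - r / 4) = 96 * (M * n) := by
    field_simp
    ring
  rw [e1] at a3
  rw [e2] at b3
  have T1 : |(∫ s in (-π)..π, m s * (f s - H s) * g s) + ∫ s in (-π)..π, χ' s * P0 ψ s| ≤
      192 * (M * n) := by
    rw [s1, s2, add_add_add_comm]
    exact (abs_add_le _ _).trans (by linarith only [a3, b3])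
  have m1 : Measurable fun s => m' s * f s + m s * φ s :=
    (mm.mul cf.measurable).add (cm.measurable.mul mφ)
  have b1' : ∀ s, |m' s * f s + m s * φ s| ≤ (64 + 16 * A) * M / r ^ 2 := fun s => by
    have u1 : |m' s * f s| ≤ 64 / r ^ 2 * M := by
      rw [abs_mul]
      exact mul_le_mul (bm' s) (hf s) (abs_nonneg _) (by positivity)
    have u2 : |m s * φ s| ≤ 4 / r * (4 / r * (A * M)) := by
      rcases le_total |s| (r / 4) with h | h
      · rw [z2 s h, zero_mul, abs_zero]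
        positivity
      · rw [abs_mul]
        refine mul_le_mul (bm s) ?_ (abs_nonneg _) (by positivity)
        rw [div_mul_eq_mul_div, le_div_iff₀ hr]
        linarith only [hφ, h, hφ s, abs_nonneg (φ s), mul_nonneg_of_nonpos_of_nonpos (Mathlib.Tactic.Linarith.sub_nonpos_of_le h) (Mathlib.Tactic.Linarith.sub_nonpos_of_le (abs_nonneg (φ s)))]
    calc _ ≤ 64 / r ^ 2 * M + 4 / r * (4 / r * (A * M)) := (abs_add_le _ _).trans (add_le_add u1 u2)
      _ = _ := by ring
  have i0 : ∫ s in (-π)..π, (m' s * f s + m s * φ s) = 0 := by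
    have h := (prim_mul hpp (im' _ _) (iφ _ _) (StepC1_prim pm _ _) (StepC1_prim pf _ _)).2 π
      ⟨hpp, le_rfl⟩
    rw [z1 π (by rw [abs_of_pos pi_pos]; linarith only [hp, hr1]),
      z1 (-π) (by rw [abs_neg, abs_of_pos pi_pos]; linarith only [hp, hr1])] at h
    linarith only [h]
  set c₀ := (K₁ * (64 + 16 * A) + 64 * K₂) * M with hc₀
  have hQ : ∀ σ, |σ| ≤ 2 * r → |(1 / π) * ∫ s in (-π)..π, lg (s - σ) * χ' s| ≤
      c₀ / r + 64 / r * MK F σ j := fun σ hσ => by
    have q1 := h₁ _ r _ σ hr hr1 hσ m1 b1'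
      (fun s hs => by rw [z1 s hs.le, z3 s hs, zero_mul, zero_mul, add_zero]) i0
    have q2 := h₂ F H H' m m' M 64 σ j hF mm bm' pm
      (fun s => (bm s).trans (by gcongr; norm_num)) z1 z3 hσ
    have j1 := ML_mul (intervalIntegrable_lg_sub σ (-π) π) m1 b1'
    have j2 := ML_mul (B := 64 / r ^ 2 * M) (intervalIntegrable_lg_sub σ (-π) π)
      (mm.mul cH.measurable) fun s => by
        rw [Pi.mul_apply, abs_mul]
        exact mul_le_mul (bm' s) (hF.bd s) (abs_nonneg _) (by positivity)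
    have j3 := ML_mul (hF.iJ σ (-π) π) cm.measurable bm
    have j4 : IntervalIntegrable (fun s => lg (s - σ) * (m' s * H s + m s * H' s)) volume (-π) π :=
      (j2.add j3).congr fun s _ => by
        simp only [Pi.mul_apply]
        ring
    have e : ∫ s in (-π)..π, lg (s - σ) * χ' s =
        (∫ s in (-π)..π, lg (s - σ) * (m' s * f s + m s * φ s)) -
          ∫ s in (-π)..π, lg (s - σ) * (m' s * H s + m s * H' s) := by
      rw [← intervalIntegral.integral_sub j1 j4]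
      exact intervalIntegral.integral_congr fun s _ => by
        simp only [hχ']
        ring
    have q3 : |1 / π * ∫ s in (-π)..π, lg (s - σ) * (m' s * f s + m s * φ s)| ≤
        K₁ * ((64 + 16 * A) * M / r ^ 2) * r :=
      ML_pi (q1.trans (le_mul_of_one_le_left (by positivity) (by norm_num)))
    rw [e, mul_sub]
    refine (abs_sub _ _).trans ((add_le_add q3 q2).trans (le_of_eq ?_))
    rw [hc₀, ← hrr]
    field_simp
    ring
  have cM := continuous_MK hF.dc j
  have iψ : IntervalIntegrable (fun σ => |ψ σ|) volume (-π) π :=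
    (bdd_intervalIntegrable mψ bψ _ _).abs
  have iM := iψ.mul_continuousOn cM.continuousOn
  have T2 : |∫ s in (-π)..π, χ' s * P0 ψ s| ≤ c₀ * (4 * n) + 64 * JN v y F j := by
    rw [StepC1_fub (pχ _ _ hpp).1 mψ bψ]
    have h := intervalIntegral.norm_integral_le_of_norm_le (μ := volume) hpp
      (f := fun σ => ψ σ * ((1 / π) * ∫ s in (-π)..π, lg (s - σ) * χ' s))
      (Eventually.of_forall fun σ _ => ?_) ((iψ.const_mul (c₀ / r)).add (iM.const_mul (64 / r)))
    · rw [intervalIntegral.integral_add (iψ.const_mul _) (iM.const_mul _),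
        intervalIntegral.integral_const_mul, intervalIntegral.integral_const_mul] at h
      refine h.trans (add_le_add ?_ (le_of_eq ?_))
      · refine (mul_le_mul_of_nonneg_left (psi_near hv d₁ d₂ j) (by positivity)).trans
          (le_of_eq ?_)
        rw [← hrr, ← hn]
        field_simp
      · rw [JN, ← hrr, ← hψ]
        ring
    · rw [Real.norm_eq_abs, abs_mul]
      by_cases h : σ ∈ nr j
      · exact (mul_le_mul_of_nonneg_left (hQ σ h.2) (abs_nonneg _)).trans (le_of_eq (by ring))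
      · rw [hψ, indicator_of_notMem h]
        simp
  have J0 : 0 ≤ JN v y F j := div_nonneg (intervalIntegral.integral_nonneg hpp
    fun σ _ => mul_nonneg (abs_nonneg _) (MK_nonneg F σ j)) hr.le
  have T3 := abs_sub ((∫ s in (-π)..π, m s * (f s - H s) * g s) + ∫ s in (-π)..π, χ' s * P0 ψ s)
    (∫ s in (-π)..π, χ' s * P0 ψ s)
  rw [add_sub_cancel_right] at T3
  have Mn : 0 ≤ M * n := mul_nonneg M0 n0
  have AMn : 0 ≤ A * (M * n) := mul_nonneg hA Mn
  refine T3.trans ((add_le_add T1 T2).trans ?_)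
  rw [hc₀]
  linarith only [J0, AMn, K1, K2, mul_nonneg K1 AMn, mul_nonneg K2 AMn, mul_nonneg K1 J0, mul_nonneg K2 J0]

end Pool.Agent.Work.MP_af796d_an.H
end

-- merged part: Pool.Agent.Work.MP_af796d_an.H.StepC2
section
/-!
# The model function
PLAN.
* mdl_ann, mdl_inn, mdl_out: exactly one indicator is active (rr_anti).  measurable_mdl, and mdl is bounded on the line (finite sum; log is bounded on each annulus).
* mdl_int: φ = 0 for |s| > rr k.  Split [-rr k, rr k] into the inner interval and the annuli on both sides.  With β_j r = g j log r + e j and F j = f (rr j) - f (-rr j), ibp (prim_of_deriv for β_j) gives for the two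
  annuli together β_j (rr j) F j - β_j (rr (j+1)) F (j+1) - g j XA f j; the inner part is β_n (rr n) F n; F k = 0; telescope (induction on n for the algebraic identity); |F j| ≤ 2 M.
* ann_abs: |x| ≤ (1 + x^2)/2 and MS1.osc, N j ≤ C.
* inn_abs: I = [y - r, y + r], r = rr n, λ = log (mu b (y - r) (y + r)/(2 r)) - κ.  AI.abs_le and |u| ≤ C give ∫_I |w - λ| ≤ K1 r.  On [r/2, r]: (r/2) |λ - β*| ≤ ∫ |w - λ| + ∫ |w - β_n| + (r/2) C log 2, ann_abs.
-/

set_option autoImplicit false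

namespace Pool.Agent.Work.MP_af796d_an.H

open MeasureTheory Set Real Metric Filter Topology

lemma SD.mono {Φ b u v : ℝ → ℝ} {κ C C' : ℝ} (h : SD Φ b u v κ C) (hC : C ≤ C') :
    SD Φ b u v κ C' := by
  have i : ∀ V, VI V C → VI V C' := fun V k =>
    ⟨k.meas, fun r => (k.bd r).trans hC, k.ii, k.le.trans hC⟩
  have j : ∀ V, VU V C → VU V C' := fun V k =>
    ⟨k.meas, k.per, fun y => i _ (k.pos y), fun y => i _ (k.neg y)⟩
  exact ⟨h.st.mono hC, j _ h.vu, j _ h.vv, h.lp⟩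

lemma VD.mono {V : ℝ → ℝ} {n : ℕ → ℝ} {C C' : ℝ} (h : VD V n C) (hC : C ≤ C') : VD V n C' := by
  exact ⟨⟨h.sm.nn, fun n => (h.sm.sum n).trans hC⟩, h.ii, h.le, h.df⟩

lemma MS1.mono {β : ℝ → ℝ} {g e N : ℕ → ℝ} {C C' : ℝ} (h : MS1 β g e N C) (hC : C ≤ C') :
    MS1 β g e N C' := by
  exact ⟨fun k => (h.bd k).trans hC, fun n => (h.bv n).trans hC,
    ⟨h.sm.nn, fun n => (h.sm.sum n).trans hC⟩, h.ii, h.osc, fun n => (h.jmp n).trans hC⟩

lemma mdl_ann (g e : ℕ → ℝ) {k n j : ℕ} (h1 : k ≤ j) (h2 : j < n) {s : ℝ} (h3 : rr (j + 1) < |s|)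
    (h4 : |s| ≤ rr j) : mdl g e k n s = g j * Real.log s + e j := by
  rw [mdl, Finset.sum_eq_single_of_mem j (Finset.mem_Ico.2 ⟨h1, h2⟩),
    indicator_of_mem (show |s| ∈ Ioc _ _ from ⟨h3, h4⟩), indicator_of_notMem, add_zero, log_abs]
  · exact not_le.2 ((rr_anti h2).trans_lt h3)
  refine fun i _ hi => indicator_of_notMem (fun q => ?_) _
  rcases lt_or_gt_of_ne hi with l | l
  · exact (q.1.trans_le h4).not_ge (rr_anti l)
  · exact (h3.trans_le q.2).not_ge (rr_anti l)

lemma mdl_inn (g e : ℕ → ℝ) (k : ℕ) {n : ℕ} {s : ℝ} (h : |s| ≤ rr n) :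
    mdl g e k n s = g n * Real.log (rr n) + e n := by
  rw [mdl, Finset.sum_eq_zero, indicator_of_mem (show |s| ∈ Iic _ from h), zero_add]
  exact fun j hj => indicator_of_notMem
    (fun q => (q.1.trans_le h).not_ge (rr_anti (Finset.mem_Ico.1 hj).2)) _

lemma measurable_mdl (g e : ℕ → ℝ) (k n : ℕ) : Measurable (mdl g e k n) := by
  refine (Finset.measurable_sum _ fun j _ => ?_).add
    ((measurable_const.indicator measurableSet_Iic).comp continuous_abs.measurable)
  exact (((measurable_log.const_mul _).add_const _).indicator measurableSet_Ioc).comp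
    continuous_abs.measurable

lemma bdd_mdl (g e : ℕ → ℝ) (k n : ℕ) : ∃ B, ∀ s, |mdl g e k n s| ≤ B := by
  refine ⟨(∑ j ∈ Finset.Ico k n, (|g j| * |Real.log (rr (j + 1))| + |e j|)) +
    |g n * Real.log (rr n) + e n|, fun s => (abs_add_le _ _).trans (add_le_add
      ((Finset.abs_sum_le_sum_abs _ _).trans (Finset.sum_le_sum fun j _ => ?_)) ?_)⟩
  · by_cases q : |s| ∈ Ioc (rr (j + 1)) (rr j)
    · rw [indicator_of_mem q]
      refine (abs_add_le _ _).trans (add_le_add ?_ le_rfl)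
      have a := Real.log_le_log (rr_pos _) q.1.le
      have b := Real.log_nonpos (abs_nonneg s) (q.2.trans (rr_le_one j))
      rw [abs_mul, abs_of_nonpos b, abs_of_nonpos (a.trans b)]
      gcongr
    · rw [indicator_of_notMem q, abs_zero]
      positivity
  · exact norm_indicator_le_norm_self (f := fun _ : ℝ => g n * Real.log (rr n) + e n) (a := |s|)

theorem mdl_int {c : ℕ → ℝ} {M : ℝ} {k n : ℕ} {H f φ : ℝ → ℝ} (h : OD c k n H M f φ) (hkn : k ≤ n)
    (g e : ℕ → ℝ) :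
    |(∫ s in (-π)..π, φ s * mdl g e k n s) + ∑ j ∈ Finset.Ico k n, g j * XA f j| ≤
      2 * M * ∑ j ∈ Finset.Ico k n,
        |(g j - g (j + 1)) * Real.log (rr (j + 1)) + (e j - e (j + 1))| := by
  obtain ⟨B, hB⟩ := bdd_mdl g e k n
  have im : ∀ ψ : ℝ → ℝ, (∀ a x, IntervalIntegrable ψ volume a x) → ∀ a x,
      IntervalIntegrable (fun s => ψ s * mdl g e k n s) volume a x := fun ψ i a x =>
    ⟨(i a x).1.mul_bdd (measurable_mdl g e k n).aestronglyMeasurable (.of_forall hB),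
      (i a x).2.mul_bdd (measurable_mdl g e k n).aestronglyMeasurable (.of_forall hB)⟩
  have i1 : ∀ a x, IntervalIntegrable (fun s => φ (-s)) volume a x := fun a x => by
    simpa using (IntervalIntegrable.iff_comp_neg (f := φ)).1 (h.ii (-a) (-x))
  obtain ⟨ψ, hψ⟩ : ∃ ψ : ℝ → ℝ, ψ = fun r => φ r + φ (-r) := ⟨_, rfl⟩
  obtain ⟨F, hF⟩ : ∃ F : ℝ → ℝ, F = fun r => f r - f (-r) := ⟨_, rfl⟩
  have i2 : ∀ a x, IntervalIntegrable ψ volume a x := fun a x => hψ ▸ (h.ii a x).add (i1 a x)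
  have pF : ∀ a x, F x = F a + ∫ t in a..x, ψ t := fun a x => by
    simp only [hψ, hF]
    rw [intervalIntegral.integral_add (h.ii a x) (i1 a x), intervalIntegral.integral_comp_neg,
      ← h.prim, ← h.prim]
    ring
  have e0 : ∫ s in (-π)..π, φ s * mdl g e k n s = ∫ s in (0 : ℝ)..π, ψ s * mdl g e k n s := by
    have q := intervalIntegral.integral_comp_neg (a := 0) (b := π) fun s => φ s * mdl g e k n s
    have q2 : ∀ s, mdl g e k n (-s) = mdl g e k n s := fun s => by simp only [mdl, abs_neg]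
    simp only [neg_zero, q2] at q
    rw [← intervalIntegral.integral_add_adjacent_intervals (im _ h.ii (-π) 0) (im _ h.ii 0 π), ← q,
      ← intervalIntegral.integral_add (im _ i1 _ _) (im _ h.ii _ _), hψ]
    congr 1
    ext s
    ring
  have key : ∀ m, k ≤ m → m ≤ n → (∫ s in (rr m)..π, ψ s * mdl g e k n s) +
      ∑ j ∈ Finset.Ico k m, g j * XA f j = -∑ j ∈ Finset.Ico k m,
        ((g j - g (j + 1)) * Real.log (rr (j + 1)) + (e j - e (j + 1))) * F (rr (j + 1)) -
          (g m * Real.log (rr m) + e m) * F (rr m) := fun m hm => by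
    induction m, hm using Nat.le_induction with
    | base =>
      intro _
      have := rr_pos k
      rw [intervalIntegral.integral_congr_Ioo_of_le (g := fun _ => 0)
        (by linarith only [rr_le_one k, pi_gt_three]) fun s hs => by
          have q : rr k < |s| := hs.1.trans_le (le_abs_self s)
          simp only [hψ, h.out' s q, h.out' (-s) (by rwa [abs_neg]), add_zero, zero_mul]]
      simp [hF, h.out (rr k) (le_abs_self _), h.out (-rr k) (by rw [abs_neg]; exact le_abs_self _)]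
    | succ m hm ih =>
      intro hn
      have p := rr_pos (m + 1)
      have l := rr_succ_le m
      obtain ⟨d1, d2⟩ := prim_of_deriv (F := fun r => g m * Real.log r + e m)
        (f := fun r => g m * r⁻¹) l (fun x hx =>
          ((Real.hasDerivAt_log (p.trans_le hx.1).ne').const_mul _).add_const _)
        (continuousOn_const.mul (continuousOn_inv₀.mono fun x hx => (p.trans_le hx.1).ne'))
      have q := (ibp l (i2 _ _) d1 (fun x _ => pF _ x) d2).2.2
      have q1 : ∫ t in (rr (m + 1))..(rr m), F t * (g m * t⁻¹) = g m * XA f m := by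
        rw [XA, ← intervalIntegral.integral_const_mul, hF]
        congr 1
        ext t
        ring
      have q2 : ∫ s in (rr (m + 1))..(rr m), ψ s * mdl g e k n s =
          ∫ s in (rr (m + 1))..(rr m), ψ s * (g m * Real.log s + e m) :=
        intervalIntegral.integral_congr_Ioo_of_le l fun s hs => by
          have a := abs_of_pos (p.trans hs.1)
          simp only [mdl_ann g e hm hn (a.symm ▸ hs.1) (a.symm ▸ hs.2.le)]
      rw [← intervalIntegral.integral_add_adjacent_intervals (im _ i2 _ (rr m)) (im _ i2 _ _),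
        Finset.sum_Ico_succ_top hm, Finset.sum_Ico_succ_top hm, q2]
      linear_combination ih (Nat.le_of_succ_le hn) + q - q1
  have q3 : ∫ s in (0 : ℝ)..(rr n), ψ s * mdl g e k n s =
      (g n * Real.log (rr n) + e n) * F (rr n) := by
    rw [intervalIntegral.integral_congr_Ioo_of_le (g := fun s => (g n * Real.log (rr n) + e n) * ψ s)
      (rr_pos n).le fun s hs => by
        simp only [mdl_inn g e k ((abs_of_pos hs.1).trans_le hs.2.le), mul_comm],
      intervalIntegral.integral_const_mul, pF 0]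
    simp [hF]
  rw [e0, ← intervalIntegral.integral_add_adjacent_intervals (im _ i2 _ (rr n)) (im _ i2 _ _),
    add_assoc, key n hkn le_rfl, q3, add_sub_cancel, abs_neg, Finset.mul_sum]
  refine (Finset.abs_sum_le_sum_abs _ _).trans (Finset.sum_le_sum fun j _ => ?_)
  rw [abs_mul, mul_comm]
  refine mul_le_mul_of_nonneg_right ?_ (abs_nonneg _)
  simp only [hF]
  exact (abs_sub _ _).trans (by linarith only [h, h.bd (rr (j + 1)), h.bd (-rr (j + 1))])

lemma ann_abs {β : ℝ → ℝ} {g e N : ℕ → ℝ} {C : ℝ} (h : MS1 β g e N C) (hβ : Measurable β) (j : ℕ) :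
    IntervalIntegrable (fun r => |β r - g j * Real.log r - e j|) volume (rr (j + 2)) (rr j) ∧
      ∫ r in (rr (j + 2))..(rr j), |β r - g j * Real.log r - e j| ≤ (1 + C) * rr j := by
  have l : rr (j + 2) ≤ rr j := rr_anti (Nat.le_add_right j 2)
  obtain ⟨a1, a2⟩ := AI3_dom (f := fun r => β r - g j * Real.log r - e j) l
    ((hβ.sub (measurable_log.const_mul _)).sub_const _) (intervalIntegrable_const (c := 1).add (h.ii j))
    fun r _ => by linarith only [sq_abs (β r - g j * Real.log r - e j), sq_nonneg (|β r - g j * Real.log r - e j| - 1), sq_nonneg (|β r - g j * log r - e j| - (1 : ℝ)), sq_nonneg (β r - g j * log r - e j)]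
  refine ⟨a1.abs, a2.trans ?_⟩
  have b : N j ≤ C := (Finset.single_le_sum (fun i _ => h.sm.nn i)
    (Finset.self_mem_range_succ j)).trans (h.sm.sum _)
  rw [intervalIntegral.integral_add intervalIntegrable_const (h.ii j), intervalIntegral.integral_const,
    smul_eq_mul]
  linarith only [h, b, h.osc j, rr_pos j, rr_pos (j + 2), mul_nonneg_of_nonpos_of_nonpos (Mathlib.Tactic.Linarith.sub_nonpos_of_le b) (le_of_lt (Mathlib.Tactic.Linarith.sub_neg_of_lt (rr_pos j)))]

theorem inn_abs (C : ℝ) : ∃ K : ℝ, 0 ≤ K ∧ ∀ (Φ b u v : ℝ → ℝ) (κ y : ℝ) (g e N : ℕ → ℝ) (n : ℕ),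
    SD Φ b u v κ C → MS1 (sd (fun t => b t - u t - κ) y 1) g e N C →
    ∫ s in (-rr n)..(rr n), |b (y + s) - u (y + s) - κ - (g n * Real.log (rr n) + e n)| ≤
      K * rr n := by
  obtain ⟨K1, hK⟩ : ∃ K1, K1 = 2 * (2 + Real.log C) + 2 * C := ⟨_, rfl⟩
  refine ⟨|K1 + 2 * (4 / 3 * (K1 + 1 + C) + 3 * C)|, abs_nonneg _,
    fun Φ b u v κ y g e N n h m => ?_⟩
  have ai := h.st.ai
  have hu : ∀ t, |u t| ≤ C := fun t => by simpa [sd] using (h.vu.pos 0).bd t
  have p := rr_pos n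
  have e2 : rr (n + 2) = rr n / 4 := by rw [rr_succ, rr_succ]; ring
  obtain ⟨a1, a2⟩ := ann_abs m (((ai.meas.sub h.vu.meas).sub_const κ).comp
    (by fun_prop : Measurable fun r : ℝ => y + 1 * r)) n
  simp only [sd, one_mul, e2] at a1 a2
  have a3 := ai.abs_le (a := y + -rr n) (c := y + rr n) (by linarith only [p])
    (by linarith only [rr_le_one n, pi_gt_three])
  rw [← intervalIntegral.integral_comp_add_left
    (fun t => |b t - Real.log (mu b (y + -rr n) (y + rr n) / (y + rr n - (y + -rr n)))|)] at a3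
  generalize Real.log (mu b _ _ / _) = L at a3
  generalize rr n = r at *
  have ib : ∀ a c, IntervalIntegrable (fun s => |b (y + s) - L|) volume a c := fun a c => by
    have := (ai.ii (y + a) (y + c)).comp_add_left y
    simp only [add_sub_cancel_left] at this
    exact (this.sub intervalIntegrable_const).abs
  have mw : ∀ c, Measurable fun s => b (y + s) - u (y + s) - κ - c := fun c =>
    ((((ai.meas.sub h.vu.meas).sub_const κ).sub_const c).comp (measurable_const_add y))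
  obtain ⟨β, hβ⟩ : ∃ β, β = g n * Real.log r + e n := ⟨_, rfl⟩
  have C0 : 0 ≤ C := (abs_nonneg _).trans (hu 0)
  have c1 : 3 / 4 * r * |L - κ - β| ≤ (K1 + 1 + C) * r + 3 / 4 * r * (3 * C) := by
    have i := (ib (r / 4) r).add (a1.add (intervalIntegrable_const (c := 4 * C)))
    have q := intervalIntegral.integral_mono_on (by linarith only [p]) (intervalIntegrable_const
      (c := |L - κ - β|)) i fun s hs => by
        have s0 : 0 < s := by linarith only [p, hs, hs.1]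
        have l1 := Real.log_le_log s0 hs.2
        have l2 := Real.log_le_sub_one_of_pos (div_pos p s0)
        have l3 : r / s ≤ 4 := by rw [div_le_iff₀ s0]; linarith only [hs, hs.1]
        rw [Real.log_div p.ne' s0.ne'] at l2
        have l4 : |g n * (Real.log r - Real.log s)| ≤ C * 3 := by
          rw [abs_mul, abs_of_nonneg (sub_nonneg.2 l1)]
          exact mul_le_mul (m.bd n) (by linarith only [l2, l3]) (sub_nonneg.2 l1) C0
        have := abs_le.1 l4
        have := abs_le.1 (hu (y + s))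
        have := le_abs_self (b (y + s) - L)
        have := neg_abs_le (b (y + s) - L)
        have := le_abs_self (b (y + s) - u (y + s) - κ - g n * Real.log s - e n)
        have := neg_abs_le (b (y + s) - u (y + s) - κ - g n * Real.log s - e n)
        rw [hβ, abs_le]
        constructor <;> linarith
    have q' := intervalIntegral.integral_mono_interval (c := -r) (a := r / 4) (by linarith only [p])
      (by linarith only [p]) le_rfl (.of_forall fun _ => abs_nonneg _) (ib (-r) r)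
    rw [intervalIntegral.integral_add (ib _ _) (a1.add intervalIntegrable_const),
      intervalIntegral.integral_add a1 intervalIntegrable_const] at q
    simp only [intervalIntegral.integral_const, smul_eq_mul] at q
    linarith only [a2, a3, q', q, C0, p, hK, mul_nonneg C0 p.le, Mathlib.Tactic.Linarith.zero_mul_eq (sub_eq_zero_of_eq hK) (Mathlib.Tactic.Linarith.sub_neg_of_lt p)]
  have c2 : |L - κ - β| ≤ 4 / 3 * (K1 + 1 + C) + 3 * C := by
    refine le_of_mul_le_mul_left ?_ (by positivity : 0 < 3 / 4 * r)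
    linarith only [c1]
  rw [← hβ]
  refine (AI3_dom (by linarith only [p]) (mw β) ((ib _ _).add (intervalIntegrable_const
    (c := C + |L - κ - β|))) fun s _ => ?_).2.trans ?_
  · have := abs_le.1 (hu (y + s))
    have := le_abs_self (b (y + s) - L)
    have := neg_abs_le (b (y + s) - L)
    have := le_abs_self (L - κ - β)
    have := neg_abs_le (L - κ - β)
    rw [abs_le]
    constructor <;> linarith
  rw [intervalIntegral.integral_add (ib _ _) intervalIntegrable_const, intervalIntegral.integral_const,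
    smul_eq_mul]
  refine le_trans ?_ (mul_le_mul_of_nonneg_right (le_abs_self _) p.le)
  linarith only [a3, c1, hK, p, Mathlib.Tactic.Linarith.zero_mul_eq (sub_eq_zero_of_eq hK) (Mathlib.Tactic.Linarith.sub_neg_of_lt p)]

end Pool.Agent.Work.MP_af796d_an.H
end

-- merged part: Pool.Agent.Work.MP_af796d_an.H.StepC3
section
/-!
# The pairing with the conjugate function
PLAN.  W s = w (y + s), g = gk v y, e j = ek v y j - g j log 2, β = mdl g e k n, Z = φ (W - β) (integrable: φ, β bounded).  ∫ φ W = ∫ φ β + ∫ Z, mdl_int with MS1.jmp.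
Pointwise 1 = (1 - cut (rr k) |s|) + sum_{j in Ico k n} θ_j s + cut (rr n) |s| with θ_j s = cut (rr j) |s| - cut (rr (j+1)) |s| (telescoping), 0 ≤ all pieces ≤ 1, θ_j s = tent j s * s.
Crude bound: let E be the union of {|s| ≤ rr n}, the annulus n - 1 and the annulus k (when k < n).  ∫_E |Z| ≤ K M by OD.abs_le (rr n |φ| ≤ 2 C M everywhere, |φ| ≤ 4 C M/rr j on the annulus j), inn_abs, ann_abs, mdl_ann, mdl_inn.
The pieces (1 - cut rk) Z, cut rn Z and θ_{n-1} Z are supported in E (φ = 0 beyond rr k).  For k ≤ j, j + 1 < n, with βh s = g j ltan s + ek j: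
θ_j Z - c j tent j (f - H)(W - βh) equals c j tent (f - H)(βh - β_j) on the annulus j, and (c (j+1) - c j) tent (f - H)(W - β_{j+1}) + c j tent (f - H)(βh - β_{j+1}) on the annulus j + 1 (OD.ode), 0 elsewhere.
|tent (f - H)| ≤ 8 M/rr j, |βh - β_j| ≤ 2 C rr j (abs_sg_le, abs_lg_pi), |β_j - β_{j+1}| ≤ jump j + |g (j+1) - g j| on the annulus j + 1.  Then mid with A = 2 C; sum with CS.bv, MS1.bv, MS1.jmp, SM.sum, sum rr j ≤ 2; JN ≥ 0.
-/

set_option autoImplicit false

namespace Pool.Agent.Work.MP_af796d_an.H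

open MeasureTheory Set Real Metric Filter Topology

lemma JN_nonneg (v : ℝ → ℝ) (y : ℝ) (F : ℂ → ℂ) (j : ℕ) : 0 ≤ JN v y F j :=
  div_nonneg (intervalIntegral.integral_nonneg (by linarith [pi_pos])
    fun _ _ => mul_nonneg (abs_nonneg _) (abs_nonneg _)) (rr_pos j).le

/-- Nonnegative majorants with integral at most `A`. -/
def StepC3_B (U : ℝ → ℝ) (A : ℝ) : Prop :=
  IntervalIntegrable U volume (-π) π ∧ (∀ s, 0 ≤ U s) ∧ ∫ s in (-π)..π, U s ≤ A

lemma StepC3_add {U V : ℝ → ℝ} {A B : ℝ} (h : StepC3_B U A) (h' : StepC3_B V B) :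
    StepC3_B (fun s => U s + V s) (A + B) :=
  ⟨h.1.add h'.1, fun s => add_nonneg (h.2.1 s) (h'.2.1 s),
    (intervalIntegral.integral_add h.1 h'.1).trans_le (add_le_add h.2.2 h'.2.2)⟩

lemma StepC3_mul {U : ℝ → ℝ} {A a : ℝ} (ha : 0 ≤ a) (h : StepC3_B U A) :
    StepC3_B (fun s => a * U s) (a * A) :=
  ⟨h.1.const_mul a, fun s => mul_nonneg ha (h.2.1 s),
    (intervalIntegral.integral_const_mul _ _).trans_le (mul_le_mul_of_nonneg_left h.2.2 ha)⟩

lemma StepC3_sum {U : ℕ → ℝ → ℝ} {A : ℕ → ℝ} (t : Finset ℕ) (h : ∀ j, StepC3_B (U j) (A j)) :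
    StepC3_B (fun s => ∑ j ∈ t, U j s) (∑ j ∈ t, A j) := by
  induction t using Finset.induction_on with
  | empty => exact ⟨by simp, fun _ => by simp, by simp⟩
  | insert i t hi ih =>
    simp only [Finset.sum_insert hi]
    exact StepC3_add (h i) ih

lemma StepC3_ind {G : ℝ → ℝ} {a b A : ℝ} (hab : a ≤ b) (hG : IntervalIntegrable G volume a b)
    (h0 : ∀ s, 0 ≤ G s) (hA : ∫ s in a..b, G s ≤ A) :
    ∃ U, StepC3_B U A ∧ ∀ s ∈ Icc a b, G s ≤ U s := by
  have i : Integrable ((Icc a b).indicator G) :=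
    ((intervalIntegrable_iff_integrableOn_Icc_of_le hab).1 hG).integrable_indicator measurableSet_Icc
  have n : ∀ s, 0 ≤ (Icc a b).indicator G s := fun s => indicator_nonneg (fun t _ => h0 t) s
  refine ⟨_, ⟨i.intervalIntegrable, n, le_trans ?_ hA⟩, fun s hs => (indicator_of_mem hs G).ge⟩
  rw [intervalIntegral.integral_of_le (by linarith [pi_pos]), intervalIntegral.integral_of_le hab,
    ← integral_Icc_eq_integral_Ioc (x := a), ← integral_indicator (s := Icc a b) measurableSet_Icc]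
  exact setIntegral_le_integral i (.of_forall n)

lemma StepC3_ann {w : ℝ → ℝ} {g e N : ℕ → ℝ} {C y : ℝ} (hw : Measurable w)
    (h₁ : MS1 (sd w y 1) g e N C) (h₂ : MS1 (sd w y (-1)) g e N C) (j : ℕ) :
    ∃ U, StepC3_B U (2 * (1 + C) * rr j) ∧ ∀ s, rr (j + 2) ≤ |s| → |s| ≤ rr j →
      |w (y + s) - (g j * Real.log s + e j)| ≤ U s := by
  have r : rr (j + 2) ≤ rr j := rr_anti (by omega)
  obtain ⟨a1, a2⟩ := ann_abs h₁ (hw.comp (by fun_prop)) j
  obtain ⟨b1, b2⟩ := ann_abs h₂ (hw.comp (by fun_prop)) j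
  obtain ⟨U, u1, u2⟩ := StepC3_ind r a1 (fun _ => abs_nonneg _) a2
  obtain ⟨V, v1, v2⟩ := StepC3_ind (A := (1 + C) * rr j) (neg_le_neg r)
    ((IntervalIntegrable.iff_comp_neg enorm_ne_top).1 b1).symm (fun _ => abs_nonneg _) (by
      rw [intervalIntegral.integral_comp_neg
        fun r => |sd w y (-1) r - g j * Real.log r - e j|, neg_neg, neg_neg]
      exact b2)
  refine ⟨fun s => U s + V s, by rw [mul_assoc, two_mul]; exact StepC3_add u1 v1, fun s s1 s2 => ?_⟩
  rw [← sub_sub]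
  rcases le_total 0 s with k | k
  · rw [abs_of_nonneg k] at s1 s2
    have := u2 s ⟨s1, s2⟩
    rw [sd, one_mul] at this
    exact this.trans (le_add_of_nonneg_right (v1.2.1 s))
  · rw [abs_of_nonpos k] at s1 s2
    have := v2 s ⟨by linarith, by linarith⟩
    simp only [sd, neg_mul, one_mul, neg_neg, Real.log_neg_eq_log] at this
    exact this.trans (le_add_of_nonneg_left (u1.2.1 s))

lemma StepC3_cut (r ρ : ℝ) : 0 ≤ cut r ρ ∧ cut r ρ ≤ 1 :=
  ⟨le_max_left _ _, max_le zero_le_one (min_le_left _ _)⟩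

lemma StepC3_cut1 {r ρ : ℝ} (hr : 0 < r) (h : ρ ≤ r / 2) : cut r ρ = 1 := by
  rw [cut, min_eq_left ((one_le_div (half_pos hr)).2 (by linarith only [h])), max_eq_right zero_le_one]

lemma StepC3_cut0 {r ρ : ℝ} (hr : 0 < r) (h : r ≤ ρ) : cut r ρ = 0 :=
  max_eq_left ((min_le_right _ _).trans
    (div_nonpos_of_nonpos_of_nonneg (by linarith) (half_pos hr).le))

lemma StepC3_tel {k m : ℕ} (h : k ≤ m) (s : ℝ) :
    ∑ j ∈ Finset.Ico k m, tent j s * s = cut (rr k) |s| - cut (rr m) |s| := by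
  induction m, h using Nat.le_induction with
  | base => simp
  | succ m h ih =>
    rw [Finset.sum_Ico_succ_top h, ih, tent]
    rcases eq_or_ne s 0 with rfl | k
    · rw [StepC3_cut1 (rr_pos m) (by simpa using (half_pos (rr_pos m)).le),
        StepC3_cut1 (rr_pos (m + 1)) (by simpa using (half_pos (rr_pos _)).le), mul_zero, add_zero]
    · rw [div_mul_cancel₀ _ k, sub_add_sub_cancel]

lemma StepC3_ltan {s : ℝ} (h0 : s ≠ 0) (h1 : |s| ≤ 1) :
    |ltan s - Real.log s + Real.log 2| ≤ 2 * |s| := by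
  have a := abs_sg_le (abs_pos.2 h0) h1
  have b := abs_lg_pi h1
  rw [sg, lg, ch_abs, Real.log_abs] at a
  rw [ltan, lg]
  exact abs_le.2 ⟨by linarith [(abs_le.1 a).1, (abs_le.1 b).2],
    by linarith [(abs_le.1 a).2, (abs_le.1 b).1]⟩

/-- Size of the jump of the model. -/
noncomputable def StepC3_d (C : ℝ) (g e : ℕ → ℝ) (j : ℕ) : ℝ :=
  2 * C * rr j + |(g j - g (j + 1)) * Real.log (rr (j + 1)) + (e j - e (j + 1))| + |g (j + 1) - g j|

lemma StepC3_mid {c g e ek : ℕ → ℝ} {C M W U V s : ℝ} {k n j : ℕ} {H f φ : ℝ → ℝ}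
    (h : OD c k n H M f φ) (hc : CS c C) (hM : ∀ s, |H s| ≤ M) (hg : ∀ j, |g j| ≤ C)
    (he : ∀ j, e j = ek j - g j * Real.log 2) (h1 : k ≤ j) (h2 : j + 1 < n) (U0 : 0 ≤ U)
    (hU : rr (j + 1 + 2) ≤ |s| → |s| ≤ rr (j + 1) → |W - (g (j + 1) * Real.log s + e (j + 1))| ≤ U)
    (V0 : 0 ≤ V) (hV : |s| ≤ rr j → 1 ≤ V) :
    |tent j s * s * (φ s * (W - mdl g e k n s)) -
      c j * (tent j s * (f s - H s) * (W - g j * ltan s - ek j))| ≤
      8 * M / rr j * |c (j + 1) - c j| * U + 8 * M / rr j * (C * StepC3_d C g e j) * V := by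
  obtain ⟨-, -, -, -, t1, t2, t3, -⟩ := tent_prop j
  have r0 := rr_pos j
  have M0 : 0 ≤ M := (abs_nonneg _).trans (hM 0)
  have C0 : 0 ≤ C := zero_le_one.trans hc.one
  have d0 : 0 ≤ StepC3_d C g e j := by unfold StepC3_d; positivity
  by_cases k0 : tent j s = 0
  · rw [k0, zero_mul, zero_mul, zero_mul, zero_mul, mul_zero, sub_zero, abs_zero]
    positivity
  have s1 : |s| < rr j := not_le.1 fun k => k0 (t2 s k)
  have s2 : rr j / 4 < |s| := not_le.1 fun k => k0 (t3 s k)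
  have s0 : s ≠ 0 := abs_pos.1 (by linarith only [s1, s2])
  have cj : |c j| ≤ C := abs_le.2 ⟨by linarith only [C0, hc, hc.lo j, one_div_nonneg.2 C0], hc.hi j⟩
  obtain ⟨t, ht⟩ : ∃ t, t = tent j s * (f s - H s) := ⟨_, rfl⟩
  have a1 : |t| ≤ 8 * M / rr j := by
    rw [ht, abs_mul, show 8 * M / rr j = 4 / rr j * (M + M) by ring]
    exact mul_le_mul (t1 s) ((abs_sub _ _).trans (add_le_add (h.bd s) (hM s))) (abs_nonneg _)
      (by positivity)
  have a2 : |g j * ltan s + ek j - (g j * Real.log s + e j)| ≤ 2 * C * rr j := by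
    rw [he j, show g j * ltan s + ek j - (g j * Real.log s + (ek j - g j * Real.log 2)) =
      g j * (ltan s - Real.log s + Real.log 2) by ring, abs_mul, mul_comm 2, mul_assoc]
    exact mul_le_mul (hg j) ((StepC3_ltan s0 (s1.le.trans (rr_le_one j))).trans (by linarith only [s1]))
      (abs_nonneg _) C0
  have fin : ∀ x β : ℝ, |x| ≤ |c (j + 1) - c j| * U →
      |g j * ltan s + ek j - β| ≤ StepC3_d C g e j → |t * x + t * (c j * (g j * ltan s + ek j - β))| ≤
      8 * M / rr j * |c (j + 1) - c j| * U + 8 * M / rr j * (C * StepC3_d C g e j) * V :=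
    fun x β b1 b2 => by
      refine (abs_add_le _ _).trans (add_le_add ?_ ?_)
      · rw [abs_mul, mul_assoc]
        exact mul_le_mul a1 b1 (abs_nonneg _) (by positivity)
      · rw [abs_mul, abs_mul]
        exact (mul_le_mul a1 (mul_le_mul cj b2 (abs_nonneg _) C0) (by positivity)
          (by positivity)).trans (le_mul_of_one_le_right (by positivity) (hV s1.le))
  rcases lt_or_ge (rr (j + 1)) |s| with k | k
  · have o := h.ode j h1 (by omega) s k s1.le
    rw [mdl_ann g e h1 (by omega) k s1.le]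
    refine le_trans (le_of_eq (congrArg _ ?_)) (fin 0 (g j * Real.log s + e j)
      (by rw [abs_zero]; positivity) (a2.trans ?_))
    · rw [ht]
      linear_combination tent j s * (W - (g j * Real.log s + e j)) * o
    · exact (le_add_of_nonneg_right (abs_nonneg _)).trans (le_add_of_nonneg_right (abs_nonneg _))
  · have k' : rr (j + 1 + 1) < |s| := by rw [MS_rr]; exact s2
    have o := h.ode (j + 1) (by omega) h2 s k' k
    rw [mdl_ann g e (by omega) h2 k' k]
    refine le_trans (le_of_eq (congrArg _ ?_)) (fin ((c (j + 1) - c j) *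
      (W - (g (j + 1) * Real.log s + e (j + 1)))) (g (j + 1) * Real.log s + e (j + 1)) ?_ ?_)
    · rw [ht]
      linear_combination tent j s * (W - (g (j + 1) * Real.log s + e (j + 1))) * o
    · rw [abs_mul]
      exact mul_le_mul_of_nonneg_left (hU ((rr_succ_le _).trans k'.le) k) (abs_nonneg _)
    · have l1 : Real.log s ≤ Real.log (rr (j + 1)) :=
        Real.log_abs s ▸ Real.log_le_log (abs_pos.2 s0) k
      have l2 := Real.log_le_log (rr_pos _) k'.le
      rw [Real.log_abs, rr_succ (j + 1), Real.log_div (rr_pos _).ne' two_ne_zero] at l2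
      have l3 : |Real.log (rr (j + 1)) - Real.log s| ≤ 1 :=
        abs_le.2 ⟨by linarith only [l1], by linarith only [l2, Real.log_two_lt_d9]⟩
      rw [show g j * ltan s + ek j - (g (j + 1) * Real.log s + e (j + 1)) =
        g j * ltan s + ek j - (g j * Real.log s + e j) +
          ((g j - g (j + 1)) * Real.log (rr (j + 1)) + (e j - e (j + 1))) +
          (g (j + 1) - g j) * (Real.log (rr (j + 1)) - Real.log s) by ring]
      refine (abs_add_three _ _ _).trans (add_le_add (add_le_add a2 le_rfl) ?_)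
      rw [abs_mul]
      exact mul_le_of_le_one_right (abs_nonneg _) l3

lemma StepC3_out {c g e : ℕ → ℝ} {C M W U s : ℝ} {k n j : ℕ} {H f φ : ℝ → ℝ}
    (h : OD c k n H M f φ) (hc : CS c C) (hM : ∀ s, |H s| ≤ M) (h1 : k ≤ j) (h2 : j < n)
    (hU : rr (j + 2) ≤ |s| → |s| ≤ rr j → |W - (g j * Real.log s + e j)| ≤ U)
    (s1 : rr (j + 1) < |s|) (s2 : |s| ≤ rr j) :
    |φ s * (W - mdl g e k n s)| ≤ 4 * C * M / rr j * U := by
  have a := (h.abs_le hc hM s).1
  have b : |φ s| ≤ 4 * C * M / rr j := by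
    rw [le_div_iff₀ (rr_pos j)]
    rw [rr_succ] at s1
    linarith only [a, s1, abs_nonneg (φ s), mul_nonneg_of_nonpos_of_nonpos (le_of_lt (Mathlib.Tactic.Linarith.sub_neg_of_lt s1)) (Mathlib.Tactic.Linarith.sub_nonpos_of_le (abs_nonneg (φ s)))]
  rw [mdl_ann g e h1 h2 s1 s2, abs_mul]
  exact mul_le_mul b (hU ((rr_succ_le _).trans s1.le) s2) (abs_nonneg _) ((abs_nonneg _).trans b)

lemma StepC3_le {a : ℕ → ℝ} {C : ℝ} (h0 : ∀ j, 0 ≤ a j)
    (h : ∀ n, ∑ j ∈ Finset.range n, a j ≤ C) (k m : ℕ) : ∑ j ∈ Finset.Ico k m, a j ≤ C :=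
  (Finset.sum_le_sum_of_subset_of_nonneg
    (fun _ hj => Finset.mem_range.2 (Finset.mem_Ico.1 hj).2) fun j _ _ => h0 j).trans (h m)

lemma StepC3_rr (n : ℕ) : ∑ j ∈ Finset.range n, rr j ≤ 2 := by
  have : ∑ j ∈ Finset.range n, rr j = 2 - 2 * rr n := by
    induction n with
    | zero => simp [rr_zero]
    | succ n ih => rw [Finset.sum_range_succ, ih, rr_succ]; ring
  linarith [rr_pos n]

lemma StepC3_bm {φ G : ℝ → ℝ} {B : ℝ} (hm : Measurable φ) (hB : ∀ s, |φ s| ≤ B)
    (hG : IntervalIntegrable G volume (-π) π) :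
    IntervalIntegrable (fun s => φ s * G s) volume (-π) π :=
  ⟨hG.1.bdd_mul hm.aestronglyMeasurable (.of_forall hB),
    hG.2.bdd_mul hm.aestronglyMeasurable (.of_forall hB)⟩

theorem stepC (C : ℝ) : ∃ K : ℝ, 0 ≤ K ∧ ∀ (Φ b u v H H' f φ : ℝ → ℝ) (F : ℂ → ℂ) (κ y M : ℝ)
    (c n₁ n₂ N : ℕ → ℝ) (k n : ℕ), SD Φ b u v κ C → CS c C → VD (sd v y 1) n₁ C →
    VD (sd v y (-1)) n₂ C →
    MS1 (sd (fun t => b t - u t - κ) y 1) (gk v y) (fun j => ek v y j - gk v y j * Real.log 2) N C →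
    MS1 (sd (fun t => b t - u t - κ) y (-1)) (gk v y) (fun j => ek v y j - gk v y j * Real.log 2)
      N C →
    FH F H H' M → OD c k n H M f φ → k ≤ n →
    |(∫ s in (-π)..π, φ s * (b (y + s) - u (y + s) - κ)) +
        ∑ j ∈ Finset.Ico k n, gk v y j * XA f j| ≤
      K * M + K * ∑ j ∈ Finset.Ico k n, JN v y F j := by
  obtain ⟨K1, K10, hK1⟩ := inn_abs C
  obtain ⟨K2, K20, hK2⟩ := mid
  refine ⟨|C| * (2 + 2 * K1 + 16 * (1 + |C|) + 8 * (1 + |C|) + 96 * |C| +
    2 * |C| * K2 * (1 + 2 * |C|) + K2), by positivity, ?_⟩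
  intro Φ b u v H H' f φ F κ y M c n₁ n₂ N k n hS hc v1 v2 m1 m2 hF hO hkn
  have C0 : 0 ≤ C := zero_le_one.trans hc.one
  have M0 : 0 ≤ M := (abs_nonneg _).trans (hF.bd 0)
  have pp : -π ≤ π := by linarith only [pi_pos]
  have J0 := Finset.sum_nonneg fun j (_ : j ∈ Finset.Ico k n) => JN_nonneg v y F j
  rw [abs_of_nonneg C0]
  obtain ⟨w, hw⟩ : ∃ w : ℝ → ℝ, w = fun t => b t - u t - κ := ⟨_, rfl⟩
  have wm : Measurable w := hw ▸ (hS.st.ai.meas.sub hS.vu.meas).sub measurable_const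
  have wi : ∀ a c, IntervalIntegrable w volume a c := fun a c => hw ▸ ((hS.st.ai.ii a c).sub
    (bdd_intervalIntegrable hS.vu.meas
      (fun t => by simpa [sd] using (hS.vu.pos t).bd 0) a c)).sub intervalIntegrable_const
  have wy : ∀ a c, IntervalIntegrable (fun s => w (y + s)) volume a c := fun a c => by
    simpa using (wi (a + y) (c + y)).comp_add_left y
  have hI := hK1 Φ b u v κ y _ _ N n hS m1
  have lp := hS.lp
  simp only [show ∀ t, b t - u t - κ = w t from fun t => by rw [hw]] at hI m1 m2 lp ⊢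
  obtain ⟨g, hg⟩ : ∃ g, g = gk v y := ⟨_, rfl⟩
  obtain ⟨e, he⟩ : ∃ e : ℕ → ℝ, e = fun j => ek v y j - gk v y j * Real.log 2 := ⟨_, rfl⟩
  have he' : ∀ j, e j = ek v y j - g j * Real.log 2 := fun j => by rw [he, hg]
  rw [← he, ← hg] at m1 m2
  rw [← hg] at hI ⊢
  rw [← he' n] at hI
  obtain ⟨B, hB⟩ := hO.bdd
  obtain ⟨B', hB'⟩ := bdd_mdl g e k n
  have βi := bdd_intervalIntegrable (measurable_mdl g e k n) hB' (-π) π
  have Zi := StepC3_bm hO.meas hB ((wy _ _).sub βi)
  have jm := StepC3_le (fun _ => abs_nonneg _) m1.jmp k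
  have a1 := (mdl_int hO hkn g e).trans (mul_le_mul_of_nonneg_left (jm n) (by positivity))
  have a2 : ∫ s in (-π)..π, φ s * w (y + s) = (∫ s in (-π)..π, φ s * mdl g e k n s) +
      ∫ s in (-π)..π, φ s * (w (y + s) - mdl g e k n s) := by
    rw [← intervalIntegral.integral_add (StepC3_bm hO.meas hB βi) Zi]
    exact intervalIntegral.integral_congr fun s _ => by ring
  suffices key : |∫ s in (-π)..π, φ s * (w (y + s) - mdl g e k n s)| ≤ C * (2 * K1 + 16 * (1 + C) +
      8 * (1 + C) + 96 * C + 2 * C * K2 * (1 + 2 * C)) * M +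
      C * K2 * ∑ j ∈ Finset.Ico k n, JN v y F j by
    rw [a2, add_right_comm]
    refine (abs_add_le _ _).trans ((add_le_add a1 key).trans ?_)
    have : 0 ≤ C * (2 + 2 * K1 + 16 * (1 + C) + 8 * (1 + C) + 96 * C + 2 * C * K2 * (1 + 2 * C)) *
      ∑ j ∈ Finset.Ico k n, JN v y F j := by positivity
    have : 0 ≤ C * K2 * M := by positivity
    linarith
  obtain ⟨I, i1, i2⟩ := StepC3_ind (neg_le_self (rr_pos n).le)
    ((wy _ _).sub intervalIntegrable_const).abs (fun _ => abs_nonneg _) hI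
  have i3 : ∀ s, |s| ≤ rr n → |φ s * (w (y + s) - mdl g e k n s)| ≤ 2 * C * M / rr n * I s :=
    fun s hs => by
      have := (le_div_iff₀' (rr_pos n)).2 (hO.abs_le hc hF.bd s).2
      rw [mdl_inn g e k hs, abs_mul]
      exact mul_le_mul this (i2 s (abs_le.1 hs)) (abs_nonneg _) ((abs_nonneg _).trans this)
  have q : ∀ x j, 0 ≤ x → 0 ≤ x / rr j := fun x j hx => div_nonneg hx (rr_pos j).le
  have q' : ∀ x z j, x / rr j * (z * rr j) = x * z := fun x z j => by
    have := (rr_pos j).ne'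
    field_simp
  have i4 := StepC3_mul (q (2 * C * M) n (by positivity)) i1
  rw [q'] at i4
  rcases hkn.eq_or_lt with rfl | hkn
  · refine (intervalIntegral.norm_integral_le_of_norm_le (f := fun s =>
      φ s * (w (y + s) - mdl g e k k s)) pp (.of_forall fun s _ => ?_)
      i4.1).trans (i4.2.2.trans ?_)
    · rcases le_or_gt |s| (rr k) with k1 | k1
      · exact i3 s k1
      · rw [hO.out' s k1, zero_mul, norm_zero]
        exact i4.2.1 s
    · have : 0 ≤ C * (16 * (1 + C) + 8 * (1 + C) + 96 * C + 2 * C * K2 * (1 + 2 * C)) * M +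
        C * K2 * ∑ j ∈ Finset.Ico k k, JN v y F j := by positivity
      linarith only [this]
  obtain ⟨m, rfl⟩ : ∃ m, n = m + 1 := ⟨n - 1, by omega⟩
  have hkm : k ≤ m := by omega
  choose U u1 u2 using StepC3_ann wm m1 m2
  choose V w1 w2 using fun j => StepC3_ind (G := fun _ => 1) (A := 2 * rr j)
    (neg_le_self (rr_pos j).le) intervalIntegrable_const (fun _ => zero_le_one)
    (by simp [two_mul])
  have d0 : ∀ j, 0 ≤ StepC3_d C g e j := fun j => by
    have := rr_pos j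
    unfold StepC3_d
    positivity
  have u3 := fun j => StepC3_mul (q (4 * C * M) j (by positivity)) (u1 j)
  have u4 := StepC3_sum (Finset.Ico k m) fun j => StepC3_add
    (StepC3_mul (mul_nonneg (q (8 * M) j (by positivity)) (abs_nonneg (c (j + 1) - c j))) (u1 (j + 1)))
    (StepC3_mul (mul_nonneg (q (8 * M) j (by positivity)) (mul_nonneg C0 (d0 j))) (w1 j))
  have R := StepC3_add (StepC3_add (u3 k) (StepC3_add (u3 m) i4)) u4
  have Hc : Continuous H := by
    rw [show H = fun x => H 0 + ∫ t in (0 : ℝ)..x, H' t from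
      funext fun x => by rw [← hF.prim, add_sub_cancel]]
    exact continuous_const.add (intervalIntegral.continuous_primitive hF.ii 0)
  obtain ⟨T, hT⟩ : ∃ T : ℕ → ℝ → ℝ, T = fun j s =>
    c j * (tent j s * (f s - H s) * (w (y + s) - g j * ltan s - ek v y j)) := ⟨_, rfl⟩
  have Ti : ∀ j, IntervalIntegrable (T j) volume (-π) π := fun j => by
    obtain ⟨-, -, -, -, -, -, -, -, -, t⟩ := tent_prop j
    rw [hT]
    exact ((((wy _ _).sub ((MS_ltan_ii _ _).const_mul _)).sub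
      intervalIntegrable_const).continuousOn_mul (t.mul (hO.cont.sub Hc)).continuousOn).const_mul _
  have Tb : ∀ j, |∫ s in (-π)..π, T j s| ≤
      C * K2 * (1 + 2 * C) * M * (n₁ j + n₂ j) + C * K2 * JN v y F j := fun j => by
    have := hK2 w v H H' f φ F C C y M (2 * C) n₁ n₂ j wi hS.vv lp v1 v2 hF hO.meas ⟨B, hB⟩ hO.prim
      hO.bd (by positivity) fun s => (hO.abs_le hc hF.bd s).1
    rw [hT, intervalIntegral.integral_const_mul, abs_mul, hg]
    exact (mul_le_mul (abs_le.2 ⟨by linarith only [C0, hc, hc.lo j, one_div_nonneg.2 C0], hc.hi j⟩) this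
      (abs_nonneg _) C0).trans_eq (by ring)
  have Ts : IntervalIntegrable (fun s => ∑ j ∈ Finset.Ico k m, T j s) volume (-π) π := by
    simpa only [← Finset.sum_apply] using IntervalIntegrable.sum _ fun j _ => Ti j
  have b1 := (intervalIntegral.norm_integral_le_of_norm_le (f := fun s =>
      φ s * (w (y + s) - mdl g e k (m + 1) s) - ∑ j ∈ Finset.Ico k m, T j s) pp
      (.of_forall fun s _ => ?_) R.1).trans R.2.2
  · rw [intervalIntegral.integral_sub Zi Ts, intervalIntegral.integral_finsetSum fun j _ => Ti j,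
      Real.norm_eq_abs, q', q'] at b1
    have b2 := (Finset.abs_sum_le_sum_abs _ (Finset.Ico k m)).trans
      (Finset.sum_le_sum fun j _ => Tb j)
    rw [Finset.sum_add_distrib, ← Finset.mul_sum, ← Finset.mul_sum, Finset.sum_add_distrib] at b2
    have b3 : ∑ j ∈ Finset.Ico k m, JN v y F j ≤ ∑ j ∈ Finset.Ico k (m + 1), JN v y F j := by
      rw [Finset.sum_Ico_succ_top hkm]
      exact le_add_of_nonneg_right (JN_nonneg _ _ _ _)
    have b4 := mul_le_mul_of_nonneg_left (add_le_add (StepC3_le v1.sm.nn v1.sm.sum k m)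
      (StepC3_le v2.sm.nn v2.sm.sum k m)) (by positivity : 0 ≤ C * K2 * (1 + 2 * C) * M)
    have b5 : ∑ j ∈ Finset.Ico k m, (8 * M / rr j * |c (j + 1) - c j| * (2 * (1 + C) * rr (j + 1)) +
        8 * M / rr j * (C * StepC3_d C g e j) * (2 * rr j)) =
        8 * M * (1 + C) * ∑ j ∈ Finset.Ico k m, |c (j + 1) - c j| +
          16 * M * C * ∑ j ∈ Finset.Ico k m, StepC3_d C g e j := by
      rw [Finset.mul_sum, Finset.mul_sum, ← Finset.sum_add_distrib]
      refine Finset.sum_congr rfl fun j _ => ?_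
      have := (rr_pos j).ne'
      rw [rr_succ]
      field_simp
      ring
    have b6 : ∑ j ∈ Finset.Ico k m, StepC3_d C g e j ≤ 6 * C := by
      simp only [StepC3_d, Finset.sum_add_distrib, ← Finset.mul_sum]
      linarith only [jm, m1, C0, jm m, StepC3_le (fun _ => abs_nonneg _) m1.bv k m, mul_le_mul_of_nonneg_left
        (StepC3_le (fun j => (rr_pos j).le) StepC3_rr k m) (by positivity : 0 ≤ 2 * C)]
    have b7 := mul_le_mul_of_nonneg_left b6 (by positivity : 0 ≤ 16 * M * C)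
    have b8 := mul_le_mul_of_nonneg_left (StepC3_le (fun _ => abs_nonneg _) hc.bv k m)
      (by positivity : 0 ≤ 8 * M * (1 + C))
    have b9 := mul_le_mul_of_nonneg_left b3 (by positivity : 0 ≤ C * K2)
    rw [b5] at b1
    linarith only [b1, b2, b4, b7, b8, b9, abs_sub_abs_le_abs_sub (∫ s in (-π)..π, φ s * (w (y + s) - mdl g e k (m + 1) s))
      (∑ j ∈ Finset.Ico k m, ∫ s in (-π)..π, T j s)]
  obtain ⟨Z, hZ⟩ : ∃ Z, Z = φ s * (w (y + s) - mdl g e k (m + 1) s) := ⟨_, rfl⟩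
  have e1 : Z - ∑ j ∈ Finset.Ico k m, T j s = (1 - cut (rr k) |s|) * Z + cut (rr m) |s| * Z +
      ∑ j ∈ Finset.Ico k m, (tent j s * s * Z - T j s) := by
    rw [Finset.sum_sub_distrib, ← Finset.sum_mul, StepC3_tel hkm]
    ring
  have cz : ∀ x, 0 ≤ x → x ≤ 1 → |x * Z| ≤ |Z| := fun x x0 x1 => by
    rw [abs_mul, abs_of_nonneg x0]
    exact mul_le_of_le_one_left (abs_nonneg _) x1
  rw [← hZ, e1]
  refine (abs_add_three _ _ _).trans (add_le_add (add_le_add ?_ ?_)
    ((Finset.abs_sum_le_sum_abs _ _).trans (Finset.sum_le_sum fun j hj => ?_)))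
  · rcases le_or_gt |s| (rr (k + 1)) with k1 | k1
    · rw [StepC3_cut1 (rr_pos k) (rr_succ k ▸ k1), sub_self, zero_mul, abs_zero]
      exact (u3 k).2.1 s
    refine (cz _ (sub_nonneg.2 (StepC3_cut _ _).2) (sub_le_self _ (StepC3_cut _ _).1)).trans ?_
    rcases le_or_gt |s| (rr k) with k2 | k2
    · exact hZ ▸ StepC3_out hO hc hF.bd le_rfl hkn (u2 k s) k1 k2
    · rw [hZ, hO.out' s k2, zero_mul, abs_zero]
      exact (u3 k).2.1 s
  · rcases le_or_gt |s| (rr m) with k1 | k1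
    · refine (cz _ (StepC3_cut _ _).1 (StepC3_cut _ _).2).trans ?_
      rcases le_or_gt |s| (rr (m + 1)) with k2 | k2
      · exact hZ ▸ (i3 s k2).trans (le_add_of_nonneg_left ((u3 m).2.1 s))
      · exact hZ ▸ (StepC3_out hO hc hF.bd hkm (Nat.lt_succ_self m) (u2 m s) k2 k1).trans
          (le_add_of_nonneg_right (i4.2.1 s))
    · rw [StepC3_cut0 (rr_pos m) k1.le, zero_mul, abs_zero]
      exact add_nonneg ((u3 m).2.1 s) (i4.2.1 s)
  · rw [hZ, hT]
    exact StepC3_mid hO hc hF.bd m1.bd he' (Finset.mem_Ico.1 hj).1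
      (Nat.succ_lt_succ (Finset.mem_Ico.1 hj).2) ((u1 _).2.1 s) (u2 (j + 1) s) ((w1 j).2.1 s)
      fun k1 => w2 j s (abs_le.1 k1)

end Pool.Agent.Work.MP_af796d_an.H
end

-- merged part: Pool.Agent.Work.MP_af796d_an.H.StepD
section
/-!
# The recursive inequality
PLAN.
* log_pair: for 0 < |s| ≤ rr k, lg s = sg |s| + (log s - mdl 1 0 s) + mdl 1 0 s with mdl (fun _ => 1) (fun _ => 0) k n s = log (max |s| (rr n)); φ = 0 beyond rr k.
  anti_pair on both sides for sg (primitive ≤ 2 M), (M/rn) ∫_{|s| ≤ rn} (log rn - log |s|) = 2 M, mdl_int with zero jumps.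
* xa_diff: OD.ode and OD.prim on the two annuli.  abs_XA_le: 2 M log 2.
* sum_c: take f, φ from ode_real with bound 2 M, C'' ≥ 16 C and ≥ the constant of ms_w (mono lemmas; vd_of_vi, ms_w).  ∫ φ (b + lg) = ∫ φ u + κ ∫ φ + ∫ φ w + ∫ φ lg, ∫ φ = 0, vu_pair, stepB, stepC, log_pair bound
  sum (1 + g j) XA f j; pass to c j with the hypothesis on sum |c - (1 + g)| and abs_XA_le; pass to XA H j with xa_diff (telescoping, |f r - f (-r)| ≤ 4 M).
* stepD: T j = sum_{i in Ico j n} c i XA H i, |T j| ≤ B := K M + K sum_{Ico k n} JN for k ≤ j ≤ n (JN_nonneg), XA H j = (1/c j)(T j - T (j+1)), abel_le with d = 1/c (bounded by C, variation ≤ C^3).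
  sum XA H j = ∫_{rn}^{rk} (H r - H (-r))/r, |1/r - lg1 r| ≤ 1 (abs_mul_lg1), hilb at y = 0 for n and for k (FH.re), MK F 0 k ≤ MK F 0 n + |IK n - IK k|.
-/

set_option autoImplicit false

namespace Pool.Agent.Work.MP_af796d_an.H

open MeasureTheory Set Real Metric Filter Topology

lemma StepD_neg {g : ℝ → ℝ} {a b : ℝ} (h : IntervalIntegrable g volume (-a) (-b)) :
    IntervalIntegrable (fun t => g (-t)) volume a b := by
  simpa using (IntervalIntegrable.iff_comp_neg enorm_ne_top).1 h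

lemma StepD_fold {g : ℝ → ℝ} (h : ∀ a b, IntervalIntegrable g volume a b) (a : ℝ) :
    ∫ s in (-a)..a, g s = ∫ t in (0 : ℝ)..a, (g t + g (-t)) := by
  rw [intervalIntegral.integral_add (h _ _) (StepD_neg (h _ _)), intervalIntegral.integral_comp_neg,
    neg_zero, add_comm, intervalIntegral.integral_add_adjacent_intervals (h _ _) (h _ _)]

lemma StepD_mul {f φ : ℝ → ℝ} {a b B : ℝ} (hf : IntervalIntegrable f volume a b) (hφ : Measurable φ)
    (hB : ∀ x, |φ x| ≤ B) : IntervalIntegrable (fun x => φ x * f x) volume a b := by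
  simpa only [mul_comm] using ML_mul hf hφ hB

lemma StepD_div {g : ℝ → ℝ} (hg : Continuous g) {a b : ℝ} (ha : 0 < a) (hb : 0 < b) :
    IntervalIntegrable (fun r => (g r - g (-r)) / r) volume a b :=
  ((hg.sub (hg.comp continuous_neg)).continuousOn.div continuousOn_id
    fun _ hx => ((lt_min ha hb).trans_le hx.1).ne').intervalIntegrable

lemma StepD_cont {F : ℂ → ℂ} {H H' : ℝ → ℝ} {M : ℝ} (h : FH F H H' M) : Continuous H := by
  have : H = fun x => H 0 + ∫ t in (0 : ℝ)..x, H' t := funext fun x => by rw [← h.prim]; ring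
  rw [this]
  exact continuous_const.add (intervalIntegral.continuous_primitive h.ii 0)

lemma StepD_pos {c : ℕ → ℝ} {C : ℝ} (h : CS c C) (j : ℕ) : 0 < c j :=
  (one_div_pos.2 (one_pos.trans_le h.one)).trans_le (h.lo j)

lemma StepD_sum {f : ℕ → ℝ} {C : ℝ} (h : ∀ m, ∑ j ∈ Finset.range m, |f j| ≤ C) (k n : ℕ) :
    ∑ j ∈ Finset.Ico k n, |f j| ≤ C :=
  (Finset.sum_le_sum_of_subset_of_nonneg
    (fun _ hj => Finset.mem_range.2 (Finset.mem_Ico.1 hj).2) fun _ _ _ => abs_nonneg _).trans (h n)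

theorem log_pair : ∃ K : ℝ, 0 ≤ K ∧ ∀ (c : ℕ → ℝ) (k n : ℕ) (H f φ : ℝ → ℝ) (M : ℝ),
    OD c k n H M f φ → k ≤ n →
    |(∫ s in (-π)..π, φ s * lg s) + ∑ j ∈ Finset.Ico k n, XA f j| ≤ K * M := by
  refine ⟨10 * |sg π| + 2, by positivity, fun c k n H f φ M h hkn => ?_⟩
  obtain ⟨B, hB⟩ := h.bdd
  obtain ⟨B', hB'⟩ := bdd_mdl (fun _ => 1) (fun _ => 0) k n
  have m := mdl_int h hkn (fun _ => 1) fun _ => 0
  simp only [sub_self, zero_mul, add_zero, abs_zero, Finset.sum_const_zero, mul_zero, one_mul,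
    abs_nonpos_iff] at m
  have r0 := rr_pos n
  have r1 := rr_le_one n
  have p3 := pi_gt_three
  have im := fun a b => ML_ii (a := a) (b := b) (measurable_mdl (fun _ => 1) (fun _ => 0) k n)
    fun x _ => hB' x
  have i1 := fun a b => StepD_mul (intervalIntegrable_lg a b) h.meas hB
  have i2 := fun a b => StepD_mul (im a b) h.meas hB
  have mΦ : Measurable fun t => φ t + φ (-t) := h.meas.add (h.meas.comp measurable_neg)
  have bΦ : ∀ t, |φ t + φ (-t)| ≤ B + B := fun t =>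
    (abs_add_le _ _).trans (add_le_add (hB _) (hB _))
  obtain ⟨j1, b1⟩ := anti_pair (φ := fun t => φ t + φ (-t)) (χ := sg) (M := 2 * M) (A := |sg π|)
    pi_pos.le (ML_ii mΦ fun x _ => bΦ x) (fun x _ => by
      rw [← StepD_fold h.ii, ← h.prim]
      exact (abs_sub _ _).trans (by linarith only [h, h.bd x, h.bd (-x)]))
    (fun x hx y hy hxy => sg_anti hx.1 hxy (by linarith [hy.2])) (fun t ht => by
      rw [abs_of_nonpos (sg_nonpos ht.1 (by linarith [ht.2]))]
      exact (neg_le_neg (sg_anti ht.1 ht.2 (by linarith))).trans (neg_le_abs _)) (abs_nonneg _)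
  have j2 := fun a b => StepD_mul ((intervalIntegral.intervalIntegrable_log' (a := a) (b := b)).sub
    (im a b)) mΦ bΦ
  have b2 : |∫ t in (0 : ℝ)..π, (φ t + φ (-t)) *
      (Real.log t - mdl (fun _ => 1) (fun _ => 0) k n t)| ≤ 2 * M := by
    rw [← intervalIntegral.integral_add_adjacent_intervals (j2 0 (rr n)) (j2 _ _),
      intervalIntegral.integral_congr_uIoo (a := rr n) (g := fun _ => 0),
      intervalIntegral.integral_zero, add_zero]
    · rw [← Real.norm_eq_abs]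
      refine (intervalIntegral.norm_integral_le_of_norm_le r0.le
        (g := fun t => 2 * M / rr n * (Real.log (rr n) - Real.log t))
        (Eventually.of_forall fun t ht => ?_) ((intervalIntegrable_const.sub
          intervalIntegral.intervalIntegrable_log').const_mul _)).trans (le_of_eq ?_)
      · have a := (abs_of_pos ht.1).trans_le ht.2
        have := h.inn t a
        have := h.inn (-t) (by rwa [abs_neg])
        rw [Real.norm_eq_abs, abs_mul, mdl_inn _ _ _ a, one_mul, add_zero, abs_sub_comm,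
          abs_of_nonneg (sub_nonneg.2 (Real.log_le_log ht.1 ht.2))]
        refine mul_le_mul_of_nonneg_right ((abs_add_le _ _).trans ?_)
          (sub_nonneg.2 (Real.log_le_log ht.1 ht.2))
        rw [le_div_iff₀ r0]
        linarith
      · rw [intervalIntegral.integral_const_mul, intervalIntegral.integral_sub
          intervalIntegrable_const intervalIntegral.intervalIntegrable_log',
          integral_log_from_zero, intervalIntegral.integral_const, smul_eq_mul]
        field_simp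
        ring
    · intro t ht
      rw [uIoo_of_le (by linarith)] at ht
      have a := abs_of_pos (r0.trans ht.1)
      by_cases q : t ≤ rr k
      · obtain ⟨j, k1, k2, k3, k4⟩ := exists_ann ht.1 q
        simp [mdl_ann _ _ k1 k2 (a.symm ▸ k3) (a.symm ▸ k4)]
      · simp [h.out' t (by rw [a]; linarith), h.out' (-t) (by rw [abs_neg, a]; linarith)]
  have e := StepD_fold (fun a b => (i1 a b).sub (i2 a b)) π
  rw [intervalIntegral.integral_sub (i1 _ _) (i2 _ _), intervalIntegral.integral_congr (a := 0)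
    (g := fun t => (φ t + φ (-t)) * sg t + (φ t + φ (-t)) *
      (Real.log t - mdl (fun _ => 1) (fun _ => 0) k n t))
    (fun t _ => by simp only [sg, lg_neg, mdl, abs_neg]; ring),
    intervalIntegral.integral_add j1 (j2 _ _)] at e
  refine le_of_eq_of_le (congrArg _ ?_)
    (((abs_add_le _ _).trans (add_le_add b1 b2)).trans (le_of_eq (by ring)))
  linarith only [m, e]

lemma xa_diff {c : ℕ → ℝ} {M : ℝ} {k n j : ℕ} {H f φ : ℝ → ℝ} (h : OD c k n H M f φ)
    (hH : Continuous H) (h1 : k ≤ j) (h2 : j < n) :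
    c j * (XA f j - XA H j) =
      (f (rr j) - f (-rr j)) - (f (rr (j + 1)) - f (-rr (j + 1))) := by
  have r0 := rr_pos (j + 1)
  have e1 := h.prim (rr (j + 1)) (rr j)
  have e2 := h.prim (-rr j) (-rr (j + 1))
  rw [← intervalIntegral.integral_comp_neg] at e2
  rw [XA, XA, ← intervalIntegral.integral_sub (StepD_div h.cont r0 (rr_pos j))
    (StepD_div hH r0 (rr_pos j)), ← intervalIntegral.integral_const_mul,
    intervalIntegral.integral_congr_uIoo (g := fun t => φ t + φ (-t)),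
    intervalIntegral.integral_add (h.ii _ _) (StepD_neg (h.ii _ _))]
  · linarith only [e1, e2]
  · intro t ht
    rw [uIoo_of_le (rr_succ_le j)] at ht
    have t0 := r0.trans ht.1
    have a := abs_of_pos t0
    have o1 := h.ode j h1 h2 t (a.symm ▸ ht.1) (a.symm ▸ ht.2.le)
    have o2 := h.ode j h1 h2 (-t) (by rw [abs_neg, a]; exact ht.1) (by rw [abs_neg, a]; exact ht.2.le)
    field_simp
    linarith only [o1, o2]

lemma abs_XA_le {f : ℝ → ℝ} {M : ℝ} (h : ∀ s, |f s| ≤ M) (j : ℕ) : |XA f j| ≤ 2 * M := by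
  have r0 := rr_pos (j + 1)
  rw [XA, ← Real.norm_eq_abs]
  refine (intervalIntegral.norm_integral_le_of_norm_le_const (C := 2 * M / rr (j + 1))
    fun x hx => ?_).trans (le_of_eq ?_)
  · rw [uIoc_of_le (rr_succ_le j)] at hx
    rw [Real.norm_eq_abs, abs_div, abs_of_pos (r0.trans hx.1)]
    exact div_le_div₀ (by linarith [abs_nonneg (f 0), h 0])
      ((abs_sub _ _).trans (by linarith [h x, h (-x)])) r0 hx.1.le
  · rw [show rr j - rr (j + 1) = rr (j + 1) by rw [rr_succ]; ring, abs_of_pos r0,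
      div_mul_cancel₀ _ r0.ne']

theorem sum_c (C : ℝ) : ∃ K : ℝ, 0 ≤ K ∧ ∀ (Φ b u v H' : ℝ → ℝ) (F g : ℂ → ℂ) (κ y M a₀ : ℝ)
    (c : ℕ → ℝ) (k n : ℕ), SD Φ b u v κ C → WSy b y c C →
    (∀ m, ∑ j ∈ Finset.range m, |c j - (1 + gk v y j)| ≤ C) →
    AnalyticOnNhd ℂ g (closedBall 0 1) → (∀ z : ℂ, ‖z‖ ≤ 1 → ‖g z‖ ≤ M) →
    FH F (fun s => (g (ex (Φ (y + s)))).re - a₀) H' (2 * M) → k ≤ n →
    |∑ j ∈ Finset.Ico k n, c j * XA (fun s => (g (ex (Φ (y + s)))).re - a₀) j| ≤
      K * M + K * ∑ j ∈ Finset.Ico k n, JN v y F j := by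
  obtain ⟨C', hC', hw⟩ := ms_w C
  obtain ⟨K1, k1, hL⟩ := log_pair
  obtain ⟨K2, k2, hB⟩ := stepB C
  obtain ⟨K3, k3, hS⟩ := stepC (max C' (16 * C))
  refine ⟨2 * K1 + K2 + 2 * K3 + 32 * C ^ 2 + 4 * |C| + 8, by positivity,
    fun Φ b u v H' F g κ y M a₀ c k n h hW hc hg hM hF hkn => ?_⟩
  have M0 : 0 ≤ M := (norm_nonneg _).trans (hM 0 (by simp))
  have cs : CS c C := hW.choose_spec.choose_spec.1.cs
  have cH := StepD_cont hF
  obtain ⟨f, φ, o⟩ := ode_real (StepD_pos cs) cH hF.bd hkn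
  obtain ⟨B, bφ⟩ := o.bdd
  have iu := fun a c => ML_ii (a := a) (b := c) h.vu.meas fun x _ => h.vu.bd x
  obtain ⟨N, m1, m2⟩ := hw (fun t => b t - u t - κ) v
    ((h.st.ai.meas.sub h.vu.meas).sub measurable_const)
    (fun a c => ((h.st.ai.ii a c).sub (iu a c)).sub intervalIntegrable_const) h.vv h.lp y
  obtain ⟨n₁, v1⟩ := vd_of_vi (h.vv.pos y)
  obtain ⟨n₂, v2⟩ := vd_of_vi (h.vv.neg y)
  have l1 := le_max_left C' (16 * C)
  have l2 := le_max_right C' (16 * C)
  have b1 := abs_le.1 (hL c k n _ f φ _ o hkn)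
  have b2 := abs_le.1 (hB Φ b y c g M a₀ k n f φ h.st hW hg hM hkn hF.bd o)
  have b3 := abs_le.1 (hS Φ b u v _ H' f φ F κ y _ c n₁ n₂ N k n (h.mono (hC'.trans l1))
    (cs.mono (hC'.trans l1)) (v1.mono l2) (v2.mono l2) (m1.mono l1) (m2.mono l1) hF o hkn)
  have b4 := abs_le.1 (vu_pair h.vu y (o.ii _ _) (fun s _ => (o.abs_le cs hF.bd s).1) fun x _ => by
    rw [← o.prim]
    exact (abs_sub _ _).trans (by linarith only [o, M0, cs, o.bd x, o.bd 0, cs.one, mul_nonneg_of_nonpos_of_nonpos (Mathlib.Tactic.Linarith.sub_nonpos_of_le M0) (Mathlib.Tactic.Linarith.sub_nonpos_of_le cs.one)]))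
  have sh : ∀ {w : ℝ → ℝ}, (∀ a c, IntervalIntegrable w volume a c) →
      IntervalIntegrable (fun s => φ s * w (y + s)) volume (-π) π := fun hw =>
    StepD_mul (by simpa using (hw (y + -π) (y + π)).comp_add_left y) o.meas bφ
  have e1 : ∫ s in (-π)..π, φ s * (b (y + s) + lg s) =
      (∫ s in (-π)..π, φ s * b (y + s)) + ∫ s in (-π)..π, φ s * lg s := by
    simp only [mul_add]
    exact intervalIntegral.integral_add (sh h.st.ai.ii)
      (StepD_mul (intervalIntegrable_lg _ _) o.meas bφ)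
  have e2 : ∫ s in (-π)..π, φ s * (b (y + s) - u (y + s) - κ) =
      (∫ s in (-π)..π, φ s * b (y + s)) - ∫ s in (-π)..π, φ s * u (y + s) := by
    have a : rr k ≤ |π| := (rr_le_one k).trans (by rw [abs_of_pos pi_pos]; linarith only [pi_gt_three])
    simp only [mul_sub]
    rw [intervalIntegral.integral_sub ((sh h.st.ai.ii).sub (sh iu)) ((o.ii _ _).mul_const _),
      intervalIntegral.integral_sub (sh h.st.ai.ii) (sh iu), intervalIntegral.integral_mul_const,
      ← o.prim, o.out _ a, o.out _ (by rwa [abs_neg])]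
    ring
  have b5 : |∑ j ∈ Finset.Ico k n, (c j - (1 + gk v y j)) * XA f j| ≤ |C| * (2 * (2 * M)) := by
    refine (Finset.abs_sum_le_sum_abs _ _).trans ((Finset.sum_le_sum fun j _ =>
      (abs_mul _ _).trans_le (mul_le_mul_of_nonneg_left (abs_XA_le o.bd j) (abs_nonneg _))).trans ?_)
    rw [← Finset.sum_mul]
    exact mul_le_mul_of_nonneg_right ((StepD_sum hc k n).trans (le_abs_self _)) (by positivity)
  have e3 := Finset.sum_Ico_sub (fun j => f (rr j) - f (-rr j)) hkn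
  have e4 : ∑ j ∈ Finset.Ico k n, c j * XA (fun s => (g (ex (Φ (y + s)))).re - a₀) j =
      ∑ j ∈ Finset.Ico k n, ((c j - (1 + gk v y j)) * XA f j + XA f j + gk v y j * XA f j +
        (f (rr (j + 1)) - f (-rr (j + 1)) - (f (rr j) - f (-rr j)))) :=
    Finset.sum_congr rfl fun j hj => by
      linear_combination -xa_diff o cH (Finset.mem_Ico.1 hj).1 (Finset.mem_Ico.1 hj).2
  have J0 : 0 ≤ ∑ j ∈ Finset.Ico k n, JN v y F j := Finset.sum_nonneg fun j _ => JN_nonneg _ _ _ _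
  have J1 := mul_nonneg (show 0 ≤ 2 * K1 + K2 + K3 + 32 * C ^ 2 + 4 * |C| + 8 by positivity) J0
  rw [e4, Finset.sum_add_distrib, Finset.sum_add_distrib, Finset.sum_add_distrib, e3]
  rw [e1] at b2
  rw [e2] at b3
  rw [abs_le] at b5 ⊢
  have f1 := abs_le.1 (o.bd (rr n))
  have f2 := abs_le.1 (o.bd (-rr n))
  have f3 := abs_le.1 (o.bd (rr k))
  have f4 := abs_le.1 (o.bd (-rr k))
  constructor <;> linarith only [b1, b2, b3, b4, b5, J1, f1, f2, f3, f4, b1.1, b1.2, b2.1, b2.2, b3.1, b3.2, b4.1, b4.2, b5.1, b5.2]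

theorem stepD (C : ℝ) : ∃ K : ℝ, 0 ≤ K ∧ ∀ (Φ b u v H' : ℝ → ℝ) (F g : ℂ → ℂ) (κ y M a₀ : ℝ)
    (c : ℕ → ℝ) (k n : ℕ), SD Φ b u v κ C → WSy b y c C →
    (∀ m, ∑ j ∈ Finset.range m, |c j - (1 + gk v y j)| ≤ C) →
    AnalyticOnNhd ℂ g (closedBall 0 1) → (∀ z : ℂ, ‖z‖ ≤ 1 → ‖g z‖ ≤ M) →
    FH F (fun s => (g (ex (Φ (y + s)))).re - a₀) H' (2 * M) → k ≤ n →
    MK F 0 k ≤ MK F 0 n + K * M + K * ∑ j ∈ Finset.Ico k n, JN v y F j := by
  obtain ⟨K, k0, hK⟩ := sum_c C
  refine ⟨88 + (2 * |C| + |C| ^ 3) * K, by positivity,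
    fun Φ b u v H' F g κ y M a₀ c k n h hW hc hg hM hF hkn => ?_⟩
  have M0 : 0 ≤ M := (norm_nonneg _).trans (hM 0 (by simp))
  have cs : CS c C := hW.choose_spec.choose_spec.1.cs
  have C0 := one_pos.trans_le cs.one
  have hT := fun j hj => hK Φ b u v H' F g κ y M a₀ c j n h hW hc hg hM hF hj
  have cH := StepD_cont hF
  generalize (fun s => (g (ex (Φ (y + s)))).re - a₀) = H at *
  have J0 : 0 ≤ ∑ j ∈ Finset.Ico k n, JN v y F j := Finset.sum_nonneg fun j _ => JN_nonneg _ _ _ _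
  have ci : ∀ j, 1 / c j ≤ C := fun j => (one_div_le (StepD_pos cs j) C0).2 (cs.lo j)
  have a1 := abel_le (d := fun j => 1 / c j) (f := fun j => ∑ i ∈ Finset.Ico j n, c i * XA H i)
    (D := C) (V := C ^ 3) (M := K * M + K * ∑ j ∈ Finset.Ico k n, JN v y F j) hkn
    (fun j _ _ => (abs_of_pos (one_div_pos.2 (StepD_pos cs j))).trans_le (ci j)) (by
      calc _ ≤ ∑ j ∈ Finset.Ico k n, C ^ 2 * |c (j + 1) - c j| := Finset.sum_le_sum fun j _ => by
            have p1 := StepD_pos cs j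
            have p2 := StepD_pos cs (j + 1)
            rw [show 1 / c (j + 1) - 1 / c j = -(1 / c j * (1 / c (j + 1)) * (c (j + 1) - c j)) by
              field_simp; ring, abs_neg, abs_mul, abs_of_pos (by positivity), sq]
            exact mul_le_mul_of_nonneg_right
              (mul_le_mul (ci _) (ci _) (by positivity) C0.le) (abs_nonneg _)
        _ ≤ C ^ 2 * C := by
            rw [← Finset.mul_sum]
            exact mul_le_mul_of_nonneg_left (StepD_sum cs.bv k n) (sq_nonneg _)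
        _ = _ := by ring)
    fun j h1 h2 => (hT j h2).trans (add_le_add_right (mul_le_mul_of_nonneg_left
      (Finset.sum_le_sum_of_subset_of_nonneg (Finset.Ico_subset_Ico_left h1)
        fun _ _ _ => JN_nonneg _ _ _ _) k0) _)
  have e1 : ∑ j ∈ Finset.Ico k n, 1 / c j * (∑ i ∈ Finset.Ico j n, c i * XA H i -
      ∑ i ∈ Finset.Ico (j + 1) n, c i * XA H i) = ∫ r in (rr n)..(rr k), (H r - H (-r)) / r := by
    rw [intervalIntegral.integral_symm, ← intervalIntegral.sum_integral_adjacent_intervals_Ico (a := rr)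
      hkn fun j _ => StepD_div cH (rr_pos _) (rr_pos _), ← Finset.sum_neg_distrib]
    refine Finset.sum_congr rfl fun j hj => ?_
    rw [Finset.sum_eq_sum_Ico_succ_bot (Finset.mem_Ico.1 hj).2, add_sub_cancel_right, one_div,
      inv_mul_cancel_left₀ (StepD_pos cs j).ne', XA, intervalIntegral.integral_symm]
  have r0 := rr_pos n
  have r1 := rr_anti hkn
  have r2 := rr_le_one k
  have p3 := pi_gt_three
  have bH : ∀ s, |H s - H (-s)| ≤ 4 * M := fun s =>
    (abs_sub _ _).trans (by linarith only [hF, hF.bd s, hF.bd (-s)])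
  have il : ∀ a b, rr n ≤ a → a ≤ b → b ≤ π →
      IntervalIntegrable (fun s => (H s - H (-s)) * lg1 s) volume a b := fun a b q1 q2 q3 =>
    StepD_mul (ML_ii measurable_lg1 (B := 1 / (rr n / 2)) fun x hx => by
      rw [uIcc_of_le q2] at hx
      have a := abs_of_pos (show 0 < x by linarith only [r0, q1, hx, hx.1])
      have := le_ch' (t := x) (by rw [a]; linarith only [q3, hx, hx.2])
      rw [a] at this
      exact (abs_lg1_le x).trans (one_div_le_one_div_of_le (by linarith only [r0]) (by linarith only [q1, this, hx, hx.1])))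
      (cH.sub (cH.comp continuous_neg)).measurable bH
  have a2 : |(∫ s in (rr n)..(rr k), (H s - H (-s)) * lg1 s) -
      ∫ r in (rr n)..(rr k), (H r - H (-r)) / r| ≤ 4 * M := by
    rw [← intervalIntegral.integral_sub (il _ _ le_rfl r1 (by linarith only [r2, p3]))
      (StepD_div cH r0 (rr_pos k)), ← Real.norm_eq_abs]
    refine (intervalIntegral.norm_integral_le_of_norm_le_const (C := 4 * M) fun x hx => ?_).trans
      (mul_le_of_le_one_right (by positivity) (abs_le.2 ⟨by linarith only [r1], by linarith only [r0, r2]⟩))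
    rw [uIoc_of_le r1] at hx
    have x0 := r0.trans hx.1
    have := abs_mul_lg1 x0.ne' ((abs_of_pos x0).trans_le (hx.2.trans r2))
    rw [show (H x - H (-x)) * lg1 x - (H x - H (-x)) / x =
      (H x - H (-x)) * ((x * lg1 x - 1) / x) by field_simp, Real.norm_eq_abs, abs_mul, abs_div]
    exact (mul_le_mul (bH x) ((div_le_one (abs_pos.2 x0.ne')).2 this) (by positivity)
      (by positivity)).trans_eq (mul_one _)
  have hb := fun j => abs_le.1 (hilb hF.dc (fun t => hF.re t ▸ hF.bd t) 0 j)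
  simp only [zero_add, zero_sub, ← hF.re] at hb
  have h1 := hb n
  have h2 := hb k
  rw [← intervalIntegral.integral_add_adjacent_intervals (il _ _ le_rfl r1 (by linarith only [r2, p3]))
    (il _ _ r1 (by linarith only [r2, p3]) le_rfl), mul_add] at h1
  rw [e1] at a1
  have B0 : 0 ≤ (2 * C + C ^ 3) * (K * M + K * ∑ j ∈ Finset.Ico k n, JN v y F j) := by positivity
  have a3 := abs_le.1 (ML_pi (A := ∫ s in (rr n)..(rr k), (H s - H (-s)) * lg1 s)
    (B := 4 * M + (2 * C + C ^ 3) * (K * M + K * ∑ j ∈ Finset.Ico k n, JN v y F j)) (by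
      rw [abs_le] at a1 a2 ⊢
      constructor <;> linarith only [M0, a1, a2, a1.1, a1.2, a2.1, a2.2]))
  have a4 := abs_sub_le (F (ex 0)).im (IK F 0 n) (IK F 0 k)
  have a5 : |IK F 0 n - IK F 0 k| ≤
      88 * M + (2 * C + C ^ 3) * (K * M + K * ∑ j ∈ Finset.Ico k n, JN v y F j) :=
    abs_le.2 ⟨by linarith only [h1, h2, a3, a3.2, h1.1, h2.2], by linarith only [h1, h2, a3, a3.1, h1.2, h2.1]⟩
  rw [MK, MK, abs_of_pos C0]
  linarith only [J0, a4, a5]

end Pool.Agent.Work.MP_af796d_an.H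
end
end

-- merged part: Pool.Agent.Work.MP_af796d_an.H.St2
section
-- merged part: Pool.Agent.Work.MP_af796d_an.H.Ode
section
/-!
# An analytic differential equation
PLAN.  h k = rr k, ζ = ex (-y).  γ k = c k - c (k+1) for k < n, γ n = c n; sum γ = c 0, sum |γ| ≤ 2 C.
Λ z = sum_{k ≤ n} γ k * log (1 + h k - z ζ) (principal log; the argument has positive real part for ‖z‖ < 1 + rr n),
E = exp Λ, ν z = - sum γ k ζ / (1 + h k - z ζ) = deriv Λ.  G is analytic on a ball of radius R in (1, 1 + rr n)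
(the set of points of analyticity is open and contains the compact closed disc: IsCompact.exists_thickening_subset_open, thickening_closedBall).
Let P be a primitive of - G ν / E on ball 0 R with P 0 = 0 (DifferentiableOn.isExactOn_ball, subtract P 0), f = E * P.  Then f' = ν (f - G).
* ray_cmp: for w = τ ex t, 0 ≤ τ ≤ 1, δ = 1 - τ, x = ch (t - y): ‖1 + h - w ζ‖^2 = (h + δ)^2 + (1 + h) τ x^2, so it lies between (h + δ + x)/5 and 2 (h + δ + x)
  (cases τ ≥ 1/2 and τ < 1/2, where x ≤ 2 ≤ 4 δ).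
* log ‖E w‖ = sum γ k log ‖1 + h k - w ζ‖ = Γ (x + δ) + O(2 C log 5), Γ ξ = sum γ k log (h k + ξ).  With λ k = log ((h k + x + δ)/(h k + x)) ≥ 0,
  increasing in k: Γ (x + δ) - Γ x = c 0 λ 0 + sum_{1 ≤ k ≤ n} c k (λ k - λ (k-1)) ≥ λ n / C (abel_pos).
  With X = rr n + x: ‖E z‖/‖E w‖ ≤ 5^(4C) (X/(X + δ))^(1/C), ‖ν w‖ ≤ 10 C/(X + δ).
  P z = ∫_0^1 d/dτ P (τ z) (integral_eq_sub_of_hasDerivAt), and ∫_0^1 X^a (X + δ)^(-1-a) dδ ≤ 1/a.  So ‖f z‖ ≤ K1 M, K1 = 10 C^2 5^(4C).
* (rr n + x) ‖f'‖ ≤ 10 C (K1 + 1) M.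
* For z = ex (y + s), e = ex s ≠ 1: ν z * (I z) = (-I e/(1 - e)) * sum γ k (1 - ta (h k) y z) (one_sub_ta) and the sum equals stp d (n+1) y z for
  d k = c k (k ≤ n), d k = 0 (k > n).  q = -I s e/(1 - e) has ‖q - 1‖ ≤ 3 |s| (numerator (e - 1 - I s) - I s (e - 1), norm ≤ s^2 + |s| x, x ≥ |s|/2).
  So ‖1 - q stp / c j‖ ≤ C (3 rr j * 3 C + 8 gc d (n+1) j) (stp_le, stp_sub) and ε j is this times (K1 + 1) M; gc_sum.
-/

set_option autoImplicit false

namespace Pool.Agent.Work.MP_af796d_an.H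

open MeasureTheory Set Real Metric Filter Topology

lemma ray_cmp {h τ : ℝ} (hh : 0 < h) (hh1 : h ≤ 1) (h0 : 0 ≤ τ) (h1 : τ ≤ 1) (y t : ℝ) :
    (h + (1 - τ) + ch (t - y)) / 5 ≤ ‖(1 : ℂ) + h - (τ : ℂ) * ex t * ex (-y)‖ ∧
      ‖(1 : ℂ) + h - (τ : ℂ) * ex t * ex (-y)‖ ≤ 2 * (h + (1 - τ) + ch (t - y)) := by
  have x0 := ch_nonneg (t - y)
  have x2 := ch_le_two (t - y)
  have e : ‖(1 : ℂ) + h - (τ : ℂ) * ex t * ex (-y)‖ ^ 2 =
      (h + (1 - τ)) ^ 2 + (1 + h) * τ * ch (t - y) ^ 2 := by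
    have n : ‖ex t * ex (-y)‖ ^ 2 = 1 := by rw [Tau_norm, norm_ex, one_pow]
    rw [← Tau_ch, mul_assoc]
    generalize ex t * ex (-y) = z at *
    simp only [Complex.sq_norm, Complex.normSq_apply, Complex.sub_re, Complex.one_re,
      Complex.add_re, Complex.ofReal_re, Complex.ofReal_im, Complex.sub_im, Complex.one_im,
      Complex.add_im, Complex.mul_re, Complex.mul_im] at n ⊢
    linear_combination (τ ^ 2 - (1 + h) * τ) * n
  generalize ch (t - y) = x at *
  have a0 : 0 < h + (1 - τ) := by linarith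
  have p := mul_nonneg a0.le x0
  have q := sq_nonneg x
  refine ⟨le_of_sq_le_sq ?_ (norm_nonneg _), le_of_sq_le_sq ?_ (by positivity)⟩ <;> rw [e]
  · rcases le_total τ (1 / 2) with c | c
    · have : (h + (1 - τ) + x) / 5 ≤ h + (1 - τ) := by linarith only [hh, x2, c]
      exact (pow_le_pow_left₀ (by positivity) this 2).trans (le_add_of_nonneg_right (by positivity))
    · have := mul_le_mul_of_nonneg_right (show 1 / 2 ≤ (1 + h) * τ by linarith only [c, hh, h0, mul_nonneg_of_nonpos_of_nonpos (le_of_lt (Mathlib.Tactic.Linarith.sub_neg_of_lt hh)) (Mathlib.Tactic.Linarith.sub_nonpos_of_le h0)]) q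
      linarith only [this, sq_nonneg (h + (1 - τ) - x), sq_nonneg (h + (1 - τ)), sq_nonneg (h + ((1 : ℝ) - τ)), sq_nonneg (h + ((1 : ℝ) - τ) - x), sq_nonneg x]
  · have := mul_le_mul_of_nonneg_right (show (1 + h) * τ ≤ 2 by linarith only [hh1, h1, hh, mul_nonneg_of_nonpos_of_nonpos (le_of_lt (Mathlib.Tactic.Linarith.sub_neg_of_lt hh)) (Mathlib.Tactic.Linarith.sub_nonpos_of_le h1)]) q
    linarith only [p, this, sq_nonneg (h + (1 - τ)), sq_nonneg (h + ((1 : ℝ) - τ)), sq_nonneg ((2 : ℝ) * (h + ((1 : ℝ) - τ) + x))]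

lemma abel_pos {c lam : ℕ → ℝ} {m : ℝ} (hc : ∀ k, m ≤ c k) (h0 : 0 ≤ lam 0)
    (hl : ∀ k, lam k ≤ lam (k + 1)) (n : ℕ) :
    m * lam n ≤ (∑ k ∈ Finset.range n, (c k - c (k + 1)) * lam k) + c n * lam n := by
  induction n with
  | zero => simpa using mul_le_mul_of_nonneg_right (hc 0) h0
  | succ n ih =>
    rw [Finset.sum_range_succ]
    linarith [mul_le_mul_of_nonneg_right (hc (n + 1)) (sub_nonneg.2 (hl n))]

/-- the logarithm of the integrating factor -/
noncomputable def Ode_L (d : ℕ → ℝ) (n : ℕ) (y : ℝ) (z : ℂ) : ℂ :=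
  ∑ k ∈ Finset.range (n + 1), ((d k - d (k + 1) : ℝ) : ℂ) * Complex.log (1 + rr k - z * ex (-y))

/-- its derivative -/
noncomputable def Ode_n (d : ℕ → ℝ) (n : ℕ) (y : ℝ) (z : ℂ) : ℂ :=
  ∑ k ∈ Finset.range (n + 1), ((d k - d (k + 1) : ℝ) : ℂ) * (-ex (-y) / (1 + rr k - z * ex (-y)))

lemma Ode_der (d : ℕ → ℝ) (n : ℕ) (y : ℝ) {z : ℂ} (hz : ‖z‖ < 1 + rr n) :
    HasDerivAt (Ode_L d n y) (Ode_n d n y z) z ∧ DifferentiableAt ℂ (Ode_n d n y) z := by
  have sl : ∀ k ∈ Finset.range (n + 1), 1 + rr k - z * ex (-y) ∈ Complex.slitPlane := fun k hk => by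
    have a := rr_anti (Finset.mem_range_succ_iff.1 hk)
    have b := (Complex.re_le_norm (z * ex (-y))).trans_eq (Tau_norm y z)
    refine Or.inl ?_
    simp only [Complex.sub_re, Complex.add_re, Complex.one_re, Complex.ofReal_re]
    linarith
  have hd : ∀ k, HasDerivAt (fun z : ℂ => 1 + rr k - z * ex (-y)) (-ex (-y)) z := fun k => by
    simpa using ((hasDerivAt_id z).mul_const (ex (-y))).const_sub (1 + rr k : ℂ)
  exact ⟨HasDerivAt.fun_sum fun k hk => ((hd k).clog (sl k hk)).const_mul _,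
    DifferentiableAt.fun_sum fun k hk => ((differentiableAt_const _).div (hd k).differentiableAt
      (Complex.slitPlane_ne_zero (sl k hk))).const_mul _⟩

lemma Ode_sol {L ν G : ℂ → ℂ} {R : ℝ} (hR : 1 < R) (hL : ∀ z ∈ ball (0 : ℂ) R, HasDerivAt L (ν z) z)
    (hν : DifferentiableOn ℂ ν (ball 0 R)) (hG : DifferentiableOn ℂ G (ball 0 R)) :
    ∃ f : ℂ → ℂ, (∀ z ∈ ball (0 : ℂ) R, HasDerivAt f (ν z * (f z - G z)) z) ∧
      ∀ (z : ℂ) (A a X : ℝ), ‖z‖ = 1 → 0 ≤ A → 0 < a → 0 < X → (∀ τ : ℝ, 0 ≤ τ → τ ≤ 1 →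
        ‖G (τ * z)‖ * ‖ν (τ * z)‖ * Real.exp ((L z).re - (L (τ * z)).re) ≤
          A / (X + (1 - τ)) * Real.exp (a * (Real.log X - Real.log (X + (1 - τ))))) →
        ‖f z‖ ≤ A / a := by
  have hE : ∀ z ∈ ball (0 : ℂ) R, HasDerivAt (fun z => Complex.exp (L z))
    (Complex.exp (L z) * ν z) z := fun z hz => (hL z hz).cexp
  obtain ⟨P, P0, hP⟩ := (DifferentiableOn.isExactOn_ball (f := fun z => -(G z * ν z) /
    Complex.exp (L z)) ((hG.mul hν).neg.div (fun z hz => (hE z hz).differentiableAt.differentiableWithinAt)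
      fun z _ => Complex.exp_ne_zero _)).with_val_at 0 0
  refine ⟨fun z => Complex.exp (L z) * P z, fun z hz => ((hE z hz).mul (hP z hz)).congr_deriv ?_,
    fun z A a X hz hA ha hX h => ?_⟩
  · have := Complex.exp_ne_zero (L z)
    field_simp
    ring
  have d1 : ∀ τ ∈ Icc (0 : ℝ) 1, HasDerivAt (fun τ : ℝ => Complex.exp (L z) * P (τ * z))
      (Complex.exp (L z) * (-(G (τ * z) * ν (τ * z)) / Complex.exp (L (τ * z)) * z)) τ :=
    fun τ hτ => by
      have m : (τ : ℂ) * z ∈ ball (0 : ℂ) R := by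
        rw [mem_ball_zero_iff, norm_mul, hz, mul_one, Complex.norm_of_nonneg hτ.1]
        linarith [hτ.2]
      simpa using (((hP _ m).comp (τ : ℂ) ((hasDerivAt_id (τ : ℂ)).mul_const z)).const_mul
        (Complex.exp (L z))).comp_ofReal
  have d2 : ∀ τ ∈ Icc (0 : ℝ) 1, HasDerivAt
      (fun τ : ℝ => A / a * Real.exp (a * (Real.log X - Real.log (X + (1 - τ)))))
      (A / (X + (1 - τ)) * Real.exp (a * (Real.log X - Real.log (X + (1 - τ))))) τ := fun τ hτ => by
    have p : X + (1 - τ) ≠ 0 := by linarith [hτ.2]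
    refine (((((((hasDerivAt_id τ).const_sub 1).const_add X).log p).const_sub
      (Real.log X)).const_mul a).exp.const_mul (A / a)).congr_deriv ?_
    simp only [id]
    field_simp
  have := image_norm_le_of_norm_deriv_right_le_deriv_boundary'
    (fun τ hτ => (d1 τ hτ).continuousAt.continuousWithinAt)
    (fun τ hτ => (d1 τ (Ico_subset_Icc_self hτ)).hasDerivWithinAt)
    (by simp only [Complex.ofReal_zero, zero_mul, P0, mul_zero, norm_zero]; positivity)
    (fun τ hτ => (d2 τ hτ).continuousAt.continuousWithinAt)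
    (fun τ hτ => (d2 τ (Ico_subset_Icc_self hτ)).hasDerivWithinAt)
    (fun τ hτ => le_trans (le_of_eq (by
      rw [norm_mul, norm_mul, norm_div, norm_neg, norm_mul, hz, Complex.norm_exp, Complex.norm_exp,
        Real.exp_sub]
      ring)) (h τ hτ.1 hτ.2.le)) (right_mem_Icc.2 zero_le_one)
  simpa using this

lemma Ode_nu {d : ℕ → ℝ} {n : ℕ} {V τ : ℝ} (hV : ∑ k ∈ Finset.range (n + 1), |d (k + 1) - d k| ≤ V)
    (h0 : 0 ≤ τ) (h1 : τ ≤ 1) (y t : ℝ) :
    ‖Ode_n d n y (τ * ex t)‖ ≤ 5 * V / (rr n + ch (t - y) + (1 - τ)) := by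
  have x0 := ch_nonneg (t - y)
  have r0 := rr_pos n
  have p : 0 < rr n + ch (t - y) + (1 - τ) := by linarith
  rw [mul_comm 5, mul_div_assoc]
  refine le_trans (norm_sum_le_of_le _ fun k hk => ?_) ((Finset.sum_mul _ _ _).ge.trans
    (mul_le_mul_of_nonneg_right hV (by positivity)))
  rw [norm_mul, Complex.norm_real, Real.norm_eq_abs, abs_sub_comm, norm_div, norm_neg, norm_ex]
  refine mul_le_mul_of_nonneg_left ?_ (abs_nonneg _)
  have a := (ray_cmp (rr_pos k) (rr_le_one k) h0 h1 y t).1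
  have b := rr_anti (Finset.mem_range_succ_iff.1 hk)
  rw [div_le_div_iff₀ (by linarith only [h1, x0, r0, a, b]) p]
  linarith only [a, b]

lemma Ode_re {d : ℕ → ℝ} {n : ℕ} {V τ : ℝ} (hV : ∑ k ∈ Finset.range (n + 1), |d (k + 1) - d k| ≤ V)
    (h0 : 0 ≤ τ) (h1 : τ ≤ 1) (y t : ℝ) :
    |(Ode_L d n y (τ * ex t)).re - ∑ k ∈ Finset.range (n + 1),
      (d k - d (k + 1)) * Real.log (rr k + ch (t - y) + (1 - τ))| ≤ V * Real.log 5 := by
  have x0 := ch_nonneg (t - y)
  rw [Ode_L, Complex.re_sum, ← Finset.sum_sub_distrib]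
  refine ((Finset.abs_sum_le_sum_abs _ _).trans (Finset.sum_le_sum fun k _ => ?_)).trans
    ((Finset.sum_mul _ _ _).ge.trans (mul_le_mul_of_nonneg_right hV (by positivity)))
  rw [Complex.re_ofReal_mul, Complex.log_re, ← mul_sub, abs_mul, abs_sub_comm (d k)]
  refine mul_le_mul_of_nonneg_left ?_ (abs_nonneg _)
  obtain ⟨a, b⟩ := ray_cmp (rr_pos k) (rr_le_one k) h0 h1 y t
  have r0 := rr_pos k
  generalize ‖(1 : ℂ) + rr k - τ * ex t * ex (-y)‖ = N at a b
  have p : 0 < rr k + ch (t - y) + (1 - τ) := by linarith only [h1, x0, r0]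
  have q : 0 < N := by linarith
  have u := Real.log_le_log p (show _ ≤ 5 * N by linarith)
  have v := Real.log_le_log q (show N ≤ 5 * (rr k + ch (t - y) + (1 - τ)) by linarith only [h1, x0, r0, b])
  rw [Real.log_mul (by norm_num) q.ne'] at u
  rw [Real.log_mul (by norm_num) p.ne'] at v
  exact abs_le.2 ⟨by linarith, by linarith⟩

lemma Ode_lam {x δ : ℝ} (hx : 0 ≤ x) (hδ : 0 ≤ δ) {a b : ℝ} (ha : 0 < a) (hab : a ≤ b) :
    Real.log (b + x + δ) - Real.log (b + x) ≤ Real.log (a + x + δ) - Real.log (a + x) := by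
  have hb := ha.trans_le hab
  rw [← Real.log_div (by positivity) (by positivity), ← Real.log_div (by positivity) (by positivity)]
  refine Real.log_le_log (by positivity) ?_
  rw [div_le_div_iff₀ (by positivity) (by positivity)]
  linarith only [hab, hδ, mul_le_mul_of_nonneg_left hab hδ]

lemma Ode_q {s : ℝ} (h0 : 0 < |s|) (h1 : |s| ≤ 1) :
    ex s ≠ 1 ∧ ‖-(Complex.I * s * ex s) / (1 - ex s) - 1‖ ≤ 3 * |s| := by
  have x := le_ch' (h1.trans (by linarith [pi_gt_three]))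
  have n : 1 - ex s ≠ 0 := norm_pos_iff.1 (by rw [norm_sub_rev]; exact lt_of_lt_of_le (by linarith only [h0]) x)
  have i : ‖Complex.I * s‖ = |s| := by simp
  have a : ‖ex s - 1 - Complex.I * s‖ ≤ |s| ^ 2 := i ▸ Complex.norm_exp_sub_one_sub_id_le (i ▸ h1)
  refine ⟨fun e => n (by rw [e, sub_self]), ?_⟩
  have e : -(Complex.I * s * ex s) / (1 - ex s) - 1 =
      ((ex s - 1 - Complex.I * s) - Complex.I * s * (ex s - 1)) / (1 - ex s) := by
    field_simp
    ring
  have b := norm_sub_le (ex s - 1 - Complex.I * s) (Complex.I * s * (ex s - 1))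
  rw [norm_mul, i] at b
  rw [e, norm_div, norm_sub_rev 1, div_le_iff₀ (by rw [norm_sub_rev]; exact norm_pos_iff.2 n)]
  unfold ch at x
  linarith only [a, b, x, h0, mul_le_mul_of_nonneg_left x h0.le]

lemma Ode_stp {d : ℕ → ℝ} {n : ℕ} (hd : d (n + 1) = 0) (y : ℝ) {s : ℝ} (hs : ex s ≠ 1) :
    Ode_n d n y (ex (y + s)) * (Complex.I * ex (y + s)) * s =
      -(Complex.I * s * ex s) / (1 - ex s) * stp d (n + 1) y (ex (y + s)) := by
  have e : ex (y + s) * ex (-y) = ex s := by rw [← ex_add]; congr 1; ring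
  have e1 : stp d (n + 1) y (ex (y + s)) = ∑ k ∈ Finset.range (n + 1),
      ((d k - d (k + 1) : ℝ) : ℂ) * (1 - ta (rr k) y (ex (y + s))) := by
    simp only [mul_sub, mul_one, Finset.sum_sub_distrib]
    rw [← Complex.ofReal_sum, Finset.sum_range_sub', hd, sub_zero, stp, sub_eq_add_neg,
      ← Finset.sum_neg_distrib]
    exact congrArg _ (Finset.sum_congr rfl fun k _ => by push_cast; ring)
  rw [e1, Ode_n, Finset.sum_mul, Finset.sum_mul, Finset.mul_sum]
  refine Finset.sum_congr rfl fun k _ => ?_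
  have n1 := Tau_ne (rr_pos k) y (norm_ex (y + s)).le
  have n2 := sub_ne_zero.2 hs.symm
  rw [one_sub_ta (rr_pos k) y (norm_ex _).le]
  rw [e] at n1 ⊢
  field_simp
  rw [← e]
  ring

lemma Ode_rr (n : ℕ) : ∑ j ∈ Finset.range n, rr j = 2 - 2 * rr n := by
  induction n with
  | zero => simp [rr_zero]
  | succ n ih => rw [Finset.sum_range_succ, ih, rr_succ]; ring

theorem ode (C : ℝ) : ∃ K : ℝ, 0 ≤ K ∧ ∀ c : ℕ → ℝ, CS c C → ∀ (n : ℕ) (y : ℝ) (G : ℂ → ℂ) (M : ℝ),
    AnalyticOnNhd ℂ G (closedBall 0 1) → (∀ z : ℂ, ‖z‖ ≤ 1 → ‖G z‖ ≤ M) →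
    ∃ f : ℂ → ℂ, AnalyticOnNhd ℂ f (closedBall 0 1) ∧ (∀ t, ‖f (ex t)‖ ≤ K * M) ∧
      (∀ t, (rr n + ch (t - y)) * ‖deriv f (ex t)‖ ≤ K * M) ∧
      ∃ ε : ℕ → ℝ, ∑ j ∈ Finset.range n, ε j ≤ K * M ∧
        ∀ j, j < n → ∀ s, rr (j + 1) ≤ |s| → |s| ≤ rr j →
          ‖(f (ex (y + s)) - G (ex (y + s))) -
            deriv f (ex (y + s)) * (Complex.I * ex (y + s)) * s / c j‖ ≤ ε j := by
  by_cases hC : 1 ≤ C
  swap
  · exact ⟨0, le_rfl, fun c hc => absurd hc.one hC⟩
  have C0 : 0 < C := by linarith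
  obtain ⟨K, K0, hK⟩ : ∃ K : ℝ, 0 ≤ K ∧ 10 * C * Real.exp (4 * C * Real.log 5) * C = K :=
    ⟨_, by positivity, rfl⟩
  refine ⟨66 * C ^ 2 * (K + 1), by positivity, fun c hc n y G M hG hM => ?_⟩
  have M0 : 0 ≤ M := (norm_nonneg _).trans (hM 0 (by simp))
  have c0 : ∀ k, 0 < c k := fun k => (one_div_pos.2 C0).trans_le (hc.lo k)
  obtain ⟨d, d1, d2⟩ : ∃ d : ℕ → ℝ, (∀ k ≤ n, d k = c k) ∧ d (n + 1) = 0 :=
    ⟨fun k => if k ≤ n then c k else 0, fun k hk => if_pos hk, if_neg (by omega)⟩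
  have hV : ∑ k ∈ Finset.range (n + 1), |d (k + 1) - d k| ≤ 2 * C := by
    rw [Finset.sum_range_succ, d2, d1 n le_rfl, zero_sub, abs_neg, abs_of_pos (c0 n),
      Finset.sum_congr rfl fun k hk => by
        rw [d1 k (Finset.mem_range.1 hk).le, d1 (k + 1) (Finset.mem_range.1 hk)]]
    linarith [hc.bv n, hc.hi n]
  have hs : ∀ l : ℕ → ℝ, ∑ k ∈ Finset.range (n + 1), (d k - d (k + 1)) * l k =
      ∑ k ∈ Finset.range n, (c k - c (k + 1)) * l k + c n * l n := fun l => by
    rw [Finset.sum_range_succ, d2, d1 n le_rfl, sub_zero, Finset.sum_congr rfl fun k hk => by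
      rw [d1 k (Finset.mem_range.1 hk).le, d1 (k + 1) (Finset.mem_range.1 hk)]]
  obtain ⟨δ, δ0, hδ⟩ := (isCompact_closedBall (0 : ℂ) 1).exists_thickening_subset_open
    (isOpen_analyticAt ℂ G) hG
  rw [thickening_closedBall δ0 zero_le_one] at hδ
  have R1 : 1 < min δ (rr n) + 1 := by linarith [lt_min δ0 (rr_pos n)]
  have hd : ∀ z ∈ ball (0 : ℂ) (min δ (rr n) + 1), _ := fun z hz => Ode_der d n y (z := z)
    (by linarith [mem_ball_zero_iff.1 hz, min_le_right δ (rr n)])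
  obtain ⟨f, f1, f2⟩ := Ode_sol R1 (fun z hz => (hd z hz).1)
    (fun z hz => (hd z hz).2.differentiableWithinAt) (G := G) fun z hz =>
      (AnalyticAt.differentiableAt (hδ (ball_subset_ball (by linarith [min_le_left δ (rr n)])
        hz))).differentiableWithinAt
  have X0 : ∀ t, 0 < rr n + ch (t - y) := fun t => by linarith [rr_pos n, ch_nonneg (t - y)]
  have b1 : ∀ t, ‖f (ex t)‖ ≤ K * M := fun t => by
    refine (f2 _ (10 * C * Real.exp (4 * C * Real.log 5) * M) (1 / C) _ (norm_ex t) (by positivity)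
      (by positivity) (X0 t) fun τ h0 h1 => ?_).trans_eq (by rw [← hK]; field_simp)
    have a1 := abs_le.1 (Ode_re hV h0 h1 y t)
    have a2 := abs_le.1 (Ode_re hV zero_le_one le_rfl y t)
    have a3 := abel_pos (lam := fun k => Real.log (rr k + ch (t - y) + (1 - τ)) -
      Real.log (rr k + ch (t - y))) hc.lo
      (sub_nonneg.2 (Real.log_le_log (by linarith [rr_pos 0, ch_nonneg (t - y)]) (by linarith)))
      (fun k => Ode_lam (ch_nonneg _) (by linarith) (rr_pos _) (rr_succ_le k)) n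
    rw [← hs fun k => Real.log (rr k + ch (t - y) + (1 - τ)) - Real.log (rr k + ch (t - y))] at a3
    simp only [mul_sub _ (Real.log _), Finset.sum_sub_distrib, Complex.ofReal_one, one_mul,
      sub_self, add_zero] at a2 a3
    have a4 : Real.exp ((Ode_L d n y (ex t)).re - (Ode_L d n y (τ * ex t)).re) ≤
        Real.exp (4 * C * Real.log 5) * Real.exp (1 / C * (Real.log (rr n + ch (t - y)) -
          Real.log (rr n + ch (t - y) + (1 - τ)))) := by
      rw [← Real.exp_add]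
      exact Real.exp_le_exp.2 (by linarith only [a1, a2, a3, a1.1, a2.2])
    have a5 := hM (τ * ex t) (by rwa [norm_mul, norm_ex, mul_one, Complex.norm_of_nonneg h0])
    have a6 : 0 < rr n + ch (t - y) + (1 - τ) := by linarith only [h1, X0, X0 t]
    exact (mul_le_mul (mul_le_mul a5 (Ode_nu hV h0 h1 y t) (norm_nonneg _) M0) a4 (by positivity)
      (by positivity)).trans_eq (by ring)
  have b2 : ∀ t, ‖f (ex t) - G (ex t)‖ ≤ (K + 1) * M := fun t => by
    linarith [norm_sub_le (f (ex t)) (G (ex t)), b1 t, hM _ (norm_ex t).le]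
  have b3 : ∀ t, deriv f (ex t) = Ode_n d n y (ex t) * (f (ex t) - G (ex t)) := fun t =>
    (f1 _ (by rw [mem_ball_zero_iff, norm_ex]; exact R1)).deriv
  have k1 : C ≤ C ^ 2 := by linarith only [hC, mul_nonneg_of_nonpos_of_nonpos (Mathlib.Tactic.Linarith.sub_nonpos_of_le hC) (Mathlib.Tactic.Linarith.sub_nonpos_of_le hC)]
  have k2 := mul_le_mul_of_nonneg_right k1 (show 0 ≤ (K + 1) * M by positivity)
  have k3 := mul_le_mul_of_nonneg_right hC (show 0 ≤ (K + 1) * M by positivity)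
  have k4 : 0 ≤ (K + 1) * M := by positivity
  refine ⟨f, (DifferentiableOn.analyticOnNhd (fun z hz =>
      (f1 z hz).differentiableAt.differentiableWithinAt) isOpen_ball).mono
      (closedBall_subset_ball R1), fun t => by linarith only [M0, k2, k3, k4, b1, b1 t], fun t => ?_,
    fun j => (K + 1) * M * (C * (8 * gc d (n + 1) j + 9 * C * rr j)), ?_, fun j hj s h1 h2 => ?_⟩
  · have a := Ode_nu hV zero_le_one le_rfl y t
    rw [Complex.ofReal_one, one_mul, sub_self, add_zero, le_div_iff₀' (X0 t)] at a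
    rw [b3, norm_mul, ← mul_assoc]
    linarith only [k2, k3, k4, a, b2, hC, mul_le_mul a (b2 t) (norm_nonneg _) (by positivity)]
  · rw [← Finset.mul_sum, ← Finset.mul_sum, Finset.sum_add_distrib, ← Finset.mul_sum,
      ← Finset.mul_sum, Ode_rr]
    have a : 8 * ∑ j ∈ Finset.range n, gc d (n + 1) j + 9 * C * (2 - 2 * rr n) ≤ 66 * C := by
      linarith only [hV, C0, gc_sum d (n + 1) n, mul_pos C0 (rr_pos n)]
    exact (mul_le_mul_of_nonneg_left (mul_le_mul_of_nonneg_left a C0.le) k4).trans_eq (by ring)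
  · obtain ⟨q1, q2⟩ := Ode_q ((rr_pos _).trans_le h1) (h2.trans (rr_le_one j))
    have q3 := stp_sub d (n := n + 1) (by omega : j ≤ n + 1) y h1 h2
    have q4 := stp_le d (n + 1) y (norm_ex (y + s)).le
    have q5 := Ode_stp d2 y q1
    rw [d1 j hj.le] at q3
    rw [d1 0 (Nat.zero_le n), abs_of_pos (c0 0)] at q4
    have cj : (c j : ℂ) ≠ 0 := Complex.ofReal_ne_zero.2 (c0 j).ne'
    generalize -(Complex.I * s * ex s) / (1 - ex s) = q at q2 q5
    generalize stp d (n + 1) y (ex (y + s)) = S at q3 q4 q5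
    have e : f (ex (y + s)) - G (ex (y + s)) - deriv f (ex (y + s)) * (Complex.I * ex (y + s)) * s /
        c j = (f (ex (y + s)) - G (ex (y + s))) * (-((S - c j) + (q - 1) * S) / c j) := by
      rw [b3, mul_comm (Ode_n _ _ _ _), mul_assoc, mul_assoc, ← mul_assoc (Ode_n _ _ _ _), q5]
      field_simp
      ring
    rw [e, norm_mul, norm_div, norm_neg, Complex.norm_of_nonneg (c0 j).le]
    refine mul_le_mul (b2 _) ?_ (by positivity [c0 j]) k4
    have a1 := norm_add_le (S - c j) ((q - 1) * S)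
    have a2 : ‖q - 1‖ * ‖S‖ ≤ 3 * rr j * (3 * C) :=
      mul_le_mul (by linarith only [h2, q2]) (by linarith only [hV, q4, hc, hc.hi 0]) (norm_nonneg _) (by positivity [rr_pos j])
    rw [norm_mul] at a1
    rw [div_eq_inv_mul]
    exact mul_le_mul (by rw [inv_le_comm₀ (c0 j) C0, ← one_div]; exact hc.lo j) (by linarith only [q3, a1, a2])
      (norm_nonneg _) C0.le

end Pool.Agent.Work.MP_af796d_an.H
end

-- merged part: Pool.Agent.Work.MP_af796d_an.H.HubS
section
/-!
# The hub condition gives the a priori bound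
PLAN.  Fix G, M, y and c from WSy (CS c C is a field of WS1).  If M = 0 then wg G = 0 (hasDerivAt_wg, Re G (ex t) = 0).  Let M > 0, B a bound of |wg G|,
n with rr n * B ≤ M, f from ode with constant K.  star0 with φ s = wg f (y+s), f_ s = Re f (ex (y+s)), γ s = wg f (y+s) - wg G (y+s),
Γ s = Re (f - G) (ex (y+s)), constant (2 K + 1) M (|wg f t| ≤ ‖deriv f (ex t)‖, |s| ≤ 2 ch s).  The ℓ terms with wg f cancel, leaving
∫ φ b + ∫ φ lg - ∫ wg G (y+s) ℓ s.  HB (K0 may be replaced by |K0|) and bb_id (‖f‖ ≤ K M on the disc by norm_le_of_sphere) bound the first two;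
shift_int converts the intervals; integrability from St.ui, intervalIntegrable_lg, AI.ii.
-/

set_option autoImplicit false

namespace Pool.Agent.Work.MP_af796d_an.H

open MeasureTheory Set Real Metric Filter Topology

lemma HubS_wg (g : ℂ → ℂ) (t : ℝ) : |wg g t| ≤ ‖deriv g (ex t)‖ := by
  refine (Complex.abs_re_le_norm _).trans_eq ?_
  rw [norm_mul, norm_mul, Complex.norm_I, norm_ex, mul_one, mul_one]

lemma HubS_split {Φ b : ℝ → ℝ} {C : ℝ} (h : St Φ b C) (y : ℝ) {u w : ℝ → ℝ} (hu : Continuous u)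
    (hw : Continuous w) (pu : Function.Periodic u (2 * π)) (pw : Function.Periodic w (2 * π)) :
    (∫ s in (-π)..π, u (y + s) * (b (y + s) - lg (Φ (y + s) - Φ y) + lg s)) +
      ∫ s in (-π)..π, (u (y + s) - w (y + s)) * lg (Φ (y + s) - Φ y) =
      (∫ t in (0 : ℝ)..(2 * π), u t * b t) + (∫ t in y..(y + 2 * π), lg (t - y) * u t) -
        ∫ t in y..(y + 2 * π), lg (Φ t - Φ y) * w t := by
  have i1 : IntervalIntegrable (fun s => b (y + s)) volume (-π) π := by
    simpa using (h.ai.ii (y + -π) (y + π)).comp_add_left y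
  have i2 : IntervalIntegrable (fun s => lg (Φ (y + s) - Φ y)) volume (-π) π := by
    simpa using (h.ui.1 y (y + -π) (y + π)).comp_add_left y
  have i3 := intervalIntegrable_lg (-π) π
  have c1 : ContinuousOn (fun s => u (y + s)) (uIcc (-π) π) := by fun_prop
  have c2 : ContinuousOn (fun s => w (y + s)) (uIcc (-π) π) := by fun_prop
  have e1 := shift_int (F := fun t => u t * b t) (pu.mul h.per) y 0
  have e2 := shift_int (F := fun t => lg (t - y) * u t) ((good_id.lg_periodic y).mul pu) y y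
  have e3 := shift_int (F := fun t => lg (Φ t - Φ y) * w t) ((h.good.lg_periodic y).mul pw) y y
  rw [zero_add] at e1
  simp only [add_sub_cancel_left] at e2
  rw [← e1, ← e2, ← e3, ← intervalIntegral.integral_add (((i1.sub i2).add i3).continuousOn_mul c1)
    (i2.continuousOn_mul (c1.fun_sub c2)),
    ← intervalIntegral.integral_add (i1.continuousOn_mul c1) (i3.mul_continuousOn c1),
    ← intervalIntegral.integral_sub ((i1.continuousOn_mul c1).add (i3.mul_continuousOn c1))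
      (i2.mul_continuousOn c2)]
  exact intervalIntegral.integral_congr fun s _ => by ring



theorem bb_of_hb {Φ b : ℝ → ℝ} {C K₀ : ℝ} (h : St Φ b C) (hW : ∀ y, ∃ c, WSy b y c C)
    (hB : HB b K₀) : ∃ K, BB Φ K := by
  obtain ⟨K, K0, hK⟩ := ode C
  obtain ⟨K1, K10, hK1⟩ := star0 C
  refine ⟨K1 * (2 * K + 1 + K) + |K₀| * K + 2 * π * K, fun G hG M hM y => ?_⟩
  rcases ((norm_nonneg _).trans (hM 0 (by simp))).eq_or_lt with M0 | M0
  · have z : ∀ t, wg G t = 0 := fun t => by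
      have e : (fun t => (G (ex t)).re) = fun _ => 0 := funext fun t => by
        rw [norm_le_zero_iff.1 ((hM _ (norm_ex t).le).trans M0.ge), Complex.zero_re]
      exact (hasDerivAt_wg hG t).unique (e ▸ hasDerivAt_const t 0)
    simp [z, ← M0]
  obtain ⟨c, hc⟩ := hW y
  obtain ⟨B, hB'⟩ := exists_bound_wg hG
  obtain ⟨n, hn⟩ : ∃ n, rr n * B ≤ M := by
    have := tendsto_rr.mul_const B
    rw [zero_mul] at this
    exact (this.eventually (ge_mem_nhds M0)).exists
  obtain ⟨f, f1, f2, f3, ε, e1, e2⟩ := hK c hc.choose_spec.choose_spec.1.cs n y G M hG hM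
  have KM : 0 ≤ K * M := by positivity
  have cf := continuous_wg f1
  have cG := continuous_wg hG
  have rn := rr_pos n
  have g1 : ∀ t, ch (t - y) * ‖deriv f (ex t)‖ ≤ K * M := fun t =>
    (mul_le_mul_of_nonneg_right (by linarith) (norm_nonneg _)).trans (f3 t)
  have g2 : ∀ t, rr n * |wg f t| ≤ K * M := fun t =>
    (mul_le_mul (by linarith [ch_nonneg (t - y)]) (HubS_wg f t) (abs_nonneg _)
      (by linarith [ch_nonneg (t - y)])).trans (f3 t)
  have g3 : ∀ t, |(f (ex t)).re| ≤ K * M := fun t => (Complex.abs_re_le_norm _).trans (f2 t)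
  have s := hK1 Φ b y c h hc n (fun s => wg f (y + s)) (fun s => wg f (y + s) - wg G (y + s))
    (fun s => (f (ex (y + s))).re) (fun s => (f (ex (y + s))).re - (G (ex (y + s))).re) ε
    ((2 * K + 1) * M) (by fun_prop) (by fun_prop)
    (fun s => (hasDerivAt_wg f1 _).comp_const_add y s)
    (fun s => ((hasDerivAt_wg f1 _).comp_const_add y s).sub
      ((hasDerivAt_wg hG _).comp_const_add y s))
    (fun s => by linarith [g3 (y + s)])
    (fun s => (abs_sub _ _).trans (by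
      linarith [g3 (y + s), (Complex.abs_re_le_norm _).trans (hM _ (norm_ex (y + s)).le)]))
    (fun s hs => by
      have a := g1 (y + s)
      rw [add_sub_cancel_left] at a
      have := mul_le_mul (le_ch' hs) (HubS_wg f (y + s)) (abs_nonneg _) (ch_nonneg _)
      linarith only [M0, a, this])
    (fun s _ => by linarith [g2 (y + s)])
    (fun s _ => (mul_le_mul_of_nonneg_left (abs_sub _ _) rn.le).trans (by
      linarith [g2 (y + s), mul_le_mul_of_nonneg_left (hB' (y + s)) rn.le]))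
    fun j hj s h1 h2 => by
      refine le_trans (le_of_eq ?_) ((Complex.abs_re_le_norm _).trans (e2 j hj s h1.le h2))
      rw [Complex.sub_re, Complex.sub_re, Complex.div_ofReal_re, Complex.re_mul_ofReal, wg]
  rw [HubS_split h y cf cG (wg_periodic f) (wg_periodic G)] at s
  have t1 := (hB y f _ f1 f2 g1).trans (mul_le_mul_of_nonneg_right (le_abs_self K₀) KM)
  have t2 := bb_id f f1 _ (fun z hz => norm_le_of_sphere (diffContOnCl_of_analytic f1)
    (fun w hw => by
      obtain ⟨t, rfl⟩ := exists_ex_of_norm hw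
      exact f2 t) hz) y
  simp only [id] at t2
  have t3 := mul_le_mul_of_nonneg_left (add_le_add_right e1 ((2 * K + 1) * M)) K10
  rw [abs_le] at s t1 t2 ⊢
  constructor <;> linarith only [s, t1, t2, t3, s.1, s.2, t1.1, t1.2, t2.1, t2.2]

end Pool.Agent.Work.MP_af796d_an.H
end

-- merged part: Pool.Agent.Work.MP_af796d_an.H.KerB
section
/-!
# Size of the kernels and the convolution estimate
PLAN.  Put x = ch s, σ = 1 + n x.
* aN: ‖aN n s‖ ≤ 1 and (ex s - 1) * sum_{m<n} ex (m s) = ex (n s) - 1 (geometric sum, ex (m s) = ex s ^ m), so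
  n x ‖aN n s‖ ≤ 2 and σ ‖aN n s‖ ≤ 3.  ‖deriv (aN n) s‖ ≤ n.  The same for s ↦ aN n (-s) (ch_neg).
* dN: norm ≤ 2N + 1 ≤ 85 n, derivative ≤ N (2N + 1) ≤ 42 * 85 n^2.
* B = (aN s * aN (-s))^14: ‖B‖ ≤ (3/σ)^28, ‖B'‖ ≤ 14 (3/σ)^26 * 2 n (3/σ).  Keep the constant existential
  (or write 3^28 without evaluating).  1/σ^28 ≤ 1/σ^26 as σ ≥ 1.
* int_decay: ch s ≥ |s|/2 on [-π, π] (le_ch'), n/(1 + n |s|/2)^2 has primitive on [0, π] equal to -2/(1 + n s/2); total ≤ 4.
* cv_bound: n = 2^k = 1 / rr k.  cv V φ t - φ t = (1/2π) ∫ V s (φ (t - s) - φ t) by integral_Ker.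
  deriv_cv: cv V φ t = (1/2π) ∫ u in -π..π, V (t - u) φ u (substitution and periodicity), differentiate under the
  integral (intervalIntegral.hasDerivAt_integral_of_dominated_loc_of_deriv_le, deriv V continuous and periodic so bounded),
  substitute back.  Alternatively prove deriv_cv by span induction on V in Sp a c (both sides are linear in V and explicit
  for V = e m).  ∫ deriv V = V π - V (-π) = 0.  Then σ^24 / σ^26 = 1/σ^2 and int_decay.
-/

set_option autoImplicit false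

namespace Pool.Agent.Work.MP_af796d_an.H

open MeasureTheory Set Real Metric Filter Topology

lemma KerB_hd_ex (c s : ℝ) :
    HasDerivAt (fun t : ℝ => ex (c * t)) ((c : ℂ) * (Complex.I * ex (c * s))) s := by
  have h := (hasDerivAt_ex (c * s)).scomp s ((hasDerivAt_id s).const_mul c)
  simpa [Function.comp_def] using h

lemma KerB_norm_d (c s : ℝ) : ‖(c : ℂ) * (Complex.I * ex (c * s))‖ = |c| := by
  rw [norm_mul, norm_mul, norm_ex, Complex.norm_I, Complex.norm_real, Real.norm_eq_abs]; ring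

lemma KerB_ex_pow (m : ℕ) (s : ℝ) : ex (m * s) = ex s ^ m := by
  induction m with
  | zero => simp [ex_zero]
  | succ m ih => rw [pow_succ, ← ih, ← ex_add]; congr 1; push_cast; ring

lemma KerB_aN_le_one {n : ℕ} (hn : 1 ≤ n) (s : ℝ) : ‖aN n s‖ ≤ 1 := by
  have hn' : (0 : ℝ) < n := by exact_mod_cast hn
  rw [aN, norm_div, Complex.norm_natCast, div_le_one hn']
  refine (norm_sum_le _ _).trans ?_
  simp [norm_ex]

lemma KerB_aN_le {n : ℕ} (hn : 1 ≤ n) (s : ℝ) : ‖aN n s‖ ≤ 3 / (1 + n * ch s) := by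
  have hn' : (0 : ℝ) < n := by exact_mod_cast hn
  have hc := ch_nonneg s
  have h1 := KerB_aN_le_one hn s
  have h2 : (∑ m ∈ Finset.range n, ex (m * s)) * (ex s - 1) = ex s ^ n - 1 := by
    simp only [KerB_ex_pow]
    exact geom_sum_mul _ _
  have h3 : ‖ex s ^ n - 1‖ ≤ 2 := by
    refine (norm_sub_le _ _).trans ?_
    rw [norm_pow, norm_ex, one_pow, norm_one]; norm_num
  have h4 : ‖aN n s‖ * (n * ch s) ≤ 2 := by
    rw [← h2, norm_mul] at h3
    rw [aN, norm_div, Complex.norm_natCast, ← mul_assoc, div_mul_cancel₀ _ hn'.ne']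
    exact h3
  rw [le_div_iff₀ (by positivity)]
  linarith only [h1, h4]

lemma KerB_aN_d {n : ℕ} (hn : 1 ≤ n) (s : ℝ) :
    ∃ d : ℂ, HasDerivAt (aN n) d s ∧ ‖d‖ ≤ n := by
  have hn' : (0 : ℝ) < n := by exact_mod_cast hn
  refine ⟨(∑ m ∈ Finset.range n, (((m : ℝ) : ℂ) * (Complex.I * ex ((m : ℝ) * s)))) / n, ?_, ?_⟩
  · exact (HasDerivAt.fun_sum (u := Finset.range n)
      fun (m : ℕ) _ => KerB_hd_ex (m : ℝ) s).div_const (n : ℂ)
  · rw [norm_div, Complex.norm_natCast, div_le_iff₀ hn']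
    refine (norm_sum_le _ _).trans ?_
    refine (Finset.sum_le_card_nsmul _ _ (n : ℝ) fun m hm => ?_).trans ?_
    · rw [KerB_norm_d, abs_of_nonneg (Nat.cast_nonneg m)]
      exact_mod_cast (Finset.mem_range.1 hm).le
    · simp

lemma KerB_card (N : ℕ) : ((Finset.Icc (-(N : ℤ)) N).card : ℝ) = 2 * N + 1 := by
  have : (Finset.Icc (-(N : ℤ)) N).card = 2 * N + 1 := by
    rw [Int.card_Icc]; omega
  rw [this]; push_cast; ring

lemma KerB_dN_le (N : ℕ) (s : ℝ) : ‖dN N s‖ ≤ 2 * N + 1 := by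
  rw [dN, ← KerB_card]
  refine (norm_sum_le _ _).trans ?_
  simp [norm_ex]

lemma KerB_dN_d (N : ℕ) (s : ℝ) :
    ∃ d : ℂ, HasDerivAt (dN N) d s ∧ ‖d‖ ≤ (2 * N + 1) * N := by
  refine ⟨∑ m ∈ Finset.Icc (-(N : ℤ)) N, (((m : ℝ) : ℂ) * (Complex.I * ex ((m : ℝ) * s))), ?_, ?_⟩
  · exact HasDerivAt.fun_sum fun m _ => KerB_hd_ex (m : ℝ) s
  · refine (norm_sum_le _ _).trans ?_
    refine (Finset.sum_le_card_nsmul _ _ (N : ℝ) fun m hm => ?_).trans ?_
    · rw [KerB_norm_d]
      have := Finset.mem_Icc.1 hm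
      have h : |m| ≤ (N : ℤ) := abs_le.2 this
      exact_mod_cast h
    · rw [nsmul_eq_mul, KerB_card]

theorem ker_bound : ∃ K : ℝ, 0 ≤ K ∧ ∀ N n : ℕ, 1 ≤ n → N ≤ 42 * n → ∀ s : ℝ,
    ‖Ker N n s‖ ≤ K * n / (1 + n * ch s) ^ 26 ∧
      ‖deriv (Ker N n) s‖ ≤ K * n ^ 2 / (1 + n * ch s) ^ 26 := by
  refine ⟨85 * 70 * 3 ^ 26, by positivity, fun N n hn hN s => ?_⟩
  have hn1 : (1 : ℝ) ≤ n := by exact_mod_cast hn
  have hN' : (N : ℝ) ≤ 42 * n := by exact_mod_cast hN
  have hN0 : (0 : ℝ) ≤ N := Nat.cast_nonneg N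
  have hc := ch_nonneg s
  have hσ : 0 < 1 + n * ch s := by positivity
  obtain ⟨d1, hd1, hb1⟩ := KerB_aN_d hn s
  obtain ⟨d2, hd2, hb2⟩ := KerB_aN_d hn (-s)
  obtain ⟨d3, hd3, hb3⟩ := KerB_dN_d N s
  have hd2' : HasDerivAt (fun t : ℝ => aN n (-t)) (-d2) s := by
    have h := hd2.scomp s (hasDerivAt_neg s)
    simpa [Function.comp_def] using h
  have a1 := KerB_aN_le_one hn s
  have a2 := KerB_aN_le_one hn (-s)
  have b1 := KerB_aN_le hn s
  have b2 := KerB_aN_le hn (-s)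
  rw [ch_neg] at b2
  have c1 := KerB_dN_le N s
  have c2 : ‖dN N s‖ ≤ 85 * n := by linarith only [hn1, hN', c1]
  have c3 : ‖d3‖ ≤ 85 * n * (42 * n) :=
    hb3.trans (mul_le_mul (by linarith only [hn1, hN']) hN' hN0 (by positivity))
  set q : ℝ := 3 / (1 + n * ch s) with hq
  have hq0 : 0 ≤ q := by positivity
  have p1 : ‖aN n s * aN n (-s)‖ ≤ 1 := by
    rw [norm_mul]; exact mul_le_one₀ a1 (norm_nonneg _) a2
  have p2 : ‖aN n s * aN n (-s)‖ ≤ q ^ 2 := by
    rw [norm_mul, pow_two]; exact mul_le_mul b1 b2 (norm_nonneg _) hq0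
  have p3 : ‖(aN n s * aN n (-s)) ^ 13‖ ≤ q ^ 26 := by
    rw [norm_pow, show q ^ 26 = (q ^ 2) ^ 13 by ring]
    exact pow_le_pow_left₀ (norm_nonneg _) p2 13
  have p4 : ‖(aN n s * aN n (-s)) ^ 14‖ ≤ q ^ 26 := by
    rw [pow_succ, norm_mul]
    exact (mul_le_of_le_one_right (norm_nonneg _) p1).trans p3
  have p5 : ‖d1 * aN n (-s) + aN n s * -d2‖ ≤ 2 * n := by
    refine (norm_add_le _ _).trans ?_
    rw [norm_mul, norm_mul, norm_neg]
    have e1 := mul_le_mul hb1 a2 (norm_nonneg _) (by positivity)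
    have e2 := mul_le_mul a1 hb2 (norm_nonneg _) (by positivity)
    linarith only [e1, e2]
  have hq26 : q ^ 26 = 3 ^ 26 / (1 + n * ch s) ^ 26 := by rw [hq, div_pow]
  have hq1 : 0 ≤ q ^ 26 := by positivity
  have hK : HasDerivAt (Ker N n) (d3 * (aN n s * aN n (-s)) ^ 14 + dN N s *
      ((14 : ℕ) * (aN n s * aN n (-s)) ^ (14 - 1) * (d1 * aN n (-s) + aN n s * -d2))) s :=
    hd3.mul ((hd1.mul hd2').pow 14)
  have e1 : (85 * 70 * 3 ^ 26 : ℝ) * n / (1 + n * ch s) ^ 26 = 85 * 70 * n * q ^ 26 := by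
    rw [hq26]; generalize (3 : ℝ) ^ 26 = w; ring
  have e2 : (85 * 70 * 3 ^ 26 : ℝ) * n ^ 2 / (1 + n * ch s) ^ 26 = 85 * 70 * n ^ 2 * q ^ 26 := by
    rw [hq26]; generalize (3 : ℝ) ^ 26 = w; ring
  rw [e1, e2, hK.deriv]
  generalize q ^ 26 = w at p3 p4 hq1 ⊢
  constructor
  · rw [Ker, norm_mul]
    have := mul_le_mul c2 p4 (norm_nonneg _) (by positivity)
    have h2 : 0 ≤ (n : ℝ) * w := by positivity
    linarith only [this, h2]
  · refine (norm_add_le _ _).trans ?_
    rw [norm_mul, norm_mul, norm_mul, norm_mul, Complex.norm_natCast]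
    have f1 := mul_le_mul c3 p4 (norm_nonneg _) (by positivity)
    have f2 : ((14 : ℕ) : ℝ) * ‖(aN n s * aN n (-s)) ^ (14 - 1)‖ *
        ‖d1 * aN n (-s) + aN n s * -d2‖ ≤ 14 * w * (2 * n) :=
      mul_le_mul (mul_le_mul (by norm_num) p3 (norm_nonneg _) (by norm_num)) p5 (norm_nonneg _)
        (by positivity)
    have f3 := mul_le_mul c2 f2 (by positivity) (by positivity)
    calc _ ≤ 85 * n * (42 * n) * w + 85 * n * (14 * w * (2 * n)) := add_le_add f1 f3
      _ = _ := by ring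

lemma KerB_cont {n : ℝ} (hn : 0 ≤ n) : Continuous fun s => n / (1 + n * ch s) ^ 2 := by
  refine continuous_const.div (by fun_prop) fun s => ?_
  have := ch_nonneg s
  positivity

lemma KerB_half {n : ℝ} (hn : 0 ≤ n) : ∫ s in (0 : ℝ)..π, n / (1 + n * ch s) ^ 2 ≤ 2 := by
  have hpos : ∀ s ∈ uIcc (0 : ℝ) π, 0 < 1 + n * (s / 2) := fun s hs => by
    rw [uIcc_of_le pi_pos.le] at hs
    have := hs.1
    positivity
  have hco : ContinuousOn (fun s : ℝ => n / (1 + n * (s / 2)) ^ 2) (uIcc 0 π) :=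
    continuousOn_const.div (by fun_prop) fun s hs => pow_ne_zero _ (hpos s hs).ne'
  have h1 : ∫ s in (0 : ℝ)..π, n / (1 + n * (s / 2)) ^ 2 =
      -2 / (1 + n * (π / 2)) - -2 / (1 + n * (0 / 2)) := by
    refine intervalIntegral.integral_eq_sub_of_hasDerivAt
      (f := fun s => -2 / (1 + n * (s / 2))) (fun s hs => ?_) hco.intervalIntegrable
    have h := (hasDerivAt_const s (-2 : ℝ)).div
      ((((hasDerivAt_id s).div_const 2).const_mul n).const_add 1) (hpos s hs).ne'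
    refine h.congr_deriv ?_
    simp only [id]
    congr 1
    ring
  have h2 : ∫ s in (0 : ℝ)..π, n / (1 + n * ch s) ^ 2 ≤
      ∫ s in (0 : ℝ)..π, n / (1 + n * (s / 2)) ^ 2 := by
    refine intervalIntegral.integral_mono_on pi_pos.le ((KerB_cont hn).intervalIntegrable _ _)
      hco.intervalIntegrable fun s hs => ?_
    have h3 : |s| / 2 ≤ ch s := le_ch' (by rw [abs_of_nonneg hs.1]; exact hs.2)
    rw [abs_of_nonneg hs.1] at h3
    have h4 := hs.1
    gcongr
  have h3 : 0 ≤ 2 / (1 + n * (π / 2)) := by positivity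
  rw [h1, neg_div, neg_div] at h2
  simp only [zero_div, mul_zero, add_zero, div_one] at h2
  linarith only [h3, h2]

lemma int_decay {n : ℝ} (hn : 0 ≤ n) : ∫ s in (-π)..π, n / (1 + n * ch s) ^ 2 ≤ 4 := by
  have h1 := KerB_half hn
  have h2 : ∫ s in (-π)..(0 : ℝ), n / (1 + n * ch s) ^ 2 =
      ∫ s in (0 : ℝ)..π, n / (1 + n * ch s) ^ 2 := by
    have h := intervalIntegral.integral_comp_neg (a := (0 : ℝ)) (b := π)
      (fun s => n / (1 + n * ch s) ^ 2)
    simp only [ch_neg, neg_zero] at h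
    exact h.symm
  rw [← intervalIntegral.integral_add_adjacent_intervals
    ((KerB_cont hn).intervalIntegrable (-π) 0) ((KerB_cont hn).intervalIntegrable 0 π), h2]
  linarith only [h1]

lemma KerB_cv_add {V W φ : ℝ → ℂ} (hV : Continuous V) (hW : Continuous W) (hφ : Continuous φ) :
    cv (V + W) φ = cv V φ + cv W φ := by
  funext t
  have h1 : Continuous fun s => V s * φ (t - s) := by fun_prop
  have h2 : Continuous fun s => W s * φ (t - s) := by fun_prop
  simp only [cv, Pi.add_apply, add_mul]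
  rw [intervalIntegral.integral_add (h1.intervalIntegrable _ _) (h2.intervalIntegrable _ _), mul_add]

lemma KerB_cv_smul (c : ℂ) (V φ : ℝ → ℂ) : cv (c • V) φ = c • cv V φ := by
  funext t
  simp only [cv, Pi.smul_apply, smul_eq_mul, mul_assoc]
  rw [intervalIntegral.integral_const_mul]; ring

lemma KerB_cv_e (m : ℤ) {φ : ℝ → ℂ} (hp : Function.Periodic φ (2 * π)) :
    ∃ c : ℂ, cv (fun s : ℝ => ex (m * s)) φ = fun t : ℝ => c * ex (m * t) := by
  have hper : Function.Periodic (fun u : ℝ => ex (m * -u) * φ u) (2 * π) := fun u => by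
    have h := ex_periodic.int_mul (-m) (m * -u)
    simp only [hp u]
    rw [← h]; congr 2; push_cast; ring
  refine ⟨(1 / (2 * π) : ℂ) * ∫ u in (0 : ℝ)..(0 + 2 * π), ex (m * -u) * φ u, funext fun t => ?_⟩
  have h1 : ∀ s : ℝ, ex (m * s) * φ (t - s) = ex (m * t) * (ex (m * -(t - s)) * φ (t - s)) := by
    intro s
    rw [← mul_assoc, ← ex_add]; congr 2; ring
  simp only [cv, h1]
  rw [intervalIntegral.integral_const_mul,
    intervalIntegral.integral_comp_sub_left (fun u : ℝ => ex (m * -u) * φ u) t,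
    ← hper.intervalIntegral_add_eq (t - π) 0, show t - -π = t - π + 2 * π by ring]
  ring

lemma KerB_hd_cv {a c : ℤ} {V φ : ℝ → ℂ} (hV : V ∈ Sp a c) (hφ : Continuous φ)
    (hp : Function.Periodic φ (2 * π)) (t : ℝ) : HasDerivAt (cv V φ) (cv (deriv V) φ t) t := by
  induction hV using Submodule.span_induction with
  | mem f hf =>
    obtain ⟨m, -, -, rfl⟩ := hf
    obtain ⟨c, hc⟩ := KerB_cv_e m hp
    have hd : deriv (fun s : ℝ => ex (m * s)) =
        (((m : ℝ) : ℂ) * Complex.I) • fun s : ℝ => ex (m * s) := by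
      funext s
      rw [(KerB_hd_ex (m : ℝ) s).deriv, Pi.smul_apply, smul_eq_mul, mul_assoc]
    rw [hd, KerB_cv_smul, hc]
    refine ((KerB_hd_ex (m : ℝ) t).const_mul c).congr_deriv ?_
    simp only [Pi.smul_apply, smul_eq_mul]
    ring
  | zero =>
    have h0 : cv 0 φ = fun _ => 0 := by funext t; simp [cv]
    have h1 : deriv (0 : ℝ → ℂ) = 0 := by funext t; simp
    rw [h1, h0]
    exact hasDerivAt_const _ _
  | add f g hf hg ihf ihg =>
    have cf := Sp_contDiff hf
    have cg := Sp_contDiff hg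
    have h1 : deriv (f + g) = deriv f + deriv g := by
      funext s
      exact deriv_add (cf.differentiable one_ne_zero s) (cg.differentiable one_ne_zero s)
    rw [h1, KerB_cv_add cf.continuous cg.continuous hφ,
      KerB_cv_add (cf.continuous_deriv le_rfl) (cg.continuous_deriv le_rfl) hφ]
    exact ihf.add ihg
  | smul r f hf ih =>
    have cf := Sp_contDiff hf
    have h1 : deriv (r • f) = r • deriv f := by
      funext s
      exact deriv_const_smul r (cf.differentiable one_ne_zero s)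
    rw [h1, KerB_cv_smul, KerB_cv_smul]
    exact ih.const_smul r

lemma deriv_cv {a c : ℤ} {V φ : ℝ → ℂ} (hV : V ∈ Sp a c) (hφ : Continuous φ)
    (hp : Function.Periodic φ (2 * π)) (t : ℝ) : deriv (cv V φ) t = cv (deriv V) φ t := by
  exact (KerB_hd_cv hV hφ hp t).deriv

lemma KerB_est {V φ : ℝ → ℂ} (hV : Continuous V) (hφ : Continuous φ) {n A E t : ℝ} (hn : 0 ≤ n)
    (hA : 0 ≤ A) (h1 : ∀ s, ‖V s‖ ≤ A * n / (1 + n * ch s) ^ 26)
    (h2 : ∀ s, ‖φ (t - s) - φ t‖ ≤ E * (1 + n * ch s) ^ 24) :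
    ‖cv V φ t - (1 / (2 * π) : ℂ) * ((∫ s in (-π)..π, V s) * φ t)‖ ≤ A * E := by
  have hE : 0 ≤ E := by
    have h := (norm_nonneg _).trans (h2 0)
    have hc := ch_nonneg 0
    exact nonneg_of_mul_nonneg_left h (by positivity)
  have c1 : Continuous fun s => V s * φ (t - s) := by fun_prop
  have c2 : Continuous fun s => V s * φ t := by fun_prop
  have e : cv V φ t - (1 / (2 * π) : ℂ) * ((∫ s in (-π)..π, V s) * φ t) =
      (1 / (2 * π) : ℂ) * ∫ s in (-π)..π, (V s * φ (t - s) - V s * φ t) := by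
    rw [intervalIntegral.integral_sub (c1.intervalIntegrable _ _) (c2.intervalIntegrable _ _),
      intervalIntegral.integral_mul_const, cv, mul_sub]
  have hb : ‖∫ s in (-π)..π, (V s * φ (t - s) - V s * φ t)‖ ≤
      ∫ s in (-π)..π, A * E * (n / (1 + n * ch s) ^ 2) := by
    refine intervalIntegral.norm_integral_le_of_norm_le (by linarith only [pi_pos])
      (Filter.Eventually.of_forall fun s _ => ?_)
      (((KerB_cont hn).intervalIntegrable _ _).const_mul _)
    have hc := ch_nonneg s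
    have hσ : 0 < 1 + n * ch s := by positivity
    rw [← mul_sub, norm_mul]
    refine (mul_le_mul (h1 s) (h2 s) (norm_nonneg _) (by positivity)).trans (le_of_eq ?_)
    generalize 1 + n * ch s = σ at hσ
    field_simp
  rw [intervalIntegral.integral_const_mul] at hb
  have hb2 := hb.trans (mul_le_mul_of_nonneg_left (int_decay hn) (mul_nonneg hA hE))
  have hn1 : ‖(1 / (2 * π) : ℂ)‖ ≤ 1 / 4 := by
    rw [norm_div, norm_one, norm_mul, Complex.norm_real, Real.norm_eq_abs, abs_of_pos pi_pos,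
      Complex.norm_ofNat]
    exact one_div_le_one_div_of_le (by norm_num) (by linarith only [pi_gt_three])
  rw [e, norm_mul]
  have := mul_le_mul hn1 hb2 (norm_nonneg _) (by norm_num)
  linarith only [this]

theorem cv_bound : ∃ K : ℝ, 0 ≤ K ∧ ∀ k N : ℕ, 14 * 2 ^ k ≤ N → N ≤ 42 * 2 ^ k →
    ∀ φ : ℝ → ℂ, Continuous φ → Function.Periodic φ (2 * π) → ∀ t E : ℝ,
      (∀ s, ‖φ (t - s) - φ t‖ ≤ E * (1 + ch s / rr k) ^ 24) →
      ‖cv (Ker N (2 ^ k)) φ t - φ t‖ ≤ K * E ∧
        ‖deriv (cv (Ker N (2 ^ k)) φ) t‖ ≤ K * E / rr k := by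
  obtain ⟨K, hK, hb⟩ := ker_bound
  refine ⟨K, hK, fun k N h1 h2 φ hφ hp t E hE => ?_⟩
  have hn : 1 ≤ 2 ^ k := Nat.one_le_two_pow
  have hr : ∀ x : ℝ, x / rr k = ((2 ^ k : ℕ) : ℝ) * x := fun x => by
    rw [rr]; push_cast; field_simp
  simp only [hr] at hE ⊢
  have hb' := hb N (2 ^ k) hn h2
  have hI := integral_Ker hn h1
  have hm := Ker_mem N (2 ^ k)
  generalize 2 ^ k = n at hn hE hb' hI hm ⊢
  have hn0 : (0 : ℝ) ≤ n := Nat.cast_nonneg n
  have cV := Sp_contDiff hm
  constructor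
  · have h := KerB_est cV.continuous hφ hn0 hK (fun s => (hb' s).1) hE
    have hπ : (π : ℂ) ≠ 0 := by exact_mod_cast pi_ne_zero
    have e : (1 / (2 * π) : ℂ) * (2 * π * φ t) = φ t := by field_simp
    rwa [hI, e] at h
  · have h := KerB_est (A := K * n) (cV.continuous_deriv le_rfl) hφ hn0 (mul_nonneg hK hn0)
      (fun s => (hb' s).2.trans (le_of_eq (by rw [pow_two (n : ℝ), mul_assoc]))) hE
    have hI' : ∫ s in (-π)..π, deriv (Ker N n) s = 0 := by
      rw [intervalIntegral.integral_deriv_eq_sub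
        (fun x _ => cV.differentiable one_ne_zero x)
        ((cV.continuous_deriv le_rfl).intervalIntegrable _ _), ← Sp_periodic hm (-π),
        show -π + 2 * π = π by ring, sub_self]
    rw [hI', zero_mul, mul_zero, sub_zero] at h
    rw [deriv_cv hm hφ hp]
    exact h.trans (le_of_eq (by ring))

end Pool.Agent.Work.MP_af796d_an.H
end

-- merged part: Pool.Agent.Work.MP_af796d_an.H.Rel
section
/-!
# The median-of-three weights
PLAN.  Relative perturbation calculus: Rel R ε x x' means 0 < x, 0 < x', x' ≤ R x, x ≤ R x', |x' - x| ≤ ε x (define it here).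
Rules (R, R1, R2 ≥ 1, ε ≥ 0): weaken R and ε; product (R1 R2, ε1 R2 + ε2) from
|x'y' - xy| ≤ |x' - x| y' + x |y' - y|; sum of two Rel R ε is Rel R ε; inverse (R, ε R).
* TT_rel: with ε = ε0 + ε1 + ε2 all three variables are Rel R ε; monomials of degree d are Rel R^d (d ε R^(d-1));
  numerator (R^2, 2 ε R), denominator (R^5, 5 ε R^4), inverse (R^5, 5 ε R^9), product (R^7, 2 ε R^6 + 5 ε R^9 ≤ 7 ε R^9).
* TT_cyc: field_simp, ring ((a+b+c)(ab+bc+ca) = sum of a^2 b over ordered pairs + 3abc).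
* TT_le: for a ≤ c the numerator is ≤ 3 c^2, ab + bc + ca ≥ c (a + b), a + b + c ≥ b + c.
* th_gen: th = 3 S / w^3.  |S' - S| ≤ 7 R^9 * sum l l T (ε0 + ε i + ε m); w ≤ R w', |w' - w| ≤ R * sum l ε / D;
  |1/w'^3 - 1/w^3| ≤ |w - w'| * 3 R^2 w^2 * R^3 / w^6.  So |th' - th| ≤ 3 (R^3 * 7 R^9 * P + 3 R^6 * (sum l ε / D) / w * S) / w^3.
* th_le: T b a c ≤ (3/b) (1/(a (b+c)) + 1/(c (b+a))) (wlog a ≤ c, TT symmetric in a, c), so S ≤ 6 w1 wy / b.
* th_off: th_gen with ε0 = ρ/b, ε i = ρ / D i.  Pointwise T b a c (1/b + 1/a + 1/c) ≤ (9/b) (1/(a^2 (b+c)) + 1/(c^2 (b+a)))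
  (wlog a ≤ c: T ≤ 3/(a (a+b) (b+c)); for the 1/a and 1/c terms use a + b ≥ b, for the 1/b term use a + b ≥ a), so
  P ≤ 18 ρ w2 wy / b, and (ρ w2 / w1) * S ≤ 6 ρ w2 wy / b.  K = 21 * 24.
* th_diag: th_gen with ε0 = 0 and ε i = 2 (1 - h / D i) (note ε i * D i = 2 (D i - h)).
  T b a c ≤ 3 (1/(a^2 c) + 1/(c^2 a)).  With w1 = La/h, w2 = mu2/h^2, sum l ε / D^2 = 2 aa / h^2, sum l ε / D = 2 tt / h:
  P ≤ 12 (aa La + mu2 tt)/h^3, S ≤ 6 mu2 La / h^3.  Divide by w1^3 = La^3/h^3: at most 24 dr.  K = 21 * 24.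
* th_sum: sum_j l j * S(D j) = sum over (i, j, m) of l l l T(D j; D i, D m); the three versions obtained by renaming the
  indices (Finset.sum_comm) add up to sum l l l / (D i D j D m) = w1^3 by TT_cyc.
* drift_le: x = h / D in (0, 1], x' = (h/2)/(D - h/2) = x/(2 - x).  La - La' = sum l x (1-x)/(2-x) ≥ tt/2,
  mu2 - mu2' = sum l x^2 (1-x)(3-x)/(2-x)^2 ≤ 2 aa, La/2 ≤ La' ≤ La.  Then
  f' - f = (mu2' - mu2)/La' + mu2 (La - La')/(La La') ≥ - 4 aa/La + mu2 tt / (2 La^2).
-/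

set_option autoImplicit false

namespace Pool.Agent.Work.MP_af796d_an.H

open MeasureTheory Set Real Metric Filter Topology

variable {n : ℕ} {l : Fin n → ℝ}

/-- relative closeness. -/
structure Rel_R (R ε x x' : ℝ) : Prop where
  pos : 0 < x
  pos' : 0 < x'
  up : x' ≤ R * x
  dn : x ≤ R * x'
  df : |x' - x| ≤ ε * x

lemma Rel_nn {ε x x' : ℝ} (hx : 0 < x) (h : |x' - x| ≤ ε * x) : 0 ≤ ε :=
  nonneg_of_mul_nonneg_left ((abs_nonneg _).trans h) hx

lemma Rel_pos {R x x' : ℝ} (hR : 1 ≤ R) (hx : 0 < x) (h : x ≤ R * x') : 0 < x' :=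
  (mul_pos_iff_of_pos_left (by linarith : 0 < R)).1 (hx.trans_le h)

lemma Rel_R.R_pos {R ε x x' : ℝ} (h : Rel_R R ε x x') : 0 < R :=
  (mul_pos_iff_of_pos_right h.pos).1 (h.pos'.trans_le h.up)

lemma Rel_R.mul {R R' ε ε' x x' y y' : ℝ} (h : Rel_R R ε x x') (g : Rel_R R' ε' y y') :
    Rel_R (R * R') (ε * R' + ε') (x * y) (x' * y') := by
  have e0 := Rel_nn h.pos h.df
  have r0 := h.R_pos
  have hx := h.pos
  have hx' := h.pos'
  refine ⟨mul_pos h.pos g.pos, mul_pos h.pos' g.pos', ?_, ?_, ?_⟩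
  · exact (mul_le_mul h.up g.up g.pos'.le (by positivity)).trans_eq (by ring)
  · exact (mul_le_mul h.dn g.dn g.pos.le (by positivity)).trans_eq (by ring)
  · have e : x' * y' - x * y = (x' - x) * y' + x * (y' - y) := by ring
    rw [e]
    refine (abs_add_le _ _).trans ?_
    rw [abs_mul, abs_mul, abs_of_pos g.pos', abs_of_pos hx]
    have a1 := mul_le_mul h.df g.up g.pos'.le (by positivity)
    have a2 := mul_le_mul_of_nonneg_left g.df hx.le
    exact (add_le_add a1 a2).trans_eq (by ring)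

lemma Rel_R.add {R ε x x' y y' : ℝ} (h : Rel_R R ε x x') (g : Rel_R R ε y y') :
    Rel_R R ε (x + y) (x' + y') := by
  refine ⟨add_pos h.pos g.pos, add_pos h.pos' g.pos', ?_, ?_, ?_⟩
  · linarith [h.up, g.up]
  · linarith [h.dn, g.dn]
  · have e : x' + y' - (x + y) = (x' - x) + (y' - y) := by ring
    rw [e]
    linarith [abs_add_le (x' - x) (y' - y), h.df, g.df]

lemma Rel_R.inv {R ε x x' : ℝ} (h : Rel_R R ε x x') : Rel_R R (ε * R) x⁻¹ x'⁻¹ := by
  have e0 := Rel_nn h.pos h.df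
  have hx := h.pos
  have hx' := h.pos'
  have a1 : x'⁻¹ ≤ R * x⁻¹ := by
    rw [← div_eq_mul_inv, le_div_iff₀ hx, inv_mul_le_iff₀ hx', mul_comm]; exact h.dn
  have a2 : x⁻¹ ≤ R * x'⁻¹ := by
    rw [← div_eq_mul_inv, le_div_iff₀ hx', inv_mul_le_iff₀ hx, mul_comm]; exact h.up
  refine ⟨inv_pos.2 hx, inv_pos.2 hx', a1, a2, ?_⟩
  have e : x'⁻¹ - x⁻¹ = -(x' - x) * (x⁻¹ * x'⁻¹) := by field_simp; ring
  rw [e, abs_mul, abs_neg, abs_of_pos (by positivity : 0 < x⁻¹ * x'⁻¹)]
  calc |x' - x| * (x⁻¹ * x'⁻¹) ≤ ε * x * (x⁻¹ * (R * x⁻¹)) :=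
        mul_le_mul h.df (mul_le_mul_of_nonneg_left a1 (by positivity)) (by positivity)
          (by positivity)
    _ = _ := by field_simp

lemma Rel_symm (a b c : ℝ) : TT b a c = TT b c a := by
  unfold TT
  congr 1 <;> ring

lemma Rel_ds (l f g : Fin n → ℝ) :
    ∑ i, ∑ m, l i * l m * (f i * g m + f m * g i) = 2 * (∑ i, l i * f i) * ∑ i, l i * g i := by
  have e1 : (∑ i, l i * f i) * ∑ i, l i * g i = ∑ i, ∑ m, l i * l m * (f i * g m) := by
    rw [Finset.sum_mul_sum]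
    exact Finset.sum_congr rfl fun i _ => Finset.sum_congr rfl fun m _ => by ring
  have e2 : ∑ i, ∑ m, l i * l m * (f m * g i) = ∑ i, ∑ m, l i * l m * (f i * g m) := by
    rw [Finset.sum_comm]
    exact Finset.sum_congr rfl fun i _ => Finset.sum_congr rfl fun m _ => by ring
  simp only [mul_add, Finset.sum_add_distrib]
  rw [e2, mul_assoc, e1, two_mul]

lemma Rel_dle (hl : ∀ i, 0 ≤ l i) {X Y : Fin n → Fin n → ℝ} (h : ∀ i m, X i m ≤ Y i m) :
    ∑ i, ∑ m, l i * l m * X i m ≤ ∑ i, ∑ m, l i * l m * Y i m :=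
  Finset.sum_le_sum fun i _ => Finset.sum_le_sum fun m _ =>
    mul_le_mul_of_nonneg_left (h i m) (mul_nonneg (hl i) (hl m))

lemma TT_pos {a b c : ℝ} (ha : 0 < a) (hb : 0 < b) (hc : 0 < c) : 0 < TT b a c := by
  unfold TT
  positivity

lemma TT_cyc {a b c : ℝ} (ha : 0 < a) (hb : 0 < b) (hc : 0 < c) :
    TT b a c + TT a b c + TT c a b = 1 / (a * b * c) := by
  unfold TT
  have h1 : 0 < a * b + b * c + c * a := by positivity
  have h2 : 0 < a + b + c := by positivity
  have e1 : b * a + a * c + c * b = a * b + b * c + c * a := by ring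
  have e2 : a * c + c * b + b * a = a * b + b * c + c * a := by ring
  have e3 : b + a + c = a + b + c := by ring
  have e4 : a + c + b = a + b + c := by ring
  rw [e1, e2, e3, e4]
  have e5 : (a * b + b * c + c * a) * (a + b + c) =
      (a ^ 2 + a * c + c ^ 2) * b + (b ^ 2 + b * c + c ^ 2) * a + (a ^ 2 + a * b + b ^ 2) * c := by
    ring
  generalize a * b + b * c + c * a = q at *
  generalize a + b + c = s at *
  generalize a ^ 2 + a * c + c ^ 2 = u at *
  generalize b ^ 2 + b * c + c ^ 2 = v at *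
  generalize a ^ 2 + a * b + b ^ 2 = w at *
  field_simp
  linarith only [e5]

lemma TT_le {a b c : ℝ} (ha : 0 < a) (hb : 0 < b) (hac : a ≤ c) :
    TT b a c ≤ 3 / (a * (a + b) * (b + c)) := by
  have hc : 0 < c := ha.trans_le hac
  unfold TT
  have a1 : a ^ 2 + a * c + c ^ 2 ≤ 3 * c ^ 2 := by linarith only [ha, hac, mul_nonneg_of_nonpos_of_nonpos (le_of_lt (Mathlib.Tactic.Linarith.sub_neg_of_lt ha)) (Mathlib.Tactic.Linarith.sub_nonpos_of_le hac), mul_nonneg_of_nonpos_of_nonpos (Mathlib.Tactic.Linarith.sub_nonpos_of_le hac) (Mathlib.Tactic.Linarith.sub_nonpos_of_le hac)]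
  have a2 : c * (a + b) ≤ a * b + b * c + c * a := by linarith only [ha, hb, mul_pos ha hb]
  calc (a ^ 2 + a * c + c ^ 2) / (a * c * (a * b + b * c + c * a) * (a + b + c))
      ≤ 3 * c ^ 2 / (a * c * (c * (a + b)) * (b + c)) := by
        gcongr
        linarith
    _ = _ := by field_simp

lemma TT_rel {a b c a' b' c' R ε₀ ε₁ ε₂ : ℝ} (hR : 1 ≤ R) (ha : 0 < a) (hb : 0 < b) (hc : 0 < c)
    (ha1 : a' ≤ R * a) (ha2 : a ≤ R * a') (hb1 : b' ≤ R * b) (hb2 : b ≤ R * b')
    (hc1 : c' ≤ R * c) (hc2 : c ≤ R * c') (h0 : |b' - b| ≤ ε₀ * b) (h1 : |a' - a| ≤ ε₁ * a)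
    (h2 : |c' - c| ≤ ε₂ * c) :
    |TT b' a' c' - TT b a c| ≤ 7 * R ^ 9 * (ε₀ + ε₁ + ε₂) * TT b a c := by
  have e0 := Rel_nn hb h0
  have e1 := Rel_nn ha h1
  have e2 := Rel_nn hc h2
  obtain ⟨ε, hε⟩ : ∃ ε, ε = ε₀ + ε₁ + ε₂ := ⟨_, rfl⟩
  rw [← hε]
  have A : Rel_R R ε a a' := ⟨ha, Rel_pos hR ha ha2, ha1, ha2,
    h1.trans (mul_le_mul_of_nonneg_right (by linarith) ha.le)⟩
  have B : Rel_R R ε b b' := ⟨hb, Rel_pos hR hb hb2, hb1, hb2,
    h0.trans (mul_le_mul_of_nonneg_right (by linarith) hb.le)⟩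
  have C : Rel_R R ε c c' := ⟨hc, Rel_pos hR hc hc2, hc1, hc2,
    h2.trans (mul_le_mul_of_nonneg_right (by linarith) hc.le)⟩
  have X := ((((A.mul A).add (A.mul C)).add (C.mul C)).mul
    (((A.mul C).mul (((A.mul B).add (B.mul C)).add (C.mul A))).mul ((A.add B).add C)).inv).df
  have t0 := TT_pos ha hb hc
  unfold TT at t0 ⊢
  simp only [sq, div_eq_mul_inv] at t0 ⊢
  refine X.trans (mul_le_mul_of_nonneg_right ?_ t0.le)
  have p5 : R ^ 5 ≤ R ^ 9 := pow_le_pow_right₀ hR (by norm_num)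
  have p6 : R ^ 6 ≤ R ^ 9 := pow_le_pow_right₀ hR (by norm_num)
  have p7 : R ^ 7 ≤ R ^ 9 := pow_le_pow_right₀ hR (by norm_num)
  have p8 : R ^ 8 ≤ R ^ 9 := pow_le_pow_right₀ hR (by norm_num)
  calc _ = (2 * R ^ 5 + 2 * R ^ 6 + R ^ 7 + R ^ 8 + R ^ 9) * ε := by ring
    _ ≤ _ := mul_le_mul_of_nonneg_right (by linarith only [p5, p6, p7, p8]) (by linarith only [e0, e1, e2, hε])

lemma w1_pos (hl : ∀ i, 0 ≤ l i) (hs : 0 < ∑ i, l i) {D : Fin n → ℝ} (hD : ∀ i, 0 < D i) :
    0 < w1 l D := by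
  obtain ⟨i, hi, h⟩ := Finset.exists_lt_of_sum_lt (f := fun _ => (0 : ℝ)) (g := l)
    (s := Finset.univ) (by simpa using hs)
  exact Finset.sum_pos' (fun j _ => div_nonneg (hl j) (hD j).le) ⟨i, hi, div_pos h (hD i)⟩

lemma Rel_S (hl : ∀ i, 0 ≤ l i) {D : Fin n → ℝ} {b : ℝ} (hb : 0 < b) (hD : ∀ i, 0 < D i) :
    0 ≤ ∑ i, ∑ m, l i * l m * TT b (D i) (D m) :=
  Finset.sum_nonneg fun i _ => Finset.sum_nonneg fun m _ =>
    mul_nonneg (mul_nonneg (hl i) (hl m)) (TT_pos (hD i) hb (hD m)).le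

lemma th_gen (hl : ∀ i, 0 ≤ l i) (hs : 0 < ∑ i, l i) {D D' ε : Fin n → ℝ} {b b' R ε₀ : ℝ}
    (hR : 1 ≤ R) (hb : 0 < b) (hD : ∀ i, 0 < D i) (hb1 : b' ≤ R * b) (hb2 : b ≤ R * b')
    (h1 : ∀ i, D' i ≤ R * D i) (h2 : ∀ i, D i ≤ R * D' i) (h0 : |b' - b| ≤ ε₀ * b)
    (hε : ∀ i, |D' i - D i| ≤ ε i * D i) :
    |th l b' D' - th l b D| ≤ 21 * R ^ 12 *
      ((∑ i, ∑ m, l i * l m * TT b (D i) (D m) * (ε₀ + ε i + ε m)) +
        (∑ i, l i * ε i / D i) / w1 l D * ∑ i, ∑ m, l i * l m * TT b (D i) (D m)) / w1 l D ^ 3 := by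
  have hD' : ∀ i, 0 < D' i := fun i => Rel_pos hR (hD i) (h2 i)
  have RD : ∀ i, Rel_R R (ε i * R) (D i)⁻¹ (D' i)⁻¹ := fun i =>
    Rel_R.inv ⟨hD i, hD' i, h1 i, h2 i, hε i⟩
  have w0 := w1_pos hl hs hD
  have S0 := Rel_S hl hb hD
  have e0 := Rel_nn hb h0
  have ei := fun i => Rel_nn (hD i) (hε i)
  have E0 : 0 ≤ ∑ i, l i * ε i / D i :=
    Finset.sum_nonneg fun i _ => div_nonneg (mul_nonneg (hl i) (ei i)) (hD i).le
  have P0 : 0 ≤ ∑ i, ∑ m, l i * l m * TT b (D i) (D m) * (ε₀ + ε i + ε m) :=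
    Finset.sum_nonneg fun i _ => Finset.sum_nonneg fun m _ =>
      mul_nonneg (mul_nonneg (mul_nonneg (hl i) (hl m)) (TT_pos (hD i) hb (hD m)).le)
        (add_nonneg (add_nonneg e0 (ei i)) (ei m))
  have W : Rel_R R (R * ((∑ i, l i * ε i / D i) / w1 l D)) (w1 l D) (w1 l D') := by
    refine ⟨w0, w1_pos hl hs hD', ?_, ?_, ?_⟩
    · unfold w1
      rw [Finset.mul_sum]
      refine Finset.sum_le_sum fun i _ => ?_
      simp only [div_eq_mul_inv]
      exact (mul_le_mul_of_nonneg_left (RD i).up (hl i)).trans_eq (by ring)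
    · unfold w1
      rw [Finset.mul_sum]
      refine Finset.sum_le_sum fun i _ => ?_
      simp only [div_eq_mul_inv]
      exact (mul_le_mul_of_nonneg_left (RD i).dn (hl i)).trans_eq (by ring)
    · rw [mul_assoc, div_mul_cancel₀ _ w0.ne', Finset.mul_sum]
      unfold w1
      rw [← Finset.sum_sub_distrib]
      refine (Finset.abs_sum_le_sum_abs _ _).trans (Finset.sum_le_sum fun i _ => ?_)
      simp only [div_eq_mul_inv]
      rw [← mul_sub, abs_mul, abs_of_nonneg (hl i)]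
      exact (mul_le_mul_of_nonneg_left (RD i).df (hl i)).trans_eq (by ring)
  have W3 := ((W.mul W).mul W).inv
  have hS : |∑ i, ∑ m, l i * l m * TT b' (D' i) (D' m) - ∑ i, ∑ m, l i * l m * TT b (D i) (D m)| ≤
      7 * R ^ 9 * ∑ i, ∑ m, l i * l m * TT b (D i) (D m) * (ε₀ + ε i + ε m) := by
    rw [← Finset.sum_sub_distrib, Finset.mul_sum]
    refine (Finset.abs_sum_le_sum_abs _ _).trans (Finset.sum_le_sum fun i _ => ?_)
    rw [← Finset.sum_sub_distrib, Finset.mul_sum]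
    refine (Finset.abs_sum_le_sum_abs _ _).trans (Finset.sum_le_sum fun m _ => ?_)
    rw [← mul_sub, abs_mul, abs_of_nonneg (mul_nonneg (hl i) (hl m))]
    exact (mul_le_mul_of_nonneg_left (TT_rel hR (hD i) hb (hD m) (h1 i) (h2 i) hb1 hb2 (h1 m) (h2 m)
      h0 (hε i) (hε m)) (mul_nonneg (hl i) (hl m))).trans_eq (by ring)
  unfold th
  have δ0 : 0 ≤ (∑ i, l i * ε i / D i) / w1 l D := div_nonneg E0 w0.le
  generalize (∑ i, l i * ε i / D i) / w1 l D = δ at *
  generalize ∑ i, ∑ m, l i * l m * TT b (D i) (D m) * (ε₀ + ε i + ε m) = P at *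
  generalize ∑ i, ∑ m, l i * l m * TT b (D i) (D m) = S at *
  generalize ∑ i, ∑ m, l i * l m * TT b' (D' i) (D' m) = S' at *
  have c3 : ∀ x : ℝ, x ^ 3 = x * x * x := fun x => by ring
  simp only [div_eq_mul_inv, c3]
  generalize (w1 l D * w1 l D * w1 l D)⁻¹ = v at *
  generalize (w1 l D' * w1 l D' * w1 l D')⁻¹ = v' at *
  have v0 := W3.pos
  have R0 : 0 < R := by linarith
  have e : 3 * S' * v' - 3 * S * v = 3 * ((S' - S) * v' + S * (v' - v)) := by ring
  rw [e, abs_mul, abs_of_pos (by norm_num : (0 : ℝ) < 3)]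
  have a1 : |(S' - S) * v'| ≤ 7 * R ^ 9 * P * (R * R * R * v) := by
    rw [abs_mul, abs_of_pos W3.pos']
    exact mul_le_mul hS W3.up W3.pos'.le (by positivity)
  have a2 : |S * (v' - v)| ≤ S * (7 * R ^ 12 * δ * v) := by
    rw [abs_mul, abs_of_nonneg S0]
    refine mul_le_mul_of_nonneg_left (W3.df.trans (mul_le_mul_of_nonneg_right ?_ v0.le)) S0
    have p4 : R ^ 4 ≤ R ^ 12 := pow_le_pow_right₀ hR (by norm_num)
    have p5 : R ^ 5 ≤ R ^ 12 := pow_le_pow_right₀ hR (by norm_num)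
    have p6 : R ^ 6 ≤ R ^ 12 := pow_le_pow_right₀ hR (by norm_num)
    have p0 : 0 < R ^ 12 := by positivity
    calc _ = (R ^ 4 + R ^ 5 + R ^ 6) * δ := by ring
      _ ≤ _ := mul_le_mul_of_nonneg_right (by linarith only [p4, p5, p6, p0]) δ0
  refine (mul_le_mul_of_nonneg_left ((abs_add_le _ _).trans (add_le_add a1 a2))
    (by norm_num)).trans_eq ?_
  ring

lemma th_nonneg (hl : ∀ i, 0 ≤ l i) {D : Fin n → ℝ} {b : ℝ} (hb : 0 < b) (hD : ∀ i, 0 < D i) :
    0 ≤ th l b D := by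
  have w0 : 0 ≤ w1 l D := Finset.sum_nonneg fun i _ => div_nonneg (hl i) (hD i).le
  exact div_nonneg (mul_nonneg (by norm_num) (Rel_S hl hb hD)) (pow_nonneg w0 3)

lemma Rel_wl {a b c : ℝ} (ha : 0 < a) (hc : 0 < c) {F : ℝ → ℝ → ℝ} {G : ℝ → ℝ → ℝ}
    (hF : F a c = F c a) (hG : ∀ x y, 0 < x → 0 < y → 0 ≤ G x y)
    (h : ∀ x y, 0 < x → x ≤ y → TT b x y * F x y ≤ G x y) : TT b a c * F a c ≤ G a c + G c a := by
  rcases le_total a c with hac | hac
  · linarith [h a c ha hac, hG c a hc ha]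
  · rw [Rel_symm, hF]
    linarith [h c a hc hac, hG a c ha hc]

lemma Rel_T1 {a b c : ℝ} (ha : 0 < a) (hb : 0 < b) (hc : 0 < c) :
    TT b a c ≤ 3 / b * a⁻¹ * (b + c)⁻¹ + 3 / b * c⁻¹ * (b + a)⁻¹ := by
  have := Rel_wl (b := b) ha hc (F := fun _ _ => 1) (G := fun x y => 3 / b * x⁻¹ * (b + y)⁻¹) rfl
    (fun x y hx hy => by positivity) fun x y hx hxy => by
      have hy := hx.trans_le hxy
      rw [mul_one]
      calc TT b x y ≤ 3 / (x * (x + b) * (b + y)) := TT_le hx hb hxy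
        _ ≤ 3 / (x * b * (b + y)) := by gcongr; linarith
        _ = _ := by field_simp
  rwa [mul_one] at this

lemma Rel_T2 {a b c : ℝ} (ha : 0 < a) (hb : 0 < b) (hc : 0 < c) :
    TT b a c ≤ 3 * (a ^ 2)⁻¹ * c⁻¹ + 3 * (c ^ 2)⁻¹ * a⁻¹ := by
  have := Rel_wl (b := b) ha hc (F := fun _ _ => 1) (G := fun x y => 3 * (x ^ 2)⁻¹ * y⁻¹) rfl
    (fun x y hx hy => by positivity) fun x y hx hxy => by
      have hy := hx.trans_le hxy
      rw [mul_one]
      calc TT b x y ≤ 3 / (x * (x + b) * (b + y)) := TT_le hx hb hxy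
        _ ≤ 3 / (x * x * y) := by gcongr <;> linarith
        _ = _ := by field_simp
  rwa [mul_one] at this

lemma Rel_T3 {a b c : ℝ} (ha : 0 < a) (hb : 0 < b) (hc : 0 < c) :
    TT b a c * (b⁻¹ + a⁻¹ + c⁻¹) ≤ 9 / b * (a ^ 2)⁻¹ * (b + c)⁻¹ + 9 / b * (c ^ 2)⁻¹ * (b + a)⁻¹ :=
  Rel_wl (b := b) ha hc (F := fun x y => b⁻¹ + x⁻¹ + y⁻¹)
    (G := fun x y => 9 / b * (x ^ 2)⁻¹ * (b + y)⁻¹) (by ring)
    (fun x y hx hy => by positivity) fun x y hx hxy => by
      have hy := hx.trans_le hxy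
      have t := TT_le hx hb hxy
      have t0 := (TT_pos hx hb hy).le
      have a1 : TT b x y ≤ 3 / (x * x * (b + y)) := t.trans (by gcongr; linarith)
      have a2 : TT b x y ≤ 3 / (x * b * (b + y)) := t.trans (by gcongr; linarith)
      have a3 : y⁻¹ ≤ x⁻¹ := inv_anti₀ hx hxy
      calc TT b x y * (b⁻¹ + x⁻¹ + y⁻¹) = TT b x y * b⁻¹ + TT b x y * x⁻¹ + TT b x y * y⁻¹ := by ring
        _ ≤ 3 / (x * x * (b + y)) * b⁻¹ + 3 / (x * b * (b + y)) * x⁻¹ +
            3 / (x * b * (b + y)) * x⁻¹ := by gcongr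
        _ = _ := by field_simp; norm_num

lemma Rel_S1 (hl : ∀ i, 0 ≤ l i) {D : Fin n → ℝ} {b : ℝ} (hb : 0 < b) (hD : ∀ i, 0 < D i) :
    ∑ i, ∑ m, l i * l m * TT b (D i) (D m) ≤ 6 / b * w1 l D * wy l b D := by
  refine (Rel_dle hl fun i m => Rel_T1 (hD i) hb (hD m)).trans_eq ?_
  rw [Rel_ds l (fun i => 3 / b * (D i)⁻¹) fun i => (b + D i)⁻¹]
  have e : ∑ i, l i * (3 / b * (D i)⁻¹) = 3 / b * w1 l D := by
    rw [w1, Finset.mul_sum]
    exact Finset.sum_congr rfl fun i _ => by ring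
  rw [e, wy]
  simp only [div_eq_mul_inv]
  ring

lemma Rel_wy (hl : ∀ i, 0 ≤ l i) {D : Fin n → ℝ} {b : ℝ} (hb : 0 < b) (hD : ∀ i, 0 < D i) :
    0 ≤ wy l b D ∧ wy l b D ≤ w1 l D :=
  ⟨Finset.sum_nonneg fun i _ => div_nonneg (hl i) (add_pos hb (hD i)).le,
    Finset.sum_le_sum fun i _ => div_le_div_of_nonneg_left (hl i) (hD i) (by linarith)⟩

lemma Rel_w2 (hl : ∀ i, 0 ≤ l i) (D : Fin n → ℝ) : 0 ≤ w2 l D :=
  Finset.sum_nonneg fun i _ => div_nonneg (hl i) (sq_nonneg _)

lemma th_le (hl : ∀ i, 0 ≤ l i) (hs : 0 < ∑ i, l i) {D : Fin n → ℝ} {b : ℝ} (hb : 0 < b)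
    (hD : ∀ i, 0 < D i) : th l b D ≤ 18 * wy l b D / (b * w1 l D ^ 2) := by
  have w0 := w1_pos hl hs hD
  have := Rel_S1 hl hb hD
  unfold th
  calc _ ≤ 3 * (6 / b * w1 l D * wy l b D) / w1 l D ^ 3 := by gcongr
    _ = _ := by field_simp; ring

lemma th_le' (hl : ∀ i, 0 ≤ l i) (hs : 0 < ∑ i, l i) {D : Fin n → ℝ} {b : ℝ} (hb : 0 < b)
    (hD : ∀ i, 0 < D i) : th l b D ≤ 18 / (b * w1 l D) := by
  have w0 := w1_pos hl hs hD
  have := (Rel_wy hl hb hD).2
  calc _ ≤ 18 * wy l b D / (b * w1 l D ^ 2) := th_le hl hs hb hD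
    _ ≤ 18 * w1 l D / (b * w1 l D ^ 2) := by gcongr
    _ = _ := by field_simp

lemma th_hom {D : Fin n → ℝ} {b κ : ℝ} (hκ : 0 < κ) (hb : 0 < b) (hD : ∀ i, 0 < D i) :
    th l (κ * b) (fun i => κ * D i) = th l b D := by
  have e1 : ∀ i m, TT (κ * b) (κ * D i) (κ * D m) = TT b (D i) (D m) / κ ^ 3 := by
    intro i m
    have h1 := hD i
    have h2 := hD m
    unfold TT
    rw [div_div, div_eq_div_iff (by positivity) (by positivity)]
    ring
  have e2 : w1 l (fun i => κ * D i) = w1 l D / κ := by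
    unfold w1
    rw [Finset.sum_div]
    exact Finset.sum_congr rfl fun i _ => by rw [div_div, mul_comm]
  unfold th
  simp only [e1, e2, ← mul_div_assoc, ← Finset.sum_div, div_pow]
  exact div_div_div_cancel_right₀ (by positivity) _ _

lemma th_sum (hl : ∀ i, 0 ≤ l i) (hs : 0 < ∑ i, l i) {D : Fin n → ℝ} (hD : ∀ i, 0 < D i) :
    ∑ j, l j * th l (D j) D = 1 := by
  have w0 := w1_pos hl hs hD
  let F : Fin n → Fin n → Fin n → ℝ := fun j i m => l j * (l i * l m * TT (D j) (D i) (D m))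
  have e1 : ∑ j, ∑ i, ∑ m, F i j m = ∑ j, ∑ i, ∑ m, F j i m := Finset.sum_comm
  have e2 : ∑ j, ∑ i, ∑ m, F m i j = ∑ j, ∑ i, ∑ m, F j i m := by
    calc ∑ j, ∑ i, ∑ m, F m i j = ∑ i, ∑ j, ∑ m, F m i j := Finset.sum_comm
      _ = ∑ i, ∑ m, ∑ j, F m i j := Finset.sum_congr rfl fun i _ => Finset.sum_comm
      _ = _ := Finset.sum_comm
  have e3 : w1 l D ^ 3 = ∑ j, ∑ i, ∑ m, (F j i m + F i j m + F m i j) := by
    rw [pow_succ', sq, w1, Finset.sum_mul_sum, Finset.sum_mul]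
    refine Finset.sum_congr rfl fun j _ => ?_
    rw [Finset.mul_sum]
    refine Finset.sum_congr rfl fun i _ => ?_
    rw [Finset.mul_sum]
    refine Finset.sum_congr rfl fun m _ => ?_
    have := TT_cyc (hD i) (hD j) (hD m)
    calc _ = l j * l i * l m * (1 / (D i * D j * D m)) := by
          simp only [div_eq_mul_inv, mul_inv]; ring
      _ = _ := by rw [← this]; simp only [F]; ring
  simp only [Finset.sum_add_distrib, e1, e2] at e3
  have e4 : ∑ j, l j * th l (D j) D = 3 * (∑ j, ∑ i, ∑ m, F j i m) / w1 l D ^ 3 := by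
    rw [Finset.mul_sum, Finset.sum_div]
    refine Finset.sum_congr rfl fun j _ => ?_
    simp only [F, ← Finset.mul_sum, th]
    ring
  rw [e4, div_eq_one_iff_eq (by positivity)]
  linarith only [e3]

lemma th_off (hl : ∀ i, 0 ≤ l i) (hs : 0 < ∑ i, l i) {D D' : Fin n → ℝ} {b b' R ρ : ℝ}
    (hR : 1 ≤ R) (hb : 0 < b) (hD : ∀ i, 0 < D i) (hb1 : b' ≤ R * b) (hb2 : b ≤ R * b')
    (h1 : ∀ i, D' i ≤ R * D i) (h2 : ∀ i, D i ≤ R * D' i) (h0 : |b' - b| ≤ ρ)
    (hρ : ∀ i, |D' i - D i| ≤ ρ) :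
    |th l b' D' - th l b D| ≤ 504 * R ^ 12 * ee l ρ b D := by
  have ρ0 : 0 ≤ ρ := (abs_nonneg _).trans h0
  have w0 := w1_pos hl hs hD
  have R0 : 0 < R := by linarith
  refine (th_gen hl hs (ε₀ := ρ / b) (ε := fun i => ρ / D i) hR hb hD hb1 hb2 h1 h2
    (by rwa [div_mul_cancel₀ _ hb.ne']) fun i => by
      rw [div_mul_cancel₀ _ (hD i).ne']; exact hρ i).trans ?_
  have a1 : ∑ i, ∑ m, l i * l m * TT b (D i) (D m) * (ρ / b + ρ / D i + ρ / D m) ≤
      ρ * (18 / b * w2 l D * wy l b D) := by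
    have b1 := Rel_dle hl fun i m => Rel_T3 (hD i) hb (hD m)
    rw [Rel_ds l (fun i => 9 / b * (D i ^ 2)⁻¹) fun i => (b + D i)⁻¹] at b1
    have e : ∑ i, l i * (9 / b * (D i ^ 2)⁻¹) = 9 / b * w2 l D := by
      rw [w2, Finset.mul_sum]
      exact Finset.sum_congr rfl fun i _ => by ring
    rw [e] at b1
    refine le_trans (le_of_eq ?_) ((mul_le_mul_of_nonneg_left b1 ρ0).trans_eq ?_)
    · rw [Finset.mul_sum]
      refine Finset.sum_congr rfl fun i _ => ?_
      rw [Finset.mul_sum]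
      exact Finset.sum_congr rfl fun m _ => by ring
    · rw [wy]
      simp only [div_eq_mul_inv]
      ring
  have a2 : ∑ i, l i * (ρ / D i) / D i = ρ * w2 l D := by
    rw [w2, Finset.mul_sum]
    exact Finset.sum_congr rfl fun i _ => by ring
  have a3 := Rel_S1 hl hb hD
  have a4 := Rel_w2 hl D
  rw [a2, ee]
  calc _ ≤ 21 * R ^ 12 * (ρ * (18 / b * w2 l D * wy l b D) +
        ρ * w2 l D / w1 l D * (6 / b * w1 l D * wy l b D)) / w1 l D ^ 3 := by gcongr
    _ = _ := by field_simp; ring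

lemma th_diag (hl : ∀ i, 0 ≤ l i) (hs : 0 < ∑ i, l i) {D D' : Fin n → ℝ} {h R : ℝ}
    (hR : 1 ≤ R) (hh : 0 < h) (hD : ∀ i, h ≤ D i) (h1 : ∀ i, D' i ≤ R * D i)
    (h2 : ∀ i, D i ≤ R * D' i) (hρ : ∀ i, |D' i - D i| ≤ 2 * (D i - h)) :
    |th l h D' - th l h D| ≤ 504 * R ^ 12 * dr l h D := by
  have hD0 : ∀ i, 0 < D i := fun i => hh.trans_le (hD i)
  have w0 := w1_pos hl hs hD0
  have R0 : 0 < R := by linarith
  have hR' : h ≤ R * h := le_mul_of_one_le_left hh.le hR
  have x1 : ∀ i, 0 ≤ 1 - h / D i := fun i => sub_nonneg.2 ((div_le_one (hD0 i)).2 (hD i))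
  refine (th_gen hl hs (ε₀ := 0) (ε := fun i => 2 * (1 - h / D i)) hR hh hD0 hR' hR' h1 h2
    (by simp) fun i => (hρ i).trans_eq (by have := hD0 i; field_simp)).trans ?_
  have s1 : ∑ i, l i * (D i)⁻¹ = w1 l D := by simp only [w1, div_eq_mul_inv]
  have s2 : ∑ i, l i * (3 * (D i ^ 2)⁻¹) = 3 * mu2 l h D / h ^ 2 := by
    rw [mu2, Finset.mul_sum, Finset.sum_div]
    exact Finset.sum_congr rfl fun i _ => by have := hD0 i; field_simp
  have s3 : ∑ i, l i * (2 * (1 - h / D i) * (D i)⁻¹) = 2 * tt l h D / h := by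
    rw [tt, Finset.mul_sum, Finset.sum_div]
    exact Finset.sum_congr rfl fun i _ => by have := hD0 i; field_simp
  have s4 : ∑ i, l i * (2 * (1 - h / D i) * (3 * (D i ^ 2)⁻¹)) = 6 * aa l h D / h ^ 2 := by
    rw [aa, Finset.mul_sum, Finset.sum_div]
    exact Finset.sum_congr rfl fun i _ => by have := hD0 i; field_simp; ring
  have a1 : ∑ i, ∑ m, l i * l m * TT h (D i) (D m) * (0 + 2 * (1 - h / D i) + 2 * (1 - h / D m)) ≤
      2 * (6 * aa l h D / h ^ 2) * w1 l D + 2 * (3 * mu2 l h D / h ^ 2) * (2 * tt l h D / h) := by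
    rw [← s1, ← s2, ← s3, ← s4, ← Rel_ds, ← Rel_ds, ← Finset.sum_add_distrib]
    refine Finset.sum_le_sum fun i _ => ?_
    rw [← Finset.sum_add_distrib]
    refine Finset.sum_le_sum fun m _ => ?_
    rw [mul_assoc, ← mul_add]
    refine mul_le_mul_of_nonneg_left ?_ (mul_nonneg (hl i) (hl m))
    exact (mul_le_mul_of_nonneg_right (Rel_T2 (hD0 i) hh (hD0 m))
      (by linarith only [x1, x1 i, x1 m])).trans_eq (by ring)
  have a2 : ∑ i, l i * (2 * (1 - h / D i)) / D i = 2 * tt l h D / h := by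
    rw [← s3]
    exact Finset.sum_congr rfl fun i _ => by ring
  have a3 : ∑ i, ∑ m, l i * l m * TT h (D i) (D m) ≤ 2 * (3 * mu2 l h D / h ^ 2) * w1 l D := by
    rw [← s1, ← s2, ← Rel_ds]
    exact Rel_dle hl fun i m => Rel_T2 (hD0 i) hh (hD0 m)
  have t0 : 0 ≤ tt l h D := Finset.sum_nonneg fun i _ =>
    mul_nonneg (hl i) (mul_nonneg (div_pos hh (hD0 i)).le (x1 i))
  have t1 : 0 ≤ aa l h D := Finset.sum_nonneg fun i _ =>
    mul_nonneg (hl i) (mul_nonneg (sq_nonneg _) (x1 i))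
  have t2 : La l h D = h * w1 l D := by
    rw [La, w1, Finset.mul_sum]
    exact Finset.sum_congr rfl fun i _ => by ring
  rw [a2, dr, t2]
  calc _ ≤ 21 * R ^ 12 * (2 * (2 * (6 * aa l h D / h ^ 2) * w1 l D) +
          2 * (3 * mu2 l h D / h ^ 2) * (2 * tt l h D / h) +
        2 * tt l h D / h / w1 l D * (2 * (3 * mu2 l h D / h ^ 2) * w1 l D)) / w1 l D ^ 3 := by
        have : 0 ≤ 2 * (6 * aa l h D / h ^ 2) * w1 l D := by positivity
        gcongr
        linarith only [a1, this]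
    _ = _ := by field_simp; ring

lemma ee_nonneg (hl : ∀ i, 0 ≤ l i) {D : Fin n → ℝ} {h b : ℝ} (hh : 0 ≤ h) (hb : 0 < b)
    (hD : ∀ i, 0 < D i) : 0 ≤ ee l h b D := by
  have w0 : 0 ≤ w1 l D := Finset.sum_nonneg fun i _ => div_nonneg (hl i) (hD i).le
  have := Rel_w2 hl D
  have := (Rel_wy hl hb hD).1
  unfold ee
  positivity

lemma ee_le (hl : ∀ i, 0 ≤ l i) (hs : 0 < ∑ i, l i) {D : Fin n → ℝ} {h b : ℝ} (hh : 0 < h)
    (hb : 0 < b) (hD : ∀ i, h ≤ D i) : ee l h b D ≤ 1 / (b * w1 l D) := by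
  have hD0 : ∀ i, 0 < D i := fun i => hh.trans_le (hD i)
  have w0 := w1_pos hl hs hD0
  obtain ⟨a1, a2⟩ := Rel_wy hl hb hD0
  have a3 : h * w2 l D ≤ w1 l D := by
    rw [w2, w1, Finset.mul_sum]
    refine Finset.sum_le_sum fun i _ => ?_
    have b1 := hD0 i
    calc h * (l i / D i ^ 2) ≤ D i * (l i / D i ^ 2) :=
          mul_le_mul_of_nonneg_right (hD i) (div_nonneg (hl i) (sq_nonneg _))
      _ = _ := by field_simp
  unfold ee
  calc _ ≤ w1 l D * w1 l D / (b * w1 l D ^ 3) := by gcongr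
    _ = _ := by field_simp

lemma La_eq (h : ℝ) (D : Fin n → ℝ) : La l h D = h * w1 l D := by
  rw [La, w1, Finset.mul_sum]
  exact Finset.sum_congr rfl fun i _ => by ring

lemma mu2_le (hl : ∀ i, 0 ≤ l i) {D : Fin n → ℝ} {h : ℝ} (hh : 0 < h) (hD : ∀ i, h ≤ D i) :
    0 ≤ mu2 l h D ∧ mu2 l h D ≤ La l h D ∧ 0 ≤ tt l h D ∧ 0 ≤ aa l h D := by
  have x0 : ∀ i, 0 < h / D i := fun i => div_pos hh (hh.trans_le (hD i))
  have x1 : ∀ i, h / D i ≤ 1 := fun i => (div_le_one (hh.trans_le (hD i))).2 (hD i)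
  refine ⟨Finset.sum_nonneg fun i _ => mul_nonneg (hl i) (sq_nonneg _),
    Finset.sum_le_sum fun i _ => mul_le_mul_of_nonneg_left ?_ (hl i),
    Finset.sum_nonneg fun i _ => mul_nonneg (hl i) (mul_nonneg (x0 i).le (sub_nonneg.2 (x1 i))),
    Finset.sum_nonneg fun i _ => mul_nonneg (hl i) (mul_nonneg (sq_nonneg _) (sub_nonneg.2 (x1 i)))⟩
  (refine le_of_not_gt fun h_nl => ?_; linarith only [h_nl, x1, x0, x0 i, x1 i, mul_nonneg_of_nonpos_of_nonpos (Mathlib.Tactic.Linarith.sub_nonpos_of_le (sq_nonneg ((1 : ℝ) * (h / D i)))) (Mathlib.Tactic.Linarith.sub_nonpos_of_le (x1 i)), mul_pos_of_neg_of_neg (Mathlib.Tactic.Linarith.sub_neg_of_lt h_nl) (Mathlib.Tactic.Linarith.sub_neg_of_lt (x0 i))])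

lemma Rel_pt {h d : ℝ} (hh : 0 < h) (hd : h ≤ d) :
    h / d / 2 ≤ h / 2 / (d - h / 2) ∧ h / 2 / (d - h / 2) ≤ h / d ∧
      h / d * (1 - h / d) / 2 ≤ h / d - h / 2 / (d - h / 2) ∧
      (h / d) ^ 2 - (h / 2 / (d - h / 2)) ^ 2 ≤ 2 * ((h / d) ^ 2 * (1 - h / d)) := by
  have d0 : 0 < d := hh.trans_le hd
  have d1 : 0 < d - h / 2 := by linarith only [hh, hd]
  have x0 : 0 < h / d := div_pos hh d0
  have x1 : h / d ≤ 1 := (div_le_one d0).2 hd
  have y0 : 0 < h / 2 / (d - h / 2) := by positivity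
  have e : h / d - h / 2 / (d - h / 2) = h / 2 / (d - h / 2) * (1 - h / d) := by
    have d2 : d * 2 - h ≠ 0 := by linarith only [hh, hd]
    have d3 : 2 * d - h ≠ 0 := by linarith only [hh, hd]
    field_simp
    ring
  generalize h / d = x at *
  generalize h / 2 / (d - h / 2) = y at *
  have a0 : 0 ≤ 1 - x := by linarith
  have a1 : y ≤ x := by linarith only [e, y0, a0, mul_nonneg y0.le a0]
  have a2 : x / 2 ≤ y := by linarith only [e, y0, x0, mul_pos y0 x0]
  refine ⟨a2, a1, ?_, ?_⟩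
  · linarith only [e, a2, a0, mul_le_mul_of_nonneg_right a2 a0]
  · have a3 : x - y ≤ x * (1 - x) := e.trans_le (mul_le_mul_of_nonneg_right a1 a0)
    have a4 : (x - y) * (x + y) ≤ x * (1 - x) * (2 * x) :=
      mul_le_mul a3 (by linarith) (by linarith) (mul_nonneg x0.le a0)
    linarith only [a4]

lemma drift_le (hl : ∀ i, 0 ≤ l i) (hs : 0 < ∑ i, l i) {D : Fin n → ℝ} {h : ℝ} (hh : 0 < h)
    (hD : ∀ i, h ≤ D i) :
    mu2 l h D * tt l h D / La l h D ^ 2 ≤ 8 * (aa l h D / La l h D) +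
      2 * (mu2 l (h / 2) (fun i => D i - h / 2) / La l (h / 2) (fun i => D i - h / 2) -
        mu2 l h D / La l h D) := by
  have hD0 : ∀ i, 0 < D i := fun i => hh.trans_le (hD i)
  have L0 : 0 < La l h D := by rw [La_eq]; exact mul_pos hh (w1_pos hl hs hD0)
  obtain ⟨m0, -, t0, a0⟩ := mu2_le hl hh hD
  have pt := fun i => Rel_pt hh (hD i)
  have b1 : La l h D / 2 ≤ La l (h / 2) fun i => D i - h / 2 := by
    unfold La
    rw [Finset.sum_div]
    exact Finset.sum_le_sum fun i _ => by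
      rw [mul_div_assoc]; exact mul_le_mul_of_nonneg_left (pt i).1 (hl i)
  have b2 : (La l (h / 2) fun i => D i - h / 2) ≤ La l h D :=
    Finset.sum_le_sum fun i _ => mul_le_mul_of_nonneg_left (pt i).2.1 (hl i)
  have b3 : tt l h D / 2 ≤ La l h D - La l (h / 2) fun i => D i - h / 2 := by
    unfold La tt
    rw [Finset.sum_div, ← Finset.sum_sub_distrib]
    exact Finset.sum_le_sum fun i _ => by
      rw [mul_div_assoc, ← mul_sub]; exact mul_le_mul_of_nonneg_left (pt i).2.2.1 (hl i)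
  have b4 : mu2 l h D - (mu2 l (h / 2) fun i => D i - h / 2) ≤ 2 * aa l h D := by
    unfold mu2 aa
    rw [Finset.mul_sum, ← Finset.sum_sub_distrib]
    exact Finset.sum_le_sum fun i _ => by
      rw [← mul_sub, mul_left_comm]; exact mul_le_mul_of_nonneg_left (pt i).2.2.2 (hl i)
  generalize (La l (h / 2) fun i => D i - h / 2) = L' at *
  generalize (mu2 l (h / 2) fun i => D i - h / 2) = M' at *
  generalize La l h D = L at *
  generalize mu2 l h D = M at *
  generalize tt l h D = t at *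
  generalize aa l h D = a at *
  have L1 : 0 < L' := by linarith only [L0, b1]
  have e : M' / L' - M / L = M * (L - L') / (L * L') - (M - M') / L' := by
    field_simp
    ring
  have c1 : (M - M') / L' ≤ 4 * (a / L) := by
    calc (M - M') / L' ≤ 2 * a / L' := by gcongr
      _ ≤ 2 * a / (L / 2) := by gcongr
      _ = _ := by field_simp; ring
  have c2 : M * t / L ^ 2 / 2 ≤ M * (L - L') / (L * L') := by
    calc M * t / L ^ 2 / 2 = M * (t / 2) / (L * L) := by field_simp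
      _ ≤ M * (L - L') / (L * L') := by gcongr
  rw [e]
  linarith only [c1, c2]

end Pool.Agent.Work.MP_af796d_an.H
end

-- merged part: Pool.Agent.Work.MP_af796d_an.H.Piece
section
/-!
# Bounds for the pieces of the decomposition
PLAN.  Let K be the constant of cv_bound, h = rr k, x = ch s, σ = 1 + x/h ≥ 1.  A = (K + 1) * 504 * 2^12 (or any larger number).
Basic facts: h ≤ DD y k t i; |DD y k (t - s) i - DD y k t i| ≤ x (abs_ch_sub_ch_le, ch_neg), hence each of the two is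
at most σ times the other; DD y (k+1) t i = DD y k t i - h/2.  t ↦ thk l y k j t is continuous (w1 > 0, denominators > 0) and periodic.
F is continuous and periodic (Sp_contDiff, Sp_periodic).
* gd, an0, fin, an, ud, sum: Spec.lean (Gk_mem, an_of_Sp, An.differentiable, Gk_fin, an_mul_Uk, Uk_differentiable, Uk_sum with th_sum).
* g0, g1: cv_bound with φ = F, E = h * w1: by CD.md at (t, t - s), ‖F (t-s) - F t‖ ≤ sum l x/(x + c_i), and
  x/(x + c) ≤ (h + x)/(h + c) = σ h / (h + c) (also when x + c = 0); σ ≤ σ^24.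
* u0, u1: cv_bound with φ = thk, E = 504 * ee l h b D: th_off with R = σ, ρ = x; ee l x b D = (x/h) ee l h b D ≤ σ ee l h b D.
* k0: th_off with R = 2, ρ = h/2.
* d0: at t = y j, b = h (ch_zero).  D' = DD y k (y j - s) has D' j = h + x = σ h, so by th_hom
  thk (y j - s) = th l h (D'/σ).  With d = ch (y j - y i), D i = h + d, c' = ch (y j - s - y i), |c' - x| ≤ d:
  h D' i - D i (h + x) = h (c' - x) - d (h + x), so |D' i / σ - D i| ≤ 2 d = 2 (D i - h); D' i / σ ≤ D i ≤ σ^2 (D' i / σ).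
  th_diag with R = σ^2 gives σ^24; cv_bound with E = 504 * dr.
* d1: thk (k+1) j (y j) = th l (h/2) (D - h/2) = th l h (2 D - h) by th_hom with κ = 2; th_diag with R = 2.
-/

set_option autoImplicit false

namespace Pool.Agent.Work.MP_af796d_an.H

open MeasureTheory Set Real Metric Filter Topology

variable {n : ℕ}

lemma DD_ge (y : Fin n → ℝ) (k : ℕ) (t : ℝ) (i : Fin n) : rr k ≤ DD y k t i := by
  have := ch_nonneg (t - y i)
  unfold DD
  linarith

lemma DD_self (y : Fin n → ℝ) (k : ℕ) (j : Fin n) : DD y k (y j) j = rr k := by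
  unfold DD
  rw [sub_self, ch_zero, add_zero]

lemma DD_succ (y : Fin n → ℝ) (k : ℕ) (t : ℝ) :
    DD y (k + 1) t = fun i => DD y k t i - rr k / 2 := by
  funext i
  unfold DD
  rw [rr_succ]
  ring

lemma w1_succ {l : Fin n → ℝ} (hl : ∀ i, 0 ≤ l i) (y : Fin n → ℝ) (k : ℕ) (t : ℝ) :
    w1 l (DD y k t) ≤ w1 l (DD y (k + 1) t) ∧ w1 l (DD y (k + 1) t) ≤ 2 * w1 l (DD y k t) ∧
      rr k * w2 l (DD y k t) ≤ 2 * (w1 l (DD y (k + 1) t) - w1 l (DD y k t)) ∧
      rr (k + 1) * w1 l (DD y (k + 1) t) ≤ rr k * w1 l (DD y k t) := by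
  have hh := rr_pos k
  have hD := DD_ge y k t
  rw [DD_succ, rr_succ]
  unfold w1 w2
  refine ⟨?_, ?_, ?_, ?_⟩
  · refine Finset.sum_le_sum fun i _ => ?_
    have := hD i
    exact div_le_div_of_nonneg_left (hl i) (by linarith only [hh, this]) (by linarith)
  · rw [Finset.mul_sum]
    refine Finset.sum_le_sum fun i _ => ?_
    have h1 := hD i
    have h2 := hl i
    rw [← mul_div_assoc, div_le_div_iff₀ (by linarith) (by linarith)]
    linarith only [h2, h1, mul_nonneg h2 (sub_nonneg.2 h1)]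
  · rw [← Finset.sum_sub_distrib, Finset.mul_sum, Finset.mul_sum]
    refine Finset.sum_le_sum fun i _ => ?_
    have h1 := hD i
    have h2 := hl i
    have h3 : 0 < DD y k t i := by linarith
    have h4 : 0 < DD y k t i - rr k / 2 := by linarith
    have e : 2 * (l i / (DD y k t i - rr k / 2) - l i / DD y k t i) =
        rr k * (l i / (DD y k t i * (DD y k t i - rr k / 2))) := by
      rw [div_sub_div _ _ h4.ne' h3.ne', mul_comm (DD y k t i - rr k / 2) (DD y k t i),
        ← mul_div_assoc, ← mul_div_assoc]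
      congr 1
      ring
    rw [e]
    refine mul_le_mul_of_nonneg_left ?_ hh.le
    refine div_le_div_of_nonneg_left h2 (mul_pos h3 h4) ?_
    linarith only [hh, h1, mul_pos_of_neg_of_neg (Mathlib.Tactic.Linarith.sub_neg_of_lt hh) (Mathlib.Tactic.Linarith.sub_neg_of_lt hh), mul_nonneg_of_nonpos_of_nonpos (le_of_lt (Mathlib.Tactic.Linarith.sub_neg_of_lt hh)) (Mathlib.Tactic.Linarith.sub_nonpos_of_le h1)]
  · rw [Finset.mul_sum, Finset.mul_sum]
    refine Finset.sum_le_sum fun i _ => ?_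
    have h1 := hD i
    have h2 := hl i
    rw [← mul_div_assoc, ← mul_div_assoc, div_le_div_iff₀ (by linarith) (by linarith)]
    linarith only [hh, h2, h1, mul_nonneg (mul_nonneg hh.le h2) (sub_nonneg.2 h1)]

lemma Piece_pos (y : Fin n → ℝ) (k : ℕ) (t : ℝ) (i : Fin n) : 0 < DD y k t i :=
  (rr_pos k).trans_le (DD_ge y k t i)

lemma Piece_abs (y : Fin n → ℝ) (k : ℕ) (t s : ℝ) (i : Fin n) :
    |DD y k (t - s) i - DD y k t i| ≤ ch s := by
  have h := abs_ch_sub_ch_le (t - y i) (-s)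
  rw [ch_neg] at h
  have e : DD y k (t - s) i - DD y k t i = ch (t - y i + -s) - ch (t - y i) := by
    unfold DD
    rw [show t - s - y i = t - y i + -s by ring]
    ring
  rw [e]
  exact h

lemma Piece_ratio {h x a b : ℝ} (hh : 0 < h) (hx : 0 ≤ x) (ha : h ≤ a) (hab : b - a ≤ x) :
    b ≤ (1 + x / h) * a := by
  have h1 : x ≤ x / h * a := by
    calc x = x / h * h := by field_simp
      _ ≤ x / h * a := mul_le_mul_of_nonneg_left ha (div_nonneg hx hh.le)
  linarith only [hab, h1]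

lemma Piece_r1 (y : Fin n → ℝ) (k : ℕ) (t s : ℝ) (i : Fin n) :
    DD y k (t - s) i ≤ (1 + ch s / rr k) * DD y k t i :=
  Piece_ratio (rr_pos k) (ch_nonneg s) (DD_ge y k t i) (abs_le.1 (Piece_abs y k t s i)).2

lemma Piece_r2 (y : Fin n → ℝ) (k : ℕ) (t s : ℝ) (i : Fin n) :
    DD y k t i ≤ (1 + ch s / rr k) * DD y k (t - s) i :=
  Piece_ratio (rr_pos k) (ch_nonneg s) (DD_ge y k (t - s) i)
    (by have := (abs_le.1 (Piece_abs y k t s i)).1; linarith)

lemma Piece_one (k : ℕ) (s : ℝ) : 1 ≤ 1 + ch s / rr k := by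
  have := div_nonneg (ch_nonneg s) (rr_pos k).le
  linarith only [this]

lemma Piece_cD (y : Fin n → ℝ) (k : ℕ) (i : Fin n) : Continuous fun t => DD y k t i := by
  unfold DD
  exact continuous_const.add (continuous_ch.comp (continuous_id.sub continuous_const))

lemma Piece_cT {a b c : ℝ → ℝ} (ha : Continuous a) (hb : Continuous b) (hc : Continuous c)
    (pa : ∀ t, 0 < a t) (pb : ∀ t, 0 < b t) (pc : ∀ t, 0 < c t) :
    Continuous fun t => TT (b t) (a t) (c t) := by
  unfold TT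
  refine Continuous.div (by fun_prop) (by fun_prop) fun t => ?_
  have := pa t
  have := pb t
  have := pc t
  positivity

lemma Piece_cont {l : Fin n → ℝ} (hl : ∀ i, 0 ≤ l i) (hs : 0 < ∑ i, l i) (y : Fin n → ℝ) (k : ℕ)
    (j : Fin n) : Continuous fun t => (thk l y k j t : ℂ) := by
  refine Complex.continuous_ofReal.comp ?_
  unfold thk th
  refine Continuous.div (continuous_const.mul ?_) (Continuous.pow ?_ 3) fun t => ?_
  · refine continuous_finset_sum _ fun i _ => continuous_finset_sum _ fun m _ => ?_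
    exact continuous_const.mul (Piece_cT (Piece_cD y k i) (Piece_cD y k j) (Piece_cD y k m)
      (fun t => Piece_pos y k t i) (fun t => Piece_pos y k t j) (fun t => Piece_pos y k t m))
  · unfold w1
    exact continuous_finset_sum _ fun i _ =>
      continuous_const.div (Piece_cD y k i) fun t => (Piece_pos y k t i).ne'
  · exact (pow_pos (w1_pos hl hs (Piece_pos y k t)) 3).ne'

lemma Piece_per (l y : Fin n → ℝ) (k : ℕ) (j : Fin n) :
    Function.Periodic (fun t => (thk l y k j t : ℂ)) (2 * π) := by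
  intro t
  have e : DD y k (t + 2 * π) = DD y k t := by
    funext i
    unfold DD
    rw [show t + 2 * π - y i = t - y i + 2 * π by ring, ch_periodic]
  simp only [thk, e]

lemma Piece_frac {h x c : ℝ} (hh : 0 < h) (hx : 0 ≤ x) (hc : 0 ≤ c) :
    x / (x + c) ≤ (1 + x / h) * (h / (h + c)) := by
  have e : (1 + x / h) * (h / (h + c)) = (h + x) / (h + c) := by
    field_simp
  rw [e]
  rcases (add_nonneg hx hc).eq_or_lt with h0 | h0
  · rw [← h0, div_zero]
    positivity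
  · rw [div_le_div_iff₀ h0 (by positivity)]
    linarith only [hh, hc, mul_nonneg hh.le hc, mul_nonneg hx hx, mul_self_nonneg x]

lemma Piece_F {l y : Fin n → ℝ} {F : ℝ → ℂ} (h : CD l y F) (k : ℕ) (t s : ℝ) :
    ‖F (t - s) - F t‖ ≤ rr k * w1 l (DD y k t) * (1 + ch s / rr k) ^ 24 := by
  have h1 := h.md t (t - s)
  rw [sub_sub_cancel] at h1
  rw [norm_sub_rev]
  refine h1.trans ?_
  have hσ := Piece_one k s
  have hw := (w1_pos h.nn h.pos (Piece_pos y k t)).le
  calc ∑ i, l i * (ch s / (ch s + ch (t - y i)))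
      ≤ ∑ i, l i * ((1 + ch s / rr k) * (rr k / DD y k t i)) :=
        Finset.sum_le_sum fun i _ => mul_le_mul_of_nonneg_left
          (Piece_frac (rr_pos k) (ch_nonneg s) (ch_nonneg _)) (h.nn i)
    _ = rr k * w1 l (DD y k t) * (1 + ch s / rr k) := by
        unfold w1
        rw [Finset.mul_sum, Finset.sum_mul]
        exact Finset.sum_congr rfl fun i _ => by ring
    _ ≤ _ := mul_le_mul_of_nonneg_left (le_self_pow₀ hσ (by norm_num))
        (mul_nonneg (rr_pos k).le hw)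

lemma Piece_ee (l : Fin n → ℝ) {h : ℝ} (hh : 0 < h) (x b : ℝ) (D : Fin n → ℝ) :
    ee l x b D = x / h * ee l h b D := by
  unfold ee
  have e : x = x / h * h := by field_simp
  calc x * w2 l D * wy l b D / (b * w1 l D ^ 3)
      = (x / h * h) * w2 l D * wy l b D / (b * w1 l D ^ 3) := by rw [← e]
    _ = _ := by ring

lemma Piece_u {l : Fin n → ℝ} (hl : ∀ i, 0 ≤ l i) (hs : 0 < ∑ i, l i) (y : Fin n → ℝ) (k : ℕ)
    (j : Fin n) (t s : ℝ) :
    ‖(thk l y k j (t - s) : ℂ) - (thk l y k j t : ℂ)‖ ≤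
      504 * ee l (rr k) (DD y k t j) (DD y k t) * (1 + ch s / rr k) ^ 24 := by
  rw [← Complex.ofReal_sub, Complex.norm_real, Real.norm_eq_abs]
  have hσ := Piece_one k s
  have h1 := th_off hl hs hσ (Piece_pos y k t j) (Piece_pos y k t) (Piece_r1 y k t s j)
    (Piece_r2 y k t s j) (Piece_r1 y k t s) (Piece_r2 y k t s) (Piece_abs y k t s j)
    (Piece_abs y k t s)
  refine h1.trans ?_
  rw [Piece_ee l (rr_pos k)]
  have he := ee_nonneg hl (rr_pos k).le (Piece_pos y k t j) (Piece_pos y k t)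
  have h2 : (1 + ch s / rr k) ^ 12 * (ch s / rr k) ≤ (1 + ch s / rr k) ^ 24 := by
    calc (1 + ch s / rr k) ^ 12 * (ch s / rr k) ≤ (1 + ch s / rr k) ^ 12 * (1 + ch s / rr k) :=
          mul_le_mul_of_nonneg_left (by linarith only []) (by positivity)
      _ = (1 + ch s / rr k) ^ 13 := (pow_succ _ 12).symm
      _ ≤ _ := pow_le_pow_right₀ hσ (by norm_num)
  calc 504 * (1 + ch s / rr k) ^ 12 * (ch s / rr k * ee l (rr k) (DD y k t j) (DD y k t))
      = 504 * ee l (rr k) (DD y k t j) (DD y k t) * ((1 + ch s / rr k) ^ 12 * (ch s / rr k)) := by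
        ring
    _ ≤ _ := mul_le_mul_of_nonneg_left h2 (by positivity)

lemma Piece_k {l : Fin n → ℝ} (hl : ∀ i, 0 ≤ l i) (hs : 0 < ∑ i, l i) (y : Fin n → ℝ) (k : ℕ)
    (j : Fin n) (t : ℝ) :
    |thk l y (k + 1) j t - thk l y k j t| ≤
      504 * 2 ^ 12 * ee l (rr k) (DD y k t j) (DD y k t) := by
  have hh := rr_pos k
  have a1 : ∀ i, DD y (k + 1) t i ≤ 2 * DD y k t i := fun i => by
    have := DD_ge y k t i
    rw [DD_succ]
    show DD y k t i - rr k / 2 ≤ _
    linarith only [hh, this]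
  have a2 : ∀ i, DD y k t i ≤ 2 * DD y (k + 1) t i := fun i => by
    have := DD_ge y k t i
    rw [DD_succ]
    show _ ≤ 2 * (DD y k t i - rr k / 2)
    linarith
  have a3 : ∀ i, |DD y (k + 1) t i - DD y k t i| ≤ rr k := fun i => by
    rw [DD_succ]
    show |DD y k t i - rr k / 2 - DD y k t i| ≤ _
    rw [abs_le]
    constructor <;> linarith only [hh]
  exact th_off hl hs one_le_two (Piece_pos y k t j) (Piece_pos y k t) (a1 j) (a2 j) a1 a2 (a3 j) a3

lemma Piece_dr {l : Fin n → ℝ} (hl : ∀ i, 0 ≤ l i) (y : Fin n → ℝ) (k : ℕ) (t : ℝ) :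
    0 ≤ dr l (rr k) (DD y k t) := by
  obtain ⟨h1, h2, h3, h4⟩ := mu2_le hl (rr_pos k) (DD_ge y k t)
  have h5 := h1.trans h2
  unfold dr
  positivity

lemma Piece_diag {h x c d : ℝ} (hh : 0 < h) (hx : 0 ≤ x) (hd : 0 ≤ d) (hc : |c - x| ≤ d) :
    |(h + c) / (1 + x / h) - (h + d)| ≤ 2 * (h + d - h) := by
  have hp : 0 < h + x := by linarith
  have e : (h + c) / (1 + x / h) - (h + d) = (h * (c - x) - d * (h + x)) / (h + x) := by
    field_simp
    ring
  obtain ⟨h1, h2⟩ := abs_le.1 hc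
  rw [e, abs_div, abs_of_pos hp, div_le_iff₀ hp, abs_le]
  constructor
  · linarith only [h1, hh, hd, hx, mul_le_mul_of_nonneg_left h1 hh.le, mul_nonneg hd hx]
  · linarith only [h2, hh, hd, hx, mul_le_mul_of_nonneg_left h2 hh.le, mul_nonneg hd hx, mul_nonneg hd hh.le]

lemma Piece_d0 {l : Fin n → ℝ} (hl : ∀ i, 0 ≤ l i) (hs : 0 < ∑ i, l i) (y : Fin n → ℝ) (k : ℕ)
    (j : Fin n) (s : ℝ) :
    ‖(thk l y k j (y j - s) : ℂ) - (thk l y k j (y j) : ℂ)‖ ≤
      504 * dr l (rr k) (DD y k (y j)) * (1 + ch s / rr k) ^ 24 := by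
  rw [← Complex.ofReal_sub, Complex.norm_real, Real.norm_eq_abs]
  have hh := rr_pos k
  have hσ := Piece_one k s
  have hσ0 : 0 < 1 + ch s / rr k := by linarith only [hσ]
  have e1 : DD y k (y j - s) j = (1 + ch s / rr k) * rr k := by
    unfold DD
    rw [show y j - s - y j = -s by ring, ch_neg]
    field_simp
  have e2 : DD y k (y j - s) =
      fun i => (1 + ch s / rr k) * (DD y k (y j - s) i / (1 + ch s / rr k)) := by
    funext i
    rw [mul_div_cancel₀ _ hσ0.ne']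
  have e3 : thk l y k j (y j - s) =
      th l (rr k) (fun i => DD y k (y j - s) i / (1 + ch s / rr k)) := by
    rw [← th_hom (l := l) hσ0 hh (fun i => div_pos (Piece_pos y k (y j - s) i) hσ0), ← e2, ← e1]
    rfl
  have e4 : thk l y k j (y j) = th l (rr k) (DD y k (y j)) := by
    unfold thk
    rw [DD_self]
  have hσ2 : 1 ≤ (1 + ch s / rr k) ^ 2 := one_le_pow₀ hσ
  have h1 := th_diag hl hs (D := DD y k (y j))
    (D' := fun i => DD y k (y j - s) i / (1 + ch s / rr k)) hσ2 hh (DD_ge y k (y j))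
    (fun i => by
      have b1 := Piece_r1 y k (y j) s i
      have b2 := Piece_pos y k (y j) i
      have b3 : DD y k (y j - s) i / (1 + ch s / rr k) ≤ DD y k (y j) i := by
        rw [div_le_iff₀ hσ0]
        linarith only [b1]
      exact b3.trans (le_mul_of_one_le_left b2.le hσ2))
    (fun i => by
      have b1 := Piece_r2 y k (y j) s i
      have b2 : (1 + ch s / rr k) ^ 2 * (DD y k (y j - s) i / (1 + ch s / rr k)) =
          (1 + ch s / rr k) * DD y k (y j - s) i := by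
        rw [sq, mul_assoc, mul_div_cancel₀ _ hσ0.ne']
      rw [b2]
      exact b1)
    (fun i => by
      have b1 := abs_ch_sub_ch_le (-s) (y j - y i)
      rw [ch_neg, show -s + (y j - y i) = y j - s - y i by ring] at b1
      exact Piece_diag hh (ch_nonneg s) (ch_nonneg _) b1)
  rw [e3, e4]
  refine h1.trans (le_of_eq ?_)
  ring

lemma Piece_d1 {l : Fin n → ℝ} (hl : ∀ i, 0 ≤ l i) (hs : 0 < ∑ i, l i) (y : Fin n → ℝ) (k : ℕ)
    (j : Fin n) :
    |thk l y (k + 1) j (y j) - thk l y k j (y j)| ≤ 504 * 2 ^ 12 * dr l (rr k) (DD y k (y j)) := by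
  have hh := rr_pos k
  have e3 : thk l y (k + 1) j (y j) = th l (rr k) (fun i => 2 * DD y (k + 1) (y j) i) := by
    unfold thk
    rw [DD_self, ← th_hom (l := l) two_pos (rr_pos (k + 1)) (Piece_pos y (k + 1) (y j)), rr_succ]
    congr 1
    ring
  have e4 : thk l y k j (y j) = th l (rr k) (DD y k (y j)) := by
    unfold thk
    rw [DD_self]
  rw [e3, e4, DD_succ]
  refine th_diag hl hs one_le_two hh (DD_ge y k (y j)) (fun i => ?_) (fun i => ?_) fun i => ?_
  · linarith only [hh]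
  · have := DD_ge y k (y j) i
    linarith only [hh, this]
  · have := DD_ge y k (y j) i
    rw [abs_le]
    constructor <;> linarith only [this]

theorem pieces : ∃ A : ℝ, 0 ≤ A ∧ ∀ (n : ℕ) (l y : Fin n → ℝ) (F : ℝ → ℂ),
    CD l y F → PB l y F A := by
  obtain ⟨K, hK, hcv⟩ := cv_bound
  have hA1 : K ≤ (K + 1) * (504 * 2 ^ 12) := by linarith only [hK]
  have hA2 : K * 504 ≤ (K + 1) * (504 * 2 ^ 12) := by nlinarith
  have hA3 : (504 * 2 ^ 12 : ℝ) ≤ (K + 1) * (504 * 2 ^ 12) := by nlinarith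
  refine ⟨(K + 1) * (504 * 2 ^ 12), hK.trans hA1, fun n l y F h => ?_⟩
  obtain ⟨d, hF⟩ := h.sp
  have cF := (Sp_contDiff hF).continuous
  have pF := Sp_periodic hF
  have hw : ∀ k t, 0 ≤ w1 l (DD y k t) := fun k t => (w1_pos h.nn h.pos (Piece_pos y k t)).le
  have he : ∀ k j t, 0 ≤ ee l (rr k) (DD y k t j) (DD y k t) := fun k j t =>
    ee_nonneg h.nn (rr_pos k).le (Piece_pos y k t j) (Piece_pos y k t)
  have hG := fun k t => hcv k (42 * 2 ^ k) (Nat.mul_le_mul_right _ (by norm_num)) le_rfl F cF pF t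
    _ (Piece_F h k t)
  have hU := fun k j t => hcv k (14 * 2 ^ k) le_rfl (Nat.mul_le_mul_right _ (by norm_num)) _
    (Piece_cont h.nn h.pos y k j) (Piece_per l y k j) t _ (Piece_u h.nn h.pos y k j t)
  have hV := fun k j => hcv k (14 * 2 ^ k) le_rfl (Nat.mul_le_mul_right _ (by norm_num)) _
    (Piece_cont h.nn h.pos y k j) (Piece_per l y k j) (y j) _ (Piece_d0 h.nn h.pos y k j)
  refine ⟨fun k => (an_of_Sp (Gk_mem hF k)).differentiable, fun k t => ?_, fun k t => ?_,
    fun k j => Uk_differentiable k (Piece_cont h.nn h.pos y k j) (Piece_per l y k j),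
    fun k j t => ?_, fun k j t => ?_, fun k j t => ?_, fun k j => ?_, fun k j => ?_,
    fun k j => an_mul_Uk hF k (Piece_cont h.nn h.pos y k j) (Piece_per l y k j),
    an_of_Sp (Gk_mem hF 0), Gk_fin hF, fun k t => ?_⟩
  · exact (hG k t).1.trans (mul_le_mul_of_nonneg_right hA1 (mul_nonneg (rr_pos k).le (hw k t)))
  · refine (hG k t).2.trans ?_
    have e : K * (rr k * w1 l (DD y k t)) / rr k = K * w1 l (DD y k t) := by
      have := (rr_pos k).ne'
      field_simp
    rw [e]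
    exact mul_le_mul_of_nonneg_right hA1 (hw k t)
  · refine (hU k j t).1.trans ?_
    rw [← mul_assoc]
    exact mul_le_mul_of_nonneg_right hA2 (he k j t)
  · refine (hU k j t).2.trans (div_le_div_of_nonneg_right ?_ (rr_pos k).le)
    rw [← mul_assoc]
    exact mul_le_mul_of_nonneg_right hA2 (he k j t)
  · exact (Piece_k h.nn h.pos y k j t).trans (mul_le_mul_of_nonneg_right hA3 (he k j t))
  · refine (hV k j).1.trans ?_
    rw [← mul_assoc]
    exact mul_le_mul_of_nonneg_right hA2 (Piece_dr h.nn y k (y j))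
  · exact (Piece_d1 h.nn h.pos y k j).trans
      (mul_le_mul_of_nonneg_right hA3 (Piece_dr h.nn y k (y j)))
  · refine Uk_sum k l (fun j => Piece_cont h.nn h.pos y k j) (fun s => ?_) t
    have h1 := th_sum h.nn h.pos (Piece_pos y k s)
    have h2 : ((∑ j, l j * th l (DD y k s j) (DD y k s) : ℝ) : ℂ) = 1 := by
      rw [h1, Complex.ofReal_one]
    rw [← h2, Complex.ofReal_sum]
    exact Finset.sum_congr rfl fun j _ => (Complex.ofReal_mul _ _).symm

end Pool.Agent.Work.MP_af796d_an.H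
end

-- merged part: Pool.Agent.Work.MP_af796d_an.H.Atom
section
/-!
# The functions ZZ are atoms
PLAN.  Fix j, t; c = ch (t - y j), h = rr k, b = h + c = DD y k t j, w = w1 l (DD y k t), θ = thk, e = ee, X = XX l y F k j.
From PB, w1_succ, th_le', ee_le: ‖G (k+1) - G k‖ ≤ 2 A h w, ‖G' (k+1) - G' k‖ ≤ 3 A w, 0 ≤ θ ≤ 18/(b w), e ≤ 1/(b w).
* XX_le: ‖X t‖ ≤ 2 A (18 + A) h / b.   X' = (G' (k+1) - G' k) ths + (G (k+1) - G k) ths', so
  ‖X' - (G' (k+1) - G' k) θ‖ ≤ 5 A^2 w e (XX_err) and ‖X'‖ ≤ (54 A + 5 A^2)/b (XX_deriv_le).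
* sup bound of ZZ: put δ = X (y j), ‖δ‖ ≤ B0 = 2 A (18 + A) (DD_self).  If h ≤ c: ‖X t‖ + ‖δ‖ ‖t4‖ ≤ B0 h/c + 16 B0 h/c.
  If c ≤ h: choose t' = t + 2π m with |t' - y j| ≤ π (exists_window, periodicity An.periodic), |t' - y j| ≤ 2 c (le_ch'),
  mean value inequality with ‖X'‖ ≤ B1/h gives ‖X t - δ‖ ≤ 2 B1 c/h, and ‖δ‖ ‖t4 - 1‖ ≤ 8 B0 c/h.
  In both cases the term is at most B2 * min (c/h) (h/c) ≤ 4 B2 om h c; sum with om_sum.
* derivative bound: c * ‖δ‖ * ‖t4'‖ ≤ 128 B0 * c h^4/(h+c)^5 ≤ 128 B0 om h c.  For c * ‖sum X'‖: trivial if c = 0.  Otherwise let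
  k0 be the least k with rr k ≤ c.  Terms k < k0: c B1/(h + c) ≤ 2 B1 * ... use c/(h+c) ≤ 2 * om h c when c ≤ h, sum ≤ 4 B1.
  Terms k0 ≤ k < K: lemma ab_sum below with Y = sum l i / (c + ch (t - y i)):
  wy l b D ≤ Y ≤ w at level k0, b ≥ c, h w2 ≤ 2 (w (k+1) - w k), so e k ≤ 2 (w (k+1) - w k) Y / (c (w k)^3).
* ab_sum: w k * e k ≤ 2 Y (w (k+1) - w k)/(c (w k)^2) ≤ 4 Y (1/w k - 1/w (k+1))/c, telescoping sum ≤ 4/c.  Abel:
  sum (g (k+1) - g k) θ k = g K θ K - g k0 θ k0 - sum g (k+1) (θ (k+1) - θ k).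
-/

set_option autoImplicit false

namespace Pool.Agent.Work.MP_af796d_an.H

open MeasureTheory Set Real Metric Filter Topology

variable {n : ℕ}

lemma Atom_abel (g θ : ℕ → ℂ) {a b : ℕ} (h : a ≤ b) :
    ∑ k ∈ Finset.Ico a b, (g (k + 1) - g k) * θ k =
      g b * θ b - g a * θ a - ∑ k ∈ Finset.Ico a b, g (k + 1) * (θ (k + 1) - θ k) := by
  induction b, h using Nat.le_induction with
  | base => simp
  | succ m hm ih =>
    rw [Finset.sum_Ico_succ_top hm, Finset.sum_Ico_succ_top hm, ih]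
    ring

lemma Atom_tel (f : ℕ → ℝ) {a b : ℕ} (h : a ≤ b) :
    ∑ k ∈ Finset.Ico a b, (f k - f (k + 1)) = f a - f b := by
  induction b, h using Nat.le_induction with
  | base => simp
  | succ m hm ih =>
    rw [Finset.sum_Ico_succ_top hm, ih]
    ring

lemma Atom_we {w e : ℕ → ℝ} {c Y : ℝ} {k₀ K : ℕ} (hk : k₀ ≤ K) (hc : 0 < c)
    (hw : ∀ k, 0 < w k) (hw1 : ∀ k, w k ≤ w (k + 1))
    (hw2 : ∀ k, w (k + 1) ≤ 2 * w k) (hY0 : 0 ≤ Y) (hY : Y ≤ w k₀)
    (he : ∀ k, k₀ ≤ k → e k ≤ 2 * (w (k + 1) - w k) * Y / (c * w k ^ 3)) :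
    c * ∑ k ∈ Finset.Ico k₀ K, w k * e k ≤ 4 := by
  have h1 : ∀ k ∈ Finset.Ico k₀ K, c * (w k * e k) ≤ 4 * Y * (1 / w k - 1 / w (k + 1)) := by
    intro k hk'
    have h0 := hw k
    have h0' := hw (k + 1)
    have h2 := mul_le_mul_of_nonneg_left (he k (Finset.mem_Ico.mp hk').1) (mul_pos hc h0).le
    have h3 : c * w k * (2 * (w (k + 1) - w k) * Y / (c * w k ^ 3)) =
        2 * Y * (w (k + 1) - w k) * (1 / (w k * w k)) := by
      field_simp
    have h4 : 4 * Y * (1 / w k - 1 / w (k + 1)) =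
        2 * Y * (w (k + 1) - w k) * (2 / (w k * w (k + 1))) := by
      field_simp
      ring
    have h5 : 1 / (w k * w k) ≤ 2 / (w k * w (k + 1)) := by
      rw [div_le_div_iff₀ (mul_pos h0 h0) (mul_pos h0 h0')]
      linarith only [hw2, h0, mul_le_mul_of_nonneg_left (hw2 k) h0.le]
    have h6 : 0 ≤ 2 * Y * (w (k + 1) - w k) :=
      mul_nonneg (mul_nonneg (by norm_num) hY0) (sub_nonneg.mpr (hw1 k))
    rw [h4, ← mul_assoc]
    exact (h2.trans h3.le).trans (mul_le_mul_of_nonneg_left h5 h6)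
  rw [Finset.mul_sum]
  refine (Finset.sum_le_sum h1).trans ?_
  rw [← Finset.mul_sum, Atom_tel (fun k => 1 / w k) hk]
  have h7 : Y * (1 / w k₀) ≤ 1 := by
    rw [mul_one_div, div_le_one (hw k₀)]
    exact hY
  have h8 : 0 ≤ Y * (1 / w K) := mul_nonneg hY0 (one_div_pos.mpr (hw K)).le
  linarith only [h7, h8]

lemma ab_sum {g x : ℕ → ℂ} {w θ e : ℕ → ℝ} {A B c Y : ℝ} {k₀ K : ℕ} (hk : k₀ ≤ K) (hc : 0 < c)
    (hA : 0 ≤ A) (hB : 0 ≤ B) (hw : ∀ k, 0 < w k) (hw1 : ∀ k, w k ≤ w (k + 1))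
    (hw2 : ∀ k, w (k + 1) ≤ 2 * w k) (hY0 : 0 ≤ Y) (hY : Y ≤ w k₀)
    (he : ∀ k, k₀ ≤ k → e k ≤ 2 * (w (k + 1) - w k) * Y / (c * w k ^ 3))
    (hg : ∀ k, ‖g k‖ ≤ A * w k) (hθ : ∀ k, |θ k| ≤ 18 / (c * w k))
    (hd : ∀ k, |θ (k + 1) - θ k| ≤ A * e k)
    (hx : ∀ k, ‖x k - (g (k + 1) - g k) * (θ k : ℂ)‖ ≤ B * (w k * e k)) :
    c * ‖∑ k ∈ Finset.Ico k₀ K, x k‖ ≤ 36 * A + 8 * A ^ 2 + 4 * B := by
  have hwe := Atom_we hk hc hw hw1 hw2 hY0 hY he
  have hb : ∀ k, c * ‖g k * (θ k : ℂ)‖ ≤ 18 * A := by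
    intro k
    have h0 := hw k
    rw [norm_mul, Complex.norm_real, Real.norm_eq_abs]
    have h1 : ‖g k‖ * |θ k| ≤ A * w k * (18 / (c * w k)) :=
      mul_le_mul (hg k) (hθ k) (abs_nonneg _) (mul_nonneg hA h0.le)
    have h2 : c * (A * w k * (18 / (c * w k))) = 18 * A := by
      field_simp
    exact (mul_le_mul_of_nonneg_left h1 hc.le).trans h2.le
  have h1 : ‖∑ k ∈ Finset.Ico k₀ K, g (k + 1) * ((θ (k + 1) : ℂ) - θ k)‖ ≤
      2 * A ^ 2 * ∑ k ∈ Finset.Ico k₀ K, w k * e k := by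
    rw [Finset.mul_sum]
    refine (norm_sum_le _ _).trans (Finset.sum_le_sum fun k _ => ?_)
    rw [norm_mul, ← Complex.ofReal_sub, Complex.norm_real, Real.norm_eq_abs]
    have h2 : ‖g (k + 1)‖ ≤ A * (2 * w k) :=
      (hg (k + 1)).trans (mul_le_mul_of_nonneg_left (hw2 k) hA)
    have h3 := mul_le_mul h2 (hd k) (abs_nonneg _)
      (mul_nonneg hA (mul_nonneg (by norm_num) (hw k).le))
    refine h3.trans (le_of_eq ?_)
    ring
  have h2 : ‖∑ k ∈ Finset.Ico k₀ K, (x k - (g (k + 1) - g k) * (θ k : ℂ))‖ ≤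
      B * ∑ k ∈ Finset.Ico k₀ K, w k * e k := by
    rw [Finset.mul_sum]
    exact (norm_sum_le _ _).trans (Finset.sum_le_sum fun k _ => hx k)
  have h3 : ∑ k ∈ Finset.Ico k₀ K, x k =
      ∑ k ∈ Finset.Ico k₀ K, (x k - (g (k + 1) - g k) * (θ k : ℂ)) +
        (g K * θ K - g k₀ * θ k₀ - ∑ k ∈ Finset.Ico k₀ K, g (k + 1) * ((θ (k + 1) : ℂ) - θ k)) := by
    rw [← Atom_abel g (fun k => (θ k : ℂ)) hk, ← Finset.sum_add_distrib]
    exact Finset.sum_congr rfl fun k _ => by ring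
  have h4 : ‖∑ k ∈ Finset.Ico k₀ K, x k‖ ≤ B * ∑ k ∈ Finset.Ico k₀ K, w k * e k +
      (‖g K * (θ K : ℂ)‖ + ‖g k₀ * (θ k₀ : ℂ)‖ + 2 * A ^ 2 * ∑ k ∈ Finset.Ico k₀ K, w k * e k) := by
    rw [h3]
    refine (norm_add_le _ _).trans (add_le_add h2 ?_)
    exact (norm_sub_le _ _).trans (add_le_add (norm_sub_le _ _) h1)
  have h5 := mul_le_mul_of_nonneg_left h4 hc.le
  have h6 := mul_le_mul_of_nonneg_left hwe hB
  have h7 := mul_le_mul_of_nonneg_left hwe (sq_nonneg A)
  have h8 := hb K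
  have h9 := hb k₀
  linarith only [h5, h6, h7, h8, h9]

lemma Atom_Dpos (y : Fin n → ℝ) (k : ℕ) (t : ℝ) (i : Fin n) : 0 < DD y k t i :=
  (rr_pos k).trans_le (DD_ge y k t i)

lemma Atom_wpos {l y : Fin n → ℝ} {F : ℝ → ℂ} (h : CD l y F) (k : ℕ) (t : ℝ) :
    0 < w1 l (DD y k t) :=
  w1_pos h.nn h.pos (Atom_Dpos y k t)

lemma Atom_g0 {l y : Fin n → ℝ} {F : ℝ → ℂ} {A : ℝ} (hA : 0 ≤ A) (h : CD l y F) (hP : PB l y F A)
    (k : ℕ) (t : ℝ) : ‖Gk (k + 1) F t - Gk k F t‖ ≤ 2 * A * (rr k * w1 l (DD y k t)) := by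
  have h1 := hP.g0 (k + 1) t
  have h2 := hP.g0 k t
  have h3 := mul_le_mul_of_nonneg_left (w1_succ h.nn y k t).2.2.2 hA
  have h4 : Gk (k + 1) F t - Gk k F t = (Gk (k + 1) F t - F t) - (Gk k F t - F t) := by ring
  rw [h4]
  refine (norm_sub_le _ _).trans ?_
  linarith

lemma Atom_g1 {l y : Fin n → ℝ} {F : ℝ → ℂ} {A : ℝ} (hA : 0 ≤ A) (h : CD l y F) (hP : PB l y F A)
    (k : ℕ) (t : ℝ) :
    ‖deriv (Gk (k + 1) F) t - deriv (Gk k F) t‖ ≤ 3 * A * w1 l (DD y k t) := by
  have h1 := hP.g1 (k + 1) t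
  have h2 := hP.g1 k t
  have h3 := mul_le_mul_of_nonneg_left (w1_succ h.nn y k t).2.1 hA
  refine (norm_sub_le _ _).trans ?_
  linarith

lemma Atom_th {l y : Fin n → ℝ} {F : ℝ → ℂ} (h : CD l y F) (k : ℕ) (j : Fin n) (t : ℝ) :
    |thk l y k j t| ≤ 18 / (DD y k t j * w1 l (DD y k t)) := by
  have h0 : 0 ≤ thk l y k j t := th_nonneg h.nn (Atom_Dpos y k t j) (Atom_Dpos y k t)
  rw [abs_of_nonneg h0]
  exact th_le' h.nn h.pos (Atom_Dpos y k t j) (Atom_Dpos y k t)

lemma Atom_ee {l y : Fin n → ℝ} {F : ℝ → ℂ} (h : CD l y F) (k : ℕ) (j : Fin n) (t : ℝ) :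
    ee l (rr k) (DD y k t j) (DD y k t) ≤ 1 / (DD y k t j * w1 l (DD y k t)) :=
  ee_le h.nn h.pos (rr_pos k) (Atom_Dpos y k t j) (DD_ge y k t)

lemma XX_le {l y : Fin n → ℝ} {F : ℝ → ℂ} {A : ℝ} (hA : 0 ≤ A) (h : CD l y F) (hP : PB l y F A)
    (k : ℕ) (j : Fin n) (t : ℝ) :
    ‖XX l y F k j t‖ ≤ 2 * A * (18 + A) * (rr k / (rr k + ch (t - y j))) := by
  have hw := Atom_wpos h k t
  have hb := Atom_Dpos y k t j
  have hr := rr_pos k
  have h1 : ‖ths l y k j t‖ ≤ (18 + A) / (DD y k t j * w1 l (DD y k t)) := by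
    have h2 : ths l y k j t = (ths l y k j t - (thk l y k j t : ℂ)) + (thk l y k j t : ℂ) := by ring
    have h3 := hP.u0 k j t
    have h4 := mul_le_mul_of_nonneg_left (Atom_ee h k j t) hA
    have h5 := Atom_th h k j t
    rw [h2]
    refine (norm_add_le _ _).trans ?_
    rw [Complex.norm_real, Real.norm_eq_abs, add_div]
    rw [mul_one_div] at h4
    linarith only [h3, h4, h5]
  have h6 : DD y k t j = rr k + ch (t - y j) := rfl
  rw [XX, norm_mul, ← h6]
  refine (mul_le_mul (Atom_g0 hA h hP k t) h1 (norm_nonneg _) (by positivity)).trans (le_of_eq ?_)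
  field_simp

lemma XX_err {l y : Fin n → ℝ} {F : ℝ → ℂ} {A : ℝ} (hA : 0 ≤ A) (h : CD l y F) (hP : PB l y F A)
    (k : ℕ) (j : Fin n) (t : ℝ) :
    ‖deriv (XX l y F k j) t -
        (deriv (Gk (k + 1) F) t - deriv (Gk k F) t) * (thk l y k j t : ℂ)‖ ≤
      5 * A ^ 2 * (w1 l (DD y k t) * ee l (rr k) (DD y k t j) (DD y k t)) := by
  have hw := Atom_wpos h k t
  have hr := rr_pos k
  have hd : HasDerivAt (XX l y F k j)
      ((deriv (Gk (k + 1) F) t - deriv (Gk k F) t) * ths l y k j t +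
        (Gk (k + 1) F t - Gk k F t) * deriv (ths l y k j) t) t :=
    (((hP.gd (k + 1) t).hasDerivAt.sub (hP.gd k t).hasDerivAt).mul (hP.ud k j t).hasDerivAt)
  rw [hd.deriv]
  have h1 : (deriv (Gk (k + 1) F) t - deriv (Gk k F) t) * ths l y k j t +
        (Gk (k + 1) F t - Gk k F t) * deriv (ths l y k j) t -
        (deriv (Gk (k + 1) F) t - deriv (Gk k F) t) * (thk l y k j t : ℂ) =
      (deriv (Gk (k + 1) F) t - deriv (Gk k F) t) * (ths l y k j t - (thk l y k j t : ℂ)) +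
        (Gk (k + 1) F t - Gk k F t) * deriv (ths l y k j) t := by ring
  rw [h1]
  refine (norm_add_le _ _).trans ?_
  rw [norm_mul, norm_mul]
  have h2 := mul_le_mul (Atom_g1 hA h hP k t) (hP.u0 k j t) (norm_nonneg _) (by positivity)
  have h3 := mul_le_mul (Atom_g0 hA h hP k t) (hP.u1 k j t) (norm_nonneg _) (by positivity)
  refine (add_le_add h2 h3).trans (le_of_eq ?_)
  field_simp
  ring

lemma XX_deriv_le {l y : Fin n → ℝ} {F : ℝ → ℂ} {A : ℝ} (hA : 0 ≤ A) (h : CD l y F)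
    (hP : PB l y F A) (k : ℕ) (j : Fin n) (t : ℝ) :
    ‖deriv (XX l y F k j) t‖ ≤ (54 * A + 5 * A ^ 2) / (rr k + ch (t - y j)) := by
  have hw := Atom_wpos h k t
  have hb := Atom_Dpos y k t j
  have h6 : DD y k t j = rr k + ch (t - y j) := rfl
  have h1 := XX_err hA h hP k j t
  have h2 : ‖(deriv (Gk (k + 1) F) t - deriv (Gk k F) t) * (thk l y k j t : ℂ)‖ ≤
      54 * A / DD y k t j := by
    rw [norm_mul, Complex.norm_real, Real.norm_eq_abs]
    refine (mul_le_mul (Atom_g1 hA h hP k t) (Atom_th h k j t) (abs_nonneg _)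
      (by positivity)).trans (le_of_eq ?_)
    field_simp
    ring
  have h3 : w1 l (DD y k t) * ee l (rr k) (DD y k t j) (DD y k t) ≤ 1 / DD y k t j := by
    refine (mul_le_mul_of_nonneg_left (Atom_ee h k j t) hw.le).trans (le_of_eq ?_)
    field_simp
  have h4 := mul_le_mul_of_nonneg_left h3 (show 0 ≤ 5 * A ^ 2 by positivity)
  rw [mul_one_div] at h4
  have h5 := norm_le_norm_sub_add (deriv (XX l y F k j) t)
    ((deriv (Gk (k + 1) F) t - deriv (Gk k F) t) * (thk l y k j t : ℂ))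
  rw [← h6, add_div]
  linarith only [h1, h2, h4, h5]

lemma Atom_om1 {h c : ℝ} (hh : 0 < h) (hc : h ≤ c) : h / (h + c) ≤ 2 * om h c := by
  have h0 : 0 < h + c := by linarith
  have h1 : 2 * om h c = h / (h + c) * (2 * c / (h + c)) := by
    rw [om]
    field_simp
  have h2 : 1 ≤ 2 * c / (h + c) := by
    rw [le_div_iff₀ h0]
    linarith
  rw [h1]
  exact le_mul_of_one_le_right (by positivity) h2

lemma Atom_om2 {h c : ℝ} (hh : 0 < h) (h0 : 0 ≤ c) (hc : c ≤ h) : c / (h + c) ≤ 2 * om h c := by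
  have h0 : 0 < h + c := by linarith
  have h1 : 2 * om h c = c / (h + c) * (2 * h / (h + c)) := by
    rw [om]
    field_simp
  have h2 : 1 ≤ 2 * h / (h + c) := by
    rw [le_div_iff₀ h0]
    linarith
  rw [h1]
  exact le_mul_of_one_le_right (by positivity) h2

lemma Atom_om3 {h c : ℝ} (hh : 0 < h) (h0 : 0 ≤ c) (hc : c ≤ h) : c / h ≤ 4 * om h c := by
  have h1 := Atom_om2 hh h0 hc
  have h2 : c / h ≤ 2 * (c / (h + c)) := by
    rw [← mul_div_assoc, div_le_div_iff₀ hh (by linarith)]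
    linarith only [h0, hc, mul_nonneg_of_nonpos_of_nonpos (Mathlib.Tactic.Linarith.sub_nonpos_of_le h0) (Mathlib.Tactic.Linarith.sub_nonpos_of_le hc)]
  linarith only [h1, h2]

lemma Atom_om4 {h c : ℝ} (hh : 0 < h) (h0 : 0 ≤ c) : c * ((h / (h + c)) ^ 5 / h) ≤ om h c := by
  have h1 : 0 < h + c := by linarith
  have h2 : c * ((h / (h + c)) ^ 5 / h) = om h c * (h / (h + c)) ^ 3 := by
    rw [om]
    field_simp
  have h3 : h / (h + c) ≤ 1 := by
    rw [div_le_one h1]
    linarith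
  rw [h2]
  exact mul_le_of_le_one_right (om_nonneg hh.le h0) (pow_le_one₀ (by positivity) h3)

lemma Atom_self {l y : Fin n → ℝ} {F : ℝ → ℂ} {A : ℝ} (hA : 0 ≤ A) (h : CD l y F)
    (hP : PB l y F A) (k : ℕ) (j : Fin n) : ‖XX l y F k j (y j)‖ ≤ 2 * A * (18 + A) := by
  have h1 := XX_le hA h hP k j (y j)
  rw [sub_self, ch_zero, add_zero, div_self (rr_pos k).ne', mul_one] at h1
  exact h1

lemma Atom_lip {l y : Fin n → ℝ} {F : ℝ → ℂ} {A : ℝ} (hA : 0 ≤ A) (h : CD l y F)
    (hP : PB l y F A) (k : ℕ) (j : Fin n) (t : ℝ) :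
    ‖XX l y F k j t - XX l y F k j (y j)‖ ≤ 2 * (54 * A + 5 * A ^ 2) * (ch (t - y j) / rr k) := by
  obtain ⟨m, h1, h2⟩ := exists_window (y j - π) t
  have hr := rr_pos k
  have h3 : |t + m * (2 * π) - y j| ≤ π := by
    rw [abs_le]
    constructor <;> linarith only [h1, h2]
  have h4 := le_ch' h3
  have h5 : ch (t + m * (2 * π) - y j) = ch (t - y j) := by
    rw [show t + m * (2 * π) - y j = t - y j + m * (2 * π) by ring]
    exact ch_periodic.int_mul m (t - y j)
  have h6 : XX l y F k j (t + m * (2 * π)) = XX l y F k j t := (hP.an k j).periodic.int_mul m t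
  have h7 : ‖XX l y F k j (t + m * (2 * π)) - XX l y F k j (y j)‖ ≤
      (54 * A + 5 * A ^ 2) / rr k * ‖t + m * (2 * π) - y j‖ := by
    refine Convex.norm_image_sub_le_of_norm_deriv_le (s := univ)
      (fun x _ => (hP.an k j).differentiable x) (fun x _ => ?_) convex_univ (mem_univ _) (mem_univ _)
    refine (XX_deriv_le hA h hP k j x).trans ?_
    exact div_le_div_of_nonneg_left (by positivity) hr (le_add_of_nonneg_right (ch_nonneg _))
  rw [h6, Real.norm_eq_abs] at h7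
  rw [h5] at h4
  have h8 : |t + m * (2 * π) - y j| ≤ 2 * ch (t - y j) := by linarith only [h4]
  refine (h7.trans (mul_le_mul_of_nonneg_left h8 (by positivity))).trans (le_of_eq ?_)
  field_simp

lemma Atom_term {l y : Fin n → ℝ} {F : ℝ → ℂ} {A : ℝ} (hA : 0 ≤ A) (h : CD l y F)
    (hP : PB l y F A) (k : ℕ) (j : Fin n) (t : ℝ) :
    ‖XX l y F k j t - XX l y F k j (y j) * t4 k (y j) t‖ ≤
      (34 * (2 * A * (18 + A)) + 8 * (54 * A + 5 * A ^ 2)) * om (rr k) (ch (t - y j)) := by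
  have hr := rr_pos k
  have hc := ch_nonneg (t - y j)
  have ho := om_nonneg hr.le hc
  have hδ := Atom_self hA h hP k j
  have hB0 : 0 ≤ 2 * A * (18 + A) := by positivity
  have hB1 : 0 ≤ 54 * A + 5 * A ^ 2 := by positivity
  have hp0 := mul_nonneg hB0 ho
  have hp1 := mul_nonneg hB1 ho
  rcases le_total (rr k) (ch (t - y j)) with hle | hle
  · have h1 := Atom_om1 hr hle
    have h2 := (XX_le hA h hP k j t).trans (mul_le_mul_of_nonneg_left h1 hB0)
    have h3 : rr k / (rr k + ch (t - y j)) ≤ 1 := by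
      rw [div_le_one (by linarith only [hr, hle])]
      linarith
    have h4 : (rr k / (rr k + ch (t - y j))) ^ 4 ≤ rr k / (rr k + ch (t - y j)) :=
      pow_le_of_le_one (by positivity) h3 (by norm_num)
    have h5 : ‖t4 k (y j) t‖ ≤ 32 * om (rr k) (ch (t - y j)) := by
      have := t4_le k (y j) t
      linarith only [h1, h4, this]
    have h6 := mul_le_mul hδ h5 (norm_nonneg _) hB0
    refine (norm_sub_le _ _).trans ?_
    rw [norm_mul]
    linarith only [hp1, h2, h6]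
  · have h1 := Atom_om2 hr hc hle
    have h2 := Atom_om3 hr hc hle
    have h3 := (Atom_lip hA h hP k j t).trans
      (mul_le_mul_of_nonneg_left h2 (mul_nonneg (by norm_num) hB1))
    have h5 : ‖t4 k (y j) t - 1‖ ≤ 16 * om (rr k) (ch (t - y j)) := by
      have := t4_sub_one_le k (y j) t
      linarith only [h1, this]
    have h6 := mul_le_mul hδ h5 (norm_nonneg _) hB0
    have h7 : XX l y F k j t - XX l y F k j (y j) * t4 k (y j) t =
        (XX l y F k j t - XX l y F k j (y j)) - XX l y F k j (y j) * (t4 k (y j) t - 1) := by ring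
    rw [h7]
    refine (norm_sub_le _ _).trans ?_
    rw [norm_mul]
    linarith only [hp0, h3, h6]

lemma Atom_low {l y : Fin n → ℝ} {F : ℝ → ℂ} {A : ℝ} (hA : 0 ≤ A) (h : CD l y F)
    (hP : PB l y F A) (K : ℕ) (j : Fin n) (t : ℝ) (hK : ∀ k, k < K → ch (t - y j) ≤ rr k) :
    ch (t - y j) * ‖∑ k ∈ Finset.range K, deriv (XX l y F k j) t‖ ≤ 4 * (54 * A + 5 * A ^ 2) := by
  have hc := ch_nonneg (t - y j)
  have hB1 : 0 ≤ 54 * A + 5 * A ^ 2 := by positivity
  refine (mul_le_mul_of_nonneg_left (norm_sum_le _ _) hc).trans ?_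
  rw [Finset.mul_sum]
  have h1 : ∀ k ∈ Finset.range K, ch (t - y j) * ‖deriv (XX l y F k j) t‖ ≤
      2 * (54 * A + 5 * A ^ 2) * om (rr k) (ch (t - y j)) := by
    intro k hk
    have h2 := mul_le_mul_of_nonneg_left (XX_deriv_le hA h hP k j t) hc
    have h3 := mul_le_mul_of_nonneg_left
      (Atom_om2 (rr_pos k) hc (hK k (Finset.mem_range.mp hk))) hB1
    have h4 : ch (t - y j) * ((54 * A + 5 * A ^ 2) / (rr k + ch (t - y j))) =
        (54 * A + 5 * A ^ 2) * (ch (t - y j) / (rr k + ch (t - y j))) := by ring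
    linarith only [h2, h3, h4]
  refine (Finset.sum_le_sum h1).trans ?_
  rw [← Finset.mul_sum]
  have h5 := mul_le_mul_of_nonneg_left (om_sum hc K) hB1
  linarith

lemma Atom_high {l y : Fin n → ℝ} {F : ℝ → ℂ} {A : ℝ} (hA : 0 ≤ A) (h : CD l y F)
    (hP : PB l y F A) {k₀ K : ℕ} (hk : k₀ ≤ K) (j : Fin n) (t : ℝ) (hc : 0 < ch (t - y j))
    (h0 : rr k₀ ≤ ch (t - y j)) :
    ch (t - y j) * ‖∑ k ∈ Finset.Ico k₀ K, deriv (XX l y F k j) t‖ ≤
      36 * A + 8 * A ^ 2 + 4 * (5 * A ^ 2) := by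
  have hb : ∀ k, ch (t - y j) ≤ DD y k t j := fun k => le_add_of_nonneg_left (rr_pos k).le
  have hci : ∀ i, 0 < ch (t - y j) + ch (t - y i) := fun i =>
    add_pos_of_pos_of_nonneg hc (ch_nonneg _)
  have hY0 : 0 ≤ ∑ i, l i / (ch (t - y j) + ch (t - y i)) :=
    Finset.sum_nonneg fun i _ => div_nonneg (h.nn i) (hci i).le
  refine ab_sum (g := fun k => deriv (Gk k F) t) (x := fun k => deriv (XX l y F k j) t)
    (w := fun k => w1 l (DD y k t)) (θ := fun k => thk l y k j t)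
    (e := fun k => ee l (rr k) (DD y k t j) (DD y k t))
    (Y := ∑ i, l i / (ch (t - y j) + ch (t - y i))) hk hc hA (by positivity)
    (fun k => Atom_wpos h k t) (fun k => (w1_succ h.nn y k t).1)
    (fun k => (w1_succ h.nn y k t).2.1) hY0 ?_ ?_ (fun k => hP.g1 k t) ?_ (fun k => hP.k0 k j t)
    (fun k => XX_err hA h hP k j t)
  · refine Finset.sum_le_sum fun i _ => ?_
    exact div_le_div_of_nonneg_left (h.nn i) (Atom_Dpos y k₀ t i) (add_le_add h0 le_rfl)
  · intro k _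
    have hw := Atom_wpos h k t
    have h1 := (w1_succ h.nn y k t).2.2.1
    have h2 : wy l (DD y k t j) (DD y k t) ≤ ∑ i, l i / (ch (t - y j) + ch (t - y i)) := by
      refine Finset.sum_le_sum fun i _ => ?_
      exact div_le_div_of_nonneg_left (h.nn i) (hci i)
        (add_le_add (hb k) (le_add_of_nonneg_left (rr_pos k).le))
    have h3 : 0 ≤ wy l (DD y k t j) (DD y k t) :=
      Finset.sum_nonneg fun i _ =>
        div_nonneg (h.nn i) (add_pos (Atom_Dpos y k t j) (Atom_Dpos y k t i)).le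
    have h4 : 0 ≤ 2 * (w1 l (DD y (k + 1) t) - w1 l (DD y k t)) :=
      mul_nonneg (by norm_num) (sub_nonneg.mpr (w1_succ h.nn y k t).1)
    exact div_le_div₀ (mul_nonneg h4 hY0) (mul_le_mul h1 h2 h3 h4) (by positivity)
      (mul_le_mul_of_nonneg_right (hb k) (by positivity))
  · intro k
    have hw := Atom_wpos h k t
    refine (Atom_th h k j t).trans ?_
    exact div_le_div_of_nonneg_left (by norm_num) (by positivity)
      (mul_le_mul_of_nonneg_right (hb k) hw.le)

lemma Atom_main {l y : Fin n → ℝ} {F : ℝ → ℂ} {A : ℝ} (hA : 0 ≤ A) (h : CD l y F)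
    (hP : PB l y F A) (K : ℕ) (j : Fin n) (t : ℝ) :
    ch (t - y j) * ‖∑ k ∈ Finset.range K, deriv (XX l y F k j) t‖ ≤
      4 * (54 * A + 5 * A ^ 2) + (36 * A + 8 * A ^ 2 + 4 * (5 * A ^ 2)) := by
  classical
  have hB : 0 ≤ 36 * A + 8 * A ^ 2 + 4 * (5 * A ^ 2) := by positivity
  by_cases hK : ∀ k, k < K → ch (t - y j) ≤ rr k
  · exact (Atom_low hA h hP K j t hK).trans (le_add_of_nonneg_right hB)
  have hex : ∃ k, k < K ∧ rr k < ch (t - y j) := by
    by_contra hne
    exact hK fun k hk => not_lt.mp fun hlt => hne ⟨k, hk, hlt⟩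
  obtain ⟨h1, h2⟩ := Nat.find_spec hex
  have h3 : ∀ k, k < Nat.find hex → ch (t - y j) ≤ rr k := fun k hk =>
    not_lt.mp fun hlt => Nat.find_min hex hk ⟨hk.trans h1, hlt⟩
  have hc : 0 < ch (t - y j) := (rr_pos _).trans h2
  rw [← Finset.sum_range_add_sum_Ico _ h1.le]
  refine (mul_le_mul_of_nonneg_left (norm_add_le _ _) hc.le).trans ?_
  rw [mul_add]
  exact add_le_add (Atom_low hA h hP _ j t h3) (Atom_high hA h hP h1.le j t hc h2.le)

theorem zz_atom (A : ℝ) (hA : 0 ≤ A) : ∃ B : ℝ, 0 ≤ B ∧ ∀ (n : ℕ) (l y : Fin n → ℝ) (F : ℝ → ℂ),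
    CD l y F → PB l y F A → ∀ (K : ℕ) (j : Fin n), An (ZZ l y F K j) ∧
      (∀ t, ‖ZZ l y F K j t‖ ≤ B) ∧ ∀ t, ch (t - y j) * ‖deriv (ZZ l y F K j) t‖ ≤ B := by
  have hB0 : 0 ≤ 2 * A * (18 + A) := by positivity
  have hB2 : 0 ≤ 34 * (2 * A * (18 + A)) + 8 * (54 * A + 5 * A ^ 2) := by positivity
  have hB3 : 0 ≤ 4 * (54 * A + 5 * A ^ 2) + (36 * A + 8 * A ^ 2 + 4 * (5 * A ^ 2)) := by positivity
  refine ⟨2 * (34 * (2 * A * (18 + A)) + 8 * (54 * A + 5 * A ^ 2)) +
    (4 * (54 * A + 5 * A ^ 2) + (36 * A + 8 * A ^ 2 + 4 * (5 * A ^ 2)) + 256 * (2 * A * (18 + A))),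
    by positivity, fun n l y F h hP K j => ⟨?_, fun t => ?_, fun t => ?_⟩⟩
  · exact An.sum (Finset.range K)
      (f := fun k t => XX l y F k j t - XX l y F k j (y j) * t4 k (y j) t)
      fun k _ => (hP.an k j).sub ((an_t4 k (y j)).const_mul _)
  · have h1 : ‖ZZ l y F K j t‖ ≤ ∑ k ∈ Finset.range K,
        (34 * (2 * A * (18 + A)) + 8 * (54 * A + 5 * A ^ 2)) * om (rr k) (ch (t - y j)) :=
      (norm_sum_le _ _).trans (Finset.sum_le_sum fun k _ => Atom_term hA h hP k j t)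
    rw [← Finset.mul_sum] at h1
    have h2 := mul_le_mul_of_nonneg_left (om_sum (ch_nonneg (t - y j)) K) hB2
    linarith only [hB0, hB2, h1, h2]
  · have hc := ch_nonneg (t - y j)
    have hd : HasDerivAt (ZZ l y F K j) (∑ k ∈ Finset.range K,
        (deriv (XX l y F k j) t - XX l y F k j (y j) * deriv (t4 k (y j)) t)) t :=
      HasDerivAt.fun_sum (u := Finset.range K)
        (A := fun k t => XX l y F k j t - XX l y F k j (y j) * t4 k (y j) t) fun k _ =>
        ((hP.an k j).differentiable t).hasDerivAt.sub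
          (((an_t4 k (y j)).differentiable t).hasDerivAt.const_mul _)
    rw [hd.deriv, Finset.sum_sub_distrib]
    have h1 : ch (t - y j) * ‖∑ k ∈ Finset.range K, XX l y F k j (y j) * deriv (t4 k (y j)) t‖ ≤
        256 * (2 * A * (18 + A)) := by
      refine (mul_le_mul_of_nonneg_left (norm_sum_le _ _) hc).trans ?_
      rw [Finset.mul_sum]
      have h2 : ∀ k ∈ Finset.range K, ch (t - y j) * ‖XX l y F k j (y j) * deriv (t4 k (y j)) t‖ ≤
          128 * (2 * A * (18 + A)) * om (rr k) (ch (t - y j)) := by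
        intro k _
        rw [norm_mul]
        have h3 := mul_le_mul (Atom_self hA h hP k j) (deriv_t4_le k (y j) t) (norm_nonneg _) hB0
        have h4 := mul_le_mul_of_nonneg_left h3 hc
        have h5 := mul_le_mul_of_nonneg_left (Atom_om4 (rr_pos k) hc) hB0
        have h6 : ch (t - y j) * (2 * A * (18 + A) *
            (128 * (rr k / (rr k + ch (t - y j))) ^ 5 / rr k)) = 128 * (2 * A * (18 + A) *
            (ch (t - y j) * ((rr k / (rr k + ch (t - y j))) ^ 5 / rr k))) := by ring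
        linarith only [h4, h5, h6]
      refine (Finset.sum_le_sum h2).trans ?_
      rw [← Finset.mul_sum]
      have h7 := mul_le_mul_of_nonneg_left (om_sum hc K) hB0
      linarith
    have h2 := Atom_main hA h hP K j t
    refine (mul_le_mul_of_nonneg_left (norm_sub_le _ _) hc).trans ?_
    rw [mul_add]
    linarith only [hB2, h1, h2]

end Pool.Agent.Work.MP_af796d_an.H
end

-- merged part: Pool.Agent.Work.MP_af796d_an.H.Diag
section
/-!
# The diagonal terms
PLAN.
* ck_le: t4 is an atom: ‖t4‖ ≤ 1, x ‖t4'‖ ≤ 128 x h^4/(h+x)^5 ≤ 128 (x = ch (t - y)).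
* ck_bv: sumatom for f k = t4 (k+1) y - t4 k y: sum of norms ≤ 16 * 2 (t4_sub_le, om_sum);
  x (‖t4' (k+1)‖ + ‖t4' k‖) ≤ 128 (om (rr (k+1)) x + om (rr k) x), sums ≤ 128 * 4.
* ck_aa.  Write h = rr k, d = ch (y j - y i) = ‖ex (y j) - ex (y i)‖, x_ij = h/(h + d), so 1 - x_ij = x_ij d / h, and
  aa l h (DD y k (y j)) = sum_i l i x_ij^3 d / h.  Since (ex (y j) - ex (y i)) t4 = (ex t - ex (y i)) t4 - (ex t - ex (y j)) t4,
  d ‖ck b k (y j)‖ ≤ ‖pr (P k j i)‖ + ‖pr (P k j j)‖ where P k j i t = (ex t - ex (y i)) * t4 k (y j) t.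
  Second part: sum_i l i x_ij^3 ≤ La, so it is at most sum_j l j sum_k ‖pr (P k j j / h)‖; sumatom at y j:
  ‖P/h‖ ≤ 16 (x/h) X^4 ≤ 16 om h x, x ‖(P/h)'‖ ≤ (x/h) (16 X^4 + 128 (x/h) X^5) ≤ 144 om h x, where X = h/(h+x), (x/h) X ≤ 1,
  (x/h) X^2 = om h x.
  First part: swap sums to sum_i l i * (sum over (k, j) of ‖pr (f (k,j))‖), f (k,j) = (l j x_ij^3 / (h La_k(y j))) * P k j i;
  sumatom at y i over the product Finset.  At a point t put x = ch (t - y i), X = h/(h+x), x_j = h/(h + ch (t - y j)).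
  Facts: x_ij x_j ≤ X (since (h+d)(h+c_j) ≥ h (h + d + c_j) ≥ h (h + x) by ch_add_le);
  La_k(y j) ≥ x_j La_k(t) (since DD y k (y j) m ≤ DD y k t m + c_j ≤ DD y k t m (h + c_j)/h); sum_j l j x_j = La_k(t).
  So sum_j ‖f (k,j) t‖ ≤ (x/h) sum_j l j x_ij^3 16 x_j^4/(x_j La_k t) ≤ 16 (x/h) X^2 = 16 om h x, and
  x sum_j ‖f'‖ ≤ (x/h) sum_j l j x_ij^3 (16 x_j^4 + 128 (x/h) x_j^5)/(x_j La_k t) ≤ (x/h)(16 X^2 + 128 (x/h) X^3) ≤ 144 om h x.
* diag_abs (pure sequence lemma).  sum (R (k+1) - R k) s k c k with s k = θ k + (s k - θ k); the second part is at most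
  2 A Λ k * A Δ k * ‖c k‖.  Abel: sum_{k<K} (R (k+1) - R k) θ k c k = R K θ K c K - R 0 θ 0 c 0 - sum R (k+1) (θ (k+1) c (k+1) - θ k c k),
  θ (k+1) c (k+1) - θ k c k = θ (k+1) (c (k+1) - c k) + (θ (k+1) - θ k) c k.  Then Λ Δ ≤ 9 a + 2 (f (k+1) - f k), and
  sum ‖c k‖ (f (k+1) - f k) ≤ 3 Q by Abel (abel_le with d = ‖c‖, 0 ≤ f ≤ 1).
* diag_sum: diag_abs with R k = Gk k F (y j) - F (y j), Λ k = La l (rr k) (DD y k (y j)), Δ k = dr, θ k = thk, s k = ths,
  a k = aa / La, f k = mu2 / La, using La_eq, th_le', DD_self, DD_succ, rr_succ, drift_le, mu2_le, w1_succ.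
-/

set_option autoImplicit false

namespace Pool.Agent.Work.MP_af796d_an.H

open MeasureTheory Set Real Metric Filter Topology

variable {n : ℕ}

lemma Diag_X {h x : ℝ} (hh : 0 < h) (hx : 0 ≤ x) :
    0 < h / (h + x) ∧ h / (h + x) ≤ 1 ∧ x / h * (h / (h + x)) ≤ 1 ∧
      x / h * (h / (h + x)) ^ 2 = om h x := by
  have h1 : 0 < h + x := by linarith
  refine ⟨by positivity, (div_le_one h1).2 (by linarith), ?_, ?_⟩
  · have : x / h * (h / (h + x)) = x / (h + x) := by field_simp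
    rw [this]
    exact (div_le_one h1).2 (by linarith)
  · unfold om
    field_simp

lemma Diag_pq {h a c x : ℝ} (hh : 0 < h) (ha : 0 ≤ a) (hc : 0 ≤ c) (hx0 : 0 ≤ x)
    (hx : x ≤ a + c) : h / (h + a) * (h / (h + c)) ≤ h / (h + x) := by
  rw [div_mul_div_comm, div_le_div_iff₀ (by positivity) (by positivity)]
  have h1 : h * (h + x) ≤ (h + a) * (h + c) := by
    linarith only [ha, hc, hx, hh, mul_nonneg ha hc, mul_le_mul_of_nonneg_left hx hh.le]
  calc h * h * (h + x) = h * (h * (h + x)) := by ring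
    _ ≤ h * ((h + a) * (h + c)) := mul_le_mul_of_nonneg_left h1 hh.le

lemma Diag_t4d (k : ℕ) (y t : ℝ) :
    ch (t - y) * ‖deriv (t4 k y) t‖ ≤ 128 * om (rr k) (ch (t - y)) := by
  have hx := ch_nonneg (t - y)
  obtain ⟨h0, h1, -, h3⟩ := Diag_X (rr_pos k) hx
  have hom := om_nonneg (rr_pos k).le hx
  refine (mul_le_mul_of_nonneg_left (deriv_t4_le k y t) hx).trans ?_
  set X := rr k / (rr k + ch (t - y))
  have e : ch (t - y) * (128 * X ^ 5 / rr k) = 128 * (ch (t - y) / rr k * X ^ 2) * X ^ 3 := by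
    ring
  rw [e, h3]
  exact mul_le_of_le_one_right (by positivity) (pow_le_one₀ h0.le h1)

lemma ck_le {b : ℝ → ℝ} {K : ℝ} (h : HC b K) (k : ℕ) (y : ℝ) : ‖ck b k y‖ ≤ 512 * K := by
  have := h.bd y (t4 k y) 512 (an_t4 k y) (fun t => (t4_le_one k y t).trans (by norm_num))
    (fun t => by
      have h1 := Diag_t4d k y t
      have h2 := om_le (rr_pos k).le (ch_nonneg (t - y))
      linarith only [h1, h2])
  rw [mul_comm]
  exact this

lemma ck_bv {b : ℝ → ℝ} {K : ℝ} (h : HC b K) (m : ℕ) (y : ℝ) :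
    ∑ k ∈ Finset.range m, ‖ck b (k + 1) y - ck b k y‖ ≤ 512 * K := by
  have key := sumatom h (Finset.range m) (f := fun k t => t4 (k + 1) y t - t4 k y t)
    (fun k _ => (an_t4 (k + 1) y).sub (an_t4 k y)) y 512
    (fun t => by
      have h1 := om_sum (ch_nonneg (t - y)) m
      calc ∑ k ∈ Finset.range m, ‖t4 (k + 1) y t - t4 k y t‖
          ≤ ∑ k ∈ Finset.range m, 16 * om (rr k) (ch (t - y)) :=
            Finset.sum_le_sum fun k _ => t4_sub_le k y t
        _ ≤ 512 := by rw [← Finset.mul_sum]; linarith)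
    (fun t => by
      have hx := ch_nonneg (t - y)
      have h1 := om_sum hx m
      have h2 := om_sum hx (m + 1)
      rw [Finset.sum_range_succ'] at h2
      have h3 := om_nonneg (rr_pos 0).le hx
      rw [Finset.mul_sum]
      calc ∑ k ∈ Finset.range m,
            ch (t - y) * ‖deriv (fun t => t4 (k + 1) y t - t4 k y t) t‖
          ≤ ∑ k ∈ Finset.range m,
            (128 * om (rr (k + 1)) (ch (t - y)) + 128 * om (rr k) (ch (t - y))) := by
            refine Finset.sum_le_sum fun k _ => ?_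
            rw [deriv_fun_sub ((an_t4 (k + 1) y).differentiable t) ((an_t4 k y).differentiable t)]
            have h4 := mul_le_mul_of_nonneg_left
              (norm_sub_le (deriv (t4 (k + 1) y) t) (deriv (t4 k y) t)) hx
            have h5 := Diag_t4d (k + 1) y t
            have h6 := Diag_t4d k y t
            linarith
        _ ≤ 512 := by
            rw [Finset.sum_add_distrib, ← Finset.mul_sum, ← Finset.mul_sum]; linarith)
  rw [mul_comm]
  refine le_of_eq_of_le (Finset.sum_congr rfl fun k _ => ?_) key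
  rw [pr_sub h.ii (an_t4 (k + 1) y) (an_t4 k y)]
  rfl

/-- the cut-off times the factor vanishing at `z`. -/
noncomputable def Diag_P (k : ℕ) (y z t : ℝ) : ℂ := (ex t - ex z) * t4 k y t

lemma Diag_P_an (k : ℕ) (y z : ℝ) : An (Diag_P k y z) :=
  (an_ex.sub (An.const (ex z))).mul (an_t4 k y)

lemma Diag_P_le (k : ℕ) (y z t : ℝ) :
    ‖Diag_P k y z t‖ ≤ ch (t - z) * (16 * (rr k / (rr k + ch (t - y))) ^ 4) := by
  rw [Diag_P, norm_mul, norm_ex_sub_ex]
  exact mul_le_mul_of_nonneg_left (t4_le k y t) (ch_nonneg _)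

lemma Diag_P_deriv (k : ℕ) (y z t : ℝ) :
    ‖deriv (Diag_P k y z) t‖ ≤ 16 * (rr k / (rr k + ch (t - y))) ^ 4 +
      ch (t - z) * (128 * (rr k / (rr k + ch (t - y))) ^ 5 / rr k) := by
  have h1 : HasDerivAt (Diag_P k y z)
      (Complex.I * ex t * t4 k y t + (ex t - ex z) * deriv (t4 k y) t) t :=
    ((hasDerivAt_ex t).sub_const (ex z)).mul ((an_t4 k y).differentiable t).hasDerivAt
  rw [h1.deriv]
  refine (norm_add_le _ _).trans (add_le_add ?_ ?_)
  · rw [norm_mul, norm_mul, Complex.norm_I, norm_ex, one_mul, one_mul]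
    exact t4_le k y t
  · rw [norm_mul, norm_ex_sub_ex]
    exact mul_le_mul_of_nonneg_left (deriv_t4_le k y t) (ch_nonneg _)

lemma Diag_ck {b : ℝ → ℝ} {K : ℝ} (h : HC b K) (k : ℕ) (y z : ℝ) :
    ch (y - z) * ‖ck b k y‖ ≤ ‖pr b (Diag_P k y z)‖ + ‖pr b (Diag_P k y y)‖ := by
  have h1 : (ex y - ex z) * ck b k y = pr b (Diag_P k y z) - pr b (Diag_P k y y) := by
    rw [← pr_sub h.ii (Diag_P_an k y z) (Diag_P_an k y y), ck, ← pr_const_mul b (an_t4 k y)]
    congr 1
    ext t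
    simp only [Diag_P]
    ring
  rw [← norm_ex_sub_ex, ← norm_mul, h1]
  exact norm_sub_le _ _

lemma Diag_atom {b : ℝ → ℝ} {K : ℝ} (h : HC b K) {α : Type*} (s : Finset α) (kk : α → ℕ)
    (yy w : α → ℝ) (hw : ∀ a, 0 ≤ w a) (z M : ℝ)
    (hM : ∀ t, ∑ a ∈ s, w a * (ch (t - z) *
      (16 * (rr (kk a) / (rr (kk a) + ch (t - yy a))) ^ 4 +
        ch (t - z) * (128 * (rr (kk a) / (rr (kk a) + ch (t - yy a))) ^ 5 / rr (kk a)))) ≤ M) :
    ∑ a ∈ s, w a * ‖pr b (Diag_P (kk a) (yy a) z)‖ ≤ K * M := by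
  have key := sumatom h s (f := fun a t => (w a : ℂ) * Diag_P (kk a) (yy a) z t)
    (fun a _ => (Diag_P_an _ _ _).const_mul _) z M
    (fun t => by
      refine le_trans (Finset.sum_le_sum fun a _ => ?_) (hM t)
      rw [norm_mul, Complex.norm_real, Real.norm_of_nonneg (hw a)]
      refine mul_le_mul_of_nonneg_left ((Diag_P_le _ _ _ _).trans ?_) (hw a)
      refine mul_le_mul_of_nonneg_left (le_add_of_nonneg_right ?_) (ch_nonneg _)
      have h1 := ch_nonneg (t - z)
      have h2 := ch_nonneg (t - yy a)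
      have h3 := rr_pos (kk a)
      positivity)
    (fun t => by
      rw [Finset.mul_sum]
      refine le_trans (Finset.sum_le_sum fun a _ => ?_) (hM t)
      rw [deriv_const_mul _ ((Diag_P_an _ _ _).differentiable t), norm_mul, Complex.norm_real,
        Real.norm_of_nonneg (hw a), mul_left_comm]
      exact mul_le_mul_of_nonneg_left
        (mul_le_mul_of_nonneg_left (Diag_P_deriv _ _ _ _) (ch_nonneg _)) (hw a))
  refine le_of_eq_of_le (Finset.sum_congr rfl fun a _ => ?_) key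
  rw [pr_const_mul b (Diag_P_an _ _ _), norm_mul, Complex.norm_real, Real.norm_of_nonneg (hw a)]

lemma Diag_real {p q X h x L L' l : ℝ} (hp : 0 ≤ p) (hp1 : p ≤ 1) (hq : 0 < q) (hpq : p * q ≤ X)
    (hh : 0 < h) (hx : 0 ≤ x) (hu : x / h * X ≤ 1) (hL : 0 < L) (hL' : q * L ≤ L') (hl : 0 ≤ l) :
    l * p ^ 3 / (h * L') * (x * (16 * q ^ 4 + x * (128 * q ^ 5 / h))) ≤
      l * q / L * (144 * (x / h * X ^ 2)) := by
  have hpq0 : 0 ≤ p * q := by positivity
  have hX : 0 ≤ X := hpq0.trans hpq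
  have hu0 : 0 ≤ x / h := by positivity
  have h1 : l * p ^ 3 / (h * L') ≤ l * p ^ 3 / (h * (q * L)) := by
    apply div_le_div_of_nonneg_left (by positivity) (by positivity)
    exact mul_le_mul_of_nonneg_left hL' hh.le
  refine (mul_le_mul_of_nonneg_right h1 (by positivity)).trans ?_
  have e : l * p ^ 3 / (h * (q * L)) * (x * (16 * q ^ 4 + x * (128 * q ^ 5 / h))) =
      l * q / L * (x / h * (16 * (p * (p * q) ^ 2) + 128 * (x / h * (p * q) * (p * q) ^ 2))) := by
    field_simp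
  rw [e]
  refine mul_le_mul_of_nonneg_left ?_ (by positivity)
  have h2 : (p * q) ^ 2 ≤ X ^ 2 := pow_le_pow_left₀ hpq0 hpq 2
  have h3 : p * (p * q) ^ 2 ≤ X ^ 2 :=
    (mul_le_of_le_one_left (by positivity) hp1).trans h2
  have h4 : x / h * (p * q) ≤ 1 := (mul_le_mul_of_nonneg_left hpq hu0).trans hu
  have h5 : x / h * (p * q) * (p * q) ^ 2 ≤ X ^ 2 :=
    (mul_le_of_le_one_left (by positivity) h4).trans h2
  calc x / h * (16 * (p * (p * q) ^ 2) + 128 * (x / h * (p * q) * (p * q) ^ 2))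
      ≤ x / h * (144 * X ^ 2) := mul_le_mul_of_nonneg_left (by linarith only [h3, h5]) hu0
    _ = 144 * (x / h * X ^ 2) := by ring

lemma Diag_La_pos {l : Fin n → ℝ} (y : Fin n → ℝ) (hl : ∀ i, 0 ≤ l i) (hs : 0 < ∑ i, l i)
    (k : ℕ) (t : ℝ) : 0 < La l (rr k) (DD y k t) := by
  rw [La_eq]
  exact mul_pos (rr_pos k) (w1_pos hl hs fun i => (rr_pos k).trans_le (DD_ge y k t i))

lemma Diag_La_le {l : Fin n → ℝ} (y : Fin n → ℝ) (hl : ∀ i, 0 ≤ l i) (k : ℕ) (t z : ℝ) :
    rr k / (rr k + ch (t - z)) * La l (rr k) (DD y k t) ≤ La l (rr k) (DD y k z) := by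
  unfold La
  rw [Finset.mul_sum]
  refine Finset.sum_le_sum fun i _ => ?_
  rw [mul_left_comm]
  refine mul_le_mul_of_nonneg_left ?_ (hl i)
  refine Diag_pq (rr_pos k) (ch_nonneg _) (ch_nonneg _) (ch_nonneg _) ?_
  have h1 := ch_add_le (z - t) (t - y i)
  rw [sub_add_sub_cancel, ← neg_sub t z, ch_neg] at h1
  exact h1

lemma Diag_second {b : ℝ → ℝ} {K : ℝ} (h : HC b K) (y : ℝ) (m : ℕ) :
    ∑ k ∈ Finset.range m, 1 / rr k * ‖pr b (Diag_P k y y)‖ ≤ K * 288 := by
  refine Diag_atom h (Finset.range m) (fun k => k) (fun _ => y) (fun k => 1 / rr k)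
    (fun k => by have := rr_pos k; positivity) y 288 fun t => ?_
  have hx := ch_nonneg (t - y)
  have h1 := om_sum hx m
  calc _ ≤ ∑ k ∈ Finset.range m, 144 * om (rr k) (ch (t - y)) := by
        refine Finset.sum_le_sum fun k _ => ?_
        obtain ⟨h0, -, h2, h3⟩ := Diag_X (rr_pos k) hx
        have := Diag_real (p := 1) (q := rr k / (rr k + ch (t - y)))
          (X := rr k / (rr k + ch (t - y))) (L := 1) (L' := 1) (l := 1) zero_le_one le_rfl h0
          (by rw [one_mul]) (rr_pos k) hx h2 one_pos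
          (by rw [mul_one]; exact (Diag_X (rr_pos k) hx).2.1) zero_le_one
        rw [h3] at this
        simp only [one_pow, mul_one, one_mul, div_one] at this
        refine this.trans (mul_le_of_le_one_left ?_ (Diag_X (rr_pos k) hx).2.1)
        have := om_nonneg (rr_pos k).le hx
        positivity
    _ ≤ 288 := by rw [← Finset.mul_sum]; linarith

lemma Diag_first {b : ℝ → ℝ} {K : ℝ} (h : HC b K) {l : Fin n → ℝ} (y : Fin n → ℝ)
    (hl : ∀ i, 0 ≤ l i) (hs : 0 < ∑ i, l i) (m : ℕ) (z : ℝ) :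
    ∑ k ∈ Finset.range m, ∑ j, l j * (rr k / (rr k + ch (y j - z))) ^ 3 /
      (rr k * La l (rr k) (DD y k (y j))) * ‖pr b (Diag_P k (y j) z)‖ ≤ K * 288 := by
  rw [← Finset.sum_product' (Finset.range m) Finset.univ
    (fun k j => l j * (rr k / (rr k + ch (y j - z))) ^ 3 /
      (rr k * La l (rr k) (DD y k (y j))) * ‖pr b (Diag_P k (y j) z)‖)]
  refine Diag_atom h (Finset.range m ×ˢ Finset.univ) (fun a => a.1) (fun a => y a.2)
    (fun a => l a.2 * (rr a.1 / (rr a.1 + ch (y a.2 - z))) ^ 3 /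
      (rr a.1 * La l (rr a.1) (DD y a.1 (y a.2))))
    (fun a => by
      have h1 := rr_pos a.1
      have h2 := hl a.2
      have h3 := ch_nonneg (y a.2 - z)
      have h4 := Diag_La_pos y hl hs a.1 (y a.2)
      positivity) z 288 fun t => ?_
  have hx := ch_nonneg (t - z)
  have h1 := om_sum hx m
  rw [Finset.sum_product]
  calc _ ≤ ∑ k ∈ Finset.range m, 144 * om (rr k) (ch (t - z)) := by
        refine Finset.sum_le_sum fun k _ => ?_
        obtain ⟨-, -, h2, h3⟩ := Diag_X (rr_pos k) hx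
        have hL := Diag_La_pos y hl hs k t
        calc _ ≤ ∑ j, l j * (rr k / (rr k + ch (t - y j))) / La l (rr k) (DD y k t) *
              (144 * om (rr k) (ch (t - z))) := by
              refine Finset.sum_le_sum fun j _ => ?_
              rw [← h3]
              refine Diag_real (Diag_X (rr_pos k) (ch_nonneg _)).1.le
                (Diag_X (rr_pos k) (ch_nonneg _)).2.1 (Diag_X (rr_pos k) (ch_nonneg _)).1 ?_
                (rr_pos k) hx h2 hL (Diag_La_le y hl k t (y j)) (hl j)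
              refine Diag_pq (rr_pos k) (ch_nonneg _) (ch_nonneg _) hx ?_
              have h4 := ch_add_le (t - y j) (y j - z)
              rw [sub_add_sub_cancel] at h4
              linarith only [h4]
          _ = 144 * om (rr k) (ch (t - z)) := by
              rw [← Finset.sum_mul, ← Finset.sum_div]
              have : ∑ j, l j * (rr k / (rr k + ch (t - y j))) = La l (rr k) (DD y k t) := rfl
              rw [this, div_self hL.ne', one_mul]
    _ ≤ 288 := by rw [← Finset.mul_sum]; linarith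

lemma Diag_term {b : ℝ → ℝ} {K : ℝ} (h : HC b K) {l : Fin n → ℝ} (y : Fin n → ℝ)
    (hl : ∀ i, 0 ≤ l i) (hs : 0 < ∑ i, l i) (k : ℕ) (z : ℝ) :
    ‖ck b k z‖ * (aa l (rr k) (DD y k z) / La l (rr k) (DD y k z)) ≤
      ∑ i, l i * ((rr k / (rr k + ch (z - y i))) ^ 3 / (rr k * La l (rr k) (DD y k z)) *
        ‖pr b (Diag_P k z (y i))‖) + 1 / rr k * ‖pr b (Diag_P k z z)‖ := by
  have hL := Diag_La_pos y hl hs k z
  have hh := rr_pos k
  have h2 : 1 / rr k * ‖pr b (Diag_P k z z)‖ =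
      ∑ i, l i * (rr k / (rr k + ch (z - y i)) / (rr k * La l (rr k) (DD y k z)) *
        ‖pr b (Diag_P k z z)‖) := by
    have e : ∀ i, l i * (rr k / (rr k + ch (z - y i)) / (rr k * La l (rr k) (DD y k z)) *
        ‖pr b (Diag_P k z z)‖) = l i * (rr k / (rr k + ch (z - y i))) *
          (1 / (rr k * La l (rr k) (DD y k z)) * ‖pr b (Diag_P k z z)‖) := fun i => by ring
    simp only [e]
    rw [← Finset.sum_mul]
    have : ∑ j, l j * (rr k / (rr k + ch (z - y j))) = La l (rr k) (DD y k z) := rfl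
    rw [this]
    field_simp
  rw [h2, ← Finset.sum_add_distrib, aa, Finset.sum_div, Finset.mul_sum]
  refine Finset.sum_le_sum fun i _ => ?_
  have hd := ch_nonneg (z - y i)
  obtain ⟨h0, h1, -, -⟩ := Diag_X hh hd
  have hc := Diag_ck h k z (y i)
  have e1 : ‖ck b k z‖ * (l i * ((rr k / DD y k z i) ^ 2 * (1 - rr k / DD y k z i)) /
      La l (rr k) (DD y k z)) = l i * ((rr k / (rr k + ch (z - y i))) ^ 3 /
        (rr k * La l (rr k) (DD y k z)) * (ch (z - y i) * ‖ck b k z‖)) := by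
    have : DD y k z i = rr k + ch (z - y i) := rfl
    rw [this]
    field_simp
    ring
  rw [e1, ← mul_add]
  refine mul_le_mul_of_nonneg_left ?_ (hl i)
  set X := rr k / (rr k + ch (z - y i))
  have h3 : X ^ 3 ≤ X := by
    calc X ^ 3 = X * X ^ 2 := by ring
      _ ≤ X := mul_le_of_le_one_right h0.le (pow_le_one₀ h0.le h1)
  have h4 : X ^ 3 / (rr k * La l (rr k) (DD y k z)) ≤ X / (rr k * La l (rr k) (DD y k z)) :=
    div_le_div_of_nonneg_right h3 (by positivity)
  have h5 := mul_le_mul_of_nonneg_left hc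
    (show 0 ≤ X ^ 3 / (rr k * La l (rr k) (DD y k z)) by positivity)
  have h6 := mul_le_mul_of_nonneg_right h4 (norm_nonneg (pr b (Diag_P k z z)))
  linarith only [h5, h6]

theorem ck_aa {b : ℝ → ℝ} {K : ℝ} (h : HC b K) {l : Fin n → ℝ} (y : Fin n → ℝ)
    (hl : ∀ i, 0 ≤ l i) (hs : 0 < ∑ i, l i) (m : ℕ) :
    ∑ j, l j * ∑ k ∈ Finset.range m,
      ‖ck b k (y j)‖ * (aa l (rr k) (DD y k (y j)) / La l (rr k) (DD y k (y j))) ≤
        576 * K * ∑ i, l i := by
  have h1 : ∑ j, l j * ∑ k ∈ Finset.range m, ∑ i, l i *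
      ((rr k / (rr k + ch (y j - y i))) ^ 3 / (rr k * La l (rr k) (DD y k (y j))) *
        ‖pr b (Diag_P k (y j) (y i))‖) ≤ ∑ i, l i * (K * 288) := by
    refine le_of_eq_of_le ?_ (Finset.sum_le_sum fun i _ =>
      mul_le_mul_of_nonneg_left (Diag_first h y hl hs m (y i)) (hl i))
    simp only [Finset.mul_sum]
    rw [Finset.sum_comm]
    conv_rhs => rw [Finset.sum_comm]
    refine Finset.sum_congr rfl fun k _ => ?_
    rw [Finset.sum_comm]
    refine Finset.sum_congr rfl fun i _ => Finset.sum_congr rfl fun j _ => ?_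
    ring
  have h2 : ∑ j, l j * ∑ k ∈ Finset.range m, 1 / rr k * ‖pr b (Diag_P k (y j) (y j))‖ ≤
      ∑ j, l j * (K * 288) :=
    Finset.sum_le_sum fun j _ => mul_le_mul_of_nonneg_left (Diag_second h (y j) m) (hl j)
  have h3 := add_le_add h1 h2
  rw [← Finset.sum_add_distrib, ← Finset.sum_mul] at h3
  refine le_trans (Finset.sum_le_sum fun j _ => ?_) (h3.trans (le_of_eq (by ring)))
  rw [← mul_add, ← Finset.sum_add_distrib]
  exact mul_le_mul_of_nonneg_left
    (Finset.sum_le_sum fun k _ => Diag_term h y hl hs k (y j)) (hl j)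

lemma diag_abs {R s c : ℕ → ℂ} {θ Λ Δ a f : ℕ → ℝ} {A Q : ℝ} (hA : 0 ≤ A) (K : ℕ)
    (hΛ : ∀ k, 0 < Λ k) (hΛ1 : ∀ k, Λ (k + 1) ≤ Λ k) (hR : ∀ k, ‖R k‖ ≤ A * Λ k)
    (hθ : ∀ k, |θ k| ≤ 18 / Λ k) (hs : ∀ k, ‖s k - (θ k : ℂ)‖ ≤ A * Δ k)
    (hd : ∀ k, |θ (k + 1) - θ k| ≤ A * Δ k) (hc : ∀ k, ‖c k‖ ≤ Q)
    (hv : ∑ k ∈ Finset.range K, ‖c (k + 1) - c k‖ ≤ Q) (hf0 : ∀ k, 0 ≤ f k) (hf1 : ∀ k, f k ≤ 1)
    (hΔ : ∀ k, Λ k * Δ k ≤ 9 * a k + 2 * (f (k + 1) - f k)) :
    ‖∑ k ∈ Finset.range K, (R (k + 1) - R k) * s k * c k‖ ≤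
      (54 * A + 18 * A ^ 2) * Q + 27 * A ^ 2 * ∑ k ∈ Finset.range K, ‖c k‖ * a k := by
  set E : ℕ → ℂ := fun k => (R (k + 1) - R k) * (s k - θ k) * c k -
    R (k + 1) * θ (k + 1) * (c (k + 1) - c k) - R (k + 1) * ((θ (k + 1) - θ k : ℝ) : ℂ) * c k
    with hE
  have hid : ∀ N, ∑ k ∈ Finset.range N, (R (k + 1) - R k) * s k * c k =
      R N * θ N * c N - R 0 * θ 0 * c 0 + ∑ k ∈ Finset.range N, E k := by
    intro N
    induction N with
    | zero => simp
    | succ N ih =>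
      rw [Finset.sum_range_succ, Finset.sum_range_succ, ih]
      simp only [hE]
      push_cast
      ring
  have hRθ : ∀ k, ‖R k * θ k‖ ≤ 18 * A := fun k => by
    rw [norm_mul, Complex.norm_real, Real.norm_eq_abs]
    refine (mul_le_mul (hR k) (hθ k) (abs_nonneg _) (mul_nonneg hA (hΛ k).le)).trans (le_of_eq ?_)
    have := (hΛ k).ne'
    field_simp
  have hend : ∀ k, ‖R k * θ k * c k‖ ≤ 18 * A * Q := fun k => by
    rw [norm_mul]
    exact mul_le_mul (hRθ k) (hc k) (norm_nonneg _) (by positivity)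
  have hEk : ∀ k, ‖E k‖ ≤ 18 * A * ‖c (k + 1) - c k‖ + 27 * A ^ 2 * (‖c k‖ * a k) -
      6 * A ^ 2 * (‖c k‖ * (f k - f (k + 1))) := fun k => by
    have hR1 : ‖R (k + 1)‖ ≤ A * Λ k := (hR (k + 1)).trans (mul_le_mul_of_nonneg_left (hΛ1 k) hA)
    have hAΛ : 0 ≤ A * Λ k := mul_nonneg hA (hΛ k).le
    have h1 : ‖(R (k + 1) - R k) * (s k - θ k) * c k‖ ≤ 2 * (A * Λ k) * (A * Δ k) * ‖c k‖ := by
      rw [norm_mul, norm_mul]
      refine mul_le_mul_of_nonneg_right
        (mul_le_mul ?_ (hs k) (norm_nonneg _) (by positivity)) (norm_nonneg _)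
      have := norm_sub_le (R (k + 1)) (R k)
      have := hR k
      linarith
    have h2 : ‖R (k + 1) * θ (k + 1) * (c (k + 1) - c k)‖ ≤ 18 * A * ‖c (k + 1) - c k‖ := by
      rw [norm_mul]
      exact mul_le_mul_of_nonneg_right (hRθ _) (norm_nonneg _)
    have h3 : ‖R (k + 1) * ((θ (k + 1) - θ k : ℝ) : ℂ) * c k‖ ≤ A * Λ k * (A * Δ k) * ‖c k‖ := by
      rw [norm_mul, norm_mul, Complex.norm_real, Real.norm_eq_abs]
      exact mul_le_mul_of_nonneg_right (mul_le_mul hR1 (hd k) (abs_nonneg _) hAΛ) (norm_nonneg _)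
    have h4 := mul_le_mul_of_nonneg_left (hΔ k)
      (show 0 ≤ 3 * A ^ 2 * ‖c k‖ by positivity)
    have h5 : ‖E k‖ ≤ ‖(R (k + 1) - R k) * (s k - θ k) * c k‖ +
        ‖R (k + 1) * θ (k + 1) * (c (k + 1) - c k)‖ +
        ‖R (k + 1) * ((θ (k + 1) - θ k : ℝ) : ℂ) * c k‖ :=
      (norm_sub_le _ _).trans (add_le_add_left (norm_sub_le _ _) _)
    linarith only [h1, h2, h3, h4, h5]
  have hab := abel_le (d := fun k => ‖c k‖) (f := f) (D := Q) (V := Q) (M := 1) (Nat.zero_le K)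
    (fun j _ _ => by rw [abs_norm]; exact hc j)
    (by
      rw [← Finset.range_eq_Ico]
      exact le_trans (Finset.sum_le_sum fun j _ => abs_norm_sub_norm_le _ _) hv)
    (fun j _ _ => by rw [abs_of_nonneg (hf0 j)]; exact hf1 j)
  rw [← Finset.range_eq_Ico] at hab
  have hab' := (abs_le.1 hab).1
  have hsum : ‖∑ k ∈ Finset.range K, E k‖ ≤
      18 * A * ∑ k ∈ Finset.range K, ‖c (k + 1) - c k‖ +
        27 * A ^ 2 * ∑ k ∈ Finset.range K, ‖c k‖ * a k -
        6 * A ^ 2 * ∑ k ∈ Finset.range K, ‖c k‖ * (f k - f (k + 1)) := by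
    refine (norm_sum_le _ _).trans ((Finset.sum_le_sum fun k _ => hEk k).trans (le_of_eq ?_))
    rw [Finset.sum_sub_distrib, Finset.sum_add_distrib, ← Finset.mul_sum, ← Finset.mul_sum,
      ← Finset.mul_sum]
  rw [hid]
  have h1 := norm_add_le (R K * θ K * c K - R 0 * θ 0 * c 0) (∑ k ∈ Finset.range K, E k)
  have h2 := norm_sub_le (R K * θ K * c K) (R 0 * θ 0 * c 0)
  have h3 := hend K
  have h4 := hend 0
  have h5 := mul_le_mul_of_nonneg_left hv (show 0 ≤ 18 * A by positivity)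
  have h6 := mul_le_mul_of_nonneg_left hab' (show 0 ≤ 6 * A ^ 2 by positivity)
  linarith only [hsum, h1, h2, h3, h4, h5, h6]

theorem diag_sum {b : ℝ → ℝ} {K A : ℝ} (h : HC b K) (hA : 0 ≤ A) {l y : Fin n → ℝ} {F : ℝ → ℂ}
    (hC : CD l y F) (hP : PB l y F A) (m : ℕ) (j : Fin n) :
    ‖∑ k ∈ Finset.range m, XX l y F k j (y j) * ck b k (y j)‖ ≤
      (54 * A + 18 * A ^ 2) * (512 * K) + 27 * A ^ 2 * ∑ k ∈ Finset.range m,
        ‖ck b k (y j)‖ * (aa l (rr k) (DD y k (y j)) / La l (rr k) (DD y k (y j))) := by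
  have hL : ∀ k, 0 < La l (rr k) (DD y k (y j)) := fun k => Diag_La_pos y hC.nn hC.pos k (y j)
  have hD : ∀ k i, 0 < DD y k (y j) i := fun k i => (rr_pos k).trans_le (DD_ge y k _ i)
  have hm := fun k => mu2_le hC.nn (rr_pos k) (DD_ge y k (y j))
  have key := diag_abs (R := fun k => Gk k F (y j) - F (y j)) (s := fun k => ths l y k j (y j))
    (c := fun k => ck b k (y j)) (θ := fun k => thk l y k j (y j))
    (Λ := fun k => La l (rr k) (DD y k (y j))) (Δ := fun k => dr l (rr k) (DD y k (y j)))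
    (a := fun k => aa l (rr k) (DD y k (y j)) / La l (rr k) (DD y k (y j)))
    (f := fun k => mu2 l (rr k) (DD y k (y j)) / La l (rr k) (DD y k (y j))) (Q := 512 * K)
    hA m hL
    (fun k => by
      simp only [La_eq]
      exact (w1_succ hC.nn y k (y j)).2.2.2)
    (fun k => by
      simp only [La_eq]
      exact hP.g0 k (y j))
    (fun k => by
      simp only [La_eq, thk, DD_self]
      rw [abs_of_nonneg (th_nonneg hC.nn (rr_pos k) (hD k))]
      exact th_le' hC.nn hC.pos (rr_pos k) (hD k))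
    (fun k => hP.d0 k j) (fun k => hP.d1 k j) (fun k => ck_le h k _) (ck_bv h m _)
    (fun k => div_nonneg (hm k).1 (hL k).le)
    (fun k => (div_le_one (hL k)).2 (hm k).2.1)
    (fun k => by
      have h1 := drift_le hC.nn hC.pos (rr_pos k) (DD_ge y k (y j))
      rw [← DD_succ, ← rr_succ] at h1
      have h2 : La l (rr k) (DD y k (y j)) * dr l (rr k) (DD y k (y j)) =
          aa l (rr k) (DD y k (y j)) / La l (rr k) (DD y k (y j)) +
            mu2 l (rr k) (DD y k (y j)) * tt l (rr k) (DD y k (y j)) /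
              La l (rr k) (DD y k (y j)) ^ 2 := by
        have := (hL k).ne'
        unfold dr
        field_simp
      rw [h2]
      linarith only [h1])
  refine le_of_eq_of_le ?_ key
  congr 1
  refine Finset.sum_congr rfl fun k _ => ?_
  simp only [XX]
  ring

end Pool.Agent.Work.MP_af796d_an.H
end

-- merged part: Pool.Agent.Work.MP_af796d_an.H.Core
section
/-!
# The core theorem
PLAN.  A from pieces, B from zz_atom A.  Take m with Gk m F = F.  Pointwise
F t = Gk 0 F t + sum_{k<m} (Gk (k+1) F t - Gk k F t) (telescoping) and each difference equals sum_j l j * XX k j t (PB.sum), so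
F t = (Gk 0 F t - F 0) + F 0 + sum_j l j * (ZZ m j t + sum_k XX k j (y j) * t4 k (y j) t).  Apply linearity of pr.
Gk 0 F - F 0 is an atom (at any point) with M = (2 A + 1) * sum l: rr 0 = 1, w1 l (DD y 0 t) ≤ sum l, ch ≤ 2,
‖F t - F 0‖ ≤ sum l by CD.md (each fraction is at most 1).  Then HC.bd for ZZ, diag_sum and ck_aa.
-/

set_option autoImplicit false

namespace Pool.Agent.Work.MP_af796d_an.H

open MeasureTheory Set Real Metric Filter Topology

lemma Core_w1 {n : ℕ} {l : Fin n → ℝ} (y : Fin n → ℝ) (hl : ∀ i, 0 ≤ l i) (t : ℝ) :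
    w1 l (DD y 0 t) ≤ ∑ i, l i := by
  unfold w1
  refine Finset.sum_le_sum fun i _ => div_le_self (hl i) ?_
  have := ch_nonneg (t - y i)
  simp only [DD, rr_zero]
  linarith

lemma Core_osc {n : ℕ} {l y : Fin n → ℝ} {F : ℝ → ℂ} (hC : CD l y F) (t : ℝ) :
    ‖F t - F 0‖ ≤ ∑ i, l i := by
  refine (hC.md t 0).trans (Finset.sum_le_sum fun i _ => ?_)
  have h1 := ch_nonneg (t - 0)
  have h2 := ch_nonneg (t - y i)
  exact mul_le_of_le_one_right (hC.nn i) (div_le_one_of_le₀ (by linarith) (by linarith))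

lemma Core_zero {b : ℝ → ℝ} {K A : ℝ} (h : HC b K) (hA : 0 ≤ A) {n : ℕ} {l y : Fin n → ℝ}
    {F : ℝ → ℂ} (hC : CD l y F) (hP : PB l y F A) :
    ‖pr b (fun t => Gk 0 F t - F 0)‖ ≤ K * ((2 * A + 1) * ∑ i, l i) := by
  have hs := hC.pos
  refine h.bd 0 _ _ (hP.an0.sub (An.const _)) (fun t => ?_) (fun t => ?_)
  · have h1 := hP.g0 0 t
    have h2 := Core_osc hC t
    have h3 := Core_w1 y hC.nn t
    rw [rr_zero, one_mul] at h1
    have h4 : A * w1 l (DD y 0 t) ≤ A * ∑ i, l i := mul_le_mul_of_nonneg_left h3 hA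
    have h5 : Gk 0 F t - F 0 = (Gk 0 F t - F t) + (F t - F 0) := by ring
    have h6 : 0 ≤ A * ∑ i, l i := by positivity
    rw [h5]
    refine (norm_add_le _ _).trans ?_
    linarith only [h1, h2, h4, h6]
  · have h1 := hP.g1 0 t
    have h3 := Core_w1 y hC.nn t
    have h4 : A * w1 l (DD y 0 t) ≤ A * ∑ i, l i := mul_le_mul_of_nonneg_left h3 hA
    have h5 : deriv (fun t => Gk 0 F t - F 0) t = deriv (Gk 0 F) t := deriv_sub_const _
    have h7 := ch_le_two (t - 0)
    have h8 := norm_nonneg (deriv (Gk 0 F) t)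
    rw [h5]
    have h9 : ch (t - 0) * ‖deriv (Gk 0 F) t‖ ≤ 2 * ‖deriv (Gk 0 F) t‖ :=
      mul_le_mul_of_nonneg_right h7 h8
    linarith only [hs, h1, h4, h9]

lemma Core_dec {n : ℕ} {l y : Fin n → ℝ} {F : ℝ → ℂ} {A : ℝ} (hP : PB l y F A) {m : ℕ}
    (hm : Gk m F = F) :
    F = fun t => ((Gk 0 F t - F 0) + F 0) + ∑ j, (l j : ℂ) * (ZZ l y F m j t +
      ∑ k ∈ Finset.range m, XX l y F k j (y j) * t4 k (y j) t) := by
  funext t
  have h1 : ∀ j, ZZ l y F m j t + ∑ k ∈ Finset.range m, XX l y F k j (y j) * t4 k (y j) t =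
      ∑ k ∈ Finset.range m, XX l y F k j t := by
    intro j
    unfold ZZ
    rw [Finset.sum_sub_distrib, sub_add_cancel]
  have h2 : ∀ k, ∑ j, (l j : ℂ) * XX l y F k j t = Gk (k + 1) F t - Gk k F t := by
    intro k
    have h3 := hP.sum k t
    calc ∑ j, (l j : ℂ) * XX l y F k j t
        = (Gk (k + 1) F t - Gk k F t) * ∑ j, (l j : ℂ) * ths l y k j t := by
          rw [Finset.mul_sum]
          refine Finset.sum_congr rfl fun j _ => ?_
          unfold XX
          ring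
      _ = _ := by rw [h3, mul_one]
  simp only [h1, Finset.mul_sum]
  rw [Finset.sum_comm]
  simp only [h2]
  rw [Finset.sum_range_sub (fun k => Gk k F t), hm]
  ring

theorem core : ∃ K₁ : ℝ, 0 ≤ K₁ ∧ ∀ (b : ℝ → ℝ) (K : ℝ), HC b K → CoreBd b (K₁ * K) := by
  obtain ⟨A, hA, hpieces⟩ := pieces
  obtain ⟨B, hB, hzz⟩ := zz_atom A hA
  refine ⟨(2 * A + 1) + B + (54 * A + 18 * A ^ 2) * 512 + 27 * A ^ 2 * 576, by positivity, ?_⟩
  intro b K h n l y F hC
  have hP := hpieces n l y F hC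
  obtain ⟨m, hm⟩ := hP.fin
  have hZ := hzz n l y F hC hP m
  have hK := h.nn
  have a0 : An (fun t => Gk 0 F t - F 0) := hP.an0.sub (An.const _)
  have a1 : ∀ j k, An (fun t => XX l y F k j (y j) * t4 k (y j) t) :=
    fun j k => (an_t4 k (y j)).const_mul _
  have a2 : ∀ j, An (fun t => ∑ k ∈ Finset.range m, XX l y F k j (y j) * t4 k (y j) t) :=
    fun j => An.sum _ fun k _ => a1 j k
  have a3 : ∀ j, An (fun t => ZZ l y F m j t +
      ∑ k ∈ Finset.range m, XX l y F k j (y j) * t4 k (y j) t) := fun j => (hZ j).1.add (a2 j)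
  have a4 : ∀ j, An (fun t => (l j : ℂ) * (ZZ l y F m j t +
      ∑ k ∈ Finset.range m, XX l y F k j (y j) * t4 k (y j) t)) := fun j => (a3 j).const_mul _
  have e1 : ∀ j, pr b (fun t => ∑ k ∈ Finset.range m, XX l y F k j (y j) * t4 k (y j) t) =
      ∑ k ∈ Finset.range m, XX l y F k j (y j) * ck b k (y j) := by
    intro j
    rw [pr_sum h.ii _ fun k _ => a1 j k]
    exact Finset.sum_congr rfl fun k _ => pr_const_mul b (an_t4 k (y j)) _
  have e2 : ∀ j, pr b (fun t => (l j : ℂ) * (ZZ l y F m j t +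
      ∑ k ∈ Finset.range m, XX l y F k j (y j) * t4 k (y j) t)) =
      (l j : ℂ) * (pr b (ZZ l y F m j) +
        ∑ k ∈ Finset.range m, XX l y F k j (y j) * ck b k (y j)) := by
    intro j
    rw [pr_const_mul b (a3 j), pr_add h.ii (hZ j).1 (a2 j), e1]
  have e3 : pr b F = pr b (fun t => Gk 0 F t - F 0) + ∑ j, (l j : ℂ) * (pr b (ZZ l y F m j) +
      ∑ k ∈ Finset.range m, XX l y F k j (y j) * ck b k (y j)) := by
    have e4 := congrArg (pr b) (Core_dec hP hm)
    rw [pr_add h.ii (a0.add (An.const _)) (An.sum _ fun j _ => a4 j),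
      pr_add h.ii a0 (An.const _), pr_const, add_zero, pr_sum h.ii _ fun j _ => a4 j] at e4
    rw [e4]
    simp only [e2]
  have b0 := Core_zero h hA hC hP
  have b1 : ∀ j, ‖pr b (ZZ l y F m j)‖ ≤ K * B :=
    fun j => h.bd (y j) _ _ (hZ j).1 (hZ j).2.1 (hZ j).2.2
  have b2 := diag_sum h hA hC hP m
  have b3 := ck_aa h y hC.nn hC.pos m
  set S : Fin n → ℝ := fun j => ∑ k ∈ Finset.range m,
    ‖ck b k (y j)‖ * (aa l (rr k) (DD y k (y j)) / La l (rr k) (DD y k (y j))) with hS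
  have b4 : ‖∑ j, (l j : ℂ) * (pr b (ZZ l y F m j) +
      ∑ k ∈ Finset.range m, XX l y F k j (y j) * ck b k (y j))‖ ≤
      ∑ j, l j * (K * B + ((54 * A + 18 * A ^ 2) * (512 * K) + 27 * A ^ 2 * S j)) := by
    refine (norm_sum_le _ _).trans (Finset.sum_le_sum fun j _ => ?_)
    rw [norm_mul, Complex.norm_real, Real.norm_of_nonneg (hC.nn j)]
    exact mul_le_mul_of_nonneg_left ((norm_add_le _ _).trans (add_le_add (b1 j) (b2 j))) (hC.nn j)
  have b5 : ∑ j, l j * (K * B + ((54 * A + 18 * A ^ 2) * (512 * K) + 27 * A ^ 2 * S j)) =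
      (K * B + (54 * A + 18 * A ^ 2) * (512 * K)) * ∑ j, l j + 27 * A ^ 2 * ∑ j, l j * S j := by
    rw [Finset.mul_sum, Finset.mul_sum, ← Finset.sum_add_distrib]
    exact Finset.sum_congr rfl fun j _ => by ring
  have b6 : 27 * A ^ 2 * ∑ j, l j * S j ≤ 27 * A ^ 2 * (576 * K * ∑ i, l i) :=
    mul_le_mul_of_nonneg_left b3 (by positivity)
  rw [e3]
  refine (norm_add_le _ _).trans ?_
  rw [b5] at b4
  linarith only [b0, b4, b6]

end Pool.Agent.Work.MP_af796d_an.H
end

-- merged part: Pool.Agent.Work.MP_af796d_an.H.HB3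
section
/-!
# The representing function is in the class VP
PLAN.  mean u y s = Λ ((1/s) • (chi (y+s) - chi y)).  For a monotone sequence s_0 ≤ ... ≤ s_n in (0, π] and signs ε_i with
ε_i (Q s_{i+1} - Q s_i) = |Q s_{i+1} - Q s_i|, the variation sum equals Λ g with
g = sum ε_i • ((1/s_{i+1}) • (chi (y + s_{i+1}) - chi y) - (1/s_i) • (chi (y + s_i) - chi y)).
For t in (y, y + 2π], x = t - y: (1/s)(chi (y+s) t - chi y t) = 1[x ≤ s]/s - 1/2π (chi_sub), the constants cancel.
Atom bounds at y with M = 2: the primitive at x is sum ε_i (min 1 (x/s_{i+1}) - min 1 (x/s_i)), of size at most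
min 1 (x/s_0) - min 1 (x/s_n) ≤ 1 (telescoping of a monotone sequence), extended by periodicity;
the sequence a_i = x * 1[x ≤ s_i]/s_i takes values in [0, 1], is 0 and then antitone, so sum |a_{i+1} - a_i| ≤ 2
(prove by induction: sum_{i<n} |a_{i+1} - a_i| ≤ 2 * 1[x ≤ s_n] - a_n), and ch x ≤ x.
So every variation sum is ≤ 2 K; conclude with eVariationOn (iSup_le, edist = ofReal |.|).
Negative side: for s in [-π, 0) and t in (y - 2π, y], x = y - t in [0, 2π), σ = -s:
(1/s)(chi (y+s) t - chi y t) = 1[x < σ]/σ - 1/2π (chi_sub with a = y - 2π twice, or with a = y + s after shifting t by a period); same proof.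
One can factor both sides through one lemma about a family of functions I σ in XR that equal 1[x ≤ σ]/σ - 1/2π up to end points.
-/

set_option autoImplicit false

namespace Pool.Agent.Work.MP_af796d_an.H

open MeasureTheory Set Real Metric Filter Topology

lemma HB3_anti (c : ℝ) : Antitone fun t : ℝ => if t ≤ c then (1 : ℝ) else 0 := by
  intro s t h
  simp only
  split_ifs with h1 h2
  · exact le_rfl
  · exact absurd (h.trans h1) h2
  · exact zero_le_one
  · exact le_rfl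

lemma HB3_int0 {a b c : ℝ} (hb : a ≤ b) (hc : a ≤ c) :
    ∫ t in a..b, (if t ≤ c then (1 : ℝ) else 0) = min b c - a := by
  rcases le_total c b with h | h
  · have := intervalIntegral.integral_indicator (μ := volume) (f := fun _ => (1 : ℝ))
      (show c ∈ Icc a b from ⟨hc, h⟩)
    simp only [indicator, mem_ofPred_eq, intervalIntegral.integral_const, smul_eq_mul,
      mul_one] at this
    rw [this, min_eq_right h]
  · rw [intervalIntegral.integral_congr (g := fun _ => (1 : ℝ)), min_eq_left h]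
    · simp
    · intro t ht
      rw [uIcc_of_le hb] at ht
      exact if_pos (ht.2.trans h)

lemma HB3_int (a b c : ℝ) :
    ∫ t in a..b, (if t ≤ c then (1 : ℝ) else 0) = min b c - min a c := by
  rw [← intervalIntegral.integral_interval_sub_left (a := min (min a b) c)
    (HB3_anti c).intervalIntegrable (HB3_anti c).intervalIntegrable,
    HB3_int0 ((min_le_left _ _).trans (min_le_right _ _)) (min_le_right _ _),
    HB3_int0 ((min_le_left _ _).trans (min_le_left _ _)) (min_le_right _ _)]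
  ring

/-- normalised indicator function of the interval with end points `0`, `s`. -/
noncomputable def HB3_J (s x : ℝ) : ℝ :=
  ((if x ≤ s then 1 else 0) - (if x ≤ 0 then 1 else 0)) / s

/-- its primitive. -/
noncomputable def HB3_P (s x : ℝ) : ℝ := (min x s - min 0 s - min x 0) / s

lemma HB3_ii (s a b : ℝ) : IntervalIntegrable (HB3_J s) volume a b :=
  ((HB3_anti s).intervalIntegrable.sub (HB3_anti 0).intervalIntegrable).div_const s

lemma HB3_intJ (s x : ℝ) : ∫ t in (0 : ℝ)..x, HB3_J s t = HB3_P s x := by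
  simp only [HB3_J, HB3_P]
  rw [intervalIntegral.integral_div, intervalIntegral.integral_sub (HB3_anti s).intervalIntegrable
    (HB3_anti 0).intervalIntegrable, HB3_int, HB3_int, min_self, sub_zero]

lemma HB3_JP {s : ℝ} (hs : s ≠ 0) (x : ℝ) :
    x * HB3_J s x = HB3_P s x + (if x ≤ s then 1 else 0) - (if 0 ≤ s then 1 else 0) := by
  simp only [HB3_J, HB3_P, min_def]
  split_ifs <;> field_simp <;> ring

lemma HB3_Ppos {s : ℝ} (hs : 0 < s) (x : ℝ) : HB3_P s x = min 1 (max x 0 / s) := by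
  rw [HB3_P, min_eq_left hs.le]
  rcases le_total x 0 with h | h
  · rw [min_eq_left (h.trans hs.le), min_eq_left h, max_eq_right h]
    simp
  · rw [min_eq_right h, max_eq_left h, sub_zero, sub_zero, ← min_div_div_right hs.le,
      div_self hs.ne', min_comm]

lemma HB3_Pneg {s : ℝ} (hs : s < 0) (x : ℝ) : HB3_P s x = -min 1 (max (-x) 0 / (-s)) := by
  have hs' : 0 < -s := neg_pos.2 hs
  have h0 := hs.ne
  rw [← HB3_Ppos hs', HB3_P, HB3_P, min_eq_right hs.le, min_eq_left hs'.le, div_neg, neg_neg,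
    min_neg_neg, ← neg_zero, min_neg_neg, neg_zero]
  have h1 := min_add_max x s
  have h2 := min_add_max x 0
  refine congrArg (· / s) ?_
  linarith only [h1, h2]

lemma HB3_tel {a : ℕ → ℝ} (h : Antitone a) (n : ℕ) :
    ∑ i ∈ Finset.range n, |a (i + 1) - a i| = a 0 - a n := by
  rw [← Finset.sum_range_sub' a n]
  exact Finset.sum_congr rfl fun i _ => by
    rw [abs_sub_comm, abs_of_nonneg (sub_nonneg.2 (h (Nat.le_succ i)))]

lemma HB3_varP {s : ℕ → ℝ} (hm : Monotone s) (hs : (∀ i, 0 < s i) ∨ ∀ i, s i < 0) (x : ℝ)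
    (n : ℕ) : ∑ i ∈ Finset.range n, |HB3_P (s (i + 1)) x - HB3_P (s i) x| ≤ 1 := by
  rcases hs with hs | hs
  · rw [HB3_tel (a := fun i => HB3_P (s i) x)]
    · rw [HB3_Ppos (hs _), HB3_Ppos (hs _)]
      have h1 := min_le_left 1 (max x 0 / s 0)
      have h2 : 0 ≤ min 1 (max x 0 / s n) :=
        le_min zero_le_one (div_nonneg (le_max_right _ _) (hs n).le)
      linarith only [h1, h2]
    · intro i j hij
      simp only [HB3_Ppos (hs _)]
      exact min_le_min_left _ (div_le_div_of_nonneg_left (le_max_right _ _) (hs i) (hm hij))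
  · rw [HB3_tel (a := fun i => HB3_P (s i) x)]
    · rw [HB3_Pneg (hs _), HB3_Pneg (hs _)]
      have h1 := min_le_left 1 (max (-x) 0 / (-s n))
      have h2 : 0 ≤ min 1 (max (-x) 0 / (-s 0)) :=
        le_min zero_le_one (div_nonneg (le_max_right _ _) (neg_pos.2 (hs 0)).le)
      linarith only [h1, h2]
    · intro i j hij
      simp only [HB3_Pneg (hs _)]
      exact neg_le_neg (min_le_min_left _ (div_le_div_of_nonneg_left (le_max_right _ _)
        (neg_pos.2 (hs j)) (neg_le_neg (hm hij))))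

lemma HB3_varJ {s : ℕ → ℝ} (hm : Monotone s) (hs : (∀ i, 0 < s i) ∨ ∀ i, s i < 0) (x : ℝ)
    (n : ℕ) : ∑ i ∈ Finset.range n, |x * HB3_J (s (i + 1)) x - x * HB3_J (s i) x| ≤ 2 := by
  have h0 : ∀ i, s i ≠ 0 := fun i => hs.elim (fun h => (h i).ne') fun h => (h i).ne
  have h1 : ∀ i j, (if 0 ≤ s i then (1 : ℝ) else 0) = if 0 ≤ s j then 1 else 0 := by
    intro i j
    rcases hs with hs | hs
    · rw [if_pos (hs i).le, if_pos (hs j).le]
    · rw [if_neg (hs i).not_ge, if_neg (hs j).not_ge]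
  have h2 := HB3_varP hm hs x n
  have h3 := HB3_tel (a := fun i => -if x ≤ s i then (1 : ℝ) else 0) (fun i j hij => by
    simp only
    split_ifs with h1 h2 h2
    · exact le_rfl
    · simp
    · exact absurd (h2.trans (hm hij)) h1
    · exact le_rfl) n
  have h4 : (-if x ≤ s 0 then (1 : ℝ) else 0) - (-if x ≤ s n then (1 : ℝ) else 0) ≤ 1 := by
    split_ifs <;> norm_num
  refine le_trans ?_ ((add_le_add h2 (h3.le.trans h4)).trans (by norm_num))
  rw [← Finset.sum_add_distrib]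
  refine Finset.sum_le_sum fun i _ => ?_
  rw [HB3_JP (h0 _), HB3_JP (h0 _), h1 (i + 1) i, abs_sub_comm (-_)]
  refine le_trans (le_of_eq (congrArg _ ?_)) (abs_add_le _ _)
  ring

lemma HB3_iiX (g : XR) (a b : ℝ) : IntervalIntegrable (g : ℝ → ℝ) volume a b := by
  obtain ⟨h1, -, ⟨B, hB⟩, -⟩ := g.2
  exact bdd_intervalIntegrable h1 hB a b

/-- integration over an interval as a linear functional. -/
noncomputable def HB3_L (y x : ℝ) : XR →ₗ[ℝ] ℝ where
  toFun g := ∫ t in y..x, (g : ℝ → ℝ) t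
  map_add' f g := intervalIntegral.integral_add (HB3_iiX f y x) (HB3_iiX g y x)
  map_smul' c _ := intervalIntegral.integral_const_mul c _

/-- weighted evaluation as a linear functional. -/
noncomputable def HB3_ev (y t : ℝ) : XR →ₗ[ℝ] ℝ where
  toFun g := (t - y) * (g : ℝ → ℝ) t
  map_add' _ _ := mul_add _ _ _
  map_smul' _ _ := mul_left_comm _ _ _

lemma HB3_atom {Λ : XR →ₗ[ℝ] ℝ} {K : ℝ} (h : AtomBd Λ K) (g : XR) (y M : ℝ)
    (h1 : ∀ x ∈ Ioc (y - π) (y - π + 2 * π), |HB3_L y x g| ≤ M)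
    (h2 : ∀ t ∈ Ioc (y - π) (y - π + 2 * π), |HB3_ev y t g| ≤ M) : |Λ g| ≤ K * M := by
  obtain ⟨-, hp, -, h0⟩ := g.2
  refine h g y M (fun x => ?_) fun t => ?_
  · have hq : Function.Periodic (fun x => ∫ t in y..x, (g : ℝ → ℝ) t) (2 * π) := by
      intro x
      simp only
      rw [← intervalIntegral.integral_add_adjacent_intervals (HB3_iiX g y x) (HB3_iiX g x _),
        hp.intervalIntegral_add_eq x 0, zero_add, h0, add_zero]
    obtain ⟨x', hx', e⟩ := hq.exists_mem_Ioc two_pi_pos x (y - π)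
    rw [e]
    exact h1 x' hx'
  · have hq : Function.Periodic (fun t => ch (t - y) * |(g : ℝ → ℝ) t|) (2 * π) := by
      intro t
      simp only
      rw [hp t, add_sub_right_comm, ch_periodic]
    obtain ⟨t', ht', e⟩ := hq.exists_mem_Ioc two_pi_pos t (y - π)
    rw [e]
    refine le_trans ?_ (h2 t' ht')
    change _ ≤ |(t' - y) * (g : ℝ → ℝ) t'|
    rw [abs_mul]
    exact mul_le_mul_of_nonneg_right (ch_le_abs _) (abs_nonneg _)

lemma HB3_lin (φ : XR →ₗ[ℝ] ℝ) {ε : ℕ → ℝ} (hε : ∀ i, |ε i| ≤ 1) (I : ℕ → XR) (n : ℕ) :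
    |φ (∑ i ∈ Finset.range n, ε i • (I (i + 1) - I i))| ≤
      ∑ i ∈ Finset.range n, |φ (I (i + 1)) - φ (I i)| := by
  rw [map_sum]
  refine (Finset.abs_sum_le_sum_abs _ _).trans (Finset.sum_le_sum fun i _ => ?_)
  rw [map_smul, map_sub, smul_eq_mul, abs_mul]
  exact mul_le_of_le_one_left (abs_nonneg _) (hε i)

/-- the function that represents the mean value. -/
noncomputable def HB3_I (y s : ℝ) : XR :=
  (1 / s) • ((⟨chi (y + s), chi_mem _⟩ : XR) - ⟨chi y, chi_mem _⟩)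

lemma HB3_I_eq {y s t : ℝ} (h0 : s ≠ 0) (h1 : -π ≤ s) (h2 : s ≤ π)
    (ht : t ∈ Ioc (y - π) (y - π + 2 * π)) :
    (HB3_I y s : ℝ → ℝ) t = HB3_J s (t - y) - 1 / (2 * π) := by
  have hπ := pi_pos
  have e1 := chi_sub (a := y - π) (c := y + s) (by linarith) (by linarith) ht.1 ht.2
  have e2 := chi_sub (a := y - π) (c := y) (by linarith) (by linarith) ht.1 ht.2
  change 1 / s * (chi (y + s) t - chi y t) = _
  have e3 : chi (y + s) t - chi y t = (if t ≤ y + s then 1 else 0) - (if t ≤ y then 1 else 0) -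
      s / (2 * π) := by
    have : (y + s - (y - π)) / (2 * π) = (y - (y - π)) / (2 * π) + s / (2 * π) := by ring
    linarith only [e1, e2, this]
  simp only [e3, HB3_J, sub_le_iff_le_add', add_zero]
  field_simp

lemma HB3_L_eq {y s x : ℝ} (h0 : s ≠ 0) (h1 : -π ≤ s) (h2 : s ≤ π)
    (hx : x ∈ Ioc (y - π) (y - π + 2 * π)) :
    HB3_L y x (HB3_I y s) = HB3_P s (x - y) - (x - y) / (2 * π) := by
  have hπ := pi_pos
  change ∫ t in y..x, (HB3_I y s : ℝ → ℝ) t = _
  rw [intervalIntegral.integral_congr (g := fun t => HB3_J s (t - y) - 1 / (2 * π))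
    fun t ht => HB3_I_eq h0 h1 h2 (ordConnected_Ioc.uIcc_subset ⟨by linarith, by linarith⟩ hx ht),
    intervalIntegral.integral_comp_sub_right (fun t => HB3_J s t - 1 / (2 * π)), sub_self,
    intervalIntegral.integral_sub (HB3_ii s _ _) intervalIntegrable_const, HB3_intJ,
    intervalIntegral.integral_const, smul_eq_mul, sub_zero, mul_one_div]

lemma HB3_var {Λ : XR →ₗ[ℝ] ℝ} {K : ℝ} (h : AtomBd Λ K) (y : ℝ) {s : ℕ → ℝ} (hm : Monotone s)
    (hs : (∀ i, 0 < s i) ∨ ∀ i, s i < 0) (h1 : ∀ i, -π ≤ s i) (h2 : ∀ i, s i ≤ π) (n : ℕ) :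
    ∑ i ∈ Finset.range n, |Λ (HB3_I y (s (i + 1))) - Λ (HB3_I y (s i))| ≤ K * 2 := by
  have h0 : ∀ i, s i ≠ 0 := fun i => hs.elim (fun h => (h i).ne') fun h => (h i).ne
  have hex : ∀ z : ℝ, ∃ e : ℝ, |e| ≤ 1 ∧ e * z = |z| := fun z => by
    rcases le_total 0 z with hz | hz
    · exact ⟨1, by simp, by rw [abs_of_nonneg hz, one_mul]⟩
    · exact ⟨-1, by simp, by rw [abs_of_nonpos hz, neg_one_mul]⟩
  choose ε hε hε' using fun i => hex (Λ (HB3_I y (s (i + 1))) - Λ (HB3_I y (s i)))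
  have key := HB3_atom h (∑ i ∈ Finset.range n, ε i • (HB3_I y (s (i + 1)) - HB3_I y (s i))) y 2
    (fun x hx => (HB3_lin _ hε (fun i => HB3_I y (s i)) n).trans (by
      simp only [HB3_L_eq (h0 _) (h1 _) (h2 _) hx, sub_sub_sub_cancel_right]
      exact (HB3_varP hm hs _ n).trans one_le_two))
    (fun t ht => (HB3_lin _ hε (fun i => HB3_I y (s i)) n).trans (by
      have e : ∀ i, HB3_ev y t (HB3_I y (s i)) =
          (t - y) * HB3_J (s i) (t - y) - (t - y) * (1 / (2 * π)) := fun i => by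
        rw [← mul_sub, ← HB3_I_eq (h0 _) (h1 _) (h2 _) ht]
        rfl
      simp only [e, sub_sub_sub_cancel_right]
      exact HB3_varJ hm hs _ n))
  refine le_trans (le_of_eq ?_) ((le_abs_self _).trans key)
  rw [map_sum]
  exact Finset.sum_congr rfl fun i _ => by rw [map_smul, map_sub, smul_eq_mul, hε']

theorem vp_of_rep {Λ : XR →ₗ[ℝ] ℝ} {K : ℝ} (h : AtomBd Λ K) {u : ℝ → ℝ} (hu : Measurable u)
    (hp : Function.Periodic u (2 * π)) (hB : ∃ B, ∀ t, |u t| ≤ B)
    (hE : ∀ a c, Λ ⟨chi c, chi_mem c⟩ - Λ ⟨chi a, chi_mem a⟩ = ∫ t in a..c, u t) : VP u := by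
  have hπ := pi_pos
  have hm : ∀ y s, mean u y s = Λ (HB3_I y s) := fun y s => by
    rw [HB3_I, map_smul, map_sub, hE, mean, smul_eq_mul, one_div_mul_eq_div]
  have key : ∀ (y : ℝ) (D : Set ℝ), ((∀ s ∈ D, 0 < s) ∨ ∀ s ∈ D, s < 0) →
      (∀ s ∈ D, -π ≤ s ∧ s ≤ π) → eVariationOn (mean u y) D ≤ (Real.toNNReal (K * 2) : NNReal) := by
    intro y D hD hD'
    refine iSup_le ?_
    rintro ⟨n, s, hs, hsD⟩
    simp only [edist_dist, Real.dist_eq, hm]
    rw [← ENNReal.ofReal_sum_of_nonneg fun _ _ => abs_nonneg _]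
    exact ENNReal.ofReal_le_ofReal (HB3_var h y hs
      (hD.imp (fun h i => h _ (hsD i)) fun h i => h _ (hsD i)) (fun i => (hD' _ (hsD i)).1)
      (fun i => (hD' _ (hsD i)).2) n)
  exact ⟨hu, hp, hB, Real.toNNReal (K * 2), fun y =>
    ⟨key y _ (Or.inl fun s hs => hs.1) fun s hs => ⟨by linarith [hs.1], hs.2⟩,
      key y _ (Or.inr fun s hs => hs.2) fun s hs => ⟨hs.1, by linarith [hs.2]⟩⟩⟩

end Pool.Agent.Work.MP_af796d_an.H
end

-- merged part: Pool.Agent.Work.MP_af796d_an.H.HB4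
section
/-!
# From the hub condition to the decomposition b = u + conjugate of v
PLAN.  hc_of_hb, core, exists_ext, exists_rep and vp_of_rep for Λ1 and Λ2 give u and u2.  Put v = - u2 (VP is stable under negation:
mean (-u) = - mean u, eVariationOn of the negative).  For n ≥ 1 let C t = cos (n t), S t = sin (n t), both in XR and continuous.
F = (1/n) e n: deriv F = i e n = - S + i C, so ∫ (-S) b = ∫ (-S) u + ∫ C u2.
F = (-i/n) e n: deriv F = e n = C + i S, so ∫ C b = ∫ C u + ∫ S u2.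
With w = b - u: the real part of (v + i w) e^{int} is v C - w S, the imaginary part is v S + w C; both integrate to 0.
-/

set_option autoImplicit false

namespace Pool.Agent.Work.MP_af796d_an.H

open MeasureTheory Set Real Metric Filter Topology

lemma VP.neg' {u : ℝ → ℝ} (h : VP u) : VP (fun t => -u t) := by
  obtain ⟨h1, h2, ⟨B, hB⟩, C, hC⟩ := h
  have hm : ∀ y, mean (fun t => -u t) y = fun s => -mean u y s := by
    intro y
    funext s
    simp only [mean, intervalIntegral.integral_neg, neg_div]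
  have hv : ∀ (f : ℝ → ℝ) (S : Set ℝ), eVariationOn (fun s => -f s) S = eVariationOn f S := by
    intro f S
    simp only [eVariationOn, edist_neg_neg]
  refine ⟨h1.neg, fun t => by simp only [h2 t], ⟨B, fun t => by simpa only [abs_neg] using hB t⟩,
    C, fun y => ?_⟩
  rw [hm, hv, hv]
  exact hC y

lemma HB4_ex (x : ℝ) : ex x = (Real.cos x : ℂ) + Complex.I * (Real.sin x : ℂ) := by
  unfold ex
  rw [mul_comm, Complex.exp_mul_I, Complex.ofReal_cos, Complex.ofReal_sin]
  ring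

lemma HB4_per (n : ℕ) (t : ℝ) : (n : ℝ) * (t + 2 * π) = n * t + n * (2 * π) := by ring

lemma HB4_cos_mem {n : ℕ} (hn : 1 ≤ n) : (fun t : ℝ => Real.cos (n * t)) ∈ XR := by
  have hn0 : (n : ℝ) ≠ 0 := by positivity
  refine ⟨by fun_prop, fun t => ?_, ⟨1, fun t => Real.abs_cos_le_one _⟩, ?_⟩
  · show Real.cos (n * (t + 2 * π)) = Real.cos (n * t)
    rw [HB4_per, Real.cos_add_nat_mul_two_pi]
  · have hd : ∀ t ∈ uIcc (0 : ℝ) (2 * π),
        HasDerivAt (fun t : ℝ => Real.sin (n * t) / n) (Real.cos (n * t)) t := by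
      intro t _
      have h1 := (((hasDerivAt_id t).const_mul (n : ℝ)).sin).div_const (n : ℝ)
      refine h1.congr_deriv ?_
      simp only [id, mul_one]
      field_simp
    rw [intervalIntegral.integral_eq_sub_of_hasDerivAt hd
      ((by fun_prop : Continuous fun t : ℝ => Real.cos (n * t)).intervalIntegrable _ _)]
    have h2 : Real.sin (n * (2 * π)) = 0 := by
      have := Real.sin_add_nat_mul_two_pi 0 n
      simpa using this
    simp [h2]

lemma HB4_sin_mem {n : ℕ} (hn : 1 ≤ n) : (fun t : ℝ => Real.sin (n * t)) ∈ XR := by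
  have hn0 : (n : ℝ) ≠ 0 := by positivity
  refine ⟨by fun_prop, fun t => ?_, ⟨1, fun t => Real.abs_sin_le_one _⟩, ?_⟩
  · show Real.sin (n * (t + 2 * π)) = Real.sin (n * t)
    rw [HB4_per, Real.sin_add_nat_mul_two_pi]
  · have hd : ∀ t ∈ uIcc (0 : ℝ) (2 * π),
        HasDerivAt (fun t : ℝ => -Real.cos (n * t) / n) (Real.sin (n * t)) t := by
      intro t _
      have h1 := (((hasDerivAt_id t).const_mul (n : ℝ)).cos).neg.div_const (n : ℝ)
      refine h1.congr_deriv ?_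
      simp only [id, mul_one]
      field_simp
    rw [intervalIntegral.integral_eq_sub_of_hasDerivAt hd
      ((by fun_prop : Continuous fun t : ℝ => Real.sin (n * t)).intervalIntegrable _ _)]
    have h2 : Real.cos (n * (2 * π)) = 1 := Real.cos_nat_mul_two_pi n
    simp [h2]

lemma HB4_nsin_mem {n : ℕ} (hn : 1 ≤ n) : (fun t : ℝ => -Real.sin (n * t)) ∈ XR :=
  XR.neg_mem (HB4_sin_mem hn)

lemma HB4_mem (n : ℕ) (c : ℂ) : (fun t : ℝ => c * ex (n * t)) ∈ Sp 0 n := by
  have h1 := e_mem_Sp (a := 0) (c := n) (m := n) (Int.natCast_nonneg n) le_rfl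
  have h2 := (Sp 0 n).smul_mem c h1
  convert h2 using 1
  funext t
  simp only [Pi.smul_apply, smul_eq_mul, Int.cast_natCast]

lemma HB4_deriv (n : ℕ) (c : ℂ) (t : ℝ) :
    deriv (fun t : ℝ => c * ex (n * t)) t = c * n * (Complex.I * ex (n * t)) := by
  have h1 := (hasDerivAt_ex (n * t)).scomp t ((hasDerivAt_id t).const_mul (n : ℝ))
  have h2 := h1.const_mul c
  have h3 : HasDerivAt (fun t : ℝ => c * ex (n * t)) (c * n * (Complex.I * ex (n * t))) t := by
    refine h2.congr_deriv ?_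
    simp only [mul_one, Complex.real_smul, Complex.ofReal_natCast]
    ring
  exact h3.deriv

theorem uv_of_hb {b : ℝ → ℝ} {K : ℝ} (hb : IntervalIntegrable b volume 0 (2 * π)) (h : HB b K) :
    ∃ u v : ℝ → ℝ, VP u ∧ VP v ∧ IsConj v (fun t => b t - u t) := by
  have hc := hc_of_hb hb h
  obtain ⟨K₁, hK₁, hcore⟩ := core
  obtain ⟨Λ₁, Λ₂, hA₁, hA₂, hΛ⟩ := exists_ext hb (mul_nonneg hK₁ hc.nn) (hcore b _ hc)
  obtain ⟨u, hu1, hu2, hu3, hu4, hu5⟩ := exists_rep hA₁
  obtain ⟨w, hw1, hw2, hw3, hw4, hw5⟩ := exists_rep hA₂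
  refine ⟨u, fun t => -w t, vp_of_rep hA₁ hu1 hu2 hu3 hu4,
    VP.neg' (vp_of_rep hA₂ hw1 hw2 hw3 hw4), fun n hn => ?_⟩
  have hn0 : (n : ℂ) ≠ 0 := by
    have : n ≠ 0 := by omega
    exact_mod_cast this
  obtain ⟨Bu, hBu⟩ := hu3
  obtain ⟨Bw, hBw⟩ := hw3
  have hui := bdd_intervalIntegrable hu1 hBu 0 (2 * π)
  have hwi := bdd_intervalIntegrable hw1 hBw 0 (2 * π)
  have hC : Continuous fun t : ℝ => Real.cos (n * t) := by fun_prop
  have hS : Continuous fun t : ℝ => Real.sin (n * t) := by fun_prop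
  have e1 := hΛ ⟨_, HB4_nsin_mem hn⟩ ⟨_, HB4_cos_mem hn⟩ n _ (HB4_mem n (1 / n)) (fun t => by
    rw [HB4_deriv, HB4_ex]
    simp only [Complex.ofReal_neg]
    field_simp
    linear_combination (Real.sin (n * t) : ℂ) * Complex.I_mul_I)
  have e2 := hΛ ⟨_, HB4_cos_mem hn⟩ ⟨_, HB4_sin_mem hn⟩ n _ (HB4_mem n (-Complex.I / n))
    (fun t => by
      rw [HB4_deriv, HB4_ex]
      field_simp
      linear_combination (-(Real.cos (n * t) : ℂ) - Complex.I * (Real.sin (n * t) : ℂ)) *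
        Complex.I_mul_I)
  rw [hu5 _ hS.neg, hw5 _ hC] at e1
  rw [hu5 _ hC, hw5 _ hS] at e2
  simp only [neg_mul, intervalIntegral.integral_neg] at e1 e2
  have iCb := hb.continuousOn_mul hC.continuousOn
  have iSb := hb.continuousOn_mul hS.continuousOn
  have iCu := hui.continuousOn_mul hC.continuousOn
  have iSu := hui.continuousOn_mul hS.continuousOn
  have iCw := hwi.continuousOn_mul hC.continuousOn
  have iSw := hwi.continuousOn_mul hS.continuousOn
  have iR := (iSu.sub iSb).sub iCw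
  have iI := (iCb.sub iCu).sub iSw
  have r1 : ∫ t in (0 : ℝ)..(2 * π), (Real.sin (n * t) * u t - Real.sin (n * t) * b t -
      Real.cos (n * t) * w t) = 0 := by
    rw [intervalIntegral.integral_sub (iSu.sub iSb) iCw, intervalIntegral.integral_sub iSu iSb]
    linarith only [e1]
  have r2 : ∫ t in (0 : ℝ)..(2 * π), (Real.cos (n * t) * b t - Real.cos (n * t) * u t -
      Real.sin (n * t) * w t) = 0 := by
    rw [intervalIntegral.integral_sub (iCb.sub iCu) iSw, intervalIntegral.integral_sub iCb iCu]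
    linarith only [e2]
  have hpt : ∀ t : ℝ, (((-w t : ℝ) : ℂ) + Complex.I * ((b t - u t : ℝ) : ℂ)) *
      Complex.exp (Complex.I * n * t) =
      ((Real.sin (n * t) * u t - Real.sin (n * t) * b t - Real.cos (n * t) * w t : ℝ) : ℂ) +
      Complex.I * ((Real.cos (n * t) * b t - Real.cos (n * t) * u t -
        Real.sin (n * t) * w t : ℝ) : ℂ) := by
    intro t
    have h1 : Complex.exp (Complex.I * n * t) = ex (n * t) := by
      unfold ex
      rw [Complex.ofReal_mul, Complex.ofReal_natCast, mul_assoc]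
    rw [h1, HB4_ex]
    simp only [Complex.ofReal_neg, Complex.ofReal_sub, Complex.ofReal_mul]
    linear_combination ((b t : ℂ) - u t) * (Real.sin (n * t) : ℂ) * Complex.I_mul_I
  simp only [hpt]
  have jR : IntervalIntegrable (fun t : ℝ => ((Real.sin (n * t) * u t - Real.sin (n * t) * b t -
      Real.cos (n * t) * w t : ℝ) : ℂ)) volume 0 (2 * π) := ⟨iR.1.ofReal, iR.2.ofReal⟩
  have jI : IntervalIntegrable (fun t : ℝ => ((Real.cos (n * t) * b t - Real.cos (n * t) * u t -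
      Real.sin (n * t) * w t : ℝ) : ℂ)) volume 0 (2 * π) := ⟨iI.1.ofReal, iI.2.ofReal⟩
  rw [intervalIntegral.integral_add jR (jI.const_mul _), intervalIntegral.integral_const_mul,
    intervalIntegral.integral_ofReal, intervalIntegral.integral_ofReal, r1, r2]
  simp

end Pool.Agent.Work.MP_af796d_an.H
end

-- merged part: Pool.Agent.Work.MP_af796d_an.H.St1
section
/-!
# Stage 1: PresL is equivalent to HSL
PLAN.
* sd_of_hsl: vu_of_vp twice, lpi_of_conj with w = b - u, AI from AInf (mean with s = c - a), common constant by the mono lemmas.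
* ws_of_sd: ms_of_sd, then pa at the constant C' (AI.sd_pos, AI.sd_neg, AI.mono).
* st1, forward: EL_of_presL, ws_of_EL, St.ui, bb_of_presL, hb_of_bb, uv_of_hb; AInf from St.  Backward: sd_of_hsl, ws_of_sd, hb_of_sd, bb_of_hb (St.mono), presL_of_BB.
-/

set_option autoImplicit false

namespace Pool.Agent.Work.MP_af796d_an.H

open MeasureTheory Set Real Metric Filter Topology

lemma St1_ainf {Φ b : ℝ → ℝ} {C : ℝ} (h : St Φ b C) : AInf b := by
  refine ⟨h.ai.meas, h.per, h.ai.ii, h.ai.iie, C, fun y s h0 h1 => ?_⟩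
  have := h.ai.hru y (y + s) (by linarith) (by linarith)
  rwa [add_sub_cancel_left] at this

lemma St1_st {Φ b : ℝ → ℝ} (hΦ : Good Φ) (hb : AInf b)
    (hi : ∀ a c, Φ c - Φ a = ∫ t in a..c, Real.exp (b t)) : ∃ C, St Φ b C := by
  obtain ⟨h1, h2, h3, h4, C, h5⟩ := hb
  refine ⟨C, hΦ, ⟨h1, h3, h4, fun a c hac hc => ?_⟩, h2, hi⟩
  have := h5 a (c - a) (by linarith) (by linarith)
  simpa only [mean, add_sub_cancel] using this

theorem sd_of_hsl {Φ : ℝ → ℝ} (hΦ : Good Φ) (h : HSL Φ) :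
    ∃ (b u v : ℝ → ℝ) (κ C : ℝ), SD Φ b u v κ C := by
  obtain ⟨b, u, v, hi, hb, hu, hv, hc⟩ := h
  obtain ⟨C₀, hS⟩ := St1_st hΦ hb hi
  obtain ⟨C₁, h1⟩ := vu_of_vp hu
  obtain ⟨C₂, h2⟩ := vu_of_vp hv
  have hw : ∀ a c, IntervalIntegrable (fun t => b t - u t) volume a c := fun a c =>
    (hS.ai.ii a c).sub (bdd_intervalIntegrable h1.meas h1.bd a c)
  exact ⟨b, u, v, _, max C₀ (max C₁ C₂), hS.mono (le_max_left _ _),
    h1.mono ((le_max_left _ _).trans (le_max_right _ _)),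
    h2.mono ((le_max_right _ _).trans (le_max_right _ _)),
    lpi_of_conj h2.meas h2.bd hw (hS.per.sub h1.per) hc⟩

theorem ws_of_sd {Φ b u v : ℝ → ℝ} {κ C : ℝ} (h : SD Φ b u v κ C) : ∃ c₀ K : ℝ, C ≤ K ∧ ∀ y,
    WSy b y (fun k => max (1 + gk v y k) c₀) K ∧
      ∀ n, ∑ k ∈ Finset.range n, |max (1 + gk v y k) c₀ - (1 + gk v y k)| ≤ K := by
  obtain ⟨C', hC, H⟩ := ms_of_sd h
  obtain ⟨c₀, K, -, hK, P⟩ := pa C'
  refine ⟨c₀, K, hC.trans hK, fun y => ?_⟩
  obtain ⟨e₁, N₁, e₂, N₂, h1, h2⟩ := H y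
  obtain ⟨⟨M₁, k1⟩, k3⟩ := P _ _ _ _ ((h.st.ai.sd_pos y).mono hC) h1
  obtain ⟨⟨M₂, k2⟩, -⟩ := P _ _ _ _ ((h.st.ai.sd_neg y).mono hC) h2
  exact ⟨⟨M₁, M₂, k1, k2⟩, k3⟩

theorem st1 {Φ : ℝ → ℝ} (hΦ : Good Φ) : PresL Φ ↔ HSL Φ := by
  constructor
  · intro h
    obtain ⟨b, C, hS, hW⟩ := ws_of_EL hΦ (EL_of_presL hΦ h)
    obtain ⟨K₀, hB⟩ := bb_of_presL hΦ hS.ui h
    obtain ⟨K, hH⟩ := hb_of_bb hS hW hB
    obtain ⟨u, v, hu, hv, hc⟩ := uv_of_hb (hS.ai.ii _ _) hH
    exact ⟨b, u, v, hS.int, St1_ainf hS, hu, hv, hc⟩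
  · intro h
    obtain ⟨b, u, v, κ, C, hD⟩ := sd_of_hsl hΦ h
    obtain ⟨c₀, K, hK, hW⟩ := ws_of_sd hD
    obtain ⟨K', hB⟩ := bb_of_hb (hD.st.mono hK) (fun y => ⟨_, (hW y).1⟩) (hb_of_sd hD)
    exact presL_of_BB hΦ hD.st.ui hB

end Pool.Agent.Work.MP_af796d_an.H
end

-- merged part: Pool.Agent.Work.MP_af796d_an.H.FH
section
/-!
# The function FF for the inverse homeomorphism
PLAN.
* St.ui_inv: ui_of_log for Θ.  Θ is onto Φ-inverse on both sides (Good.surj).  Let y' = Φ y, 0 < t ≤ π, r = Θ (y' + t) - y in (0, 2π), so t = S1 r.  If r ≤ π: os_pow with ρ = π gives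
  α (log π - log r - 1) ≤ log (2π) - log t, and log (r/2) ≤ lg r ≤ 1 (le_ch', lg_le).  If r > π put r' = 2π - r: S2 r' = 2π - t ≥ π, lg r = lg r', os_pow on the side -1.
  Negative t is symmetric (exchange the sides).
* fh_of: dc by diffContOnCl_FF with St.ui_inv; re by RR_wg at the point Φ s (FF_re); bd from ‖g‖ ≤ M; ii, prim by H_prim; per by Good.per, wg_periodic, St.per.
  iJ and cj need the change of variables t = Φ s for the unbounded integrand lg (Θ t - x) * wg g t.  Either show that Φ maps the measure e^b ds to Lebesgue measure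
  (Measure.ext_of_Ioc; then integral_map, integrable_map_measure, withDensity), or truncate: log (max (ch ξ) (exp (-N))) is continuous, use cov_var and monotone / dominated convergence
  (1 - truncation increases to 1 - lg off a countable set).  Then JJ_boundary for Θ at the point Φ x, JJ_zero, and Function.Periodic.intervalIntegral_add_eq to move [a, a + 2π] to [Φ (x - π), Φ (x + π)].
* FH.shift: ex x * ex y = ex (y + x); substitutions.
-/

set_option autoImplicit false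

namespace Pool.Agent.Work.MP_af796d_an.H

open MeasureTheory Set Real Metric Filter Topology

lemma FH_side (C : ℝ) : ∃ A : ℝ, ∀ β : ℝ → ℝ, AI β C → SS β π ≤ 2 * π → ∀ r τ, 0 < r → r ≤ π →
    0 < τ → τ ≤ SS β r → |lg r| ≤ A * (1 + |Real.log τ|) := by
  obtain ⟨α, hα, hp⟩ := os_pow C
  refine ⟨1 + 7 / α, fun β hβ hS r τ hr hr1 hτ hτ1 => ?_⟩
  have h3 := pi_gt_three
  have h4 := pi_le_four
  have h1 := hp β hβ r π hr hr1 le_rfl
  have h2 : Real.log (SS β π) ≤ 7 :=
    (Real.log_le_sub_one_of_pos (hβ.SS_pos pi_pos)).trans (by linarith)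
  have h5 := Real.log_le_log hτ hτ1
  have h6 := neg_abs_le (Real.log τ)
  have h7 := abs_nonneg (Real.log τ)
  have h8 : Real.log π - Real.log r - 1 ≤ 7 / α * (1 + |Real.log τ|) := by
    rw [div_mul_eq_mul_div, le_div_iff₀ hα]
    linarith
  have h9 : Real.log r - Real.log π ≤ lg r := by
    rw [← Real.log_div hr.ne' pi_ne_zero]
    refine Real.log_le_log (by positivity) ?_
    have := le_ch' (t := r) (by rwa [abs_of_pos hr])
    rw [abs_of_pos hr] at this
    exact (div_le_div_of_nonneg_left hr.le two_pos (by linarith only [h3])).trans this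
  have h10 := lg_le r
  have h11 : 0 ≤ 7 / α * (1 + |Real.log τ|) := by positivity
  rw [add_mul, abs_le]
  constructor <;> linarith only [h7, h8, h9, h10, h11]

lemma FH_inv {Φ b : ℝ → ℝ} {C : ℝ} (h : St Φ b C) : ∃ A : ℝ, ∀ x y, 0 < Φ x - Φ y →
    Φ x - Φ y ≤ π → |lg (x - y)| ≤ A * (1 + |Real.log (Φ x - Φ y)|) := by
  obtain ⟨A, hA⟩ := FH_side C
  refine ⟨A, fun x y h0 h1 => ?_⟩
  have hm := h.good.mono
  have hxy : y < x := hm.lt_iff_lt.1 (by linarith)
  have hp := pi_pos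
  rcases le_total (x - y) π with hd | hd
  · refine hA _ (h.ai.sd_pos y) ?_ _ _ (by linarith) hd h0 ?_
    · rw [h.SS_pos_eq]
      have := hm.monotone (show y + π ≤ y + 2 * π by linarith)
      rw [h.good.per] at this
      linarith
    · rw [h.SS_pos_eq, add_sub_cancel]
  · have hx : x < y + 2 * π := hm.lt_iff_lt.1 (by rw [h.good.per]; linarith)
    have e : lg (x - y) = lg (y + 2 * π - x) := by
      rw [show y + 2 * π - x = -(x - y) + 2 * π by ring, lg_periodic, lg_neg]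
    rw [e]
    refine hA _ (h.ai.sd_neg y) ?_ _ _ (by linarith) (by linarith) h0 ?_
    · rw [h.SS_neg_eq]
      have := hm.monotone (show y ≤ y - π + 2 * π by linarith)
      rw [h.good.per] at this
      linarith
    · rw [h.SS_neg_eq]
      have := h.good.per (y - (y + 2 * π - x))
      rw [show y - (y + 2 * π - x) + 2 * π = x by ring] at this
      linarith

theorem St.ui_inv {Φ Θ b : ℝ → ℝ} {C : ℝ} (h : St Φ b C) (hΘ : Good Θ) (hi : ∀ t, Θ (Φ t) = t) :
    UI Θ := by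
  obtain ⟨A, hA⟩ := FH_inv h
  refine ui_of_log hΘ (A := A) fun y' s hs hs1 => ?_
  obtain ⟨y, rfl⟩ := h.good.surj y'
  obtain ⟨x, hx⟩ := h.good.surj (Φ y + s)
  obtain rfl : s = Φ x - Φ y := by rw [hx]; ring
  rw [← hx, hi, hi]
  rcases lt_or_gt_of_ne hs with h0 | h0
  · have := hA y x (by linarith) (by linarith [neg_abs_le (Φ x - Φ y)])
    rwa [← neg_sub x y, lg_neg, ← neg_sub (Φ x) (Φ y), Real.log_neg_eq_log] at this
  · exact hA x y h0 ((le_abs_self _).trans hs1)

lemma FH_pre {Φ : ℝ → ℝ} (hΦ : Good Φ) (p q : ℝ) : Φ ⁻¹' Ioc (Φ p) (Φ q) = Ioc p q := by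
  ext s
  simp only [mem_preimage, mem_Ioc, hΦ.mono.lt_iff_lt, hΦ.mono.le_iff_le]

lemma FH_map {Φ b : ℝ → ℝ} {C : ℝ} (h : St Φ b C) : (volume : Measure ℝ) =
    (volume.withDensity fun s => ENNReal.ofReal (Real.exp (b s))).map Φ := by
  refine Measure.ext_of_Ioc _ _ fun a c hac => ?_
  obtain ⟨p, rfl⟩ := h.good.surj a
  obtain ⟨q, rfl⟩ := h.good.surj c
  have hpq : p < q := h.good.mono.lt_iff_lt.1 hac
  rw [Measure.map_apply h.good.cont.measurable measurableSet_Ioc, FH_pre h.good,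
    withDensity_apply _ measurableSet_Ioc, Real.volume_Ioc, h.int,
    intervalIntegral.integral_of_le hpq.le,
    ofReal_integral_eq_lintegral_ofReal (h.ai.iie p q).1
      (Eventually.of_forall fun _ => (Real.exp_pos _).le)]

lemma FH_cov {Φ b : ℝ → ℝ} {C : ℝ} (h : St Φ b C) {f : ℝ → ℝ} {p q : ℝ} (hpq : p ≤ q)
    (hf : IntervalIntegrable f volume (Φ p) (Φ q)) :
    IntervalIntegrable (fun s => Real.exp (b s) * f (Φ s)) volume p q ∧
      ∫ s in p..q, Real.exp (b s) * f (Φ s) = ∫ t in (Φ p)..(Φ q), f t := by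
  have hm := h.good.cont.measurable
  have hd : Measurable fun s => ENNReal.ofReal (Real.exp (b s)) := h.ai.meas.exp.ennreal_ofReal
  have e : (volume : Measure ℝ).restrict (Ioc (Φ p) (Φ q)) =
      ((volume.restrict (Ioc p q)).withDensity fun s => ENNReal.ofReal (Real.exp (b s))).map Φ := by
    rw [← restrict_withDensity measurableSet_Ioc, ← FH_pre h.good p q,
      ← Measure.restrict_map hm measurableSet_Ioc, ← FH_map h]
  have h1 : Integrable f (volume.restrict (Ioc (Φ p) (Φ q))) := hf.1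
  rw [intervalIntegrable_iff_integrableOn_Ioc_of_le hpq, intervalIntegral.integral_of_le hpq,
    intervalIntegral.integral_of_le (h.good.mono.monotone hpq), e]
  rw [e] at h1
  have hlt : ∀ᵐ s ∂(volume.restrict (Ioc p q)), ENNReal.ofReal (Real.exp (b s)) < ⊤ :=
    Eventually.of_forall fun _ => ENNReal.ofReal_lt_top
  have h2 := (integrable_withDensity_iff_integrable_smul' hd hlt).1
    ((integrable_map_measure h1.aestronglyMeasurable hm.aemeasurable).1 h1)
  rw [integral_map hm.aemeasurable h1.aestronglyMeasurable,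
    integral_withDensity_eq_integral_toReal_smul hd hlt]
  simp only [ENNReal.toReal_ofReal (Real.exp_pos _).le, smul_eq_mul, Function.comp_apply] at h2 ⊢
  exact ⟨h2, trivial⟩

theorem fh_of {Φ Θ b : ℝ → ℝ} {C M : ℝ} (h : St Φ b C) (hΘ : Good Θ) (hi : ∀ t, Θ (Φ t) = t)
    {g : ℂ → ℂ} (hg : AnalyticOnNhd ℂ g (closedBall 0 1)) (hM : ∀ z : ℂ, ‖z‖ ≤ 1 → ‖g z‖ ≤ M)
    (a : ℝ) : FH (FF Θ (wg g) a) (fun s => (g (ex (Φ s))).re - (g (ex a)).re)
      (fun s => wg g (Φ s) * Real.exp (b s)) (2 * M) := by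
  obtain ⟨B, hB⟩ := exists_bound_wg hg
  have hU := h.ui_inv hΘ hi
  have hf : ∀ x p q, IntervalIntegrable (fun t => lg (Θ t - Θ (Φ x)) * wg g t) volume p q :=
    fun x p q => (hU.1 _ p q).mul_continuousOn (continuous_wg hg).continuousOn
  have he : ∀ x, (fun s => lg (s - x) * (wg g (Φ s) * Real.exp (b s))) =
      fun s => Real.exp (b s) * (lg (Θ (Φ s) - Θ (Φ x)) * wg g (Φ s)) := fun x => by
    ext s
    rw [hi, hi]
    ring
  refine ⟨diffContOnCl_FF hΘ hU (continuous_wg hg).measurable hB, fun s => ?_, fun s => ?_,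
    fun p q => (H_prim h hg p q).1, fun p q => ?_, fun s => ?_, fun x p q => ?_, fun x => ?_⟩
  · have := RR_wg hΘ hg a (Φ s)
    rw [hi] at this
    rw [FF_re, ← this, add_sub_cancel_right]
  · have h1 := (Complex.abs_re_le_norm _).trans (hM _ (norm_ex (Φ s)).le)
    have h2 := (Complex.abs_re_le_norm _).trans (hM _ (norm_ex a).le)
    refine (abs_sub _ _).trans ?_
    linarith
  · rw [← (H_prim h hg p q).2]
    ring
  · simp only [h.good.per, wg_periodic g (Φ s), h.per s]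
  · rw [he]
    rcases le_total p q with hpq | hpq
    · exact (FH_cov h hpq (hf x _ _)).1
    · exact (FH_cov h hpq (hf x _ _)).1.symm
  · have h1 := JJ_boundary Θ (wg g) a (Φ x)
    have hp : Function.Periodic (fun t => lg (Θ t - Θ (Φ x)) * wg g t) (2 * π) :=
      (hΘ.lg_periodic _).mul (wg_periodic g)
    have h2 := (FH_cov h (show x + -π ≤ x + π by linarith [pi_pos]) (hf x _ _)).2
    have h3 : Φ (x + π) = Φ (x + -π) + 2 * π := by
      rw [← h.good.per]; congr 1; ring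
    rw [h3, hp.intervalIntegral_add_eq _ a, ← he,
      ← intervalIntegral.integral_comp_add_left
        (fun s => lg (s - x) * (wg g (Φ s) * Real.exp (b s))) x] at h2
    simp only [add_sub_cancel_left] at h2
    rw [← h2, hi] at h1
    rw [FF_im, FF_im, JJ_zero, sub_zero, h1]

lemma FH.shift {F : ℂ → ℂ} {H H' : ℝ → ℝ} {M : ℝ} (h : FH F H H' M) (y : ℝ) :
    FH (fun z => F (z * ex y)) (fun s => H (y + s)) (fun s => H' (y + s)) M := by
  refine ⟨h.dc.comp (Differentiable.diffContOnCl (by fun_prop)) fun z hz => ?_, fun s => ?_,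
    fun s => h.bd _, fun a c => ?_, fun a c => ?_, fun s => ?_, fun x a c => ?_, fun x => ?_⟩
  · simpa [norm_ex] using hz
  · rw [← ex_add, add_comm s y, h.re]
  · simpa using (h.ii (y + a) (y + c)).comp_add_left y
  · rw [intervalIntegral.integral_comp_add_left H' y, h.prim]
  · simp only [← add_assoc, h.per (y + s)]
  · simpa using (h.iJ (y + x) (y + a) (y + c)).comp_add_left y
  · rw [← ex_add, add_comm x y, zero_mul, ← h.cj]
    simp only [add_assoc]

end Pool.Agent.Work.MP_af796d_an.H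
end

-- merged part: Pool.Agent.Work.MP_af796d_an.H.Rec
section
/-!
# Closing the recursion with a budget
PLAN.  κ = 4 e (A + 1), ε = 1/(3 κ), K0 = 2 (1 + 2 A K/ε), K' = K0 exp (κ K).  G y k = sSup of sum_{i in Ico k n} ah i z over |z - y| ≤ 4 rr k, in [0, K].
Claim by downward strong induction on k ≤ n: Mk k y ≤ K0 B exp (κ G y k) for all y.  Fix k, y.  sum_{Ico k n} a j y ≤ 2 K (take z = y).
Terms with a j y > ε: J ≤ B ≤ B a j y/ε, total ≤ 2 K B/ε.  Terms with a j y ≤ ε: for |x - y| ≤ 2 rr j and |z - x| ≤ 4 rr (j+1) we have |z - y| ≤ 4 rr j ≤ 4 rr k, and 4 rr j ≤ rr i/16 when i + 6 ≤ j, so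
G x (j+1) ≤ G y k - (1/2) sum_{k ≤ i, i + 6 ≤ j} a i y ≤ G y k - (1/2)(s j - 6 ε), where s j = sum_{k ≤ i ≤ j} a0 i and a0 i = a i y if a i y ≤ ε, else 0.
So J j y ≤ a0 j * K0 B exp (κ G y k) * e * exp (-(κ/2) s j), and riem gives sum ≤ 2/κ.  Total: B + 2 A K B/ε + A e (2/κ) K0 B exp (κ G) ≤ K0 B exp (κ G).
* riem: a exp (-λ (s + a)) ≤ (exp (-λ s) - exp (-λ (s + a)))/λ from λ a + 1 ≤ exp (λ a); telescope.
-/

set_option autoImplicit false

namespace Pool.Agent.Work.MP_af796d_an.H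

open MeasureTheory Set Real Metric Filter Topology

lemma riem {a : ℕ → ℝ} (ha : ∀ i, 0 ≤ a i) {lam : ℝ} (hl : 0 < lam) (k n : ℕ) :
    ∑ j ∈ Finset.Ico k n, a j * Real.exp (-(lam * ∑ i ∈ Finset.Ico k (j + 1), a i)) ≤ 1 / lam := by
  rcases le_or_gt k n with h | h
  · have key : ∑ j ∈ Finset.Ico k n, a j * Real.exp (-(lam * ∑ i ∈ Finset.Ico k (j + 1), a i)) ≤
        (1 - Real.exp (-(lam * ∑ i ∈ Finset.Ico k n, a i))) / lam := by
      induction n, h using Nat.le_induction with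
      | base => simp
      | succ n hn ih =>
        rw [Finset.sum_Ico_succ_top hn]
        have e : Real.exp (-(lam * ∑ i ∈ Finset.Ico k n, a i)) =
            Real.exp (-(lam * ∑ i ∈ Finset.Ico k (n + 1), a i)) * Real.exp (lam * a n) := by
          rw [← Real.exp_add, Finset.sum_Ico_succ_top hn]
          ring_nf
        have h1 := mul_le_mul_of_nonneg_left (Real.add_one_le_exp (lam * a n))
          (Real.exp_pos (-(lam * ∑ i ∈ Finset.Ico k (n + 1), a i))).le
        rw [e, le_div_iff₀ hl] at ih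
        rw [le_div_iff₀ hl]
        linarith only [ih, h1]
    exact key.trans (div_le_div_of_nonneg_right (sub_le_self _ (Real.exp_pos _).le) hl.le)
  · rw [Finset.Ico_eq_empty_of_le h.le, Finset.sum_empty]
    positivity

lemma Rec_rr {i j : ℕ} (h : i + 6 ≤ j) : 4 * rr j ≤ rr i / 16 := by
  have h1 := rr_anti h
  simp only [rr_succ] at h1
  linarith only [h1]

lemma Rec_card (k j : ℕ) {ε : ℝ} (hε : 0 ≤ ε) :
    ∑ i ∈ Finset.Ico k (j + 1), (if j < i + 6 then ε else 0) ≤ 6 * ε := by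
  rw [← Finset.sum_filter, Finset.sum_const, nsmul_eq_mul]
  refine mul_le_mul_of_nonneg_right ?_ hε
  have h : ((Finset.Ico k (j + 1)).filter fun i => j < i + 6) ⊆ Finset.Ico (j - 5) (j + 1) := by
    intro i hi
    simp only [Finset.mem_filter, Finset.mem_Ico] at hi ⊢
    omega
  have h2 := Finset.card_le_card h
  rw [Nat.card_Ico] at h2
  exact_mod_cast h2.trans (by omega)

theorem rec_close (A K : ℝ) (hA : 0 ≤ A) (hK : 0 ≤ K) : ∃ K' : ℝ, 0 ≤ K' ∧
    ∀ (n : ℕ) (B : ℝ) (Mk a ah J : ℕ → ℝ → ℝ), 0 ≤ B →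
      (∀ j y D, (∀ x, |x - y| ≤ 2 * rr j → Mk (j + 1) x ≤ D) → J j y ≤ a j y * D) →
      (∀ j y, J j y ≤ B) → (∀ j y, 0 ≤ a j y) → (∀ j z, 0 ≤ ah j z) →
      (∀ j y z, |z - y| ≤ rr j / 16 → a j y ≤ 2 * ah j z) →
      (∀ z, ∑ j ∈ Finset.range n, ah j z ≤ K) →
      (∀ k, k ≤ n → ∀ y, Mk k y ≤ B + A * ∑ j ∈ Finset.Ico k n, J j y) →
      ∀ y, Mk 0 y ≤ K' * B := by
  obtain ⟨κ, hκ⟩ : ∃ κ : ℝ, κ = 4 * Real.exp 1 * (A + 1) := ⟨_, rfl⟩
  have κ0 : 0 < κ := by rw [hκ]; positivity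
  obtain ⟨ε, hε⟩ : ∃ ε : ℝ, ε = 1 / (3 * κ) := ⟨_, rfl⟩
  have ε0 : 0 < ε := by rw [hε]; positivity
  have ε1 : 3 * κ * ε = 1 := by rw [hε]; field_simp
  obtain ⟨K0, hK0⟩ : ∃ K0 : ℝ, K0 = 2 * (1 + A * (2 * K / ε)) := ⟨_, rfl⟩
  have K1 : 0 ≤ A * (2 * K / ε) := by positivity
  have K2 : 0 ≤ K0 := by linarith only [hK0, K1]
  refine ⟨K0 * Real.exp (κ * K), by positivity, ?_⟩
  intro n B Mk a ah J hB h1 h2 h3 h4 h5 h6 h7
  have key : ∀ d k, n ≤ k + d → k ≤ n → ∀ y g,
      (∀ z, |z - y| ≤ 4 * rr k → ∑ i ∈ Finset.Ico k n, ah i z ≤ g) →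
      Mk k y ≤ K0 * B * Real.exp (κ * g) := by
    intro d
    induction d using Nat.strong_induction_on with
    | _ d ih =>
    intro k hd hk y g hg
    have g0 : 0 ≤ g := (Finset.sum_nonneg fun i _ => h4 i y).trans
      (hg y (by rw [sub_self, abs_zero]; linarith only [rr_pos k]))
    have E1 : 1 ≤ Real.exp (κ * g) := Real.one_le_exp (by positivity)
    obtain ⟨T, hT⟩ : ∃ T : ℝ, T = K0 * B * Real.exp (κ * g) := ⟨_, rfl⟩
    have T0 : K0 * B ≤ T := hT ▸ le_mul_of_one_le_right (by positivity) E1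
    have T1 : 0 ≤ T := le_trans (by positivity) T0
    let a0 : ℕ → ℝ := fun i => if a i y ≤ ε then a i y else 0
    have a00 : ∀ i, 0 ≤ a0 i := fun i => by
      simp only [a0]
      split_ifs
      exacts [h3 i y, le_rfl]
    have hJ : ∀ j ∈ Finset.Ico k n, J j y ≤ B / ε * a j y + T * Real.exp 1 *
        (a0 j * Real.exp (-(κ / 2 * ∑ i ∈ Finset.Ico k (j + 1), a0 i))) := by
      intro j hj
      obtain ⟨j1, j2⟩ := Finset.mem_Ico.1 hj
      have p1 : 0 ≤ B / ε * a j y := mul_nonneg (by positivity) (h3 j y)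
      by_cases hs : a j y ≤ ε
      · have h8 := h1 j y (K0 * B * Real.exp (κ * (g - ((∑ i ∈ Finset.Ico k (j + 1), a0 i) -
            6 * ε) / 2))) fun x hx => ih (n - (j + 1)) (by omega) (j + 1) (by omega) j2 x _
          fun z hz => by
            have z1 : |z - y| ≤ 4 * rr j := by
              have := abs_sub_le z x y
              rw [rr_succ] at hz
              linarith only [hx, hz, this]
            have z2 := hg z (z1.trans (by linarith only [j1, rr_anti j1]))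
            rw [← Finset.sum_Ico_consecutive _ (j1.trans (Nat.le_succ j)) j2] at z2
            have z3 : ∑ i ∈ Finset.Ico k (j + 1), a0 i ≤ ∑ i ∈ Finset.Ico k (j + 1),
                (2 * ah i z + if j < i + 6 then ε else 0) := Finset.sum_le_sum fun i _ => by
              have := h4 i z
              simp only [a0]
              split_ifs with c1 c2 c2
              · linarith only [this, c1]
              · linarith only [h5, z1, c2, h5 i y z (z1.trans (Rec_rr (by omega)))]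
              · linarith only [ε0, this]
              · linarith only [this]
            rw [Finset.sum_add_distrib, ← Finset.mul_sum] at z3
            linarith only [z2, z3, ε0, Rec_card k j ε0.le]
        have e : K0 * B * Real.exp (κ * (g - ((∑ i ∈ Finset.Ico k (j + 1), a0 i) - 6 * ε) / 2)) =
            T * Real.exp 1 * Real.exp (-(κ / 2 * ∑ i ∈ Finset.Ico k (j + 1), a0 i)) := by
          rw [hT, mul_assoc (K0 * B), mul_assoc (K0 * B), ← Real.exp_add, ← Real.exp_add, ← ε1]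
          ring_nf
        have e2 : a0 j = a j y := if_pos hs
        rw [e] at h8
        rw [e2]
        linarith only [p1, h8]
      · have p2 : B / ε * ε ≤ B / ε * a j y :=
          mul_le_mul_of_nonneg_left (not_le.1 hs).le (by positivity)
        rw [div_mul_cancel₀ _ ε0.ne'] at p2
        have p3 := a00 j
        exact ((h2 j y).trans p2).trans (le_add_of_nonneg_right (by positivity))
    have s1 : ∑ j ∈ Finset.Ico k n, a j y ≤ 2 * K := by
      refine (Finset.sum_le_sum fun j _ =>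
        h5 j y y (by rw [sub_self, abs_zero]; linarith only [rr_pos j])).trans ?_
      rw [← Finset.mul_sum]
      refine mul_le_mul_of_nonneg_left (le_trans ?_ (h6 y)) zero_le_two
      exact Finset.sum_le_sum_of_subset_of_nonneg
        (fun i hi => Finset.mem_range.2 (Finset.mem_Ico.1 hi).2) fun i _ _ => h4 i y
    have s2 := Finset.sum_le_sum hJ
    rw [Finset.sum_add_distrib, ← Finset.mul_sum, ← Finset.mul_sum] at s2
    have s3 := mul_le_mul_of_nonneg_left s1 (by positivity : 0 ≤ B / ε)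
    have s4 := mul_le_mul_of_nonneg_left (riem a00 (half_pos κ0) k n)
      (by positivity : 0 ≤ T * Real.exp 1)
    have s5 := mul_le_mul_of_nonneg_left (s2.trans (add_le_add s3 s4)) hA
    have s6 : A * (T * Real.exp 1 * (1 / (κ / 2))) ≤ T / 2 := by
      have e : T * Real.exp 1 * (1 / (κ / 2)) = T / 2 / (A + 1) := by
        rw [hκ]
        field_simp
        ring
      rw [e, ← mul_div_assoc, div_le_iff₀ (by linarith only [hA])]
      linarith only [T1]
    have s7 : B + A * (B / ε * (2 * K)) = K0 * B / 2 := by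
      rw [hK0]
      ring
    rw [← hT]
    rw [mul_add] at s5
    linarith only [T0, s5, s6, s7, h7, hk, h7 k hk y]
  intro y
  refine (key n 0 (by omega) (Nat.zero_le n) y K fun z _ => ?_).trans_eq (by ring)
  rw [← Finset.range_eq_Ico]
  exact h6 z

end Pool.Agent.Work.MP_af796d_an.H
end

-- merged part: Pool.Agent.Work.MP_af796d_an.H.St2
section
/-!
# Stage 2: the inverse homeomorphism
PLAN.  sd_of_hsl, ws_of_sd give SD at C and WSy, clamp sums at K1 ≥ C (SD.mono).  Show BB Θ K and conclude with presL_of_BB, St.ui_inv.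
Given g, M, y': if M = 0 then wg g = 0.  Otherwise F = FF Θ (wg g) y', fh_of, n from MK_small with ε = M.  For y and k ≤ n: stepD for the rotated function (FH.shift, a0 = Re g (ex y')), MK_rot, jn_le with vd_of_vi:
MK F y k ≤ M + K M + K * 800 M * 32 K1 + K sum J1.  B = (1 + K + 25600 K K1 + 480 K1) M; rec_close with Mk k y = MK F y k, a1, ah, J1.  Finally with y = Θ y':
MK F y 0 = |JJ Θ (wg g) y' (ex (Θ y'))| (IK_zero, FF_im, JJ_zero) = (1/π) |∫ lg (Θ t - Θ y') wg g t| (JJ_boundary).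
-/

set_option autoImplicit false

namespace Pool.Agent.Work.MP_af796d_an.H

open MeasureTheory Set Real Metric Filter Topology

lemma St2_sum {N : ℕ → ℝ} {C : ℝ} (h : SM N C) (k n : ℕ) : ∑ j ∈ Finset.Ico k n, N j ≤ C := by
  refine le_trans (Finset.sum_le_sum_of_subset_of_nonneg ?_ fun j _ _ => h.nn j) (h.sum n)
  intro j hj
  exact Finset.mem_range.2 (Finset.mem_Ico.1 hj).2

theorem bb_inv {Φ Θ b u v : ℝ → ℝ} {κ C : ℝ} (h : SD Φ b u v κ C) (hΘ : Good Θ)
    (hi : ∀ t, Θ (Φ t) = t) : ∃ K, BB Θ K := by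
  obtain ⟨c₀, K1, hK1, hW⟩ := ws_of_sd h
  have h1 : SD Φ b u v κ K1 := h.mono hK1
  obtain ⟨K, hK0, hD⟩ := stepD K1
  have hK10 : 0 ≤ K1 := (abs_nonneg _).trans ((h1.vv.pos 0).bd 0)
  obtain ⟨K', hK'0, hR⟩ := rec_close K (576 * K1) hK0 (by positivity)
  refine ⟨π * (K' * (1 + K + 25600 * K * K1 + 480 * K1)), fun g hg M hM y' => ?_⟩
  have hM0 : 0 ≤ M := (norm_nonneg _).trans (hM 0 (by simp))
  rcases hM0.eq_or_lt with hz | hpos
  · subst hz
    have e : (fun t => (g (ex t)).re) = fun _ => (0 : ℝ) := by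
      funext t
      have := norm_le_zero_iff.1 (hM _ (norm_ex t).le)
      rw [this, Complex.zero_re]
    have hw : ∀ t, wg g t = 0 := fun t =>
      (hasDerivAt_wg hg t).unique (e ▸ hasDerivAt_const t 0)
    simp [hw]
  have hF := fh_of h.st hΘ hi hg hM y'
  generalize hFd : FF Θ (wg g) y' = F at hF
  have hM' : ∀ t, |(F (ex t)).re| ≤ 2 * M := fun t => by
    rw [← hF.re t]; exact hF.bd t
  obtain ⟨n, hn⟩ := MK_small hF.dc hpos
  have hKM : 0 ≤ K * M := by positivity
  have hKKM : 0 ≤ K * K1 * M := by positivity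
  have hK1M : 0 ≤ K1 * M := by positivity
  have key := hR n ((1 + K + 25600 * K * K1 + 480 * K1) * M) (fun k y => MK F y k) (a1 v) (ah v)
    (J1 v F) (by positivity) (fun j y D hD' => j1_le_a h1.vv hF.dc j y D hD')
    (fun j y => (j1_le h1.vv hF.dc hM' j y).trans (by linarith only [hpos, hKM, hKKM]))
    (a1_nonneg v) (ah_nonneg v) (fun j y z hz => a1_le_ah h1.vv j hz)
    (fun z => ah_sum h1.vv n z) (fun k hk y => by
      obtain ⟨n₁, hn₁⟩ := vd_of_vi (h1.vv.pos y)
      obtain ⟨n₂, hn₂⟩ := vd_of_vi (h1.vv.neg y)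
      have s1 := hD Φ b u v _ _ g κ y M (g (ex y')).re _ k n h1 (hW y).1 (hW y).2 hg hM
        (hF.shift y) hk
      rw [MK_rot, MK_rot, add_zero] at s1
      have s2 : ∑ j ∈ Finset.Ico k n, JN v y (fun z => F (z * ex y)) j ≤
          ∑ j ∈ Finset.Ico k n, (J1 v F j y + 400 * (2 * M) * (n₁ j + n₂ j)) :=
        Finset.sum_le_sum fun j _ => jn_le h1.vv hF.dc hM' hn₁ hn₂ j
      rw [Finset.sum_add_distrib, ← Finset.mul_sum, Finset.sum_add_distrib] at s2
      have s3 := St2_sum hn₁.sm k n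
      have s4 := St2_sum hn₂.sm k n
      have s5 : 400 * (2 * M) * (∑ j ∈ Finset.Ico k n, n₁ j + ∑ j ∈ Finset.Ico k n, n₂ j) ≤
          400 * (2 * M) * (32 * K1) :=
        mul_le_mul_of_nonneg_left (by linarith only [s3, s4]) (by positivity)
      have s6 := mul_le_mul_of_nonneg_left (s2.trans (add_le_add le_rfl s5)) hK0
      have s7 := hn y
      linarith only [hK1M, s1, s6, s7]) (Θ y')
  simp only [MK, IK_zero] at key
  rw [← hFd, FF_im, FF_im, JJ_zero, sub_zero, JJ_boundary, abs_mul,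
    abs_of_pos (by positivity : (0 : ℝ) < 1 / π), one_div, inv_mul_le_iff₀ pi_pos] at key
  calc _ ≤ _ := key
    _ = _ := by ring

theorem st2 {Φ Θ : ℝ → ℝ} (hΦ : Good Φ) (hΘ : Good Θ) (hi : ∀ t, Θ (Φ t) = t) (h : HSL Φ) :
    PresL Θ := by
  obtain ⟨b, u, v, κ, C, hS⟩ := sd_of_hsl hΦ h
  obtain ⟨K, hK⟩ := bb_inv hS hΘ hi
  exact presL_of_BB hΘ (hS.st.ui_inv hΘ hi) hK

end Pool.Agent.Work.MP_af796d_an.H
end
end
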